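import Pool.Agent.P.MP_2e9c36_lc.YDefs
import Pool.Agent.P.MP_5f3b23_lc.ZUlt

set_option autoImplicit false
set_option synthInstance.maxSize 4000

/-! Predicates given by one formula in all structures; countable elementary substructures. -/

open Pool.Agent.Lib.PosetForcing

namespace Pool.Agent.P.MP_5f3b23_lc.Zf

universe v

/-- predicates that one formula defines in all structures -/
class UD (P : ∀ M : Type v, (M → M → Prop) → (ℕ → M) → Prop) : Prop where
  out : ∃ n, (∀ M mem (v w : ℕ → M), (∀ i < n, v i = w i) → (P M mem v ↔ P M mem w)) ∧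
    ∀ s : ℕ → ℕ, ∃ φ : Fml, ∀ M mem (w : ℕ → M), Sat mem φ w ↔ P M mem fun i => w (s i)

theorem UD.congr {P Q : ∀ M : Type v, (M → M → Prop) → (ℕ → M) → Prop} (h : UD P)
    (e : ∀ M mem v, P M mem v ↔ Q M mem v) : UD Q := by
  have : P = Q := funext fun M => funext fun mem => funext fun v => propext (e M mem v)
  exact this ▸ h

theorem UD.fml (P : ∀ M : Type v, (M → M → Prop) → (ℕ → M) → Prop) [h : UD P] :
    ∃ φ : Fml, ∀ M mem (w : ℕ → M), Sat mem φ w ↔ P M mem w := h.out.choose_spec.2 id

theorem UD.ren {P : ∀ M : Type v, (M → M → Prop) → (ℕ → M) → Prop} (h : UD P) (t : ℕ → ℕ) :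
    UD fun M mem v => P M mem fun i => v (t i) := by
  obtain ⟨n, h1, h2⟩ := h.out
  refine ⟨(Finset.range n).sup t + 1, fun M mem v w e => h1 M mem _ _ fun i hi => e _ ?_,
    fun s => h2 fun i => s (t i)⟩
  exact Nat.lt_succ_of_le (Finset.le_sup (f := t) (Finset.mem_range.2 hi))

instance ud_mem (i j : ℕ) : UD.{v} fun _ mem v => mem (v i) (v j) :=
  ⟨i + j + 1, fun _ _ v w h => by simp only [h i (by omega), h j (by omega)],
    fun s => ⟨.mem (s i) (s j), fun _ _ _ => Iff.rfl⟩⟩

instance ud_eq (i j : ℕ) : UD.{v} fun _ _ v => v i = v j :=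
  ⟨i + j + 1, fun _ _ v w h => by simp only [h i (by omega), h j (by omega)],
    fun s => ⟨.eq (s i) (s j), fun _ _ _ => Iff.rfl⟩⟩

section
variable (P Q : ∀ M : Type v, (M → M → Prop) → (ℕ → M) → Prop) [h : UD P] [h' : UD Q]

instance ud_not : UD fun M mem v => ¬ P M mem v := by
  obtain ⟨n, h1, h2⟩ := h.out
  refine ⟨n, fun M mem v w e => not_congr (h1 M mem v w e), fun s => ?_⟩
  obtain ⟨φ, hφ⟩ := h2 s
  exact ⟨.neg φ, fun M mem w => not_congr (hφ M mem w)⟩

instance ud_and : UD fun M mem v => P M mem v ∧ Q M mem v := by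
  obtain ⟨n, h1, h2⟩ := h.out
  obtain ⟨n', h1', h2'⟩ := h'.out
  refine ⟨n + n', fun M mem v w e => and_congr (h1 M mem v w fun i hi => e i (by omega))
    (h1' M mem v w fun i hi => e i (by omega)), fun s => ?_⟩
  obtain ⟨φ, hφ⟩ := h2 s
  obtain ⟨ψ, hψ⟩ := h2' s
  exact ⟨.and φ ψ, fun M mem w => and_congr (hφ M mem w) (hψ M mem w)⟩

instance ud_or : UD fun M mem v => P M mem v ∨ Q M mem v :=
  (inferInstance : UD fun M mem v => ¬ (¬ P M mem v ∧ ¬ Q M mem v)).congr fun _ _ _ => by tauto

instance ud_imp : UD fun M mem v => P M mem v → Q M mem v :=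
  (inferInstance : UD fun M mem v => ¬ (P M mem v ∧ ¬ Q M mem v)).congr fun _ _ _ => by tauto

instance ud_iff : UD fun M mem v => P M mem v ↔ Q M mem v :=
  (inferInstance : UD fun M mem v => (P M mem v → Q M mem v) ∧ (Q M mem v → P M mem v)).congr
    fun _ _ _ => by tauto

end

instance ud_true : UD.{v} fun _ _ _ => True :=
  (ud_eq 0 0).congr fun _ _ _ => by simp

section
variable (P : ∀ M : Type v, (M → M → Prop) → M → (ℕ → M) → Prop)
  [h : UD fun M mem v => P M mem (v 0) fun i => v (i + 1)]

instance ud_all : UD fun M mem v => ∀ x, P M mem x v := by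
  obtain ⟨n, h1, h2⟩ := h.out
  refine ⟨n, fun M mem v w e => forall_congr' fun x => h1 M mem (cons x v) (cons x w)
    fun i hi => ?_, fun s => ?_⟩
  · cases i with
    | zero => rfl
    | succ i => exact e i (by omega)
  · obtain ⟨m, hm⟩ : ∃ m, ∀ i < n, s i < m :=
      ⟨(Finset.range n).sup s + 1, fun i hi =>
        Nat.lt_succ_of_le (Finset.le_sup (f := s) (Finset.mem_range.2 hi))⟩
    obtain ⟨φ, hφ⟩ := h2 fun i => Nat.casesOn i m s
    refine ⟨.all m φ, fun M mem w => forall_congr' fun x => (hφ M mem _).trans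
      (h1 M mem (fun i => Function.update w m x (Nat.casesOn i m s)) (cons x fun i => w (s i))
        fun i hi => ?_)⟩
    cases i with
    | zero => exact Function.update_self ..
    | succ i => exact Function.update_of_ne (hm i (by omega)).ne ..

instance ud_ex : UD fun M mem v => ∃ x, P M mem x v :=
  (inferInstance : UD fun M mem v => ¬ ∀ x, ¬ P M mem x v).congr fun _ _ _ => by simp

instance ud_exu : UD fun M mem v => ∃! x, P M mem x v := by
  have := h.ren fun i => Nat.casesOn i 0 fun j => j + 2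
  have h2 : UD fun M mem v => P M mem (v 0) fun i => v (i + 1 + 1) := this
  unfold ExistsUnique
  infer_instance

end

theorem ud_sat (φ : Fml) : UD.{v} fun _ mem v => Sat mem φ v := by
  induction φ with
  | mem i j => exact ud_mem i j
  | eq i j => exact ud_eq i j
  | neg φ ih => exact ud_not _
  | and φ ψ ih ih' => exact ud_and _ _
  | all i φ ih =>
    have h : UD.{v} fun M mem v =>
        Sat mem φ (Function.update (fun n => v (n + 1)) i (v 0)) :=
      (ih.ren fun n => if n = i then 0 else n + 1).congr fun M mem v => by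
        apply Iff.of_eq
        congr 1
        funext n
        by_cases e : n = i <;> simp [e]
    exact ud_all fun M mem x v => Sat mem φ (Function.update v i x)

instance ud_isSub (i j : ℕ) : UD.{v} fun _ mem v => IsSub mem (v i) (v j) := by
  unfold IsSub; infer_instance

instance ud_isUPair (i j k : ℕ) : UD.{v} fun _ mem v => IsUPair mem (v i) (v j) (v k) := by
  unfold IsUPair; infer_instance

instance ud_isPair (i j k : ℕ) : UD.{v} fun _ mem v => IsPair mem (v i) (v j) (v k) := by
  unfold IsPair; infer_instance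

instance ud_app (i j k : ℕ) : UD.{v} fun _ mem v => App mem (v i) (v j) (v k) := by
  unfold App; infer_instance

instance ud_isFun (i j k : ℕ) : UD.{v} fun _ mem v => IsFun mem (v i) (v j) (v k) := by
  unfold IsFun IsFunOn; infer_instance

instance ud_isInj (i j k : ℕ) : UD.{v} fun _ mem v => IsInj mem (v i) (v j) (v k) := by
  unfold IsInj; infer_instance

instance ud_leCard (i j : ℕ) : UD.{v} fun _ mem v => LeCard mem (v i) (v j) := by
  unfold LeCard; infer_instance

instance ud_isSucc (i j : ℕ) : UD.{v} fun _ mem v => IsSucc mem (v i) (v j) := by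
  unfold IsSucc; infer_instance

instance ud_isInductive (i : ℕ) : UD.{v} fun _ mem v => IsInductive mem (v i) := by
  unfold IsInductive; infer_instance

instance ud_isOmega (i : ℕ) : UD.{v} fun _ mem v => IsOmega mem (v i) := by
  unfold IsOmega; infer_instance

instance ud_isMeasure (i j : ℕ) :
    UD.{v} fun _ mem v => MP_2e9c36_lc.IsMeasure mem (v i) (v j) := by
  unfold MP_2e9c36_lc.IsMeasure; infer_instance

instance ud_isMeasurable (i : ℕ) :
    UD.{v} fun _ mem v => MP_2e9c36_lc.IsMeasurable mem (v i) := by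
  unfold MP_2e9c36_lc.IsMeasurable; infer_instance

deriving instance Countable for Fml

theorem countable_lists {X : Type v} {S : Set X} (h : S.Countable) :
    {l : List X | ∀ x ∈ l, x ∈ S}.Countable := by
  have := h.to_subtype
  refine (Set.countable_range (List.map (Subtype.val : S → X))).mono fun l hl => ?_
  exact ⟨l.attachWith _ hl, by simp⟩

theorem ex_elem {M : Type v} (mem : M → M → Prop) (k : M) : ∃ S : Set M, S.Countable ∧ k ∈ S ∧
    ∀ (φ : Fml) (v : ℕ → S), Sat (fun a b : S => mem a b) φ v ↔ Sat mem φ fun i => v i := by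
  have : Nonempty M := ⟨k⟩
  let wit : Fml × ℕ × List M → M := fun a =>
    Classical.epsilon fun x => ¬ Sat mem a.1 (Function.update (fun n => a.2.2.getD n k) a.2.1 x)
  let T : ℕ → Set M := fun n =>
    Nat.rec {k} (fun _ S => S ∪ wit '' {a | ∀ x ∈ a.2.2, x ∈ S}) n
  have hT : ∀ n, (T n).Countable := fun n => by
    induction n with
    | zero => exact Set.countable_singleton k
    | succ n ih =>
      refine ih.union (Set.Countable.image ?_ _)
      exact (Set.countable_univ.prod (Set.countable_univ.prod (countable_lists ih))).mono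
        fun a ha => Set.mem_prod.2 ⟨Set.mem_univ _, Set.mem_prod.2 ⟨Set.mem_univ _, ha⟩⟩
  have hm : Monotone T := monotone_nat_of_le_succ fun n => Set.subset_union_left
  refine ⟨⋃ n, T n, Set.countable_iUnion hT, Set.mem_iUnion.2 ⟨0, rfl⟩, fun φ => ?_⟩
  induction φ with
  | mem i j => exact fun _ => Iff.rfl
  | eq i j => exact fun _ => Subtype.ext_iff
  | neg φ ih => exact fun v => not_congr (ih v)
  | and φ ψ ih ih' => exact fun v => and_congr (ih v) (ih' v)
  | all i φ ih =>
    intro v
    have e : ∀ x : (⋃ n, T n : Set M), (fun n => ((Function.update v i x n : (⋃ n, T n : Set M)) : M))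
        = Function.update (fun n => (v n : M)) i x := fun x => by
      funext n
      by_cases h : n = i <;> simp [h]
    refine ⟨fun h => ?_, fun h x => (ih _).2 (e x ▸ h x)⟩
    by_contra hn
    obtain ⟨n, h1, -⟩ := (ud_sat.{v} φ).out
    obtain ⟨N, hN⟩ : ∃ N, ∀ j < n, (v j : M) ∈ T N := by
      choose g hg using fun j => Set.mem_iUnion.1 (v j).2
      exact ⟨(Finset.range n).sup g, fun j hj =>
        hm (Finset.le_sup (f := g) (Finset.mem_range.2 hj)) (hg j)⟩
    let l : List M := (List.range n).map fun j => (v j : M)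
    have key : ∀ x, Sat mem φ (Function.update (fun n => l.getD n k) i x) ↔
        Sat mem φ (Function.update (fun n => (v n : M)) i x) := fun x =>
      h1 M mem _ _ fun j hj => by
        by_cases h : j = i
        · simp [h]
        · simp [h, l, hj]
    have h2 : ¬ Sat mem φ (Function.update (fun n => l.getD n k) i (wit (φ, i, l))) :=
      Classical.epsilon_spec (p := fun x =>
        ¬ Sat mem φ (Function.update (fun n => l.getD n k) i x)) (by
          simp only [key]
          exact not_forall.1 hn)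
    have h3 : wit (φ, i, l) ∈ ⋃ n, T n := Set.mem_iUnion.2 ⟨N + 1, Or.inr ⟨_, fun x hx => by
      obtain ⟨j, hj, rfl⟩ := List.mem_map.1 hx
      exact hN j (List.mem_range.1 hj), rfl⟩⟩
    exact h2 ((key _).2 (e ⟨_, h3⟩ ▸ (ih _).1 (h ⟨_, h3⟩)))

theorem ex_countable {M : Type v} (mem : M → M → Prop) (h : IsZFC mem) {k : M}
    (hk : MP_2e9c36_lc.IsMeasurable mem k) : ∃ (N : Type v) (mem' : N → N → Prop),
      Countable N ∧ IsZFC mem' ∧ ∃ k, MP_2e9c36_lc.IsMeasurable mem' k := by
  obtain ⟨S, h1, h2, h3⟩ := ex_elem mem k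
  have tr : ∀ (P : ∀ M : Type v, (M → M → Prop) → (ℕ → M) → Prop) [UD P] (v : ℕ → S),
      P M mem (fun i => v i) → P S (fun a b : S => mem a b) v := fun P _ v hP => by
    obtain ⟨φ, hφ⟩ := UD.fml P
    exact (hφ _ _ _).1 ((h3 φ v).2 ((hφ _ _ _).2 hP))
  let v0 : ℕ → S := fun _ => ⟨k, h2⟩
  refine ⟨S, fun a b => mem a b, h1.to_subtype, ⟨?_, ?_, ?_, ?_, ?_, ?_, fun φ v a => ?_,
    fun φ v a => ?_, ?_⟩, ⟨k, h2⟩,
    tr (fun _ mem v => MP_2e9c36_lc.IsMeasurable mem (v 0)) v0 hk⟩
  · exact tr (fun _ mem _ => ∀ a b, (∀ x, mem x a ↔ mem x b) → a = b) v0 h.ext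
  · exact tr (fun _ mem _ => ∀ a, (∃ x, mem x a) → ∃ x, mem x a ∧ ∀ y, mem y x → ¬ mem y a) v0
      h.found
  · exact tr (fun _ mem _ => ∀ a b, ∃ c, ∀ x, mem x c ↔ x = a ∨ x = b) v0 h.pair
  · exact tr (fun _ mem _ => ∀ a, ∃ c, ∀ x, mem x c ↔ ∃ y, mem y a ∧ mem x y) v0 h.union
  · exact tr (fun _ mem _ => ∀ a, ∃ c, ∀ x, mem x c ↔ ∀ y, mem y x → mem y a) v0 h.power
  · exact tr (fun _ mem _ => ∃ w, (∃ e, mem e w ∧ ∀ x, ¬ mem x e) ∧
      ∀ x, mem x w → ∃ y, mem y w ∧ ∀ z, mem z y ↔ mem z x ∨ z = x) v0 h.inf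
  · have u : UD.{v} fun M mem w =>
        Sat mem φ (Function.update (fun n => w (n + 1 + 1 + 1)) 0 (w 0)) :=
      ((ud_sat φ).ren fun n => if n = 0 then 0 else n + 3).congr fun M mem v => by
        apply Iff.of_eq
        congr 1
        funext n
        by_cases e : n = 0 <;> simp [e]
    exact tr (fun _ mem w => ∃ b, ∀ x, mem x b ↔ mem x (w 0) ∧
      Sat mem φ (Function.update (fun n => w (n + 1)) 0 x)) (cons a v) (h.sep φ _ _)
  · have u : ∀ i j k : ℕ, UD.{v} fun M mem w => Sat mem φ
        (Function.update (Function.update (fun n => w (n + k)) 0 (w i)) 1 (w j)) := fun i j k =>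
      ((ud_sat φ).ren fun n => if n = 1 then j else if n = 0 then i else n + k).congr
        fun M mem v => by
          apply Iff.of_eq
          congr 1
          funext n
          by_cases e : n = 1
          · simp [e]
          · by_cases e' : n = 0 <;> simp [e, e']
    have u1 : UD.{v} fun M mem w => Sat mem φ (Function.update (Function.update
      (fun n => w (n + 1 + 1 + 1)) 0 (w (0 + 1))) 1 (w 0)) := u 1 0 3
    have u2 : UD.{v} fun M mem w => Sat mem φ (Function.update (Function.update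
      (fun n => w (n + 1 + 1 + 1 + 1)) 0 (w 0)) 1 (w (0 + 1))) := u 0 1 4
    exact tr (fun _ mem w => (∀ x, mem x (w 0) → ∃! y, Sat mem φ (Function.update
      (Function.update (fun n => w (n + 1)) 0 x) 1 y)) → ∃ b, ∀ y, mem y b ↔ ∃ x, mem x (w 0) ∧
        Sat mem φ (Function.update (Function.update (fun n => w (n + 1)) 0 x) 1 y)) (cons a v)
      (h.repl φ _ _)
  · exact tr (fun _ mem _ => ∀ a, (∀ x, mem x a → ∃ z, mem z x) →
      (∀ x y z, mem x a → mem y a → mem z x → mem z y → x = y) →
      ∃ c, ∀ x, mem x a → ∃! z, mem z x ∧ mem z c) v0 h.choice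

end Pool.Agent.P.MP_5f3b23_lc.Zf
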