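import Pool.Agent.Lib.PosetForcing.CardDefs

set_option autoImplicit false

/-! Mutual stationarity written inside a structure `(M, mem)`; all quantifiers range over `M`. -/

open Pool.Agent.Lib.PosetForcing

namespace Pool.Agent.P.MP_2e9c36_lc

universe v

variable {M : Type v} (mem : M → M → Prop)

/-- `y` is the successor cardinal of `x`: an ordinal that does not inject into `x` while all its
elements do -/
def IsSuccCard (y x : M) : Prop :=
  (∀ z, mem z y → IsSub mem z y) ∧ (∀ z z', mem z y → mem z' z → IsSub mem z' z) ∧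
    ¬ LeCard mem y x ∧ ∀ z, mem z y → LeCard mem z x

/-- `a` is the function `n ↦ ℵ_n` on `w = ω` -/
def IsAleph (a w : M) : Prop :=
  IsFunOn mem a w (fun _ => True) ∧ (∀ z, (∀ x, ¬ mem x z) → App mem a z w) ∧
    ∀ n n' x y, IsSucc mem n' n → App mem a n x → App mem a n' y → IsSuccCard mem y x

/-- `lam` is the union of the values of `a` -/
def IsSupRange (lam a : M) : Prop := ∀ x, mem x lam ↔ ∃ n y, App mem a n y ∧ mem x y

/-- `E` is the set of `n ∈ ω` with `n ≡ 2 mod 3` -/
def IsTwoMod3 (E w : M) : Prop :=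
  IsSub mem E w ∧
    (∀ x0 x1 x2, (∀ z, ¬ mem z x0) → IsSucc mem x1 x0 → IsSucc mem x2 x1 →
      ¬ mem x0 E ∧ ¬ mem x1 E ∧ mem x2 E) ∧
    ∀ x0 x1 x2 x3, mem x0 w → IsSucc mem x1 x0 → IsSucc mem x2 x1 → IsSucc mem x3 x2 →
      (mem x3 E ↔ mem x0 E)

/-- `s` is a finite sequence of elements of `A` -/
def IsSeq (s A w : M) : Prop := ∃ n, mem n w ∧ IsFun mem s n A

/-- `F` is an algebra on `lam`: an `ω`-indexed family of functions from the finite sequences in
`lam` to `lam` -/
def IsAlg (F lam w : M) : Prop :=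
  IsFunOn mem F w fun g => ∃ Q, (∀ s, mem s Q ↔ IsSeq mem s lam w) ∧ IsFun mem g Q lam

/-- `N` is closed under the functions of the algebra `F` -/
def Closed (N F w : M) : Prop :=
  ∀ i g s y, App mem F i g → IsSeq mem s N w → App mem g s y → mem y N

/-- `f : b → d` is cofinal in the ordinal `d` -/
def Cofinal (f b d : M) : Prop :=
  IsFun mem f b d ∧ ∀ x, mem x d → ∃ i y, App mem f i y ∧ (mem x y ∨ x = y)

/-- `c` is the cofinality of `d`: the least ordinal with a cofinal map into `d` -/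
def IsCof (d c : M) : Prop :=
  (∃ f, Cofinal mem f c d) ∧ ∀ b, mem b c → ¬ ∃ f, Cofinal mem f b d

/-- `d = sup (N ∩ x)` -/
def IsSupBelow (d N x : M) : Prop := ∀ z, mem z d ↔ ∃ y, mem y N ∧ mem y x ∧ mem z y

/-- for every algebra on `lam` there is a closed `N ⊆ lam` such that for every `n` with
`ℵ_n > ω₁` the ordinal `sup (N ∩ ℵ_n)` is below `ℵ_n` and has cofinality `ω` for `n ∈ E` and
`ω₁` otherwise -/
def MutStat (w w1 a lam E : M) : Prop :=
  ∀ F, IsAlg mem F lam w → ∃ N, IsSub mem N lam ∧ Closed mem N F w ∧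
    ∀ n x, App mem a n x → mem w1 x → ∃ d, IsSupBelow mem d N x ∧ mem d x ∧
      (mem n E → IsCof mem d w) ∧ (¬ mem n E → IsCof mem d w1)

end Pool.Agent.P.MP_2e9c36_lc
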