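import Pool.Agent.P.MP_2e9c36_lc.YCard

set_option autoImplicit false
set_option synthInstance.maxSize 4000

/-! The aleph sequence, residues and cofinalities in a model of ZFC. -/

open Pool.Agent.Lib.PosetForcing

namespace Pool.Agent.P.MP_5f3b23_lc.Zf

universe v

instance ud_isSuccCard (i j : ℕ) :
    UD.{v} fun _ mem v => MP_2e9c36_lc.IsSuccCard mem (v i) (v j) := by
  unfold MP_2e9c36_lc.IsSuccCard; infer_instance

instance ud_isSeq (i j k : ℕ) :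
    UD.{v} fun _ mem v => MP_2e9c36_lc.IsSeq mem (v i) (v j) (v k) := by
  unfold MP_2e9c36_lc.IsSeq; infer_instance

instance ud_isAleph (i j : ℕ) : UD.{v} fun _ mem v => MP_2e9c36_lc.IsAleph mem (v i) (v j) := by
  unfold MP_2e9c36_lc.IsAleph IsFunOn; infer_instance

instance ud_isSupRange (i j : ℕ) :
    UD.{v} fun _ mem v => MP_2e9c36_lc.IsSupRange mem (v i) (v j) := by
  unfold MP_2e9c36_lc.IsSupRange; infer_instance

instance ud_isTwoMod3 (i j : ℕ) :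
    UD.{v} fun _ mem v => MP_2e9c36_lc.IsTwoMod3 mem (v i) (v j) := by
  unfold MP_2e9c36_lc.IsTwoMod3; infer_instance

instance ud_isAlg (i j k : ℕ) :
    UD.{v} fun _ mem v => MP_2e9c36_lc.IsAlg mem (v i) (v j) (v k) := by
  unfold MP_2e9c36_lc.IsAlg IsFunOn; infer_instance

instance ud_closed (i j k : ℕ) :
    UD.{v} fun _ mem v => MP_2e9c36_lc.Closed mem (v i) (v j) (v k) := by
  unfold MP_2e9c36_lc.Closed; infer_instance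

instance ud_cofinal (i j k : ℕ) :
    UD.{v} fun _ mem v => MP_2e9c36_lc.Cofinal mem (v i) (v j) (v k) := by
  unfold MP_2e9c36_lc.Cofinal; infer_instance

instance ud_isCof (i j : ℕ) : UD.{v} fun _ mem v => MP_2e9c36_lc.IsCof mem (v i) (v j) := by
  unfold MP_2e9c36_lc.IsCof; infer_instance

instance ud_isSupBelow (i j k : ℕ) :
    UD.{v} fun _ mem v => MP_2e9c36_lc.IsSupBelow mem (v i) (v j) (v k) := by
  unfold MP_2e9c36_lc.IsSupBelow; infer_instance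

/-- the objects named in the statement -/
def Obj {M : Type v} (mem : M → M → Prop) (w w1 a l E : M) : Prop :=
  IsOmega mem w ∧ MP_2e9c36_lc.IsSuccCard mem w1 w ∧ MP_2e9c36_lc.IsAleph mem a w ∧
    MP_2e9c36_lc.IsSupRange mem l a ∧ MP_2e9c36_lc.IsTwoMod3 mem E w

/-- `F` is a counterexample to mutual stationarity -/
def Bad {M : Type v} (mem : M → M → Prop) (F : M) : Prop := ∃ w w1 a l E, Obj mem w w1 a l E ∧
  MP_2e9c36_lc.IsAlg mem F l w ∧ ¬ ∃ N, IsSub mem N l ∧ MP_2e9c36_lc.Closed mem N F w ∧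
    ∀ n x, App mem a n x → mem w1 x → ∃ d, MP_2e9c36_lc.IsSupBelow mem d N x ∧ mem d x ∧
      (mem n E → MP_2e9c36_lc.IsCof mem d w) ∧ (¬ mem n E → MP_2e9c36_lc.IsCof mem d w1)

instance ud_bad (i : ℕ) : UD.{v} fun _ mem v => Bad mem (v i) := by
  unfold Bad Obj; infer_instance

variable {M : Type v} [Zm M]

theorem succCard_iff {x y : M} : MP_2e9c36_lc.IsSuccCard mm y x ↔ y = sc x := by
  simp only [MP_2e9c36_lc.IsSuccCard, leCard_iff]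
  exact ⟨fun h => (sc_eq ⟨h.1, h.2.1⟩ h.2.2.1 h.2.2.2).symm, fun h => h ▸
    ⟨(od_sc x).1, (od_sc x).2, not_le_sc x, fun _ => le_of_mem_sc⟩⟩

theorem isSucc_iff {x y : M} : IsSucc mm y x ↔ y = suc x :=
  ⟨fun h => ext fun z => (h z).trans mem_suc.symm, fun h _ => h ▸ mem_suc⟩

theorem isFun_iff {f a b : M} : IsFun mm f a b ↔ f ∈ funs a b := by
  constructor
  · intro h
    have e : ∀ p, p ∈ f → fst p ∈ a ∧ p = op (fst p) (ap f (fst p)) := fun p hp => by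
      obtain ⟨x, y, e, hx, -⟩ := h.1 p hp
      obtain rfl := isPair_iff.1 e
      rw [fst_op, ← ((fun_app h).1 (app_iff.2 hp)).2]
      exact ⟨hx, rfl⟩
    refine mem_funs.2 ⟨fun p hp => (e p hp).2, ext fun x => ⟨fun hx => ?_, fun hx => mem_dom.2
      ⟨_, app_iff.1 ((fun_app h).2 ⟨hx, rfl⟩), (fst_op _ _).symm⟩⟩, fun _ => fun_mem h⟩
    obtain ⟨p, hp, rfl⟩ := mem_dom.1 hx
    exact (e p hp).1
  · intro h
    obtain ⟨h1, h2, h3⟩ := mem_funs.1 h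
    rw [show f = lam a fun x => ap f x from h1.ext isF_lam (h2.trans dom_lam.symm)
      fun x hx => (ap_lam (h2 ▸ hx)).symm]
    exact isFun_lam h3

theorem isSeq_iff {s A : M} : MP_2e9c36_lc.IsSeq mm s A om ↔ s ∈ Sq A := by
  simp only [MP_2e9c36_lc.IsSeq, isFun_iff, Sq, mem_bUn]

/-- one step in the definition of the aleph sequence -/
noncomputable def GA (f : M) : M := un om (bUn f fun p => sc (snd p))

instance : Fn1 (GA : M → M) := ⟨by unfold GA; infer_instance⟩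

theorem ex_obj : ∃ w w1 a l E : M, Obj mm w w1 a l E := by
  have e : ∀ n : M, Od n → ∀ x, x ∈ rc GA n ↔ x ∈ (om : M) ∨ ∃ i, i ∈ n ∧ x ∈ sc (rc GA i) :=
    fun n hn x => by
      rw [rc_eq GA hn, GA]
      simp only [mem_un, mem_bUn, mem_lam]
      refine or_congr_right ⟨?_, fun ⟨m, hm, h⟩ => ⟨_, ⟨m, hm, rfl⟩, by rw [snd_op]; exact h⟩⟩
      rintro ⟨_, ⟨m, hm, rfl⟩, h⟩
      exact ⟨m, hm, by rwa [snd_op] at h⟩
  have e0 : rc GA emp = (om : M) := ext fun x => (e _ od_emp x).trans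
    ⟨fun h => h.resolve_right fun ⟨i, hi, _⟩ => not_mem_emp i hi, Or.inl⟩
  have e1 : ∀ n : M, Od n → rc GA (suc n) = sc (rc GA n) := fun n hn => ext fun x => by
    rw [e _ hn.suc]
    refine ⟨fun h => h.elim (fun h => (od_om.el h).mem_sc (le_of_sub fun y hy =>
      (e n hn y).2 (Or.inl (od_om.tr h hy)))) fun ⟨i, hi, g⟩ => ?_,
      fun h => Or.inr ⟨n, self_mem_suc n, h⟩⟩
    rcases mem_suc.1 hi with hi | rfl
    · exact ((od_sc _).el g).mem_sc (le_of_sub fun y hy => (e n hn y).2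
        (Or.inr ⟨i, hi, (od_sc _).tr g hy⟩))
    · exact g
  obtain ⟨E, mE⟩ := ex_sep (om : M) fun n => ∀ X : M, suc (suc emp) ∈ X →
    (∀ x, x ∈ X → suc (suc (suc x)) ∈ X) → n ∈ X
  have E2 : suc (suc emp) ∈ E := (mE _).2 ⟨suc_mem_om (suc_mem_om emp_mem_om), fun _ h _ => h⟩
  have E3 : ∀ x, x ∈ E → suc (suc (suc x)) ∈ E := fun x hx => (mE _).2
    ⟨suc_mem_om (suc_mem_om (suc_mem_om ((mE x).1 hx).1)), fun X h h' => h' x (((mE x).1 hx).2 X h h')⟩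
  have E4 : ∀ x, x ∈ E → x = suc (suc emp) ∨ ∃ y, y ∈ E ∧ x = suc (suc (suc y)) := fun x hx =>
    (mem_sep.1 (((mE x).1 hx).2 (sep E fun x => x = suc (suc emp) ∨ ∃ y, y ∈ E ∧
      x = suc (suc (suc y))) (mem_sep.2 ⟨E2, Or.inl rfl⟩) fun y hy =>
        mem_sep.2 ⟨E3 y (mem_sep.1 hy).1, Or.inr ⟨y, (mem_sep.1 hy).1, rfl⟩⟩)).2
  refine ⟨om, sc om, lam om fun n => rc GA n, bUn om fun n => rc GA n, E, isOmega_iff.2 rfl,
    succCard_iff.2 rfl, ⟨?_, fun z hz => app_lam.2 ?_, fun n n' x y h1 h2 h3 => ?_⟩, fun x => ?_,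
    fun x hx => ((mE x).1 hx).1, fun x0 x1 x2 h0 h1 h2 => ?_, fun x0 x1 x2 x3 h0 h1 h2 h3 => ?_⟩
  · obtain ⟨h1, h2⟩ := isFun_lam (a := om) (F := fun n => rc GA n)
      fun n hn => (mem_img.2 ⟨n, hn, rfl⟩ : rc GA n ∈ img om fun n : M => rc GA n)
    exact ⟨fun p hp => let ⟨x, y, g1, g2, _⟩ := h1 p hp; ⟨x, y, g1, g2, trivial⟩, h2⟩
  · obtain rfl := eq_emp hz
    exact ⟨emp_mem_om, e0.symm⟩
  · obtain ⟨g, rfl⟩ := app_lam.1 h2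
    obtain ⟨-, rfl⟩ := app_lam.1 h3
    rw [isSucc_iff.1 h1]
    exact succCard_iff.2 (e1 n (od_om.el g))
  · simp only [mm, mem_bUn, app_lam]
    exact ⟨fun ⟨n, h1, h2⟩ => ⟨n, _, ⟨h1, rfl⟩, h2⟩, fun ⟨n, _, ⟨h1, e⟩, h2⟩ => ⟨n, h1, e ▸ h2⟩⟩
  · obtain rfl := eq_emp h0
    obtain rfl := isSucc_iff.1 h1
    obtain rfl := isSucc_iff.1 h2
    exact ⟨fun h => (E4 _ h).elim (fun e => suc_ne_emp _ e.symm) fun ⟨_, _, e⟩ => suc_ne_emp _ e.symm,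
      fun h => (E4 _ h).elim (fun e => suc_ne_emp _ (suc_inj od_emp e).symm)
        fun ⟨_, _, e⟩ => suc_ne_emp _ (suc_inj od_emp e).symm, E2⟩
  · obtain rfl := isSucc_iff.1 h1
    obtain rfl := isSucc_iff.1 h2
    obtain rfl := isSucc_iff.1 h3
    have o := od_om.el h0
    refine ⟨fun h => (E4 _ h).elim (fun e => (suc_ne_emp _
      (suc_inj o.suc (suc_inj o.suc.suc e))).elim) fun ⟨y, hy, e⟩ => ?_, E3 x0⟩
    rw [suc_inj o (suc_inj o.suc (suc_inj o.suc.suc e))]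
    exact hy

theorem Obj.spec {w w1 a l E : M} (h : Obj mm w w1 a l E) : w = om ∧ w1 = sc om ∧
    (∀ n x, op n x ∈ a ↔ n ∈ (om : M) ∧ x = ap a n) ∧ ap a emp = om ∧
    (∀ n, n ∈ (om : M) → ap a (suc n) = sc (ap a n)) ∧
    (∀ x, x ∈ l ↔ ∃ n, n ∈ (om : M) ∧ x ∈ ap a n) ∧ emp ∉ E ∧ suc emp ∉ E ∧ suc (suc emp) ∈ E ∧
    ∀ n, n ∈ (om : M) → (suc (suc (suc n)) ∈ E ↔ n ∈ E) := by
  obtain ⟨h1, h2, ⟨h3, h4, h5⟩, h6, -, h7, h8⟩ := h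
  obtain rfl := isOmega_iff.1 h1
  have e : ∀ n x, op n x ∈ a → ap a n = x := fun n x g =>
    ap_eq g fun y hy => h3.2.2 _ _ _ (app_iff.2 hy) (app_iff.2 g)
  have e1 : ∀ n x, op n x ∈ a ↔ n ∈ (om : M) ∧ x = ap a n := fun n x =>
    ⟨fun g => let ⟨_, _, g1, g2, _⟩ := h3.1 _ g
      ⟨(op_inj (isPair_iff.1 g1)).1 ▸ g2, (e n x g).symm⟩, fun g =>
      let ⟨y, hy⟩ := h3.2.1 n g.1; g.2 ▸ e n y (app_iff.1 hy) ▸ app_iff.1 hy⟩
  obtain ⟨g1, g2, g3⟩ := h7 _ _ _ not_mem_emp (isSucc_iff.2 rfl) (isSucc_iff.2 rfl)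
  refine ⟨rfl, succCard_iff.1 h2, e1, e _ _ (app_iff.1 (h4 _ not_mem_emp)), fun n hn =>
    succCard_iff.1 (h5 n _ _ _ (isSucc_iff.2 rfl) (app_iff.2 ((e1 _ _).2 ⟨hn, rfl⟩))
      (app_iff.2 ((e1 _ _).2 ⟨suc_mem_om hn, rfl⟩))), fun x => (h6 x).trans ?_, g1, g2, g3,
    fun n hn => h8 n _ _ _ hn (isSucc_iff.2 rfl) (isSucc_iff.2 rfl) (isSucc_iff.2 rfl)⟩
  simp only [app_iff, e1]
  exact ⟨fun ⟨n, _, ⟨k1, k⟩, k2⟩ => ⟨n, k1, k ▸ k2⟩, fun ⟨n, k1, k2⟩ => ⟨n, _, ⟨k1, rfl⟩, k2⟩⟩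

theorem isCof_of {I f d : M} (h0 : ∀ i, i ∈ I → suc i ∈ I)
    (h1 : ∀ b g, b ∈ I → (∀ x, x ∈ b → ap g x ∈ I) → ∃ z, z ∈ I ∧ ∀ x, x ∈ b → ap g x ∈ z)
    (h2 : ∀ i j, j ∈ I → i ∈ j → ap f i ∈ ap f j) (hd : Od d)
    (h3 : ∀ x, x ∈ d ↔ ∃ i, i ∈ I ∧ x ∈ ap f i) : MP_2e9c36_lc.IsCof mm d I := by
  have h4 : ∀ i, i ∈ I → ap f i ∈ d := fun i hi =>
    (h3 _).2 ⟨_, h0 i hi, h2 i _ (h0 i hi) (self_mem_suc i)⟩
  refine ⟨⟨_, isFun_lam h4, fun x hx => let ⟨i, g1, g2⟩ := (h3 x).1 hx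
    ⟨i, _, app_lam.2 ⟨g1, rfl⟩, Or.inl g2⟩⟩, fun b hb ⟨h, g1, g2⟩ => ?_⟩
  obtain ⟨g, hg⟩ := chs b (fun x i => i ∈ I ∧ ap h x ∈ ap f i) fun x hx => (h3 _).1 (fun_mem g1 hx)
  obtain ⟨z, z1, z2⟩ := h1 b g hb fun x hx => (hg x hx).1
  obtain ⟨i, y, k1, k2⟩ := g2 _ (h4 z z1)
  obtain ⟨k3, rfl⟩ := (fun_app g1).1 k1
  have k4 := (hd.el (h4 z z1)).tr (h2 _ z z1 (z2 i k3)) (hg i k3).2
  exact k2.elim ((hd.el (h4 z z1)).asymm k4) fun e => not_mem_self _ (e ▸ k4)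

theorem reg_om (b g : M) (hb : b ∈ (om : M)) : (∀ x, x ∈ b → ap g x ∈ (om : M)) →
    ∃ z, z ∈ (om : M) ∧ ∀ x, x ∈ b → ap g x ∈ z :=
  om_ind (fun b => (∀ x, x ∈ b → ap g x ∈ (om : M)) → ∃ z, z ∈ (om : M) ∧ ∀ x, x ∈ b → ap g x ∈ z)
    (fun _ => ⟨emp, emp_mem_om, fun x hx => (not_mem_emp x hx).elim⟩) (fun n _ ih h =>
      let ⟨z, h1, h2⟩ := ih fun x hx => h x (sub_suc n x hx)
      ⟨un z (suc (ap g n)), un_mem od_om h1 (suc_mem_om (h n (self_mem_suc n))), fun x hx =>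
        mem_un.2 ((mem_suc.1 hx).imp (h2 x) fun e => by rw [e]; exact self_mem_suc _)⟩) hb

theorem reg_sc (b g : M) (hb : b ∈ sc (om : M)) (h : ∀ x, x ∈ b → ap g x ∈ sc (om : M)) :
    ∃ z, z ∈ sc (om : M) ∧ ∀ x, x ∈ b → ap g x ∈ z :=
  let ⟨z, h1, h2⟩ := io_om.bdd (S := img b fun x => ap g x)
    ((le_img _ _).trans (le_of_mem_sc hb)) fun _ hx => let ⟨j, hj, e⟩ := mem_img.1 hx; e ▸ h j hj
  ⟨z, h1, fun x hx => h2 _ (mem_img.2 ⟨x, hx, rfl⟩)⟩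

theorem le_of_rel {a b R : M} (h1 : ∀ x, x ∈ a → ∃ y, y ∈ b ∧ op x y ∈ R)
    (h2 : ∀ x x' y, op x y ∈ R → op x' y ∈ R → x = x') : Le a b :=
  let ⟨f, hf⟩ := chs a (fun x y => y ∈ b ∧ op x y ∈ R) h1
  ⟨f, fun x hx => (hf x hx).1, fun x y hx hy e => h2 x y _ (hf x hx).2 (e ▸ (hf y hy).2)⟩

end Pool.Agent.P.MP_5f3b23_lc.Zf
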