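import Pool.Agent.P.MP_2e9c36_lc.YModel
import Pool.Agent.P.MP_2e9c36_lc.YAleph

set_option autoImplicit false

/-! Finite sequences in the extension, definability of forcing, the maximum principle. -/

open Pool.Agent.Lib.PosetForcing

namespace Pool.Agent.P.MP_5f3b23_lc.Zf

universe v

variable {M : Type v} [Zm M] [Fo M] {U : Gen M}

theorem jj_un (a b : M) : jj U (un a b) = un (jj U a) (jj U b) := ext fun z => by
  simp only [mem_jj (a := un a b), mem_un, mem_jj (a := a), mem_jj (a := b)]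
  exact ⟨fun ⟨y, h, e⟩ => h.imp (fun h => ⟨y, h, e⟩) fun h => ⟨y, h, e⟩,
    fun h => h.elim (fun ⟨y, h, e⟩ => ⟨y, Or.inl h, e⟩) fun ⟨y, h, e⟩ => ⟨y, Or.inr h, e⟩⟩

theorem jj_fst {t p : M} (h : IsF t) (hp : p ∈ t) : fst (jj U p) = jj U (fst p) := by
  rw [h p hp, jj_op, fst_op, fst_op]

theorem jj_dom {t : M} (h : IsF t) : jj U (dom t) = dom (jj U t) := ext fun z => by
  simp only [mem_jj (a := dom t), mem_dom, mem_jj (a := t)]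
  exact ⟨fun ⟨_, ⟨p, hp, e⟩, e'⟩ => ⟨_, ⟨p, hp, rfl⟩, by rw [e', e, jj_fst h hp]⟩,
    fun ⟨_, ⟨p, hp, e⟩, e'⟩ => ⟨_, ⟨p, hp, rfl⟩, by rw [e', e, jj_fst h hp]⟩⟩

theorem jj_Sq {X t : M} (h : t ∈ Sq X) : jj U t ∈ Sq (jj U X) := by
  obtain ⟨h1, h2, h3⟩ := mem_Sq.1 h
  refine mem_Sq.2 ⟨fun z hz => ?_, jj_dom (U := U) h1 ▸ jj_om (U := U) ▸ jj_mem.2 h2,
    fun i hi => ?_⟩
  · obtain ⟨p, hp, rfl⟩ := mem_jj.1 hz
    rw [jj_fst h1 hp, ← jj_ap, ← jj_op, ← h1 p hp]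
  · obtain ⟨j, hj, rfl⟩ := mem_jj.1 (jj_dom (U := U) h1 ▸ hi)
    exact jj_ap (U := U) t j ▸ jj_mem.2 (h3 j hj)

theorem seq_jj {X : M} (R : M → M → Prop) [D2 R] (mono : ∀ p q x, q ≤ p → R p x → R q x)
    {N s : Ext U} (hN : ∀ z, z ∈ N → ∃ x, x ∈ X ∧ z = jj U x ∧ ∃ p, U.G p ∧ R p x)
    (hs : s ∈ Sq N) : ∃ t, t ∈ Sq X ∧ s = jj U t ∧ ∃ p, U.G p ∧ ∀ i, i ∈ dom t → R p (ap t i) := by
  obtain ⟨Y, hY⟩ := ex_gset U (Sq X) fun p t => ∀ i, i ∈ dom t → R p (ap t i)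
  refine (hY s).1 (om_ind (fun n => ∀ s, s ∈ Sq N → dom s = n → s ∈ Y) (fun s _ e => ?_)
    (fun n hn ih s hs e => ?_) (mem_Sq.1 hs).2.1 s hs rfl)
  · obtain rfl : s = emp := eq_emp fun z hz => not_mem_emp _ (e ▸ mem_dom.2 ⟨z, hz, rfl⟩)
    exact (hY _).2 ⟨emp, emp_mem_Sq X, jj_emp.symm, _, U.top, fun i hi =>
      (not_mem_emp i (by rwa [dom_emp] at hi)).elim⟩
  · have h1 : n ∈ dom s := e ▸ self_mem_suc n
    obtain ⟨t, t1, t2, p, hp, t3⟩ := (hY _).1 (ih _ (res_mem_Sq hs (sub_suc _ _ h1))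
      (dom_res (e ▸ sub_suc n)))
    obtain ⟨x, x1, x2, q, hq, x3⟩ := hN _ ((mem_Sq.1 hs).2.2 n h1)
    obtain ⟨r, hr, r1, r2⟩ := U.dir hp hq
    refine (hY s).2 ⟨snoc t x, snoc_mem_Sq t1 x1, ?_, r, hr, fun i hi => ?_⟩
    · rw [← res_dom s, e, (mem_Sq.1 hs).1.res_suc h1 (e ▸ sub_suc n), t2, x2, snoc, snoc, ins, ins,
        jj_un, jj_upair, jj_op, jj_dom (mem_Sq.1 t1).1]
    · rcases mem_suc.1 (dom_snoc t x ▸ hi) with hi | rfl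
      · rw [ap_snoc_lt x hi]; exact mono _ _ _ r1 (t3 i hi)
      · rw [ap_snoc]; exact mono _ _ _ r2 x3

variable [Countable M]

theorem df_forces (P : ∀ M : Type v, (M → M → Prop) → (ℕ → M) → Prop) [UD P]
    (a b c d e : (ℕ → M) → M) [ha : Tm a] [hb : Tm b] [hc : Tm c] [hd : Tm d] [he : Tm e] :
    Df fun v => Forces (a v) fun U => P (Ext U) Ext.mem fun n =>
      val (cons (b v) (cons (c v) (cons (d v) fun _ => e v)) n) U :=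
  ((cl_ud P).df.out.subst (fun i w => cons (a w) (cons (b w) (cons (c w) (cons (d w)
    fun _ => e w))) i) fun i => by
      rcases i with _ | _ | _ | _ | i
      exacts [ha, hb, hc, hd, he]).congr fun _ => Iff.rfl

theorem ex_force (P : ∀ M : Type v, (M → M → Prop) → (ℕ → M) → Prop) [UD P] {q X : M}
    (hq : q ∈ (Fo.PP : M)) (w : M → ℕ → M) (h : ∀ U : Gen M, U.G q → ∃ x, x ∈ X ∧
      P (Ext U) Ext.mem fun n => val (w x n) U) :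
    ∃ r, r ≤ q ∧ ∃ x, x ∈ X ∧ Forces r fun U => P (Ext U) Ext.mem fun n => val (w x n) U := by
  obtain ⟨U, hU⟩ := ex_gen hq
  obtain ⟨x, hx, g⟩ := h U hU
  obtain ⟨p, hp, e⟩ := (cl_ud P).truth g
  obtain ⟨r, -, r1, r2⟩ := U.dir hU hp
  exact ⟨r, r1, x, hx, e.mono r2⟩

theorem max_principle (Q : ∀ M : Type v, (M → M → Prop) → M → Prop)
    [UD fun M mem v => Q M mem (v 0)] (h : ∀ U : Gen M, ∃ x, Q (Ext U) Ext.mem x) :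
    ∃ a : M, ∀ U : Gen M, Q (Ext U) Ext.mem (val a U) := by
  obtain ⟨B, hB⟩ : ∃ B : M → M → Prop, B = fun p a =>
    Forces p fun U => Q (Ext U) Ext.mem (val a U) := ⟨_, rfl⟩
  have dB : D2 B := ⟨by
    rw [hB]
    exact df_forces (fun M mem v => Q M mem (v 0)) (fun v => v 0) (fun v => v 1) (fun v => v 1)
      (fun v => v 1) fun v => v 1⟩
  obtain ⟨f, hf⟩ := chs' Fo.PP (fun p => ∃ a, B p a) B fun _ _ h => h
  obtain ⟨o, ho, ⟨e, e1, e2⟩, -⟩ := ex_card (Fo.PP : M)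
  obtain ⟨L, hL⟩ : ∃ L : M → M → Prop, L = fun p a => p ≤ a ∧ (∃ b, B a b) ∧
    ∀ c r, (∃ b, B c b) → r ≤ p → r ≤ c → Sub (ap e a) (ap e c) := ⟨_, rfl⟩
  have dL : D2 L := ⟨by rw [hL]; infer_instance⟩
  obtain ⟨X, hX, hX'⟩ := ex_tr (img Fo.PP fun p : M => ap f p)
  obtain ⟨F, -, hF⟩ := ex_name X fun r x => ∃ a, L r a ∧ ∃ s, op x s ∈ ap f a ∧ r ≤ s
  refine ⟨F, fun U => ?_⟩
  obtain ⟨r, hr, a, ha⟩ := U.meet (fun r => ∃ a, L r a) fun p hp => by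
    obtain ⟨W, hW⟩ := ex_gen hp
    obtain ⟨x, hx⟩ := h W
    obtain ⟨b, rfl⟩ := x.ex
    obtain ⟨c, hc, g⟩ := (cl_ud fun M mem v => Q M mem (v 0)).truth (v := fun _ => b) hx
    obtain ⟨r, -, r1, r2⟩ := W.dir hW hc
    obtain ⟨_, hi, ⟨a, rfl, g1, s, g2, g3⟩, g4⟩ := ex_least
      (fun i => ∃ a, ap e a = i ∧ (∃ b, B a b) ∧ ∃ r, r ≤ p ∧ r ≤ a)
      (ho.el (e1 c (W.mem hc))) ⟨c, rfl, ⟨b, hB ▸ g⟩, r, r1, r2⟩
    refine ⟨s, g2, a, ?_⟩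
    rw [hL]
    exact ⟨g3, g1, fun c t k1 k2 k3 => hi.sub_of_not_mem (ho.el (e1 c (Fo.mem _ _ k3).2))
      fun k => g4 _ k ⟨c, rfl, k1, t, ftr k2 g2, k3⟩⟩
  rw [hL] at ha hF
  have ua := U.up hr ha.1
  have g := hf a (U.mem ua) ha.2.1
  rw [hB] at g
  rw [show val F U = val (ap f a) U from Ext.ext _ _ fun z => (hF U z).trans (mem_val.trans
    ⟨fun ⟨x, s, g1, g2, g3⟩ => ?_, fun ⟨x, _, g1, t, g2, c, g3, s, g4, g5⟩ => ?_⟩).symm]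
  · exact g U ua
  · obtain ⟨t, ht, t1, t2⟩ := U.dir hr g2
    exact ⟨x, hX.op_left (hX _ hX' _ (mem_img.2 ⟨a, U.mem ua, rfl⟩)) g1, g3, t, ht, a,
      ⟨ftr t1 ha.1, ha.2.1, fun c u k1 k2 => ha.2.2 c u k1 (ftr k2 t1)⟩, s, g1, t2⟩
  · obtain ⟨u, -, u1, u2⟩ := U.dir hr g2
    obtain rfl := e2 a c (U.mem ua) (Fo.mem _ _ g3.1).2 ((ha.2.2 c u g3.2.1 u1 (ftr u2 g3.1)).antisymm
      (g3.2.2 a u ha.2.1 u2 (ftr u1 ha.1)))
    exact ⟨x, s, g4, U.up g2 g5, g1⟩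

end Pool.Agent.P.MP_5f3b23_lc.Zf
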