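import Pool.Agent.P.MP_2e9c36_lc.Meas

set_option autoImplicit false
set_option linter.unusedSectionVars false

/-! Collapse conditions, meeting many dense sets, lower parts, good points. -/

open Cardinal Set Filter

namespace Pool.Agent.P.MP_2e9c36_lc

universe u

/-- sets of triples `(γ, v, ξ)`, read as `f_γ v = ξ` -/
abbrev Cnd (K : Type u) : Type u := Set (K × K × K)

variable {K : Type u} [LinearOrder K] [WellFoundedLT K] [NM K]

/-- compatibility of two triples -/
def Cmp (x y : K × K × K) : Prop := x.1 = y.1 → (x.2.1 = y.2.1 ↔ x.2.2 = y.2.2)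

theorem Cmp.symm {x y : K × K × K} (h : Cmp x y) : Cmp y x := fun e => by
  rw [eq_comm, h e.symm, eq_comm]

/-- conditions of the collapse to the successor of `ν` -/
structure IsCol (ν : K) (c : Cnd K) : Prop where
  cmp : ∀ x ∈ c, ∀ y ∈ c, Cmp x y
  bd : ∀ x ∈ c, x.2.1 < x.1 ∧ x.2.2 < sc ν
  sm : #c ≤ cd ν

/-- the support of `c` lies below `β` -/
def Below (c : Cnd K) (β : K) : Prop := ∀ x ∈ c, x.1 < β

theorem Below.mono {c : Cnd K} {β γ : K} (h : Below c β) (e : β ≤ γ) : Below c γ :=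
  fun x hx => (h x hx).trans_le e

theorem IsCol.empty (ν : K) : IsCol ν ∅ := ⟨by simp, by simp, by simp⟩

theorem IsCol.subset {ν : K} {c c' : Cnd K} (h : IsCol ν c) (e : c' ⊆ c) : IsCol ν c' :=
  ⟨fun x hx y hy => h.cmp x (e hx) y (e hy), fun x hx => h.bd x (e hx),
    (mk_le_mk_of_subset e).trans h.sm⟩

theorem IsCol.ae_below {ν : K} {c : Cnd K} (h : IsCol ν c) : ∀ᶠ β in UF K, Below c β :=
  ae_all_set (h.sm.trans_lt (cd_lt ν)) fun x _ => ae_gt x.1

theorem IsCol.union {ν : K} (hν : ℵ₀ ≤ cd ν) {c c' : Cnd K} (h : IsCol ν c) (h' : IsCol ν c')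
    (e : ∀ x ∈ c, ∀ y ∈ c', Cmp x y) : IsCol ν (c ∪ c') := by
  refine ⟨?_, ?_, (mk_union_le _ _).trans (add_le_of_le hν h.sm h'.sm)⟩
  · rintro x (hx | hx) y (hy | hy)
    exacts [h.cmp x hx y hy, e x hx y hy, (e y hy x hx).symm, h'.cmp x hx y hy]
  · rintro x (hx | hx)
    exacts [h.bd x hx, h'.bd x hx]

theorem IsCol.biUnion {ν : K} (hν : ℵ₀ ≤ cd ν) {ι : Type u} {S : Set ι} (hS : #S ≤ cd ν)
    {c : ι → Cnd K} (h : ∀ i ∈ S, IsCol ν (c i))
    (e : ∀ i ∈ S, ∀ j ∈ S, ∀ x ∈ c i, ∀ y ∈ c j, Cmp x y) : IsCol ν (⋃ i ∈ S, c i) := by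
  refine ⟨fun x hx y hy => ?_, fun x hx => ?_, mk_biUnion_le_of hν hS fun i hi => (h i hi).sm⟩
  · obtain ⟨i, hi, hx⟩ := mem_iUnion₂.1 hx
    obtain ⟨j, hj, hy⟩ := mem_iUnion₂.1 hy
    exact e i hi j hj x hx y hy
  · obtain ⟨i, hi, hx⟩ := mem_iUnion₂.1 hx
    exact (h i hi).bd x hx

theorem press_col (ν : K) : Press fun (c : Cnd K) β => IsCol ν c ∧ Below c β :=
  ((press_lt.prod (press_lt.prod press_lt)).set (cd_lt ν)).mono
    ((ae_gt (sc ν)).mono fun _ hβ _ h => ⟨h.1.sm, fun x hx =>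
      ⟨h.2 x hx, (h.1.bd x hx).1.trans (h.2 x hx), (h.1.bd x hx).2.trans hβ⟩⟩)

/-- meeting many dense sets, few of which are relevant for each coordinate -/
theorem meet_all {S X : Type u} (ν : S → K) (hν : ∀ s, ℵ₀ ≤ cd (ν s))
    (Q : S → K × K × K → Prop) (Rel : X → S → Prop) (hRel : ∀ s, #{a | Rel a s} ≤ cd (ν s))
    (R : X → (S → Cnd K) → Prop)
    (mono : ∀ a D D', (∀ s, Rel a s → D s ⊆ D' s) → R a D → R a D')
    (dense : ∀ a (D : S → Cnd K), (∀ s, IsCol (ν s) (D s) ∧ ∀ x ∈ D s, Q s x) →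
      ∃ D' : S → Cnd K, (∀ s, IsCol (ν s) (D' s) ∧ ∀ x ∈ D' s, Q s x) ∧ (∀ s, D s ⊆ D' s) ∧ R a D')
    (D : S → Cnd K) (hD : ∀ s, IsCol (ν s) (D s) ∧ ∀ x ∈ D s, Q s x) :
    ∃ D' : S → Cnd K,
      (∀ s, IsCol (ν s) (D' s) ∧ ∀ x ∈ D' s, Q s x) ∧ (∀ s, D s ⊆ D' s) ∧ ∀ a, R a D' := by
  obtain ⟨Z, hZ⟩ := zorn_subset {Z : Set (X × (S → Cnd K)) |
      (∀ z ∈ Z, (∀ s, IsCol (ν s) (z.2 s) ∧ ∀ x ∈ z.2 s, Q s x) ∧ (∀ s, D s ⊆ z.2 s) ∧
        R z.1 z.2) ∧
      ∀ z ∈ Z, ∀ z' ∈ Z, (z.1 = z'.1 → z = z') ∧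
        ∀ s, Rel z.1 s → Rel z'.1 s → ∀ x ∈ z.2 s, ∀ y ∈ z'.2 s, Cmp x y} (by
    intro c hc hchain
    refine ⟨⋃₀ c, ⟨?_, ?_⟩, fun s hs => subset_sUnion_of_mem hs⟩
    · rintro z ⟨s, hs, hz⟩
      exact (hc hs).1 z hz
    · rintro z ⟨s, hs, hz⟩ z' ⟨t, ht, hz'⟩
      rcases hchain.total hs ht with h | h
      · exact (hc ht).2 z (h hz) z' hz'
      · exact (hc hs).2 z hz z' (h hz'))
  obtain ⟨hZ1, hZ2⟩ := hZ.prop
  let B : S → Cnd K := fun s => D s ∪ ⋃ z ∈ {z | z ∈ Z ∧ Rel z.1 s}, z.2 s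
  have hsub : ∀ z ∈ Z, ∀ s, Rel z.1 s → z.2 s ⊆ B s := fun z hz s hs x hx =>
    Or.inr (mem_biUnion (And.intro hz hs) hx)
  have hB : ∀ s, IsCol (ν s) (B s) ∧ ∀ x ∈ B s, Q s x := fun s => by
    refine ⟨(hD s).1.union (hν s) (IsCol.biUnion (hν s) (le_trans ?_ (hRel s))
      (fun z hz => ((hZ1 z hz.1).1 s).1) fun z hz z' hz' => (hZ2 z hz.1 z' hz'.1).2 s hz.2 hz'.2)
      fun x hx y hy => ?_, ?_⟩
    · exact mk_le_of_injective (f := fun z : {z | z ∈ Z ∧ Rel z.1 s} =>
        (⟨z.1.1, z.2.2⟩ : {a | Rel a s})) fun z z' e =>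
        Subtype.ext ((hZ2 _ z.2.1 _ z'.2.1).1 (congrArg Subtype.val e))
    · obtain ⟨z, hz, hy⟩ := mem_iUnion₂.1 hy
      exact ((hZ1 z hz.1).1 s).1.cmp x ((hZ1 z hz.1).2.1 s hx) y hy
    · rintro x (hx | hx)
      · exact (hD s).2 x hx
      · obtain ⟨z, hz, hx⟩ := mem_iUnion₂.1 hx
        exact ((hZ1 z hz.1).1 s).2 x hx
  refine ⟨B, hB, fun s => subset_union_left, fun a => ?_⟩
  by_cases ha : ∃ z ∈ Z, z.1 = a
  · obtain ⟨z, hz, rfl⟩ := ha
    exact mono _ _ _ (hsub z hz) (hZ1 z hz).2.2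
  · obtain ⟨E, h1, h2, h3⟩ := dense a B hB
    refine absurd ⟨(a, E), hZ.le_of_ge (y := insert (a, E) Z) ⟨?_, ?_⟩ (subset_insert _ _)
      (mem_insert _ _), rfl⟩ ha
    · rintro z (rfl | hz)
      · exact ⟨h1, fun s => subset_union_left.trans (h2 s), h3⟩
      · exact hZ1 z hz
    · rintro z (rfl | hz) z' (rfl | hz')
      · exact ⟨fun _ => rfl, fun s _ _ => (h1 s).1.cmp⟩
      · exact ⟨fun e => absurd ⟨z', hz', e.symm⟩ ha, fun s _ hs x hx y hy =>
          (h1 s).1.cmp x hx y (h2 s (hsub z' hz' s hs hy))⟩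
      · exact ⟨fun e => absurd ⟨z, hz, e⟩ ha, fun s hs _ x hx y hy =>
          (h1 s).1.cmp x (h2 s (hsub z hz s hs hx)) y hy⟩
      · exact hZ2 z hz z' hz'

/-- the largest point of a node, at least `ℵ_2` -/
noncomputable def top : List K → K
  | [] => al K 2
  | β :: t => max β (top t)

theorem top_mono {s t : List K} (h : s <:+ t) : top s ≤ top t := by
  induction t with
  | nil => rw [List.suffix_nil.1 h]
  | cons a t ih =>
    rcases List.suffix_cons_iff.1 h with rfl | h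
    · exact le_rfl
    · exact (ih h).trans (le_max_right _ _)

theorem al_le_top (t : List K) : al K 2 ≤ top t := top_mono (List.nil_suffix)

theorem le_top_of_mem {t : List K} {x : K} (h : x ∈ t) : x ≤ top t := by
  induction t with
  | nil => simp at h
  | cons a t ih =>
    rcases List.mem_cons.1 h with rfl | h
    · exact le_max_left _ _
    · exact (ih h).trans (le_max_right _ _)

/-- the size bound for collapse conditions at the node `t` -/
noncomputable def nu (t : List K) : K := sc (top t)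

theorem top_lt_nu (t : List K) : top t < nu t := lt_sc _

theorem cd_top_inf (t : List K) : ℵ₀ ≤ cd (top t) := aleph0_le_cd (al_le_top t)

theorem cd_nu_inf (t : List K) : ℵ₀ ≤ cd (nu t) := (cd_top_inf t).trans (cd_lt_sc _).le

theorem nu_mono {s t : List K} (h : s <:+ t) : nu s ≤ nu t := sc_mono (top_mono h)

/-- lower parts at a node -/
inductive LowOK : List K → List (Cnd K) → Prop
  | nil : LowOK [] []
  | cons {β : K} {t : List K} {c : Cnd K} {ρ : List (Cnd K)} :
      IsCol (nu t) c → Below c β → LowOK t ρ → LowOK (β :: t) (c :: ρ)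

/-- componentwise inclusion -/
abbrev Sub (r r' : List (Cnd K)) : Prop := List.Forall₂ (· ⊆ ·) r r'

theorem Sub.rfl' (r : List (Cnd K)) : Sub r r := List.forall₂_refl r

theorem Sub.trans' {a b c : List (Cnd K)} (h : Sub a b) (h' : Sub b c) : Sub a c := by
  induction h generalizing c with
  | nil => exact h'
  | cons h1 _ ih =>
    cases h' with
    | cons h2 h3 => exact .cons (h1.trans h2) (ih h3)

theorem LowOK.length {t : List K} {ρ : List (Cnd K)} (h : LowOK t ρ) : ρ.length = t.length := by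
  induction h with
  | nil => rfl
  | cons _ _ _ ih => simp [ih]

theorem low_press_of {t : List K} (h : Press fun (ρ : List (Cnd K)) (_ : K) => LowOK t ρ) :
    Press fun (ρ : List (Cnd K)) β => LowOK (β :: t) ρ := fun f hf => by
  obtain ⟨x, hx⟩ := ((press_col (nu t)).prod h) (fun β => ((f β).headD ∅, (f β).tail))
    (hf.mono fun β h => by
      generalize f β = r at h
      cases h with
      | cons h1 h2 h3 => exact ⟨⟨h1, h2⟩, h3⟩)
  refine ⟨x.1 :: x.2, (hf.and hx).mono fun β h => ?_⟩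
  obtain ⟨h, h'⟩ := h
  generalize f β = r at h h'
  cases h with
  | cons h1 h2 h3 => rw [← h']; rfl

theorem low_const (t : List K) : Press fun (ρ : List (Cnd K)) (_ : K) => LowOK t ρ := by
  induction t with
  | nil => exact fun f hf => ⟨[], hf.mono fun β h => by
      generalize f β = r at h
      cases h; rfl⟩
  | cons a t ih =>
    refine (low_press_of ih).mono ((ae_gt a).mono fun β hβ ρ h => ?_)
    cases h with
    | cons h1 h2 h3 => exact .cons h1 (h2.mono hβ.le) h3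

theorem low_press (t : List K) : Press fun (ρ : List (Cnd K)) β => LowOK (β :: t) ρ :=
  low_press_of (low_const t)

theorem mk_small_le : #{c : Cnd K | #c < #K} ≤ #K := by
  have h1 : {c : Cnd K | #c < #K} ⊆ ⋃ x ∈ (univ : Set K), 𝒫 (Iio x ×ˢ Iio x ×ˢ Iio x) := by
    intro c hc
    obtain ⟨x, hx⟩ := (ae_all_set (p := fun (y : K × K × K) x => y.1 < x ∧ y.2.1 < x ∧ y.2.2 < x)
      hc fun y _ => (ae_gt _).and ((ae_gt _).and (ae_gt _))).exists
    exact mem_biUnion (mem_univ x) fun y hy => hx y hy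
  have hK : ℵ₀ ≤ #K := (NM.unc : ℵ₀ < #K).le
  refine (mk_le_mk_of_subset h1).trans (mk_biUnion_le_of hK (by simp) fun x _ => ?_)
  rw [mk_powerset]
  refine (two_pow_lt ?_).le
  rw [mk_setProd, mk_setProd]
  exact mul_lt_of_lt hK (cd_lt x) (mul_lt_of_lt hK (cd_lt x) (cd_lt x))

theorem LowOK.small {t : List K} {ρ : List (Cnd K)} (h : LowOK t ρ) : ∀ c ∈ ρ, #c < #K := by
  induction h with
  | nil => simp
  | cons h1 _ _ ih =>
    intro c hc
    rcases List.mem_cons.1 hc with rfl | hc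
    · exact h1.sm.trans_lt (cd_lt _)
    · exact ih c hc

theorem ae_count (t : List K) : ∀ᶠ β in UF K, #{ρ | LowOK (β :: t) ρ} ≤ cd β :=
  (low_press t).count (mk_list_le (NM.unc : ℵ₀ < #K).le mk_small_le) fun _ _ h => h.small

/-- among `lam` many lower parts at `t` coloured below `θ`, two compatible ones share a colour -/
def Pigeon (t : List K) (lam θ : K) : Prop :=
  ∀ (f : K → List (Cnd K)) (i : K → K), (∀ y < lam, LowOK t (f y) ∧ i y < θ) →
    ∃ y < lam, ∃ y' < lam, y ≠ y' ∧ i y = i y' ∧ ∃ ρ, LowOK t ρ ∧ Sub (f y) ρ ∧ Sub (f y') ρ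

theorem ae_pigeon (t : List K) (θ : K) : ∀ᶠ β in UF K, Pigeon (β :: t) β θ := by
  by_contra hcon
  have h1 := ae_not hcon
  have h2 : ∀ β, ∃ (f : K → List (Cnd K)) (i : K → K), ¬ Pigeon (β :: t) β θ →
      (∀ y < β, LowOK (β :: t) (f y) ∧ i y < θ) ∧ ¬ ∃ y < β, ∃ y' < β, y ≠ y' ∧ i y = i y' ∧
        ∃ ρ, LowOK (β :: t) ρ ∧ Sub (f y) ρ ∧ Sub (f y') ρ := fun β => by
    by_cases h : Pigeon (β :: t) β θ
    · exact ⟨fun _ => [], id, fun h' => absurd h h'⟩
    · simp only [Pigeon, not_forall] at h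
      obtain ⟨f, i, h, h'⟩ := h
      exact ⟨f, i, fun _ => ⟨h, h'⟩⟩
  choose f i hf using h2
  choose r hr using fun y => low_press t (fun β => f β y)
    ((h1.and (ae_gt y)).mono fun β h => ((hf β h.1).1 y h.2).1)
  choose j hj using fun y => ae_const_small (S := Iio θ) (cd_lt θ) (f := fun β => i β y)
    ((h1.and (ae_gt y)).mono fun β h => ((hf β h.1).1 y h.2).2)
  have h3 : ∀ y, j y < θ ∧ ∃ c ρ, r y = c :: ρ ∧ IsCol (nu t) c ∧ LowOK t ρ := fun y => by
    obtain ⟨β, g1, g2, g3, g4⟩ := (h1.and ((ae_gt y).and ((hr y).and (hj y)))).exists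
    obtain ⟨g5, g6⟩ := (hf β g1).1 y g2
    rw [g3] at g5
    refine ⟨g4 ▸ g6, ?_⟩
    generalize r y = r' at g5
    cases g5 with
    | cons k1 _ k3 => exact ⟨_, _, rfl, k1, k3⟩
  choose hjθ c ρ hrc hc hρ using h3
  obtain ⟨c0, hc0⟩ := press_col (nu t) (fun y => {x | x ∈ c y ∧ x.1 < y})
    (Eventually.of_forall fun y => ⟨(hc y).subset fun _ h => h.1, fun _ h => h.2⟩)
  obtain ⟨ρ0, hρ0⟩ := low_const t ρ (Eventually.of_forall hρ)
  obtain ⟨j0, hj0⟩ := ae_const_small (S := Iio θ) (cd_lt θ) (f := j) (Eventually.of_forall hjθ)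
  have h4 := hc0.and (hρ0.and hj0)
  obtain ⟨y, a1, a2, a3⟩ := h4.exists
  obtain ⟨y', ⟨b1, b2, b3⟩, b4, b5⟩ := (h4.and ((ae_gt y).and (hc y).ae_below)).exists
  have h5 : IsCol (nu t) (c y ∪ c y') := (hc y).union (cd_nu_inf t) (hc y') fun x hx x' hx' e => by
    have : x' ∈ {x | x ∈ c y ∧ x.1 < y} := by
      rw [a1, ← b1]
      exact ⟨hx', e ▸ b5 x hx⟩
    exact (hc y).cmp x hx x' this.1 e
  obtain ⟨β, g1, g2, g3, g4, g5, g6, g7⟩ := (h1.and ((ae_gt y').and ((hr y).and ((hr y').and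
    ((hj y).and ((hj y').and h5.ae_below)))))).exists
  refine (hf β g1).2 ⟨y, b4.trans g2, y', g2, b4.ne, by rw [g5, g6, a3, b3],
    (c y ∪ c y') :: ρ0, .cons h5 g7 (a2 ▸ hρ y), ?_, ?_⟩
  · rw [g3, hrc, a2]
    exact .cons subset_union_left (Sub.rfl' _)
  · rw [g4, hrc, b2]
    exact .cons subset_union_right (Sub.rfl' _)

theorem pigeon_of_count {t : List K} {lam θ : K} (hθ : ℵ₀ ≤ cd θ)
    (h : #{ρ | LowOK t ρ} ≤ cd θ) (hl : cd θ < cd lam) : Pigeon t lam θ := by
  intro f i hf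
  by_contra hcon
  have h1 : cd lam ≤ #({ρ | LowOK t ρ} × Iio θ) := mk_le_of_injective
    (f := fun y : Iio lam => ((⟨f y, (hf y y.2).1⟩ : {ρ | LowOK t ρ}),
      (⟨i y, (hf y y.2).2⟩ : Iio θ))) fun y y' e => by
    by_contra hne
    have e1 : f y = f y' := congrArg (fun z => z.1.1) e
    have e2 : i y = i y' := congrArg (fun z => z.2.1) e
    exact hcon ⟨y, y.2, y', y'.2, fun e => hne (Subtype.ext e), e2, f y, (hf y y.2).1,
      Sub.rfl' _, e1 ▸ Sub.rfl' _⟩
  rw [mk_prod, lift_id, lift_id] at h1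
  exact absurd hl (not_lt.2 (h1.trans ((mul_le_mul' h le_rfl).trans (mul_eq_self hθ).le)))

/-- the points allowed after the node `t` -/
def G (t : List K) : Set K :=
  {β | sc (nu t) < β ∧ #{ρ | LowOK (β :: t) ρ} ≤ cd β ∧ Pigeon (β :: t) β (sc (nu t))}

theorem ae_G (t : List K) : ∀ᶠ β in UF K, β ∈ G t :=
  (ae_gt _).and ((ae_count t).and (ae_pigeon t _))

theorem top_lt_of_G {t : List K} {β : K} (h : β ∈ G t) : top t < β :=
  (top_lt_nu t).trans ((lt_sc _).trans h.1)

theorem top_cons_of_G {t : List K} {β : K} (h : β ∈ G t) : top (β :: t) = β :=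
  max_eq_left (top_lt_of_G h).le

/-- the lower part of an assignment of conditions to nodes -/
def low : List K → (List K → Cnd K) → List (Cnd K)
  | [], _ => []
  | _ :: t, c => c t :: low t c

theorem low_sub_iff {s : List K} {c c' : List K → Cnd K} :
    Sub (low s c) (low s c') ↔ ∀ β t, β :: t <:+ s → c t ⊆ c' t := by
  induction s with
  | nil => simp [low]
  | cons a s ih =>
    simp only [low, List.forall₂_cons, ih, List.suffix_cons_iff]
    constructor
    · rintro ⟨h1, h2⟩ β t (e | h)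
      · cases e; exact h1
      · exact h2 β t h
    · exact fun h => ⟨h a s (Or.inl rfl), fun β t ht => h β t (Or.inr ht)⟩

theorem lowOK_low_iff {s : List K} {c : List K → Cnd K} :
    LowOK s (low s c) ↔ ∀ β t, β :: t <:+ s → IsCol (nu t) (c t) ∧ Below (c t) β := by
  induction s with
  | nil => simpa [low] using LowOK.nil
  | cons a s ih =>
    simp only [low, List.suffix_cons_iff]
    constructor
    · intro h
      cases h with
      | cons h1 h2 h3 =>
        rintro β t (e | h)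
        · cases e; exact ⟨h1, h2⟩
        · exact ih.1 h3 β t h
    · exact fun h => .cons (h a s (Or.inl rfl)).1 (h a s (Or.inl rfl)).2
        (ih.2 fun β t ht => h β t (Or.inr ht))

theorem low_congr {s : List K} {c c' : List K → Cnd K} (h : low s c = low s c') {β : K}
    {t : List K} (ht : β :: t <:+ s) : c t = c' t :=
  Subset.antisymm (low_sub_iff.1 (h ▸ Sub.rfl' _) β t ht) (low_sub_iff.1 (h ▸ Sub.rfl' _) β t ht)

open Classical in
/-- put the lower part `r` below the node `t` -/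
noncomputable def sp : List K → List (Cnd K) → (List K → Cnd K) → List K → Cnd K
  | _ :: t, c :: r, D => Function.update (sp t r D) t c
  | _, _, D => D

theorem sp_eq_or (t : List K) (r : List (Cnd K)) (D : List K → Cnd K) (s : List K) :
    sp t r D s = D s ∨ ∃ β, β :: s <:+ t := by
  induction t generalizing r with
  | nil => left; rfl
  | cons a t ih =>
    cases r with
    | nil => left; rfl
    | cons c r =>
      by_cases e : s = t
      · exact Or.inr ⟨a, e ▸ List.suffix_refl _⟩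
      · rw [sp, Function.update_of_ne e]
        exact (ih r).imp_right fun ⟨β, h⟩ => ⟨β, h.trans (List.suffix_cons _ _)⟩

theorem sp_of_le {t : List K} (r : List (Cnd K)) (D : List K → Cnd K) {s : List K}
    (h : t.length ≤ s.length) : sp t r D s = D s :=
  (sp_eq_or t r D s).resolve_right fun ⟨β, hβ⟩ => by
    have := hβ.length_le
    simp at this
    omega

theorem low_update {t : List K} (c : List K → Cnd K) (s : List K) (x : Cnd K)
    [DecidableEq (List K)] (h : t.length ≤ s.length) : low t (Function.update c s x) = low t c := by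
  induction t with
  | nil => rfl
  | cons a t ih =>
    simp only [List.length_cons] at h
    rw [low, low, ih (by omega), Function.update_of_ne]
    rintro rfl
    omega

theorem low_sp {t : List K} {r : List (Cnd K)} (D : List K → Cnd K) (h : r.length = t.length) :
    low t (sp t r D) = r := by
  induction t generalizing r with
  | nil => exact (List.length_eq_zero_iff.1 h).symm
  | cons a t ih =>
    cases r with
    | nil => simp at h
    | cons c r => rw [low, sp, Function.update_self, low_update _ _ _ le_rfl, ih (by simpa using h)]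

theorem suffix_cases {s t : List K} (h : s <:+ t) : s = t ∨ ∃ β, β :: s <:+ t := by
  induction t with
  | nil => exact Or.inl (List.suffix_nil.1 h)
  | cons a t ih =>
    rcases List.suffix_cons_iff.1 h with e | h
    · exact Or.inl e
    · rcases ih h with rfl | ⟨β, hβ⟩
      · exact Or.inr ⟨a, List.suffix_refl _⟩
      · exact Or.inr ⟨β, hβ.trans (List.suffix_cons _ _)⟩

theorem sp_sub {t : List K} {r : List (Cnd K)} {D c : List K → Cnd K} (hr : r.length = t.length)
    (h : Sub r (low t c)) {s : List K} (hs : s <:+ t ∨ t <:+ s) (hD : t <:+ s → D s ⊆ c s) :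
    sp t r D s ⊆ c s := by
  have h1 : t <:+ s → sp t r D s ⊆ c s := fun h => (sp_of_le r D h.length_le).symm ▸ hD h
  rcases hs with hs | hs
  · rcases suffix_cases hs with rfl | ⟨β, hβ⟩
    · exact h1 (List.suffix_refl _)
    · exact low_sub_iff.1 ((low_sp D hr).symm ▸ h) β s hβ
  · exact h1 hs

theorem sp_mono {t : List K} {r r' : List (Cnd K)} {D D' : List K → Cnd K}
    (hr : r.length = t.length) (h : Sub r r') {s : List K} (hs : s <:+ t ∨ t <:+ s)
    (hD : t <:+ s → D s ⊆ D' s) : sp t r D s ⊆ sp t r' D' s :=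
  sp_sub hr ((low_sp D' (h.length_eq ▸ hr)).symm ▸ h) hs
    fun h => (sp_of_le r' D' h.length_le).symm ▸ hD h

theorem sp_col {t : List K} {r : List (Cnd K)} {D : List K → Cnd K} (hr : LowOK t r)
    (hD : ∀ s, IsCol (nu s) (D s)) (s : List K) : IsCol (nu s) (sp t r D s) := by
  rcases sp_eq_or t r D s with e | ⟨β, hβ⟩
  · exact e ▸ hD s
  · exact (lowOK_low_iff.1 ((low_sp D hr.length).symm ▸ hr) β s hβ).1

theorem sp_below {t : List K} {r : List (Cnd K)} (D : List K → Cnd K) (hr : LowOK t r)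
    {β : K} {s : List K} (hs : β :: s <:+ t) : Below (sp t r D s) β :=
  (lowOK_low_iff.1 ((low_sp D hr.length).symm ▸ hr) β s hs).2

end Pool.Agent.P.MP_2e9c36_lc
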