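import Pool.Agent.P.MP_2e9c36_lc.Forcing

set_option autoImplicit false
set_option linter.unusedSectionVars false

/-! Deciding many values modulo the lower part; preservation of cardinals. -/

open Cardinal Set Filter Pool.Agent.Lib.PosetForcing

namespace Pool.Agent.P.MP_2e9c36_lc

universe u

variable {K : Type u} [LinearOrder K] [WellFoundedLT K] [NM K]

theorem comp_of_suffix {s t u : List K} (ht : t <:+ s) (h : u <:+ s ∨ s <:+ u) :
    u <:+ t ∨ t <:+ u :=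
  h.elim (fun h => List.suffix_or_suffix_of_suffix h ht) fun h => Or.inr (ht.trans h)

theorem cover (p : PP K) {t : List K} (ht : t <:+ p.s) {ι : Type u} (hι : #ι ≤ cd (nu t))
    (hc : #{ρ | LowOK t ρ} ≤ cd (nu t)) (γ : K) (R : ι → K → PP K → Prop)
    (hR : ∀ i q, ∃ r ≤ q, ∃ y < γ, Dn (R i y) r) :
    ∃ q ≤ p, q.s = p.s ∧ ∀ i ρ0, LowOK t ρ0 → ∃ ρ, LowOK t ρ ∧ Sub ρ0 ρ ∧
      ∃ y, ∀ r ≤ q, Sub ρ (low t r.c) → Dn (R i y) r := by
  classical
  have hX : #(ι × {ρ | LowOK t ρ}) ≤ cd (nu t) := by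
    rw [mk_prod, lift_id, lift_id]
    exact (mul_le_mul' hι hc).trans (mul_eq_self (cd_nu_inf t)).le
  obtain ⟨D, h1, h2, h3⟩ := meet_all (S := List K) (X := ι × {ρ | LowOK t ρ}) nu cd_nu_inf
    (fun s x => ∀ β, β :: s <:+ p.s → x.1 < β) (fun _ s => t <:+ s)
    (fun s => by
      by_cases hs : t <:+ s
      · exact (mk_set_le _).trans (hX.trans (cd_mono (nu_mono hs)))
      · simp [hs])
    (fun a D => ∃ ρ, LowOK t ρ ∧ Sub a.2.1 ρ ∧ ∃ y, FA p.s (sp t ρ D) (R a.1 y))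
    (fun a D D' e ⟨ρ, g1, g2, y, g3⟩ => ⟨ρ, g1, g2, y, g3.mono fun u hu =>
      sp_mono g1.length (Sub.rfl' _) (comp_of_suffix ht hu) (e u)⟩)
    (fun a D hD => by
      obtain ⟨c, g1, g2, g3, y, g4⟩ := decide_FA p.s (sp t a.2 D) (sp_col a.2.2 fun s => (hD s).1)
        (fun β u hu => ⟨(p.stem β u hu).1, by
          rcases sp_eq_or t a.2 D u with e | ⟨β', h⟩
          · exact e ▸ fun x hx => (hD u).2 x hx β hu
          · rw [← nb_eq hu, nb_eq (h.trans ht)]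
            exact sp_below D a.2.2 h⟩) γ (R a.1) (hR a.1)
      have hl : LowOK t (low t c) := lowOK_low_iff.2 fun β u hu => ⟨g1 u, g2 β u (hu.trans ht)⟩
      refine ⟨fun s => if t <:+ s then c s else D s, fun s => ?_, fun s => ?_, low t c, hl, ?_,
        y, g4.mono fun u hu => ?_⟩
      · beta_reduce
        split_ifs
        exacts [⟨g1 s, fun x hx β h => g2 β s h x hx⟩, hD s]
      · beta_reduce
        split_ifs with h
        exacts [sp_of_le a.2.1 D h.length_le ▸ g3 s, subset_rfl]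
      · exact low_sp D a.2.2.length ▸ low_sub_iff.2 fun _ u _ => g3 u
      · have h1 : t <:+ u → c u ⊆ sp t (low t c) (fun s => if t <:+ s then c s else D s) u :=
          fun h => by rw [sp_of_le _ _ h.length_le, if_pos h]
        rcases comp_of_suffix ht hu with h | h
        · rcases suffix_cases h with rfl | ⟨β, hβ⟩
          · exact h1 (List.suffix_refl _)
          · exact (low_congr (low_sp _ hl.length) hβ).ge
        · exact h1 h)
    p.c fun s => ⟨p.col s, fun x hx β h => (p.stem β s h).2 x hx⟩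
  choose ρ g1 g2 y B g3 g4 using h3
  refine ⟨mkP p.s (fun u => {β | β ∈ p.B u ∧ ∀ a, β ∈ B a u}) D (fun s => (h1 s).1)
    (fun u => (p.big u).and (ae_all (hX.trans_lt (cd_lt _)) fun a => g3 a u))
    fun β u hu => ⟨(p.stem β u hu).1, fun x hx => (h1 u).2 x hx β hu⟩,
    ⟨.base, fun _ _ _ h => h.1.1, fun u _ => h2 u⟩, rfl, fun i ρ0 h0 =>
      ⟨ρ (i, ⟨ρ0, h0⟩), g1 _, g2 (i, ⟨ρ0, h0⟩), y (i, ⟨ρ0, h0⟩),
      fun r hr hρ => g4 (i, ⟨ρ0, h0⟩) r ⟨?_, ?_, ?_⟩⟩⟩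
  · exact Up.trans .base hr.up fun _ _ _ h => h.1.2 _
  · exact fun u hu β h => (hr.sub u hu h).1.2 _
  · exact fun u hu => sp_sub (g1 _).length hρ (comp_of_suffix ht (hu.mono hr).comp)
      fun _ => hr.ext u hu

theorem lowOK_low (p : PP K) {t : List K} (ht : t <:+ p.s) : LowOK t (low t p.c) :=
  lowOK_low_iff.2 fun β u hu => ⟨p.col u, (p.stem β u (hu.trans ht)).2⟩

theorem low_mono {p q : PP K} (h : q ≤ p) {t : List K} (ht : t <:+ q.s) :
    Sub (low t p.c) (low t q.c) :=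
  low_sub_iff.2 fun _ u hu => h.ext u (Or.inl ((List.suffix_cons _ _).trans (hu.trans ht)))

theorem exists_low (p : PP K) {t : List K} (ht : t <:+ p.s) {ρ : List (Cnd K)} (h : LowOK t ρ)
    (e : Sub (low t p.c) ρ) : ∃ q ≤ p, q.s = p.s ∧ low t q.c = ρ := by
  obtain ⟨q, hq, e1, e2⟩ := exists_strong p (sp t ρ p.c) (sp_col h p.col) (fun β u hu => by
    rcases sp_eq_or t ρ p.c u with e | ⟨β', h'⟩
    · exact e ▸ (p.stem β u hu).2
    · rw [← nb_eq hu, nb_eq (h'.trans ht)]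
      exact sp_below _ h h') fun u _ => by
    rcases sp_eq_or t ρ p.c u with e | ⟨β', h'⟩
    · exact e.ge
    · exact low_sub_iff.1 ((low_sp p.c h.length).symm ▸ e) β' u h'
  exact ⟨q, hq, e1, e2 ▸ low_sp _ h.length⟩

/-- no generic injection of `lam` into `θ` -/
theorem no_inj (p : PP K) {t : List K} (ht : t <:+ p.s) {lam θ : K} (hθ : θ ≤ nu t)
    (hc : #{ρ | LowOK t ρ} ≤ cd (nu t)) (pig : Pigeon t lam θ) (E : K → K → PP K → Prop)
    (mono : ∀ y i q r, r ≤ q → E y i q → E y i r)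
    (tot : ∀ y < lam, ∀ q ≤ p, ∃ r ≤ q, ∃ i < θ, E y i r)
    (inj : ∀ y y' i, ∀ q ≤ p, E y i q → E y' i q → y = y') : False := by
  obtain ⟨q, hq, e, h⟩ := cover p ht (ι := Iio θ) (cd_mono hθ) hc (sc lam)
    (fun i y r => (y < lam ∧ E y i r) ∨ (y = lam ∧ ∀ r' ≤ r, ∀ y' < lam, ¬ E y' i r'))
    fun i q => by
      by_cases h : ∃ r ≤ q, ∃ y < lam, E y i r
      · obtain ⟨r, hr, y, hy, h⟩ := h
        exact ⟨r, hr, y, hy.trans (lt_sc _), fun r' hr' =>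
          ⟨r', le_rfl, Or.inl ⟨hy, mono _ _ _ _ hr' h⟩⟩⟩
      · exact ⟨q, le_rfl, lam, lt_sc _, fun r hr => ⟨r, le_rfl, Or.inr ⟨rfl,
          fun r' hr' y hy h' => h ⟨r', hr'.trans hr, y, hy, h'⟩⟩⟩⟩
  have htq : t <:+ q.s := e ▸ ht
  have h1 : ∀ y, ∃ (ρ : List (Cnd K)) (i : K), y < lam → LowOK t ρ ∧ i < θ ∧ Sub (low t q.c) ρ ∧
      ∀ r ≤ q, Sub ρ (low t r.c) → Dn (E y i) r := fun y => by
    by_cases hy : y < lam
    · obtain ⟨r, hr, i, hi, g⟩ := tot y hy q hq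
      have htr : t <:+ r.s := htq.trans (stem_le hr)
      obtain ⟨ρ, g1, g2, z, g3⟩ := h ⟨i, hi⟩ _ (lowOK_low r htr)
      obtain ⟨r1, k1, -, k2⟩ := exists_low r htr g1 g2
      obtain ⟨r2, k3, k4⟩ := g3 r1 (k1.trans hr) (k2 ▸ Sub.rfl' _) r1 le_rfl
      have k5 := mono _ _ _ _ (k3.trans k1) g
      obtain rfl : z = y := by
        rcases k4 with k4 | k4
        · exact inj _ _ _ r2 (k3.trans (k1.trans (hr.trans hq))) k4.2 k5
        · exact absurd k5 (k4.2 r2 le_rfl y hy)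
      refine ⟨ρ, i, fun _ => ⟨g1, hi, (low_mono hr htr).trans' g2, fun r' hr' e' x hx => ?_⟩⟩
      obtain ⟨x', hx', k6⟩ := g3 r' hr' e' x hx
      exact ⟨x', hx', (k6.resolve_right fun k => hy.ne k.1).2⟩
    · exact ⟨[], θ, fun h => absurd h hy⟩
  choose ρ i hρ using h1
  obtain ⟨y, hy, y', hy', hne, ei, σ, s1, s2, s3⟩ := pig ρ i
    fun y hy => ⟨(hρ y hy).1, (hρ y hy).2.1⟩
  obtain ⟨r, r1, r2, r3⟩ := exists_low q htq s1 ((hρ y hy).2.2.1.trans' s2)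
  obtain ⟨a, a1, a2⟩ := (hρ y hy).2.2.2 r r1 (r3 ▸ s2) r le_rfl
  obtain ⟨b, b1, b2⟩ := (hρ y' hy').2.2.2 r r1 (r3 ▸ s3) a a1
  exact hne (inj _ _ (i y') b (b1.trans (a1.trans (r1.trans hq))) (ei ▸ mono _ _ _ _ b1 a2) b2)

theorem count_nil : #{ρ : List (Cnd K) | LowOK [] ρ} ≤ ℵ₀ := by
  refine le_trans (mk_le_mk_of_subset (t := {[]}) fun ρ h => ?_) (by simp)
  cases h
  rfl

/-- few values below a fixed bound are decided by one extension -/
theorem decide_all (p : PP K) {ι : Type u} (hι : #ι ≤ cd (al K 3)) (γ : K)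
    (R : ι → K → PP K → Prop) (hR : ∀ i q, ∃ r ≤ q, ∃ y < γ, Dn (R i y) r) :
    ∃ q ≤ p, ∀ i, ∃ y, Dn (R i y) q := by
  obtain ⟨q, hq, -, h⟩ := cover p (t := []) List.nil_suffix hι
    (count_nil.trans (cd_nu_inf _)) γ R hR
  refine ⟨q, hq, fun i => ?_⟩
  obtain ⟨ρ, g1, -, y, g2⟩ := h i [] .nil
  cases g1
  exact ⟨y, g2 q le_rfl .nil⟩

end Pool.Agent.P.MP_2e9c36_lc
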