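import Pool.Agent.P.MP_2e9c36_lc.Col
import Pool.Agent.Lib.PosetForcing.Names

set_option autoImplicit false
set_option linter.unusedSectionVars false

/-! Tree Prikry forcing with interleaved collapses and its Prikry property. -/

open Cardinal Set Filter Pool.Agent.Lib.PosetForcing

namespace Pool.Agent.P.MP_2e9c36_lc

universe u

variable {K : Type u}

/-- nodes above the stem `s` in the tree with successor sets `B` -/
inductive Up (s : List K) (B : List K → Set K) : List K → Prop
  | base : Up s B s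
  | step {t : List K} {β : K} : Up s B t → β ∈ B t → Up s B (β :: t)

theorem Up.suffix {s t : List K} {B : List K → Set K} (h : Up s B t) : s <:+ t := by
  induction h with
  | base => exact List.suffix_refl _
  | step _ _ ih => exact ih.trans (List.suffix_cons _ _)

theorem Up.trans {s t u : List K} {B B' : List K → Set K} (h : Up s B t) (h' : Up t B' u)
    (e : ∀ v, Up t B' v → B' v ⊆ B v) : Up s B u := by
  induction h' with
  | base => exact h
  | step h1 h2 ih => exact .step ih (e _ h1 h2)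

theorem Up.of_suffix {s t u : List K} {B : List K → Set K} (h : Up s B u) (ht : t <:+ u) :
    t <:+ s ∨ Up s B t := by
  induction h with
  | base => exact Or.inl ht
  | step h1 h2 ih =>
    rcases List.suffix_cons_iff.1 ht with rfl | ht
    · exact Or.inr (.step h1 h2)
    · exact ih ht

theorem Up.cons_cases {s t : List K} {β : K} {B : List K → Set K} (h : Up s B (β :: t)) :
    β :: t = s ∨ (Up s B t ∧ β ∈ B t) := by
  generalize e : β :: t = u at h
  cases h with
  | base => exact Or.inl rfl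
  | step h1 h2 => cases e; exact Or.inr ⟨h1, h2⟩

theorem Up.restart {s t u : List K} {B : List K → Set K} (h : Up s B u) (h1 : s <:+ t)
    (h2 : t <:+ u) : Up t B u := by
  induction h with
  | base => rw [h2.eq_of_length_le h1.length_le]; exact .base
  | step _ g2 ih =>
    rcases List.suffix_cons_iff.1 h2 with rfl | h2
    · exact .base
    · exact .step (ih h2) g2

theorem not_cons_suffix {s t : List K} {β : K} (h : β :: t <:+ s) (h' : s.length ≤ t.length) :
    False := by
  have := h.length_le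
  simp at this
  omega

variable [LinearOrder K] [WellFoundedLT K] [NM K]

variable (K) in
/-- conditions: stem, successor sets, collapse conditions at the nodes -/
structure PP : Type u where
  /-- stem -/
  s : List K
  /-- successor sets -/
  B : List K → Set K
  /-- collapse conditions -/
  c : List K → Cnd K
  col : ∀ t, IsCol (nu t) (c t)
  big : ∀ t, ∀ᶠ β in UF K, β ∈ B t
  ok : ∀ t, ∀ β ∈ B t, β ∈ G t ∧ Below (c t) β
  stem : ∀ β t, β :: t <:+ s → β ∈ G t ∧ Below (c t) β

/-- nodes of the tree of `p` -/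
def In (p : PP K) (t : List K) : Prop := t <:+ p.s ∨ Up p.s p.B t

/-- `q` extends the data `(s, B, c)` -/
structure RLe (q : PP K) (s : List K) (B : List K → Set K) (c : List K → Cnd K) : Prop where
  up : Up s B q.s
  sub : ∀ t, Up q.s q.B t → q.B t ⊆ B t
  ext : ∀ t, In q t → c t ⊆ q.c t

theorem In.transfer {q : PP K} {s t : List K} {B : List K → Set K} (h : In q t)
    (h1 : Up s B q.s) (h2 : ∀ t, Up q.s q.B t → q.B t ⊆ B t) : t <:+ s ∨ Up s B t :=
  h.elim h1.of_suffix fun h => Or.inr (h1.trans h h2)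

theorem RLe.trans {r q : PP K} {s : List K} {B : List K → Set K} {c : List K → Cnd K}
    (h : RLe r q.s q.B q.c) (h' : RLe q s B c) : RLe r s B c :=
  ⟨h'.up.trans h.up h'.sub, fun t ht => (h.sub t ht).trans (h'.sub t (h.up.trans ht h.sub)),
    fun t ht => (h'.ext t (ht.transfer h.up h.sub)).trans (h.ext t ht)⟩

instance : Preorder (PP K) where
  le q p := RLe q p.s p.B p.c
  le_refl _ := ⟨.base, fun _ _ => subset_rfl, fun _ _ => subset_rfl⟩
  le_trans _ _ _ h h' := RLe.trans h h'

theorem In.ok {p : PP K} {t : List K} {β : K} (h : In p (β :: t)) :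
    β ∈ G t ∧ Below (p.c t) β := by
  rcases h with h | h
  · exact p.stem β t h
  · rcases h.cons_cases with e | h
    · exact p.stem β t (e ▸ List.suffix_refl _)
    · exact p.ok t β h.2

theorem In.of_suffix {p : PP K} {t u : List K} (h : In p u) (ht : t <:+ u) : In p t :=
  h.elim (fun h => Or.inl (ht.trans h)) fun h => h.of_suffix ht

theorem In.comp {p : PP K} {t : List K} (h : In p t) : t <:+ p.s ∨ p.s <:+ t :=
  h.imp_right Up.suffix

theorem In.mono {q p : PP K} {t : List K} (h : In q t) (e : q ≤ p) : In p t :=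
  h.transfer e.up e.sub

theorem stem_le {q p : PP K} (e : q ≤ p) : p.s <:+ q.s := e.up.suffix

instance : OrderTop (PP K) where
  top := ⟨[], G, fun _ => ∅, fun _ => .empty _, ae_G, fun _ _ h => ⟨h, by simp [Below]⟩, by simp⟩
  le_top q := by
    refine ⟨?_, fun t _ β h => (q.ok t β h).1, fun _ _ => empty_subset _⟩
    have : ∀ t, t <:+ q.s → Up [] G t := fun t ht => by
      induction t with
      | nil => exact .base
      | cons a t ih => exact .step (ih ((List.suffix_cons _ _).trans ht)) (q.stem a t ht).1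
    exact this _ (List.suffix_refl _)

/-- the condition given by data, after shrinking the tree -/
def mkP (s : List K) (B : List K → Set K) (c : List K → Cnd K) (col : ∀ t, IsCol (nu t) (c t))
    (big : ∀ t, ∀ᶠ β in UF K, β ∈ B t)
    (stem : ∀ β t, β :: t <:+ s → β ∈ G t ∧ Below (c t) β) : PP K :=
  ⟨s, fun t => {β | β ∈ B t ∧ β ∈ G t ∧ Below (c t) β}, c, col,
    fun t => (big t).and ((ae_G t).and (col t).ae_below), fun _ _ h => h.2, stem⟩

/-- move the stem to a node of the tree -/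
def PP.at (p : PP K) (t : List K) (h : Up p.s p.B t) : PP K :=
  ⟨t, p.B, p.c, p.col, p.big, p.ok, fun _ _ ht => In.ok (In.of_suffix (Or.inr h) ht)⟩

theorem PP.at_le (p : PP K) (t : List K) (h : Up p.s p.B t) : p.at t h ≤ p :=
  ⟨h, fun _ _ => subset_rfl, fun _ _ => subset_rfl⟩

theorem exists_ext (p : PP K) {S : K → Prop} (h : ∀ᶠ β in UF K, S β) :
    ∃ q ≤ p, ∃ β, S β ∧ q.s = β :: p.s ∧ q.c = p.c := by
  obtain ⟨β, h1, h2⟩ := (h.and (p.big p.s)).exists
  exact ⟨_, p.at_le _ (.step .base h2), β, h1, rfl, rfl⟩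

theorem exists_long (p : PP K) (n : ℕ) : ∃ q ≤ p, n ≤ q.s.length := by
  induction n with
  | zero => exact ⟨p, le_rfl, Nat.zero_le _⟩
  | succ n ih =>
    obtain ⟨q, hq, h⟩ := ih
    obtain ⟨r, hr, β, -, h1, -⟩ := exists_ext q (S := fun _ => True) (by simp)
    exact ⟨r, hr.trans hq, by simp [h1, h]⟩

/-- replace the collapse conditions by stronger ones -/
theorem exists_strong (p : PP K) (c : List K → Cnd K) (col : ∀ t, IsCol (nu t) (c t))
    (stem : ∀ β t, β :: t <:+ p.s → Below (c t) β) (h : ∀ t, In p t → p.c t ⊆ c t) :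
    ∃ q ≤ p, q.s = p.s ∧ q.c = c :=
  ⟨mkP p.s p.B c col p.big fun β t ht => ⟨(p.stem β t ht).1, stem β t ht⟩,
    ⟨.base, fun _ _ _ h => h.1, fun t ht => h t (ht.transfer .base fun _ _ _ h => h.1)⟩, rfl, rfl⟩

open Classical in
/-- the point of `u` following the initial segment `t` -/
noncomputable def nb (t u : List K) : K := if h : ∃ β, β :: t <:+ u then h.choose else al K 0

theorem nb_eq {t u : List K} {β : K} (h : β :: t <:+ u) : nb t u = β := by
  have h1 : ∃ β, β :: t <:+ u := ⟨β, h⟩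
  rw [nb, dif_pos h1]
  have h2 := (List.suffix_of_suffix_length_le h1.choose_spec h (by simp)).eq_of_length (by simp)
  exact (List.cons.inj h2).1

theorem amalgamate {p : PP K} {t : List K} (ht : Up p.s p.B t) (q : K → PP K) {R : PP K → Prop}
    (h : ∀ᶠ β in UF K, q β ≤ p ∧ (q β).s = β :: t ∧ Dn R (q β)) :
    ∃ r ≤ p, r.s = t ∧ Dn R r := by
  obtain ⟨ρ, hρ⟩ := low_press t (fun β => low (β :: t) (q β).c) (h.mono fun β h =>
    lowOK_low_iff.2 fun γ u hu => ⟨(q β).col u, ((q β).stem γ u (h.2.1 ▸ hu)).2⟩)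
  let X : Set K := {β | (q β ≤ p ∧ (q β).s = β :: t ∧ Dn R (q β)) ∧
    low (β :: t) (q β).c = ρ ∧ β ∈ p.B t}
  have hX : ∀ᶠ β in UF K, β ∈ X := h.and (hρ.and (p.big t))
  obtain ⟨b, hb⟩ := hX.exists
  have hlow : ∀ β ∈ X, ∀ u, u <:+ t → (q β).c u = (q b).c u := fun β hβ u hu => by
    have e : low (β :: t) (q β).c = low (β :: t) (q b).c := hβ.2.1.trans hb.2.1.symm
    rcases suffix_cases hu with rfl | ⟨γ, hγ⟩
    · exact low_congr e (List.suffix_refl _)
    · exact low_congr e (hγ.trans (List.suffix_cons _ _))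
  let r : PP K := mkP t (fun u => if u.length ≤ t.length then X else (q (nb t u)).B u)
    (fun u => if u.length ≤ t.length then (q b).c u else (q (nb t u)).c u)
    (fun u => by split_ifs <;> exact PP.col _ u)
    (fun u => by
      split_ifs
      · exact hX
      · exact PP.big _ u)
    (fun γ u hu => by
      rw [if_pos ((List.suffix_cons _ _).trans hu).length_le]
      exact (q b).stem γ u (hb.1.2.1 ▸ hu.trans (List.suffix_cons _ _)))
  have hB0 : r.B t ⊆ X := fun γ hγ => by simpa [r, mkP] using hγ.1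
  have hB : ∀ β u, β :: t <:+ u → r.B u ⊆ (q β).B u := fun β u hu γ hγ => by
    have := hγ.1
    beta_reduce at this
    rwa [if_neg (not_cons_suffix hu), nb_eq hu] at this
  have hc0 : ∀ u, u <:+ t → r.c u = (q b).c u := fun u hu => if_pos hu.length_le
  have hc : ∀ β u, β :: t <:+ u → r.c u = (q β).c u := fun β u hu => by
    change (if u.length ≤ t.length then (q b).c u else (q (nb t u)).c u) = _
    rw [if_neg (not_cons_suffix hu), nb_eq hu]
  have key : ∀ u, Up t r.B u → u = t ∨ ∃ β ∈ X, Up (β :: t) (q β).B u := fun u hu => by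
    induction hu with
    | base => exact Or.inl rfl
    | step h1 h2 ih =>
      rcases ih with rfl | ⟨β, hβ, ih⟩
      · exact Or.inr ⟨_, hB0 h2, .base⟩
      · exact Or.inr ⟨β, hβ, .step ih (hB β _ ih.suffix h2)⟩
  refine ⟨r, ⟨ht, fun u hu => ?_, fun u hu => ?_⟩, rfl, fun x hx => ?_⟩
  · rcases key u hu with rfl | ⟨β, hβ, h1⟩
    · exact fun γ hγ => (hB0 hγ).2.2
    · exact (hB β u h1.suffix).trans (hβ.1.1.sub u (hβ.1.2.1 ▸ h1))
  · have h0 : u <:+ t → p.c u ⊆ r.c u := fun hu => hc0 u hu ▸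
      hb.1.1.ext u (Or.inl (hb.1.2.1 ▸ hu.trans (List.suffix_cons _ _)))
    rcases hu with hu | hu
    · exact h0 hu
    · rcases key u hu with rfl | ⟨β, hβ, h1⟩
      · exact h0 (List.suffix_refl _)
      · exact hc β u h1.suffix ▸ hβ.1.1.ext u (Or.inr (hβ.1.2.1 ▸ h1))
  · obtain ⟨y, hy, γ, -, e, -⟩ := exists_ext x (S := fun _ => True) (by simp)
    have hyr := hy.trans hx
    rcases key _ hyr.up with e' | ⟨β, hβ, h1⟩
    · exact (not_cons_suffix (β := γ) (t := x.s) (s := t) (e' ▸ e ▸ List.suffix_refl _)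
        (stem_le hx).length_le).elim
    · have h2 : y ≤ q β := by
        refine ⟨hβ.1.2.1 ▸ h1, fun u hu => (hyr.sub u hu).trans (hB β u (h1.suffix.trans hu.suffix)),
          fun u hu => subset_trans ?_ (hyr.ext u hu)⟩
        have h3 : u <:+ β :: t ∨ β :: t <:+ u := hu.comp.elim
          (fun hu => List.suffix_or_suffix_of_suffix hu h1.suffix) fun hu => Or.inr (h1.suffix.trans hu)
        rcases h3 with h3 | h3
        · rcases List.suffix_cons_iff.1 h3 with rfl | h3
          · rw [hc β _ (List.suffix_refl _)]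
          · rw [hc0 u h3, hlow β hβ u h3]
        · rw [hc β u h3]
      obtain ⟨z, hz, h3⟩ := hβ.1.2.2 y h2
      exact ⟨z, hz.trans hy, h3⟩

/-- the Prikry property -/
theorem decide_le (p : PP K) (γ : K) (R : K → PP K → Prop)
    (hR : ∀ q, ∃ r ≤ q, ∃ y < γ, Dn (R y) r) : ∃ q ≤ p, q.s = p.s ∧ ∃ y < γ, Dn (R y) q := by
  classical
  let Gd : List K → Prop := fun t => ∃ q ≤ p, q.s = t ∧ ∃ y < γ, Dn (R y) q
  have step : ∀ t, Up p.s p.B t → ¬ Gd t → ∀ᶠ β in UF K, ¬ Gd (β :: t) := fun t ht h => by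
    refine ae_not fun h1 => h ?_
    have h2 : ∀ β, ∃ x : PP K × K, Gd (β :: t) →
        x.1 ≤ p ∧ x.1.s = β :: t ∧ x.2 < γ ∧ Dn (R x.2) x.1 := fun β => by
      by_cases hβ : Gd (β :: t)
      · obtain ⟨q, g1, g2, y, g3⟩ := hβ
        exact ⟨(q, y), fun _ => ⟨g1, g2, g3⟩⟩
      · exact ⟨(p, γ), fun h => absurd h hβ⟩
    choose x hx using h2
    obtain ⟨y, hy⟩ := ae_const_small (S := Iio γ) (cd_lt γ) (f := fun β => (x β).2)
      (h1.mono fun β h => (hx β h).2.2.1)
    obtain ⟨β, g1, g2⟩ := (h1.and hy).exists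
    obtain ⟨r, r1, r2, r3⟩ := amalgamate ht (fun β => (x β).1) (R := R y)
      ((h1.and hy).mono fun β h => ⟨(hx β h.1).1, (hx β h.1).2.1, h.2 ▸ (hx β h.1).2.2.2⟩)
    exact ⟨r, r1, r2, y, g2 ▸ (hx β g1).2.2.1, r3⟩
  by_contra hcon
  let p' : PP K := mkP p.s (fun t => {β | β ∈ p.B t ∧ (Up p.s p.B t → ¬ Gd t → ¬ Gd (β :: t))})
    p.c p.col (fun t => (p.big t).and (by
      by_cases h : Up p.s p.B t ∧ ¬ Gd t
      · exact (step t h.1 h.2).mono fun _ h _ _ => h
      · exact Eventually.of_forall fun _ h1 h2 => absurd ⟨h1, h2⟩ h)) p.stem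
  have hp : p' ≤ p := ⟨.base, fun _ _ _ h => h.1.1, fun _ _ => subset_rfl⟩
  have key : ∀ t, Up p.s p'.B t → Up p.s p.B t ∧ ¬ Gd t := fun t ht => by
    induction ht with
    | base => exact ⟨.base, hcon⟩
    | step _ h2 ih => exact ⟨.step ih.1 h2.1.1, h2.1.2 ih.1 ih.2⟩
  obtain ⟨r, hr, h⟩ := hR p'
  exact (key _ hr.up).2 ⟨r, hr.trans hp, rfl, h⟩

/-- for some tree, `R` is dense below the data `(s, c)` -/
def FA (s : List K) (c : List K → Cnd K) (R : PP K → Prop) : Prop :=
  ∃ B : List K → Set K, (∀ t, ∀ᶠ β in UF K, β ∈ B t) ∧ ∀ q, RLe q s B c → Dn R q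

theorem FA.mono {s : List K} {c c' : List K → Cnd K} {R : PP K → Prop} (h : FA s c R)
    (e : ∀ t, t <:+ s ∨ s <:+ t → c t ⊆ c' t) : FA s c' R := by
  obtain ⟨B, h1, h2⟩ := h
  exact ⟨B, h1, fun q hq => h2 q ⟨hq.up, hq.sub, fun t ht =>
    (e t ((ht.transfer hq.up hq.sub).imp_right Up.suffix)).trans (hq.ext t ht)⟩⟩

theorem decide_FA (s : List K) (c : List K → Cnd K) (col : ∀ t, IsCol (nu t) (c t))
    (stem : ∀ β t, β :: t <:+ s → β ∈ G t ∧ Below (c t) β) (γ : K) (R : K → PP K → Prop)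
    (hR : ∀ q, ∃ r ≤ q, ∃ y < γ, Dn (R y) r) :
    ∃ c' : List K → Cnd K, (∀ t, IsCol (nu t) (c' t)) ∧ (∀ β t, β :: t <:+ s → Below (c' t) β) ∧
      (∀ t, c t ⊆ c' t) ∧ ∃ y, FA s c' (R y) := by
  classical
  obtain ⟨q, hq, e, y, -, hy⟩ := decide_le (mkP s (fun _ => univ) c col (by simp) stem) γ R hR
  have e' : q.s = s := e
  refine ⟨fun t => if In q t then q.c t else c t, fun t => ?_, fun β t ht => ?_, fun t => ?_,
    y, q.B, q.big, fun r hr => hy.mono ?_⟩
  · beta_reduce
    split_ifs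
    exacts [q.col t, col t]
  · beta_reduce
    rw [if_pos (show In q t from Or.inl (e' ▸ (List.suffix_cons _ _).trans ht))]
    exact (q.stem β t (e' ▸ ht)).2
  · beta_reduce
    split_ifs with h
    exacts [hq.ext t h, subset_rfl]
  · refine ⟨e' ▸ hr.up, hr.sub, fun t ht => ?_⟩
    have := hr.ext t ht
    rwa [if_pos (show In q t from ht.transfer (e' ▸ hr.up) hr.sub)] at this

end Pool.Agent.P.MP_2e9c36_lc
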