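import Pool.Agent.P.MP_2e9c36_lc.GTerm

set_option autoImplicit false
set_option synthInstance.maxSize 4000

/-! The combinatorial core: a master condition and a name-free description of the closed set. -/

open Pool.Agent.Lib.PosetForcing

namespace Pool.Agent.P.MP_5f3b23_lc.Zf.G.Pool.Agent.P.MP_5f3b23_lc.Zf
open _root_.Pool.Agent.P.MP_5f3b23_lc.Zf.G

universe v

variable {M : Type v} [Zm M] [NG M]

theorem lg_imp {Q : Prop} {P : M → Prop} (h : Q → Lg P) : Lg fun B => Q → P B := by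
  by_cases g : Q
  · exact (h g).mono fun _ h _ => h
  · exact ex_U.imp fun _ h => ⟨h, fun _ _ k => absurd k g⟩

/-- below `q`, the part of the set described by `N` under `n` has a cofinal sequence of type `I` -/
def Cf (I q N t n : M) : Prop := ∃ f, (∀ i j, j ∈ I → i ∈ j → ap f i ∈ ap f j) ∧
  (∃ z, z ∈ n ∧ ∀ i, i ∈ I → ap f i ∈ z) ∧ ∀ p, p ≤ q → Sub t (ps p) →
    (∀ x, x ∈ n → op (ps p) x ∈ N → ∃ i, i ∈ I ∧ x ∈ ap f i) ∧
      ∀ i, i ∈ I → ∃ r, r ≤ p ∧ op (ps r) (ap f i) ∈ N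

theorem main_comb {E : M → M → M → M → Prop} [D4 E]
    (mono : ∀ j x y p q : M, q ≤ p → E j x y p → E j x y q)
    (dense : ∀ j x p, j ∈ (om : M) → x ∈ Sq (kk : M) → p ∈ (PPs : M) →
      ∃ q, q ≤ p ∧ ∃ y, y ∈ (kk : M) ∧ E j x y q) :
    ∃ q N : M, q ∈ (PPs : M) ∧ (∀ s x, op s x ∈ N → x ∈ (kk : M)) ∧
      (∀ p r x, r ≤ p → op (ps p) x ∈ N → op (ps r) x ∈ N) ∧
      (∀ p j x, p ≤ q → j ∈ (om : M) → x ∈ Sq (kk : M) →
        (∀ i, i ∈ dom x → op (ps p) (ap x i) ∈ N) → ∃ r, r ≤ p ∧ ∃ y, op (ps r) y ∈ N ∧ E j x y r) ∧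
      ∀ p t, p ≤ q → t ∈ Sq (kk : M) → Sub t (ps p) → (sc om ∈ tp t → Cf om q N t (tp t)) ∧
        ∀ e, e ∈ (om : M) → Cf (sc om) q N t (sc (ph e t)) := by
  obtain ⟨F, hF⟩ := ex_stchain mono
  have hS := lim_ok (od_sc om) Sub.rfl fun j hj => ⟨(hF j hj).1, fun k hk => ((hF j hj).2 k hk).1⟩
  obtain ⟨T, eT⟩ : ∃ T, T = bUn (sc om) fun j => pA (ap F j) := ⟨_, rfl⟩
  obtain ⟨D, eD⟩ : ∃ D, D = bUn (sc om) fun j => ps (ap F j) := ⟨_, rfl⟩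
  have mT : ∀ p, p ∈ T ↔ ∃ j, j ∈ sc (om : M) ∧ p ∈ pA (ap F j) := fun p => by rw [eT, mem_bUn]
  have mD : ∀ j p, j ∈ sc (om : M) → p ∈ ps (ap F j) → p ∈ D := fun j p hj g =>
    eD ▸ mem_bUn.2 ⟨j, hj, g⟩
  rw [← eT, ← eD] at hS
  have i0 : emp ∈ sc (om : M) := io_om.sc.2 _ emp_mem_om
  have TT_ : ∀ g y, op g y ∈ T → y ∈ (TM : M) := fun g y h => (op_mem_prd.1 (hS.2.1 _ h)).2
  obtain ⟨G, hG⟩ := ex_chain (sc (bz : M)) (fun _ _ => True) (fun _ g g' : M => g ∈ g' ∧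
      ∀ y : M, op g y ∈ T → Lg fun B : M => ∀ h : M, FH B h → Sub (TT (fst y)) (dom h) →
        Le (sc om) (bz : M) → ev y h ∈ sc (bz : M) → ev y h ∈ g') od_om fun i f hi hf => by
    obtain ⟨g, g1, g2⟩ := io_bz.bdd (S := img i fun j => ap f j)
      ((le_img _ _).trans (le_of_sub ((od_om.1 i hi).trans io_bz.2)))
      fun x hx => let ⟨j, hj, e⟩ := mem_img.1 hx; e ▸ (hf j hj).1
    obtain ⟨g', g3, g4, g5⟩ := lg_al2 (T := lv T g) (fun y hy => TT_ g y (mem_lv.1 hy))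
      (hS.2.2.1 g g1) g1
    exact ⟨g', g3, trivial, fun j hj => have k := g2 _ (mem_img.2 ⟨j, hj, rfl⟩)
      ⟨((od_sc _).el g3).tr g4 k, fun y hy => g5 y (mem_lv.2 (hS.2.2.2 _ g y g1
        (((od_sc _).el g1).1 _ k) hy))⟩⟩
  obtain ⟨U, eU⟩ : ∃ U, U = bUn om fun k => lv T (ap G k) := ⟨_, rfl⟩
  have mU : ∀ y, y ∈ U ↔ ∃ k, k ∈ (om : M) ∧ op (ap G k) y ∈ T := fun y => by
    simp only [eU, mem_bUn, mem_lv]
  have UT : ∀ y, y ∈ U → y ∈ (TM : M) := fun y hy => let ⟨_, _, g⟩ := (mU y).1 hy; TT_ _ y g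
  have hU : Le U (sc om) := eU ▸ io_om.sc.bUn _ io_om.sc.le_om fun k hk => hS.2.2.1 _ (hG k hk).1
  have s1 : Sm (sc (om : M)) := sm_mem (sc_mem_k Ms.om_mem)
  have g1 := lg_all (s1.of_le hU) _ fun y hy => lg_eta (UT y hy)
  have g2 := lg_all (s1.of_le hU) (fun y B => ∀ h, FH B h → Sub (TT (fst y)) (dom h) →
      Le (sc om) (bz : M) → ev y h ∈ sc (bz : M) → ∃ k, k ∈ (om : M) ∧ ev y h ∈ ap G k) fun y hy =>
    let ⟨k, hk, g⟩ := (mU y).1 hy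
    (((hG _ (suc_mem_om hk)).2.2 k (self_mem_suc k)).2 y g).mono fun _ e h k1 k2 k3 k4 =>
      ⟨_, suc_mem_om hk, e h k1 k2 k3 k4⟩
  have g3 := lg_all s1 (fun i B => ∀ y, y ∈ U → (∃ j g, j ∈ i ∧ op g y ∈ pA (ap F j)) →
      Bd (pc (ap F i)) y B) fun i hi => lg_all (s1.of_le hU) _ fun y _ =>
    lg_imp fun ⟨j, g, hj, e⟩ => ((hF i hi).2 j hj).2.2.2 g y e
  have g4 := lg_all (s1.of_le (le_TK io_om.sc hU)) (fun a B => ∃ y, y ∈ U ∧ Dec E D a y B)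
    fun a ha => by
      obtain ⟨j, _, h1, h2, rfl⟩ := mem_prd.1 ha
      obtain ⟨s, m, h3, h4, rfl⟩ := mem_prd.1 h2
      obtain ⟨h5, h6, h7⟩ := mem_Sq.1 h3
      obtain ⟨i, k, hi, hk, e⟩ := om_ind (fun n => Sub n (dom s) → ∃ i k, i ∈ sc (om : M) ∧
          k ∈ (om : M) ∧ ∀ l, l ∈ n → op (ap G k) (ap s l) ∈ pA (ap F i))
        (fun _ => ⟨emp, emp, i0, emp_mem_om, fun l hl => (not_mem_emp l hl).elim⟩)
        (fun n _ ih e => by
          obtain ⟨i, k, hi, hk, e1⟩ := ih ((sub_suc n).trans e)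
          obtain ⟨k', hk', e2⟩ := (mU _).1 (h7 n (e n (self_mem_suc n)))
          obtain ⟨i', hi', e3⟩ := (mT _).1 e2
          have a1 := io_om.suc_mem (un_mem (od_sc _) hi hi')
          have a2 := suc_mem_om (un_mem od_om hk hk')
          have a3 : ∀ i0 k0 y, Sub i0 (un i i') → Sub k0 (un k k') → i0 ∈ sc (om : M) →
              k0 ∈ (om : M) → op (ap G k0) y ∈ pA (ap F i0) →
              op (ap G (suc (un k k'))) y ∈ pA (ap F (suc (un i i'))) := fun i0 k0 y b1 b2 b3 b4 b5 =>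
            (hF _ a1).1.1.2.2.2 _ _ y (hG _ a2).1 (((od_sc _).el (hG _ a2).1).1 _ ((hG _ a2).2.2 k0
              ((od_om.el b4).mem_suc (od_om.el (un_mem od_om hk hk')) b2)).1) (((hF _ a1).2 i0
                (((od_sc _).el b3).mem_suc ((od_sc _).el (un_mem (od_sc _) hi hi')) b1)).2.1 _ b5)
          exact ⟨_, _, a1, a2, fun l hl => (mem_suc.1 hl).elim
            (fun g => a3 i k _ (sub_un_l _ _) (sub_un_l _ _) hi hk (e1 l g))
            fun g => g ▸ a3 i' k' _ (sub_un_r _ _) (sub_un_r _ _) hi' hk' e3⟩) h6 Sub.rfl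
      obtain ⟨y, y1, y2⟩ := ((hF _ (io_om.suc_mem hi)).2 i (self_mem_suc i)).2.2.1 _
        (op j (op s m)) (hG k hk).1 (op_mem_prd.2 ⟨h1, op_mem_prd.2 ⟨mem_Sq.2
          ⟨h5, h6, fun l hl => mem_lv.2 (e l hl)⟩, h4⟩⟩)
      exact y2.mono fun B g => ⟨y, (mU y).2 ⟨k, hk, (mT _).2 ⟨_, io_om.suc_mem hi, y1⟩⟩,
        g.mono fun _ _ => mD _ _ (io_om.suc_mem hi)⟩
  obtain ⟨A, hA, hA'⟩ := g1.and (g2.and (g3.and g4))
  obtain ⟨a1, a2, a3, a4⟩ := hA' A Sub.rfl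
  obtain ⟨q, H, hq, hz⟩ := realize hS.1 hA
  obtain ⟨N, mN⟩ : ∃ N, ∀ s x, op s x ∈ N ↔ (s ∈ Sq (kk : M) ∧ x ∈ (kk : M)) ∧
      ∃ y, y ∈ U ∧ Sub (fst y) (dom s) ∧ ev y (hs H s) = x :=
    ⟨sep (prd (Sq kk) kk) fun p => ∃ y, y ∈ U ∧ Sub (fst y) (dom (fst p)) ∧
      ev y (hs H (fst p)) = snd p, fun s x => by rw [mem_sep, op_mem_prd, fst_op, snd_op]⟩
  have th : ∀ y s, y ∈ U → Sub (fst y) (dom s) → Sub (TT (fst y)) (dom (hs H s)) :=
    fun y s hy e => TT_hs H (prd_eta (UT y hy)).1 e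
  have nm : ∀ p r x, r ≤ p → op (ps p) x ∈ N → op (ps r) x ∈ N := fun p r x h g => by
    obtain ⟨⟨-, g1⟩, y, g2, g3, g4⟩ := (mN _ _).1 g
    exact (mN _ _).2 ⟨⟨(cond_of (le_l h)).1.1, g1⟩, y, g2, g3.trans (dom_mono (le_s h)),
      (ev_congr (isF_hs _ _) (hs_mono H (cond_of (le_l h)).1.isF (cond_of h.2.1).1.od (le_s h))
        (th y _ g2 g3)).symm.trans g4⟩
  have nin : ∀ r y, r ≤ q → y ∈ U → Sub (fst y) (dom (ps r)) →
      op (ps r) (ev y (hs H (ps r))) ∈ N := fun r y hr hy e =>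
    (mN _ _).2 ⟨⟨(cond_of (le_l hr)).1.1, ev_mem (UT y hy) (hz r hr).2.1.1⟩, y, hy, e, rfl⟩
  have mk : ∀ p i k e n l, p ≤ q → i ∈ sc (om : M) → k ∈ (om : M) → e ∈ (om : M) →
      n ∈ (om : M) → l ∈ (om : M) → ∃ r y, r ≤ p ∧ y ∈ U ∧ op (ap G k) y ∈ pA (ap F i) ∧
        Sub (fst y) (dom (ps r)) ∧
        ev y (hs H (ps r)) = bv (pc (ap F i)) (ap G k) e n l (hs H (ps r)) :=
    fun p i k e n l hp hi hk he hn hl => by
      have b1 := (hF i hi).1.2.2.1 _ _ (hG k hk).1 (bt_mem_btS _ (self_mem_suc _) he hn hl)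
      have b2 := (mU _).2 ⟨k, hk, (mT _).2 ⟨i, hi, b1⟩⟩
      obtain ⟨r, hr, b3⟩ := ex_long (le_l hp) (prd_eta (UT _ b2)).1
      exact ⟨r, _, hr, b2, b1, b3, ev_bt (hz r (ftr hr hp)).2.1.1 (hF i hi).1.2.1
        (od_k.tr gd_k.scbz (hG k hk).1) hn hl (th _ _ b2 b3)⟩
  refine ⟨q, N, hq, fun s x h => ((mN s x).1 h).1.2, nm, fun p j x hp hj hx h => ?_,
    fun p0 t hp0 ht e0 => ⟨fun hw => ?_, fun e he => ?_⟩⟩
  · obtain ⟨p1, e1, z, hz1, hz2⟩ := dense j x p hj hx (le_l hp)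
    obtain ⟨r, e2, b, hb, e3, -⟩ := ex_ext (le_l e1) (ae_gt hz1)
    have hr := ftr e2 e1
    have hi := (cond_of (le_l hr)).1
    have hm := (mem_Sq.1 hi.1).2.1
    obtain ⟨f, hf⟩ := chs (dom x) (fun i y => y ∈ U ∧ Sub (fst y) (dom (ps r)) ∧
      ev y (hs H (ps r)) = ap x i) fun i hi => ((mN _ _).1 (nm p r _ hr (h i hi))).2
    obtain ⟨y, hy, y1, y2⟩ := a4 (op j (op (lam (dom x) fun i => ap f i) (dom (ps r))))
      (op_mem_prd.2 ⟨hj, op_mem_prd.2 ⟨lam_mem_Sq (mem_Sq.1 hx).2.1 fun i hi => (hf i hi).1, hm⟩⟩)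
    have d := TT_hs H hm (Sub.rfl (a := dom (ps r)))
    have e4 : xs (op j (op (lam (dom x) fun i => ap f i) (dom (ps r))))
        (res (hs H (ps r)) (TT (dom (ps r)))) = x := by
      rw [xs, pA, snd_op, fst_op, dom_lam, lam_congr (G := fun i => ap x i) fun i hi => by
        rw [ap_lam hi, ev_congr (isF_hs _ _) (res_sub _ _)
          ((dom_res d).symm ▸ TT_mono (hf i hi).2.1), (hf i hi).2.2],
        lam_ap (mem_Sq.1 hx).1 Sub.rfl, res_dom]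
    simp only [RR, pc, snd_op] at y1 y2
    obtain ⟨r', hr', y3⟩ := y2 _ r (hz r (ftr hr hp)).2.1 d (le_l hr)
      ((hz r (ftr hr hp)).2.2 _ hm Sub.rfl) r (frl hr)
    rw [e4, ps, fst_op] at y3
    refine ⟨r', ftr hr' hr, _, nm r r' _ hr' (nin r y (ftr hr hp) hy (y1 ▸ Sub.rfl)),
      y3.resolve_right fun y4 => y4 r' z (frl hr') ?_ (mono _ _ _ _ _ (ftr hr' e2) hz2)⟩
    rw [tt_congr (isF_hs _ _) (res_sub _ _) fun i g => (dom_res d).symm ▸ mem_TT.2 ⟨g, Or.inr rfl⟩,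
      tt_hs H hi.isF Sub.rfl, res_dom, e3, mx_snoc]
    exact sub_un_r _ _ _ hb
  · rcases om_cases' (mem_Sq.1 ht).2.1 with e | ⟨n, hn, e⟩
    · obtain rfl : t = emp := eq_emp fun z hz => not_mem_emp _ (e ▸ mem_dom.2 ⟨z, hz, rfl⟩)
      rw [tp_emp] at hw ⊢
      obtain ⟨z, z1, z2⟩ := io_bz.bdd (S := img om fun j => ap G j)
        ((le_img _ _).trans io_bz.le_om) fun x hx => let ⟨j, hj, e⟩ := mem_img.1 hx
          e ▸ (hG j hj).1
      refine ⟨G, fun i j hj hi => ((hG j hj).2.2 i hi).1, ⟨z, z1, fun i hi =>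
        z2 _ (mem_img.2 ⟨i, hi, rfl⟩)⟩, fun p hp _ => ⟨fun x hx hN => ?_, fun k hk => ?_⟩⟩
      · obtain ⟨-, y, g2, g3, rfl⟩ := (mN _ _).1 hN
        exact a2 y g2 _ (hz p hp).2.1 (th y _ g2 g3) (le_of_mem_sc hw) hx
      · obtain ⟨r, y, b1, b2, -, b3, b4⟩ := mk p emp k emp emp emp hp i0 hk emp_mem_om emp_mem_om
          emp_mem_om
        rw [bv, cnd_pos rfl] at b4
        exact ⟨r, b1, b4 ▸ nin r y (ftr b1 hp) b2 b3⟩
    · have n1 : n ∈ dom t := e ▸ self_mem_suc n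
      have loc : ∀ p k, p ≤ q → Sub t (ps p) → k ∈ suc (om : M) → op n k ∈ dom (hs H (ps p)) ∧
          ap (hs H (ps p)) (op n k) = ap (hs H t) (op n k) := fun p k hp g hk =>
        have k1 : op n k ∈ dom (hs H t) := (dom_hs H t).symm ▸ op_mem_prd.2 ⟨n1, hk⟩
        have k2 := hs_mono H (cond_of (le_l hp)).1.isF (od_dom ht) g
        ⟨dom_mono k2 _ k1, ((isF_hs _ _).ap_sub k2 k1).symm⟩
      have hi := (cond_of (le_l hp0)).1.sub ht e0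
      have et : tp t = ap (hs H t) (op n om) := by
        rw [hs_om H n1, ← (hi.2 n n1).2.1.tp_snoc (res_lt_Sq ht n1) (hi.2 n n1).1,
          ← hi.isF.res_suc n1 (hi.od.1 n n1), ← e, res_dom]
      obtain ⟨z, z1, z2⟩ := (hz p0 hp0).1 n (dom_mono e0 n n1)
      refine ⟨lam om fun k => ap (hs H t) (op n k), fun i j hj g => ?_, ⟨z, ?_, fun i g => ?_⟩,
        fun p hp g => ⟨fun x hx hN => ?_, fun k hk => ?_⟩⟩
      · obtain ⟨k1, k2⟩ := loc p0 i hp0 e0 (sub_suc _ _ (od_om.tr hj g))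
        obtain ⟨k3, k4⟩ := loc p0 j hp0 e0 (sub_suc _ _ hj)
        rw [ap_lam hj, ap_lam (od_om.tr hj g), ← k2, ← k4]
        exact (hz p0 hp0).2.1.1.lt k3 k1 (lt_op.2 (Or.inr ⟨rfl, g⟩))
      · rwa [et, hs_om H n1, (cond_of (le_l hp0)).1.isF.ap_sub e0 n1]
      · rw [ap_lam g, ← (loc p0 i hp0 e0 (sub_suc _ _ g)).2]
        exact z2 i g
      · obtain ⟨-, y, g2, g3, rfl⟩ := (mN _ _).1 hN
        have hm := (prd_eta (UT y g2)).1
        obtain ⟨k1, k2⟩ := loc p om hp g (self_mem_suc _)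
        obtain ⟨k3, k4⟩ := loc p _ hp g (sub_suc _ _ hm)
        refine ⟨_, hm, ?_⟩
        rw [ap_lam hm, ← k4]
        exact a1 y g2 _ n (hz p hp).2.1 (th y _ g2 g3) k1 k3 (k2 ▸ et ▸ hx)
      · obtain ⟨r, y, b1, b2, -, b3, b4⟩ := mk p emp emp _ n k hp i0 emp_mem_om
          (suc_mem_om emp_mem_om) hn hk
        rw [bv, cnd_neg (suc_ne_emp _), cnd_pos rfl,
          (loc r k (ftr b1 hp) (g.trans (le_s b1)) (sub_suc _ _ hk)).2] at b4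
        refine ⟨r, b1, ?_⟩
        rw [ap_lam hk, ← b4]
        exact nin r y (ftr b1 hp) b2 b3
  · obtain ⟨k1, k2, -⟩ := ph_tp e ht
    have hn := (mem_Sq.1 ht).2.1
    have hx := (io_tp ht).mono (od_k.el k1) k2
    have k3 := (sub_un_l _ _).trans k2
    have hlt : ∀ i, i ∈ sc (om : M) → ap (pc (ap F i)) (ph e t) ∈ sc (ph e t) :=
      fun i hi => (hF i hi).1.2.2.2 _ k1 k3
    have loc : ∀ p, p ≤ q → Sub t (ps p) → tt (hs H (ps p)) (dom t) = t := fun p hp g => by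
      rw [tt_hs H (cond_of (le_l hp)).1.isF (dom_mono g), ← (cond_of (le_l hp)).1.isF.eq_res g]
    have bd : ∀ p i j g y, p ≤ q → Sub t (ps p) → j ∈ sc (om : M) → i ∈ j → y ∈ U →
        op g y ∈ pA (ap F i) → Sub (fst y) (dom (ps p)) → ev y (hs H (ps p)) ∈ sc (ph e t) →
        ev y (hs H (ps p)) ∈ ap (pc (ap F j)) (ph e t) := fun p i j g y hp l hj hi hy b1 b2 => by
      have := a3 j hj y hy ⟨i, g, hi, b1⟩ _ (dom t) e (hz p hp).2.1 (th y _ hy b2) hn fun i hi =>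
        (dom_hs H _).symm ▸ op_mem_prd.2 ⟨dom_mono l i hi, self_mem_suc _⟩
      rwa [loc p hp l] at this
    have mk' : ∀ p i, p ≤ q → Sub t (ps p) → i ∈ sc (om : M) → ∃ r y, r ≤ p ∧ y ∈ U ∧
        op (ap G emp) y ∈ pA (ap F i) ∧ Sub (fst y) (dom (ps r)) ∧
        ev y (hs H (ps r)) = ap (pc (ap F i)) (ph e t) := fun p i hp g hi => by
      obtain ⟨r, y, b1, b2, b3, b4, b5⟩ := mk p i emp _ (dom t) e hp hi emp_mem_om
        (suc_mem_om (suc_mem_om emp_mem_om)) hn he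
      rw [bv, cnd_neg (suc_ne_emp _), cnd_neg fun k => suc_ne_emp _ (suc_inj od_emp.suc k),
        loc r (ftr b1 hp) (g.trans (le_s b1))] at b5
      exact ⟨r, y, b1, b2, b3, b4, b5⟩
    obtain ⟨z, z1, z2⟩ := hx.bdd (S := img (sc om) fun i => ap (pc (ap F i)) (ph e t))
      ((le_img _ _).trans (le_of_sub (sub_bz.trans k3)))
      fun x hx => let ⟨j, hj, g⟩ := mem_img.1 hx; g ▸ hlt j hj
    refine ⟨lam (sc om) fun i => ap (pc (ap F i)) (ph e t), fun i j hj g => ?_,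
      ⟨z, z1, fun i g => by rw [ap_lam g]; exact z2 _ (mem_img.2 ⟨i, g, rfl⟩)⟩,
      fun p hp g => ⟨fun x hx hN => ?_, fun i hi => ?_⟩⟩
    · have hi := (od_sc _).tr hj g
      obtain ⟨r, y, b1, b2, b3, b4, b5⟩ := mk' p0 i hp0 e0 hi
      rw [ap_lam hj, ap_lam hi, ← b5]
      exact bd r i j _ y (ftr b1 hp0) (e0.trans (le_s b1)) hj g b2 b3 b4 (b5 ▸ hlt i hi)
    · obtain ⟨-, y, g2, g3, rfl⟩ := (mN _ _).1 hN
      obtain ⟨k, -, g4⟩ := (mU y).1 g2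
      obtain ⟨j, hj, g5⟩ := (mT _).1 g4
      refine ⟨_, io_om.suc_mem hj, ?_⟩
      rw [ap_lam (io_om.suc_mem hj)]
      exact bd p j _ _ y hp g (io_om.suc_mem hj) (self_mem_suc j) g2 g5 g3 hx
    · obtain ⟨r, y, b1, b2, -, b4, b5⟩ := mk' p i hp g hi
      refine ⟨r, b1, ?_⟩
      rw [ap_lam hi, ← b5]
      exact nin r y (ftr b1 hp) b2 b4

end Pool.Agent.P.MP_5f3b23_lc.Zf.G.Pool.Agent.P.MP_5f3b23_lc.Zf
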