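import Pool.Agent.P.MP_2e9c36_lc.GMain

set_option autoImplicit false

/-! The statement of `SparsePatterns` contains the case `E = {n ≡ 2 mod 3}`. -/

open Pool.Agent.Lib.PosetForcing

namespace Pool.Agent.P.MP_5f3b23_lc.Zf.G.Pool.Agent.P.MP_5f3b23_lc.Zf
open _root_.Pool.Agent.P.MP_5f3b23_lc.Zf.G

universe v

theorem sparse_mod3 {M : Type v} [Zm M] {w w1 a l E : M} (h : Obj mm w w1 a l E) :
    MP_2e9c36_lc.Sparse mm E w := by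
  obtain ⟨rfl, -, -, -, -, -, h4, h5, h6, h7⟩ := h.spec
  have k : ∀ n, n ∈ (om : M) → (n ∉ E ∧ suc n ∉ E ∧ suc (suc n) ∈ E) ∨
      (n ∉ E ∧ suc n ∈ E ∧ suc (suc n) ∉ E) ∨ (n ∈ E ∧ suc n ∉ E ∧ suc (suc n) ∉ E) := fun n hn =>
    om_ind (fun n => (n ∉ E ∧ suc n ∉ E ∧ suc (suc n) ∈ E) ∨
      (n ∉ E ∧ suc n ∈ E ∧ suc (suc n) ∉ E) ∨ (n ∈ E ∧ suc n ∉ E ∧ suc (suc n) ∉ E))
      (Or.inl ⟨h4, h5, h6⟩) (fun n hn ih => by rw [h7 n hn]; tauto) hn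
  refine ⟨h.2.2.2.2.1, fun n hn => ?_, fun n n' e g g' => ?_⟩
  · rcases k n hn with g | g | g
    · exact ⟨_, g.2.2, sub_suc _ _ (self_mem_suc n)⟩
    · exact ⟨_, g.2.1, self_mem_suc n⟩
    · exact ⟨_, (h7 n hn).2 g.1, sub_suc _ _ (sub_suc _ _ (self_mem_suc n))⟩
  · obtain rfl := isSucc_iff.1 e
    have := k n (h.2.2.2.2.1 n g)
    have g1 : n ∈ E := g
    have g2 : suc n ∈ E := g'
    tauto

theorem contains_mod3 (H : ∀ (M : Type v) (mem : M → M → Prop), IsZFC mem →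
      (∃ k, MP_2e9c36_lc.IsMeasurable mem k) →
      ∀ w E : M, IsOmega mem w → MP_2e9c36_lc.Sparse mem E w →
        ∃ (S : Set M) (N : Type v) (mem' : N → N → Prop) (j : M → N),
          w ∈ S ∧ E ∈ S ∧ MP_2e9c36_lc.IsElem mem S ∧ IsZFC mem' ∧
          MP_2e9c36_lc.IsEndExt mem S mem' j ∧
          ∃ w1 a lam : N, IsOmega mem' (j w) ∧ MP_2e9c36_lc.IsSuccCard mem' w1 (j w) ∧
            MP_2e9c36_lc.IsAleph mem' a (j w) ∧ MP_2e9c36_lc.IsSupRange mem' lam a ∧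
            MP_2e9c36_lc.MutStat mem' (j w) w1 a lam (j E))
    (M : Type v) (mem : M → M → Prop) (h : IsZFC mem)
    (hk : ∃ k, MP_2e9c36_lc.IsMeasurable mem k) : ∃ (N : Type v) (mem' : N → N → Prop),
      IsZFC mem' ∧ ∃ w w1 a lam E : N, IsOmega mem' w ∧ MP_2e9c36_lc.IsSuccCard mem' w1 w ∧
        MP_2e9c36_lc.IsAleph mem' a w ∧ MP_2e9c36_lc.IsSupRange mem' lam a ∧
        MP_2e9c36_lc.IsTwoMod3 mem' E w ∧ MP_2e9c36_lc.MutStat mem' w w1 a lam E := by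
  let _ : Zm M := { mem := fun a x => mem x a, zfc := h }
  obtain ⟨w, w1, a, l, E, g⟩ := ex_obj (M := M)
  obtain ⟨S, N, mem', j, s1, s2, s3, s4, ⟨s5, s6⟩, v1, a', l', t1, t2, t3, t4, t5⟩ :=
    H M mem h hk w E g.1 (sparse_mod3 g)
  let _ : Zm N := { mem := fun a x => mem' x a, zfc := s4 }
  obtain ⟨rfl, -, -, -, -, -, h4, h5, h6, h7⟩ := g.spec
  have e : j om = om := isOmega_iff.1 t1
  have a0 : ∀ x, x ∈ S → suc x ∈ S ∧ j (suc x) = suc (j x) := fun x hx => by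
    obtain ⟨y, hy⟩ := (elem_iff s3 (fun _ mem v => ∃ y, IsSucc mem y (v 0)) fun _ => ⟨x, hx⟩).2
      ⟨suc x, isSucc_iff.2 rfl⟩
    have e1 : (y : M) = suc x := isSucc_iff.1 ((elem_iff s3
      (fun _ mem v => IsSucc mem (v 0) (v 1)) (cons y fun _ => ⟨x, hx⟩)).1 hy)
    have k : suc x ∈ S := e1 ▸ y.2
    refine ⟨k, ext fun z => ⟨fun hz => ?_, fun hz => ?_⟩⟩
    · obtain ⟨u, hu, rfl⟩ := s6 _ k z hz
      have c : u ∈ x ∨ u = x := mem_suc.1 ((s5 u hu _ k).1 hz)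
      exact mem_suc.2 (c.imp (fun c => (s5 u hu x hx).2 c) (congrArg j))
    · rcases mem_suc.1 hz with hz | rfl
      · obtain ⟨u, hu, rfl⟩ := s6 _ hx z hz
        exact (s5 u hu _ k).2 (sub_suc x u ((s5 u hu x hx).1 hz))
      · exact (s5 x hx _ k).2 (self_mem_suc x)
  have a1 : ∀ z : N, z ∈ (om : N) → ∃ x ∈ S, x ∈ (om : M) ∧ z = j x := fun z hz =>
    let ⟨x, hx, e1⟩ := s6 _ s1 z (e ▸ hz)
    ⟨x, hx, (s5 x hx _ s1).1 (e1 ▸ e ▸ hz), e1⟩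
  refine ⟨N, mem', s4, _, v1, a', l', j E, t1, t2, t3, t4, ⟨fun z hz => ?_,
    fun x0 x1 x2 k0 k1 k2 => ?_, fun x0 x1 x2 x3 k0 k1 k2 k3 => ?_⟩, t5⟩
  · obtain ⟨x, hx, rfl⟩ := s6 _ s2 z hz
    exact (s5 x hx _ s1).2 (g.2.2.2.2.1 x ((s5 x hx _ s2).1 hz))
  · obtain rfl : x0 = emp := eq_emp k0
    obtain rfl := isSucc_iff.1 k1
    obtain rfl := isSucc_iff.1 k2
    obtain ⟨x, hx, c1, c2⟩ := a1 emp emp_mem_om
    obtain rfl : x = emp := by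
      rcases om_cases' c1 with c | ⟨n, -, rfl⟩
      · exact c
      · obtain ⟨y, hy⟩ := (elem_iff s3 (fun _ mem v => ∃ y, mem y (v 0)) fun _ => ⟨_, hx⟩).2
          ⟨n, self_mem_suc n⟩
        exact (not_mem_emp (j y) (c2 ▸ (s5 y y.2 _ hx).2 hy : mem' (j y) emp)).elim
    obtain ⟨b1, b2⟩ := a0 _ hx
    obtain ⟨b3, b4⟩ := a0 _ b1
    rw [c2, ← b2, ← b4, s5 _ hx _ s2, s5 _ b1 _ s2, s5 _ b3 _ s2]
    exact ⟨h4, h5, h6⟩
  · obtain rfl := isSucc_iff.1 k1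
    obtain rfl := isSucc_iff.1 k2
    obtain rfl := isSucc_iff.1 k3
    obtain ⟨x, hx, c1, rfl⟩ := a1 x0 (e ▸ k0)
    obtain ⟨b1, b2⟩ := a0 _ hx
    obtain ⟨b3, b4⟩ := a0 _ b1
    obtain ⟨b5, b6⟩ := a0 _ b3
    rw [← b2, ← b4, ← b6, s5 _ hx _ s2, s5 _ b5 _ s2]
    exact h7 x c1

end Pool.Agent.P.MP_5f3b23_lc.Zf.G.Pool.Agent.P.MP_5f3b23_lc.Zf
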