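import Pool.Agent.P.MP_2e9c36_lc.GPP

set_option autoImplicit false

/-! The Prikry property, deciding many values modulo the lower part, cardinal preservation. -/

open Pool.Agent.Lib.PosetForcing

namespace Pool.Agent.P.MP_5f3b23_lc.Zf.G.Pool.Agent.P.MP_5f3b23_lc.Zf
open _root_.Pool.Agent.P.MP_5f3b23_lc.Zf.G

universe v

variable {M : Type v} [Zm M] [NG M]

theorem decide_le {p g : M} (hp : p ∈ (PPs : M)) (hg : g ∈ Vv (kk : M)) (R : M → M → Prop) [D2 R]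
    (hR : ∀ q, q ≤ p → ∃ r, r ≤ q ∧ ∃ y, y ∈ g ∧ Dn (R y) r) :
    ∃ q, q ≤ p ∧ ps q = ps p ∧ ∃ y, y ∈ g ∧ Dn (R y) q := by
  obtain ⟨G, hG⟩ : ∃ G : M → Prop, G = fun t => ∃ q, q ≤ p ∧ ps q = t ∧ ∃ y, y ∈ g ∧
    Dn (fun r => R y r) q := ⟨_, rfl⟩
  have hD : D1 G := ⟨by rw [hG]; infer_instance⟩
  have step : ∀ t, Up (ps p) (pA p) t → (Ae fun b => G (snoc t b)) → G t := fun t ht h => by
    obtain ⟨y, -, hy⟩ := press_ex (fun y b => y ∈ g ∧ ∃ q, q ≤ p ∧ ps q = snoc t b ∧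
      Dn (fun r => R y r) q) ((h.and (ae_V hg)).mono fun b hb ⟨g1, g2⟩ => by
        rw [hG] at g1
        obtain ⟨q, k1, k2, y, k3, k4⟩ := g1
        exact ⟨y, Vv_tr (od_k.el hb) _ g2 y k3, k3, q, k1, k2, k4⟩)
    obtain ⟨r, k1, k2, k3⟩ := amalgamate hp ht (fun r => R y r) (hy.mono fun _ _ e => e.2)
    obtain ⟨_, -, k4, -⟩ := hy.ex
    rw [hG]
    exact ⟨r, k1, k2, y, k4, k3⟩
  obtain ⟨p', h1, h2, -, h3⟩ := ex_strong hp (cond_of hp).2.2.1 (cond_of hp).2.2.2.2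
    (diag (fun t b => Up (ps p) (pA p) t → ¬ G t → ¬ G (snoc t b)) fun t _ =>
      ae_imp fun ht => ae_imp fun g => ae_not fun k => g (step t ht k)) fun _ _ _ g => g
  obtain ⟨r, hr, h4⟩ := hR p' h1
  have u := le_up hr
  have k := down_ind (fun k => Sub (dom (ps p)) k → G (res (ps r) k)) (mem_Sq.1 u.2.1.1).2.1
    (fun _ => by rw [res_dom, hG]; exact ⟨r, ftr hr h1, rfl, h4⟩) (fun k hk ih e => by
      by_contra hn
      refine h3 _ (u.2.2 k hk fun g => not_mem_self k (e k (h2 ▸ g))) _ (u.2.1.2 k hk).1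
        ((le_up (ftr hr h1)).res (res_lt_Sq u.2.1.1 hk) (res_sub _ _) ?_) hn
        (u.2.1.isF.res_suc hk (u.2.1.od.1 k hk) ▸ ih (e.trans (sub_suc k)))
      rw [u.2.1.isF.eq_res (le_s (ftr hr h1))]
      exact res_mono Sub.rfl e)
    ((cond_of hp).1.od.mem_suc u.2.1.od (dom_mono (le_s (ftr hr h1)))) Sub.rfl
  rw [← u.2.1.isF.eq_res (le_s (ftr hr h1)), hG] at k
  exact k

theorem In.cmp {q u t : M} (hq : q ∈ (PPs : M)) (h : In q u) (ht : t ∈ Sq (kk : M))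
    (e : Sub t (ps q)) : Sub t u ∨ (dom u ∈ dom t ∧ u = res t (dom u)) := by
  refine h.elim (fun h => ?_) fun h => Or.inl (e.trans h.1)
  refine (seq_total (cond_of hq).1.isF ht h.1 e h.2).imp_right fun g => ⟨g, ?_⟩
  exact (mem_Sq.1 ht).1.eq_res (seq_sub (cond_of hq).1.isF h.2 e ((od_dom ht).1 _ g))

theorem le_of_low {r q t : M} (hr : r ∈ (PPs : M)) (hq : q ∈ (PPs : M))
    (h1 : Up (ps q) (pA q) (ps r)) (h2 : Sub (pA r) (pA q)) (ht : t ∈ Sq (kk : M))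
    (e : Sub t (ps r)) (h3 : Sub (low t (pc q)) (low t (pc r)))
    (h4 : ∀ u x, In r u → Sub t u → op u x ∈ pc q → op u x ∈ pc r) : r ≤ q :=
  le_of hr hq h1 h2 fun u x hu g => (hu.cmp hr ht e).elim (fun k => h4 u x hu k g) fun k =>
    k.2 ▸ ((mem_low (cond_of hr).2.2.1).1 (h3 _ ((mem_low (cond_of hq).2.2.1).2
      ⟨k.1, k.2 ▸ g⟩))).2

theorem ex_splice {t r D : M} (ht : t ∈ Sq (kk : M)) (hr : LowOK t r) (hD : Col0 D) :
    ∃ c, Col0 c ∧ low t c = r ∧ ∀ u x, Sub t u → (op u x ∈ c ↔ op u x ∈ D) := by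
  obtain ⟨c, hc, e⟩ := col0_sep (fun u x => (dom u ∈ dom t ∧ u = res t (dom u) ∧
      op (dom u) x ∈ r) ∨ (Sub t u ∧ op u x ∈ D)) fun u hu => by
    by_cases g : Sub t u
    · exact ⟨_, hD.2 u hu, fun x hx => mem_lv.2 (hx.resolve_left fun k =>
        not_mem_self _ (dom_mono g _ k.1)).2⟩
    · by_cases g' : dom u ∈ dom t ∧ u = res t (dom u)
      · exact ⟨_, g'.2 ▸ (hr.2 _ g'.1).1, fun x hx => mem_lv.2
          (g'.2 ▸ (hx.resolve_right fun k => g k.1).2.2)⟩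
      · exact ⟨_, isCol_emp _, fun x hx => (g' ⟨(hx.resolve_right fun k => g k.1).1,
          (hx.resolve_right fun k => g k.1).2.1⟩).elim⟩
  refine ⟨c, hc, ext fun z => ⟨fun hz => ?_, fun hz => ?_⟩, fun u x g => (e u x).trans
    ⟨fun k => (k.2.resolve_left fun k => not_mem_self _ (dom_mono g _ k.1)).2,
      fun k => ⟨(op_mem_prd.1 (hD.1 _ k)).1, Or.inr ⟨g, k⟩⟩⟩⟩
  · obtain ⟨i, x, -, -, rfl⟩ := mem_prd.1 (mem_sep.1 hz).1
    obtain ⟨g1, g2⟩ := (mem_low hc).1 hz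
    have := (((e _ _).1 g2).2.resolve_right fun k =>
      not_mem_self i (mem_dom_res.1 (dom_mono k.1 _ g1)).2).2.2
    rwa [dom_res_lt ht g1] at this
  · obtain ⟨i, x, rfl, hi⟩ := hr.1 z hz
    refine (mem_low hc).2 ⟨hi, (e _ _).2 ⟨res_lt_Sq ht hi, Or.inl ?_⟩⟩
    rw [dom_res_lt ht hi]
    exact ⟨hi, rfl, hz⟩

/-- the part of `c` above `t` lies below the next point of `s` -/
def BlA (s t c : M) : Prop := ∀ i, i ∈ dom s → i ∉ dom t → Below (lv c (res s i)) (ap s i)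

theorem bl_of {s t c D : M} (hs : Inc s) (ht : t ∈ Sq (kk : M)) (e : Sub t s) (hc : Col0 c)
    (h1 : LowOK t (low t c)) (h2 : BlA s t D) (h3 : ∀ u x, Sub t u → op u x ∈ c → op u x ∈ D) :
    Bl s c := fun i hi x hx => by
  by_cases g : i ∈ dom t
  · rw [← hs.isF.ap_sub e g]
    refine (h1.2 i g).2 x (mem_lv.2 ((mem_low hc).2 ⟨g, ?_⟩))
    rw [hs.isF.res_sub_eq e ((od_dom ht).1 i g)]
    exact mem_lv.1 hx
  · refine h2 i hi g x (mem_lv.2 (h3 _ x ?_ (mem_lv.1 hx)))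
    rw [hs.isF.eq_res e]
    exact res_mono Sub.rfl ((od_dom ht).sub_of_not_mem (hs.od.el hi) g)

/-- `R` is dense below every condition extending the data -/
def FA (s t r D A : M) (R : M → Prop) : Prop :=
  ∀ q, q ∈ (PPs : M) → Up s A (ps q) → Sub (pA q) A → Sub r (low t (pc q)) →
    (∀ u x, In q u → Sub t u → op u x ∈ D → op u x ∈ pc q) → Dn R q

instance df_fa (R : M → (ℕ → M) → Prop) (a b c d e : (ℕ → M) → M) [Tm a] [Tm b] [Tm c] [Tm d]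
    [Tm e] [h : Df fun v => R (v 0) fun i => v (i + 1)] :
    Df fun v => FA (a v) (b v) (c v) (d v) (e v) fun r => R r v := by
  have h1 : Df fun v : ℕ → M => R (v 0) fun i => v (i + 1 + 1) :=
    ⟨h.out.ren fun i => Nat.casesOn i 0 fun j => j + 2⟩
  unfold FA; infer_instance

theorem Up.mono {s t A B : M} (h : Up s A t) (e : Sub A B) : Up s B t :=
  ⟨h.1, h.2.1, fun i hi g => e _ (h.2.2 i hi g)⟩

theorem FA.mono {s t r r' D D' A A' : M} {R : M → Prop} (h : FA s t r D A R) (e1 : Sub r r')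
    (e2 : ∀ u x, Sub t u → op u x ∈ D → op u x ∈ D') (e3 : Sub A' A) : FA s t r' D' A' R :=
  fun q h1 h2 h3 h4 h5 => h q h1 (h2.mono e3) (h3.trans e3) (e1.trans h4)
    fun u x hu g k => h5 u x hu g (e2 u x g k)

theorem decide_base {s t r D g : M} (hs : Inc s) (ht : t ∈ Sq (kk : M)) (e : Sub t s)
    (hr : LowOK t r) (hD : Col0 D) (hB : BlA s t D) (hg : g ∈ Vv (kk : M)) (R : M → M → Prop)
    [D2 R] (hR : ∀ q, q ∈ (PPs : M) → ∃ r, r ≤ q ∧ ∃ y, y ∈ g ∧ Dn (R y) r) :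
    ∃ r' D', LowOK t r' ∧ Sub r r' ∧ Col0 D' ∧ Sub D D' ∧ BlA s t D' ∧
      (∀ u x, op u x ∈ D' → Sub t u ∨ op u x ∈ D) ∧
      ∃ y A, y ∈ g ∧ A ∈ (UU : M) ∧ FA s t r' D' A (R y) := by
  obtain ⟨c, c1, c2, c3⟩ := ex_splice ht hr hD
  obtain ⟨p, p1, p2, -, p3⟩ := ex_cond hs (ae_of_all fun _ _ => trivial) c1
    (bl_of hs ht e c1 (c2 ▸ hr) hB fun u x g => (c3 u x g).1)
  obtain ⟨q, q1, q2, y, q3, q4⟩ := decide_le p1 hg R fun q hq => hR q (le_l hq)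
  have hq := cond_of (le_l q1)
  rw [p2] at q2
  have k1 : ∀ u x, In q u → Sub t u → op u x ∈ D → op u x ∈ pc q := fun u x hu g k =>
    le_c q1 hu (p3 ▸ (c3 u x g).2 k)
  obtain ⟨D', d1, d2⟩ := col0_sep (fun u x => op u x ∈ D ∨ (In q u ∧ Sub t u ∧ op u x ∈ pc q))
    fun u hu => by
      by_cases g : In q u ∧ Sub t u
      · exact ⟨_, hq.2.2.1.2 u hu, fun x hx => mem_lv.2 (hx.elim (k1 u x g.1 g.2) fun k => k.2.2)⟩
      · exact ⟨_, hD.2 u hu, fun x hx => mem_lv.2 (hx.resolve_right fun k => g ⟨k.1, k.2.1⟩)⟩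
  refine ⟨low t (pc q), D', lowOK_low ht hq.2.2.1 (hq.2.2.2.2.sub hq.1.isF ht (q2 ▸ e)),
    fun z hz => ?_, d1, fun z hz => ?_, fun i hi g x hx => ?_,
    fun u x h => ((d2 u x).1 h).2.symm.imp_left fun k => k.2.1, y, pA q, q3, hq.2.1,
    fun w w1 w2 w3 w4 w5 => q4.mono (le_of_low w1 (le_l q1) (q2 ▸ w2) w3 ht (e.trans w2.1) w4
      fun u x hu g k => w5 u x hu g ((d2 u x).2 ⟨hu.sq, Or.inr
        ⟨hu.transfer hq.1.1 (q2 ▸ w2) w3, g, k⟩⟩))⟩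
  · obtain ⟨i, x, rfl, hi⟩ := hr.1 z hz
    exact (mem_low hq.2.2.1).2 ⟨hi, le_c q1 (Or.inl ⟨res_lt_Sq ht hi,
      q2 ▸ (res_sub _ _).trans e⟩) (p3 ▸ ((mem_low c1).1 (c2 ▸ hz)).2)⟩
  · obtain ⟨u, x, hu, -, rfl⟩ := mem_prd.1 (hD.1 z hz)
    exact (d2 u x).2 ⟨hu, Or.inl hz⟩
  · exact ((d2 _ x).1 (mem_lv.1 hx)).2.elim (fun k => hB i hi g x (mem_lv.2 k)) fun k =>
      (q2 ▸ hq.2.2.2.2 : Bl s (pc q)) i hi x (mem_lv.2 k.2.2)

theorem cover {p t I L g : M} (hp : p ∈ (PPs : M)) (ht : t ∈ Sq (kk : M)) (e : Sub t (ps p))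
    (hI : Le I (nu t)) (hL : Le L (nu t)) (hL' : ∀ r, LowOK t r → r ∈ L) (hg : g ∈ Vv (kk : M))
    (R : M → M → M → Prop) [D3 R]
    (hR : ∀ i q, i ∈ I → q ∈ (PPs : M) → ∃ r, r ≤ q ∧ ∃ y, y ∈ g ∧ Dn (R i y) r) :
    ∃ q, q ≤ p ∧ ps q = ps p ∧ ∀ i r0, i ∈ I → LowOK t r0 → ∃ r, LowOK t r ∧ Sub r0 r ∧
      ∃ y, ∀ w, w ≤ q → Sub r (low t (pc w)) → Dn (R i y) w := by
  have hX := (io_nu ht).prd hI hL
  have hs := (cond_of hp).1
  have asg : ∀ D, Asg (Sq kk) nu (fun u x => ∀ i, i ∈ dom (ps p) → u = res (ps p) i →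
      fst x ∈ ap (ps p) i) D ↔ Col0 D ∧ Bl (ps p) D := fun D =>
    ⟨fun h => ⟨⟨h.1, fun u hu => (h.2 u hu).1⟩, fun i hi x hx =>
      (h.2 _ (res_lt_Sq hs.1 hi)).2 x (mem_lv.1 hx) i hi rfl⟩, fun h => ⟨h.1.1, fun u hu =>
        ⟨h.1.2 u hu, fun x hx i hi e => h.2 i hi x (mem_lv.2 (e ▸ hx))⟩⟩⟩
  obtain ⟨D, h1, h2, h3⟩ := meet_small (Sq kk) nu (fun _ => io_nu) _ (io_nu ht).1 hX
    (fun u => Sub t u) (fun u hu g => nu_mono ht hu g)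
    (fun a D => LowOK t (snd a) → ∃ r, LowOK t r ∧ Sub (snd a) r ∧ ∃ y A, A ∈ (UU : M) ∧
      FA (ps p) t r D A fun w => R (fst a) y w)
    (fun a D D' _ g h k => let ⟨r, g1, g2, y, A, g3, g4⟩ := h k
      ⟨r, g1, g2, y, A, g3, g4.mono Sub.rfl g Sub.rfl⟩) (fun a D ha hD => by
      by_cases k : LowOK t (snd a)
      · obtain ⟨k1, k2⟩ := (asg D).1 hD
        obtain ⟨r, D', g1, g2, g3, g4, g5, g6, y, A, -, g7, g8⟩ := decide_base hs ht e k k1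
          (fun i hi _ => k2 i hi) hg (fun y w => R (fst a) y w) fun q => hR _ q (prd_eta ha).1
        refine ⟨D', (asg D').2 ⟨g3, fun i hi x hx => ?_⟩, g4, fun _ => ⟨r, g1, g2, y, A, g7, g8⟩⟩
        by_cases g : i ∈ dom t
        · exact k2 i hi x (mem_lv.2 ((g6 _ _ (mem_lv.1 hx)).resolve_left fun g' =>
            not_mem_self i (mem_dom_res.1 (dom_mono g' _ g)).2))
        · exact g5 i hi g x hx
      · exact ⟨D, hD, Sub.rfl, fun g => absurd g k⟩)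
    ((asg _).2 ⟨(cond_of hp).2.2.1, (cond_of hp).2.2.2.2⟩)
  obtain ⟨f, hf⟩ := chs' (prd I L) (fun a => LowOK t (snd a)) (fun a A => A ∈ (UU : M) ∧
      ∃ r, LowOK t r ∧ Sub (snd a) r ∧ ∃ y, FA (ps p) t r D A fun w => R (fst a) y w)
    fun a ha k => let ⟨r, g1, g2, y, A, g3, g4⟩ := h3 a ha k; ⟨A, g3, r, g1, g2, y, g4⟩
  obtain ⟨q, q1, q2, q3, q4⟩ := ex_strong hp ((asg D).1 h1).1 ((asg D).1 h1).2
    (ae_all ⟨_, nu_mem_k ht, hX⟩ (fun a b => LowOK t (snd a) → b ∈ ap f a) fun a ha =>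
      ae_imp fun k => ae_mem (hf a ha k).1) fun _ _ _ g => h2 _ g
  refine ⟨q, q1, q2, fun i r0 hi h0 => ?_⟩
  have ha : op i r0 ∈ prd I L := op_mem_prd.2 ⟨hi, hL' r0 h0⟩
  have k : LowOK t (snd (op i r0)) := by rwa [snd_op]
  obtain ⟨-, r, g1, g2, y, g3⟩ := hf _ ha k
  rw [fst_op, snd_op] at *
  have k' : Sub (pA q) (ap f (op i r0)) := fun b hb => q4 b hb _ ha (by rwa [snd_op])
  exact ⟨r, g1, g2, y, fun w hw g => g3 w (le_l hw) (q2 ▸ (le_up hw).mono k')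
    ((le_A hw).trans k') g fun u x hu _ g' => le_c hw hu (q3 ▸ g')⟩

theorem low_ok {p t : M} (hp : p ∈ (PPs : M)) (ht : t ∈ Sq (kk : M)) (e : Sub t (ps p)) :
    LowOK t (low t (pc p)) :=
  lowOK_low ht (cond_of hp).2.2.1 ((cond_of hp).2.2.2.2.sub (cond_of hp).1.isF ht e)

theorem low_mono {p q t : M} (h : q ≤ p) (ht : t ∈ Sq (kk : M)) (e : Sub t (ps q)) :
    Sub (low t (pc p)) (low t (pc q)) := fun z hz => by
  obtain ⟨i, x, -, -, rfl⟩ := mem_prd.1 (mem_sep.1 hz).1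
  obtain ⟨g1, g2⟩ := (mem_low (cond_of h.2.1).2.2.1).1 hz
  exact (mem_low (cond_of (le_l h)).2.2.1).2
    ⟨g1, le_c h (Or.inl ⟨res_lt_Sq ht g1, (res_sub _ _).trans e⟩) g2⟩

theorem ex_low {p t r : M} (hp : p ∈ (PPs : M)) (ht : t ∈ Sq (kk : M)) (e : Sub t (ps p))
    (hr : LowOK t r) (h : Sub (low t (pc p)) r) : ∃ q, q ≤ p ∧ ps q = ps p ∧ low t (pc q) = r := by
  obtain ⟨c, c1, c2, c3⟩ := ex_splice ht hr (cond_of hp).2.2.1
  obtain ⟨q, q1, q2, q3, -⟩ := ex_strong hp c1 (bl_of (cond_of hp).1 ht e c1 (c2 ▸ hr)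
    (fun i hi _ => (cond_of hp).2.2.2.2 i hi) fun u x g => (c3 u x g).1)
    (ae_of_all fun _ _ => trivial) fun u x hu g => (hu.cmp hp ht e).elim (fun k => (c3 u x k).2 g)
      fun k => k.2 ▸ ((mem_low c1).1 (c2 ▸ h _ ((mem_low (cond_of hp).2.2.1).2
        ⟨k.1, k.2 ▸ g⟩))).2
  exact ⟨q, q1, q2, q3 ▸ c2⟩

/-- no generic injection of `l` into `a` -/
theorem no_inj {p t l a L : M} (hp : p ∈ (PPs : M)) (ht : t ∈ Sq (kk : M)) (e : Sub t (ps p))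
    (ha : Le a (nu t)) (hL : Le L (nu t)) (hL' : ∀ r, LowOK t r → r ∈ L) (hl : l ∈ (kk : M))
    (pig : Pigeon t l a) (E : M → M → M → Prop) [D3 E]
    (mono : ∀ y i q r, r ≤ q → E y i q → E y i r)
    (tot : ∀ y q, y ∈ l → q ≤ p → ∃ r, r ≤ q ∧ ∃ i, i ∈ a ∧ E y i r)
    (inj : ∀ y y' i q, q ≤ p → E y i q → E y' i q → y = y') : False := by
  obtain ⟨q, hq, e', h⟩ := cover hp ht e ha hL hL' (gd_k.V (suc_mem_k hl))
    (fun i y r => (y ∈ l ∧ E y i r) ∨ (y = l ∧ ∀ r', r' ≤ r → ∀ y', y' ∈ l → ¬ E y' i r'))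
    fun i q _ hq => by
      by_cases h : ∃ r, r ≤ q ∧ ∃ y, y ∈ l ∧ E y i r
      · obtain ⟨r, hr, y, hy, h⟩ := h
        exact ⟨r, hr, y, sub_suc _ _ hy, fun r' hr' =>
          ⟨r', frl hr', Or.inl ⟨hy, mono _ _ _ _ hr' h⟩⟩⟩
      · exact ⟨q, prefl hq, l, self_mem_suc _, fun r hr => ⟨r, frl hr, Or.inr ⟨rfl,
          fun r' hr' y hy h' => h ⟨r', ftr hr' hr, y, hy, h'⟩⟩⟩⟩
  have htq : Sub t (ps q) := e' ▸ e
  obtain ⟨f, hf⟩ := chs l (fun y z => LowOK t (fst z) ∧ snd z ∈ a ∧ Sub (low t (pc q)) (fst z) ∧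
      ∀ r, r ≤ q → Sub (fst z) (low t (pc r)) → Dn (fun w => E y (snd z) w) r) fun y hy => by
    obtain ⟨r, hr, i, hi, g⟩ := tot y q hy hq
    have htr := htq.trans (le_s hr)
    obtain ⟨ρ, g1, g2, z, g3⟩ := h i _ hi (low_ok (le_l hr) ht htr)
    obtain ⟨r1, k1, -, k2⟩ := ex_low (le_l hr) ht htr g1 g2
    obtain ⟨r2, k3, k4⟩ := g3 r1 (ftr k1 hr) (k2 ▸ Sub.rfl) r1 (frl k1)
    have k5 := mono _ _ _ _ (ftr k3 k1) g
    obtain rfl : z = y := by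
      rcases k4 with k4 | k4
      · exact inj _ _ _ r2 (ftr k3 (ftr k1 (ftr hr hq))) k4.2 k5
      · exact absurd k5 (k4.2 r2 (frl k3) y hy)
    refine ⟨op ρ i, ?_⟩
    rw [fst_op, snd_op]
    exact ⟨g1, hi, (low_mono hr ht htr).trans g2, fun r' hr' e' => (g3 r' hr' e').imp
      fun x _ k => (k.resolve_right fun k => not_mem_self l (k.1 ▸ hy)).2⟩
  obtain ⟨y, y', hy, hy', hne, ei, s1⟩ := pig f fun y hy => ⟨(hf y hy).1, (hf y hy).2.1⟩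
  obtain ⟨r, r1, r2, r3⟩ := ex_low (le_l hq) ht htq s1 ((hf y hy).2.2.1.trans (sub_un_l _ _))
  obtain ⟨b, a1, a2⟩ := (hf y hy).2.2.2 r r1 (r3 ▸ sub_un_l _ _) r (frl r1)
  obtain ⟨c, b1, b2⟩ := (hf y' hy').2.2.2 r r1 (r3 ▸ sub_un_r _ _) b a1
  exact hne (inj _ _ _ c (ftr b1 (ftr a1 (ftr r1 hq))) (ei ▸ mono _ _ _ _ b1 a2) b2)

end Pool.Agent.P.MP_5f3b23_lc.Zf.G.Pool.Agent.P.MP_5f3b23_lc.Zf
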