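import Pool.Agent.P.MP_2e9c36_lc.YDefs

set_option autoImplicit false

/-! Sparse sets of natural numbers, elementary submodels and end extensions. -/

open Pool.Agent.Lib.PosetForcing

namespace Pool.Agent.P.MP_2e9c36_lc

universe v

variable {M : Type v} (mem : M → M → Prop)

/-- `E` is an unbounded subset of `w = ω` without two consecutive elements -/
def Sparse (E w : M) : Prop :=
  IsSub mem E w ∧ (∀ n, mem n w → ∃ m, mem m E ∧ mem n m) ∧
    ∀ n n', IsSucc mem n' n → mem n E → ¬ mem n' E

/-- `S` is an elementary submodel of `(M, mem)` -/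
def IsElem (S : Set M) : Prop :=
  ∀ (φ : Fml) (v : ℕ → S), Sat (fun a b : S => mem a b) φ v ↔ Sat mem φ fun i => v i

/-- `j` embeds `S` in `(N, mem')`, and `N` adds no new element to a set of `S` -/
def IsEndExt (S : Set M) {N : Type v} (mem' : N → N → Prop) (j : M → N) : Prop :=
  (∀ x ∈ S, ∀ y ∈ S, mem' (j x) (j y) ↔ mem x y) ∧
    ∀ y ∈ S, ∀ z, mem' z (j y) → ∃ x ∈ S, z = j x

end Pool.Agent.P.MP_2e9c36_lc
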