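import Pool.Agent.P.MP_2e9c36_lc.YGen
import Pool.Agent.P.MP_2e9c36_lc.GComb

set_option autoImplicit false
set_option synthInstance.maxSize 4000

/-! The cardinals of the extension. -/

open Pool.Agent.Lib.PosetForcing

namespace Pool.Agent.P.MP_5f3b23_lc.Zf.G.Pool.Agent.P.MP_5f3b23_lc.Zf
open _root_.Pool.Agent.P.MP_5f3b23_lc.Zf.G

universe v

variable {M : Type v} [Zm M] [NG M]

theorem count_emp (r : M) (h : LowOK emp r) : r ∈ suc (emp : M) :=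
  mem_suc.2 (Or.inr (eq_emp fun p hp => let ⟨i, _, _, g⟩ := h.1 p hp
    not_mem_emp i (by rwa [dom_emp] at g)))

theorem Inc.tp_suc {s i : M} (h : Inc s) (hi : i ∈ dom s) : tp (res s (suc i)) = ap s i := by
  rw [h.isF.res_suc hi (h.od.1 i hi), (h.2 i hi).2.1.tp_snoc (res_lt_Sq h.1 hi) (h.2 i hi).1]

theorem Inc.count {t : M} (h : Inc t) : ∃ L, Le L (tp t) ∧ ∀ r, LowOK t r → r ∈ L := by
  rcases om_cases' (mem_Sq.1 h.1).2.1 with e | ⟨n, -, e⟩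
  · obtain rfl : t = emp := eq_emp fun z hz => not_mem_emp _ (e ▸ mem_dom.2 ⟨z, hz, rfl⟩)
    exact ⟨_, (io_tp h.1).ins (le_emp _) emp, count_emp⟩
  · have hn : n ∈ dom t := e ▸ self_mem_suc n
    have e1 := h.tp_suc hn
    have e2 := h.isF.res_suc hn (h.od.1 n hn)
    rw [← e, res_dom] at e1 e2
    exact ⟨_, e1 ▸ (h.2 n hn).2.1.cnt, fun r hr => LowOK.V_snoc (e2 ▸ hr) (res_lt_Sq h.1 hn)
      (h.2 n hn).2.1 ((mem_Sq.1 h.1).2.2 n hn) (h.2 n hn).1⟩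

theorem ex_col {p i z u : M} (hp : p ∈ (PPs : M)) (hi : i ∈ dom (ps p)) (hz : z ∈ ap (ps p) i)
    (hu : u ∈ z) : ∃ q, q ≤ p ∧ ∃ e, op (res (ps p) i) (op z (op u e)) ∈ pc q := by
  by_cases h : ∃ e, op (res (ps p) i) (op z (op u e)) ∈ pc p
  · exact ⟨p, prefl hp, h⟩
  obtain ⟨h1, -, h2, -, h3⟩ := cond_of hp
  have ht := res_lt_Sq h1.1 hi
  have hc := h2.2 _ ht
  obtain ⟨e, e1, e2⟩ : ∃ e, e ∈ sc (nu (res (ps p) i)) ∧
      ¬ ∃ x, x ∈ lv (pc p) (res (ps p) i) ∧ e = snd (snd x) := by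
    by_contra hn
    exact not_le_sc _ ((le_of_surj (fun x => snd (snd x)) fun e he =>
      not_not.1 fun g => hn ⟨e, he, g⟩).trans hc.2.2)
  obtain ⟨c, c1, c2⟩ := col0_sep (fun t x => op t x ∈ pc p ∨
      (t = res (ps p) i ∧ x = op z (op u e))) fun t ht' => by
    by_cases g : t = res (ps p) i
    · subst g
      have m : ∀ x, x ∈ upair (op z (op u e)) (op z (op u e)) → x = op z (op u e) := fun x hx =>
        (mem_upair.1 hx).elim id id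
      refine ⟨_, hc.un (io_nu ht) ⟨fun x y hx hy _ => by rw [m x hx, m y hy]; simp, fun x hx =>
        ⟨z, u, e, m x hx, od_k.tr ((mem_Sq.1 h1.1).2.2 i hi) hz, hu, e1⟩, (io_nu ht).upair _ _⟩
        fun x y hx hy g => ?_, fun x hx => mem_ins.2 (hx.imp mem_lv.2 fun k => k.2)⟩
      obtain rfl := m y hy
      obtain ⟨a, b, d, rfl, -⟩ := hc.2.1 x hx
      simp only [fst_op, snd_op] at g ⊢
      exact iff_of_false (fun k => h ⟨d, g ▸ k ▸ mem_lv.1 hx⟩) fun k => e2 ⟨_, hx, by simp [k]⟩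
    · exact ⟨_, h2.2 t ht', fun x hx => mem_lv.2 (hx.resolve_right fun k => g k.1)⟩
  obtain ⟨q, q1, -, q3, -⟩ := ex_strong hp c1 (fun j hj x hx => ((c2 _ x).1 (mem_lv.1 hx)).2.elim
    (fun g => h3 j hj x (mem_lv.2 g)) fun g => by
      rw [g.2, fst_op, ← dom_res_lt h1.1 hj, g.1, dom_res_lt h1.1 hi]; exact hz)
    (ae_of_all fun _ _ => trivial) fun t x g g' => (c2 t x).2 ⟨g.sq, Or.inl g'⟩
  exact ⟨q, q1, e, q3 ▸ (c2 _ _).2 ⟨ht, Or.inr ⟨rfl, rfl⟩⟩⟩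

variable [Countable M] {U : Gen M}

theorem not_le_jj {p t l a L : M} (hp : U.G p) (ht : t ∈ Sq (kk : M)) (e : Sub t (ps p))
    (ha : Le a (nu t)) (hL : Le L (nu t)) (hL' : ∀ r, LowOK t r → r ∈ L) (hl : l ∈ (kk : M))
    (pig : Pigeon t l a) : ¬ Le (jj U l) (jj U a) := fun h => by
  obtain ⟨j, hj⟩ := leCard_iff.2 h
  obtain ⟨f, rfl⟩ := j.ex
  obtain ⟨p1, h1, h2⟩ := (cl_ud fun _ mem v => IsInj mem (v 0) (v 1) (v 2)).truth
    (v := cons f (cons (chk l) fun _ => chk a)) hj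
  obtain ⟨r, -, r1, r2⟩ := U.dir hp h1
  have dE : D3 fun y i q : M => Forces q fun W => App Ext.mem (val f W) (jj W y) (jj W i) :=
    ⟨df_forces (fun _ mem v => App mem (v 0) (v 1) (v 2)) (fun v => v 2) (fun _ => f)
      (fun v => chk (v 0)) (fun v => chk (v 1)) fun v => v 0⟩
  refine no_inj (le_l r1) ht (e.trans (le_s r1)) ha hL hL' hl pig
    (fun y i q => Forces q fun W => App Ext.mem (val f W) (jj W y) (jj W i))
    (fun _ _ _ _ g k => k.mono g) (fun y q hy hq => ex_force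
      (fun _ mem v => App mem (v 0) (v 1) (v 2)) (le_l hq)
      (fun i => cons f (cons (chk y) fun _ => chk i)) fun W hW => ?_) fun y y' i q hq g g' => ?_
  · have k : IsFun mm (val f W) (jj W l) (jj W a) := (h2 W (W.up hW (ftr hq r2))).1
    obtain ⟨i, hi, e⟩ := mem_jj.1 (fun_mem k (jj_mem.2 hy))
    exact ⟨i, hi, (fun_app k).2 ⟨jj_mem.2 hy, e.symm⟩⟩
  · obtain ⟨W, hW⟩ := ex_gen (le_l hq)
    exact jj_inj ((h2 W (W.up hW (ftr hq r2))).2 _ _ _ (g W hW) (g' W hW))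

theorem sc_jj {p t x L : M} (hp : U.G p) (ht : t ∈ Sq (kk : M)) (e : Sub t (ps p)) (hx : Io x)
    (h : Sub x (nu t)) (hL : Le L x) (hL' : ∀ r, LowOK t r → r ∈ L) :
    sc (jj U x) = jj U (sc x) :=
  sc_eq (jj_od (od_sc x)) (not_le_jj hp ht e (le_of_sub h) (hL.trans (le_of_sub h)) hL'
    (sc_mem_k (hx.1.mem_of_sub od_k h (nu_mem_k ht))) (pigeon_of_count hx hL hL' (not_le_sc x)))
    fun _ hz => let ⟨_, g1, g2⟩ := mem_jj.1 hz; g2 ▸ jj_le (le_of_mem_sc g1)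

theorem sc_ph {p t : M} (hp : U.G p) (ht : t ∈ Sq (kk : M)) (e : Sub t (ps p)) (i : M) :
    sc (jj U (ph i t)) = jj U (sc (ph i t)) :=
  let ⟨_, h1, h2⟩ := ((cond_of (U.mem hp)).1.sub ht e).count
  let ⟨g1, g2, g3⟩ := ph_tp i ht
  sc_jj hp ht e ((io_tp ht).mono (od_k.el g1) g2) g3 (h1.trans (le_of_sub g2)) h2

theorem sc_om (U : Gen M) : sc (om : Ext U) = jj U (sc om) ∧
    sc (jj U bz) = jj U (tp emp) := by
  have h : Sub bz (nu (emp : M)) := io_bz.1.sub_sc.trans ((sub_un_l _ _).trans (tp_sub_nu _))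
  have h1 := sc_jj U.top (emp_mem_Sq _) (emp_sub _) io_om (io_bz.2.trans h)
    (io_om.ins (le_emp _) emp) count_emp
  rw [jj_om] at h1
  rw [h1, tp_emp]
  exact ⟨rfl, sc_jj U.top (emp_mem_Sq _) (emp_sub _) io_bz h (io_bz.ins (le_emp _) emp)
    count_emp⟩

theorem sc_col {p i : M} (hp : U.G p) (hi : i ∈ dom (ps p)) :
    sc (jj U (sc (nu (res (ps p) i)))) = jj U (tp (res (ps p) (suc i))) := by
  have h1 := (cond_of (U.mem hp)).1
  have ht := res_lt_Sq h1.1 hi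
  have hs := res_mem_Sq h1.1 ((h1.od.el hi).suc.mem_suc h1.od (h1.od.suc_sub hi))
  obtain ⟨g1, g2⟩ := h1.2 i hi
  obtain ⟨L, l1, l2⟩ := (h1.sub hs (res_sub _ _)).count
  have e := h1.tp_suc hi
  refine sc_eq (jj_od (io_tp hs).1) (not_le_jj hp hs (res_sub _ _) (le_of_sub ((g2.1.od.1 _
    (g2.1.sc (g2.1.nu ht g1))).trans (e ▸ tp_sub_nu _)))
    (l1.trans (le_of_sub (tp_sub_nu _))) l2 (tp_mem_k hs) ?_) fun z hz => ?_
  · rw [e, h1.isF.res_suc hi (h1.od.1 i hi)]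
    exact g2.2 _ g1 ht
  obtain ⟨z, hz', rfl⟩ := mem_jj.1 hz
  rw [e] at hz'
  obtain ⟨J, hJ⟩ := ex_gset U (prd z (sc (nu (res (ps p) i))))
    fun q x => q ≤ p ∧ op (res (ps p) i) (op z x) ∈ pc q
  have k : ∀ q, q ≤ p → In q (res (ps p) i) := fun q hq =>
    Or.inl ⟨ht, (res_sub _ _).trans (le_s hq)⟩
  refine le_of_rel (R := J) (fun x hx => ?_) fun x x' y h h' => ?_
  · obtain ⟨u, hu, rfl⟩ := mem_jj.1 hx
    obtain ⟨q, q1, q2, d, q3⟩ := U.below (fun q => ∃ d, op (res (ps p) i) (op z (op u d)) ∈ pc q)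
      hp fun q hq => by
        have := ex_col (le_l hq) (dom_mono (le_s hq) i hi)
          ((cond_of (le_l hq)).1.isF.ap_sub (le_s hq) hi ▸ hz') hu
        rwa [← (cond_of (le_l hq)).1.isF.res_sub_eq (le_s hq) (h1.od.1 i hi)] at this
    obtain ⟨a, b, c, e1, -, -, e2⟩ := ((cond_of (le_l q2)).2.2.1.2 _ ht).2.1 _ (mem_lv.2 q3)
    rw [← (op_inj (op_inj e1).2).2] at e2
    exact ⟨jj U d, jj_mem.2 e2, (hJ _).2 ⟨op u d, op_mem_prd.2 ⟨hu, e2⟩, (jj_op u d).symm,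
      q, q1, q2, q3⟩⟩
  · obtain ⟨a, a1, a2, q, q1, q2, q3⟩ := (hJ _).1 h
    obtain ⟨b, b1, b2, r, r1, r2, r3⟩ := (hJ _).1 h'
    obtain ⟨u, d, -, -, rfl⟩ := mem_prd.1 a1
    obtain ⟨u', d', -, -, rfl⟩ := mem_prd.1 b1
    rw [jj_op] at a2 b2
    obtain ⟨s, -, s1, s2⟩ := U.dir q1 r1
    have c := ((cond_of (le_l s1)).2.2.1.2 _ ht).1 _ _ (mem_lv.2 (le_c s1 (k s (ftr s1 q2)) q3))
      (mem_lv.2 (le_c s2 (k s (ftr s1 q2)) r3)) (by simp)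
    simp only [fst_op, snd_op] at c
    rw [(op_inj a2).1, (op_inj b2).1, c.2 (jj_inj ((op_inj a2).2.symm.trans (op_inj b2).2))]

omit [Countable M] in
theorem ee_lt {j : M} (hj : j ∈ (om : M)) : ee j ∈ ee (suc j) :=
  (od_om.el (NG.en_mem _ (suc_mem_om hj))).tr (NG.en_gap j hj) (self_mem_suc _)

omit [Countable M] in
theorem ee_mono {i j : M} (hj : j ∈ (om : M)) : Od i → Sub i j → Sub (ee i) (ee j) :=
  om_ind (fun j => Od i → Sub i j → Sub (ee i) (ee j))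
    (fun _ h => by rw [eq_emp fun x hx => not_mem_emp x (h x hx)]; exact Sub.rfl)
    (fun j hj ih o h => (mem_suc.1 (o.mem_suc (od_om.el hj).suc h)).elim
      (fun g => (ih o ((od_om.el hj).sub_of_mem_suc g)).trans
        ((od_om.el (NG.en_mem _ (suc_mem_om hj))).1 _ (ee_lt hj))) fun g => g ▸ Sub.rfl) hj

omit [Countable M] in
theorem Inc.nu_eq {t m : M} (h : Inc t) (e : ee (suc (dom t)) = suc (suc m)) :
    nu t = ph m t := by
  have hm : suc m ∈ ee (suc (dom t)) := e ▸ self_mem_suc _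
  have o := od_om.el (ee_mem h.1).2
  have om' := o.el (o.tr hm (self_mem_suc m))
  refine Sub.antisymm (fun x hx => ?_) (ph_tp m h.1).2.2
  obtain ⟨i, hi, g⟩ := mem_bUn.1 hx
  rcases mem_suc.1 hi with hi | rfl
  · exact (ph_tp m h.1).2.1 x (sub_un_r _ _ x (sub_mx hi x ((h.2 i hi).2.1.od.tr
      ((h.2 i hi).2.1.nu0 (res_lt_Sq h.1 hi) (h.2 i hi).1) g)))
  · rw [res_dom] at g
    rcases mem_un.1 g with g | g
    · exact (ph_tp m h.1).2.1 x g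
    obtain ⟨i, hi, g⟩ := mem_bUn.1 g
    by_cases k : suc i ∈ ee (suc (dom t))
    · rw [ph, cnd_pos k] at g
      rw [ph, cnd_pos hm]
      refine sJ_mono (tp_mem_k h.1) (ee_mem h.1).1 (o.el hi) om' ?_ x g
      exact om'.sub_of_mem_suc (om'.suc.sub_of_mem_suc (e ▸ k) i (self_mem_suc i))
    · rw [ph, cnd_neg k] at g
      exact (ph_tp m h.1).2.1 x g

theorem aleph_key {w w1 a l E n : Ext U} (h : Obj mm w w1 a l E) (hn : n ∈ (om : Ext U))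
    (h0 : Sub (jj U (ee emp)) n) : ∃ p t m, U.G p ∧ t ∈ Sq (kk : M) ∧ Sub t (ps p) ∧ n = jj U m ∧
      Sub (ee (dom t)) m ∧ m ∈ ee (suc (dom t)) ∧ ap a n = jj U (sJ (tp t) (ee (dom t)) m) := by
  obtain ⟨-, -, -, h2, h3, -⟩ := h.spec
  obtain ⟨Y, hY⟩ := ex_gset U (prd om kk) fun p z => ∃ t, t ∈ Sq (kk : M) ∧ Sub t (ps p) ∧
    Sub (ee (dom t)) (fst z) ∧ fst z ∈ ee (suc (dom t)) ∧ snd z = sJ (tp t) (ee (dom t)) (fst z)
  have mY : ∀ n x, op n x ∈ Y ↔ ∃ p t m, U.G p ∧ t ∈ Sq (kk : M) ∧ Sub t (ps p) ∧ n = jj U m ∧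
      Sub (ee (dom t)) m ∧ m ∈ ee (suc (dom t)) ∧ x = jj U (sJ (tp t) (ee (dom t)) m) :=
    fun n x => (hY _).trans ⟨fun ⟨z, z1, z2, p, hp, t, t1, t2, t3, t4, t5⟩ => by
      obtain ⟨m, y, -, -, rfl⟩ := mem_prd.1 z1
      rw [fst_op] at t3 t4
      rw [fst_op, snd_op] at t5
      rw [jj_op] at z2
      exact ⟨p, t, m, hp, t1, t2, (op_inj z2).1, t3, t4, t5 ▸ (op_inj z2).2⟩,
    fun ⟨p, t, m, hp, t1, t2, e1, t3, t4, e2⟩ =>
      have k := od_om.tr (ee_mem t1).2 t4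
      ⟨op m _, op_mem_prd.2 ⟨k, gd_k.sJ (tp_mem_k t1) (ee_mem t1).1 (tp_mem_k t1) k⟩,
        by rw [jj_op, e1, e2], p, hp, t, t1, t2, by rwa [fst_op], by rwa [fst_op],
        by rw [fst_op, snd_op]⟩⟩
  have e0 : ee (emp : M) ∈ (om : M) := NG.en_mem _ emp_mem_om
  have b0 : ap a (jj U (ee emp)) = jj U (tp emp) := by
    rw [← (sc_om U).2]
    rcases (NG.base (M := M)) with ⟨g1, g2⟩ | ⟨g1, g2, -⟩
    · rw [ee, g2, jj_suc, jj_emp, h3 _ emp_mem_om, h2, bz, g1, jj_om]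
    · rw [ee, g2, jj_suc, jj_suc, jj_emp, h3 _ (suc_mem_om emp_mem_om), h3 _ emp_mem_om, h2, bz, g1,
        (sc_om U).1]
  refine (mY _ _).1 (om_ind (fun n => Sub (jj U (ee emp)) n → op n (ap a n) ∈ Y) (fun g => ?_)
    (fun n hn ih g => ?_) hn h0)
  · refine (not_mem_emp _ (g _ (jj_mem.2 (?_ : emp ∈ ee (emp : M))))).elim
    rcases (NG.base (M := M)) with ⟨-, g2⟩ | ⟨-, g2, -⟩ <;> rw [ee, g2]
    exacts [self_mem_suc _, sub_suc _ _ (self_mem_suc _)]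
  rcases mem_suc.1 ((jj_od (od_om.el e0)).mem_suc (od_om.el hn).suc g) with g | g
  swap
  · refine (mY _ _).2 ⟨_, emp, _, U.top, emp_mem_Sq _, emp_sub _, g.symm, ?_⟩
    rw [dom_emp, ← g, b0, sJ_self (tp_mem_k (emp_mem_Sq _)) e0 (od_om.el e0) Sub.rfl]
    exact ⟨Sub.rfl, ee_lt emp_mem_om, rfl⟩
  obtain ⟨p, t, m, hp, t1, t2, rfl, t3, t4, e⟩ := (mY _ _).1 (ih ((od_om.el hn).sub_of_mem_suc g))
  obtain ⟨o1, o2⟩ := ee_mem t1
  have hm := od_om.tr o2 t4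
  have st : ∀ i, i ∈ (om : M) → Sub (ee (dom t)) i → sJ (tp t) (ee (dom t)) (suc i) =
      sc (sJ (tp t) (ee (dom t)) i) := fun i hi k => sJ_suc (tp_mem_k t1) o1 (od_om.el hi) k
    (od_k.el (gd_k.sJ (tp_mem_k t1) o1 (tp_mem_k t1) hi))
  rw [h3 _ hn, e]
  rcases mem_suc.1 ((od_om.el hm).suc.mem_suc (od_om.el o2) ((od_om.el o2).suc_sub t4)) with k | k
  · have k1 := sc_ph hp t1 t2 m
    rw [ph, cnd_pos k] at k1
    exact (mY _ _).2 ⟨p, t, suc m, hp, t1, t2, (jj_suc m).symm, t3.trans (sub_suc m), k,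
      by rw [k1, st m hm t3]⟩
  · have k1 : ee (dom t) ∈ m := (od_om.el hm).sub_of_mem_suc
      (k ▸ NG.en_gap _ (mem_Sq.1 t1).2.1) _ (self_mem_suc _)
    obtain rfl | ⟨i, hi, rfl⟩ := om_cases' hm
    · exact (not_mem_emp _ k1).elim
    obtain ⟨q, q1, q2, q3⟩ := U.below (fun q => Sub (suc (dom t)) (dom (ps q))) hp
      fun q hq => ex_long (le_l hq) (suc_mem_om (mem_Sq.1 t1).2.1)
    have c := (cond_of (le_l q2)).1
    have c1 := res_mem_Sq c.1 ((od_dom t1).suc.mem_suc c.od q3)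
    have c2 := sc_col q1 (q3 _ (self_mem_suc _))
    rw [← c.isF.eq_res (t2.trans (le_s q2)), (c.sub t1 (t2.trans (le_s q2))).nu_eq k.symm, ph,
      cnd_pos t4, ← st i hi ((od_om.el hi).sub_of_mem_suc k1)] at c2
    refine (mY _ _).2 ⟨q, _, suc (suc i), q1, c1, res_sub _ _, (jj_suc _).symm, ?_⟩
    rw [dom_res q3, k, sJ_self (tp_mem_k c1) o2 (od_om.el o2) Sub.rfl]
    exact ⟨Sub.rfl, ee_lt (suc_mem_om (mem_Sq.1 t1).2.1), c2⟩

theorem aleph_cases {w w1 a l E n x : Ext U} (h : Obj mm w w1 a l E) (hn : op n x ∈ a)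
    (hx : sc om ∈ x) : ∃ p t, U.G p ∧ t ∈ Sq (kk : M) ∧ Sub t (ps p) ∧
      ((n ∈ jj U NG.E ∧ x = jj U (tp t)) ∨
        (n ∉ jj U NG.E ∧ ∃ e, e ∈ (om : M) ∧ x = jj U (sc (ph e t)))) := by
  obtain ⟨-, -, h1, h2, h3, -⟩ := h.spec
  obtain ⟨hn', rfl⟩ := (h1 n x).1 hn
  clear hn
  rcases om_cases' hn' with rfl | ⟨n, hn, rfl⟩
  · exact (od_om.asymm (h2 ▸ hx) od_om.lt_sc).elim
  rcases om_cases' hn with rfl | ⟨n, hm, rfl⟩
  · exact (not_mem_self _ (by rwa [h3 _ emp_mem_om, h2] at hx)).elim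
  have a1 : Sub (suc emp) (suc n) := (od_om.el hm).suc.suc_sub
    (od_emp.mem_suc (od_om.el hm) (emp_sub _))
  obtain ⟨p, t, m, hp, t1, t2, e, t3, t4, e'⟩ := aleph_key h hn' (by
    rcases (NG.base (M := M)) with ⟨-, g2⟩ | ⟨-, g2, -⟩ <;> rw [ee, g2]
    · rw [jj_suc, jj_emp]
      exact a1.trans (sub_suc _)
    · rw [jj_suc, jj_suc, jj_emp]
      exact (od_om.el hn').suc_sub (od_emp.suc.mem_suc (od_om.el hn) a1))
  obtain ⟨o1, o2⟩ := ee_mem t1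
  have k0 := od_om.tr o2 t4
  refine ⟨p, t, hp, t1, t2, ?_⟩
  rw [e', e, jj_mem]
  rcases mem_suc.1 ((od_om.el o1).mem_suc (od_om.el k0) t3) with k | rfl
  · refine Or.inr ⟨NG.en_lt _ _ (mem_Sq.1 t1).2.1 k t4, ?_⟩
    obtain rfl | ⟨i, hi, rfl⟩ := om_cases' (od_om.tr (suc_mem_om k0) (self_mem_suc m))
    · exact (not_mem_emp _ k).elim
    refine ⟨i, hi, ?_⟩
    rw [ph, cnd_pos t4, sJ_suc (tp_mem_k t1) o1 (od_om.el hi) ((od_om.el hi).sub_of_mem_suc k)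
      (od_k.el (gd_k.sJ (tp_mem_k t1) o1 (tp_mem_k t1) hi))]
  · refine Or.inl ⟨?_, by rw [sJ_self (tp_mem_k t1) o1 (od_om.el o1) Sub.rfl]⟩
    rcases om_cases' (mem_Sq.1 t1).2.1 with g | ⟨i, hi, g⟩
    · rw [g] at e ⊢
      rcases (NG.base (M := M)) with ⟨-, g2⟩ | ⟨-, g2, g3⟩
      · rw [ee, g2, jj_suc, jj_emp] at e
        exact (suc_ne_emp _ (suc_inj (od_om.el hn) e)).elim
      · rwa [ee, g2]
    · rw [g]
      exact NG.en_E i hi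

theorem sup_eq {w w1 a l E : Ext U} (h : Obj mm w w1 a l E) : l = jj U kk := by
  obtain ⟨-, -, h1, h2, h3, h4, -⟩ := h.spec
  refine ext fun x => (h4 x).trans ⟨fun ⟨n, hn, hx⟩ => (jj_od od_k).tr ?_ hx, fun hx => ?_⟩
  · by_cases g : sc om ∈ ap a n
    · obtain ⟨p, t, -, t1, -, ⟨-, e⟩ | ⟨-, _, -, e⟩⟩ := aleph_cases h ((h1 _ _).2 ⟨hn, rfl⟩) g
      · exact e ▸ jj_mem.2 (tp_mem_k t1)
      · exact e ▸ jj_mem.2 (sc_mem_k (ph_tp _ t1).1)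
    · have o : Od (ap a n) := by
        rcases om_cases' hn with rfl | ⟨m, hm, rfl⟩
        exacts [h2 ▸ od_om, h3 m hm ▸ od_sc _]
      exact o.mem_of_sub (jj_od od_k) (o.sub_of_not_mem (od_sc _) g)
        ((sc_om U).1 ▸ jj_mem.2 (sc_mem_k Ms.om_mem))
  · obtain ⟨x, hx', rfl⟩ := mem_jj.1 hx
    obtain ⟨p, hp, g⟩ := U.meet (fun p => x ∈ mx (ps p)) fun p hp =>
      let ⟨q, q1, b, q2, q3, _⟩ := ex_ext hp (ae_gt hx')
      ⟨q, q1, by rw [q3, mx_snoc]; exact sub_un_r _ _ _ q2⟩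
    have k := (cond_of (U.mem hp)).1
    have hj := (mem_Sq.1 k.1).2.1
    have hn : jj U (ee (dom (ps p))) ∈ (om : Ext U) := jj_om (U := U) ▸ jj_mem.2 (NG.en_mem _ hj)
    obtain ⟨q, t, m, hq, t1, t2, e, -, t4, e'⟩ :=
      aleph_key h hn (jj_sub.2 (ee_mono hj od_emp (emp_sub _)))
    obtain rfl := jj_inj e
    obtain ⟨r, -, r1, r2⟩ := U.dir hp hq
    have k1 : Sub (dom (ps p)) (dom t) := k.od.sub_of_not_mem (od_dom t1) fun g' =>
      not_mem_self _ (ee_mono hj (od_dom t1).suc (k.od.suc_sub g') _ t4)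
    refine ⟨_, hn, e' ▸ jj_mem.2 ((mem_sJ (tp_mem_k t1) (ee_mem t1).1
      (od_om.el (NG.en_mem _ hj))).2 (Or.inl (sub_un_r _ _ _ (mx_mono (mem_Sq.1 t1).1
        (seq_sub (cond_of (le_l r1)).1.isF (le_s r1) (t2.trans (le_s r2)) k1) x g))))⟩

end Pool.Agent.P.MP_5f3b23_lc.Zf.G.Pool.Agent.P.MP_5f3b23_lc.Zf
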