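import Pool.Agent.P.MP_2e9c36_lc.GCov

set_option autoImplicit false

/-! Histories: Prikry points and indiscernibles. -/

open Pool.Agent.Lib.PosetForcing

namespace Pool.Agent.P.MP_5f3b23_lc.Zf.G.Pool.Agent.P.MP_5f3b23_lc.Zf
open _root_.Pool.Agent.P.MP_5f3b23_lc.Zf.G

universe v

variable {M : Type v} [Zm M]

/-- all coordinates -/
noncomputable def Co : M := prd om (suc om)

/-- coordinates of type `m` -/
noncomputable def TT (m : M) : M := prd m (ins om m)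

instance tm_TT (a : (ℕ → M) → M) [Tm a] : Tm fun v => TT (a v) := by
  unfold TT; infer_instance

/-- the lexicographic order -/
def Lt (c d : M) : Prop := fst c ∈ fst d ∨ (fst c = fst d ∧ snd c ∈ snd d)

instance df_lt (a b : (ℕ → M) → M) [Tm a] [Tm b] : Df fun v => Lt (a v) (b v) := by
  unfold Lt; infer_instance

/-- initial segments of coordinates of type `m` -/
noncomputable def II (m j k : M) : M := sep (TT m) fun c => fst c ∈ j ∨ (fst c = j ∧ snd c ∈ k)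

instance tm_II (a b c : (ℕ → M) → M) [Tm a] [Tm b] [Tm c] : Tm fun v => II (a v) (b v) (c v) := by
  unfold II; infer_instance

theorem mem_TT {m a b : M} : op a b ∈ TT m ↔ a ∈ m ∧ (b ∈ m ∨ b = om) := by
  rw [TT, op_mem_prd, mem_ins]

theorem mem_II {m j k a b : M} :
    op a b ∈ II m j k ↔ (a ∈ m ∧ (b ∈ m ∨ b = om)) ∧ (a ∈ j ∨ (a = j ∧ b ∈ k)) := by
  rw [II, mem_sep, mem_TT, fst_op, snd_op]

theorem lt_op {a b c d : M} : Lt (op a b) (op c d) ↔ a ∈ c ∨ (a = c ∧ b ∈ d) := by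
  simp only [Lt, fst_op, snd_op]

theorem TT_ex {m c : M} (h : c ∈ TT m) : ∃ a b, c = op a b ∧ a ∈ m ∧ (b ∈ m ∨ b = om) :=
  let ⟨a, b, h1, h2, e⟩ := mem_prd.1 h; ⟨a, b, e, h1, mem_ins.1 h2⟩

theorem TT_sub {m : M} (hm : m ∈ (om : M)) : Sub (TT m) Co := fun _ h => by
  obtain ⟨a, b, rfl, h1, h2⟩ := TT_ex h
  exact op_mem_prd.2 ⟨od_om.tr hm h1, mem_suc.2 (h2.imp_left (od_om.tr hm))⟩

theorem TT_mono {m n : M} (h : Sub m n) : Sub (TT m) (TT n) := fun _ g => by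
  obtain ⟨a, b, rfl, h1, h2⟩ := TT_ex g
  exact mem_TT.2 ⟨h a h1, h2.imp_left (h b)⟩

theorem Co_od {c : M} (h : c ∈ (Co : M)) : Od (fst c) ∧ Od (snd c) :=
  ⟨od_om.el (prd_eta h).1, od_om.suc.el (prd_eta h).2.1⟩

theorem Lt.asymm {c d : M} (hc : c ∈ (Co : M)) (h : Lt d c) : ¬ Lt c d := fun g => by
  rcases h with h | h <;> rcases g with g | g
  · exact (Co_od hc).1.asymm h g
  · exact not_mem_self _ (g.1 ▸ h)
  · exact not_mem_self _ (h.1 ▸ g)
  · exact (Co_od hc).2.asymm h.2 g.2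

theorem II_lt {m j k c d : M} (hm : m ∈ (om : M)) (hj : Od j) (hk : Od k) (hc : c ∈ II m j k)
    (hd : d ∈ TT m) (h : d ∉ II m j k) : Lt c d := by
  have e := Co_od (TT_sub hm d hd)
  have h1 : fst d ∉ j := fun g => h (mem_sep.2 ⟨hd, Or.inl g⟩)
  rcases (mem_sep.1 hc).2 with g | g
  · exact Or.inl (hj.sub_of_not_mem e.1 h1 _ g)
  · rcases hj.tri e.1 with g' | g' | g'
    · exact Or.inl (g.1 ▸ g')
    · exact Or.inr ⟨g.1.trans g', hk.sub_of_not_mem e.2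
        (fun k => h (mem_sep.2 ⟨hd, Or.inr ⟨g'.symm, k⟩⟩)) _ g.2⟩
    · exact (h1 g').elim

theorem II_top {m j : M} (k : M) (h : Sub m j) : II m j k = TT m :=
  Sub.antisymm sep_sub fun _ hc => mem_sep.2 ⟨hc, Or.inl (h _ (prd_eta hc).1)⟩

/-- the next position -/
def Nx (m j k e j' k' : M) : Prop := j ∈ m ∧
  ((k ∈ m ∧ e = k ∧ j' = j ∧ k' = suc k) ∨ (k = m ∧ e = om ∧ j' = suc j ∧ k' = emp))

theorem pos_ind (P : M → M → Prop) [D2 P] {m : M} (hm : m ∈ (om : M)) (h0 : P m emp)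
    (hs : ∀ j k e j' k', Nx m j k e j' k' → P j' k' → P j k) :
    (∀ j, j ∈ suc m → P j emp) ∧ ∀ j k, j ∈ m → k ∈ suc m → P j k := by
  have h1 : ∀ j k, j ∈ m → k ∈ suc m → P (suc j) emp → P j k := fun j k hj hk h =>
    down_ind (fun k => P j k) hm (hs j m om _ _ ⟨hj, Or.inr ⟨rfl, rfl, rfl, rfl⟩⟩ h)
      (fun k hk => hs j k k _ _ ⟨hj, Or.inl ⟨hk, rfl, rfl, rfl⟩⟩) hk
  have h2 : ∀ j, j ∈ suc m → P j emp := fun j hj => down_ind (fun j => P j emp) hm h0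
    (fun j hj => h1 j emp hj (od_emp.mem_suc (od_om.el hm) (emp_sub _))) hj
  exact ⟨h2, fun j k hj hk => h1 j k hj hk (h2 _ (((od_om.el hm).el hj).suc.mem_suc (od_om.el hm)
    ((od_om.el hm).suc_sub hj)))⟩

section
variable {m j k e j' k' : M} (h : Nx m j k e j' k') (hm : m ∈ (om : M))
include h

theorem Nx.mem : op j e ∈ TT m :=
  mem_TT.2 ⟨h.1, h.2.imp (fun g => by rw [g.2.1]; exact g.1) fun g => g.2.1⟩

theorem Nx.k_mem : k ∈ suc m := mem_suc.2 (h.2.imp (fun g => g.1) fun g => g.1)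

include hm

theorem Nx.nmem : op j e ∉ II m j k := fun g => by
  rcases (mem_II.1 g).2 with g' | ⟨-, g'⟩
  · exact not_mem_self _ g'
  · rcases h.2 with ⟨-, rfl, -⟩ | ⟨rfl, rfl, -⟩
    · exact not_mem_self _ g'
    · exact od_om.asymm hm g'

theorem Nx.eq : II m j' k' = ins (op j e) (II m j k) := by
  refine ext fun c => ⟨fun hc => ?_, fun hc => ?_⟩
  · obtain ⟨a, b, rfl, -⟩ := TT_ex (mem_sep.1 hc).1
    rw [mem_ins, mem_II, op_eq_iff]
    obtain ⟨g1, g2⟩ := mem_II.1 hc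
    rcases h.2 with ⟨-, rfl, rfl, rfl⟩ | ⟨rfl, rfl, rfl, rfl⟩
    · rw [mem_suc] at g2
      tauto
    · rw [mem_suc] at g2
      have := not_mem_emp b
      tauto
  · rcases mem_ins.1 hc with hc | rfl
    · refine mem_sep.2 ⟨(mem_sep.1 hc).1, ?_⟩
      have g := (mem_sep.1 hc).2
      rcases h.2 with ⟨-, rfl, rfl, rfl⟩ | ⟨rfl, rfl, rfl, rfl⟩ <;> rw [mem_suc] <;> tauto
    · refine mem_II.2 ⟨mem_TT.1 h.mem, ?_⟩
      rcases h.2 with ⟨-, rfl, rfl, rfl⟩ | ⟨rfl, rfl, rfl, rfl⟩ <;> rw [mem_suc] <;> tauto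

theorem Nx.lt1 {d : M} (hd : d ∈ II m j k) : Lt d (op j e) :=
  II_lt hm ((od_om.el hm).el h.1) ((od_om.el hm).suc.el h.k_mem) hd h.mem (h.nmem hm)

theorem Nx.lt2 {d : M} (hd : d ∈ TT m) (g : d ∉ ins (op j e) (II m j k)) : Lt (op j e) d := by
  have h1 := (od_om.el hm).el h.1
  have h2 := (od_om.el hm).suc.el h.k_mem
  refine II_lt (j := j') (k := k') hm ?_ ?_ (h.eq hm ▸ mem_ins.2 (Or.inr rfl)) hd (h.eq hm ▸ g)
  · rcases h.2 with ⟨-, -, rfl, -⟩ | ⟨-, -, rfl, -⟩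
    exacts [h1, h1.suc]
  · rcases h.2 with ⟨-, -, -, rfl⟩ | ⟨-, -, -, rfl⟩
    exacts [h2.suc, od_emp]

end

theorem lam_suc (j : M) (F : M → M) [Tm fun v => F (v 0)] :
    lam (suc j) F = snoc (lam j F) (F j) := ext fun p => by
  simp only [snoc, dom_lam, mem_ins, mem_lam, mem_suc]
  exact ⟨fun ⟨x, h, e⟩ => h.imp (fun h => ⟨x, h, e⟩) fun h => by rw [e, h],
    fun h => h.elim (fun ⟨x, h, e⟩ => ⟨x, Or.inl h, e⟩) fun e => ⟨j, Or.inr rfl, e⟩⟩

theorem lam_emp (F : M → M) [Tm fun v => F (v 0)] : lam emp F = emp :=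
  eq_emp fun _ h => let ⟨x, hx, _⟩ := mem_lam.1 h; not_mem_emp x hx

/-- the stem of a history -/
noncomputable def tt (z j : M) : M := lam j fun i => ap z (op i om)

/-- the first indiscernibles at level `j` -/
noncomputable def el (z j k : M) : M := lam k fun i => ap z (op j i)

instance tm_tt (a b : (ℕ → M) → M) [Tm a] [Tm b] : Tm fun v => tt (a v) (b v) := by
  unfold tt; infer_instance

instance tm_el (a b c : (ℕ → M) → M) [Tm a] [Tm b] [Tm c] : Tm fun v => el (a v) (b v) (c v) := by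
  unfold el; infer_instance

theorem dom_tt (z j : M) : dom (tt z j) = j := dom_lam

theorem dom_el (z j k : M) : dom (el z j k) = k := dom_lam

theorem ap_tt (z : M) {i j : M} (h : i ∈ j) : ap (tt z j) i = ap z (op i om) := ap_lam h

theorem ap_el (z j : M) {i k : M} (h : i ∈ k) : ap (el z j k) i = ap z (op j i) := ap_lam h

theorem res_tt (z : M) {i j : M} (h : Sub i j) : res (tt z j) i = tt z i := res_lam h

theorem tt_congr {z w j : M} (hw : IsF w) (e : Sub z w) (h : ∀ i, i ∈ j → op i om ∈ dom z) :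
    tt z j = tt w j := lam_congr fun i hi => hw.ap_sub e (h i hi)

theorem el_congr {z w j k : M} (hw : IsF w) (e : Sub z w) (h : ∀ i, i ∈ k → op j i ∈ dom z) :
    el z j k = el w j k := lam_congr fun i hi => hw.ap_sub e (h i hi)

variable [NG M]

/-- increasing histories -/
def Hist (z : M) : Prop := IsF z ∧ Sub (dom z) Co ∧ ∀ c, c ∈ dom z → ap z c ∈ (kk : M) ∧
  VG (ap z c) ∧ ∀ d, d ∈ dom z → Lt d c → ap z d ∈ ap z c

instance df_hist (a : (ℕ → M) → M) [Tm a] : Df fun v => Hist (a v) := by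
  unfold Hist; infer_instance

/-- a set containing all histories -/
noncomputable def HS : M := pow (prd Co kk)

namespace Hist

variable {z : M} (h : Hist z)
include h

theorem k {c : M} (hc : c ∈ dom z) : ap z c ∈ (kk : M) := (h.2.2 c hc).1

theorem gd {c : M} (hc : c ∈ dom z) : Gd (ap z c) := (h.2.2 c hc).2.1.1

theorem lt {c d : M} (hc : c ∈ dom z) (hd : d ∈ dom z) (e : Lt d c) : ap z d ∈ ap z c :=
  (h.2.2 c hc).2.2 d hd e

theorem sub {w : M} (e : Sub w z) : Hist w :=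
  ⟨h.1.sub e, (dom_mono e).trans h.2.1, fun c hc => by
    rw [h.1.ap_sub e hc]
    refine ⟨h.k (dom_mono e c hc), (h.2.2 c (dom_mono e c hc)).2.1, fun d hd g => ?_⟩
    rw [h.1.ap_sub e hd]
    exact h.lt (dom_mono e c hc) (dom_mono e d hd) g⟩

theorem hs : z ∈ (HS : M) := mem_pow.2 fun p hp =>
  have e : fst p ∈ dom z := mem_dom.2 ⟨p, hp, rfl⟩
  h.1 p hp ▸ op_mem_prd.2 ⟨h.2.1 _ e, h.k e⟩

theorem V {b : M} (hb : Gd b) (e : ∀ c, c ∈ dom z → ap z c ∈ Vv b) : z ∈ Vv b := by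
  refine hb.cl (fun p hp => ?_) (hb.V hb.2.1) ((le_of_fn (fun p => fst p)
    (fun p hp => h.2.1 _ (mem_dom.2 ⟨p, hp, rfl⟩)) fun p q hp hq g => ?_).trans
      (io_om.prd Le.rfl (io_om.ins Le.rfl om)))
  · have g : fst p ∈ dom z := mem_dom.2 ⟨p, hp, rfl⟩
    obtain ⟨a, c, g1, g2, g3⟩ := mem_prd.1 (h.2.1 _ g)
    rw [h.1 p hp]
    exact hb.op (g3 ▸ hb.op (hb.nat g1) (hb.el (hb.V (hb.2.2.1 _ hb.2.1)) g2)) (e _ g)
  · rw [h.1 p hp, h.1 q hq, g]

theorem ins {c x : M} (hc : c ∈ (Co : M)) (hx : x ∈ (kk : M)) (g : VG x) (e : z ∈ Vv x)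
    (l : ∀ d, d ∈ dom z → Lt d c) : Hist (ins (op c x) z) := by
  have n : c ∉ dom z := fun k => (l c k).asymm hc (l c k)
  have n' : ∀ d, d ∈ dom z → ap (Zf.ins (op c x) z) d = ap z d := fun d hd =>
    ap_ins_ne fun k => n (k ▸ hd)
  refine ⟨h.1.ins n x, ?_, fun a ha => ?_⟩
  · rw [dom_ins]
    exact fun a ha => (mem_ins.1 ha).elim (h.2.1 a) fun k => k ▸ hc
  · rw [dom_ins] at *
    rcases mem_ins.1 ha with ha' | rfl
    · rw [n' a ha']
      refine ⟨h.k ha', (h.2.2 a ha').2.1, fun d hd k => ?_⟩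
      rcases mem_ins.1 hd with hd | rfl
      · rw [n' d hd]; exact h.lt ha' hd k
      · exact ((l a ha').asymm hc k).elim
    · rw [ap_ins n]
      refine ⟨hx, g, fun d hd k => ?_⟩
      rcases mem_ins.1 hd with hd | rfl
      · rw [n' d hd]; exact g.1.lt (od_k.el (h.k hd)) (g.1.ap e d)
      · exact (k.asymm hc k).elim

theorem tt_sq {j : M} (hj : j ∈ (om : M)) (e : ∀ i, i ∈ j → op i om ∈ dom z) :
    tt z j ∈ Sq (kk : M) := lam_mem_Sq hj fun i hi => h.k (e i hi)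

theorem tt_V {j c : M} (hj : j ∈ (om : M)) (e : ∀ i, i ∈ j → op i om ∈ dom z) (hc : c ∈ dom z)
    (l : Sub j (fst c)) : tt z j ∈ Vv (ap z c) :=
  (h.gd hc).seq (h.tt_sq hj e) fun i hi => by
    rw [dom_tt] at hi
    rw [ap_tt z hi]
    exact (h.gd hc).V (h.lt hc (e i hi) (Or.inl (by rw [fst_op]; exact l i hi)))

theorem tt_inc {j : M} (hj : j ∈ (om : M)) (e : ∀ i, i ∈ j → op i om ∈ dom z) : Inc (tt z j) :=
  ⟨h.tt_sq hj e, fun i hi => by
    rw [dom_tt] at hi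
    rw [ap_tt z hi, res_tt z ((od_om.el hj).1 i hi)]
    exact ⟨h.tt_V (od_om.tr hj hi) (fun l hl => e l ((od_om.el hj).tr hi hl)) (e i hi)
      (by rw [fst_op]; exact Sub.rfl), (h.2.2 _ (e i hi)).2.1⟩⟩

theorem le_om {a b : M} (h1 : op a b ∈ dom z) (h2 : op a om ∈ dom z) :
    Sub (ap z (op a b)) (ap z (op a om)) := by
  rcases mem_suc.1 (op_mem_prd.1 (h.2.1 _ h1)).2 with g | rfl
  · exact (h.gd h2).od.1 _ (h.lt h2 h1 (lt_op.2 (Or.inr ⟨rfl, g⟩)))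
  · exact Sub.rfl

end Hist

theorem hist_emp : Hist (emp : M) :=
  ⟨isF_emp, by rw [dom_emp]; exact emp_sub _, fun c hc =>
    (not_mem_emp c (by rwa [dom_emp] at hc)).elim⟩

/-- `w` is a history of type `m` extending `z` with new points in `A` -/
def Ex (m z A w : M) : Prop :=
  Sub z w ∧ dom w = TT m ∧ Hist w ∧ ∀ c, c ∈ dom w → c ∉ dom z → ap w c ∈ A

instance df_exx (a b c d : (ℕ → M) → M) [Tm a] [Tm b] [Tm c] [Tm d] :
    Df fun v => Ex (a v) (b v) (c v) (d v) := by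
  unfold Ex; infer_instance

theorem Ex.eq {m z A w : M} (h : Ex m z A w) (e : dom z = TT m) : w = z := by
  rw [h.2.2.1.1.eq_res h.1, e, ← h.2.1, res_dom]

theorem Ex.next {m z A B w c : M} (h : Ex m z A w) (hc : c ∈ TT m)
    (l : ∀ d, d ∈ TT m → d ∉ ins c (dom z) → Lt c d)
    (e : ∀ b, b ∈ A → ap w c ∈ Vv b → b ∈ B) : Ex m (ins (op c (ap w c)) z) B w := by
  rw [← h.2.1] at hc l
  refine ⟨fun p hp => (mem_ins.1 hp).elim (h.1 p) fun g => g ▸ h.2.2.1.1.mem hc, h.2.1, h.2.2.1,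
    fun d hd g => ?_⟩
  rw [dom_ins] at g
  exact e _ (h.2.2.2 d hd fun k => g (sub_ins _ _ d k))
    ((h.2.2.1.gd hd).V (h.2.2.1.lt hd hc (l d hd g)))

theorem diag_set (Q : M → M → Prop) [D2 Q] (h : Ae fun x => ∃ A, A ∈ (UU : M) ∧ Q x A) :
    ∃ A, A ∈ (UU : M) ∧ ∀ x, x ∈ A → Gd x ∧ ∃ B, Q x B ∧ ∀ b, b ∈ A → x ∈ Vv b → b ∈ B := by
  obtain ⟨f, hf⟩ := chs' kk (fun x => ∃ A, A ∈ (UU : M) ∧ Q x A)
    (fun x A => A ∈ (UU : M) ∧ Q x A) fun _ _ h => h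
  obtain ⟨A, hA, e⟩ := h.and (ae_gd.and (diag (fun x b => ap f x ∈ (UU : M) → b ∈ ap f x)
    fun _ _ => ae_imp ae_mem))
  exact ⟨A, hA, fun x hx => let ⟨g1, g2⟩ := hf x (Ms.sub A hA x hx) (e x hx).1
    ⟨(e x hx).2.1, _, g2, fun b hb k => (e b hb).2.2 x k g1⟩⟩

theorem ex_U : ∃ A : M, A ∈ (UU : M) := (ae_of_all (P := fun _ : M => True) fun _ _ => trivial).imp
  fun _ h => h.1

/-- small values of a term depend only on earlier coordinates -/
theorem ex_const {m : M} (hm : m ∈ (om : M)) (g : M) : ∃ G A, A ∈ (UU : M) ∧ ∀ w j k,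
    j ∈ (om : M) → k ∈ suc m → Hist w → dom w = TT m → (∀ c, c ∈ dom w → ap w c ∈ A) →
    (∀ c, c ∈ TT m → c ∉ II m j k → ap g w ∈ ap w c) → ap g w = ap G (res w (II m j k)) := by
  obtain ⟨Q, hQ⟩ : ∃ Q : M → M → M → Prop, Q = fun z v A => ∀ w, Ex m z A w →
    (∀ c, c ∈ TT m → c ∉ dom z → ap g w ∈ ap w c) → ap g w = v := ⟨_, rfl⟩
  have dQ : D3 Q := ⟨by rw [hQ]; infer_instance⟩
  obtain ⟨A0, hA0⟩ := ex_U (M := M)
  have h0 : ∀ z, dom z = TT m → Q z (ap g z) A0 := fun z hz => by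
    rw [hQ]
    exact fun w hw _ => by rw [hw.eq hz]
  have h1 := (pos_ind (fun j k => ∀ z, Hist z → dom z = II m j k → ∃ v A, A ∈ (UU : M) ∧ Q z v A)
    hm (fun z _ hz => ⟨_, _, hA0, h0 z (hz.trans (II_top _ Sub.rfl))⟩)
    fun j k e j' k' nx ih z hz hd => by
      obtain ⟨F, hF⟩ := chs kk (fun x y => snd y ∈ (UU : M) ∧
          (Hist (ins (op (op j e) x) z) → Q (ins (op (op j e) x) z) (fst y) (snd y))) fun x _ => by
        by_cases g : Hist (ins (op (op j e) x) z)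
        · obtain ⟨v, A, g1, g2⟩ := ih _ g (by rw [dom_ins, hd, nx.eq hm])
          exact ⟨op v A, by simpa using ⟨g1, fun _ => g2⟩⟩
        · exact ⟨op emp A0, by simpa using ⟨hA0, fun k => absurd k g⟩⟩
      obtain ⟨a, ha⟩ : ∃ a, Ae fun x => fst (ap F x) ∈ x → fst (ap F x) = a := by
        by_cases g : Ae fun x => fst (ap F x) ∈ x
        · exact (ae_normal _ g).imp fun a h => h.mono fun _ _ h _ => h
        · exact ⟨emp, (ae_not g).mono fun _ _ h k => absurd k h⟩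
      obtain ⟨A, hA, eA⟩ := diag_set (fun x B => (fst (ap F x) ∈ x → fst (ap F x) = a) ∧
          (Hist (ins (op (op j e) x) z) → Q (ins (op (op j e) x) z) (fst (ap F x)) B))
        (ha.mono fun x hx g => ⟨_, (hF x hx).1, g, (hF x hx).2⟩)
      refine ⟨a, A, hA, ?_⟩
      rw [hQ]
      intro w hw l
      have n : op j e ∉ dom z := hd ▸ nx.nmem hm
      obtain ⟨-, B, ⟨g1, g2⟩, g3⟩ := eA _ (hw.2.2.2 _ (hw.2.1 ▸ nx.mem) n)
      have u := hw.next nx.mem (fun d g k => nx.lt2 hm g (hd ▸ k)) g3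
      rw [hQ] at g2
      have g4 := g2 (hw.2.2.1.sub u.1) w u fun c hc k =>
        l c hc fun k' => k (by rw [dom_ins]; exact sub_ins _ _ c k')
      exact g4.trans (g1 (g4 ▸ l _ nx.mem n))).2
  obtain ⟨F, hF⟩ := chs' HS (fun z => ∃ v A, A ∈ (UU : M) ∧ Q z v A)
    (fun z y => snd y ∈ (UU : M) ∧ Q z (fst y) (snd y)) fun z _ ⟨v, A, g⟩ =>
      ⟨op v A, by simpa using g⟩
  obtain ⟨A, hA, eA⟩ := diag (fun z b => snd (ap F z) ∈ (UU : M) → b ∈ snd (ap F z))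
    fun _ _ => ae_imp ae_mem
  refine ⟨lam HS fun z => fst (ap F z), A, hA, fun w j k hj hk hw hd e l => ?_⟩
  have hz := hw.sub (res_sub w (II m j k))
  have dz : dom (res w (II m j k)) = II m j k := dom_res (hd ▸ sep_sub)
  obtain ⟨g1, g2⟩ := hF _ hz.hs (by
    by_cases g : j ∈ m
    · exact h1 j k g hk _ hz dz
    · exact ⟨_, _, hA0, h0 _ (dz.trans (II_top _ ((od_om.el hm).sub_of_not_mem (od_om.el hj) g)))⟩)
  rw [ap_lam hz.hs]
  rw [hQ] at g2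
  refine g2 w ⟨res_sub _ _, hd, hw, fun c hc n => eA _ (e c hc) _ (hz.V (hw.gd hc) fun d g => ?_)
    g1⟩ (dz.symm ▸ l)
  rw [dz] at g n
  rw [ap_res w g]
  exact (hw.gd hc).V (hw.lt hc (hd ▸ (mem_sep.1 g).1) (II_lt hm (od_om.el hj)
    ((od_om.el hm).suc.el hk) g (hd ▸ hc) n))

end Pool.Agent.P.MP_5f3b23_lc.Zf.G.Pool.Agent.P.MP_5f3b23_lc.Zf
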