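import Pool.Agent.P.MP_2e9c36_lc.GExt
import Pool.Agent.P.MP_2e9c36_lc.GDefs

set_option autoImplicit false
set_option synthInstance.maxSize 4000

/-! Mutual stationarity in a generic extension of a countable model. -/

open Pool.Agent.Lib.PosetForcing

namespace Pool.Agent.P.MP_5f3b23_lc.Zf.G.Pool.Agent.P.MP_5f3b23_lc.Zf
open _root_.Pool.Agent.P.MP_5f3b23_lc.Zf.G

universe v

/-- `F` is a counterexample to mutual stationarity for the pattern `E` -/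
def Bad2 {M : Type v} (mem : M → M → Prop) (F E : M) : Prop := ∃ w w1 a l E0, Obj mem w w1 a l E0 ∧
  MP_2e9c36_lc.IsAlg mem F l w ∧ ¬ ∃ N, IsSub mem N l ∧ MP_2e9c36_lc.Closed mem N F w ∧
    ∀ n x, App mem a n x → mem w1 x → ∃ d, MP_2e9c36_lc.IsSupBelow mem d N x ∧ mem d x ∧
      (mem n E → MP_2e9c36_lc.IsCof mem d w) ∧ (¬ mem n E → MP_2e9c36_lc.IsCof mem d w1)

instance ud_bad2 (i j : ℕ) : UD.{v} fun _ mem v => Bad2 mem (v i) (v j) := by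
  unfold Bad2 Obj; infer_instance

instance ud_sparse (i j : ℕ) : UD.{v} fun _ mem v => MP_2e9c36_lc.Sparse mem (v i) (v j) := by
  unfold MP_2e9c36_lc.Sparse; infer_instance

variable {M : Type v} [Zm M]

theorem max_principle2 [Fo M] [Countable M] (Q : ∀ M : Type v, (M → M → Prop) → M → M → Prop)
    [UD fun M mem v => Q M mem (v 0) (v 1)] (E : M)
    (h : ∀ U : Gen M, ∃ x, Q (Ext U) Ext.mem x (jj U E)) :
    ∃ a : M, ∀ U : Gen M, Q (Ext U) Ext.mem (val a U) (jj U E) := by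
  obtain ⟨B, hB⟩ : ∃ B : M → M → Prop, B = fun p a =>
    Forces p fun U => Q (Ext U) Ext.mem (val a U) (jj U E) := ⟨_, rfl⟩
  have dB : D2 B := ⟨by
    rw [hB]
    exact df_forces (fun M mem v => Q M mem (v 0) (v 1)) (fun v => v 0) (fun v => v 1)
      (fun _ => chk E) (fun v => v 1) fun v => v 1⟩
  obtain ⟨f, hf⟩ := chs' Fo.PP (fun p => ∃ a, B p a) B fun _ _ h => h
  obtain ⟨o, ho, ⟨e, e1, e2⟩, -⟩ := ex_card (Fo.PP : M)
  obtain ⟨L, hL⟩ : ∃ L : M → M → Prop, L = fun p a => p ≤ a ∧ (∃ b, B a b) ∧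
    ∀ c r, (∃ b, B c b) → r ≤ p → r ≤ c → Sub (ap e a) (ap e c) := ⟨_, rfl⟩
  have dL : D2 L := ⟨by rw [hL]; infer_instance⟩
  obtain ⟨X, hX, hX'⟩ := ex_tr (img Fo.PP fun p : M => ap f p)
  obtain ⟨F, -, hF⟩ := ex_name X fun r x => ∃ a, L r a ∧ ∃ s, op x s ∈ ap f a ∧ r ≤ s
  refine ⟨F, fun U => ?_⟩
  obtain ⟨r, hr, a, ha⟩ := U.meet (fun r => ∃ a, L r a) fun p hp => by
    obtain ⟨W, hW⟩ := ex_gen hp
    obtain ⟨x, hx⟩ := h W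
    obtain ⟨b, rfl⟩ := x.ex
    obtain ⟨c, hc, g⟩ := (cl_ud fun M mem v => Q M mem (v 0) (v 1)).truth
      (v := cons b fun _ => chk E) hx
    obtain ⟨r, -, r1, r2⟩ := W.dir hW hc
    obtain ⟨_, hi, ⟨a, rfl, g1, s, g2, g3⟩, g4⟩ := ex_least
      (fun i => ∃ a, ap e a = i ∧ (∃ b, B a b) ∧ ∃ r, r ≤ p ∧ r ≤ a)
      (ho.el (e1 c (W.mem hc))) ⟨c, rfl, ⟨b, hB ▸ g⟩, r, r1, r2⟩
    refine ⟨s, g2, a, ?_⟩
    rw [hL]
    exact ⟨g3, g1, fun c t k1 k2 k3 => hi.sub_of_not_mem (ho.el (e1 c (Fo.mem _ _ k3).2))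
      fun k => g4 _ k ⟨c, rfl, k1, t, ftr k2 g2, k3⟩⟩
  rw [hL] at ha hF
  have ua := U.up hr ha.1
  have g := hf a (U.mem ua) ha.2.1
  rw [hB] at g
  rw [show val F U = val (ap f a) U from Ext.ext _ _ fun z => (hF U z).trans (mem_val.trans
    ⟨fun ⟨x, s, g1, g2, g3⟩ => ?_, fun ⟨x, _, g1, t, g2, c, g3, s, g4, g5⟩ => ?_⟩).symm]
  · exact g U ua
  · obtain ⟨t, ht, t1, t2⟩ := U.dir hr g2
    exact ⟨x, hX.op_left (hX _ hX' _ (mem_img.2 ⟨a, U.mem ua, rfl⟩)) g1, g3, t, ht, a,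
      ⟨ftr t1 ha.1, ha.2.1, fun c u k1 k2 => ha.2.2 c u k1 (ftr k2 t1)⟩, s, g1, t2⟩
  · obtain ⟨u, -, u1, u2⟩ := U.dir hr g2
    obtain rfl := e2 a c (U.mem ua) (Fo.mem _ _ g3.1).2 ((ha.2.2 c u g3.2.1 u1 (ftr u2 g3.1)).antisymm
      (g3.2.2 a u ha.2.1 u2 (ftr u1 ha.1)))
    exact ⟨x, s, g4, U.up g2 g5, g1⟩

theorem funOn_app {f a x y : M} {V : M → Prop} (h : IsFunOn mm f a V) (e : App mm f x y) :
    x ∈ a ∧ V y :=
  let ⟨_, _, g1, g2⟩ := h.1 _ (app_iff.1 e)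
  let ⟨e1, e2⟩ := op_inj (isPair_iff.1 g1)
  e1 ▸ e2 ▸ g2

variable [NG M]

theorem Cf.sup {U : Gen M} {I q N t n p : M} {X : Ext U} (h : Cf I q N t n) (hn : n ∈ (kk : M))
    (hX : ∀ z, z ∈ X ↔ ∃ x, x ∈ (kk : M) ∧ z = jj U x ∧ ∃ p, U.G p ∧ p ≤ q ∧ op (ps p) x ∈ N)
    (nm : ∀ p r x, r ≤ p → op (ps p) x ∈ N → op (ps r) x ∈ N) (hp : U.G p) (h1 : p ≤ q)
    (h2 : Sub t (ps p)) (h3 : ∀ i, i ∈ jj U I → suc i ∈ jj U I)
    (h4 : ∀ b g, b ∈ jj U I → (∀ x, x ∈ b → ap g x ∈ jj U I) →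
      ∃ z, z ∈ jj U I ∧ ∀ x, x ∈ b → ap g x ∈ z) :
    ∃ d, MP_2e9c36_lc.IsSupBelow mm d X (jj U n) ∧ d ∈ jj U n ∧
      MP_2e9c36_lc.IsCof mm d (jj U I) := by
  obtain ⟨f, f1, ⟨z, z1, z2⟩, f2⟩ := h
  have o := (od_k.el hn).el z1
  have o' : Od (bUn I fun i => ap f i) := od_bUn fun i hi => o.el (z2 i hi)
  refine ⟨jj U (bUn I fun i => ap f i), fun x => ⟨fun hx => ?_, fun ⟨y, g1, g2, g3⟩ => ?_⟩,
    jj_mem.2 (o'.mem_of_sub (od_k.el hn) (fun x hx => let ⟨i, hi, g⟩ := mem_bUn.1 hx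
      o.tr (z2 i hi) g) z1), isCof_of (f := jj U f) h3 h4 (fun i j hj hi => ?_) (jj_od o')
        fun x => ⟨fun hx => ?_, fun ⟨i, hi, hx⟩ => ?_⟩⟩
  · obtain ⟨x, hx', rfl⟩ := mem_jj.1 hx
    obtain ⟨i, hi, g⟩ := mem_bUn.1 hx'
    obtain ⟨r, r1, r2, r3⟩ := U.below (fun r => op (ps r) (ap f i) ∈ N) hp fun r hr =>
      (f2 r (ftr hr h1) (h2.trans (le_s hr))).2 i hi
    have k := (od_k.el hn).tr z1 (z2 i hi)
    exact ⟨_, (hX _).2 ⟨_, od_k.tr hn k, rfl, r, r1, ftr r2 h1, r3⟩, jj_mem.2 k, jj_mem.2 g⟩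
  · obtain ⟨y, -, rfl, r, r1, -, r3⟩ := (hX _).1 g1
    obtain ⟨s, -, s1, s2⟩ := U.dir hp r1
    obtain ⟨i, hi, g⟩ := (f2 s (ftr s1 h1) (h2.trans (le_s s1))).1 y (jj_mem.1 g2) (nm r s y s2 r3)
    exact jj_sub.2 (fun w hw => mem_bUn.2 ⟨i, hi, (o.el (z2 i hi)).tr g hw⟩) x g3
  · obtain ⟨j, hj', rfl⟩ := mem_jj.1 hj
    obtain ⟨i, hi', rfl⟩ := mem_jj.1 hi
    rw [← jj_ap, ← jj_ap]
    exact jj_mem.2 (f1 i j hj' hi')
  · obtain ⟨x, hx', rfl⟩ := mem_jj.1 hx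
    obtain ⟨i, hi, g⟩ := mem_bUn.1 hx'
    exact ⟨_, jj_mem.2 hi, jj_ap (U := U) f i ▸ jj_mem.2 g⟩
  · obtain ⟨i, hi', rfl⟩ := mem_jj.1 hi
    rw [← jj_ap] at hx
    exact jj_sub.2 (fun w hw => mem_bUn.2 ⟨i, hi', hw⟩) x hx

/-- `p` forces that the `j`-th function of `F` sends `x` to `y` -/
def FA2 (F j x y p : M) : Prop :=
  Forces p fun U => ∃ g, App Ext.mem (val F U) (jj U j) g ∧ App Ext.mem g (jj U x) (jj U y)

instance [Countable M] (F : M) : D4 (FA2 F) :=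
  ⟨df_forces (fun _ mem v => ∃ g, App mem (v 0) (v 1) g ∧ App mem g (v 2) (v 3)) (fun v => v 3)
    (fun _ => F) (fun v => chk (v 0)) (fun v => chk (v 1)) fun v => chk (v 2)⟩

theorem ex_mutStat [Countable M] : ∃ (U : Gen M) (w w1 a l E : Ext U), Obj mm w w1 a l E ∧
    MP_2e9c36_lc.MutStat mm w w1 a l (jj U NG.E) := by
  by_contra hn
  obtain ⟨F, hF⟩ := max_principle2 (M := M) (fun _ mem x y => Bad2 mem x y) NG.E fun U => by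
    obtain ⟨w, w1, a, l, E, h⟩ := ex_obj (M := Ext U)
    by_contra k
    exact hn ⟨U, w, w1, a, l, E, h, fun F g => not_not.1 fun g' => k ⟨F, w, w1, a, l, E, h, g, g'⟩⟩
  obtain ⟨q, N, hq, -, nm, h1, h2⟩ := main_comb (E := FA2 F)
    (fun _ _ _ _ _ e h => Forces.mono h e) fun j x p hj hx hp => ex_force
      (fun _ mem v => ∃ g, App mem (v 0) (v 1) g ∧ App mem g (v 2) (v 3)) hp
      (fun y => cons F (cons (chk j) (cons (chk x) fun _ => chk y))) fun U _ => by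
        obtain ⟨w, w1, a, l, E, h, g, -⟩ := hF U
        obtain rfl := sup_eq h
        obtain rfl := h.spec.1
        obtain ⟨f, g1⟩ := g.2.1 _ (jj_om (U := U) ▸ jj_mem.2 hj : jj U j ∈ om)
        obtain ⟨Q, g2, g3⟩ := (funOn_app g g1).2
        have g4 := (g2 _).2 (isSeq_iff.2 (jj_Sq hx))
        obtain ⟨y, hy, e⟩ := mem_jj.1 (fun_mem g3 g4)
        exact ⟨y, hy, f, g1, (fun_app g3).2 ⟨g4, e.symm⟩⟩
  obtain ⟨U, hU⟩ := ex_gen hq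
  obtain ⟨X, hX⟩ := ex_gset U kk fun p x => p ≤ q ∧ op (ps p) x ∈ N
  obtain ⟨w, w1, a, l, E, h, g, k⟩ := hF U
  obtain rfl := sup_eq h
  obtain ⟨rfl, rfl, -⟩ := h.spec
  refine k ⟨X, fun z hz => let ⟨_, g1, g2, _⟩ := (hX z).1 hz; g2 ▸ jj_mem.2 g1,
    fun i f s y g1 g2 g3 => ?_, fun n x g1 g2 => ?_⟩
  · obtain ⟨g4, Q, -, g5⟩ := funOn_app g g1
    obtain ⟨j, hj, rfl⟩ := mem_jj.1 (jj_om (U := U) ▸ g4 : i ∈ jj U om)
    obtain ⟨t, ht, rfl, p, hp, e⟩ := seq_jj (fun p x => op (ps p) x ∈ N) (fun p r x => nm p r x)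
      (fun z hz => let ⟨x, k1, k2, p, k3, _, k4⟩ := (hX z).1 hz; ⟨x, k1, k2, p, k3, k4⟩)
      (isSeq_iff.1 g2)
    obtain ⟨r, r1, r2, z, r3, f', r4, r5⟩ : ∃ r, U.G r ∧ r ≤ q ∧ ∃ z, op (ps r) z ∈ N ∧ ∃ g,
        App Ext.mem (val F U) (jj U j) g ∧ App Ext.mem g (jj U t) (jj U z) := by
      obtain ⟨s, s1, s2, s3⟩ := U.dir hp hU
      obtain ⟨r, r1, r2, z, r3, r4⟩ := U.below (fun r => ∃ z, op (ps r) z ∈ N ∧ FA2 F j t z r) s1
        fun r hr => h1 r j t (ftr hr s3) hj ht fun i hi => nm p r _ (ftr hr s2) (e i hi)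
      exact ⟨r, r1, ftr r2 s3, z, r3, r4 U r1⟩
    obtain rfl := g.2.2 _ _ _ g1 r4
    rw [g5.2.2 _ _ _ g3 r5]
    exact (hX _).2 ⟨z, jj_mem.1 (funOn_app g5 r5).2, rfl, r, r1, r2, r3⟩
  · obtain ⟨p, t, hp, t1, t2, e⟩ := aleph_cases h (app_iff.1 g1) g2
    obtain ⟨s, s1, s2, s3⟩ := U.dir hp hU
    have t3 := t2.trans (le_s s2)
    rcases e with ⟨e1, rfl⟩ | ⟨e1, e, he, rfl⟩
    · obtain ⟨d, d1, d2, d3⟩ := ((h2 s t s3 t1 t3).1 (jj_mem.1 ((sc_om U).1 ▸ g2))).sup (tp_mem_k t1) hX nm s1 s3 t3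
        (by rw [jj_om]; exact fun _ => suc_mem_om) (by rw [jj_om]; exact reg_om)
      exact ⟨d, d1, d2, fun _ => jj_om (U := U) ▸ d3, fun k => absurd e1 k⟩
    · obtain ⟨d, d1, d2, d3⟩ := ((h2 s t s3 t1 t3).2 e he).sup (sc_mem_k (ph_tp e t1).1) hX nm s1 s3
        t3 (by rw [← (sc_om U).1]; exact fun _ => io_om.suc_mem)
        (by rw [← (sc_om U).1]; exact reg_sc)
      exact ⟨d, d1, d2, fun k => absurd k e1, fun _ => (sc_om U).1 ▸ d3⟩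

omit [Zm M] [NG M] in
theorem elem_iff {mem : M → M → Prop} {S : Set M} (h : MP_2e9c36_lc.IsElem mem S)
    (P : ∀ M : Type v, (M → M → Prop) → (ℕ → M) → Prop) [UD P] (v : ℕ → S) :
    P S (fun a b : S => mem a b) v ↔ P M mem fun i => v i :=
  let ⟨φ, hφ⟩ := UD.fml P
  (hφ _ _ _).symm.trans ((h φ v).trans (hφ _ _ _))

omit [Zm M] [NG M] in
theorem elem_zfc {mem : M → M → Prop} {S : Set M} (h3 : MP_2e9c36_lc.IsElem mem S) (h : IsZFC mem)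
    (k : S) : IsZFC fun a b : S => mem a b := by
  have tr : ∀ (P : ∀ M : Type v, (M → M → Prop) → (ℕ → M) → Prop) [UD P] (v : ℕ → S),
      P M mem (fun i => v i) → P S (fun a b : S => mem a b) v := fun P _ v hP =>
    (elem_iff h3 P v).2 hP
  let v0 : ℕ → S := fun _ => k
  refine ⟨?_, ?_, ?_, ?_, ?_, ?_, fun φ v a => ?_, fun φ v a => ?_, ?_⟩
  · exact tr (fun _ mem _ => ∀ a b, (∀ x, mem x a ↔ mem x b) → a = b) v0 h.ext
  · exact tr (fun _ mem _ => ∀ a, (∃ x, mem x a) → ∃ x, mem x a ∧ ∀ y, mem y x → ¬ mem y a) v0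
      h.found
  · exact tr (fun _ mem _ => ∀ a b, ∃ c, ∀ x, mem x c ↔ x = a ∨ x = b) v0 h.pair
  · exact tr (fun _ mem _ => ∀ a, ∃ c, ∀ x, mem x c ↔ ∃ y, mem y a ∧ mem x y) v0 h.union
  · exact tr (fun _ mem _ => ∀ a, ∃ c, ∀ x, mem x c ↔ ∀ y, mem y x → mem y a) v0 h.power
  · exact tr (fun _ mem _ => ∃ w, (∃ e, mem e w ∧ ∀ x, ¬ mem x e) ∧
      ∀ x, mem x w → ∃ y, mem y w ∧ ∀ z, mem z y ↔ mem z x ∨ z = x) v0 h.inf
  · have u : UD.{v} fun M mem w =>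
        Sat mem φ (Function.update (fun n => w (n + 1 + 1 + 1)) 0 (w 0)) :=
      ((ud_sat φ).ren fun n => if n = 0 then 0 else n + 3).congr fun M mem v => by
        apply Iff.of_eq
        congr 1
        funext n
        by_cases e : n = 0 <;> simp [e]
    exact tr (fun _ mem w => ∃ b, ∀ x, mem x b ↔ mem x (w 0) ∧
      Sat mem φ (Function.update (fun n => w (n + 1)) 0 x)) (cons a v) (h.sep φ _ _)
  · have u : ∀ i j k : ℕ, UD.{v} fun M mem w => Sat mem φ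
        (Function.update (Function.update (fun n => w (n + k)) 0 (w i)) 1 (w j)) := fun i j k =>
      ((ud_sat φ).ren fun n => if n = 1 then j else if n = 0 then i else n + k).congr
        fun M mem v => by
          apply Iff.of_eq
          congr 1
          funext n
          by_cases e : n = 1
          · simp [e]
          · by_cases e' : n = 0 <;> simp [e, e']
    have u1 : UD.{v} fun M mem w => Sat mem φ (Function.update (Function.update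
      (fun n => w (n + 1 + 1 + 1)) 0 (w (0 + 1))) 1 (w 0)) := u 1 0 3
    have u2 : UD.{v} fun M mem w => Sat mem φ (Function.update (Function.update
      (fun n => w (n + 1 + 1 + 1 + 1)) 0 (w 0)) 1 (w (0 + 1))) := u 0 1 4
    exact tr (fun _ mem w => (∀ x, mem x (w 0) → ∃! y, Sat mem φ (Function.update
      (Function.update (fun n => w (n + 1)) 0 x) 1 y)) → ∃ b, ∀ y, mem y b ↔ ∃ x, mem x (w 0) ∧
        Sat mem φ (Function.update (Function.update (fun n => w (n + 1)) 0 x) 1 y)) (cons a v)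
      (h.repl φ _ _)
  · exact tr (fun _ mem _ => ∀ a, (∀ x, mem x a → ∃ z, mem z x) →
      (∀ x y z, mem x a → mem y a → mem z x → mem z y → x = y) →
      ∃ c, ∀ x, mem x a → ∃! z, mem z x ∧ mem z c) v0 h.choice

omit [NG M] in
theorem ex_ng [W : NM M] {E : M} (h : MP_2e9c36_lc.Sparse mm E om) : ∃ V : NG M, V.E = E := by
  obtain ⟨h1, h2, h3⟩ := h
  obtain ⟨e, b, e1, e2, e3⟩ : ∃ e b : M, e ∈ (om : M) ∧ suc e ∉ E ∧ ((b = om ∧ e = suc emp) ∨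
      (b = sc om ∧ e = suc (suc emp) ∧ suc (suc emp) ∈ E)) := by
    by_cases g : suc (suc emp) ∈ E
    · exact ⟨_, _, h1 _ g, h3 _ _ (isSucc_iff.2 rfl) g, Or.inr ⟨rfl, rfl, g⟩⟩
    · exact ⟨_, _, suc_mem_om emp_mem_om, g, Or.inl ⟨rfl, rfl⟩⟩
  obtain ⟨F, -, -, hF⟩ := ex_rec om (fun i f y => suc y ∉ E ∧ (i = emp → y = e) ∧
      ∀ j, i = suc j → y ∈ E ∧ ap f j ∈ y ∧ ∀ m, ap f j ∈ m → m ∈ y → m ∉ E) od_om
    fun i f hi _ _ g => by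
      rcases om_cases' hi with rfl | ⟨j, hj, rfl⟩
      · exact ⟨e, e1, e2, fun _ => rfl, fun j k => (suc_ne_emp _ k.symm).elim⟩
      · obtain ⟨m, m1, m2⟩ := h2 _ (g j (self_mem_suc j)).1
        obtain ⟨y, -, ⟨y1, y2⟩, y3⟩ := ex_least (fun y => y ∈ E ∧ ap f j ∈ y) (od_om.el (h1 _ m1))
          ⟨m1, m2⟩
        exact ⟨y, h1 _ y1, h3 _ _ (isSucc_iff.2 rfl) y1, fun k => (suc_ne_emp _ k).elim,
          fun j' k => suc_inj (od_om.el hj) k ▸ ⟨y1, y2, fun m k1 k2 k3 => y3 m k2 ⟨k3, k1⟩⟩⟩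
  have st : ∀ j, j ∈ (om : M) → ap F (suc j) ∈ E ∧ ap F j ∈ ap F (suc j) ∧
      ∀ m, ap F j ∈ m → m ∈ ap F (suc j) → m ∉ E := fun j hj => by
    have := (hF _ (suc_mem_om hj)).2.2.2 j rfl
    rwa [ap_res _ (self_mem_suc j)] at this
  refine ⟨{ W with
    en := F, en_mem := fun j hj => (hF j hj).1, en_gap := fun j hj => ?_, E := E,
    en_E := fun j hj => (st j hj).1, en_lt := fun j m hj => (st j hj).2.2 m, bz := b,
    base := ((hF _ emp_mem_om).2.2.1 rfl).symm ▸ e3 }, rfl⟩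
  have o := od_om.el (hF _ (suc_mem_om hj)).1
  exact (mem_suc.1 ((od_om.el (hF j hj).1).suc.mem_suc o (o.suc_sub (st j hj).2.1))).resolve_right
    fun k => (hF j hj).2.1 (k ▸ (st j hj).1)

omit [Zm M] [NG M] in
theorem _root_.Pool.Agent.P.MP_5f3b23_lc.Zf.sparse_pattern (mem : M → M → Prop) (h : IsZFC mem) {k w E : M}
    (hk : MP_2e9c36_lc.IsMeasurable mem k) (hw : IsOmega mem w)
    (hE : MP_2e9c36_lc.Sparse mem E w) :
    ∃ (S : Set M) (N : Type v) (mem' : N → N → Prop) (j : M → N), w ∈ S ∧ E ∈ S ∧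
      MP_2e9c36_lc.IsElem mem S ∧ IsZFC mem' ∧ MP_2e9c36_lc.IsEndExt mem S mem' j ∧
      ∃ w1 a l : N, IsOmega mem' (j w) ∧ MP_2e9c36_lc.IsSuccCard mem' w1 (j w) ∧
        MP_2e9c36_lc.IsAleph mem' a (j w) ∧ MP_2e9c36_lc.IsSupRange mem' l a ∧
        MP_2e9c36_lc.MutStat mem' (j w) w1 a l (j E) := by
  classical
  obtain ⟨S, s1, s2, s3, s4, s5⟩ : ∃ S : Set M, S.Countable ∧ k ∈ S ∧ w ∈ S ∧ E ∈ S ∧
      MP_2e9c36_lc.IsElem mem S := by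
    let _ : Zm M := { mem := fun a x => mem x a, zfc := h }
    obtain ⟨S, s1, s2, s3⟩ := ex_elem mem (op k (op w E))
    have pr : ∀ x y, op x y ∈ S → x ∈ S ∧ y ∈ S := fun x y g => by
      obtain ⟨a, b, e⟩ := (elem_iff s3 (fun _ mem v => ∃ a b, IsPair mem (v 0) a b)
        fun _ => ⟨_, g⟩).2 ⟨x, y, isPair_iff.2 rfl⟩
      obtain ⟨e1, e2⟩ : x = a ∧ y = b := op_inj (isPair_iff.1 ((elem_iff s3
        (fun _ mem v => IsPair mem (v 0) (v 1) (v 2)) (cons ⟨_, g⟩ (cons a fun _ => b))).1 e))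
      exact ⟨e1 ▸ a.2, e2 ▸ b.2⟩
    exact ⟨S, s1, (pr _ _ s2).1, (pr _ _ (pr _ _ s2).2).1, (pr _ _ (pr _ _ s2).2).2, s3⟩
  have := s1.to_subtype
  let _ : Zm S := { mem := fun a x => mem x a, zfc := elem_zfc s5 h ⟨k, s2⟩ }
  obtain ⟨_⟩ := ex_ms (M := S) (k := ⟨k, s2⟩)
    ((elem_iff s5 (fun _ mem v => MP_2e9c36_lc.IsMeasurable mem (v 0)) fun _ => ⟨k, s2⟩).2 hk)
  obtain ⟨_⟩ := ex_nm (M := S)
  have e : (⟨w, s3⟩ : S) = om := isOmega_iff.1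
    ((elem_iff s5 (fun _ mem v => IsOmega mem (v 0)) fun _ => ⟨w, s3⟩).2 hw)
  obtain ⟨V, hV⟩ := ex_ng (M := S) (E := ⟨E, s4⟩) (e ▸ (elem_iff s5
    (fun _ mem v => MP_2e9c36_lc.Sparse mem (v 0) (v 1)) (cons ⟨E, s4⟩ fun _ => ⟨w, s3⟩)).2 hE)
  obtain ⟨U, w', w1, a, l, E0, g1, g2⟩ := ex_mutStat (M := S)
  obtain ⟨j, hj⟩ : ∃ j : M → Ext U, ∀ x (hx : x ∈ S), j x = jj U ⟨x, hx⟩ :=
    ⟨fun x => if hx : x ∈ S then jj U ⟨x, hx⟩ else emp, fun x hx => dif_pos hx⟩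
  have e1 : j w = w' := by rw [hj w s3, e, jj_om, g1.spec.1]
  refine ⟨S, Ext U, mm, j, s3, s4, s5, ext_isZFC U, ⟨fun x hx y hy => ?_, fun y hy z hz => ?_⟩,
    w1, a, l, ?_⟩
  · rw [hj x hx, hj y hy]
    exact jj_mem
  · rw [hj y hy] at hz
    obtain ⟨x, -, rfl⟩ := mem_jj.1 hz
    exact ⟨x, x.2, (hj x x.2).symm⟩
  · rw [e1, hj E s4, ← hV]
    exact ⟨g1.1, g1.2.1, g1.2.2.1, g1.2.2.2.1, g2⟩

end Pool.Agent.P.MP_5f3b23_lc.Zf.G.Pool.Agent.P.MP_5f3b23_lc.Zf
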