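import Pool.Agent.P.MP_2e9c36_lc.YRank

set_option autoImplicit false

/-! Forcing over a model of ZFC: forced equality, generic filters, the truth lemma. -/

open Pool.Agent.Lib.PosetForcing

namespace Pool.Agent.P.MP_5f3b23_lc.Zf

universe v

/-- a forcing notion in the model -/
class Fo (M : Type v) [Zm M] extends LE M where
  /-- the set of conditions -/
  PP : M
  /-- the weakest condition -/
  top : M
  df : D2 fun p q : M => p ≤ q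
  mem : ∀ p q : M, p ≤ q → p ∈ PP ∧ q ∈ PP
  refl : ∀ p : M, p ∈ PP → p ≤ p
  trans : ∀ p q r : M, p ≤ q → q ≤ r → p ≤ r
  le_top : ∀ p : M, p ∈ PP → p ≤ top
  ne : ∃ p : M, p ∈ PP

variable {M : Type v} [Zm M] [Fo M]

instance df_fle (a b : (ℕ → M) → M) [Tm a] [Tm b] : Df fun v => a v ≤ b v :=
  Fo.df.out.comp2 a b

theorem ftr {p q r : M} (h : p ≤ q) (h' : q ≤ r) : p ≤ r := Fo.trans p q r h h'

theorem frl {p q : M} (h : p ≤ q) : p ≤ p := Fo.refl p (Fo.mem p q h).1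

theorem ftop {p q : M} (h : p ≤ q) : p ≤ Fo.top := Fo.le_top p (Fo.mem p q h).1

/-- `R` holds densely below `p` -/
def Dn (R : M → Prop) (p : M) : Prop := ∀ q, q ≤ p → ∃ r, r ≤ q ∧ R r

instance df_dn (R : M → (ℕ → M) → Prop) (a : (ℕ → M) → M) [Tm a]
    [h : Df fun v => R (v 0) fun i => v (i + 1)] : Df fun v => Dn (fun r => R r v) (a v) := by
  have h1 : Df fun v : ℕ → M => R (v 0) fun i => v (i + 1 + 1) :=
    ⟨h.out.ren fun i => Nat.casesOn i 0 fun j => j + 2⟩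
  unfold Dn; infer_instance

theorem Dn.mono {R : M → Prop} {p q : M} (h : Dn R p) (hq : q ≤ p) : Dn R q :=
  fun r hr => h r (ftr hr hq)

theorem Dn.imp {R S : M → Prop} {p : M} (h : Dn R p) (e : ∀ r, r ≤ p → R r → S r) : Dn S p :=
  fun q hq => let ⟨r, hr, g⟩ := h q hq; ⟨r, hr, e r (ftr hr hq) g⟩

/-- one step of the definition of forced equality -/
def Bis (S : M → M → M → Prop) (a b p : M) : Prop :=
  (∀ x s, op x s ∈ a → ∀ q, q ≤ p → q ≤ s → ∃ r, r ≤ q ∧ ∃ y t, op y t ∈ b ∧ r ≤ t ∧ S x y r) ∧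
  (∀ y t, op y t ∈ b → ∀ q, q ≤ p → q ≤ t → ∃ r, r ≤ q ∧ ∃ x s, op x s ∈ a ∧ r ≤ s ∧ S x y r)

/-- forced equality -/
def FEq (a b p : M) : Prop := ∃ S : M, op a (op b p) ∈ S ∧
  ∀ a b p, op a (op b p) ∈ S → Bis (fun x y z => op x (op y z) ∈ S) a b p

instance df_fEq (a b c : (ℕ → M) → M) [Tm a] [Tm b] [Tm c] :
    Df fun v => FEq (a v) (b v) (c v) := by
  unfold FEq Bis; infer_instance

omit [Fo M] in
theorem Tr.op_left {X a x s : M} (hX : Tr X) (ha : a ∈ X) (h : op x s ∈ a) : x ∈ X :=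
  hX _ (hX _ (hX a ha _ h) _ (mem_upair.2 (Or.inl rfl))) _ (mem_upair.2 (Or.inl rfl))

theorem fEq_coind (R : M → M → M → Prop) [D3 R] (h : ∀ a b p, R a b p → Bis R a b p) {a b p : M}
    (e : R a b p) : FEq a b p := by
  obtain ⟨X, hX, h0⟩ := ex_tr (upair a b)
  have k : ∀ x y z, op x (op y z) ∈ (sep (prd X (prd X (ins p Fo.PP))) fun z =>
      R (fst z) (fst (snd z)) (snd (snd z))) ↔ (x ∈ X ∧ y ∈ X ∧ z ∈ ins p Fo.PP) ∧ R x y z :=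
    fun x y z => by simp only [mem_sep, op_mem_prd, fst_op, snd_op]
  refine ⟨_, (k a b p).2 ⟨⟨hX _ h0 _ (mem_upair.2 (Or.inl rfl)), hX _ h0 _
    (mem_upair.2 (Or.inr rfl)), mem_ins.2 (Or.inr rfl)⟩, e⟩, fun a b p g => ?_⟩
  obtain ⟨⟨ha, hb, -⟩, g⟩ := (k a b p).1 g
  refine ⟨fun x s h1 q h2 h3 => ?_, fun y t h1 q h2 h3 => ?_⟩
  · obtain ⟨r, h4, y, t, h5, h6, h7⟩ := (h a b p g).1 x s h1 q h2 h3
    exact ⟨r, h4, y, t, h5, h6, (k _ _ _).2 ⟨⟨hX.op_left ha h1, hX.op_left hb h5,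
      mem_ins.2 (Or.inl (Fo.mem _ _ h4).1)⟩, h7⟩⟩
  · obtain ⟨r, h4, x, s, h5, h6, h7⟩ := (h a b p g).2 y t h1 q h2 h3
    exact ⟨r, h4, x, s, h5, h6, (k _ _ _).2 ⟨⟨hX.op_left ha h5, hX.op_left hb h1,
      mem_ins.2 (Or.inl (Fo.mem _ _ h4).1)⟩, h7⟩⟩

theorem Bis.mono {S T : M → M → M → Prop} {a b p : M} (h : Bis S a b p)
    (e : ∀ x y z, S x y z → T x y z) : Bis T a b p :=
  ⟨fun x s h1 q h2 h3 => let ⟨r, h4, y, t, h5, h6, h7⟩ := h.1 x s h1 q h2 h3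
    ⟨r, h4, y, t, h5, h6, e _ _ _ h7⟩,
   fun y t h1 q h2 h3 => let ⟨r, h4, x, s, h5, h6, h7⟩ := h.2 y t h1 q h2 h3
    ⟨r, h4, x, s, h5, h6, e _ _ _ h7⟩⟩

theorem FEq.bis {a b p : M} (h : FEq a b p) : Bis FEq a b p :=
  let ⟨S, h1, h2⟩ := h
  (h2 a b p h1).mono fun _ _ _ g => ⟨S, g, h2⟩

theorem Bis.fEq {a b p : M} (h : Bis FEq a b p) : FEq a b p := by
  have : D3 (Bis (FEq (M := M))) := ⟨by unfold Bis; infer_instance⟩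
  exact fEq_coind (Bis FEq) (fun _ _ _ g => g.mono fun _ _ _ => FEq.bis) h

theorem FEq.mono {a b p q : M} (h : FEq a b p) (hq : q ≤ p) : FEq a b q :=
  Bis.fEq ⟨fun x s h1 r h2 => h.bis.1 x s h1 r (ftr h2 hq),
    fun x s h1 r h2 => h.bis.2 x s h1 r (ftr h2 hq)⟩

theorem FEq.refl (a p : M) : FEq a a p :=
  fEq_coind (fun a b _ => a = b) (fun _ _ _ e => e ▸
    ⟨fun x s h1 q h2 h3 => ⟨q, frl h2, x, s, h1, h3, rfl⟩,
     fun x s h1 q h2 h3 => ⟨q, frl h2, x, s, h1, h3, rfl⟩⟩) rfl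

theorem FEq.symm {a b p : M} (h : FEq a b p) : FEq b a p :=
  fEq_coind (fun a b p => FEq b a p) (fun _ _ _ e => ⟨e.bis.2, e.bis.1⟩) h

theorem FEq.trans {a b c p : M} (h : FEq a b p) (h' : FEq b c p) : FEq a c p := by
  refine fEq_coind (fun a c p => ∃ b, FEq a b p ∧ FEq b c p) (fun a c p ⟨b, g1, g2⟩ =>
    ⟨fun x s h1 q h2 h3 => ?_, fun z u h1 q h2 h3 => ?_⟩) ⟨b, h, h'⟩
  · obtain ⟨r, h4, y, t, h5, h6, h7⟩ := g1.bis.1 x s h1 q h2 h3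
    obtain ⟨r', k4, z, u, k5, k6, k7⟩ := g2.bis.1 y t h5 r (ftr h4 h2) h6
    exact ⟨r', ftr k4 h4, z, u, k5, k6, y, h7.mono k4, k7⟩
  · obtain ⟨r, h4, y, t, h5, h6, h7⟩ := g2.bis.2 z u h1 q h2 h3
    obtain ⟨r', k4, x, s, k5, k6, k7⟩ := g1.bis.2 y t h5 r (ftr h4 h2) h6
    exact ⟨r', ftr k4 h4, x, s, k5, k6, y, k7, h7.mono k4⟩

variable (M) in
/-- generic filters -/
structure Gen where
  /-- the filter -/
  G : M → Prop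
  mem : ∀ {p}, G p → p ∈ (Fo.PP : M)
  up : ∀ {p q}, G p → p ≤ q → G q
  dir : ∀ {p q}, G p → G q → ∃ r, G r ∧ r ≤ p ∧ r ≤ q
  gen : ∀ D : M, (∀ p, p ∈ (Fo.PP : M) → ∃ q, q ≤ p ∧ q ∈ D) → ∃ q, G q ∧ q ∈ D

theorem Gen.meet (U : Gen M) (R : M → Prop) [D1 R]
    (h : ∀ p, p ∈ (Fo.PP : M) → ∃ q, q ≤ p ∧ R q) : ∃ q, U.G q ∧ R q :=
  let ⟨q, h1, h2⟩ := U.gen (sep Fo.PP R) fun p hp =>
    let ⟨q, g1, g2⟩ := h p hp; ⟨q, g1, mem_sep.2 ⟨(Fo.mem _ _ g1).1, g2⟩⟩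
  ⟨q, h1, (mem_sep.1 h2).2⟩

theorem Gen.below (U : Gen M) (R : M → Prop) [D1 R] {p : M} (hp : U.G p) (h : Dn R p) :
    ∃ q, U.G q ∧ q ≤ p ∧ R q := by
  obtain ⟨q, h1, h2 | h2⟩ := U.meet (fun q => (q ≤ p ∧ R q) ∨ ¬ ∃ r, r ≤ q ∧ r ≤ p) fun q hq => by
    by_cases g : ∃ r, r ≤ q ∧ r ≤ p
    · obtain ⟨r, g1, g2⟩ := g
      obtain ⟨s, g3, g4⟩ := h r g2
      exact ⟨s, ftr g3 g1, Or.inl ⟨ftr g3 g2, g4⟩⟩
    · exact ⟨q, Fo.refl q hq, Or.inr g⟩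
  · exact ⟨q, h1, h2⟩
  · obtain ⟨r, -, g⟩ := U.dir h1 hp
    exact (h2 ⟨r, g⟩).elim

theorem Gen.top (U : Gen M) : U.G Fo.top :=
  let ⟨q, h, _⟩ := U.meet (fun _ => True) fun p hp => ⟨p, Fo.refl p hp, trivial⟩
  U.up h (Fo.le_top q (U.mem h))

theorem Gen.rfl (U : Gen M) {p : M} (h : U.G p) : p ≤ p := Fo.refl p (U.mem h)

theorem Gen.least (U : Gen M) (R : M → M → Prop) [D2 R] {a p : M} (ha : Od a) (hp : U.G p)
    (h : R p a) : ∃ b q, Od b ∧ U.G q ∧ (∃ s, q ≤ s ∧ R s b) ∧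
      ∀ c, c ∈ b → ∀ r, r ≤ q → ∀ s, r ≤ s → ¬ R s c := by
  obtain ⟨q, h1, -, b, h2⟩ := U.below (fun q => ∃ b, Od b ∧ (∃ s, q ≤ s ∧ R s b) ∧
      ∀ c, c ∈ b → ∀ r, r ≤ q → ∀ s, r ≤ s → ¬ R s c) hp fun q hq => by
    obtain ⟨b, hb, ⟨r, g1, g2⟩, g3⟩ :=
      ex_least (fun b => ∃ r, r ≤ q ∧ ∃ s, r ≤ s ∧ R s b) ha ⟨q, frl hq, p, hq, h⟩
    exact ⟨r, g1, b, hb, g2, fun c hc r' k1 s k2 k3 => g3 c hc ⟨r', ftr k1 g1, s, k2, k3⟩⟩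
  exact ⟨b, q, h2.1, h1, h2.2⟩

theorem ex_gen [Countable M] {p : M} (hp : p ∈ (Fo.PP : M)) : ∃ U : Gen M, U.G p := by
  obtain ⟨e, he⟩ := exists_surjective_nat M
  have h1 : ∀ (n : ℕ) (q : {q : M // q ∈ (Fo.PP : M)}), ∃ r : {q : M // q ∈ (Fo.PP : M)},
      r.1 ≤ q.1 ∧ ((∃ s, s ≤ q.1 ∧ s ∈ e n) → r.1 ∈ e n) := fun n q => by
    by_cases h : ∃ s, s ≤ q.1 ∧ s ∈ e n
    · obtain ⟨s, g1, g2⟩ := h
      exact ⟨⟨s, (Fo.mem _ _ g1).1⟩, g1, fun _ => g2⟩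
    · exact ⟨q, Fo.refl _ q.2, fun g => absurd g h⟩
  choose g g1 g2 using h1
  let x : ℕ → {q : M // q ∈ (Fo.PP : M)} := fun n => Nat.rec ⟨p, hp⟩ g n
  have h2 : ∀ m n, m ≤ n → (x n).1 ≤ (x m).1 := fun m n h => by
    induction h with
    | refl => exact Fo.refl _ (x m).2
    | step _ ih => exact ftr (g1 _ _) ih
  refine ⟨⟨fun q => ∃ n, (x n).1 ≤ q, fun ⟨_, h⟩ => (Fo.mem _ _ h).2,
    fun ⟨n, h⟩ h' => ⟨n, ftr h h'⟩, fun ⟨m, h⟩ ⟨n, h'⟩ => ⟨_, ⟨max m n, Fo.refl _ (x _).2⟩,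
      ftr (h2 _ _ (le_max_left _ _)) h, ftr (h2 _ _ (le_max_right _ _)) h'⟩, fun D hD => ?_⟩,
    0, Fo.refl p hp⟩
  obtain ⟨n, rfl⟩ := he D
  exact ⟨_, ⟨n + 1, Fo.refl _ (x (n + 1)).2⟩, g2 n (x n) (hD _ (x n).2)⟩

/-- names with the same value -/
def Gen.setoid (U : Gen M) : Setoid M where
  r a b := ∃ p, U.G p ∧ FEq a b p
  iseqv :=
    { refl := fun a => ⟨_, U.top, FEq.refl a _⟩
      symm := fun ⟨p, h1, h2⟩ => ⟨p, h1, h2.symm⟩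
      trans := fun ⟨_, h1, h2⟩ ⟨_, g1, g2⟩ =>
        let ⟨r, k1, k2, k3⟩ := U.dir h1 g1
        ⟨r, k1, (h2.mono k2).trans (g2.mono k3)⟩ }

/-- the generic extension -/
def Ext (U : Gen M) : Type v := Quotient U.setoid

/-- the value of a name -/
def val (a : M) (U : Gen M) : Ext U := Quotient.mk U.setoid a

theorem val_eq {U : Gen M} {a b : M} : val a U = val b U ↔ ∃ p, U.G p ∧ FEq a b p :=
  Quotient.eq (r := U.setoid)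

theorem Ext.ex {U : Gen M} (x : Ext U) : ∃ a, val a U = x := Quotient.exists_rep x

theorem val_move {U : Gen M} {b b' x s : M} (h : val b U = val b' U) (h1 : op x s ∈ b)
    (h2 : U.G s) : ∃ y t, op y t ∈ b' ∧ U.G t ∧ val x U = val y U := by
  obtain ⟨p, hp, e⟩ := val_eq.1 h
  obtain ⟨q, hq, g1, g2⟩ := U.dir hp h2
  obtain ⟨r, hr, -, y, t, k1, k2, k3⟩ := U.below
    (fun r => ∃ y t, op y t ∈ b' ∧ r ≤ t ∧ FEq x y r) hq fun r hr =>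
      e.bis.1 x s h1 r (ftr hr g1) (ftr hr g2)
  exact ⟨y, t, k1, U.up hr k2, val_eq.2 ⟨r, hr, k3⟩⟩

/-- membership in the extension -/
def Ext.mem {U : Gen M} (z w : Ext U) : Prop :=
  ∃ b x s, w = val b U ∧ op x s ∈ b ∧ U.G s ∧ z = val x U

theorem mem_val {U : Gen M} {z : Ext U} {b : M} :
    Ext.mem z (val b U) ↔ ∃ x s, op x s ∈ b ∧ U.G s ∧ z = val x U :=
  ⟨fun ⟨_, _, _, e, h1, h2, h3⟩ => let ⟨y, t, g1, g2, g3⟩ := val_move e.symm h1 h2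
    ⟨y, t, g1, g2, h3.trans g3⟩, fun ⟨x, s, h⟩ => ⟨b, x, s, rfl, h⟩⟩

/-- forced membership, strong form -/
def FM (p x b : M) : Prop := ∃ y t, op y t ∈ b ∧ p ≤ t ∧ FEq x y p

instance df_fM (a b c : (ℕ → M) → M) [Tm a] [Tm b] [Tm c] :
    Df fun v => FM (a v) (b v) (c v) := by
  unfold FM; infer_instance

theorem FM.mono {p q x b : M} (h : FM p x b) (e : q ≤ p) : FM q x b :=
  let ⟨y, t, h1, h2, h3⟩ := h; ⟨y, t, h1, ftr e h2, h3.mono e⟩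

theorem val_mem {U : Gen M} {x b : M} :
    Ext.mem (val x U) (val b U) ↔ ∃ p, U.G p ∧ FM p x b := by
  rw [mem_val]
  constructor
  · rintro ⟨y, t, h1, h2, h3⟩
    obtain ⟨p, hp, e⟩ := val_eq.1 h3
    obtain ⟨r, hr, g1, g2⟩ := U.dir hp h2
    exact ⟨r, hr, y, t, h1, g2, e.mono g1⟩
  · rintro ⟨p, hp, y, t, h1, h2, h3⟩
    exact ⟨y, t, h1, U.up hp h2, val_eq.2 ⟨p, hp, h3⟩⟩

/-- the truth of `Φ` is witnessed by a definable relation -/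
def Cl (Φ : (ℕ → M) → Gen M → Prop) : Prop := ∃ R : M → (ℕ → M) → Prop,
  (Df fun v => R (v 0) fun i => v (i + 1)) ∧ ∀ v U, Φ v U ↔ ∃ p, U.G p ∧ R p v

theorem Cl.congr {Φ Ψ : (ℕ → M) → Gen M → Prop} (h : Cl Φ) (e : ∀ v U, Ψ v U ↔ Φ v U) : Cl Ψ :=
  let ⟨R, h1, h2⟩ := h; ⟨R, h1, fun v U => (e v U).trans (h2 v U)⟩

theorem Cl.ren {Φ : (ℕ → M) → Gen M → Prop} (h : Cl Φ) (s : ℕ → ℕ) :
    Cl fun v U => Φ (fun i => v (s i)) U :=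
  let ⟨R, h1, h2⟩ := h
  ⟨fun p v => R p fun i => v (s i), ⟨h1.out.ren fun i => Nat.casesOn i 0 fun j => s j + 1⟩,
    fun _ U => h2 _ U⟩

theorem Cl.neg {Φ : (ℕ → M) → Gen M → Prop} (h : Cl Φ) : Cl fun v U => ¬ Φ v U := by
  obtain ⟨R, h1, h2⟩ := h
  have h3 : Df fun v : ℕ → M => R (v 0) fun i => v (i + 1 + 1 + 1) :=
    ⟨h1.out.ren fun i => Nat.casesOn i 0 fun j => j + 3⟩
  refine ⟨fun p v => ∀ q, q ≤ p → ∀ s, q ≤ s → ¬ R s v, inferInstance, fun v U => ?_⟩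
  have h4 : D1 fun p => R p v := ⟨h1.fix v⟩
  obtain ⟨S, hS⟩ : ∃ S : M → Prop, S = fun p => R p v := ⟨_, rfl⟩
  have e : ∀ p, R p v ↔ S p := fun p => by rw [hS]
  rw [← hS] at h4
  simp only [h2, e]
  constructor
  · intro h
    obtain ⟨q, hq, g | g⟩ := U.meet
      (fun p => (∃ s, p ≤ s ∧ S s) ∨ ∀ q, q ≤ p → ∀ s, q ≤ s → ¬ S s) fun p hp => by
        by_cases g : ∃ q, q ≤ p ∧ ∃ s, q ≤ s ∧ S s
        · exact g.imp fun _ g => ⟨g.1, Or.inl g.2⟩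
        · exact ⟨p, Fo.refl p hp, Or.inr fun q g1 s g2 g3 => g ⟨q, g1, s, g2, g3⟩⟩
    · obtain ⟨s, g1, g2⟩ := g
      exact (h ⟨s, U.up hq g1, g2⟩).elim
    · exact ⟨q, hq, g⟩
  · rintro ⟨p, hp, g⟩ ⟨s, hs, g'⟩
    obtain ⟨r, -, k1, k2⟩ := U.dir hp hs
    exact g r k1 s k2 g'

theorem Cl.and {Φ Ψ : (ℕ → M) → Gen M → Prop} (h : Cl Φ) (h' : Cl Ψ) :
    Cl fun v U => Φ v U ∧ Ψ v U := by
  obtain ⟨R, h1, h2⟩ := h
  obtain ⟨S, g1, g2⟩ := h'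
  have h3 : Df fun v : ℕ → M => R (v 0) fun i => v (i + 1 + 1) :=
    ⟨h1.out.ren fun i => Nat.casesOn i 0 fun j => j + 2⟩
  have g3 : Df fun v : ℕ → M => S (v 0) fun i => v (i + 1 + 1) :=
    ⟨g1.out.ren fun i => Nat.casesOn i 0 fun j => j + 2⟩
  refine ⟨fun p v => (∃ s, p ≤ s ∧ R s v) ∧ ∃ s, p ≤ s ∧ S s v, inferInstance, fun v U => ?_⟩
  beta_reduce
  rw [h2, g2]
  constructor
  · rintro ⟨⟨p, hp, k1⟩, q, hq, k2⟩
    obtain ⟨r, hr, k3, k4⟩ := U.dir hp hq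
    exact ⟨r, hr, ⟨p, k3, k1⟩, q, k4, k2⟩
  · rintro ⟨r, hr, ⟨p, k3, k1⟩, q, k4, k2⟩
    exact ⟨⟨p, U.up hr k3, k1⟩, q, U.up hr k4, k2⟩

theorem Cl.ex {Φ : (ℕ → M) → Gen M → Prop} (h : Cl Φ) : Cl fun v U => ∃ a, Φ (cons a v) U := by
  obtain ⟨R, h1, h2⟩ := h
  refine ⟨fun p v => ∃ a, R p (cons a v), ⟨(h1.out.ren fun i => Nat.casesOn i 1 fun j =>
    Nat.casesOn j 0 fun k => k + 2).ex.congr fun v => exists_congr fun a => ?_⟩, fun v U => ?_⟩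
  · apply Iff.of_eq
    congr 1
    funext i
    cases i <;> rfl
  · simp only [h2]
    exact ⟨fun ⟨a, p, g1, g2⟩ => ⟨p, g1, a, g2⟩, fun ⟨p, g1, a, g2⟩ => ⟨a, p, g1, g2⟩⟩

theorem cl_sat (φ : Fml) : Cl fun (v : ℕ → M) U => Sat Ext.mem φ fun n => val (v n) U := by
  induction φ with
  | mem i j => exact ⟨fun p v => FM p (v i) (v j), inferInstance, fun v U => val_mem⟩
  | eq i j => exact ⟨fun p v => FEq (v i) (v j) p, inferInstance, fun v U => val_eq⟩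
  | neg φ ih => exact ih.neg
  | and φ ψ ih ih' => exact ih.and ih'
  | all i φ ih =>
    refine (ih.ren fun n => if n = i then 0 else n + 1).neg.ex.neg.congr fun v U => ?_
    have e : ∀ a : M, (fun n => val (cons a v (if n = i then 0 else n + 1)) U) =
        Function.update (fun n => val (v n) U) i (val a U) := fun a => by
      funext n
      by_cases h : n = i <;> simp [h, cons]
    simp only [e, not_exists, not_not]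
    exact ⟨fun h a => h _, fun h x => let ⟨a, ha⟩ := x.ex; ha ▸ h a⟩

theorem cl_ud (P : ∀ M : Type v, (M → M → Prop) → (ℕ → M) → Prop) [UD P] :
    Cl fun (v : ℕ → M) U => P (Ext U) Ext.mem fun n => val (v n) U :=
  let ⟨φ, hφ⟩ := UD.fml P
  (cl_sat φ).congr fun _ _ => (hφ _ _ _).symm

/-- semantic forcing -/
def Forces (p : M) (Φ : Gen M → Prop) : Prop := ∀ U : Gen M, U.G p → Φ U

theorem Forces.mono {p q : M} {Φ : Gen M → Prop} (h : Forces p Φ) (e : q ≤ p) : Forces q Φ :=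
  fun U hU => h U (U.up hU e)

theorem Cl.truth {Φ : (ℕ → M) → Gen M → Prop} (h : Cl Φ) {v : ℕ → M} {U : Gen M} (e : Φ v U) :
    ∃ p, U.G p ∧ Forces p (Φ v) :=
  let ⟨_, _, h2⟩ := h
  let ⟨p, hp, g⟩ := (h2 v U).1 e
  ⟨p, hp, fun U' hU => (h2 v U').2 ⟨p, hU, g⟩⟩

theorem Cl.df [Countable M] {Φ : (ℕ → M) → Gen M → Prop} (h : Cl Φ) :
    Df fun v => Forces (v 0) (Φ fun i => v (i + 1)) := by
  obtain ⟨R, h1, h2⟩ := h
  have h3 : Df fun v : ℕ → M => R (v 0) fun i => v (i + 1 + 1 + 1) :=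
    ⟨h1.out.ren fun i => Nat.casesOn i 0 fun j => j + 3⟩
  refine (inferInstance : Df fun v : ℕ → M =>
    Dn (fun r => ∃ s, r ≤ s ∧ R s fun i => v (i + 1)) (v 0)).congr fun v => ⟨fun h U hU => ?_,
      fun h q hq => ?_⟩
  · have h4 : D1 fun p => R p fun i => v (i + 1) := ⟨h1.fix _⟩
    obtain ⟨S, hS⟩ : ∃ S : M → Prop, S = fun p => R p fun i => v (i + 1) := ⟨_, rfl⟩
    have e : ∀ p, (R p fun i => v (i + 1)) ↔ S p := fun p => by rw [hS]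
    rw [← hS] at h4
    simp only [e] at h
    obtain ⟨r, hr, -, s, g1, g2⟩ := U.below (fun r => ∃ s, r ≤ s ∧ S s) hU h
    exact (h2 _ U).2 ⟨s, U.up hr g1, (e s).2 g2⟩
  · obtain ⟨U, hU⟩ := ex_gen (Fo.mem _ _ hq).1
    obtain ⟨s, hs, g⟩ := (h2 _ U).1 (h U (U.up hU hq))
    obtain ⟨r, -, g1, g2⟩ := U.dir hU hs
    exact ⟨r, g1, s, g2, g⟩

end Pool.Agent.P.MP_5f3b23_lc.Zf
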