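import Pool.Agent.P.MP_2e9c36_lc.GCol
import Pool.Agent.P.MP_2e9c36_lc.YForce

set_option autoImplicit false

/-! Prikry forcing with interleaved collapses inside the model; the Prikry property. -/

open Pool.Agent.Lib.PosetForcing

namespace Pool.Agent.P.MP_5f3b23_lc.Zf.G.Pool.Agent.P.MP_5f3b23_lc.Zf
open _root_.Pool.Agent.P.MP_5f3b23_lc.Zf.G

universe v

variable {M : Type v} [Zm M]

/-- the stem -/
noncomputable def ps (p : M) : M := fst p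

/-- the measure one set -/
noncomputable def pA (p : M) : M := fst (snd p)

/-- the collapse conditions -/
noncomputable def pc (p : M) : M := snd (snd p)

instance tm_ps (a : (ℕ → M) → M) [Tm a] : Tm fun v => ps (a v) := by
  unfold ps; infer_instance

instance tm_pA (a : (ℕ → M) → M) [Tm a] : Tm fun v => pA (a v) := by
  unfold pA; infer_instance

instance tm_pc (a : (ℕ → M) → M) [Tm a] : Tm fun v => pc (a v) := by
  unfold pc; infer_instance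

variable [NG M]

/-- increasing sequences of very good points -/
def Inc (t : M) : Prop :=
  t ∈ Sq (kk : M) ∧ ∀ i, i ∈ dom t → res t i ∈ Vv (ap t i) ∧ VG (ap t i)

instance df_inc (a : (ℕ → M) → M) [Tm a] : Df fun v => Inc (a v) := by
  unfold Inc; infer_instance

theorem Inc.isF {t : M} (h : Inc t) : IsF t := (mem_Sq.1 h.1).1

theorem Inc.od {t : M} (h : Inc t) : Od (dom t) := od_dom h.1

theorem Inc.sub {t u : M} (h : Inc u) (ht : t ∈ Sq (kk : M)) (e : Sub t u) : Inc t :=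
  ⟨ht, fun i hi => by
    rw [h.isF.res_sub_eq e ((od_dom ht).1 i hi), h.isF.ap_sub e hi]
    exact h.2 i (dom_mono e i hi)⟩

theorem inc_emp : Inc (emp : M) :=
  ⟨emp_mem_Sq _, fun i hi => (not_mem_emp i (by rwa [dom_emp] at hi)).elim⟩

theorem Inc.snoc {t b : M} (h : Inc t) (hb : b ∈ (kk : M)) (e : t ∈ Vv b) (g : VG b) :
    Inc (snoc t b) := ⟨snoc_mem_Sq h.1 hb, fun i hi => by
  rw [dom_snoc] at hi
  rw [res_snoc _ _ (h.od.sub_of_mem_suc hi)]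
  rcases mem_suc.1 hi with hi | rfl
  · rw [ap_snoc_lt _ hi]; exact h.2 i hi
  · rw [res_dom, ap_snoc]; exact ⟨e, g⟩⟩

theorem Inc.snoc_sub {t u : M} (h : Inc u) (e : Sub t u) (hd : dom t ∈ dom u) :
    Sub (Zf.snoc t (ap u (dom t))) u := fun _ hp =>
  (mem_ins.1 hp).elim (e _) fun g => g ▸ h.isF.mem hd

/-- nodes above the stem `s` with new points in `A` -/
def Up (s A t : M) : Prop := Sub s t ∧ Inc t ∧ ∀ i, i ∈ dom t → i ∉ dom s → ap t i ∈ A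

instance df_up (a b c : (ℕ → M) → M) [Tm a] [Tm b] [Tm c] :
    Df fun v => Up (a v) (b v) (c v) := by
  unfold Up; infer_instance

theorem up_self {s : M} (h : Inc s) (A : M) : Up s A s := ⟨Sub.rfl, h, fun _ h h' => (h' h).elim⟩

theorem Up.trans {s t u A B : M} (h : Up s A t) (h' : Up t B u) (e : Sub B A) : Up s A u :=
  ⟨h.1.trans h'.1, h'.2.1, fun i hi g => by
    by_cases k : i ∈ dom t
    · exact h'.2.1.isF.ap_sub h'.1 k ▸ h.2.2 i k g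
    · exact e _ (h'.2.2 i hi k)⟩

theorem Up.res {s t u A : M} (h : Up s A u) (ht : t ∈ Sq (kk : M)) (e : Sub t u) (e' : Sub s t) :
    Up s A t :=
  ⟨e', h.2.1.sub ht e, fun i hi g =>
    (h.2.1.isF.ap_sub e hi).symm ▸ h.2.2 i (dom_mono e i hi) g⟩

theorem Up.of_sub {s t u A : M} (h : Up s A u) (hs : s ∈ Sq (kk : M)) (ht : t ∈ Sq (kk : M))
    (e : Sub t u) : Sub t s ∨ Up s A t :=
  (seq_total h.2.1.isF ht hs e h.1).imp_right fun g =>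
    h.res ht e (seq_sub h.2.1.isF h.1 e ((od_dom ht).1 _ g))

/-- assignments of collapse conditions to all nodes -/
def Col0 (c : M) : Prop :=
  Sub c (prd (Sq kk) (Vv kk)) ∧ ∀ t, t ∈ Sq (kk : M) → IsCol (nu t) (lv c t)

instance df_col0 (a : (ℕ → M) → M) [Tm a] : Df fun v => Col0 (a v) := by
  unfold Col0; infer_instance

/-- the collapse conditions along `s` lie below the next point -/
def Bl (s c : M) : Prop := ∀ i, i ∈ dom s → Below (lv c (res s i)) (ap s i)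

instance df_bl (a b : (ℕ → M) → M) [Tm a] [Tm b] : Df fun v => Bl (a v) (b v) := by
  unfold Bl; infer_instance

/-- conditions -/
def Cond (p : M) : Prop := Inc (ps p) ∧ pA p ∈ (UU : M) ∧ Col0 (pc p) ∧
  (∀ b, b ∈ pA p → VG b ∧ ∀ t, t ∈ Vv b → t ∈ Sq (kk : M) → Below (lv (pc p) t) b) ∧
  Bl (ps p) (pc p)

instance df_cond (a : (ℕ → M) → M) [Tm a] : Df fun v => Cond (a v) := by
  unfold Cond; infer_instance

/-- the set of conditions -/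
noncomputable def PPs : M := sep (prd (Sq kk) (prd UU (pow (prd (Sq kk) (Vv kk))))) Cond

theorem cond_of {p : M} (h : p ∈ (PPs : M)) : Cond p := (mem_sep.1 h).2

theorem ex_cond0 {s A c : M} (h1 : Inc s) (h2 : A ∈ (UU : M)) (h3 : Col0 c)
    (h4 : ∀ b, b ∈ A → VG b ∧ ∀ t, t ∈ Vv b → t ∈ Sq (kk : M) → Below (lv c t) b) (h5 : Bl s c) :
    ∃ q, q ∈ (PPs : M) ∧ ps q = s ∧ pA q = A ∧ pc q = c :=
  ⟨op s (op A c), mem_sep.2 ⟨op_mem_prd.2 ⟨h1.1, op_mem_prd.2 ⟨h2, mem_pow.2 h3.1⟩⟩, by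
    simp only [Cond, ps, pA, pc, fst_op, snd_op]
    exact ⟨h1, h2, h3, h4, h5⟩⟩, by simp [ps, pA, pc]⟩

theorem ex_cond {s c : M} {B : M → Prop} (h1 : Inc s) (h2 : Ae B) (h3 : Col0 c) (h5 : Bl s c) :
    ∃ q, q ∈ (PPs : M) ∧ ps q = s ∧ (∀ b, b ∈ pA q → B b) ∧ pc q = c := by
  obtain ⟨A, hA, e⟩ := h2.and (ae_vg.and (diag (fun t b => t ∈ Sq (kk : M) → Below (lv c t) b)
    fun _ _ => ae_imp fun ht => (h3.2 _ ht).ae_below (nu_mem_k ht)))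
  obtain ⟨q, g1, g2, g3, g4⟩ := ex_cond0 h1 hA h3 (fun b hb => (e b hb).2) h5
  exact ⟨q, g1, g2, fun b hb => (e b (g3 ▸ hb)).1, g4⟩

/-- nodes of the tree of `q` -/
def In (q t : M) : Prop := (t ∈ Sq (kk : M) ∧ Sub t (ps q)) ∨ Up (ps q) (pA q) t

instance df_in (a b : (ℕ → M) → M) [Tm a] [Tm b] : Df fun v => In (a v) (b v) := by
  unfold In; infer_instance

theorem In.sq {q t : M} (h : In q t) : t ∈ Sq (kk : M) := h.elim (fun h => h.1) fun h => h.2.1.1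

/-- `q` extends the data `(s, A, c)` -/
def RLe (q s A c : M) : Prop :=
  Up s A (ps q) ∧ Sub (pA q) A ∧ ∀ t x, In q t → op t x ∈ c → op t x ∈ pc q

instance df_rle (a b c d : (ℕ → M) → M) [Tm a] [Tm b] [Tm c] [Tm d] :
    Df fun v => RLe (a v) (b v) (c v) (d v) := by
  unfold RLe; infer_instance

theorem In.transfer {q p t : M} (h : In q t) (hp : ps p ∈ Sq (kk : M))
    (h1 : Up (ps p) (pA p) (ps q)) (h2 : Sub (pA q) (pA p)) : In p t :=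
  h.elim (fun h => (h1.of_sub hp h.1 h.2).imp_left fun g => ⟨h.1, g⟩) fun h => Or.inr (h1.trans h h2)

theorem col0_emp : Col0 (emp : M) :=
  ⟨emp_sub _, fun _ _ => (isCol_emp _).sub fun _ hx => (not_mem_emp _ (mem_lv.1 hx)).elim⟩

omit [NG M] in
theorem bl_emp (c : M) : Bl emp c := fun i hi => (not_mem_emp i (by rwa [dom_emp] at hi)).elim

theorem ex_top : ∃ q, q ∈ (PPs : M) ∧ ps q = emp ∧ pA q = sep kk VG ∧ pc q = emp :=
  ex_cond0 inc_emp ae_vg.big col0_emp (fun _ hb => ⟨(mem_sep.1 hb).2,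
    fun _ _ _ _ hx => (not_mem_emp _ (mem_lv.1 hx)).elim⟩) (bl_emp _)

noncomputable instance foP : Fo M where
  le q p := q ∈ (PPs : M) ∧ p ∈ (PPs : M) ∧ RLe q (ps p) (pA p) (pc p)
  PP := PPs
  top := ex_top.choose
  df := ⟨(inferInstance : Df fun v : ℕ → M => v 0 ∈ (PPs : M) ∧ v 1 ∈ (PPs : M) ∧
    RLe (v 0) (ps (v 1)) (pA (v 1)) (pc (v 1)))⟩
  mem _ _ h := ⟨h.1, h.2.1⟩
  refl p h := ⟨h, h, up_self (cond_of h).1 _, Sub.rfl, fun _ _ _ h => h⟩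
  trans p q r h h' := ⟨h.1, h'.2.1, h'.2.2.1.trans h.2.2.1 h'.2.2.2.1, h.2.2.2.1.trans h'.2.2.2.1,
    fun t x ht g => h.2.2.2.2 t x ht (h'.2.2.2.2 t x
      (ht.transfer (cond_of h.2.1).1.1 h.2.2.1 h.2.2.2.1) g)⟩
  le_top p h := by
    obtain ⟨h1, h2, h3, h4⟩ := (ex_top (M := M)).choose_spec
    refine ⟨h, h1, ?_⟩
    rw [h2, h3, h4]
    exact ⟨⟨emp_sub _, (cond_of h).1, fun i hi _ => mem_sep.2 ⟨(mem_Sq.1 (cond_of h).1.1).2.2 i hi,
      ((cond_of h).1.2 i hi).2⟩⟩, fun b hb => mem_sep.2 ⟨Ms.sub _ (cond_of h).2.1 b hb,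
        ((cond_of h).2.2.2.1 b hb).1⟩, fun _ _ _ g => (not_mem_emp _ g).elim⟩
  ne := ex_top.imp fun _ h => h.1

theorem le_of {q p : M} (hq : q ∈ (PPs : M)) (hp : p ∈ (PPs : M)) (h1 : Up (ps p) (pA p) (ps q))
    (h2 : Sub (pA q) (pA p)) (h3 : ∀ t x, In q t → op t x ∈ pc p → op t x ∈ pc q) : q ≤ p :=
  ⟨hq, hp, h1, h2, h3⟩

section
variable {q p : M} (h : q ≤ p)
include h

theorem le_l : q ∈ (PPs : M) := h.1

theorem le_up : Up (ps p) (pA p) (ps q) := h.2.2.1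

theorem le_A : Sub (pA q) (pA p) := h.2.2.2.1

theorem le_c {t x : M} (ht : In q t) (g : op t x ∈ pc p) : op t x ∈ pc q := h.2.2.2.2 t x ht g

theorem le_s : Sub (ps p) (ps q) := h.2.2.1.1

theorem In.mono {t : M} (ht : In q t) : In p t :=
  ht.transfer (cond_of h.2.1).1.1 h.2.2.1 h.2.2.2.1

end

theorem prefl {p : M} (h : p ∈ (PPs : M)) : p ≤ p := Fo.refl p h

theorem Up.bl {p t : M} (hp : p ∈ (PPs : M)) (h : Up (ps p) (pA p) t) : Bl t (pc p) := by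
  intro i hi
  obtain ⟨h1, -, -, h4, h5⟩ := cond_of hp
  by_cases g : i ∈ dom (ps p)
  · rw [← h.2.1.isF.res_sub_eq h.1 (h1.od.1 i g), ← h.2.1.isF.ap_sub h.1 g]
    exact h5 i g
  · exact (h4 _ (h.2.2 i hi g)).2 _ (h.2.1.2 i hi).1 (res_lt_Sq h.2.1.1 hi)

theorem ex_ext {p : M} (hp : p ∈ (PPs : M)) {S : M → Prop} (h : Ae S) :
    ∃ q, q ≤ p ∧ ∃ b, S b ∧ ps q = snoc (ps p) b ∧ pc q = pc p := by
  obtain ⟨h1, h2, h3, h4, -⟩ := cond_of hp
  obtain ⟨b, hb, g1, g2, g3⟩ := (h.and ((ae_mem h2).and (ae_V (sq_V h1.1)))).ex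
  have u : Up (ps p) (pA p) (snoc (ps p) b) := ⟨sub_snoc _ _, h1.snoc hb g3 (h4 b g2).1,
    fun i hi g => by
      rw [dom_snoc] at hi
      rw [(mem_suc.1 hi).resolve_left g, ap_snoc]; exact g2⟩
  obtain ⟨q, k1, k2, k3, k4⟩ := ex_cond0 u.2.1 h2 h3 h4 (u.bl hp)
  exact ⟨q, le_of k1 hp (k2 ▸ u) (k3 ▸ Sub.rfl) fun _ _ _ g => k4 ▸ g, b, g1, k2, k4⟩

theorem ex_long {p n : M} (hp : p ∈ (PPs : M)) (hn : n ∈ (om : M)) :
    ∃ q, q ≤ p ∧ Sub n (dom (ps q)) := by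
  refine om_ind (fun n => ∃ q, q ≤ p ∧ Sub n (dom (ps q))) ⟨p, prefl hp, emp_sub _⟩
    (fun n hn ⟨q, h1, h2⟩ => ?_) hn
  obtain ⟨r, g1, b, -, g2, -⟩ := ex_ext (le_l h1) (ae_of_all fun _ _ => trivial)
  refine ⟨r, ftr g1 h1, ?_⟩
  rw [g2, dom_snoc]
  exact (cond_of (le_l h1)).1.od.suc.suc_sub ((od_om.el hn).mem_suc (cond_of (le_l h1)).1.od h2)

theorem ex_strong {p c : M} (hp : p ∈ (PPs : M)) (h1 : Col0 c) (h2 : Bl (ps p) c)
    {B : M → Prop} (hB : Ae B) (h : ∀ t x, In p t → op t x ∈ pc p → op t x ∈ c) :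
    ∃ q, q ≤ p ∧ ps q = ps p ∧ pc q = c ∧ ∀ b, b ∈ pA q → B b := by
  obtain ⟨q, g1, g2, g3, g4⟩ := ex_cond (cond_of hp).1 ((ae_mem (cond_of hp).2.1).and hB) h1 h2
  have u : Up (ps p) (pA p) (ps q) := g2 ▸ up_self (cond_of hp).1 _
  exact ⟨q, le_of g1 hp u (fun b hb => (g3 b hb).1) fun t x ht g => g4 ▸ h t x
    (ht.transfer (cond_of hp).1.1 u fun b hb => (g3 b hb).1) g, g2, g4, fun b hb => (g3 b hb).2⟩

/-- the lower part of an assignment -/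
noncomputable def low (t c : M) : M :=
  sep (prd (dom t) (Vv kk)) fun p => op (res t (fst p)) (snd p) ∈ c

instance tm_low (a b : (ℕ → M) → M) [Tm a] [Tm b] : Tm fun v => low (a v) (b v) := by
  unfold low; infer_instance

theorem mem_low {t c i x : M} (h : Col0 c) :
    op i x ∈ low t c ↔ i ∈ dom t ∧ op (res t i) x ∈ c := by
  simp only [low, mem_sep, op_mem_prd, fst_op, snd_op]
  exact ⟨fun g => ⟨g.1.1, g.2⟩, fun g => ⟨⟨g.1, (op_mem_prd.1 (h.1 _ g.2)).2⟩, g.2⟩⟩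

theorem lowOK_low {t c : M} (ht : t ∈ Sq (kk : M)) (h : Col0 c) (e : Bl t c) :
    LowOK t (low t c) :=
  ⟨fun _ hp => let ⟨i, x, h1, _, h2⟩ := mem_prd.1 (mem_sep.1 hp).1; ⟨i, x, h2, h1⟩, fun i hi =>
    ⟨(h.2 _ (res_lt_Sq ht hi)).sub fun _ hx => mem_lv.2 ((mem_low h).1 (mem_lv.1 hx)).2,
      fun x hx => e i hi x (mem_lv.2 ((mem_low h).1 (mem_lv.1 hx)).2)⟩⟩

theorem Bl.sub {s t c : M} (h : Bl s c) (hs : IsF s) (ht : t ∈ Sq (kk : M)) (e : Sub t s) :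
    Bl t c := fun i hi => by
  rw [hs.res_sub_eq e ((od_dom ht).1 i hi), hs.ap_sub e hi]
  exact h i (dom_mono e i hi)

theorem col0_sep (P : M → M → Prop) [D2 P]
    (h : ∀ t, t ∈ Sq (kk : M) → ∃ d, IsCol (nu t) d ∧ ∀ x, P t x → x ∈ d) :
    ∃ c : M, Col0 c ∧ ∀ t x, op t x ∈ c ↔ t ∈ Sq (kk : M) ∧ P t x := by
  have e : ∀ t x, op t x ∈ (sep (prd (Sq kk) (Vv kk)) fun z => P (fst z) (snd z)) ↔
      t ∈ Sq (kk : M) ∧ P t x := fun t x => by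
    simp only [mem_sep, op_mem_prd, fst_op, snd_op]
    exact ⟨fun g => ⟨g.1.1, g.2⟩, fun g => let ⟨_, g1, g2⟩ := h t g.1
      ⟨⟨g.1, gd_k.el (g1.Vk (nu_mem_k g.1)) (g2 x g.2)⟩, g.2⟩⟩
  exact ⟨_, ⟨sep_sub, fun t ht => let ⟨_, g1, g2⟩ := h t ht
    g1.sub fun x hx => g2 x ((e t x).1 (mem_lv.1 hx)).2⟩, e⟩

theorem amalgamate {p t : M} (hp : p ∈ (PPs : M)) (ht : Up (ps p) (pA p) t) (R : M → Prop) [D1 R]
    (h : Ae fun b => ∃ q, q ≤ p ∧ ps q = snoc t b ∧ Dn R q) : ∃ r, r ≤ p ∧ ps r = t ∧ Dn R r := by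
  have hD : D1 (Dn R) := ⟨inferInstance⟩
  have ts := ht.2.1.1
  obtain ⟨f, hf⟩ := chs' kk (fun b => ∃ q, q ≤ p ∧ ps q = snoc t b ∧ Dn R q)
    (fun b q => q ≤ p ∧ ps q = snoc t b ∧ Dn R q) fun _ _ h => h
  obtain ⟨r, -, hr⟩ := press (fun b => low (snoc t b) (pc (ap f b)))
    ((h.and (ae_gd.and (ae_V (sq_V ts)))).mono fun b hb ⟨g1, g2, g3⟩ => by
      obtain ⟨k1, k2, -⟩ := hf b hb g1
      exact (lowOK_low (snoc_mem_Sq ts hb) (cond_of (le_l k1)).2.2.1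
        (k2 ▸ (cond_of (le_l k1)).2.2.2.2)).V_snoc ts g2 hb g3)
  obtain ⟨X, hX, eX⟩ := h.and hr
  have hq : ∀ b, b ∈ X → ap f b ≤ p ∧ ps (ap f b) = snoc t b ∧ Dn R (ap f b) := fun b hb =>
    hf b (Ms.sub X hX b hb) (eX b hb).1
  have hlow : ∀ b, b ∈ X → ∀ u x, u ∈ Sq (kk : M) → Sub u t →
      (op (dom u) x ∈ r ↔ op u x ∈ pc (ap f b)) := fun b hb u x hu e => by
    rw [← (eX b hb).2, mem_low (cond_of (le_l (hq b hb).1)).2.2.1, dom_snoc,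
      res_snoc _ _ (dom_mono e), ← ht.2.1.isF.eq_res e]
    exact and_iff_right ((od_dom hu).mem_suc ht.2.1.od (dom_mono e))
  obtain ⟨b0, hb0⟩ := Ms.ne X hX
  obtain ⟨c, hc, ec⟩ := col0_sep (fun u x => (Sub u t ∧ op (dom u) x ∈ r) ∨
      (¬ Sub u t ∧ ap u (dom t) ∈ X ∧ op u x ∈ pc (ap f (ap u (dom t))))) fun u hu => by
    by_cases g : Sub u t
    · exact ⟨_, (cond_of (le_l (hq b0 hb0).1)).2.2.1.2 u hu, fun x hx => mem_lv.2
        ((hlow b0 hb0 u x hu g).1 (hx.resolve_right fun k => k.1 g).2)⟩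
    · by_cases g' : ap u (dom t) ∈ X
      · exact ⟨_, (cond_of (le_l (hq _ g').1)).2.2.1.2 u hu, fun x hx => mem_lv.2
          (hx.resolve_left fun k => g k.1).2.2⟩
      · exact ⟨_, isCol_emp _, fun x hx => (g' (hx.resolve_left fun k => g k.1).2.1).elim⟩
  obtain ⟨w, w1, w2, w3, w4⟩ := ex_cond (c := c) ht.2.1 ((ae_mem hX).and
    ((ae_mem (cond_of hp).2.1).and (diag (fun a b => a ∈ X → b ∈ pA (ap f a)) fun a _ =>
      ae_imp fun ha => ae_mem (cond_of (le_l (hq a ha).1)).2.1))) hc fun i hi x hx => by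
    have k := (cond_of (le_l (hq b0 hb0).1)).2.2.2.2.sub (cond_of (le_l (hq b0 hb0).1)).1.isF ts
      ((hq b0 hb0).2.1 ▸ sub_snoc t b0) i hi x
    exact k (mem_lv.2 ((hlow b0 hb0 _ x (res_lt_Sq ts hi) (res_sub _ _)).1
      (((ec _ _).1 (mem_lv.1 hx)).2.resolve_right fun g => g.1 (res_sub _ _)).2))
  have key : ∀ u, Up t (pA w) u → ¬ Sub u t → ap u (dom t) ∈ X ∧
      Up (ps (ap f (ap u (dom t)))) (pA (ap f (ap u (dom t)))) u := fun u hu g => by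
    have k1 := (seq_total hu.2.1.isF hu.2.1.1 ts Sub.rfl hu.1).resolve_left g
    have k2 := (w3 _ (hu.2.2 _ k1 (not_mem_self _))).1
    refine ⟨k2, ?_⟩
    rw [(hq _ k2).2.1]
    refine ⟨hu.2.1.snoc_sub hu.1 k1, hu.2.1, fun i hi e => ?_⟩
    rw [dom_snoc] at e
    have k3 : dom t ∈ i := ((hu.2.1.od.el hi).total ht.2.1.od).resolve_left fun e' =>
      e ((hu.2.1.od.el hi).mem_suc ht.2.1.od e')
    refine (w3 _ (hu.2.2 i hi fun e' => e (sub_suc _ _ e'))).2.2 _ ?_ k2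
    exact ap_res u k3 ▸ (hu.2.1.2 i hi).2.1.ap (hu.2.1.2 i hi).1 _
  refine ⟨w, le_of w1 hp (w2 ▸ ht) (fun b hb => (w3 b hb).2.1) fun u x hu g => ?_, w2,
    fun x hx => ?_⟩
  · rw [w4, ec]
    by_cases e : Sub u t
    · exact ⟨hu.sq, Or.inl ⟨e, (hlow b0 hb0 u x hu.sq e).2 (le_c (hq b0 hb0).1
        (Or.inl ⟨hu.sq, (hq b0 hb0).2.1 ▸ e.trans (sub_snoc t b0)⟩) g)⟩⟩
    · obtain ⟨k1, k2⟩ := key u (w2 ▸ hu.resolve_left fun k => e (w2 ▸ k.2)) e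
      exact ⟨hu.sq, Or.inr ⟨e, k1, le_c (hq _ k1).1 (Or.inr k2) g⟩⟩
  · obtain ⟨y0, hy0, b, -, e, -⟩ := ex_ext (le_l hx) (ae_of_all fun _ _ => trivial)
    obtain ⟨y, hy1, e1, -, e2⟩ := ex_strong (le_l hy0) (cond_of (le_l hy0)).2.2.1
      (cond_of (le_l hy0)).2.2.2.2 (ae_V (gd_k.ap (sq_V (cond_of (le_l hy0)).1.1) (dom t)))
      fun _ _ _ g => g
    have hy := ftr hy1 hy0
    rw [← e1] at e e2
    have hyw := ftr hy hx
    have yi := (cond_of (le_l hy)).1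
    have n1 : ¬ Sub (ps y) t := fun g => not_mem_self _ (dom_mono (w2 ▸ le_s hx : Sub t (ps x)) _
      (dom_mono g _ (by rw [e, dom_snoc]; exact self_mem_suc _)))
    obtain ⟨k1, k2⟩ := key _ (w2 ▸ le_up hyw) n1
    have k3 := (seq_total yi.isF yi.1 ts Sub.rfl (w2 ▸ le_s hyw)).resolve_left n1
    have k4 : y ≤ ap f (ap (ps y) (dom t)) := by
      refine le_of (le_l hy) (le_l (hq _ k1).1) k2 (fun a ha => (w3 a (le_A hyw a ha)).2.2 _
        (e2 a ha) k1) fun u z hu g => le_c hyw hu ?_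
      · rw [w4, ec]
        by_cases e : Sub u t
        · exact ⟨hu.sq, Or.inl ⟨e, (hlow _ k1 u z hu.sq e).2 g⟩⟩
        · have k5 : ap u (dom t) = ap (ps y) (dom t) := by
            rcases hu with hu | hu
            · exact yi.isF.ap_sub hu.2 ((seq_total yi.isF hu.1 ts hu.2
                (w2 ▸ le_s hyw)).resolve_left e)
            · exact (hu.2.1.isF.ap_sub hu.1 k3).symm
          exact ⟨hu.sq, Or.inr ⟨e, k5 ▸ k1, k5 ▸ g⟩⟩
    obtain ⟨z, hz, g⟩ := (hq _ k1).2.2 y k4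
    exact ⟨z, ftr hz hy, g⟩

end Pool.Agent.P.MP_5f3b23_lc.Zf.G.Pool.Agent.P.MP_5f3b23_lc.Zf
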