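import Pool.Agent.P.MP_2e9c36_lc.GStep

set_option autoImplicit false
set_option synthInstance.maxSize 4000

/-! The master condition of a system; bounds for terms. -/

open Pool.Agent.Lib.PosetForcing

namespace Pool.Agent.P.MP_5f3b23_lc.Zf.G.Pool.Agent.P.MP_5f3b23_lc.Zf
open _root_.Pool.Agent.P.MP_5f3b23_lc.Zf.G

universe v

variable {M : Type v} [Zm M]

/-- the history of a stem -/
noncomputable def hs (H s : M) : M := lam (prd (dom s) (suc om)) fun c =>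
  cnd (snd c = om) (ap s (fst c)) (ap (ap H (res s (fst c))) (snd c))

instance tm_hs (a b : (ℕ → M) → M) [Tm a] [Tm b] : Tm fun v => hs (a v) (b v) := by
  unfold hs; infer_instance

theorem dom_hs (H s : M) : dom (hs H s) = prd (dom s) (suc om) := dom_lam

theorem isF_hs (H s : M) : IsF (hs H s) := isF_lam

theorem hs_om (H : M) {s n : M} (h : n ∈ dom s) : ap (hs H s) (op n om) = ap s n := by
  rw [hs, ap_lam (op_mem_prd.2 ⟨h, self_mem_suc _⟩), fst_op, snd_op, cnd_pos rfl]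

theorem hs_nat (H : M) {s n k : M} (h : n ∈ dom s) (hk : k ∈ (om : M)) :
    ap (hs H s) (op n k) = ap (ap H (res s n)) k := by
  rw [hs, ap_lam (op_mem_prd.2 ⟨h, sub_suc _ _ hk⟩), fst_op, snd_op,
    cnd_neg fun e => not_mem_self _ (e ▸ hk)]

theorem lam_ap {s n : M} (h : IsF s) (e : Sub n (dom s)) : (lam n fun i => ap s i) = res s n :=
  isF_lam.ext (h.res n) (dom_lam.trans (dom_res e).symm) fun x hx => by
    rw [dom_lam] at hx
    rw [ap_lam hx, ap_res s hx]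

theorem tt_hs (H : M) {s n : M} (h : IsF s) (e : Sub n (dom s)) : tt (hs H s) n = res s n :=
  (lam_congr fun i hi => hs_om H (e i hi)).trans (lam_ap h e)

theorem hs_mono (H : M) {s t : M} (h : IsF t) (ho : Od (dom s)) (e : Sub s t) :
    Sub (hs H s) (hs H t) := fun p hp => by
  obtain ⟨c, hc, rfl⟩ := mem_lam.1 hp
  obtain ⟨a, b, ha, hb, rfl⟩ := mem_prd.1 hc
  refine mem_lam.2 ⟨_, op_mem_prd.2 ⟨dom_mono e a ha, hb⟩, ?_⟩
  rw [fst_op, h.ap_sub e ha, h.res_sub_eq e (ho.1 a ha)]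

theorem TT_hs (H : M) {s m : M} (hm : m ∈ (om : M)) (e : Sub m (dom s)) :
    Sub (TT m) (dom (hs H s)) := fun c hc => by
  rw [dom_hs, (prd_eta hc).2.2]
  exact op_mem_prd.2 ⟨e _ (prd_eta hc).1, (prd_eta (TT_sub hm c hc)).2.1⟩

/-- the value of a term -/
noncomputable def ev (y h : M) : M := ap (snd y) (res h (TT (fst y)))

instance tm_ev (a b : (ℕ → M) → M) [Tm a] [Tm b] : Tm fun v => ev (a v) (b v) := by
  unfold ev; infer_instance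

theorem ev_congr {y h w : M} (hw : IsF w) (e : Sub h w) (g : Sub (TT (fst y)) (dom h)) :
    ev y h = ev y w := by
  rw [ev, ev, hw.res_sub_eq e g]

/-- finite pieces of histories with values in `S` -/
noncomputable def PF (S : M) : M := bUn (prd om om) fun a => funs (II (fst a) (snd a) emp) S

instance tm_PF (a : (ℕ → M) → M) [Tm a] : Tm fun v => PF (a v) := by
  unfold PF; infer_instance

theorem le_PF {S x : M} (hx : Io x) (h : Le S x) : Le (PF S) x := by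
  refine hx.bUn _ (hx.prd hx.le_om hx.le_om) fun a ha => Le.trans (le_of_fn (fun z =>
    lam (fst a) fun i => lam (suc (fst a)) fun k => ap z (op i (cnd (k = fst a) om k)))
    (fun z hz => lam_mem_Sq (prd_eta ha).1 fun i _ => lam_mem_Sq (suc_mem_om (prd_eta ha).1)
      fun k _ => ?_) fun z w hz hw e => ?_) (hx.Sq (hx.Sq (hx.ins h emp)))
  · obtain ⟨h1, h2, h3⟩ := mem_funs.1 hz
    by_cases g : op i (cnd (k = fst a) om k) ∈ dom z
    · exact sub_ins _ _ _ (h3 _ (h2 ▸ g))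
    · exact mem_ins.2 (Or.inr (eq_emp fun y hy => let ⟨_, g1, _⟩ := mem_ap.1 hy
        g (mem_dom.2 ⟨_, g1, (fst_op _ _).symm⟩)))
  · obtain ⟨h1, h2, -⟩ := mem_funs.1 hz
    obtain ⟨g1, g2, -⟩ := mem_funs.1 hw
    refine h1.ext g1 (h2.trans g2.symm) fun c hc => ?_
    obtain ⟨i, k, rfl, hi, hk⟩ := TT_ex (mem_sep.1 (h2 ▸ hc)).1
    have e1 := congrArg (fun f => ap f i) e
    simp only [ap_lam hi] at e1
    rcases hk with hk | rfl
    · have e2 := congrArg (fun f => ap f k) e1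
      simpa only [ap_lam (sub_suc _ _ hk), cnd_neg fun e : k = fst a => not_mem_self _ (e ▸ hk)]
        using e2
    · have e2 := congrArg (fun f => ap f (fst a)) e1
      simpa only [ap_lam (self_mem_suc _), cnd_pos trivial] using e2

theorem ex_bnd {T x z : M} (G : M) (hx : Io x) (hT : Le T x) (hz : z ∈ sc x) :
    ∃ b, b ∈ sc x ∧ z ∈ b ∧ ∀ y w, y ∈ T → w ∈ PF (suc x) → ap (ap G y) w ∈ sc x →
      ap (ap G y) w ∈ b := by
  obtain ⟨b, h1, h2⟩ := hx.bdd (S := ins z (sep (bUn T fun y => img (PF (suc x))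
      fun w => ap (ap G y) w) fun u => u ∈ sc x))
    (hx.ins ((le_of_sub sep_sub).trans (hx.bUn _ hT fun _ _ => (le_img _ _).trans
      (le_PF hx (hx.ins Le.rfl x)))) z)
    fun u hu => (mem_ins.1 hu).elim (fun g => (mem_sep.1 g).2) fun g => g ▸ hz
  exact ⟨b, h1, h2 z (mem_ins.2 (Or.inr rfl)), fun y w hy hw g => h2 _ (mem_ins.2 (Or.inl
    (mem_sep.2 ⟨mem_bUn.2 ⟨y, hy, mem_img.2 ⟨w, hw, rfl⟩⟩, g⟩)))⟩

variable [NG M]

/-- histories with values in `A` -/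
def FH (A h : M) : Prop := Hist h ∧ ∀ c, c ∈ dom h → ap h c ∈ A

instance df_fh (a b : (ℕ → M) → M) [Tm a] [Tm b] : Df fun v => FH (a v) (b v) := by
  unfold FH; infer_instance

theorem FH.ex {A B h m : M} (e : FH B h) (hB : Sub B A) (g : Sub (TT m) (dom h)) :
    Ex m emp A (res h (TT m)) :=
  ⟨emp_sub _, dom_res g, e.1.sub (res_sub _ _), fun c hc _ => by
    rw [ap_res h (mem_dom_res.1 hc).2]; exact hB _ (e.2 c (mem_dom_res.1 hc).1)⟩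

theorem realize {D A : M} (hD : Sys D) (hA : A ∈ (UU : M)) : ∃ q H, q ∈ (PPs : M) ∧ ∀ p, p ≤ q →
    (∀ n, n ∈ dom (ps p) → ∃ z, z ∈ ap (ps p) n ∧ ∀ k, k ∈ (om : M) →
      ap (hs H (ps p)) (op n k) ∈ z) ∧ FH A (hs H (ps p)) ∧ ∀ m, m ∈ (om : M) →
      Sub m (dom (ps p)) → Fits m emp p (res (hs H (ps p)) (TT m)) D emp A := by
  obtain ⟨H, hH⟩ := chs (Sq kk) (fun t F => IsF F ∧ dom F = om ∧ ∀ i, i ∈ (om : M) →
      ap F i ∈ (kk : M) ∧ ap F i ∈ A ∧ VG (ap F i) ∧ t ∈ Vv (ap F i) ∧ res F i ∈ Vv (ap F i) ∧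
        Below (lv D (op t (res F i))) (ap F i)) fun t ht =>
    ex_rec kk (fun _ f y => y ∈ A ∧ VG y ∧ t ∈ Vv y ∧ f ∈ Vv y ∧ Below (lv D (op t f)) y) od_om
      fun i f hi h1 h2 h3 =>
        have hf : f ∈ Sq (kk : M) := mem_Sq.2 ⟨h1, h2 ▸ hi, fun j hj => (h3 j (h2 ▸ hj)).1⟩
        ((ae_mem hA).and (ae_vg.and ((ae_V (sq_V ht)).and ((ae_V (sq_V hf)).and
          ((hD.col ht hf).1.ae_below (nu_mem_k ht)))))).ex
  have e1 : ∀ t k, t ∈ Sq (kk : M) → k ∈ (om : M) → dom (res (ap H t) k) = k := fun t k ht hk =>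
    dom_res ((hH t ht).2.1.symm ▸ od_om.1 k hk)
  have e2 : ∀ t k, t ∈ Sq (kk : M) → k ∈ (om : M) → res (ap H t) k ∈ Sq (kk : M) :=
    fun t k ht hk => mem_Sq.2 ⟨(hH t ht).1.res k, (e1 t k ht hk).symm ▸ hk, fun i hi => by
      rw [e1 t k ht hk] at hi
      rw [ap_res _ hi]
      exact ((hH t ht).2.2 i (od_om.tr hk hi)).1⟩
  obtain ⟨c, c1, c2⟩ := col0_sep (fun t x => ∃ k, k ∈ (om : M) ∧
      op (op t (res (ap H t) k)) x ∈ D) fun t ht => by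
    have e3 : ∀ i j, j ∈ (om : M) → i ∈ j → IsCol (nu t) (un (lv D (op t (res (ap H t) i)))
        (lv D (op t (res (ap H t) j)))) := fun i j hj hi =>
      (hD.col ht (e2 t i ht (od_om.tr hj hi))).1.un (io_nu ht) (hD.col ht (e2 t j ht hj)).1
        fun x y hx hy g => (not_mem_self _ ((hD.col ht (e2 t j ht hj)).2 y (mem_lv.1 hy) _
          (sub_mx ((e1 t j ht hj).symm ▸ hi) _ (by
            rw [ap_res _ hi, ← g]
            exact ((hH t ht).2.2 i (od_om.tr hj hi)).2.2.2.2.2 x hx)))).elim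
    refine ⟨bUn om fun k => lv D (op t (res (ap H t) k)), isCol_of (fun x y hx hy => ?_)
      ((io_nu ht).bUn _ (io_nu ht).le_om fun k hk => (hD.col ht (e2 t k ht hk)).1.2.2),
      fun x ⟨k, hk, g⟩ => mem_bUn.2 ⟨k, hk, mem_lv.2 g⟩⟩
    obtain ⟨i, hi, hx⟩ := mem_bUn.1 hx
    obtain ⟨j, hj, hy⟩ := mem_bUn.1 hy
    rcases (od_om.el hi).tri (od_om.el hj) with g | rfl | g
    · exact ⟨_, e3 i j hj g, sub_un_l _ _ _ hx, sub_un_r _ _ _ hy⟩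
    · exact ⟨_, (hD.col ht (e2 t i ht hi)).1, hx, hy⟩
    · exact ⟨_, e3 j i hi g, sub_un_r _ _ _ hx, sub_un_l _ _ _ hy⟩
  obtain ⟨q, q1, q2, q3, q4⟩ := ex_cond inc_emp ((ae_mem hA).and (diag (fun t b =>
      t ∈ Sq (kk : M) → ∃ z, z ∈ b ∧ ∀ k, k ∈ (om : M) → ap (ap H t) k ∈ z) fun t _ =>
    ae_imp fun ht => let ⟨z, g1, g2⟩ := (ae_all sm_om (fun k z => ap (ap H t) k ∈ z)
      fun k hk => ae_gt ((hH t ht).2.2 k hk).1).ex
      (ae_gt g1).mono fun _ _ g => ⟨z, g, g2⟩)) c1 (bl_emp c)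
  refine ⟨q, H, q1, fun p hp => ?_⟩
  have u := le_up hp
  rw [q2] at u
  have hi := u.2.1
  have u1 : ∀ n, n ∈ dom (ps p) → ap (ps p) n ∈ pA q := fun n hn =>
    u.2.2 n hn (by rw [dom_emp]; exact not_mem_emp n)
  have u2 : ∀ n, n ∈ dom (ps p) → ∃ z, z ∈ ap (ps p) n ∧ ∀ k, k ∈ (om : M) →
      ap (hs H (ps p)) (op n k) ∈ z := fun n hn =>
    ((q3 _ (u1 n hn)).2 _ (hi.2 n hn).1 (res_lt_Sq hi.1 hn)).imp fun z g =>
      ⟨g.1, fun k hk => by rw [hs_nat H hn hk]; exact g.2 k hk⟩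
  have u3 : ∀ n k : M, n ∈ dom (ps p) → k ∈ suc (om : M) → (ap (hs H (ps p)) (op n k) ∈ (kk : M) ∧
      ap (hs H (ps p)) (op n k) ∈ A ∧ VG (ap (hs H (ps p)) (op n k)) ∧
      res (ps p) n ∈ Vv (ap (hs H (ps p)) (op n k))) ∧
      Sub (ap (hs H (ps p)) (op n k)) (ap (ps p) n) := fun n k hn hk => by
    rcases mem_suc.1 hk with hk | rfl
    · obtain ⟨z, g1, g2⟩ := u2 n hn
      refine ⟨?_, (hi.2 n hn).2.1.od.1 _ ((hi.2 n hn).2.1.od.tr g1 (g2 k hk))⟩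
      rw [hs_nat H hn hk]
      obtain ⟨g3, g4, g5, g6, -⟩ := (hH _ (res_lt_Sq hi.1 hn)).2.2 k hk
      exact ⟨g3, g4, g5, g6⟩
    · rw [hs_om H hn]
      exact ⟨⟨(mem_Sq.1 hi.1).2.2 n hn, (q3 _ (u1 n hn)).1, (hi.2 n hn).2, (hi.2 n hn).1⟩, Sub.rfl⟩
  refine ⟨u2, ⟨⟨isF_hs _ _, ?_, fun c hc => ?_⟩, fun c hc => ?_⟩, fun m hm e => ?_⟩
  · rw [dom_hs]
    exact fun c hc => let ⟨_, _, g1, g2, g3⟩ := mem_prd.1 hc
      g3 ▸ op_mem_prd.2 ⟨od_om.tr (mem_Sq.1 hi.1).2.1 g1, g2⟩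
  · rw [dom_hs] at hc ⊢
    obtain ⟨n, k, hn, hk, rfl⟩ := mem_prd.1 hc
    obtain ⟨⟨g1, -, g2, g3⟩, -⟩ := u3 n k hn hk
    refine ⟨g1, g2, fun d hd l => ?_⟩
    obtain ⟨a, b, ha, hb, rfl⟩ := mem_prd.1 hd
    refine g2.1.lt (od_k.el (u3 a b ha hb).1.1) ?_
    rcases lt_op.1 l with l' | ⟨rfl, l'⟩
    · exact g2.1.sub (g2.1.ap g3 a) (by rw [ap_res _ l']; exact (u3 a b ha hb).2)
    · rcases mem_suc.1 hk with hk | rfl
      · rw [hs_nat H ha (od_om.tr hk l'), ← ap_res _ l']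
        refine g2.1.ap ?_ b
        rw [hs_nat H ha hk]
        exact ((hH _ (res_lt_Sq hi.1 ha)).2.2 k hk).2.2.2.2.1
      · obtain ⟨z, k1, k2⟩ := u2 a ha
        refine g2.1.V ?_
        rw [hs_om H ha]
        exact (hi.2 a ha).2.1.od.tr k1 (k2 b l')
  · rw [dom_hs] at hc
    obtain ⟨n, k, hn, hk, rfl⟩ := mem_prd.1 hc
    exact (u3 n k hn hk).1.2.1
  · have d := dom_res (TT_hs H hm e)
    have e3 : ∀ a, Sub a m → tt (res (hs H (ps p)) (TT m)) a = res (ps p) a := fun a ha =>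
      (tt_congr (isF_hs _ _) (res_sub _ _) fun i g => d.symm ▸ mem_TT.2 ⟨ha i g, Or.inr rfl⟩).trans
        (tt_hs H hi.isF (ha.trans e))
    refine ⟨(e3 m Sub.rfl).symm ▸ res_sub _ _, fun b hb _ => (q3 b (hb.elim (le_A hp b)
      fun ⟨i, g1, g2⟩ => g2 ▸ u1 i g1)).1, emp_sub _, fun a b x ha hb _ g => ?_,
      fun u x hu _ g => le_c hp hu (q4 ▸ (c2 u x).2 ⟨hu.sq, emp, emp_mem_om, by rwa [res_emp]⟩)⟩
    have hb' := od_om.tr (suc_mem_om hm) hb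
    have ht := res_lt_Sq hi.1 (e a ha)
    rw [el_congr (isF_hs _ _) (res_sub _ _) fun i g => d.symm ▸ mem_TT.2
      ⟨ha, Or.inl ((od_om.el hm).sub_of_mem_suc hb i g)⟩, el,
      lam_congr fun i g => hs_nat H (e a ha) (od_om.tr hb' g),
      lam_ap (hH _ ht).1 ((hH _ ht).2.1.symm ▸ od_om.1 b hb')] at g
    rw [e3 a ((od_om.el hm).1 a ha)] at g ⊢
    exact le_c hp (Or.inl ⟨ht, res_sub _ _⟩) (q4 ▸ (c2 _ x).2 ⟨ht, b, hb', g⟩)

/-- for all subsets of some measure one set -/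
def Lg (P : M → Prop) : Prop := ∃ A, A ∈ (UU : M) ∧ ∀ B, Sub B A → P B

instance df_lg (P : M → (ℕ → M) → Prop) [h : Df fun v => P (v 0) fun i => v (i + 1)] :
    Df fun v => Lg fun x => P x v := by
  have h1 : Df fun v : ℕ → M => P (v 0) fun i => v (i + 1 + 1) :=
    ⟨h.out.ren fun i => Nat.casesOn i 0 fun j => j + 2⟩
  unfold Lg; infer_instance

theorem Lg.mono {P Q : M → Prop} (h : Lg P) (e : ∀ B, P B → Q B) : Lg Q :=
  let ⟨A, h1, h2⟩ := h; ⟨A, h1, fun B hB => e B (h2 B hB)⟩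

theorem Lg.and {P Q : M → Prop} (h : Lg P) (h' : Lg Q) : Lg fun B => P B ∧ Q B :=
  let ⟨_, h1, h2⟩ := h
  let ⟨_, g1, g2⟩ := h'
  let ⟨C, k1, k2⟩ := (ae_mem h1).and (ae_mem g1)
  ⟨C, k1, fun B hB => ⟨h2 B fun x hx => (k2 x (hB x hx)).1, g2 B fun x hx => (k2 x (hB x hx)).2⟩⟩

theorem lg_all {S : M} (hS : Sm S) (P : M → M → Prop) [D2 P]
    (h : ∀ i, i ∈ S → Lg fun B => P i B) : Lg fun B => ∀ i, i ∈ S → P i B := by
  obtain ⟨f, hf⟩ := chs S (fun i A => A ∈ (UU : M) ∧ ∀ B, Sub B A → P i B) h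
  obtain ⟨A, h1, h2⟩ := ae_all hS (fun i b => b ∈ ap f i) fun i hi => ae_mem (hf i hi).1
  exact ⟨A, h1, fun B hB i hi => (hf i hi).2 B fun x hx => h2 x (hB x hx) i hi⟩

theorem Ae.lg {P : M → Prop} (h : Ae P) : Lg fun B : M => ∀ b, b ∈ B → P b :=
  let ⟨A, h1, h2⟩ := h; ⟨A, h1, fun _ hB b hb => h2 b (hB b hb)⟩

/-- terms -/
noncomputable def TM : M := prd om (funs HS kk)

theorem ev_mem {y h : M} (hy : y ∈ (TM : M)) (hh : Hist h) : ev y h ∈ (kk : M) :=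
  (mem_funs.1 (prd_eta hy).2.1).2.2 _ (hh.sub (res_sub _ _)).hs

theorem lg_const {y : M} (hy : y ∈ (TM : M)) : ∃ G, Lg fun B => ∀ h j k, FH B h →
    Sub (TT (fst y)) (dom h) → j ∈ (om : M) → k ∈ suc (fst y) →
    (∀ c, c ∈ TT (fst y) → c ∉ II (fst y) j k → ev y h ∈ ap h c) →
    ev y h = ap G (res h (II (fst y) j k)) := by
  obtain ⟨G, A, h1, h2⟩ := ex_const (prd_eta hy).1 (snd y)
  refine ⟨G, A, h1, fun B hB h j k hh e hj hk l => ?_⟩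
  obtain ⟨-, g1, g2, g3⟩ := hh.ex hB e
  rw [← res_res h (a := TT (fst y)) (b := II (fst y) j k) sep_sub]
  exact h2 _ j k hj hk g2 g1 (fun c hc => g3 c hc (by rw [dom_emp]; exact not_mem_emp c))
    fun c hc g => by rw [ap_res h hc]; exact l c hc g

theorem lg_eta {y : M} (hy : y ∈ (TM : M)) : Lg fun B => ∀ h n, FH B h →
    Sub (TT (fst y)) (dom h) → op n om ∈ dom h → op n (fst y) ∈ dom h →
    ev y h ∈ ap h (op n om) → ev y h ∈ ap h (op n (fst y)) := by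
  obtain ⟨G, hG⟩ := lg_const hy
  refine (hG.and (diag (fun z b => ap G z ∈ (kk : M) → ap G z ∈ b)
    fun _ _ => ae_imp ae_gt).lg).mono fun B ⟨h1, h2⟩ h n hh e g1 g2 g3 => ?_
  have hn := (op_mem_prd.1 (hh.1.2.1 _ g1)).1
  have e1 := h1 h n _ hh e hn (self_mem_suc _) fun c hc g => by
    obtain ⟨a, b, rfl, ha, hb⟩ := TT_ex hc
    rcases (od_om.el hn).tri (od_om.el (od_om.tr (prd_eta hy).1 ha)) with l | rfl | l
    · exact (hh.1.gd (e _ hc)).od.tr (hh.1.lt (e _ hc) g1 (lt_op.2 (Or.inl l))) g3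
    · exact hb.elim (fun k => (g (mem_II.2 ⟨⟨ha, hb⟩, Or.inr ⟨rfl, k⟩⟩)).elim) fun k => k ▸ g3
    · exact (g (mem_II.2 ⟨⟨ha, hb⟩, Or.inl l⟩)).elim
  rw [e1]
  refine h2 _ (hh.2 _ g2) _ ((hh.1.sub (res_sub _ _)).V (hh.1.gd g2) fun c hc => ?_)
    (e1 ▸ ev_mem hy hh.1)
  obtain ⟨k1, k2⟩ := mem_dom_res.1 hc
  rw [ap_res h k2]
  exact (hh.1.gd g2).V (hh.1.lt g2 k1 (by simpa only [Lt, fst_op, snd_op] using (mem_sep.1 k2).2))

theorem lg_level {T : M} (hT : Sub T TM) : ∃ G, ∀ y, y ∈ T → Lg fun B => ∀ h n x, FH B h →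
    Sub (TT (fst y)) (dom h) → n ∈ (om : M) → (∀ i, i ∈ n → op i om ∈ dom h) → Od x →
    Sub (mx (tt h n)) x → ev y h ∈ sc (nu (tt h n)) →
    ∃ w, w ∈ PF (suc x) ∧ ev y h = ap (ap G y) w := by
  refine chs T (fun y G => Lg fun B => ∀ h n x, FH B h → Sub (TT (fst y)) (dom h) →
    n ∈ (om : M) → (∀ i, i ∈ n → op i om ∈ dom h) → Od x → Sub (mx (tt h n)) x →
    ev y h ∈ sc (nu (tt h n)) → ∃ w, w ∈ PF (suc x) ∧ ev y h = ap G w) fun y hy => ?_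
  have hm := (prd_eta (hT y hy)).1
  refine (lg_const (hT y hy)).imp fun G hG => hG.mono fun B h1 h n x hh e hn g1 hx g2 g3 =>
    ⟨_, mem_bUn.2 ⟨op (fst y) n, op_mem_prd.2 ⟨hm, hn⟩, ?_⟩, h1 h n emp hh e hn
      (od_emp.mem_suc (od_om.el hm) (emp_sub _)) fun c hc g => ?_⟩
  · rw [fst_op, snd_op]
    refine mem_funs.2 ⟨hh.1.1.res _, dom_res (Sub.trans sep_sub e), fun c hc => ?_⟩
    rw [ap_res h hc]
    have k := e c (mem_sep.1 hc).1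
    obtain ⟨a, b, rfl, -⟩ := TT_ex (mem_sep.1 hc).1
    have l := (mem_II.1 hc).2.resolve_right fun g => not_mem_emp b g.2
    exact (hh.1.gd k).od.mem_suc hx ((hh.1.le_om k (g1 a l)).trans
      (ap_tt h l ▸ (sub_mx ((dom_tt h n).symm ▸ l)).trans g2))
  · have k := hh.1.gd (e c hc)
    exact k.od.tr (k.sc (k.nu (hh.1.tt_sq hn g1) (hh.1.tt_V hn g1 (e c hc)
      ((od_om.el hn).sub_of_not_mem (Co_od (TT_sub hm c hc)).1
        fun l => g (mem_sep.2 ⟨hc, Or.inl l⟩))))) g3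

theorem lg_succ {T : M} (hT : Sub T TM) (h : Le T (sc bz)) : ∃ F, F ∈ funs (kk : M) kk ∧
    (∀ x, x ∈ (kk : M) → Sub (sc bz) x → ap F x ∈ sc x) ∧ ∀ y, y ∈ T → Lg fun B =>
      ∀ h n e, FH B h → Sub (TT (fst y)) (dom h) → n ∈ (om : M) → (∀ i, i ∈ n → op i om ∈ dom h) →
        ev y h ∈ sc (ph e (tt h n)) → ev y h ∈ ap F (ph e (tt h n)) := by
  obtain ⟨G, hG⟩ := lg_level hT
  obtain ⟨F, h1, h2⟩ := chs_funs (a := kk) (b := kk) (fun x => Sub (sc bz) x)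
    (fun x b => b ∈ sc x ∧ ∀ y w, y ∈ T → w ∈ PF (suc x) → ap (ap G y) w ∈ sc x →
      ap (ap G y) w ∈ b) (io_k.2 _ emp_mem_om) fun x hx e =>
    let ⟨b, g1, _, g2⟩ := ex_bnd G (io_bz.sc.mono (od_k.el hx) e) (h.trans (le_of_sub e))
      (od_k.el hx).lt_sc
    ⟨b, od_k.tr (sc_mem_k hx) g1, g1, g2⟩
  refine ⟨F, h1, fun x hx e => (h2 x hx e).1, fun y hy => (hG y hy).mono
    fun B g h n e hh g1 hn g2 g3 => ?_⟩
  obtain ⟨k1, k2, k3⟩ := ph_tp e (hh.1.tt_sq hn g2)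
  obtain ⟨w, k4, k5⟩ := g h n _ hh g1 hn g2 (od_k.el k1) ((sub_un_r _ _).trans k2)
    (sc_mono (le_of_sub k3) _ g3)
  exact k5 ▸ (h2 _ k1 ((sub_un_l _ _).trans k2)).2 y w hy k4 (k5 ▸ g3)

theorem lg_al2 {T g : M} (hT : Sub T TM) (h : Le T (sc om)) (hg : g ∈ sc (bz : M)) :
    ∃ g', g' ∈ sc (bz : M) ∧ g ∈ g' ∧ ∀ y, y ∈ T → Lg fun B => ∀ h, FH B h →
      Sub (TT (fst y)) (dom h) → Le (sc om) (bz : M) → ev y h ∈ sc (bz : M) → ev y h ∈ g' := by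
  by_cases k0 : Le (sc om) (bz : M)
  swap
  · exact ⟨_, io_bz.suc_mem hg, self_mem_suc g, fun _ _ =>
      ex_U.imp fun _ h => ⟨h, fun _ _ _ _ _ k => absurd k k0⟩⟩
  obtain ⟨G, hG⟩ := lg_level hT
  obtain ⟨b, g1, g2, g3⟩ := ex_bnd G io_bz (h.trans k0) hg
  refine ⟨b, g1, g2, fun y hy => (hG y hy).mono fun B g h hh k1 _ k2 => ?_⟩
  obtain ⟨w, k4, k5⟩ := g h emp _ hh k1 emp_mem_om (fun i hi => (not_mem_emp i hi).elim) io_bz.1
    (by rw [tt, lam_emp, mx_emp]; exact emp_sub _) (by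
      rw [tt, lam_emp]
      exact (io_nu (emp_mem_Sq _)).1.sub_sc _ (tp_sub_nu _ _ (tp_emp (M := M) ▸ k2)))
  exact k5 ▸ g3 y w hy k4 (k5 ▸ k2)

end Pool.Agent.P.MP_5f3b23_lc.Zf.G.Pool.Agent.P.MP_5f3b23_lc.Zf
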