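import Pool.Agent.P.MP_2e9c36_lc.GHist

set_option autoImplicit false
set_option synthInstance.maxSize 4000

/-! Systems of collapse conditions depending on indiscernibles; deciding one value uniformly. -/

open Pool.Agent.Lib.PosetForcing

namespace Pool.Agent.P.MP_5f3b23_lc.Zf.G.Pool.Agent.P.MP_5f3b23_lc.Zf
open _root_.Pool.Agent.P.MP_5f3b23_lc.Zf.G

universe v

variable {M : Type v} [Zm M] [NG M]

/-- indices of systems -/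
noncomputable def SS : M := prd (Sq kk) (Sq kk)

/-- valid systems of pieces -/
def Sys (D : M) : Prop :=
  Asg SS (fun s => nu (fst s)) (fun s x => Sub (mx (snd s)) (fst x)) D

instance df_sys (a : (ℕ → M) → M) [Tm a] : Df fun v => Sys (a v) := by
  unfold Sys Asg; infer_instance

theorem Sys.col {D t l : M} (h : Sys D) (ht : t ∈ Sq (kk : M)) (hl : l ∈ Sq (kk : M)) :
    IsCol (nu t) (lv D (op t l)) ∧ ∀ x, op (op t l) x ∈ D → Sub (mx l) (fst x) := by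
  simpa using h.2 _ (op_mem_prd.2 ⟨ht, hl⟩)

theorem sys_sep (P : M → M → M → Prop) [D3 P] (h : ∀ t l, t ∈ Sq (kk : M) → l ∈ Sq (kk : M) →
    ∃ d, IsCol (nu t) d ∧ ∀ x, P t l x → x ∈ d ∧ Sub (mx l) (fst x)) :
    ∃ D : M, Sys D ∧ ∀ t l x, op (op t l) x ∈ D ↔
      (t ∈ Sq (kk : M) ∧ l ∈ Sq (kk : M)) ∧ P t l x := by
  have e : ∀ t l x, op (op t l) x ∈ (sep (prd SS (Vv kk)) fun z =>
      P (fst (fst z)) (snd (fst z)) (snd z)) ↔ (t ∈ Sq (kk : M) ∧ l ∈ Sq (kk : M)) ∧ P t l x :=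
    fun t l x => by
      simp only [mem_sep, SS, op_mem_prd, fst_op, snd_op]
      exact ⟨fun g => ⟨g.1.1, g.2⟩, fun g => let ⟨_, g1, g2⟩ := h t l g.1.1 g.1.2
        ⟨⟨g.1, gd_k.el (g1.Vk (nu_mem_k g.1.1)) (g2 x g.2).1⟩, g.2⟩⟩
  refine ⟨_, ⟨sep_sub, fun s hs => ?_⟩, e⟩
  obtain ⟨t, l, ht, hl, rfl⟩ := mem_prd.1 hs
  obtain ⟨d, g1, g2⟩ := h t l ht hl
  simp only [fst_op, snd_op]
  exact ⟨g1.sub fun x hx => (g2 x ((e t l x).1 (mem_lv.1 hx)).2).1,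
    fun x hx => (g2 x ((e t l x).1 hx).2).2⟩

theorem Sys.sub {D D' : M} (h : Sys D) (e : ∀ t l x, t ∈ Sq (kk : M) → l ∈ Sq (kk : M) →
    op (op t l) x ∈ D → op (op t l) x ∈ D') : Sub D D' := fun p hp => by
  obtain ⟨s, x, hs, -, rfl⟩ := mem_prd.1 (h.1 p hp)
  obtain ⟨t, l, ht, hl, rfl⟩ := mem_prd.1 hs
  exact e t l x ht hl hp

theorem Sys.sq {D t l x : M} (h : Sys D) (e : op (op t l) x ∈ D) :
    t ∈ Sq (kk : M) ∧ l ∈ Sq (kk : M) := op_mem_prd.1 (op_mem_prd.1 (h.1 _ e)).1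

/-- `q` extends the conditions attached to the history `w` beyond the coordinates in `I` -/
def Fits (m I q w D r A : M) : Prop := Sub (tt w m) (ps q) ∧
  (∀ b, (b ∈ pA q ∨ ∃ i, i ∈ dom (ps q) ∧ b = ap (ps q) i) → w ∈ Vv b → b ∈ A) ∧
  Sub r (low (tt w m) (pc q)) ∧
  (∀ a b x, a ∈ m → b ∈ suc m → Sub I (II m a b) → op (op (tt w a) (el w a b)) x ∈ D →
    op (tt w a) x ∈ pc q) ∧
  ∀ u x, In q u → Sub (tt w m) u → op (op u emp) x ∈ D → op u x ∈ pc q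

instance df_fits (a b c d e f g : (ℕ → M) → M) [Tm a] [Tm b] [Tm c] [Tm d] [Tm e] [Tm f] [Tm g] :
    Df fun v => Fits (a v) (b v) (c v) (d v) (e v) (f v) (g v) := by
  unfold Fits; infer_instance

section
variable (R : M → M → M → Prop)

/-- the system `D` decides a value above the history `z` -/
def WA (m z D r A : M) : Prop := ∀ w, Ex m z A w → ∃ y, y ∈ (kk : M) ∧
  ∀ q, q ∈ (PPs : M) → Fits m (dom z) q w D r A → Dn (fun p => R w y p) q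

instance df_wa [D3 R] (a b c d e : (ℕ → M) → M) [Tm a] [Tm b] [Tm c] [Tm d] [Tm e] :
    Df fun v => WA R (a v) (b v) (c v) (d v) (e v) := by
  unfold WA; infer_instance

variable {R}

theorem WA.mono {m z D D' r A j e x : M} (hc : op j e ∈ TT m) (hx : op (op j e) x ∈ z)
    (h : WA R m z D r A) (g : ∀ s y, (Sub x (tp (fst s)) ∨ ∃ i, i ∈ dom (snd s) ∧
      x = ap (snd s) i) → op s y ∈ D → op s y ∈ D') : WA R m z D' r A := fun w hw => by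
  obtain ⟨y, h1, h2⟩ := h w hw
  have e1 := hw.2.2.1.1.ap_eq (hw.1 _ hx)
  have e2 : Sub x (ap w (op j om)) := e1 ▸ hw.2.2.1.le_om (hw.2.1 ▸ hc)
    (hw.2.1 ▸ mem_TT.2 ⟨(mem_TT.1 hc).1, Or.inr rfl⟩)
  refine ⟨y, h1, fun q hq f => h2 q hq ⟨f.1, f.2.1, f.2.2.1, fun a b y ha hb k k' =>
    f.2.2.2.1 a b y ha hb k (g _ y ?_ k'), fun u y hu k k' => f.2.2.2.2 u y hu k (g _ y ?_ k')⟩⟩
  · rw [fst_op, snd_op, dom_el]
    refine (mem_II.1 (k _ (mem_dom.2 ⟨_, hx, (fst_op _ _).symm⟩))).2.imp (fun l => ?_) fun l => ?_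
    · exact e2.trans (ap_tt w l ▸ (sub_mx ((dom_tt w a).symm ▸ l)).trans (sub_un_r _ _))
    · exact ⟨e, l.2, by rw [ap_el w a l.2, ← l.1, e1]⟩
  · rw [fst_op]
    have l : j ∈ dom (tt w m) := (dom_tt w m).symm ▸ (mem_TT.1 hc).1
    rw [← ap_tt w (mem_TT.1 hc).1, (mem_Sq.1 hu.sq).1.ap_sub k l] at e2
    exact Or.inl (e2.trans ((sub_mx (dom_mono k _ l)).trans (sub_un_r _ _)))

variable [D3 R]

theorem gen_step {m j k e j' k' z D r : M} (nx : Nx m j k e j' k') (hm : m ∈ (om : M))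
    (hz : Hist z) (hd : dom z = II m j k)
    (H : ∀ x D r, Hist (ins (op (op j e) x) z) → Sys D → LowOK (snoc (tt z j) x) r →
      ∃ D' r', Sys D' ∧ Sub D D' ∧ LowOK (snoc (tt z j) x) r' ∧ Sub r r' ∧
        ∃ A, A ∈ (UU : M) ∧ WA R m (ins (op (op j e) x) z) D' r' A)
    (hD : Sys D) (hr : LowOK (snoc (tt z j) (mx (el z j k))) r) :
    ∃ D' r', Sys D' ∧ Sub D D' ∧ LowOK (snoc (tt z j) (mx (el z j k))) r' ∧ Sub r r' ∧
      ∃ A, A ∈ (UU : M) ∧ WA R m z D' r' A := by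
  have om_ := od_om.el hm
  have c1 : ∀ i, i ∈ j → op i om ∈ dom z := fun i hi =>
    hd ▸ mem_II.2 ⟨⟨om_.tr nx.1 hi, Or.inr rfl⟩, Or.inl hi⟩
  have c2 : ∀ i, i ∈ k → op j i ∈ dom z := fun i hi =>
    hd ▸ mem_II.2 ⟨⟨nx.1, Or.inl (om_.sub_of_mem_suc nx.k_mem i hi)⟩, Or.inr ⟨rfl, hi⟩⟩
  have ht := hz.tt_sq (od_om.tr hm nx.1) c1
  have hl : el z j k ∈ Sq (kk : M) :=
    lam_mem_Sq (od_om.tr (suc_mem_om hm) nx.k_mem) fun i hi => hz.k (c2 i hi)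
  obtain ⟨t, et⟩ : ∃ t, t = tt z j := ⟨_, rfl⟩
  obtain ⟨l, el'⟩ : ∃ l, l = el z j k := ⟨_, rfl⟩
  rw [← et] at H hr ht ⊢
  rw [← el'] at hr hl ⊢
  have dt : dom t = j := et ▸ dom_tt z j
  obtain ⟨d1, d2⟩ := hD.col ht hl
  obtain ⟨r0, r2, r3, r4⟩ := (lowOK_snoc ht).1 hr
  rw [dt] at r0 r2 r3 r4
  obtain ⟨r1, m1⟩ : ∃ r1, ∀ p, p ∈ r1 ↔ p ∈ r ∨ ∃ x, x ∈ lv D (op t l) ∧ p = op j x :=
    ⟨un r (img (lv D (op t l)) fun x => op j x), fun p => by rw [mem_un, mem_img]⟩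
  have h1 : IsCol (nu t) (lv r1 j) := (r3.un (io_nu ht) d1 fun x y hx hy g =>
    (not_mem_self _ (d2 y (mem_lv.1 hy) _ (g ▸ r4 x hx))).elim).sub fun x hx =>
      mem_un.2 (((m1 _).1 (mem_lv.1 hx)).imp mem_lv.2 fun ⟨y, g1, g2⟩ => (op_inj g2).2 ▸ g1)
  have a1 : Ae fun x => Hist (ins (op (op j e) x) z) ∧ LowOK (snoc t x) r1 :=
    (ae_vg.and ((ae_V (hz.V gd_k fun c hc => gd_k.V (hz.k hc))).and
      (h1.ae_below (nu_mem_k ht)))).mono fun x hx ⟨g1, g2, g3⟩ =>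
      ⟨hz.ins (TT_sub hm _ nx.mem) hx g1 g2 fun d g => nx.lt1 hm (hd ▸ g), (lowOK_snoc ht).2 (by
        rw [dt]
        refine ⟨fun p hp => ((m1 p).1 hp).elim (r0 p) fun ⟨y, _, g⟩ => ⟨j, y, g, self_mem_suc j⟩,
          fun i hi => ?_, h1, g3⟩
        have : Sub (lv r1 i) (lv r i) := fun y hy => mem_lv.2 (((m1 _).1 (mem_lv.1 hy)).resolve_right
          fun ⟨_, _, g⟩ => not_mem_self j ((op_inj g).1 ▸ hi))
        exact ⟨(r2 i hi).1.sub this, fun y hy => (r2 i hi).2 y (this y hy)⟩)⟩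
  obtain ⟨D1, h2, h3, h4⟩ := meet_all SS (fun s => nu (fst s)) (fun s hs => io_nu (prd_eta hs).1)
    (fun s x => Sub (mx (snd s)) (fst x)) od_k
    (fun x s => Sub x (tp (fst s)) ∨ ∃ i, i ∈ dom (snd s) ∧ x = ap (snd s) i)
    (fun s hs => by
      have g := io_tp (prd_eta hs).1
      refine (le_of_sub fun x hx => mem_un.2 ((mem_sep.1 hx).2.imp
        ((od_k.el (mem_sep.1 hx).1).mem_suc g.1) mem_img.2)).trans ((g.un (g.ins Le.rfl _)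
          ((le_img _ fun i => ap (snd s) i).trans (le_of_sub ?_))).trans (le_of_sub (tp_sub_nu _)))
      exact (od_om.1 _ (mem_Sq.1 (prd_eta hs).2.1).2.1).trans g.2)
    (fun x D' => Hist (ins (op (op j e) x) z) ∧ LowOK (snoc t x) r1 → ∃ r',
      LowOK (snoc t x) r' ∧ Sub r1 r' ∧ ∃ A, A ∈ (UU : M) ∧ WA R m (ins (op (op j e) x) z) D' r' A)
    (fun x D' D'' _ g h k => let ⟨r', g1, g2, A, g3, g4⟩ := h k
      ⟨r', g1, g2, A, g3, g4.mono nx.mem (mem_ins.2 (Or.inr rfl)) g⟩) (fun x D' _ hD' => by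
      by_cases g : Hist (ins (op (op j e) x) z) ∧ LowOK (snoc t x) r1
      · obtain ⟨D'', r', g1, g2, g3⟩ := H x D' r1 g.1 hD' g.2
        exact ⟨D'', g1, g2, fun _ => ⟨r', g3⟩⟩
      · exact ⟨D', hD', Sub.rfl, fun k => absurd k g⟩) hD
  obtain ⟨ρ, -, hρ⟩ := press_ex (fun ρ x => LowOK (snoc t x) ρ ∧ Sub r1 ρ ∧ ∃ A, A ∈ (UU : M) ∧
      WA R m (ins (op (op j e) x) z) D1 ρ A) ((a1.and (ae_gd.and (ae_V (sq_V ht)))).mono
    fun x hx ⟨g1, g2, g3⟩ => let ⟨r', g⟩ := h4 x hx g1; ⟨r', g.1.V_snoc ht g2 hx g3, g⟩)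
  obtain ⟨b0, -, p1, p2, -⟩ := hρ.ex
  obtain ⟨p0, p3, p4, -⟩ := (lowOK_snoc ht).1 p1
  rw [dt] at p0 p3 p4
  obtain ⟨D', s1, s2⟩ := sys_sep (fun u v x => (op u v = op t l ∧ op j x ∈ ρ ∧
      Sub (mx l) (fst x)) ∨ (op u v ≠ op t l ∧ op (op u v) x ∈ D1)) fun u v hu hv => by
    by_cases g : op u v = op t l
    · obtain ⟨rfl, rfl⟩ := op_inj g
      exact ⟨_, p4, fun x hx => let k := (hx.resolve_right fun k => k.1 rfl).2
        ⟨mem_lv.2 k.1, k.2⟩⟩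
    · exact ⟨_, (Sys.col h2 hu hv).1, fun x hx => let k := (hx.resolve_left fun k => g k.1).2
        ⟨mem_lv.2 k, (Sys.col h2 hu hv).2 x k⟩⟩
  have m2 : ∀ i x, op i x ∈ (sep ρ fun p => fst p = j → fst (snd p) ∈ mx l) ↔
      op i x ∈ ρ ∧ (i = j → fst x ∈ mx l) := fun i x => by rw [mem_sep, fst_op, snd_op]
  obtain ⟨A, hA, eA⟩ := diag_set (fun x B => WA R m (ins (op (op j e) x) z) D1 ρ B)
    (hρ.mono fun _ _ g => g.2.2)
  refine ⟨D', sep ρ fun p => fst p = j → fst (snd p) ∈ mx l, s1, hD.sub fun u v x hu hv g =>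
    (s2 u v x).2 ⟨⟨hu, hv⟩, ?_⟩, (lowOK_snoc ht).2 ?_, fun p hp => ?_, A, hA, fun w hw => ?_⟩
  · by_cases g' : op u v = op t l
    · rw [g'] at g
      exact Or.inl ⟨g', p2 _ ((m1 _).2 (Or.inr ⟨x, mem_lv.2 g, rfl⟩)), d2 x g⟩
    · exact Or.inr ⟨g', h3 _ g⟩
  · rw [dt]
    have : ∀ i, Sub (lv (sep ρ fun p => fst p = j → fst (snd p) ∈ mx l) i) (lv ρ i) :=
      fun i x hx => mem_lv.2 ((m2 _ _).1 (mem_lv.1 hx)).1
    exact ⟨fun p hp => p0 p (mem_sep.1 hp).1, fun i hi => ⟨(p3 i hi).1.sub (this i),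
      fun x hx => (p3 i hi).2 x (this i x hx)⟩, p4.sub (this j),
      fun x hx => ((m2 _ _).1 (mem_lv.1 hx)).2 rfl⟩
  · obtain ⟨i, x, rfl, -⟩ := r0 p hp
    exact (m2 i x).2 ⟨p2 _ ((m1 _).2 (Or.inl hp)), fun g => r4 x (mem_lv.2 (g ▸ hp))⟩
  have n : op j e ∉ dom z := hd ▸ nx.nmem hm
  obtain ⟨-, B, g1, g2⟩ := eA _ (hw.2.2.2 _ (hw.2.1 ▸ nx.mem) n)
  obtain ⟨y, g3, g4⟩ := g1 w (hw.next nx.mem (fun d g k => nx.lt2 hm g (hd ▸ k)) g2)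
  rw [tt_congr hw.2.2.1.1 hw.1 c1] at et
  rw [el_congr hw.2.2.1.1 hw.1 c2] at el'
  refine ⟨y, g3, fun q hq f => g4 q hq ⟨f.1, fun b hb g => g2 b (f.2.1 b hb g)
    ((eA b (f.2.1 b hb g)).1.ap g _), fun p hp => ?_, fun a b x ha hb g g' => f.2.2.2.1 a b x ha hb
      ((dom_mono (sub_ins _ _)).trans g) ((s2 _ _ x).2 ⟨Sys.sq h2 g', Or.inr ⟨fun k0 => ?_, g'⟩⟩),
    fun u x hu g g' => f.2.2.2.2 u x hu g ((s2 _ _ x).2 ⟨Sys.sq h2 g', Or.inr ⟨fun k0 => ?_, g'⟩⟩)⟩⟩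
  · obtain ⟨i, x, rfl, -⟩ := p0 p hp
    by_cases g : i = j → fst x ∈ mx l
    · exact f.2.2.1 _ ((m2 i x).2 ⟨hp, g⟩)
    · obtain ⟨rfl, g'⟩ := Classical.not_imp.1 g
      refine (mem_low (cond_of hq).2.2.1).2 ⟨(dom_tt w m).symm ▸ nx.1, ?_⟩
      rw [res_tt w (om_.1 _ nx.1)]
      refine f.2.2.2.1 i k x nx.1 nx.k_mem (hd ▸ Sub.rfl) (et ▸ el' ▸ (s2 t l x).2 ⟨⟨ht, hl⟩,
        Or.inl ⟨rfl, hp, ?_⟩⟩)
      exact (od_k.el (gd_k.mx hl (sq_V hl))).sub_of_not_mem (od_k.el (p4.fst_mem (mem_lv.2 hp))) g'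
  · have k1 : a = j := by rw [← dom_tt w a, (op_inj k0).1, dt]
    have k2 : b = k := by rw [← dom_el w a b, (op_inj k0).2, el', dom_el]
    rw [k1, k2, dom_ins] at g
    exact nx.nmem hm (g _ (mem_ins.2 (Or.inr rfl)))
  · have k1 := dom_mono g j ((dom_tt w m).symm ▸ nx.1)
    rw [(op_inj k0).1, dt] at k1
    exact not_mem_self j k1

theorem lowOK_emp {t r : M} (ht : t ∈ Sq (kk : M)) : LowOK (snoc t emp) r ↔ LowOK t r := by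
  rw [lowOK_snoc ht]
  refine ⟨fun h => ⟨fun p hp => ?_, h.2.1⟩, fun h => ?_⟩
  · obtain ⟨i, x, rfl, hi⟩ := h.1 p hp
    exact ⟨i, x, rfl, (mem_suc.1 hi).resolve_right fun e =>
      not_mem_emp _ (h.2.2.2 x (mem_lv.2 (e ▸ hp)))⟩
  · have e : ∀ x, x ∉ lv r (dom t) := fun x hx =>
      let ⟨_, _, g1, g2⟩ := h.1 _ (mem_lv.1 hx); not_mem_self _ ((op_inj g1).1 ▸ g2)
    exact ⟨fun p hp => let ⟨i, x, g1, g2⟩ := h.1 p hp; ⟨i, x, g1, sub_suc _ _ g2⟩, h.2,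
      (isCol_emp _).sub fun x hx => (e x hx).elim, fun x hx => (e x hx).elim⟩

theorem nx_low {m j k e j' k' z x r : M} (nx : Nx m j k e j' k') (hm : m ∈ (om : M))
    (hd : dom z = II m j k) (hz : Hist (ins (op (op j e) x) z)) :
    LowOK (snoc (tt (ins (op (op j e) x) z) j') (mx (el (ins (op (op j e) x) z) j' k'))) r ↔
      LowOK (snoc (tt z j) x) r := by
  have om_ := od_om.el hm
  have c1 : ∀ i, i ∈ j → op i om ∈ dom z := fun i hi =>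
    hd ▸ mem_II.2 ⟨⟨om_.tr nx.1 hi, Or.inr rfl⟩, Or.inl hi⟩
  have e1 : ap (ins (op (op j e) x) z) (op j e) = x := ap_ins (hd ▸ nx.nmem hm)
  have e2 : op j e ∈ dom (ins (op (op j e) x) z) := by
    rw [dom_ins]; exact mem_ins.2 (Or.inr rfl)
  rw [tt_congr hz.1 (sub_ins _ _) c1]
  obtain ⟨h1, ⟨h2, rfl, rfl, rfl⟩ | ⟨rfl, rfl, rfl, rfl⟩⟩ := nx
  · rw [el, lam_suc, mx_snoc, e1, (un_sub ?_ Sub.rfl).antisymm (sub_un_r _ _)]
    intro y hy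
    obtain ⟨i, hi, g⟩ := mem_bUn.1 hy
    rw [dom_lam] at hi
    rw [ap_lam hi] at g
    exact e1 ▸ (hz.gd e2).od.tr (hz.lt e2 (dom_mono (sub_ins _ _) _ (hd ▸ mem_II.2
      ⟨⟨h1, Or.inl (om_.tr h2 hi)⟩, Or.inr ⟨rfl, hi⟩⟩)) (lt_op.2 (Or.inr ⟨rfl, hi⟩))) g
  · rw [el, lam_emp, mx_emp, lowOK_emp (hz.tt_sq (suc_mem_om (od_om.tr hm h1)) fun i hi =>
      (mem_suc.1 hi).elim (fun g => dom_mono (sub_ins _ _) _ (c1 i g)) fun g => g ▸ e2), tt,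
      lam_suc, e1]
    rfl

theorem base_step {m z D r g : M} (hm : m ∈ (om : M)) (hz : Hist z) (hd : dom z = TT m)
    (hD : Sys D) (hr : LowOK (tt z m) r) (hg : g ∈ (kk : M))
    (hR : ∀ q, q ∈ (PPs : M) → ∃ p, p ≤ q ∧ ∃ y, y ∈ g ∧ Dn (fun p => R z y p) p) :
    ∃ D' r', Sys D' ∧ Sub D D' ∧ LowOK (tt z m) r' ∧ Sub r r' ∧
      ∃ A, A ∈ (UU : M) ∧ WA R m z D' r' A := by
  have hi := hz.tt_inc hm fun i hi => hd ▸ mem_TT.2 ⟨hi, Or.inr rfl⟩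
  obtain ⟨D0, a1, a2⟩ := col0_sep (fun u x => op (op u emp) x ∈ D) fun u hu =>
    ⟨_, (hD.col hu (emp_mem_Sq _)).1, fun _ => mem_lv.2⟩
  obtain ⟨r', D1, b1, b2, b3, b4, -, -, y, A, b5, b6, b7⟩ := decide_base hi hi.1 Sub.rfl hr a1
    (fun _ h h' => absurd h h') (gd_k.V hg) (fun y p => R z y p) hR
  obtain ⟨D', s1, s2⟩ := sys_sep (fun u l x => op (op u l) x ∈ D ∨ (l = emp ∧ op u x ∈ D1))
    fun u l hu hl => by
      by_cases g : l = emp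
      · subst g
        exact ⟨_, b3.2 u hu, fun x hx => ⟨mem_lv.2 (hx.elim (fun k => b4 _ ((a2 u x).2 ⟨hu, k⟩))
          fun k => k.2), by rw [mx_emp]; exact emp_sub _⟩⟩
      · exact ⟨_, (hD.col hu hl).1, fun x hx => let k := hx.resolve_right fun k => g k.1
          ⟨mem_lv.2 k, (hD.col hu hl).2 x k⟩⟩
  refine ⟨D', r', s1, hD.sub fun u l x hu hl g => (s2 u l x).2 ⟨⟨hu, hl⟩, Or.inl g⟩, b1, b2, A, b6,
    fun w hw => ⟨y, od_k.tr hg b5, fun q hq f p hp => ?_⟩⟩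
  obtain rfl := hw.eq hd
  obtain ⟨q', g1, -, -, g2⟩ := ex_strong (le_l hp) (cond_of (le_l hp)).2.2.1
    (cond_of (le_l hp)).2.2.2.2 (ae_V (hz.V gd_k fun c hc => gd_k.V (hz.k hc))) fun _ _ _ g => g
  have g3 := ftr g1 hp
  have u := le_up g3
  have g4 := f.1.trans u.1
  refine (b7 q' (le_l g1) ⟨g4, u.2.1, fun i h1 h2 => f.2.1 _ ?_ ?_⟩
    (fun b hb => f.2.1 b (Or.inl (le_A g3 b hb)) (g2 b hb)) (f.2.2.1.trans (low_mono g3 hi.1 g4))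
    (fun u x hu k k' => le_c g3 hu (f.2.2.2.2 u x (hu.mono g3) k ((s2 _ _ x).2
      ⟨⟨hu.sq, emp_mem_Sq _⟩, Or.inr ⟨rfl, k'⟩⟩))) q' (frl g1)).imp fun s k => ⟨ftr k.1 g1, k.2⟩
  · by_cases g : i ∈ dom (ps q)
    · exact Or.inr ⟨i, g, (u.2.1.isF.ap_sub u.1 g).symm⟩
    · exact Or.inl (u.2.2 i h1 g)
  · obtain ⟨k1, k2⟩ := u.2.1.2 i h1
    refine hz.V k2.1 fun c hc => ?_
    obtain ⟨a, b, rfl, ha, -⟩ := TT_ex (hd ▸ hc)
    refine k2.1.sub (k2.1.ap k1 a) ?_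
    rw [dom_tt] at h2
    rw [ap_res _ ((od_om.el hm).sub_of_not_mem (u.2.1.od.el h1) h2 a ha),
      ← u.2.1.isF.ap_sub g4 ((dom_tt w m).symm ▸ ha), ap_tt w ha]
    exact hz.le_om hc (hd ▸ mem_TT.2 ⟨ha, Or.inr rfl⟩)

omit [NG M] in
theorem chs_funs {a b : M} (Q : M → Prop) (S : M → M → Prop) [D1 Q] [D2 S] (hb : emp ∈ b)
    (h : ∀ x, x ∈ a → Q x → ∃ y, y ∈ b ∧ S x y) :
    ∃ f, f ∈ funs a b ∧ ∀ x, x ∈ a → Q x → S x (ap f x) := by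
  obtain ⟨f, hf⟩ := chs a (fun x y => y ∈ b ∧ (Q x → S x y)) fun x hx => by
    by_cases g : Q x
    · exact (h x hx g).imp fun _ k => ⟨k.1, fun _ => k.2⟩
    · exact ⟨emp, hb, fun k => absurd k g⟩
  exact ⟨lam a fun x => ap f x, lam_mem_funs fun x hx => (hf x hx).1, fun x hx g => by
    rw [ap_lam hx]; exact (hf x hx).2 g⟩

theorem step_lemma {m D : M} (hm : m ∈ (om : M)) (hR : ∀ z, Hist z → dom z = TT m →
    ∃ g, g ∈ (kk : M) ∧ ∀ q, q ∈ (PPs : M) → ∃ p, p ≤ q ∧ ∃ y, y ∈ g ∧ Dn (fun p => R z y p) p)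
    (hD : Sys D) : ∃ D', Sys D' ∧ Sub D D' ∧ ∃ g, g ∈ funs HS (kk : M) ∧ ∃ A, A ∈ (UU : M) ∧
      ∀ w, Ex m emp A w → ∀ q, q ∈ (PPs : M) → Fits m emp q w D' emp A →
        Dn (fun p => R w (ap g w) p) q := by
  obtain ⟨D', r', h1, h2, h3, -, A, h4, h5⟩ := (pos_ind (fun j k => ∀ z D r, Hist z →
      dom z = II m j k → Sys D → LowOK (snoc (tt z j) (mx (el z j k))) r → ∃ D' r', Sys D' ∧
        Sub D D' ∧ LowOK (snoc (tt z j) (mx (el z j k))) r' ∧ Sub r r' ∧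
        ∃ A, A ∈ (UU : M) ∧ WA R m z D' r' A) hm (fun z D r hz hd hD hr => by
      rw [II_top _ Sub.rfl] at hd
      obtain ⟨g, g1, g2⟩ := hR z hz hd
      have e := fun r => lowOK_emp (r := r) (hz.tt_sq hm fun i hi => hd ▸ mem_TT.2 ⟨hi, Or.inr rfl⟩)
      simp only [el, lam_emp, mx_emp, e] at hr ⊢
      exact base_step hm hz hd hD hr g1 g2) fun j k e j' k' nx ih z D r hz hd =>
    gen_step nx hm hz hd fun x D r hx hD hr => by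
      have := ih _ D r hx (by rw [dom_ins, hd, nx.eq hm]) hD ((nx_low nx hm hd hx).2 hr)
      simpa only [nx_low nx hm hd hx] using this).1 emp
    (od_emp.mem_suc (od_om.el hm) (emp_sub _)) emp D emp hist_emp
    (dom_emp.trans (eq_emp fun c hc => (mem_sep.1 hc).2.elim (not_mem_emp _)
      fun g => not_mem_emp _ g.2).symm) hD
    ⟨fun p hp => (not_mem_emp p hp).elim, fun _ _ => ⟨(isCol_emp _).sub fun _ hx =>
      (not_mem_emp _ (mem_lv.1 hx)).elim, fun _ hx => (not_mem_emp _ (mem_lv.1 hx)).elim⟩⟩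
  rw [el, lam_emp, mx_emp, tt, lam_emp, lowOK_emp (emp_mem_Sq _)] at h3
  obtain rfl : r' = emp := eq_emp fun p hp => let ⟨i, _, _, g⟩ := h3.1 p hp
    not_mem_emp i (by rwa [dom_emp] at g)
  obtain ⟨g, g1, g2⟩ := chs_funs (a := HS) (fun w => Ex m emp A w) (fun w y => ∀ q,
    q ∈ (PPs : M) → Fits m emp q w D' emp A → Dn (fun p => R w y p) q) (io_k.2 _ emp_mem_om)
    fun w _ hw => by simpa only [dom_emp] using h5 w hw
  exact ⟨D', h1, h2, g, g1, A, h4, fun w hw => g2 w hw.2.2.1.hs hw⟩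

end

end Pool.Agent.P.MP_5f3b23_lc.Zf.G.Pool.Agent.P.MP_5f3b23_lc.Zf
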