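import Pool.Agent.P.MP_2e9c36_lc.GReal

set_option autoImplicit false
set_option synthInstance.maxSize 4000

/-! The recursion of length `ω₁` producing a closed family of terms. -/

open Pool.Agent.Lib.PosetForcing

namespace Pool.Agent.P.MP_5f3b23_lc.Zf.G.Pool.Agent.P.MP_5f3b23_lc.Zf
open _root_.Pool.Agent.P.MP_5f3b23_lc.Zf.G

universe v

variable {M : Type v} [Zm M] [NG M]

/-- the value of a basic term -/
noncomputable def bv (B g e n k z : M) : M :=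
  cnd (e = emp) g (cnd (e = suc emp) (ap z (op n k)) (ap B (ph k (tt z n))))

/-- basic terms -/
noncomputable def bt (B g e n k : M) : M :=
  op (suc (un n k)) (lam HS fun z => cnd (bv B g e n k z ∈ (kk : M)) (bv B g e n k z) emp)

instance tm_bv (a b c d e f : (ℕ → M) → M) [Tm a] [Tm b] [Tm c] [Tm d] [Tm e] [Tm f] :
    Tm fun v => bv (a v) (b v) (c v) (d v) (e v) (f v) := by
  unfold bv; infer_instance

instance tm_bt (a b c d e : (ℕ → M) → M) [Tm a] [Tm b] [Tm c] [Tm d] [Tm e] :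
    Tm fun v => bt (a v) (b v) (c v) (d v) (e v) := by
  unfold bt; infer_instance

theorem bt_mem (B g e : M) {n k : M} (hn : n ∈ (om : M)) (hk : k ∈ (om : M)) :
    bt B g e n k ∈ (TM : M) :=
  op_mem_prd.2 ⟨suc_mem_om (un_mem od_om hn hk), lam_mem_funs fun z _ => by
    by_cases h : bv B g e n k z ∈ (kk : M)
    · rwa [cnd_pos h]
    · rw [cnd_neg h]; exact io_k.2 _ emp_mem_om⟩

theorem ev_bt {B g e n k h : M} (hh : Hist h) (hB : B ∈ funs (kk : M) kk) (hg : g ∈ (kk : M))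
    (hn : n ∈ (om : M)) (hk : k ∈ (om : M)) (l : Sub (TT (fst (bt B g e n k))) (dom h)) :
    ev (bt B g e n k) h = bv B g e n k h := by
  rw [bt, fst_op] at l
  have o := od_om.el (un_mem od_om hn hk)
  have h0 := (od_om.el hn).mem_suc o (sub_un_l _ _)
  have h1 : op n k ∈ TT (suc (un n k)) :=
    mem_TT.2 ⟨h0, Or.inl ((od_om.el hk).mem_suc o (sub_un_r _ _))⟩
  have h2 : ∀ i, i ∈ n → op i om ∈ TT (suc (un n k)) := fun i hi =>
    mem_TT.2 ⟨o.suc.tr h0 hi, Or.inr rfl⟩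
  have e1 : bv B g e n k (res h (TT (suc (un n k)))) = bv B g e n k h := by
    rw [bv, bv, ap_res h h1, tt_congr hh.1 (res_sub _ _) fun i hi => (dom_res l).symm ▸ h2 i hi]
  rw [ev, bt, fst_op, snd_op, ap_lam (hh.sub (res_sub _ _)).hs, e1, cnd_pos]
  rw [bv]
  by_cases g1 : e = emp
  · rwa [cnd_pos g1]
  · rw [cnd_neg g1]
    by_cases g2 : e = suc emp
    · rw [cnd_pos g2]; exact hh.k (l _ h1)
    · rw [cnd_neg g2]
      exact (mem_funs.1 hB).2.2 _ (ph_tp k (hh.tt_sq hn fun i hi => l _ (h2 i hi))).1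

/-- the basic terms with parameters up to `g` -/
noncomputable def btS (B g : M) : M := img (prd (suc g) (prd om (prd om om))) fun a =>
  bt B (fst a) (fst (snd a)) (fst (snd (snd a))) (snd (snd (snd a)))

instance tm_btS (a b : (ℕ → M) → M) [Tm a] [Tm b] : Tm fun v => btS (a v) (b v) := by
  unfold btS; infer_instance

theorem bt_mem_btS (B : M) {g z e n k : M} (hz : z ∈ suc g) (he : e ∈ (om : M))
    (hn : n ∈ (om : M)) (hk : k ∈ (om : M)) : bt B z e n k ∈ btS B g :=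
  mem_img.2 ⟨op z (op e (op n k)), by simp only [op_mem_prd]; exact ⟨hz, he, hn, hk⟩, by simp⟩

/-- tasks -/
noncomputable def TK (X : M) : M := prd om (prd (Sq X) om)

instance tm_TK (a : (ℕ → M) → M) [Tm a] : Tm fun v => TK (a v) := by
  unfold TK; infer_instance

omit [NG M] in
theorem le_TK {X x : M} (hx : Io x) (h : Le X x) : Le (TK X) x :=
  hx.prd hx.le_om (hx.prd (hx.Sq h) hx.le_om)

omit [NG M] in
theorem TK_mono {X Y : M} (h : Sub X Y) : Sub (TK X) (TK Y) := fun a ha => by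
  obtain ⟨j, _, h1, h2, rfl⟩ := mem_prd.1 ha
  obtain ⟨s, m, h3, h4, rfl⟩ := mem_prd.1 h2
  exact op_mem_prd.2 ⟨h1, op_mem_prd.2 ⟨Sq_mono h s h3, h4⟩⟩

/-- the values of the arguments of a task -/
noncomputable def xs (a z : M) : M := lam (dom (pA a)) fun i => ev (ap (pA a) i) z

instance tm_xs (a b : (ℕ → M) → M) [Tm a] [Tm b] : Tm fun v => xs (a v) (b v) := by
  unfold xs; infer_instance

/-- `F` bounds the small values of the term `y` -/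
def Bd (F y B : M) : Prop := ∀ h n e, FH B h → Sub (TT (fst y)) (dom h) → n ∈ (om : M) →
  (∀ i, i ∈ n → op i om ∈ dom h) → ev y h ∈ sc (ph e (tt h n)) →
  ev y h ∈ ap F (ph e (tt h n))

instance df_bd (a b c : (ℕ → M) → M) [Tm a] [Tm b] [Tm c] : Df fun v => Bd (a v) (b v) (c v) := by
  unfold Bd; infer_instance

/-- valid systems and families of terms -/
def StOK (D T : M) : Prop := Sys D ∧ Sub T (prd (sc bz) TM) ∧
  (∀ g, g ∈ sc (bz : M) → Le (lv T g) (sc om)) ∧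
  ∀ g g' y, g' ∈ sc (bz : M) → Sub g g' → op g y ∈ T → op g' y ∈ T

instance df_stOK (a b : (ℕ → M) → M) [Tm a] [Tm b] : Df fun v => StOK (a v) (b v) := by
  unfold StOK; infer_instance

/-- states containing the basic terms -/
def StP (S : M) : Prop := StOK (ps S) (pA S) ∧ pc S ∈ funs (kk : M) kk ∧
  (∀ g y, g ∈ sc (bz : M) → y ∈ btS (pc S) g → op g y ∈ pA S) ∧
  ∀ x, x ∈ (kk : M) → Sub (sc bz) x → ap (pc S) x ∈ sc x

instance df_stP (a : (ℕ → M) → M) [Tm a] : Df fun v => StP (a v) := by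
  unfold StP; infer_instance

theorem Fits.mono {m I q w D D' r A A' : M} (h : Fits m I q w D' r A')
    (e : ∀ s x, op s x ∈ D → op s x ∈ D') (e' : Sub A' A) : Fits m I q w D r A :=
  ⟨h.1, fun b hb g => e' b (h.2.1 b hb g), h.2.2.1, fun a b x g1 g2 g3 g =>
    h.2.2.2.1 a b x g1 g2 g3 (e _ _ g), fun u x g1 g2 g => h.2.2.2.2 u x g1 g2 (e _ _ g)⟩

theorem lim_ok {F i : M} (hi : Od i) (e : Sub i (sc om)) (h : ∀ j, j ∈ i → StP (ap F j) ∧
    ∀ k, k ∈ j → Sub (ps (ap F k)) (ps (ap F j))) :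
    StOK (bUn i fun j => ps (ap F j)) (bUn i fun j => pA (ap F j)) := by
  refine ⟨⟨fun p hp => let ⟨j, hj, g⟩ := mem_bUn.1 hp; (h j hj).1.1.1.1 p g, fun s hs =>
    ⟨isCol_of (fun x y hx hy => ?_) ((le_of_sub fun x hx => ?_).trans ((io_nu (prd_eta hs).1).bUn
      (fun j => lv (ps (ap F j)) s) (le_of_sub (e.trans (sub_bz.trans ((sub_un_l _ _).trans
        (tp_sub_nu _))))) fun j hj => ((h j hj).1.1.1.2 s hs).1.2.2)),
      fun x hx => let ⟨j, hj, g⟩ := mem_bUn.1 hx; ((h j hj).1.1.1.2 s hs).2 x g⟩⟩,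
    fun p hp => let ⟨j, hj, g⟩ := mem_bUn.1 hp; (h j hj).1.1.2.1 p g, fun g hg =>
      (le_of_sub fun x hx => ?_).trans (io_om.sc.bUn (fun j => lv (pA (ap F j)) g) (le_of_sub e)
        fun j hj => (h j hj).1.1.2.2.1 g hg), fun g g' y h1 h2 hy =>
      let ⟨j, hj, k⟩ := mem_bUn.1 hy; mem_bUn.2 ⟨j, hj, (h j hj).1.1.2.2.2 g g' y h1 h2 k⟩⟩
  · obtain ⟨j, hj, hx⟩ := mem_bUn.1 (mem_lv.1 hx)
    obtain ⟨k, hk, hy⟩ := mem_bUn.1 (mem_lv.1 hy)
    rcases (hi.el hj).tri (hi.el hk) with g | rfl | g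
    · exact ⟨_, ((h k hk).1.1.1.2 s hs).1, mem_lv.2 ((h k hk).2 j g _ hx), mem_lv.2 hy⟩
    · exact ⟨_, ((h j hj).1.1.1.2 s hs).1, mem_lv.2 hx, mem_lv.2 hy⟩
    · exact ⟨_, ((h j hj).1.1.1.2 s hs).1, mem_lv.2 hx, mem_lv.2 ((h j hj).2 k g _ hy)⟩
  · obtain ⟨j, hj, g⟩ := mem_bUn.1 (mem_lv.1 hx)
    exact mem_bUn.2 ⟨j, hj, mem_lv.2 g⟩
  · obtain ⟨j, hj, g⟩ := mem_bUn.1 (mem_lv.1 hx)
    exact mem_bUn.2 ⟨j, hj, mem_lv.2 g⟩

section
variable (E : M → M → M → M → Prop)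

/-- a witness is decided, or there is none below the Prikry points of the history -/
def RR (a z y q : M) : Prop := E (ps a) (xs a z) y q ∨
  ∀ r x, r ≤ q → x ∈ mx (tt z (pc a)) → ¬ E (ps a) (xs a z) x r

instance df_rr [D4 E] (a b c d : (ℕ → M) → M) [Tm a] [Tm b] [Tm c] [Tm d] :
    Df fun v => RR E (a v) (b v) (c v) (d v) := by
  unfold RR; infer_instance

/-- the system `D` decides the task `a` by the term `y` -/
def Dec (D a y B : M) : Prop := fst y = pc a ∧ ∀ h q, FH B h → Sub (TT (pc a)) (dom h) →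
  q ∈ (PPs : M) → Fits (pc a) emp q (res h (TT (pc a))) D emp B →
  Dn (fun p => RR E a (res h (TT (pc a))) (ev y h) p) q

instance df_dec [D4 E] (a b c d : (ℕ → M) → M) [Tm a] [Tm b] [Tm c] [Tm d] :
    Df fun v => Dec E (a v) (b v) (c v) (d v) := by
  unfold Dec; infer_instance

/-- one step of the recursion -/
def StR (D T S : M) : Prop := Sub D (ps S) ∧ Sub T (pA S) ∧
  (∀ g a, g ∈ sc (bz : M) → a ∈ TK (lv T g) →
    ∃ y, op g y ∈ pA S ∧ Lg fun B => Dec E (ps S) a y B) ∧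
  ∀ g y, op g y ∈ T → Lg fun B => Bd (pc S) y B

instance df_stR [D4 E] (a b c : (ℕ → M) → M) [Tm a] [Tm b] [Tm c] :
    Df fun v => StR E (a v) (b v) (c v) := by
  unfold StR; infer_instance

variable {E}

theorem Dec.mono {D D' a y B : M} (h : Dec E D a y B)
    (e : ∀ s x, op s x ∈ D → op s x ∈ D') : Dec E D' a y B :=
  ⟨h.1, fun z q g1 g2 g3 f => h.2 z q g1 g2 g3 (f.mono e Sub.rfl)⟩

variable [D4 E] (mono : ∀ j x y p q : M, q ≤ p → E j x y p → E j x y q)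
include mono

theorem ex_step {D T : M} (h : StOK D T) : ∃ S : M, S ∈ prd (pow (prd SS (Vv (kk : M))))
    (prd (pow (prd (sc bz) TM)) (funs kk kk)) ∧ StP S ∧ StR E D T S := by
  obtain ⟨X, hX⟩ : ∃ X, X = bUn (sc bz) fun g => lv T g := ⟨_, rfl⟩
  have m1 : ∀ g y, op g y ∈ T → y ∈ X := fun g y hy =>
    hX ▸ mem_bUn.2 ⟨g, (op_mem_prd.1 (h.2.1 _ hy)).1, mem_lv.2 hy⟩
  have h1 : Le X (sc bz) := hX ▸ io_bz.sc.bUn _ Le.rfl fun g hg =>
    (h.2.2.1 g hg).trans (le_of_sub sub_bz)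
  obtain ⟨F, f1, f2, f3⟩ := lg_succ (T := X) (fun y hy => let ⟨_, _, g⟩ := mem_bUn.1 (hX ▸ hy)
    (op_mem_prd.1 (h.2.1 _ (mem_lv.1 g))).2) h1
  obtain ⟨D', d1, d2, d3⟩ := meet_small SS (fun s => nu (fst s)) (fun s hs => io_nu (prd_eta hs).1)
    (fun s x => Sub (mx (snd s)) (fst x)) (od_sc _) (le_TK io_bz.sc h1) (fun _ => True)
    (fun s hs _ => (sub_un_l _ _).trans (tp_sub_nu _))
    (fun a D => ∃ y, y ∈ (TM : M) ∧ Lg fun B => Dec E D a y B)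
    (fun _ _ _ _ g ⟨y, g1, g2⟩ => ⟨y, g1, g2.mono fun _ k => k.mono fun s x => g s x trivial⟩)
    (fun a D ha hD => by
      have hm := (prd_eta (prd_eta ha).2.1).2.1
      obtain ⟨D', g1, g2, g, g3, A, g4, g5⟩ := step_lemma (R := fun z y p => RR E a z y p) hm
        (fun z hz hd => have ht := hz.tt_sq hm fun i hi => hd ▸ mem_TT.2 ⟨hi, Or.inr rfl⟩
          ⟨_, tp_mem_k ht, fun q hq => by
          by_cases k : ∃ r x, r ≤ q ∧ x ∈ mx (tt z (pc a)) ∧ E (ps a) (xs a z) x r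
          · obtain ⟨r, x, k1, k2, k3⟩ := k
            exact ⟨r, k1, x, sub_un_r _ _ x k2, fun r' hr' =>
              ⟨r', frl hr', Or.inl (mono _ _ _ _ _ hr' k3)⟩⟩
          · exact ⟨q, prefl hq, emp, (io_tp ht).2 _ emp_mem_om, fun r hr => ⟨r, frl hr,
              Or.inr fun r' x k1 k2 k3 => k ⟨r', x, ftr k1 hr, k2, k3⟩⟩⟩⟩) hD
      refine ⟨D', g1, g2, op (pc a) g, op_mem_prd.2 ⟨hm, g3⟩, A, g4, fun B hB =>
        ⟨fst_op _ _, fun z q k1 k2 k3 f => ?_⟩⟩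
      rw [ev, fst_op, snd_op]
      exact g5 _ (k1.ex hB k2) q k3 (f.mono (fun _ _ g => g) hB)) h.1
  obtain ⟨d, hd⟩ := chs (TK X) (fun a y => y ∈ (TM : M) ∧ Lg fun B => Dec E D' a y B) d3
  have m2 : ∀ g, Sub (TK (lv T g)) (TK X) := fun g => TK_mono fun y hy => m1 g y (mem_lv.1 hy)
  have m3 : ∀ g y, op g y ∈ (sep (prd (sc bz) TM) fun p => p ∈ T ∨
      (∃ a, a ∈ TK (lv T (fst p)) ∧ snd p = ap d a) ∨ snd p ∈ btS F (fst p)) ↔
      (g ∈ sc (bz : M) ∧ y ∈ (TM : M)) ∧ (op g y ∈ T ∨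
        (∃ a, a ∈ TK (lv T g) ∧ y = ap d a) ∨ y ∈ btS F g) := fun g y => by
    rw [mem_sep, op_mem_prd, fst_op, snd_op]
  refine ⟨op D' (op _ F), op_mem_prd.2 ⟨mem_pow.2 d1.1, op_mem_prd.2 ⟨mem_pow.2 (sep_sub (P :=
    fun p => p ∈ T ∨ (∃ a, a ∈ TK (lv T (fst p)) ∧ snd p = ap d a) ∨ snd p ∈ btS F (fst p))), f1⟩⟩,
    ?_⟩
  simp only [StP, StR, ps, pA, pc, fst_op, snd_op]
  refine ⟨⟨⟨d1, sep_sub, fun g hg => (le_of_sub fun y hy => mem_un.2 (((m3 g y).1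
    (mem_lv.1 hy)).2.imp mem_lv.2 fun k => mem_un.2 (k.imp_left mem_img.2))).trans (io_om.sc.un
      (h.2.2.1 g hg) (io_om.sc.un ((le_img _ fun a => ap d a).trans (le_TK io_om.sc (h.2.2.1 g hg)))
        ((le_img _ _).trans (io_om.sc.prd (io_om.sc.ins ((le_of_mem_sc hg).trans bz_le) g) (io_om.sc.prd
          io_om.sc.le_om (io_om.sc.prd io_om.sc.le_om io_om.sc.le_om)))))),
    fun g g' y k1 k2 k3 => (m3 g' y).2 ⟨⟨k1, ((m3 g y).1 k3).1.2⟩, ((m3 g y).1 k3).2.imp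
      (h.2.2.2 g g' y k1 k2) fun k => k.imp (fun ⟨a, l1, l2⟩ => ⟨a, TK_mono (fun z hz => mem_lv.2
        (h.2.2.2 g g' z k1 k2 (mem_lv.1 hz))) a l1, l2⟩) fun k => ?_⟩⟩, f1, fun g y hg hy =>
      (m3 g y).2 ⟨⟨hg, ?_⟩, Or.inr (Or.inr hy)⟩, f2⟩, d2,
    fun p hp => mem_sep.2 ⟨h.2.1 p hp, Or.inl hp⟩, fun g a hg ha => ⟨ap d a, (m3 g _).2
      ⟨⟨hg, (hd a (m2 g a ha)).1⟩, Or.inr (Or.inl ⟨a, ha, rfl⟩)⟩, (hd a (m2 g a ha)).2⟩,
    fun g y hy => f3 y (m1 g y hy)⟩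
  · obtain ⟨a, ha, rfl⟩ := mem_img.1 hy
    obtain ⟨l3, l4, -⟩ := prd_eta (prd_eta (prd_eta ha).2.1).2.1
    exact bt_mem _ _ _ l3 l4
  · obtain ⟨a, ha, rfl⟩ := mem_img.1 k
    obtain ⟨l1, l2, -⟩ := prd_eta ha
    obtain ⟨l3, l4, -⟩ := prd_eta l2
    have o := (od_sc _).el ((m3 g _).1 k3).1.1
    exact bt_mem_btS F ((o.suc.el l1).mem_suc ((od_sc _).el k1) ((o.sub_of_mem_suc l1).trans k2)) l3
      (prd_eta l4).1 (prd_eta l4).2.1

theorem ex_stchain : ∃ F : M, ∀ i, i ∈ sc (om : M) → StP (ap F i) ∧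
    ∀ j, j ∈ i → StR E (ps (ap F j)) (pA (ap F j)) (ap F i) := by
  refine (ex_chain (prd (pow (prd SS (Vv (kk : M)))) (prd (pow (prd (sc bz) TM)) (funs kk kk)))
    (fun _ S => StP S) (fun _ S S' => StR E (ps S) (pA S) S') (od_sc om)
    fun i F hi hF => ?_).imp fun _ h i hi => (h i hi).2
  obtain ⟨S, h1, h2, h3, h4, h5, h6⟩ := ex_step mono (lim_ok ((od_sc _).el hi) ((od_sc _).1 i hi)
    fun j hj => ⟨(hF j hj).2.1, fun k hk => ((hF j hj).2.2 k hk).1⟩)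
  have e : ∀ j, j ∈ i → Sub (pA (ap F j)) (bUn i fun j => pA (ap F j)) := fun j hj p hp =>
    mem_bUn.2 ⟨j, hj, hp⟩
  exact ⟨S, h1, h2, fun j hj => ⟨fun p hp => h3 p (mem_bUn.2 ⟨j, hj, hp⟩), (e j hj).trans h4,
    fun g a hg ha => h5 g a hg (TK_mono (fun y hy => mem_lv.2 (e j hj _ (mem_lv.1 hy))) a ha),
    fun g y hy => h6 g y (e j hj _ hy)⟩⟩

end

end Pool.Agent.P.MP_5f3b23_lc.Zf.G.Pool.Agent.P.MP_5f3b23_lc.Zf
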