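import Pool.Agent.P.MP_2e9c36_lc.Step

set_option autoImplicit false
set_option linter.unusedSectionVars false

/-! Histories (Prikry points and indiscernibles), homogeneous sets, the step lemma. -/

open Cardinal Set Filter Pool.Agent.Lib.PosetForcing

namespace Pool.Agent.P.MP_2e9c36_lc

universe u

/-- coordinates of histories -/
abbrev Co : Type := ℕ ×ₗ ℕ∞

/-- the coordinate of the `n`-th Prikry point -/
def cb (n : ℕ) : Co := toLex (n, ⊤)

/-- the coordinate of the `k`-th indiscernible below the `n`-th Prikry point -/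
def ce (n k : ℕ) : Co := toLex (n, (k : ℕ∞))

theorem ce_lt_ce (n : ℕ) {k k' : ℕ} (h : k < k') : ce n k < ce n k' := by
  simp [ce, Prod.Lex.toLex_lt_toLex, h]

theorem ce_lt_cb {n n' : ℕ} (k : ℕ) (h : n ≤ n') : ce n k < cb n' := by
  simp [ce, cb, Prod.Lex.toLex_lt_toLex, h.lt_or_eq]

theorem cb_lt_ce {n n' : ℕ} (k : ℕ) (h : n < n') : cb n < ce n' k := by
  simp [ce, cb, Prod.Lex.toLex_lt_toLex, h]

theorem cb_lt_cb {n n' : ℕ} (h : n < n') : cb n < cb n' := by
  simp [cb, Prod.Lex.toLex_lt_toLex, h]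

theorem co_cases (c : Co) : ∃ n, c = cb n ∨ ∃ k, c = ce n k := by
  obtain ⟨n, k⟩ := c
  induction k using ENat.recTopCoe with
  | top => exact ⟨n, Or.inl rfl⟩
  | coe k => exact ⟨n, Or.inr ⟨k, rfl⟩⟩

variable {K : Type u}

/-- the first `n` values, latest first -/
def lst (f : ℕ → K) : ℕ → List K
  | 0 => []
  | n + 1 => f n :: lst f n

theorem mem_lst {f : ℕ → K} {n : ℕ} {x : K} : x ∈ lst f n ↔ ∃ j < n, x = f j := by
  induction n with
  | zero => simp [lst]
  | succ n ih => simp only [lst, List.mem_cons, ih, Nat.exists_lt_succ_right, or_comm]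

theorem lst_length (f : ℕ → K) (n : ℕ) : (lst f n).length = n := by
  induction n with
  | zero => rfl
  | succ n ih => simp [lst, ih]

theorem lst_suffix (f : ℕ → K) {m n : ℕ} (h : m ≤ n) : lst f m <:+ lst f n := by
  induction h with
  | refl => exact List.suffix_refl _
  | step _ ih => exact ih.trans (List.suffix_cons _ _)

theorem lst_eq_iff {f g : ℕ → K} {n : ℕ} : lst f n = lst g n ↔ ∀ j < n, f j = g j := by
  induction n with
  | zero => simp [lst]
  | succ n ih => simp only [lst, List.cons.injEq, ih, Nat.forall_lt_succ_right, and_comm]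

theorem eq_lst_of_suffix {f : ℕ → K} {n : ℕ} {s : List K} (h : s <:+ lst f n) :
    s = lst f s.length :=
  (List.suffix_of_suffix_length_le h (lst_suffix f (lst_length f n ▸ h.length_le))
    (lst_length f _).ge).eq_of_length (lst_length f _).symm

/-- the stem of a history -/
def tt (h : Co → K) (n : ℕ) : List K := lst (fun j => h (cb j)) n

/-- the first indiscernibles at level `j` -/
def el (h : Co → K) (j k : ℕ) : List K := lst (fun i => h (ce j i)) k

/-- the blocks of indiscernibles -/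
def blk (m : ℕ) (h : Co → K) (n : ℕ) : List (List K) := lst (fun j => el h j m) n

/-- coordinates of type `m` -/
def InT (m : ℕ) (c : Co) : Prop := ∃ j < m, c = cb j ∨ ∃ k < m, c = ce j k

/-- agreement on the coordinates of type `m` -/
def Agree (m : ℕ) (h h' : Co → K) : Prop := ∀ c, InT m c → h c = h' c

theorem agree_iff {m : ℕ} {h h' : Co → K} :
    Agree m h h' ↔ tt h m = tt h' m ∧ blk m h m = blk m h' m := by
  simp only [tt, blk, el, lst_eq_iff]
  refine ⟨fun e => ⟨fun j hj => e _ ⟨j, hj, Or.inl rfl⟩,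
    fun j hj k hk => e _ ⟨j, hj, Or.inr ⟨k, hk, rfl⟩⟩⟩, ?_⟩
  rintro ⟨h1, h2⟩ _ ⟨j, hj, rfl | ⟨k, hk, rfl⟩⟩
  exacts [h1 j hj, h2 j hj k hk]

/-- `y` depends only on the coordinates of type `m` -/
def Supp {X : Type*} (y : (Co → K) → X) (m : ℕ) : Prop := ∀ h h', Agree m h h' → y h = y h'

theorem Supp.mono {X : Type*} {y : (Co → K) → X} {m m' : ℕ} (h : Supp y m) (e : m ≤ m') :
    Supp y m' := fun _ _ g => h _ _ fun c ⟨j, hj, hc⟩ => g c ⟨j, hj.trans_le e,
      hc.imp_right fun ⟨k, hk, hc⟩ => ⟨k, hk.trans_le e, hc⟩⟩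

variable [LinearOrder K] [WellFoundedLT K] [NM K]

/-- increasing histories with values in `A` -/
def Inc (A : Set K) (h : Co → K) : Prop := StrictMono h ∧ ∀ c, h c ∈ A

theorem Inc.mono {A A' : Set K} {h : Co → K} (e : Inc A h) (hA : A ⊆ A') : Inc A' h :=
  ⟨e.1, fun c => hA (e.2 c)⟩

/-- `q` extends the conditions that the system `D` attaches to the history `h` -/
structure Fits (q : PP K) (D : List K × List K → Cnd K) (h : Co → K) (m : ℕ) (A : Set K) :
    Prop where
  up : Up (tt h m) (fun _ => A) q.s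
  sub : ∀ s, Up q.s q.B s → q.B s ⊆ A
  low : ∀ j < m, ∀ k ≤ m, D (tt h j, el h j k) ⊆ q.c (tt h j)
  high : ∀ s, In q s → tt h m <:+ s → D (s, []) ⊆ q.c s

theorem Fits.mono {q : PP K} {D D' : List K × List K → Cnd K} {h : Co → K} {m : ℕ} {A A' : Set K}
    (e : Fits q D' h m A') (hD : ∀ s, D s ⊆ D' s) (hA : A' ⊆ A) : Fits q D h m A :=
  ⟨Up.trans .base e.up fun _ _ => hA, fun s hs => (e.sub s hs).trans hA,
    fun j hj k hk => (hD _).trans (e.low j hj k hk), fun s hs h => (hD _).trans (e.high s hs h)⟩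

theorem cum_lst_sub {d : List K → Cnd K} {f : ℕ → K} {c : Cnd K} {k : ℕ}
    (h : ∀ k' ≤ k, d (lst f k') ⊆ c) : cum d (lst f k) ⊆ c := by
  induction k with
  | zero => exact h 0 le_rfl
  | succ k ih => exact union_subset (ih fun k' hk => h k' (by omega)) (h _ le_rfl)

theorem In.lt {q : PP K} {β x : K} {u : List K} (h : In q (β :: u)) (hx : x ∈ u) : x < β :=
  (le_top_of_mem hx).trans_lt (top_lt_of_G h.ok.1)

/-- the lower part read off from a system -/
def lowL (D : List K × List K → Cnd K) : List K → List (List K) → List (Cnd K)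
  | _ :: t, l :: v => cum (fun l => D (t, l)) l :: lowL D t v
  | _, _ => []

theorem ae_sh {Z : Type*} {lt : Z → K → Prop} (hZ : Press lt) (φ : Z → List K → Prop) :
    ∀ᶠ η in UF K, ∀ z l, lt z η → (∀ x ∈ l, x < η) → sh (φ z) l → φ z (η :: l) :=
  ((hZ.prod press_lt.list).diag (p := fun a η => sh (φ a.1) a.2 → φ a.1 (η :: a.2)) fun a => by
    by_cases h : sh (φ a.1) a.2
    · exact Eventually.mono h fun _ h _ => h
    · exact Eventually.of_forall fun _ h' => absurd h' h).mono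
    fun _ h z l h1 h2 => h (z, l) ⟨h1, h2⟩

theorem ae_AE {Z : Type*} {lt : Z → K → Prop} (hZ : Press lt) (φ : Z → List K → Prop) :
    ∃ A : Set K, (∀ᶠ η in UF K, η ∈ A) ∧ ∀ z (f : ℕ → K), StrictMono f →
      (∀ k, f k ∈ A ∧ lt z (f k)) → ∀ m, AE m (φ z) → φ z (lst f m) := by
  refine ⟨_, ae_sh (press_nat.prod hZ) fun a => sh^[a.1] (φ a.2), fun z f hf h m hm => ?_⟩
  have key : ∀ i j, sh^[i] (φ z) (lst f j) → φ z (lst f (j + i)) := fun i => by
    induction i with
    | zero => exact fun j h => h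
    | succ i ih =>
      intro j hj
      rw [Function.iterate_succ_apply'] at hj
      rw [show j + (i + 1) = j + 1 + i by omega]
      refine ih (j + 1) ((h j).1 (i, z) _ ⟨trivial, (h j).2⟩ (fun x hx => ?_) hj)
      obtain ⟨k, hk, rfl⟩ := mem_lst.1 hx
      exact hf hk
  simpa using key m 0 hm

theorem exists_set {p : K → Prop} (h : ∀ᶠ x in UF K, p x) :
    ∃ A : Set K, (∀ᶠ x in UF K, x ∈ A) ∧ ∀ x ∈ A, p x := ⟨{x | p x}, h, fun _ h => h⟩

theorem step_list (m : ℕ) (R : List K → List (List K) → K → PP K → Prop)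
    (hR : ∀ t v, ∃ γ, ∀ q, ∃ r ≤ q, ∃ y < γ, Dn (R t v y) r) (D : List K × List K → Cnd K)
    (hD : SysOK D) : ∃ D', SysOK D' ∧ (∀ s, D s ⊆ D' s) ∧ ∃ y : List K → List (List K) → K,
      ∃ A : Set K, (∀ᶠ β in UF K, β ∈ A) ∧ ∀ h, Inc A h → ∀ q, Fits q D' h m A →
        Dn (R (tt h m) (blk m h m) (y (tt h m) (blk m h m))) q := by
  classical
  obtain ⟨D', r', h1, h2, h3, -, h4⟩ := exists_OK (m := m) hR m [] [] [] D (by simp [Good]) .nil hD
  cases h3
  have hZ := press_nat.prod ((press_lt (K := K)).list.prod (press_lt (K := K)).list.list)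
  obtain ⟨A1, a1, b1⟩ := ae_AE hZ fun z l => ∀ᶠ β in UF K,
    OK m R D' z.1 (β :: z.2.1) (l :: z.2.2) (lowL D' (β :: z.2.1) (l :: z.2.2))
  have a2 := (hZ.prod press_lt.list).diag (p := fun z β => (∀ᶠ β in UF K, OK m R D' z.1.1
      (β :: z.1.2.1) (z.2 :: z.1.2.2) (lowL D' (β :: z.1.2.1) (z.2 :: z.1.2.2))) →
      OK m R D' z.1.1 (β :: z.1.2.1) (z.2 :: z.1.2.2) (lowL D' (β :: z.1.2.1) (z.2 :: z.1.2.2)))
    fun z => by
      by_cases h : ∀ᶠ β in UF K, OK m R D' z.1.1
        (β :: z.1.2.1) (z.2 :: z.1.2.2) (lowL D' (β :: z.1.2.1) (z.2 :: z.1.2.2))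
      · exact h.mono fun _ h _ => h
      · exact Eventually.of_forall fun _ h' => absurd h' h
  have h5 : ∀ t v, ∃ (y : K) (B : List K → Set K), (∀ s, ∀ᶠ β in UF K, β ∈ B s) ∧
      (OK m R D' 0 t v (lowL D' t v) →
        ∀ q, RLe q t B (sp t (lowL D' t v) fun s => D' (s, [])) → Dn (R t v y) q) := fun t v => by
    by_cases h : OK m R D' 0 t v (lowL D' t v)
    · obtain ⟨y, B, g1, g2⟩ := h
      exact ⟨y, B, g1, fun _ => g2⟩
    · exact ⟨al K 0, fun _ => univ, by simp, fun h' => absurd h' h⟩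
  choose y B hB hy using h5
  have a3 := (hZ.prod press_lt.list).diag (p := fun z β => β ∈ B z.1.2.1 z.1.2.2 z.2)
    fun z => hB _ _ _
  obtain ⟨A, hA, hA'⟩ := exists_set (a1.and (a2.and a3))
  refine ⟨D', h1, h2, y, A, hA, fun h hh q hq => ?_⟩
  have lt1 : ∀ j c, (∀ i < j, cb i < c) →
      (∀ x ∈ tt h j, x < h c) ∧ ∀ l ∈ blk m h j, ∀ x ∈ l, x < h c := fun j c hc => by
    refine ⟨fun x hx => ?_, fun l hl x hx => ?_⟩
    · obtain ⟨i, hi, rfl⟩ := mem_lst.1 hx
      exact hh.1 (hc i hi)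
    · obtain ⟨i, hi, rfl⟩ := mem_lst.1 hl
      obtain ⟨k, hk, rfl⟩ := mem_lst.1 hx
      exact hh.1 ((ce_lt_cb k le_rfl).trans (hc i hi))
  have key : ∀ ℓ j, OK m R D' ℓ (tt h j) (blk m h j) (lowL D' (tt h j) (blk m h j)) →
      OK m R D' 0 (tt h (j + ℓ)) (blk m h (j + ℓ)) (lowL D' (tt h (j + ℓ)) (blk m h (j + ℓ))) :=
    fun ℓ => by
    induction ℓ with
    | zero => exact fun j h => h
    | succ ℓ ih =>
      intro j hj
      rw [show j + (ℓ + 1) = j + 1 + ℓ by omega]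
      refine ih (j + 1) ((hA' _ (hh.2 (cb j))).2.1 ((ℓ, tt h j, blk m h j), el h j m)
        ⟨⟨trivial, lt1 j _ fun i => cb_lt_cb⟩, fun x hx => ?_⟩
        (b1 (ℓ, tt h j, blk m h j) (fun i => h (ce j i)) (fun _ _ e => hh.1 (ce_lt_ce j e))
          (fun k => ⟨(hA' _ (hh.2 _)).1, trivial, lt1 j _ fun i => cb_lt_ce k⟩) m hj))
      obtain ⟨k, hk, rfl⟩ := mem_lst.1 hx
      exact hh.1 (ce_lt_cb k le_rfl)
  have k1 := key m 0 h4
  rw [Nat.zero_add] at k1
  have hmem : ∀ β u, In q (β :: u) → tt h m <:+ u → β ∈ A →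
      β ∈ B (tt h m) (blk m h m) u := fun β u hu ht hβ => by
    refine (hA' β hβ).2.2 ((0, tt h m, blk m h m), u) ⟨⟨trivial, fun x hx => hu.lt (ht.subset hx),
      fun l hl x hx => ?_⟩, fun x hx => hu.lt hx⟩
    obtain ⟨i, hi, rfl⟩ := mem_lst.1 hl
    obtain ⟨k, hk, rfl⟩ := mem_lst.1 hx
    exact (hh.1 (ce_lt_cb k le_rfl)).trans (hu.lt (ht.subset (mem_lst.2 ⟨i, hi, rfl⟩)))
  have hlow : ∀ j ≤ m, Sub (lowL D' (tt h j) (blk m h j)) (low (tt h j) q.c) := fun j hj => by
    induction j with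
    | zero => exact .nil
    | succ j ih => exact .cons (cum_lst_sub fun k hk => hq.low j hj k hk) (ih (by omega))
  refine hy _ _ k1 q ⟨?_, fun u hu β hβ => ?_, fun u hu => ?_⟩
  · have : ∀ u, Up (tt h m) (fun _ => A) u → u <:+ q.s →
        Up (tt h m) (B (tt h m) (blk m h m)) u := fun u hu => by
      induction hu with
      | base => exact fun _ => .base
      | step g1 g2 ih =>
        exact fun e => .step (ih ((List.suffix_cons _ _).trans e))
          (hmem _ _ (Or.inl e) g1.suffix g2)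
    exact this _ hq.up (List.suffix_refl _)
  · exact hmem β u (Or.inr (.step hu hβ)) (hq.up.suffix.trans hu.suffix) (hq.sub u hu hβ)
  · refine sp_sub ((hlow m le_rfl).length_eq.trans (lowOK_low q hq.up.suffix).length)
      (hlow m le_rfl) (comp_of_suffix hq.up.suffix hu.comp) (hq.high u hu)

/-- the system `D` forces `R h` densely, for almost all histories `h` -/
def Dec (D : List K × List K → Cnd K) (m : ℕ) (R : (Co → K) → PP K → Prop) : Prop :=
  ∃ A : Set K, (∀ᶠ β in UF K, β ∈ A) ∧ ∀ h, Inc A h → ∀ q, Fits q D h m A → Dn (R h) q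

theorem Dec.mono {D D' : List K × List K → Cnd K} {m : ℕ} {R : (Co → K) → PP K → Prop}
    (h : Dec D m R) (e : ∀ s, D s ⊆ D' s) : Dec D' m R := by
  obtain ⟨A, h1, h2⟩ := h
  exact ⟨A, h1, fun h hh q hq => h2 h hh q (hq.mono e subset_rfl)⟩

theorem step_lemma (m : ℕ) (R : (Co → K) → K → PP K → Prop) (hS : Supp R m)
    (hR : ∀ h, ∃ γ, ∀ q, ∃ r ≤ q, ∃ y < γ, Dn (R h y) r) (D : List K × List K → Cnd K)
    (hD : SysOK D) : ∃ D', SysOK D' ∧ (∀ s, D s ⊆ D' s) ∧ ∃ y : (Co → K) → K, Supp y m ∧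
      Dec D' m fun h => R h (y h) := by
  have : Nonempty (Co → K) := ⟨fun _ => al K 0⟩
  obtain ⟨D', h1, h2, y, A, h3, h4⟩ := step_list m
    (fun t v => R (Classical.epsilon fun h => tt h m = t ∧ blk m h m = v)) (fun t v => hR _) D hD
  refine ⟨D', h1, h2, fun h => y (tt h m) (blk m h m), fun h h' e => ?_, A, h3,
    fun h hh q hq => ?_⟩
  · beta_reduce
    rw [(agree_iff.1 e).1, (agree_iff.1 e).2]
  · have := h4 h hh q hq
    rwa [hS _ h (agree_iff.2 (Classical.epsilon_spec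
      (p := fun h' => tt h' m = tt h m ∧ blk m h' m = blk m h m) ⟨h, rfl, rfl⟩))] at this

/-- small values of a finitely supported function depend only on earlier coordinates -/
theorem exists_const {y : (Co → K) → K} {m : ℕ} (hy : Supp y m) :
    ∃ (g : ℕ → List K → K) (A : Set K), (∀ᶠ β in UF K, β ∈ A) ∧ ∀ h, Inc A h → ∀ π, y h < h π →
      ∃ r l, y h = g r l ∧ ∀ x ∈ l, ∃ c < π, InT m c ∧ x = h c := by
  classical
  have hfin : {c | InT m c}.Finite := by
    refine (((finite_lt_nat m).image cb).union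
      (((finite_lt_nat m).prod (finite_lt_nat m)).image fun a => ce a.1 a.2)).subset ?_
    rintro _ ⟨j, hj, rfl | ⟨k, hk, rfl⟩⟩
    exacts [Or.inl ⟨j, hj, rfl⟩, Or.inr ⟨(j, k), ⟨hj, hk⟩, rfl⟩]
  let L : List Co := hfin.toFinset.sort (· ≥ ·)
  have hL : L.Pairwise (· > ·) := (hfin.toFinset.sortedGT_sort).pairwise
  have hmem : ∀ c, c ∈ L ↔ InT m c := fun c => by simp [L]
  have : Nonempty (Co → K) := ⟨fun _ => al K 0⟩
  let g : ℕ → List K → K := fun r => Nat.rec
    (fun l => y (Classical.epsilon fun h => L.map h = l))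
    (fun _ g l => if e : ∃ c, ∀ᶠ x in UF K, g (x :: l) = c then e.choose else al K 0) r
  have a1 := (press_nat.prod (press_lt (K := K)).list).diag
    (p := fun a x => g a.1 (x :: a.2) < x → g a.1 (x :: a.2) = g (a.1 + 1) a.2) fun a => by
      by_cases e : ∃ c, ∀ᶠ x in UF K, g a.1 (x :: a.2) = c
      · exact e.choose_spec.mono fun x hx _ => hx.trans (dif_pos e).symm
      · exact (ae_not fun h => e (press_lt _ h)).mono fun x hx h => absurd h hx
  refine ⟨g, _, a1, fun h hh π hπ => ?_⟩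
  have key : ∀ L' : List Co, L'.Pairwise (· > ·) → ∀ r, g r (L'.map h) < h π →
      ∃ r' l, g r (L'.map h) = g r' l ∧ ∀ x ∈ l, ∃ c < π, c ∈ L' ∧ x = h c := fun L' => by
    induction L' with
    | nil => exact fun _ r _ => ⟨r, [], rfl, by simp⟩
    | cons c L' ih =>
      intro hp r hr
      rw [List.pairwise_cons] at hp
      rcases lt_or_ge c π with hc | hc
      · refine ⟨r, _, rfl, fun x hx => ?_⟩
        obtain ⟨c', hc', rfl⟩ := List.mem_map.1 hx
        refine ⟨c', ?_, hc', rfl⟩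
        rcases List.mem_cons.1 hc' with rfl | hc'
        exacts [hc, (hp.1 c' hc').trans hc]
      · have e := hh.2 c (r, L'.map h) ⟨trivial, fun x hx => by
          obtain ⟨c', hc', rfl⟩ := List.mem_map.1 hx
          exact hh.1 (hp.1 c' hc')⟩ (hr.trans_le (hh.1.monotone hc))
        obtain ⟨r', l, e1, e2⟩ := ih hp.2 (r + 1) (e ▸ hr)
        exact ⟨r', l, e.trans e1, fun x hx => (e2 x hx).imp fun c' h =>
          ⟨h.1, List.mem_cons_of_mem _ h.2.1, h.2.2⟩⟩
  have e0 : g 0 (L.map h) = y h := hy _ _ fun c hc => List.map_inj_left.1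
    (Classical.epsilon_spec (p := fun h' => L.map h' = L.map h) ⟨h, rfl⟩) c ((hmem c).2 hc)
  obtain ⟨r, l, e1, e2⟩ := key L hL 0 (e0 ▸ hπ)
  exact ⟨r, l, e0.symm.trans e1, fun x hx => (e2 x hx).imp fun c h =>
    ⟨h.1, (hmem c).1 h.2.1, h.2.2⟩⟩

end Pool.Agent.P.MP_2e9c36_lc
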