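import Pool.Agent.P.MP_2e9c36_lc.YAleph

set_option autoImplicit false
set_option synthInstance.maxSize 4000

/-! Proofs for the side theorems of `SparsePatterns`: a Hilbert calculus with soundness and
completeness, the axioms of ZFC, truth tables and Skolem functions inside a model. The definitions
are repeated in the hand-in file. -/

open Pool.Agent.Lib.PosetForcing Pool.Agent.P.MP_2e9c36_lc

namespace Pool.Agent.P.MP_2e9c36_lc.Lit

open Function

section
variable {M : Type _} (mem : M → M → Prop)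

theorem s_mem (i j : ℕ) (v : ℕ → M) : Sat mem (.mem i j) v ↔ mem (v i) (v j) := Iff.rfl

theorem s_eq (i j : ℕ) (v : ℕ → M) : Sat mem (.eq i j) v ↔ v i = v j := Iff.rfl

theorem s_neg (φ : Fml) (v : ℕ → M) : Sat mem (.neg φ) v ↔ ¬ Sat mem φ v := Iff.rfl

theorem s_and (φ ψ : Fml) (v : ℕ → M) : Sat mem (.and φ ψ) v ↔ Sat mem φ v ∧ Sat mem ψ v :=
  Iff.rfl

theorem s_all (i : ℕ) (φ : Fml) (v : ℕ → M) :
    Sat mem (.all i φ) v ↔ ∀ x, Sat mem φ (Function.update v i x) := Iff.rfl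

end

/-- the free variables of a formula -/
def fv : Fml → Finset ℕ
  | .mem i j => {i, j}
  | .eq i j => {i, j}
  | .neg φ => fv φ
  | .and φ ψ => fv φ ∪ fv ψ
  | .all i φ => (fv φ).erase i

/-- simultaneous substitution of the variable `σ i` for each free variable `i`; bound variables
are renamed to fresh ones, so nothing is captured -/
def sb : Fml → (ℕ → ℕ) → Fml
  | .mem i j, σ => .mem (σ i) (σ j)
  | .eq i j, σ => .eq (σ i) (σ j)
  | .neg φ, σ => .neg (sb φ σ)
  | .and φ ψ, σ => .and (sb φ σ) (sb ψ σ)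
  | .all i φ, σ => .all (((fv φ).erase i).sup σ + 1)
      (sb φ (update σ i (((fv φ).erase i).sup σ + 1)))

/-- implication -/
def imp (φ ψ : Fml) : Fml := .neg (.and φ (.neg ψ))

/-- the truth value of a formula when atomic and quantified formulas get their values from `e` -/
def Ev (e : Fml → Prop) : Fml → Prop
  | .neg φ => ¬ Ev e φ
  | .and φ ψ => Ev e φ ∧ Ev e ψ
  | φ => e φ

/-- provability from the axioms `T` (read as universally closed) in a Hilbert calculus for
first-order logic with equality -/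
inductive Prov (T : Set Fml) : Fml → Prop
  | ax {φ : Fml} : φ ∈ T → Prov T φ
  | taut {φ : Fml} : (∀ e, Ev e φ) → Prov T φ
  | mp {φ ψ : Fml} : Prov T (imp φ ψ) → Prov T φ → Prov T ψ
  | subst {φ : Fml} (σ : ℕ → ℕ) : Prov T φ → Prov T (sb φ σ)
  | inst (i j : ℕ) (φ : Fml) : Prov T (imp (.all i φ) (sb φ (update id i j)))
  | gen {i j : ℕ} {φ ψ : Fml} : j ∉ fv ψ → j ∉ fv (.all i φ) →
      Prov T (imp ψ (sb φ (update id i j))) → Prov T (imp ψ (.all i φ))
  | refl (i : ℕ) : Prov T (.eq i i)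
  | eqm (i j k l : ℕ) : Prov T (imp (.eq i j) (imp (.eq k l) (imp (.mem i k) (.mem j l))))
  | eqe (i j k l : ℕ) : Prov T (imp (.eq i j) (imp (.eq k l) (imp (.eq i k) (.eq j l))))

/-- `T` is consistent: it proves no formula together with its negation -/
def Con (T : Set Fml) : Prop := ¬ ∃ φ, Prov T φ ∧ Prov T (.neg φ)

/-- `(M, mem)` satisfies the universal closures of the formulas of `T` -/
def Models {M : Type} (mem : M → M → Prop) (T : Set Fml) : Prop :=
  ∀ φ ∈ T, ∀ v, Sat mem φ v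

/-- disjunction -/
def orF (φ ψ : Fml) : Fml := .neg (.and (.neg φ) (.neg ψ))

/-- equivalence -/
def iffF (φ ψ : Fml) : Fml := .and (imp φ ψ) (imp ψ φ)

/-- existential quantifier -/
def exF (i : ℕ) (φ : Fml) : Fml := .neg (.all i (.neg φ))

/-- the axioms of ZFC (free variables are read universally) -/
inductive ZFC : Fml → Prop
  | ext : ZFC (imp (.all 2 (iffF (.mem 2 0) (.mem 2 1))) (.eq 0 1))
  | found : ZFC (imp (exF 1 (.mem 1 0))
      (exF 1 (.and (.mem 1 0) (.all 2 (imp (.mem 2 1) (.neg (.mem 2 0)))))))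
  | pair : ZFC (exF 2 (.all 3 (iffF (.mem 3 2) (orF (.eq 3 0) (.eq 3 1)))))
  | union : ZFC (exF 1 (.all 2 (iffF (.mem 2 1) (exF 3 (.and (.mem 3 0) (.mem 2 3))))))
  | power : ZFC (exF 1 (.all 2 (iffF (.mem 2 1) (.all 3 (imp (.mem 3 2) (.mem 3 0))))))
  | inf : ZFC (exF 0 (.and (exF 1 (.and (.mem 1 0) (.all 2 (.neg (.mem 2 1)))))
      (.all 1 (imp (.mem 1 0) (exF 2 (.and (.mem 2 0)
        (.all 3 (iffF (.mem 3 2) (orF (.mem 3 1) (.eq 3 1))))))))))
  | sep (φ : Fml) (a b : ℕ) : a ≠ 0 → b ≠ 0 → b ≠ a → b ∉ fv φ →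
      ZFC (exF b (.all 0 (iffF (.mem 0 b) (.and (.mem 0 a) φ))))
  | repl (φ : Fml) (a b : ℕ) : 1 < a → 1 < b → b ≠ a → b ∉ fv φ →
      ZFC (imp (.all 0 (imp (.mem 0 a) (exF b (.all 1 (iffF φ (.eq 1 b))))))
        (exF b (.all 1 (iffF (.mem 1 b) (exF 0 (.and (.mem 0 a) φ))))))
  | choice : ZFC (imp (.all 1 (imp (.mem 1 0) (exF 2 (.mem 2 1))))
      (imp (.all 1 (.all 2 (.all 3 (imp (.mem 1 0) (imp (.mem 2 0) (imp (.mem 3 1)
        (imp (.mem 3 2) (.eq 1 2))))))))
      (exF 1 (.all 2 (imp (.mem 2 0) (exF 3 (.all 4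
        (iffF (.and (.mem 4 2) (.mem 4 1)) (.eq 4 3)))))))))

/-- in models of ZFC the formula `φ` says `P` -/
def Says (φ : Fml) (P : ∀ {M : Type}, (M → M → Prop) → Prop) : Prop :=
  ∀ (M : Type) (mem : M → M → Prop), IsZFC mem → ∀ v, Sat mem φ v ↔ P mem

section
variable {M : Type} (mem : M → M → Prop)

/-- `x` is the numeral `k` -/
def IsNum : ℕ → M → Prop
  | 0, x => ∀ z, ¬ mem z x
  | k + 1, x => ∃ y, IsNum k y ∧ IsSucc mem x y

/-- `G(n) = (k, (a, b))`: the expression number `n` has kind `k` and constituents `a`, `b` -/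
def Node (G n : M) (k : ℕ) (a b : M) : Prop :=
  ∃ c p q, IsNum mem k c ∧ IsPair mem p a b ∧ IsPair mem q c p ∧ App mem G n q

/-- `G` numbers terms and formulas of the language with function symbols `f_i` and relation
symbols `r_i`, `i ∈ ω`: kind 0 the variable `x_a`; kinds 1, 2 the symbol `f_a`, `r_a` applied to the
terms listed by `b`; kind 3 the equation of the terms `a`, `b`; kind 4 the negation of `b`; kind 5
the conjunction of `a`, `b`; kind 6 the formula `∃ x_a b`. Subexpressions have smaller numbers. -/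
def Syn (G : M) : Prop := ∀ n a b,
  (Node mem G n 1 a b ∨ Node mem G n 2 a b → ∀ j m, App mem b j m → mem m n) ∧
  (Node mem G n 3 a b ∨ Node mem G n 5 a b → mem a n ∧ mem b n) ∧
  (Node mem G n 4 a b ∨ Node mem G n 6 a b → mem b n)

/-- in the table `V` the term number `n` has the value `y` under the assignment `s` -/
def Val (V n s y : M) : Prop := ∃ p, IsPair mem p s y ∧ App mem V n p

/-- in the table `T` the formula number `n` is true under the assignment `s` -/
def Tru (T n s : M) : Prop := App mem T n s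

/-- `e` lists the values under `s` of the terms listed by `u` -/
def Args (V u s e : M) : Prop :=
  (∀ j y, App mem e j y ↔ ∃ m, App mem u j m ∧ Val mem V m s y) ∧
    ∀ j m, App mem u j m → ∃ y, App mem e j y

/-- `s'` is `s` with the value at `k` set to `y` -/
def Upd (s' s k y : M) : Prop :=
  ∀ j z, App mem s' j z ↔ (j = k ∧ z = y) ∨ (¬ j = k ∧ App mem s j z)

/-- Tarski's clause for the value of a term in the structure on `A` with functions `F` -/
def ValC (G F A w V n s y : M) : Prop := ∃ a b, (Node mem G n 0 a b ∧ App mem s a y) ∨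
  (Node mem G n 1 a b ∧ ∃ e g, IsSeq mem e A w ∧ Args mem V b s e ∧ App mem F a g ∧ App mem g e y)

/-- Tarski's clause for the truth of a formula in the structure on `A` with relations `R` -/
def TruC (G R A w V T n s : M) : Prop := ∃ a b,
  (Node mem G n 2 a b ∧ ∃ e r, IsSeq mem e A w ∧ Args mem V b s e ∧ App mem R a r ∧ mem e r) ∨
  (Node mem G n 3 a b ∧ ∃ y, Val mem V a s y ∧ Val mem V b s y) ∨
  (Node mem G n 4 a b ∧ ¬ Tru mem T b s) ∨
  (Node mem G n 5 a b ∧ Tru mem T a s ∧ Tru mem T b s) ∨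
  (Node mem G n 6 a b ∧ ∃ y s', mem y A ∧ IsSeq mem s' A w ∧ Upd mem s' s a y ∧ Tru mem T b s')

/-- `V` and `T` are the value table and the truth table of the structure `(A, R, F)`; assignments
are finite sequences in `A` -/
def Table (G R F A w V T : M) : Prop := ∀ n s, mem n w → IsSeq mem s A w →
  (∀ y, Val mem V n s y ↔ ValC mem G F A w V n s y) ∧ (Tru mem T n s ↔ TruC mem G R A w V T n s)

/-- `N` is an elementary substructure of `(A, R, F)`: closed under the functions, and the truth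
tables of the two structures agree on assignments in `N` -/
def ElemSub (G R F N A w : M) : Prop := IsSub mem N A ∧ Closed mem N F w ∧
  ∃ V T V' T', Table mem G R F A w V T ∧ Table mem G R F N w V' T' ∧
    ∀ n s, mem n w → IsSeq mem s N w → (Tru mem T' n s ↔ Tru mem T n s)

/-- the sequence of the problem is mutually stationary, in the words of the problem: every structure
on `ℵ_ω` in a countable language has an elementary substructure `N` such that, for all `n ≥ 2` with
`ℵ_n ∈ N`, `sup (N ∩ ℵ_n)` is below `ℵ_n` of cofinality `ω` if `n ≡ 2 mod 3` and `ω₁` otherwise -/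
def MS : Prop := ∃ w w1 a lam E, IsOmega mem w ∧ IsSuccCard mem w1 w ∧ IsAleph mem a w ∧
  IsSupRange mem lam a ∧ IsTwoMod3 mem E w ∧
  ∀ G R F, Syn mem G → IsAlg mem F lam w → ∃ N, ElemSub mem G R F N lam w ∧
    ∀ n x, App mem a n x → mem w1 x → mem x N → ∃ d, IsSupBelow mem d N x ∧ mem d x ∧
      (mem n E → IsCof mem d w) ∧ (¬ mem n E → IsCof mem d w1)

end

/-! #### Proofs -/

theorem fresh_ne {s : Finset ℕ} {σ : ℕ → ℕ} {y : ℕ} (h : y ∈ s) : σ y ≠ s.sup σ + 1 :=
  (Nat.lt_succ_of_le (Finset.le_sup (f := σ) h)).ne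

theorem fv_sb (φ : Fml) : ∀ σ : ℕ → ℕ, fv (sb φ σ) = (fv φ).image σ := by
  induction φ with
  | mem i j => intro σ; simp [fv, sb]
  | eq i j => intro σ; simp [fv, sb]
  | neg φ ih => exact ih
  | and φ ψ ih ih' => intro σ; simp [fv, sb, ih, ih', Finset.image_union]
  | all i φ ih =>
    intro σ
    ext x
    simp only [fv, sb, ih, Finset.mem_erase, Finset.mem_image]
    constructor
    · rintro ⟨hx, y, hy, rfl⟩
      by_cases e : y = i
      · subst e; simp at hx
      · exact ⟨y, ⟨e, hy⟩, by rw [update_of_ne e]⟩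
    · rintro ⟨y, ⟨e, hy⟩, rfl⟩
      exact ⟨fresh_ne (Finset.mem_erase.2 ⟨e, hy⟩), y, hy, update_of_ne e ..⟩

theorem sb_congr (φ : Fml) : ∀ σ τ : ℕ → ℕ, (∀ y ∈ fv φ, σ y = τ y) → sb φ σ = sb φ τ := by
  induction φ with
  | mem i j => intro σ τ h; simp only [sb]; rw [h i (by simp [fv]), h j (by simp [fv])]
  | eq i j => intro σ τ h; simp only [sb]; rw [h i (by simp [fv]), h j (by simp [fv])]
  | neg φ ih => intro σ τ h; simp only [sb]; rw [ih σ τ h]
  | and φ ψ ih ih' =>
    intro σ τ h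
    simp only [sb]
    rw [ih σ τ fun y hy => h y (Finset.mem_union_left _ hy),
      ih' σ τ fun y hy => h y (Finset.mem_union_right _ hy)]
  | all i φ ih =>
    intro σ τ h
    have e : ((fv φ).erase i).sup σ = ((fv φ).erase i).sup τ := Finset.sup_congr rfl h
    simp only [sb]
    rw [e, ih]
    intro y hy
    by_cases g : y = i
    · subst g; simp
    · rw [update_of_ne g, update_of_ne g, h y (Finset.mem_erase.2 ⟨g, hy⟩)]

theorem sb_sb (φ : Fml) : ∀ σ τ : ℕ → ℕ, sb (sb φ σ) τ = sb φ (τ ∘ σ) := by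
  induction φ with
  | mem i j => intro σ τ; rfl
  | eq i j => intro σ τ; rfl
  | neg φ ih => intro σ τ; simp only [sb, ih]
  | and φ ψ ih ih' => intro σ τ; simp only [sb, ih, ih']
  | all i φ ih =>
    intro σ τ
    have e : fv (sb (.all i φ) σ) = ((fv φ).erase i).image σ := fv_sb (.all i φ) σ
    simp only [sb, fv] at e ⊢
    rw [e, Finset.sup_image, ih]
    congr 1
    refine sb_congr φ _ _ fun y hy => ?_
    by_cases g : y = i
    · subst g; simp
    · rw [comp_apply, update_of_ne g, update_of_ne g,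
        update_of_ne (fresh_ne (Finset.mem_erase.2 ⟨g, hy⟩)), comp_apply]

theorem sat_congr {M : Type} (mem : M → M → Prop) (φ : Fml) :
    ∀ v w : ℕ → M, (∀ y ∈ fv φ, v y = w y) → (Sat mem φ v ↔ Sat mem φ w) := by
  induction φ with
  | mem i j => intro v w h; simp only [s_mem, s_eq, s_neg, s_and, s_all]; rw [h i (by simp [fv]), h j (by simp [fv])]
  | eq i j => intro v w h; simp only [s_mem, s_eq, s_neg, s_and, s_all]; rw [h i (by simp [fv]), h j (by simp [fv])]
  | neg φ ih => exact fun v w h => not_congr (ih v w h)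
  | and φ ψ ih ih' =>
    exact fun v w h => and_congr (ih v w fun y hy => h y (Finset.mem_union_left _ hy))
      (ih' v w fun y hy => h y (Finset.mem_union_right _ hy))
  | all i φ ih =>
    refine fun v w h => forall_congr' fun x => ih _ _ fun y hy => ?_
    by_cases g : y = i
    · subst g; simp
    · rw [update_of_ne g, update_of_ne g, h y (Finset.mem_erase.2 ⟨g, hy⟩)]

theorem sat_sb {M : Type} (mem : M → M → Prop) (φ : Fml) :
    ∀ (σ : ℕ → ℕ) (v : ℕ → M), Sat mem (sb φ σ) v ↔ Sat mem φ (v ∘ σ) := by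
  induction φ with
  | mem i j => intro σ v; rfl
  | eq i j => intro σ v; rfl
  | neg φ ih => exact fun σ v => not_congr (ih σ v)
  | and φ ψ ih ih' => exact fun σ v => and_congr (ih σ v) (ih' σ v)
  | all i φ ih =>
    refine fun σ v => forall_congr' fun x => (ih _ _).trans (sat_congr mem φ _ _ fun y hy => ?_)
    by_cases g : y = i
    · subst g; simp
    · rw [comp_apply, update_of_ne g, update_of_ne g,
        update_of_ne (fresh_ne (Finset.mem_erase.2 ⟨g, hy⟩)), comp_apply]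

theorem ev_sat {M : Type} (mem : M → M → Prop) (v : ℕ → M) (φ : Fml) :
    Ev (fun ψ => Sat mem ψ v) φ ↔ Sat mem φ v := by
  induction φ with
  | neg φ ih => exact not_congr ih
  | and φ ψ ih ih' => exact and_congr ih ih'
  | _ => rfl

/-- soundness -/
theorem sound {M : Type} {mem : M → M → Prop} {T : Set Fml} (hT : Models mem T) {φ : Fml}
    (h : Prov T φ) : ∀ v, Sat mem φ v := by
  induction h with
  | ax h => exact hT _ h
  | taut h => exact fun v => (ev_sat mem v _).1 (h _)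
  | mp _ _ ih ih' => exact fun v => not_not.1 fun g => ih v ⟨ih' v, g⟩
  | subst σ _ ih => exact fun v => (sat_sb mem _ σ v).2 (ih _)
  | inst i j φ =>
    refine fun v g => g.2 ((sat_sb mem φ _ v).2 ?_)
    rw [comp_update]
    exact g.1 (v j)
  | @gen i j φ ψ h1 h2 _ ih =>
    refine fun v g => g.2 fun x => not_not.1 fun g' => ih (update v j x) ⟨?_, fun g2 => g' ?_⟩
    · exact (sat_congr mem ψ _ _ fun y hy =>
        update_of_ne (fun e : y = j => h1 (e ▸ hy)) ..).2 g.1
    · refine (sat_congr mem φ _ _ fun y hy => ?_).1 ((sat_sb mem φ _ _).1 g2)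
      by_cases e : y = i
      · subst e; simp
      · have : y ≠ j := fun e' => h2 (e' ▸ Finset.mem_erase.2 ⟨e, hy⟩)
        simp [update_of_ne e, update_of_ne this]
  | refl i => exact fun v => rfl
  | eqm i j k l =>
    intro v
    simp only [imp, s_mem, s_eq, s_neg, s_and, s_all, not_and, not_not]
    exact fun e e' g => e ▸ e' ▸ g
  | eqe i j k l =>
    intro v
    simp only [imp, s_mem, s_eq, s_neg, s_and, s_all, not_and, not_not]
    exact fun e e' g => e ▸ e' ▸ g

theorem henkin_step {T : Set Fml} {θ : Fml} (h : ¬ Prov T (.neg θ)) (φ : Fml) :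
    ∃ θ', ¬ Prov T (.neg θ') ∧ Prov T (imp θ' θ) ∧ (Prov T (imp θ' φ) ∨ Prov T (imp θ' (.neg φ)) ∧
      ∀ i ψ, φ = .all i ψ → ∃ j, Prov T (imp θ' (.neg (sb ψ (update id i j))))) := by
  by_cases h1 : Prov T (.neg (.and θ φ))
  · have h2 : ¬ Prov T (.neg (.and θ (.neg φ))) := fun h2 => h
      (((Prov.taut (φ := imp _ (imp _ _)) fun e => by simp only [imp, Ev]; tauto).mp h1).mp h2)
    by_cases h3 : ∃ i ψ, φ = .all i ψ
    · obtain ⟨i, ψ, rfl⟩ := h3
      obtain ⟨j, hj⟩ := Infinite.exists_notMem_finset (fv (.and θ (.neg (.all i ψ))))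
      refine ⟨.and (.and θ (.neg (.all i ψ))) (.neg (sb ψ (update id i j))), fun g => h2 ?_,
        .taut fun e => by simp only [imp, Ev]; tauto,
        Or.inr ⟨.taut fun e => by simp only [imp, Ev]; tauto, fun i' ψ' e => ?_⟩⟩
      · exact (Prov.taut (φ := imp _ _) fun e => by simp only [imp, Ev]; tauto).mp
          (Prov.gen hj (fun g' => hj (Finset.mem_union_right _ g')) g)
      · cases e
        exact ⟨j, .taut fun e => by simp only [imp, Ev]; tauto⟩
    · exact ⟨_, h2, .taut fun e => by simp only [imp, Ev]; tauto,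
        Or.inr ⟨.taut fun e => by simp only [imp, Ev]; tauto, fun i ψ e => (h3 ⟨i, ψ, e⟩).elim⟩⟩
  · exact ⟨_, h1, .taut fun e => by simp only [imp, Ev]; tauto,
      Or.inl (.taut fun e => by simp only [imp, Ev]; tauto)⟩

/-- a complete Henkin set containing `θ` -/
theorem henkin {T : Set Fml} {θ : Fml} (h : ¬ Prov T (.neg θ)) :
    ∃ G : Fml → Prop, G θ ∧ (∀ φ, Prov T φ → G φ) ∧ (∀ φ ψ, G (imp φ ψ) → G φ → G ψ) ∧
      (∀ φ, G (.neg φ) ↔ ¬ G φ) ∧ ∀ i ψ, (∀ j, G (sb ψ (update id i j))) → G (.all i ψ) := by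
  have : Nonempty Fml := ⟨θ⟩
  obtain ⟨en, hen⟩ := exists_surjective_nat Fml
  choose st s1 s2 s3 using fun (p : {θ // ¬ Prov T (.neg θ)}) (φ : Fml) => henkin_step p.2 φ
  let c' : ℕ → {θ // ¬ Prov T (.neg θ)} := fun n =>
    Nat.rec ⟨θ, h⟩ (fun n p => ⟨st p (en n), s1 p _⟩) n
  let c : ℕ → Fml := fun n => (c' n).1
  have tr : ∀ {a b d : Fml}, Prov T (imp a b) → Prov T (imp b d) → Prov T (imp a d) :=
    fun g g' => ((Prov.taut (φ := imp _ (imp _ _)) fun e => by
      simp only [imp, Ev]; tauto).mp g).mp g'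
  have mono : ∀ {m n : ℕ} {φ : Fml}, m ≤ n → Prov T (imp (c m) φ) → Prov T (imp (c n) φ) := by
    intro m n φ hmn g
    induction hmn with
    | refl => exact g
    | step _ ih => exact tr (s2 _ _) ih
  have hmp : ∀ φ ψ, (∃ n, Prov T (imp (c n) (imp φ ψ))) → (∃ n, Prov T (imp (c n) φ)) →
      ∃ n, Prov T (imp (c n) ψ) := fun φ ψ ⟨m, g⟩ ⟨n, g'⟩ =>
    ⟨max m n, ((Prov.taut (φ := imp _ (imp _ _)) fun e => by simp only [imp, Ev]; tauto).mp
      (mono (le_max_left m n) g)).mp (mono (le_max_right m n) g')⟩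
  have hc : ∀ φ, (∃ n, Prov T (imp (c n) (.neg φ))) → ¬ ∃ n, Prov T (imp (c n) φ) :=
    fun φ ⟨m, g⟩ ⟨n, g'⟩ => (c' (max m n)).2
      (((Prov.taut (φ := imp _ (imp _ _)) fun e => by simp only [imp, Ev]; tauto).mp
        (mono (le_max_left m n) g)).mp (mono (le_max_right m n) g'))
  refine ⟨fun φ => ∃ n, Prov T (imp (c n) φ), ⟨0, .taut fun e => by simp [imp, Ev, c, c']⟩,
    fun φ g => ⟨0, (Prov.taut (φ := imp _ _) fun e => by simp only [imp, Ev]; tauto).mp g⟩, hmp,
    fun φ => ⟨hc φ, fun g => ?_⟩, fun i ψ g => ?_⟩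
  · obtain ⟨n, rfl⟩ := hen φ
    exact ⟨n + 1, ((s3 (c' n) (en n)).resolve_left fun g' => g ⟨n + 1, g'⟩).1⟩
  · obtain ⟨n, hn⟩ := hen (.all i ψ)
    rcases s3 (c' n) (en n) with g' | ⟨-, g'⟩
    · exact ⟨n + 1, hn ▸ g'⟩
    · obtain ⟨j, hj⟩ := g' i ψ hn
      exact (hc _ ⟨n + 1, hj⟩ (g j)).elim

/-- completeness: a consistent theory has a model -/
theorem complete {T : Set Fml} (h : Con T) :
    ∃ (M : Type) (mem : M → M → Prop), Nonempty M ∧ Models mem T := by
  obtain ⟨G, -, g1, g2, g3, g4⟩ := henkin (T := T) (θ := .eq 0 0) fun g => h ⟨_, .refl 0, g⟩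
  have ee : ∀ {i j k l}, G (.eq i j) → G (.eq k l) → G (.eq i k) → G (.eq j l) :=
    fun a b d => g2 _ _ (g2 _ _ (g2 _ _ (g1 _ (.eqe _ _ _ _)) a) b) d
  have em' : ∀ {i j k l}, G (.eq i j) → G (.eq k l) → G (.mem i k) → G (.mem j l) :=
    fun a b d => g2 _ _ (g2 _ _ (g2 _ _ (g1 _ (.eqm _ _ _ _)) a) b) d
  have rf : ∀ i, G (.eq i i) := fun i => g1 _ (.refl i)
  have sy : ∀ {i j}, G (.eq i j) → G (.eq j i) := fun a => ee a (rf _) (rf _)
  let S : Setoid ℕ := ⟨fun i j => G (.eq i j), rf, sy, fun a b => ee (rf _) b a⟩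
  let mem : Quotient S → Quotient S → Prop := Quotient.lift₂ (fun i j => G (.mem i j))
    fun _ _ _ _ a b => propext ⟨em' a b, em' (sy a) (sy b)⟩
  have key : ∀ (φ : Fml) (σ : ℕ → ℕ), Sat mem φ (Quotient.mk S ∘ σ) ↔ G (sb φ σ) := by
    intro φ
    induction φ with
    | mem i j => exact fun σ => Iff.rfl
    | eq i j => exact fun σ => Quotient.eq
    | neg φ ih => exact fun σ => (not_congr (ih σ)).trans (g3 _).symm
    | and φ ψ ih ih' =>
      refine fun σ => (and_congr (ih σ) (ih' σ)).trans ⟨fun a => ?_, fun a => ⟨?_, ?_⟩⟩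
      · exact g2 _ _ (g2 _ _ (g1 _ (.taut fun e => by simp only [imp, Ev, sb]; tauto)) a.1) a.2
      · exact g2 _ _ (g1 _ (.taut fun e => by simp only [imp, Ev, sb]; tauto)) a
      · exact g2 _ _ (g1 _ (.taut fun e => by simp only [imp, Ev, sb]; tauto)) a
    | all i φ ih =>
      intro σ
      have e : ∀ j, sb (sb φ (update σ i (((fv φ).erase i).sup σ + 1)))
          (update id (((fv φ).erase i).sup σ + 1) j) = sb φ (update σ i j) := fun j => by
        rw [sb_sb]
        refine sb_congr φ _ _ fun y hy => ?_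
        by_cases g : y = i
        · subst g; simp
        · rw [comp_apply, update_of_ne g, update_of_ne g,
            update_of_ne (fresh_ne (Finset.mem_erase.2 ⟨g, hy⟩)), id]
      constructor
      · refine fun a => g4 _ _ fun j => ?_
        rw [e, ← ih, comp_update]
        exact a _
      · intro a x
        obtain ⟨j, rfl⟩ := Quotient.exists_rep x
        rw [← comp_update, ih, ← e]
        exact g2 _ _ (g1 _ (.inst _ _ _)) a
  refine ⟨Quotient S, mem, ⟨Quotient.mk S 0⟩, fun φ hφ v => ?_⟩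
  have : v = Quotient.mk S ∘ fun i => (v i).out := funext fun i => (Quotient.out_eq _).symm
  rw [this, key]
  exact g1 _ (.subst _ (.ax hφ))

/-- soundness and completeness of the calculus: consistent means having a model -/
theorem con_iff (T : Set Fml) :
    Con T ↔ ∃ (M : Type) (mem : M → M → Prop), Nonempty M ∧ Models mem T :=
  ⟨complete, fun ⟨_, _, ⟨x⟩, h⟩ ⟨_, g, g'⟩ => sound h g' (fun _ => x) (sound h g _)⟩

section
open Pool.Agent.P.MP_5f3b23_lc.Zf

instance ud_isNum (k i : ℕ) : UD.{0} fun _ mem v => IsNum mem k (v i) := by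
  induction k generalizing i with
  | zero => unfold IsNum; infer_instance
  | succ k ih => unfold IsNum; infer_instance

instance ud_node (i j k l m : ℕ) : UD.{0} fun _ mem v => Node mem (v i) (v j) k (v l) (v m) := by
  unfold Node; infer_instance

instance ud_syn (i : ℕ) : UD.{0} fun _ mem v => Syn mem (v i) := by
  unfold Syn; infer_instance

instance ud_val (i j k l : ℕ) : UD.{0} fun _ mem v => Val mem (v i) (v j) (v k) (v l) := by
  unfold Val; infer_instance

instance ud_tru (i j k : ℕ) : UD.{0} fun _ mem v => Tru mem (v i) (v j) (v k) := by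
  unfold Tru; infer_instance

instance ud_args (i j k l : ℕ) : UD.{0} fun _ mem v => Args mem (v i) (v j) (v k) (v l) := by
  unfold Args; infer_instance

instance ud_upd (i j k l : ℕ) : UD.{0} fun _ mem v => Upd mem (v i) (v j) (v k) (v l) := by
  unfold Upd; infer_instance

instance ud_valC (i j k l m n o p : ℕ) : UD.{0} fun _ mem v =>
    ValC mem (v i) (v j) (v k) (v l) (v m) (v n) (v o) (v p) := by
  unfold ValC; infer_instance

instance ud_truC (i j k l m n o p : ℕ) : UD.{0} fun _ mem v =>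
    TruC mem (v i) (v j) (v k) (v l) (v m) (v n) (v o) (v p) := by
  unfold TruC; infer_instance

instance ud_table (i j k l m n o : ℕ) : UD.{0} fun _ mem v =>
    Table mem (v i) (v j) (v k) (v l) (v m) (v n) (v o) := by
  unfold Table; infer_instance

instance ud_elemSub (i j k l m n : ℕ) : UD.{0} fun _ mem v =>
    ElemSub mem (v i) (v j) (v k) (v l) (v m) (v n) := by
  unfold ElemSub; infer_instance

instance ud_ms : UD.{0} fun _ mem _ => MS mem := by
  unfold MS; infer_instance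

variable {M : Type} [Zm M]

theorem df_sat (φ : Fml) : Df0 fun v : ℕ → M => Sat mm φ v := by
  induction φ with
  | mem i j => exact .mem i j
  | eq i j => exact .eq i j
  | neg φ ih => exact ih.neg
  | and φ ψ ih ih' => exact ih.and ih'
  | all i φ ih =>
    refine (ih.ren fun n => if n = i then 0 else n + 1).all.congr fun v =>
      forall_congr' fun x => Iff.of_eq ?_
    congr 1
    funext n
    by_cases e : n = i <;> simp [e, cons]

theorem d4_of_ud (P : ∀ M : Type, (M → M → Prop) → (ℕ → M) → Prop) [UD P] (c : ℕ → M) :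
    D4 fun a b d e : M => P M mm (cons a (cons b (cons d (cons e c)))) := by
  obtain ⟨φ, hφ⟩ := UD.fml P
  refine ⟨((df_sat φ).subst (fun i v => cons (v 0) (cons (v 1) (cons (v 2) (cons (v 3) c))) i)
    fun i => ?_).congr fun v => hφ _ _ _⟩
  rcases i with _ | _ | _ | _ | i
  exacts [tm_var 0, tm_var 1, tm_var 2, tm_var 3, tm_cst (c i)]

theorem skolem {A : M} (hA : ∃ x, x ∈ A) (P : M → M → M → M → Prop) [D4 P] :
    ∃ F, IsAlg mm F A om ∧ ∀ N, Sub N A → Closed mm N F om → ∀ t n s, t ∈ (om : M) →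
      n ∈ (om : M) → s ∈ Sq N → (∃ y, y ∈ A ∧ P t n s y) → ∃ y, y ∈ N ∧ P t n s y := by
  obtain ⟨f, f1, f2⟩ := prd_self (od_om (M := M)) Sub.rfl
  obtain ⟨c, hc⟩ := chs (prd om (Sq A)) (fun p y => y ∈ A ∧ ∀ i, i ∈ prd (om : M) om →
      ap f i = fst p → (∃ z, z ∈ A ∧ P (fst i) (snd i) (snd p) z) → P (fst i) (snd i) (snd p) y)
    fun p _ => by
      by_cases h : ∃ i, i ∈ prd (om : M) om ∧ ap f i = fst p ∧
          ∃ z, z ∈ A ∧ P (fst i) (snd i) (snd p) z
      · obtain ⟨i, hi, e, z, hz, g⟩ := h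
        exact ⟨z, hz, fun i' hi' e' _ => f2 i i' hi hi' (e.trans e'.symm) ▸ g⟩
      · obtain ⟨x, hx⟩ := hA
        exact ⟨x, hx, fun i hi e g => (h ⟨i, hi, e, g⟩).elim⟩
  refine ⟨lam om fun n => lam (Sq A) fun s => ap c (op n s), ⟨fun p hp => ?_,
    fun x hx => ⟨_, app_lam.2 ⟨hx, rfl⟩⟩, fun x y y' g g' => (app_lam.1 g).2.trans
      (app_lam.1 g').2.symm⟩, fun N hN hF t n s ht hn hs g => ?_⟩
  · obtain ⟨n, hn, rfl⟩ := mem_lam.1 hp
    exact ⟨n, _, isPair_iff.2 rfl, hn, Sq A, fun s => isSeq_iff.symm,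
      isFun_lam fun s hs => (hc _ (op_mem_prd.2 ⟨hn, hs⟩)).1⟩
  · have hi := op_mem_prd.2 ⟨ht, hn⟩
    have hs' := Sq_mono hN s hs
    have k := (hc _ (op_mem_prd.2 ⟨f1 _ hi, hs'⟩)).2 _ hi (fst_op ..).symm
    simp only [fst_op, snd_op] at k
    exact ⟨_, hF _ _ s _ (app_lam.2 ⟨f1 _ hi, rfl⟩) (isSeq_iff.2 hs) (app_lam.2 ⟨hs', rfl⟩), k g⟩

theorem ex_fix (B : M) (C : M → M → M → Prop) [D3 C] (hC : ∀ X Y n z : M,
    (∀ m, m ∈ n → ∀ u, op m u ∈ X ↔ op m u ∈ Y) → (C X n z ↔ C Y n z)) :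
    ∃ X : M, ∀ n, n ∈ (om : M) → ∀ z, op n z ∈ X ↔ z ∈ B ∧ C X n z := by
  obtain ⟨S, hS⟩ : ∃ S : M → M, S = fun f => sep (prd om B) fun p =>
    fst p = dom f ∧ C (bUn f fun q => snd q) (dom f) (snd p) := ⟨_, rfl⟩
  have : Fn1 S := ⟨by rw [hS]; infer_instance⟩
  have h1 : ∀ n : M, Od n → ∀ p, p ∈ rc S n ↔ p ∈ prd om B ∧ fst p = n ∧
      C (bUn (lam n fun m => rc S m) fun q => snd q) n (snd p) := fun n hn p => by
    have e : ∀ f, S f = sep (prd om B) fun p =>
      fst p = dom f ∧ C (bUn f fun q => snd q) (dom f) (snd p) := fun f => by rw [hS]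
    rw [rc_eq S hn, e, mem_sep, dom_lam]
  have h2 : ∀ b n z : M, Od b → n ∈ b → ((∃ m, m ∈ b ∧ op n z ∈ rc S m) ↔ op n z ∈ rc S n) :=
    fun b n z hb hn => ⟨fun ⟨m, hm, g⟩ => by
      have e := ((h1 m (hb.el hm) _).1 g).2.1
      rw [fst_op] at e
      exact e ▸ g, fun g => ⟨n, hn, g⟩⟩
  refine ⟨bUn om fun n => rc S n, fun n hn z => ?_⟩
  rw [mem_bUn, h2 _ _ _ od_om hn, h1 n (od_om.el hn), op_mem_prd, fst_op, snd_op,
    hC _ (bUn om fun n => rc S n) n z fun m hm u => ?_]
  · simp [hn]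
  · rw [mem_bUn, mem_bUn, h2 _ _ _ od_om (od_om.tr hn hm), ← h2 _ _ _ (od_om.el hn) hm]
    simp only [mem_lam]
    refine ⟨?_, fun ⟨k, hk, g⟩ => ⟨_, ⟨k, hk, rfl⟩, by rwa [snd_op]⟩⟩
    rintro ⟨_, ⟨k, hk, rfl⟩, g⟩
    exact ⟨k, hk, by rwa [snd_op] at g⟩

theorem val_iff {V n s y : M} : Val mm V n s y ↔ op n (op s y) ∈ V := by
  simp only [Val, isPair_iff, app_iff, exists_eq_left]

theorem args_congr {V V' u s e n : M} (hu : ∀ j m, App mm u j m → m ∈ n)
    (h : ∀ m, m ∈ n → ∀ z, op m z ∈ V ↔ op m z ∈ V') : Args mm V u s e ↔ Args mm V' u s e :=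
  and_congr_left' (forall₂_congr fun j _ => iff_congr Iff.rfl (exists_congr fun m =>
    and_congr_right fun g => by rw [val_iff, val_iff, h m (hu j m g)]))

theorem seq_mem {s A j y : M} (h : IsSeq mm s A om) (g : App mm s j y) : y ∈ A :=
  let ⟨_, _, h⟩ := h
  ((fun_app h).1 g).2 ▸ fun_mem h ((fun_app h).1 g).1

theorem seq_of {s A N : M} (h : IsSeq mm s A om) (g : ∀ j y, App mm s j y → y ∈ N) :
    IsSeq mm s N om :=
  let ⟨k, hk, h1, h2⟩ := h
  ⟨k, hk, fun p hp => let ⟨x, y, e, hx, _⟩ := h1 p hp; ⟨x, y, e, hx, g x y ⟨p, hp, e⟩⟩, h2⟩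

theorem alg_mem {F A i g e y : M} (hF : IsAlg mm F A om) (h : App mm F i g) (h' : App mm g e y) :
    i ∈ (om : M) ∧ y ∈ A := by
  obtain ⟨x, g', e', hx, Q, -, hg⟩ := hF.1 _ (app_iff.1 h)
  obtain ⟨rfl, rfl⟩ := op_inj (isPair_iff.1 e')
  exact ⟨hx, ((fun_app hg).1 h').2 ▸ fun_mem hg ((fun_app hg).1 h').1⟩

/-- in a model of ZFC every structure has a value table and a truth table -/
theorem ex_table {G R F A : M} (hG : Syn mm G) (hF : IsAlg mm F A om) :
    ∃ V T, Table mm G R F A om V T := by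
  have d1 : D4 fun V n s y : M => ValC mm G F A om V n s y := d4_of_ud
    (fun _ mem v => ValC mem (v 4) (v 5) (v 6) (v 7) (v 0) (v 1) (v 2) (v 3))
    (cons G (cons F (cons A fun _ => om)))
  obtain ⟨V, hV⟩ := ex_fix (prd (Sq A) A) (fun V n z => ValC mm G F A om V n (fst z) (snd z))
    fun X Y n z h => exists₂_congr fun a b => or_congr_right (and_congr_right fun g =>
      exists₂_congr fun e _ => by rw [args_congr ((hG n a b).1 (Or.inl g)) h])
  have d2 : D4 fun T n s _ : M => TruC mm G R A om V T n s := d4_of_ud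
    (fun _ mem v => TruC mem (v 4) (v 5) (v 6) (v 8) (v 7) (v 0) (v 1) (v 2))
    (cons G (cons R (cons A (cons V fun _ => om))))
  have d3 : D3 fun T n s : M => TruC mm G R A om V T n s := ⟨d2.out⟩
  obtain ⟨T, hT⟩ := ex_fix (Sq A) (fun T n s => TruC mm G R A om V T n s)
    fun X Y n z h => exists₂_congr fun a b => or_congr_right (or_congr_right (or_congr
      (and_congr_right fun g => by simp only [Tru, app_iff, h b ((hG n a b).2.2 (Or.inl g))])
      (or_congr (and_congr_right fun g => by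
        simp only [Tru, app_iff, h a ((hG n a b).2.1 (Or.inr g)).1,
          h b ((hG n a b).2.1 (Or.inr g)).2])
        (and_congr_right fun g => by
          simp only [Tru, app_iff, h b ((hG n a b).2.2 (Or.inr g))]))))
  refine ⟨V, T, fun n s hn hs => ⟨fun y => ?_,
    app_iff.trans ((hT n hn s).trans (and_iff_right (isSeq_iff.1 hs)))⟩⟩
  rw [val_iff, hV n hn, fst_op, snd_op, op_mem_prd]
  refine and_iff_right_of_imp fun ⟨a, b, g⟩ => ⟨isSeq_iff.1 hs, ?_⟩
  rcases g with g | ⟨-, e, g, -, -, g1, g2⟩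
  exacts [seq_mem hs g.2, (alg_mem hF g1 g2).2]

/-- in a model of ZFC the value table and the truth table of a structure are unique -/
theorem table_unique {G R F A V T V' T' : M} (hG : Syn mm G) (h : Table mm G R F A om V T)
    (h' : Table mm G R F A om V' T') {n : M} (hn : n ∈ (om : M)) {s : M} (hs : IsSeq mm s A om) :
    (∀ y, Val mm V n s y ↔ Val mm V' n s y) ∧ (Tru mm T n s ↔ Tru mm T' n s) := by
  have key := od_ind (fun n => n ∈ (om : M) → ∀ s, s ∈ Sq A →
    (∀ y, op n (op s y) ∈ V ↔ op n (op s y) ∈ V') ∧ (op n s ∈ T ↔ op n s ∈ T'))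
    (fun n _ ih hn s hs => ?_) (od_om.el hn) hn s (isSeq_iff.1 hs)
  · simpa only [val_iff, Tru, app_iff] using key
  have iv : ∀ m, m ∈ n → ∀ y, Val mm V m s y ↔ Val mm V' m s y := fun m hm y => by
    rw [val_iff, val_iff, (ih m hm (od_om.tr hn hm) s hs).1]
  have it : ∀ m, m ∈ n → ∀ t, IsSeq mm t A om → (Tru mm T m t ↔ Tru mm T' m t) :=
    fun m hm t ht => by
      simp only [Tru, app_iff, (ih m hm (od_om.tr hn hm) t (isSeq_iff.1 ht)).2]
  have ia : ∀ u e, (∀ j m, App mm u j m → m ∈ n) → (Args mm V u s e ↔ Args mm V' u s e) :=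
    fun u e hu => and_congr_left' (forall₂_congr fun j _ => iff_congr Iff.rfl
      (exists_congr fun m => and_congr_right fun g => iv m (hu j m g) _))
  have hs' := isSeq_iff.2 hs
  refine ⟨fun y => ?_, ?_⟩
  · rw [← val_iff, ← val_iff, (h n s hn hs').1, (h' n s hn hs').1]
    exact exists₂_congr fun a b => or_congr_right (and_congr_right fun g =>
      exists₂_congr fun e _ => by rw [ia b e ((hG n a b).1 (Or.inl g))])
  · refine app_iff.symm.trans ((h n s hn hs').2.trans (Iff.trans ?_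
      ((h' n s hn hs').2.symm.trans app_iff)))
    refine exists₂_congr fun a b => or_congr (and_congr_right fun g => exists₂_congr fun e _ => ?_)
      (or_congr (and_congr_right fun g => exists_congr fun y => ?_) (or_congr
        (and_congr_right fun g => ?_) (or_congr (and_congr_right fun g => ?_)
          (and_congr_right fun g => exists₂_congr fun y t => and_congr_right fun _ =>
            and_congr_right fun ht => ?_))))
    · rw [ia b e ((hG n a b).1 (Or.inr g))]
    · rw [iv a ((hG n a b).2.1 (Or.inl g)).1, iv b ((hG n a b).2.1 (Or.inl g)).2]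
    · rw [it b ((hG n a b).2.2 (Or.inl g)) s hs']
    · rw [it a ((hG n a b).2.1 (Or.inr g)).1 s hs', it b ((hG n a b).2.1 (Or.inr g)).2 s hs']
    · rw [it b ((hG n a b).2.2 (Or.inr g)) t ht]

/-- Skolem functions: a set closed under a suitable algebra is an elementary substructure -/
theorem ex_skolem {G R F A : M} (hA : ∃ x, x ∈ A) (hG : Syn mm G) (hF : IsAlg mm F A om) :
    ∃ F', IsAlg mm F' A om ∧ ∀ N, Sub N A → Closed mm N F' om → ElemSub mm G R F N A om := by
  obtain ⟨V, T, h⟩ := ex_table (R := R) hG hF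
  obtain ⟨F', h1, h2⟩ := @skolem M _ A hA (fun t n s y =>
    (t = emp ∧ ∃ g, App mm F n g ∧ App mm g s y) ∨ (t = suc emp ∧ Val mm V n s y) ∨
      (t = suc (suc emp) ∧ ∃ a b s', Node mm G n 6 a b ∧ IsSeq mm s' A om ∧ Upd mm s' s a y ∧
        Tru mm T b s')) (d4_of_ud (fun _ mem v =>
    (v 0 = v 4 ∧ ∃ g, App mem (v 7) (v 1) g ∧ App mem g (v 2) (v 3)) ∨
      (v 0 = v 5 ∧ Val mem (v 8) (v 1) (v 2) (v 3)) ∨
      (v 0 = v 6 ∧ ∃ a b s', Node mem (v 9) (v 1) 6 a b ∧ IsSeq mem s' (v 10) (v 12) ∧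
        Upd mem s' (v 2) a (v 3) ∧ Tru mem (v 11) b s'))
    (cons emp (cons (suc emp) (cons (suc (suc emp)) (cons F (cons V (cons G (cons A
      (cons T fun _ => om)))))))))
  refine ⟨F', h1, fun N hN hC => ?_⟩
  have k := h2 N hN hC
  have n1 : (suc emp : M) ≠ suc (suc emp) := fun e => suc_ne_emp _ (suc_inj od_emp e).symm
  have up : ∀ {s}, IsSeq mm s N om → IsSeq mm s A om := fun g =>
    seq_of g fun _ _ g' => hN _ (seq_mem g g')
  have dn : ∀ {n u s e : M}, n ∈ (om : M) → (∀ j m, App mm u j m → m ∈ n) → IsSeq mm s N om →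
      IsSeq mm e A om → Args mm V u s e → IsSeq mm e N om := fun hn hu hs he ha =>
    seq_of he fun j y g => by
      obtain ⟨m, g1, g2⟩ := (ha.1 j y).1 g
      obtain ⟨z, hz, g3⟩ := k _ m _ (suc_mem_om emp_mem_om) (od_om.tr hn (hu j m g1))
        (isSeq_iff.1 hs) ⟨y, seq_mem he g, Or.inr (Or.inl ⟨rfl, g2⟩)⟩
      have g4 := ((g3.resolve_left fun c => suc_ne_emp _ c.1).resolve_right fun c => n1 c.1).2
      exact he.choose_spec.2.2.2 j z y ((ha.1 j z).2 ⟨m, g1, g4⟩) g ▸ hz
  refine ⟨hN, fun i g s y g1 hs g2 => ?_, V, T, V, T, h, fun n s hn hs => ⟨fun y => ?_, ?_⟩,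
    fun _ _ _ _ => Iff.rfl⟩
  · obtain ⟨z, hz, g3⟩ := k _ i s emp_mem_om (alg_mem hF g1 g2).1 (isSeq_iff.1 hs)
      ⟨y, (alg_mem hF g1 g2).2, Or.inl ⟨rfl, g, g1, g2⟩⟩
    obtain ⟨g', g4, g5⟩ := (g3.resolve_right fun c =>
      c.elim (fun c => suc_ne_emp _ c.1.symm) fun c => suc_ne_emp _ c.1.symm).2
    obtain rfl := hF.2.2 i g g' g1 g4
    obtain ⟨x, g', e', -, Q, -, hg⟩ := hF.1 _ (app_iff.1 g1)
    obtain ⟨-, rfl⟩ := op_inj (isPair_iff.1 e')
    exact hg.2.2 s z y g5 g2 ▸ hz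
  · refine ((h n s hn (up hs)).1 y).trans (exists₂_congr fun a b => or_congr_right
      (and_congr_right fun g => exists₂_congr fun e _ => and_congr_left fun g' =>
        ⟨fun he => dn hn ((hG n a b).1 (Or.inl g)) hs he g'.1, up⟩))
  · refine (h n s hn (up hs)).2.trans ⟨?_, fun ⟨a, b, g⟩ => ⟨a, b, g.imp
      (fun ⟨g, e, r, he, g'⟩ => ⟨g, e, r, up he, g'⟩) (Or.imp_right (Or.imp_right (Or.imp_right
        fun ⟨g, y, s', hy, hs', g'⟩ => ⟨g, y, s', hN y hy, up hs', g'⟩)))⟩⟩
    rintro ⟨a, b, ⟨g, e, r, he, g'⟩ | g | g | g | ⟨g, y, s', hy, g'⟩⟩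
    · exact ⟨a, b, Or.inl ⟨g, e, r, dn hn ((hG n a b).1 (Or.inr g)) hs he g'.1, g'⟩⟩
    · exact ⟨a, b, Or.inr (Or.inl g)⟩
    · exact ⟨a, b, Or.inr (Or.inr (Or.inl g))⟩
    · exact ⟨a, b, Or.inr (Or.inr (Or.inr (Or.inl g)))⟩
    · obtain ⟨z, hz, g3⟩ := k _ n s (suc_mem_om (suc_mem_om emp_mem_om)) hn (isSeq_iff.1 hs)
        ⟨y, hy, Or.inr (Or.inr ⟨rfl, a, b, s', g, g'⟩)⟩
      obtain ⟨a', b', s2, g4, g5, g6, g7⟩ := ((g3.resolve_left fun c =>
        suc_ne_emp _ c.1).resolve_left fun c => n1 c.1.symm).2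
      exact ⟨a', b', Or.inr (Or.inr (Or.inr (Or.inr ⟨g4, z, s2, hz, seq_of g5 fun j u g8 =>
        ((g6 j u).1 g8).elim (fun c => c.2 ▸ hz) fun c => seq_mem hs c.2, g6, g7⟩)))⟩

end

section
variable {M : Type} {mem : M → M → Prop}

theorem sat_imp {φ ψ : Fml} {v : ℕ → M} : Sat mem (imp φ ψ) v ↔ (Sat mem φ v → Sat mem ψ v) := by
  simp only [imp, s_mem, s_eq, s_neg, s_and, s_all, not_and, not_not]

theorem sat_or {φ ψ : Fml} {v : ℕ → M} : Sat mem (orF φ ψ) v ↔ Sat mem φ v ∨ Sat mem ψ v := by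
  simp only [orF, s_mem, s_eq, s_neg, s_and, s_all]; tauto

theorem sat_iff {φ ψ : Fml} {v : ℕ → M} : Sat mem (iffF φ ψ) v ↔ (Sat mem φ v ↔ Sat mem ψ v) := by
  simp only [iffF, s_mem, s_eq, s_neg, s_and, s_all, sat_imp, iff_def]

theorem sat_ex {i : ℕ} {φ : Fml} {v : ℕ → M} :
    Sat mem (exF i φ) v ↔ ∃ x, Sat mem φ (update v i x) := by
  simp only [exF, s_mem, s_eq, s_neg, s_and, s_all, not_forall, not_not]

theorem exu_iff {P : M → Prop} : (∃ c, ∀ y, P y ↔ y = c) ↔ ∃! y, P y :=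
  exists_congr fun c => ⟨fun h => ⟨(h c).2 rfl, fun y => (h y).1⟩,
    fun h y => ⟨h.2 y, fun e => e ▸ h.1⟩⟩

theorem sat_sep {φ : Fml} {a b : ℕ} (ha : a ≠ 0) (hb : b ≠ 0) (e : b ≠ a) (h : b ∉ fv φ)
    (v : ℕ → M) : Sat mem (exF b (.all 0 (iffF (.mem 0 b) (.and (.mem 0 a) φ)))) v ↔
      ∃ c, ∀ x, mem x c ↔ mem x (v a) ∧ Sat mem φ (update v 0 x) := by
  simp only [sat_ex, sat_iff, s_mem, s_eq, s_neg, s_and, s_all, update_self, update_of_ne ha, update_of_ne hb,
    update_of_ne e.symm]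
  refine exists_congr fun c => forall_congr' fun x => iff_congr Iff.rfl (and_congr_right'
    (sat_congr mem φ _ _ fun y hy => ?_))
  have : y ≠ b := fun g => h (g ▸ hy)
  simp [update_apply, this]

theorem sat_repl {φ : Fml} {a b : ℕ} (ha : 1 < a) (hb : 1 < b) (e : b ≠ a) (h : b ∉ fv φ)
    (v : ℕ → M) : Sat mem (imp (.all 0 (imp (.mem 0 a) (exF b (.all 1 (iffF φ (.eq 1 b))))))
        (exF b (.all 1 (iffF (.mem 1 b) (exF 0 (.and (.mem 0 a) φ)))))) v ↔
      ((∀ x, mem x (v a) → ∃! y, Sat mem φ (update (update v 0 x) 1 y)) →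
        ∃ c, ∀ y, mem y c ↔ ∃ x, mem x (v a) ∧ Sat mem φ (update (update v 0 x) 1 y)) := by
  have a0 : a ≠ 0 := by omega
  have a1 : a ≠ 1 := by omega
  have b1 : b ≠ 1 := by omega
  simp only [sat_imp, sat_ex, sat_iff, s_mem, s_eq, s_neg, s_and, s_all, update_self, update_of_ne a0, update_of_ne a1,
    update_of_ne b1, update_of_ne e.symm, ← exu_iff]
  refine imp_congr (forall_congr' fun x => imp_congr_right fun _ => exists_congr fun c =>
    forall_congr' fun z => iff_congr (sat_congr mem φ _ _ fun y hy => ?_) Iff.rfl)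
    (exists_congr fun c => forall_congr' fun z => iff_congr Iff.rfl (exists_congr fun x =>
      and_congr_right' (sat_congr mem φ _ _ fun y hy => ?_)))
  all_goals
    have : y ≠ b := fun g => h (g ▸ hy)
    rcases y with _ | _ | y <;> simp [this]

/-- the models of the axioms are the models of ZFC in the sense of `result` -/
theorem models_zfc [Nonempty M] : Models mem {φ | ZFC φ} ↔ IsZFC mem := by
  constructor
  · intro h
    let v : M → M → ℕ → M := fun a b n => if n = 0 then a else b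
    refine ⟨fun a b => ?_, fun a => ?_, fun a b => ?_, fun a => ?_, fun a => ?_, ?_,
      fun φ w a => ?_, fun φ w a => ?_, fun a => ?_⟩
    · simpa [sat_imp, sat_iff, s_mem, s_eq, s_neg, s_and, s_all, v] using h _ .ext (v a b)
    · simpa [sat_imp, sat_ex, s_mem, s_eq, s_neg, s_and, s_all, v] using h _ .found (v a a)
    · simpa [sat_ex, sat_iff, sat_or, s_mem, s_eq, s_neg, s_and, s_all, v] using h _ .pair (v a b)
    · simpa [sat_ex, sat_iff, s_mem, s_eq, s_neg, s_and, s_all, v] using h _ .union (v a a)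
    · simpa [sat_imp, sat_ex, sat_iff, s_mem, s_eq, s_neg, s_and, s_all, v] using h _ .power (v a a)
    · simpa [sat_imp, sat_ex, sat_iff, sat_or, s_mem, s_eq, s_neg, s_and, s_all] using
        h _ .inf fun _ => Classical.arbitrary M
    · obtain ⟨k, hk⟩ : ∃ k, ∀ y ∈ fv φ, y < k := ⟨(fv φ).sup id + 1, fun y hy =>
        Nat.lt_succ_of_le (Finset.le_sup (f := id) hy)⟩
      have nb : k + 2 ∉ fv φ := fun g => by have := hk _ g; omega
      have := (sat_sep (a := k + 1) (by omega) (by omega) (by omega) nb _).1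
        (h _ (.sep φ _ _ (by omega) (by omega) (by omega) nb) (update w (k + 1) a))
      rw [update_self] at this
      refine this.imp fun c g x => (g x).trans (and_congr_right'
        (sat_congr mem φ _ _ fun y hy => ?_))
      have : y ≠ k + 1 := by have := hk _ hy; omega
      simp [update_apply, this]
    · obtain ⟨k, hk⟩ : ∃ k, ∀ y ∈ fv φ, y < k := ⟨(fv φ).sup id + 1, fun y hy =>
        Nat.lt_succ_of_le (Finset.le_sup (f := id) hy)⟩
      have nb : k + 3 ∉ fv φ := fun g => by have := hk _ g; omega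
      have := (sat_repl (a := k + 2) (by omega) (by omega) (by omega) nb _).1
        (h _ (.repl φ _ _ (by omega) (by omega) (by omega) nb) (update w (k + 2) a))
      have e : ∀ x y, Sat mem φ (update (update (update w (k + 2) a) 0 x) 1 y) ↔
          Sat mem φ (update (update w 0 x) 1 y) := fun x z => sat_congr mem φ _ _ fun y hy => by
        have : y ≠ k + 2 := by have := hk _ hy; omega
        simp [update_apply, this]
      simpa only [update_self, e] using this
    · simpa [sat_imp, sat_ex, sat_iff, s_mem, s_eq, s_neg, s_and, s_all, v, ← exu_iff] using h _ .choice (v a a)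
  · intro h φ hφ v
    cases hφ with
    | ext => simpa [sat_imp, sat_iff, s_mem, s_eq, s_neg, s_and, s_all] using h.ext _ _
    | found => simpa [sat_imp, sat_ex, s_mem, s_eq, s_neg, s_and, s_all] using h.found _
    | pair => simpa [sat_ex, sat_iff, sat_or, s_mem, s_eq, s_neg, s_and, s_all] using h.pair _ _
    | union => simpa [sat_ex, sat_iff, s_mem, s_eq, s_neg, s_and, s_all] using h.union _
    | power => simpa [sat_imp, sat_ex, sat_iff, s_mem, s_eq, s_neg, s_and, s_all] using h.power _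
    | inf => simpa [sat_imp, sat_ex, sat_iff, sat_or, s_mem, s_eq, s_neg, s_and, s_all] using h.inf
    | sep φ a b h1 h2 h3 h4 => exact (sat_sep h1 h2 h3 h4 v).2 (h.sep φ v _)
    | repl φ a b h1 h2 h3 h4 => exact (sat_repl h1 h2 h3 h4 v).2 (h.repl φ v _)
    | choice => simpa [sat_imp, sat_ex, sat_iff, s_mem, s_eq, s_neg, s_and, s_all, ← exu_iff] using h.choice _

end

open Pool.Agent.P.MP_5f3b23_lc.Zf in
theorem table_unique' {M : Type} {mem : M → M → Prop} (h : IsZFC mem) {G R F A w V T V' T' n s : M}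
    (hw : IsOmega mem w) (hG : Syn mem G) (h1 : Table mem G R F A w V T)
    (h2 : Table mem G R F A w V' T') (hn : mem n w) (hs : IsSeq mem s A w) :
    (∀ y, Val mem V n s y ↔ Val mem V' n s y) ∧ (Tru mem T n s ↔ Tru mem T' n s) := by
  let _ : Zm M := { mem := fun a x => mem x a, zfc := h }
  obtain rfl : w = om := isOmega_iff.1 hw
  exact table_unique hG h1 h2 hn hs

open Pool.Agent.P.MP_5f3b23_lc.Zf in
theorem ms_of {M : Type} {mem : M → M → Prop} (h : IsZFC mem) {w w1 a l E : M}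
    (h1 : IsOmega mem w) (h2 : P.MP_2e9c36_lc.IsSuccCard mem w1 w) (h3 : IsAleph mem a w)
    (h4 : IsSupRange mem l a) (h5 : IsTwoMod3 mem E w) (h6 : MutStat mem w w1 a l E) :
    MS mem := by
  let _ : Zm M := { mem := fun a x => mem x a, zfc := h }
  obtain rfl : w = om := isOmega_iff.1 h1
  refine ⟨_, w1, a, l, E, h1, h2, h3, h4, h5, fun G R F hG hF => ?_⟩
  obtain ⟨F', g1, g2⟩ := ex_skolem (R := R)
    ⟨emp, (h4 _).2 ⟨emp, om, h3.2.1 _ not_mem_emp, emp_mem_om (M := M)⟩⟩ hG hF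
  obtain ⟨N, g3, g4, g5⟩ := h6 F' g1
  exact ⟨N, g2 N g3 g4, fun n x hn hx _ => g5 n x hn hx⟩

open Pool.Agent.P.MP_5f3b23_lc.Zf in
/-- The question in its own words, `m = 1`: if ZFC plus a measurable cardinal is consistent, then
so is ZFC plus the mutual stationarity of the sequence (and both statements are expressible). -/
theorem literal (posed : ∀ (M : Type) (mem : M → M → Prop), IsZFC mem →
      (∃ k, IsMeasurable mem k) → ∃ (N : Type) (mem' : N → N → Prop), IsZFC mem' ∧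
        ∃ w w1 a lam E : N, IsOmega mem' w ∧ P.MP_2e9c36_lc.IsSuccCard mem' w1 w ∧
          IsAleph mem' a w ∧ IsSupRange mem' lam a ∧ IsTwoMod3 mem' E w ∧
          MutStat mem' w w1 a lam E) :
    (∃ φ, Says φ fun mem => ∃ k, IsMeasurable mem k) ∧ (∃ ψ, Says ψ MS) ∧
      ∀ φ ψ, (Says φ fun mem => ∃ k, IsMeasurable mem k) → Says ψ MS →
        Con (insert φ {χ | ZFC χ}) → Con (insert ψ {χ | ZFC χ}) := by
  refine ⟨(UD.fml fun _ mem _ => ∃ k, IsMeasurable mem k).imp fun φ h M mem _ => h M mem,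
    (UD.fml fun _ mem _ => MS mem).imp fun φ h M mem _ => h M mem, fun φ ψ hφ hψ h => ?_⟩
  obtain ⟨M, mem, ⟨x⟩, hM⟩ := complete h
  have : Nonempty M := ⟨x⟩
  have hz : IsZFC mem := models_zfc.1 fun χ g => hM χ (Or.inr g)
  obtain ⟨N, mem', g, w, w1, a, l, E, g1, g2, g3, g4, g5, g6⟩ :=
    posed M mem hz ((hφ M mem hz fun _ => x).1 (hM φ (Or.inl rfl) _))
  have : Nonempty N := ⟨w⟩
  refine (con_iff _).2 ⟨N, mem', this, fun χ hχ v => ?_⟩
  rcases hχ with rfl | hχ
  · exact (hψ N mem' g v).2 (ms_of g g1 g2 g3 g4 g5 g6)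
  · exact models_zfc.2 g χ hχ v

end Pool.Agent.P.MP_2e9c36_lc.Lit
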