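import Pool.Agent.P.MP_2e9c36_lc.Real

set_option autoImplicit false
set_option linter.unusedSectionVars false

/-! The recursion of length `ω₁` producing a closed family of terms. -/

open Cardinal Set Filter Pool.Agent.Lib.PosetForcing

namespace Pool.Agent.P.MP_2e9c36_lc

universe u

variable {K : Type u} [LinearOrder K] [WellFoundedLT K] [NM K]

theorem exists_rec {α : Type*} [Nonempty α] (P : α → Prop) (Rel : α → α → Prop) (b : K)
    (h : ∀ i < b, ∀ F : K → α, (∀ j < i, P (F j) ∧ ∀ k < j, Rel (F k) (F j)) →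
      ∃ x, P x ∧ ∀ j < i, Rel (F j) x) : ∃ F : K → α, ∀ i < b, P (F i) ∧ ∀ j < i, Rel (F j) (F i) := by
  let F : K → α := (wellFounded_lt (α := K)).fix fun i ih =>
    Classical.epsilon fun x => P x ∧ ∀ j (hj : j < i), Rel (ih j hj) x
  have e : ∀ i, F i = Classical.epsilon fun x => P x ∧ ∀ j < i, Rel (F j) x := fun i =>
    (wellFounded_lt (α := K)).fix_eq _ i
  refine ⟨F, fun i => ?_⟩
  induction i using WellFoundedLT.induction with
  | ind i ih =>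
    intro hi
    rw [e i]
    exact Classical.epsilon_spec (h i hi F fun j hj => ih j hj (hj.trans hi))

/-- states of the recursion -/
structure St (K : Type u) : Type u where
  /-- the system -/
  D : List K × List K → Cnd K
  /-- the terms with parameters up to a point -/
  T : K → Set ((Co → K) → K)
  /-- bounds for the earlier terms -/
  B : Bool → K → K

/-- valid states -/
structure StOK (S : St K) : Prop where
  sys : SysOK S.D
  card : ∀ γ < al K 2, #(S.T γ) ≤ cd (al K 1)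
  mono : ∀ γ γ', γ ≤ γ' → S.T γ ⊆ S.T γ'
  supp : ∀ γ, ∀ y ∈ S.T γ, ∃ m, Supp y m

/-- states containing the basic terms -/
structure StTop (S : St K) : Prop where
  const : ∀ γ, (fun _ => γ) ∈ S.T γ
  eta : ∀ γ n k, (fun h => h (ce n k)) ∈ S.T γ
  bnd : ∀ γ ε n, (fun h => S.B ε (top (tt h n))) ∈ S.T γ
  lt : ∀ ε α, al K 2 ≤ α → S.B ε α < sc (ph ε α)

variable (E : ℕ → List K → K → PP K → Prop)

/-- a witness is decided, or there is none below the first `m` Prikry points -/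
def RR (j : ℕ) (a : List ((Co → K) → K)) (m : ℕ) (h : Co → K) (y : K) (q : PP K) : Prop :=
  E j (a.map (· h)) y q ∨ ∀ r ≤ q, ∀ x, (∃ β ∈ tt h m, x < β) → ¬ E j (a.map (· h)) x r

/-- one step of the recursion -/
structure StStep (S S' : St K) : Prop where
  le1 : ∀ s, S.D s ⊆ S'.D s
  le2 : ∀ γ, S.T γ ⊆ S'.T γ
  dec : ∀ γ < al K 2, ∀ j a m, (∀ y ∈ a, y ∈ S.T γ ∧ Supp y m) →
    ∃ y ∈ S'.T γ, Supp y m ∧ Dec S'.D m fun h => RR E j a m h (y h)
  bnd : ∀ γ < al K 2, ∀ y ∈ S.T γ, Lg fun _ h =>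
    ∀ ε n, y h < sc (ph ε (top (tt h n))) → y h < S'.B ε (top (tt h n))

variable {E}

theorem mk_tasks_le {X : Type u} {S : Set X} {θ : Cardinal.{u}} (hθ : ℵ₀ ≤ θ) (h : #S ≤ θ) :
    #{a : ℕ × List X × ℕ | ∀ y ∈ a.2.1, y ∈ S} ≤ θ := by
  have h1 : {a : ℕ × List X × ℕ | ∀ y ∈ a.2.1, y ∈ S} ⊆
      ⋃ i ∈ (univ : Set (ULift.{u} (ℕ × ℕ))),
        (fun l => (i.down.1, l, i.down.2)) '' {l | ∀ y ∈ l, y ∈ S} :=
    fun a ha => mem_biUnion (mem_univ (ULift.up (a.1, a.2.2))) ⟨a.2.1, ha, rfl⟩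
  exact (mk_le_mk_of_subset h1).trans (mk_biUnion_le_of hθ (by simpa using hθ)
    fun _ _ => mk_image_le.trans (mk_list_le hθ h))

theorem tt_congr {m n : ℕ} {h h' : Co → K} (e : Agree m h h') (hn : n ≤ m) : tt h n = tt h' n :=
  lst_eq_iff.2 fun j hj => e _ ⟨j, hj.trans_le hn, Or.inl rfl⟩

theorem exists_step (mono : ∀ j xs y p q, q ≤ p → E j xs y p → E j xs y q) (S : St K)
    (hS : StOK S) : ∃ S', (StOK S' ∧ StTop S') ∧ StStep E S S' := by
  have i1 : ℵ₀ ≤ cd (al K 1) := aleph0_le_cd le_rfl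
  have i2 : ℵ₀ ≤ cd (al K 2) := aleph0_le_cd le_rfl
  have hT : #(⋃ γ ∈ Iio (al K 2), S.T γ) ≤ cd (al K 2) := mk_biUnion_le_of i2 le_rfl
    fun γ hγ => (hS.card γ hγ).trans (cd_lt_sc _).le
  obtain ⟨B, hB1, hB2⟩ := lg_succ hT fun y hy => by
    obtain ⟨γ, -, hy⟩ := mem_iUnion₂.1 hy
    exact hS.supp γ y hy
  obtain ⟨D, h1, h2, h3⟩ := meet_all (S := List K × List K)
    (X := {a : ℕ × List ((Co → K) → K) × ℕ | ∀ y ∈ a.2.1, y ∈ ⋃ γ ∈ Iio (al K 2), S.T γ})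
    (fun s => nu s.1) (fun s => cd_nu_inf _) (fun s x => Abv s.2 x) (fun _ _ => True)
    (fun s => (mk_set_le _).trans ((mk_tasks_le i2 hT).trans
      (cd_mono ((al_le_top _).trans (top_lt_nu _).le))))
    (fun a D => (∀ y ∈ a.1.2.1, Supp y a.1.2.2) → ∃ y, Supp y a.1.2.2 ∧
      Dec D a.1.2.2 fun h => RR E a.1.1 a.1.2.1 a.1.2.2 h (y h))
    (fun a D D' e h g => (h g).imp fun y h => ⟨h.1, h.2.mono fun s => e s trivial⟩)
    (fun a D hD => by
      by_cases g : ∀ y ∈ a.1.2.1, Supp y a.1.2.2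
      · obtain ⟨D', g1, g2, g3⟩ := step_lemma a.1.2.2 (RR E a.1.1 a.1.2.1 a.1.2.2)
          (fun h h' e => by
            have e1 : a.1.2.1.map (· h) = a.1.2.1.map (· h') :=
              List.map_congr_left fun y hy => g y hy h h' e
            funext y q
            rw [RR, RR, e1, tt_congr e le_rfl])
          (fun h => ⟨top (tt h a.1.2.2), fun q => by
            by_cases k : ∃ r ≤ q, ∃ x, (∃ β ∈ tt h a.1.2.2, x < β) ∧
              E a.1.1 (a.1.2.1.map (· h)) x r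
            · obtain ⟨r, hr, x, ⟨β, hβ, hx⟩, k⟩ := k
              exact ⟨r, hr, x, hx.trans_le (le_top_of_mem hβ), fun r' hr' =>
                ⟨r', le_rfl, Or.inl (mono _ _ _ _ _ hr' k)⟩⟩
            · exact ⟨q, le_rfl, al K 0, (al_strictMono (by omega)).trans_le (al_le_top _),
                fun r hr => ⟨r, le_rfl, Or.inr fun r' hr' x hx k' =>
                  k ⟨r', hr'.trans hr, x, hx, k'⟩⟩⟩⟩) D hD
        exact ⟨D', g1, g2, fun _ => g3⟩
      · exact ⟨D, hD, fun _ => subset_rfl, fun h => absurd h g⟩) S.D hS.sys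
  have h4 : ∀ a : ℕ × List ((Co → K) → K) × ℕ, ∃ y, Supp y a.2.2 ∧
      ((∀ y ∈ a.2.1, y ∈ ⋃ γ ∈ Iio (al K 2), S.T γ) → (∀ y ∈ a.2.1, Supp y a.2.2) →
        Dec D a.2.2 fun h => RR E a.1 a.2.1 a.2.2 h (y h)) := fun a => by
    by_cases g : (∀ y ∈ a.2.1, y ∈ ⋃ γ ∈ Iio (al K 2), S.T γ) ∧ ∀ y ∈ a.2.1, Supp y a.2.2
    · obtain ⟨y, g1, g2⟩ := h3 ⟨a, g.1⟩ g.2
      exact ⟨y, g1, fun _ _ => g2⟩
    · exact ⟨fun _ => al K 0, fun _ _ _ => rfl, fun g1 g2 => absurd ⟨g1, g2⟩ g⟩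
  choose dec hd1 hd2 using h4
  refine ⟨⟨D, fun γ => (S.T γ ∪ dec '' {a | ∀ y ∈ a.2.1, y ∈ S.T γ}) ∪
      ((fun ζ _ => ζ) '' Iic γ ∪ (range (fun a : ℕ × ℕ => fun h => h (ce a.1 a.2)) ∪
        range fun a : Bool × ℕ => fun h => B a.1 (top (tt h a.2)))), B⟩,
    ⟨⟨h1, fun γ hγ => ?_, fun γ γ' e => ?_, fun γ y hy => ?_⟩,
      fun γ => Or.inr (Or.inl ⟨γ, le_rfl, rfl⟩), fun γ n k => Or.inr (Or.inr (Or.inl ⟨(n, k), rfl⟩)),
      fun γ ε n => Or.inr (Or.inr (Or.inr ⟨(ε, n), rfl⟩)), hB1⟩,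
    h2, fun γ y hy => Or.inl (Or.inl hy), fun γ hγ j a m ha => ⟨dec (j, a, m),
      Or.inl (Or.inr ⟨_, fun y hy => (ha y hy).1, rfl⟩), hd1 _, hd2 (j, a, m)
        (fun y hy => mem_biUnion hγ (ha y hy).1) fun y hy => (ha y hy).2⟩,
    fun γ hγ y hy => hB2 y (mem_biUnion hγ hy)⟩
  · refine (mk_union_le _ _).trans (add_le_of_le i1 ((mk_union_le _ _).trans (add_le_of_le i1
      (hS.card γ hγ) (mk_image_le.trans (mk_tasks_le i1 (hS.card γ hγ)))))
      ((mk_union_le _ _).trans (add_le_of_le i1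
        (mk_image_le.trans (mk_Iic_le i1 (cd_le_of_lt_sc hγ))) (le_trans ?_ i1))))
    exact le_aleph0_iff_set_countable.2 ((countable_range _).union (countable_range _))
  · exact union_subset_union (union_subset_union (hS.mono _ _ e)
      (image_mono fun a ha y hy => hS.mono _ _ e (ha y hy)))
      (union_subset_union_left _ (image_mono (Iic_subset_Iic.2 e)))
  · rcases hy with (hy | ⟨a, -, rfl⟩) | ⟨ζ, -, rfl⟩ | ⟨a, rfl⟩ | ⟨a, rfl⟩
    · exact hS.supp γ y hy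
    · exact ⟨_, hd1 a⟩
    · exact ⟨0, fun _ _ _ => rfl⟩
    · exact ⟨a.1 + a.2 + 1, fun _ _ e => e _ ⟨a.1, by omega, Or.inr ⟨a.2, by omega, rfl⟩⟩⟩
    · exact ⟨a.2, fun _ _ e => congrArg (fun t => B a.1 (top t)) (tt_congr e le_rfl)⟩

/-- the union of the earlier states -/
def limSt (F : K → St K) (i : K) : St K :=
  ⟨fun s => ⋃ j ∈ Iio i, (F j).D s, fun γ => ⋃ j ∈ Iio i, (F j).T γ, fun _ x => x⟩

theorem limSt_ok {F : K → St K} {i : K} (hi : i ≤ al K 1)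
    (h : ∀ j < i, (StOK (F j) ∧ StTop (F j)) ∧ ∀ k < j, StStep E (F k) (F j)) :
    StOK (limSt F i) := by
  refine ⟨fun s => ⟨IsCol.biUnion (cd_nu_inf _) (cd_mono (hi.trans ((al_strictMono
      (by omega)).le.trans ((al_le_top _).trans (top_lt_nu _).le))))
      (fun j hj => ((h j hj).1.1.sys s).1) fun j hj k hk x hx y hy => ?_, fun x hx => ?_⟩,
    fun γ hγ => mk_biUnion_le_of (aleph0_le_cd (le_refl (al K 1))) (cd_mono hi)
      fun j hj => (h j hj).1.1.card γ hγ,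
    fun γ γ' e => iUnion₂_mono fun j hj => (h j hj).1.1.mono _ _ e, fun γ y hy => ?_⟩
  · rcases lt_trichotomy j k with e | rfl | e
    · exact ((h k hk).1.1.sys s).1.cmp x (((h k hk).2 j e).le1 s hx) y hy
    · exact ((h j hj).1.1.sys s).1.cmp x hx y hy
    · exact ((h j hj).1.1.sys s).1.cmp x hx y (((h j hj).2 k e).le1 s hy)
  · obtain ⟨j, hj, hx⟩ := mem_iUnion₂.1 hx
    exact ((h j hj).1.1.sys s).2 x hx
  · obtain ⟨j, hj, hy⟩ := mem_iUnion₂.1 hy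
    exact (h j hj).1.1.supp γ y hy

theorem exists_chain (mono : ∀ j xs y p q, q ≤ p → E j xs y p → E j xs y q) :
    ∃ F : K → St K, ∀ i < al K 1,
      (StOK (F i) ∧ StTop (F i)) ∧ ∀ j < i, StStep E (F j) (F i) := by
  have : Nonempty (St K) := ⟨⟨fun _ => ∅, fun _ => ∅, fun _ x => x⟩⟩
  refine exists_rec (fun S => StOK S ∧ StTop S) (StStep E) _ fun i hi F hF => ?_
  obtain ⟨S, h1, h2⟩ := exists_step mono _ (limSt_ok hi.le hF)
  have e : ∀ j < i, ∀ γ, (F j).T γ ⊆ (limSt F i).T γ := fun j hj γ =>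
    subset_biUnion_of_mem (u := fun j => (F j).T γ) hj
  exact ⟨S, h1, fun j hj => ⟨fun s => (subset_biUnion_of_mem (s := Iio i)
    (u := fun j => (F j).D s) hj).trans (h2.le1 s), fun γ => (e j hj γ).trans (h2.le2 γ), fun γ hγ k a m ha => h2.dec γ hγ k a m
      fun y hy => ⟨e j hj γ (ha y hy).1, (ha y hy).2⟩, fun γ hγ y hy => h2.bnd γ hγ y (e j hj γ hy)⟩⟩

theorem exists_gt_al1 {i j : K} (hi : i < al K 1) (hj : j < al K 1) :
    ∃ k < al K 1, i < k ∧ j < k := by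
  obtain ⟨z, h1, h2⟩ := bdd_sc (x := al K 0) aleph0_le_al0 (S := {i, j})
    ((le_aleph0_iff_set_countable.2 (toFinite _).countable).trans aleph0_le_al0)
    (by rintro y (rfl | rfl); exacts [hi, hj])
  exact ⟨z, h1, h2 i (by simp), h2 j (by simp)⟩

/-- below `q`, the part of the set described by `NV` under `ν` has a cofinal sequence of type `ι` -/
def Cf (ι : Type*) [Preorder ι] (q : PP K) (NV : List K → K → Prop) (t : List K) (ν : K) : Prop :=
  ∃ f : ι → K, StrictMono f ∧ (∃ z < ν, ∀ i, f i < z) ∧ ∀ p ≤ q, t <:+ p.s →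
    (∀ x < ν, NV p.s x → ∃ i, x < f i) ∧ ∀ i, ∃ r ≤ p, NV r.s (f i)

theorem main_comb (mono : ∀ j xs y p q, q ≤ p → E j xs y p → E j xs y q)
    (dense : ∀ j xs p, ∃ q ≤ p, ∃ x, E j xs x q) :
    ∃ (q : PP K) (NV : List K → K → Prop), (∀ s s' x, s <:+ s' → NV s x → NV s' x) ∧
      (∀ p ≤ q, ∀ j xs, (∀ x ∈ xs, NV p.s x) → ∃ r ≤ p, ∃ y, NV r.s y ∧ E j xs y r) ∧
      ∀ p ≤ q, ∀ t, t <:+ p.s → Cf ℕ q NV t (top t) ∧
        ∀ ε, Cf (Iio (al K 1)) q NV t (sc (ph ε (top t))) := by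
  obtain ⟨F, hF⟩ := exists_chain mono
  have hS := limSt_ok le_rfl hF
  set S := limSt F (al K 1) with eS
  have i0 : al K 0 < al K 1 := lt_sc _
  have eT : ∀ j < al K 1, ∀ γ, (F j).T γ ⊆ S.T γ := fun j hj γ =>
    subset_biUnion_of_mem (u := fun j => (F j).T γ) hj
  choose nγ n1 n2 n3 using fun γ : Iio (al K 2) => lg_al2 (hS.card γ γ.2) (hS.supp γ) γ.2
  let γ : ℕ → Iio (al K 2) := fun k =>
    Nat.rec ⟨al K 0, al_strictMono (by omega)⟩ (fun _ x => ⟨nγ x, n1 x⟩) k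
  have hγ : StrictMono fun k => (γ k).1 := strictMono_nat_of_lt_succ fun k => n2 (γ k)
  have hK : ∀ k : ℕ, #(S.T (γ k).1) < #K := fun k => (hS.card _ (γ k).2).trans_lt (cd_lt _)
  have g1 := Lg.nat fun k => Lg.all (hK k) fun y hy => Lg.nat fun m => (show Lg fun _ h =>
      Supp y m → ∀ n, y h < h (cb n) → y h < h (ce n m) from by
    by_cases hm : Supp y m
    · exact (lg_eta hm).mono fun _ _ _ h _ => h
    · exact ⟨univ, by simp, fun _ _ _ _ h => absurd h hm⟩)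
  have g2 := Lg.nat fun k => Lg.all (hK k) (n3 (γ k))
  have g3 := Lg.nat fun k => Lg.all (S := Iio (al K 1)) (cd_lt _) fun i hi =>
    Lg.all (S := Iio i) (cd_lt _) fun j hj => Lg.all
      (((hF j (hj.trans hi)).1.1.card _ (γ k).2).trans_lt (cd_lt _))
      (((hF i hi).2 j hj).bnd _ (γ k).2)
  have g4 := Lg.nat fun k => Lg.all ((mk_tasks_le (aleph0_le_cd (le_refl (al K 1)))
      (hS.card _ (γ k).2)).trans_lt (cd_lt _)) fun a ha => (show Lg fun A h =>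
      (∀ y ∈ a.2.1, Supp y a.2.2) → ∀ q, Fits q S.D h a.2.2 A → ∃ y ∈ S.T (γ k).1, Supp y a.2.2 ∧
        Dn (RR E a.1 a.2.1 a.2.2 h (y h)) q from by
    by_cases hm : ∀ y ∈ a.2.1, Supp y a.2.2
    · have : ∀ l : List ((Co → K) → K), (∀ y ∈ l, y ∈ S.T (γ k).1) →
          ∃ i < al K 1, ∀ y ∈ l, y ∈ (F i).T (γ k).1 := fun l hl => by
        induction l with
        | nil => exact ⟨_, i0, by simp⟩
        | cons y l ih =>
          obtain ⟨i, hi, h1⟩ := ih fun z hz => hl z (List.mem_cons_of_mem _ hz)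
          obtain ⟨j, hj, h2⟩ := mem_iUnion₂.1 (hl y List.mem_cons_self)
          obtain ⟨w, hw, h3, h4⟩ := exists_gt_al1 hi hj
          exact ⟨w, hw, List.forall_mem_cons.2 ⟨((hF w hw).2 j h4).le2 _ h2,
            fun z hz => ((hF w hw).2 i h3).le2 _ (h1 z hz)⟩⟩
      obtain ⟨i, hi, h1⟩ := this _ ha
      obtain ⟨w, hw, h3, -⟩ := exists_gt_al1 hi hi
      obtain ⟨y, y1, y2, y3⟩ := ((hF w hw).2 i h3).dec _ (γ k).2 a.1 a.2.1 a.2.2
        fun y hy => ⟨h1 y hy, hm y hy⟩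
      exact (y3.mono (D' := S.D) fun s =>
        subset_biUnion_of_mem (u := fun j => (F j).D s) hw).lg.mono
        fun _ _ _ h _ q hq => ⟨y, eT w hw _ y1, y2, h q hq⟩
    · exact ⟨univ, by simp, fun _ _ _ _ h => absurd h hm⟩)
  obtain ⟨A, hA, hA'⟩ := g1.and (g2.and (g3.and g4))
  replace hA' := hA' A subset_rfl
  obtain ⟨q, η, hz, hq⟩ := realize S.D hS.sys A hA
  let NV : List K → K → Prop := fun s x => ∃ k, ∃ y ∈ S.T (γ k).1, ∃ m h, Supp y m ∧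
    (∀ n k, h (ce n k) = η (tt h n) k) ∧ tt h m <:+ s ∧ y h = x
  have key : ∀ h n x, (∀ n k, h (ce n k) = η (tt h n) k) → NV (tt h n) x →
      ∃ k, ∃ y ∈ S.T (γ k).1, ∃ m ≤ n, Supp y m ∧ y h = x := by
    rintro h n _ e ⟨k, y, hy, m, h', y1, y2, y3, rfl⟩
    have hm : m ≤ n := by simpa [tt, lst_length] using y3.length_le
    have e1 : tt h' m = tt h m := by simpa [tt, lst_length] using eq_lst_of_suffix y3
    refine ⟨k, y, hy, m, hm, y1, y1 _ _ ?_⟩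
    rintro _ ⟨j, hj, rfl | ⟨i, -, rfl⟩⟩
    · exact (lst_eq_iff.1 e1 j hj).symm
    · rw [e, y2, show tt h j = tt h' j from
        lst_eq_iff.2 fun i hi => (lst_eq_iff.1 e1 i (hi.trans hj)).symm]
  have mk : ∀ p ≤ q, ∀ k, ∀ y ∈ S.T (γ k).1, ∃ r ≤ p, ∃ h, (∀ n k, h (ce n k) = η (tt h n) k) ∧
      tt h p.s.length = p.s ∧ NV r.s (y h) := fun p hp k y hy => by
    obtain ⟨m, hm⟩ := hS.supp _ y hy
    obtain ⟨r, hr, h1⟩ := exists_long p m
    obtain ⟨h, -, h2, h3, -⟩ := hq r (hr.trans hp)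
    exact ⟨r, hr, h, h2, (eq_lst_of_suffix (h3.symm ▸ stem_le hr : p.s <:+ tt h _)).symm,
      k, y, hy, m, h, hm, h2, h3 ▸ lst_suffix _ h1, rfl⟩
  have pre : ∀ (h : Co → K) {t s : List K}, tt h s.length = s → t <:+ s → tt h t.length = t :=
    fun h t s e ht => (eq_lst_of_suffix (e.symm ▸ ht : t <:+ tt h _)).symm
  refine ⟨q, NV, fun s s' x e ⟨k, y, hy, m, h, y1, y2, y3, y4⟩ =>
    ⟨k, y, hy, m, h, y1, y2, y3.trans e, y4⟩, fun p hp j xs hxs => ?_, fun p0 hp0 t ht0 => ⟨?_, ?_⟩⟩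
  · obtain ⟨p1, e1, x, hx⟩ := dense j xs p
    obtain ⟨r, e2, β, hβ, e3, -⟩ := exists_ext p1 (ae_gt x)
    have hr := e2.trans e1
    obtain ⟨h, h1, h2, h3, h4⟩ := hq r (hr.trans hp)
    have : ∃ k, ∃ a : List ((Co → K) → K), (∀ y ∈ a, y ∈ S.T (γ k).1 ∧ Supp y r.s.length) ∧
        a.map (· h) = xs := by
      clear hx
      induction xs with
      | nil => exact ⟨0, [], by simp, rfl⟩
      | cons z xs ih =>
        obtain ⟨k, a, a1, a2⟩ := ih fun w hw => hxs w (List.mem_cons_of_mem _ hw)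
        obtain ⟨k', y, hy, m, hm, y1, y2⟩ := key h p.s.length z h2
          ((pre h h3 (stem_le hr)).symm ▸ hxs z List.mem_cons_self)
        refine ⟨max k k', y :: a, List.forall_mem_cons.2 ⟨⟨hS.mono _ _
          (hγ.monotone (le_max_right _ _)) hy, y1.mono (hm.trans (stem_le hr).length_le)⟩,
          fun w hw => ⟨hS.mono _ _ (hγ.monotone (le_max_left _ _)) (a1 w hw).1, (a1 w hw).2⟩⟩,
          by simp [a2, y2]⟩
    obtain ⟨k, a, a1, rfl⟩ := this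
    obtain ⟨y, hy, y1, y2⟩ := (hA' h h1).2.2.2 k (j, a, r.s.length) (fun y hy => (a1 y hy).1)
      (fun y hy => (a1 y hy).2) r (h4 _ le_rfl)
    obtain ⟨r', hr', y3⟩ := y2 r le_rfl
    refine ⟨r', hr'.trans hr, y h, ⟨k, y, hy, _, h, y1, h2, h3.symm ▸ stem_le hr', rfl⟩,
      y3.resolve_right fun y4 => y4 r' le_rfl x ⟨β, by rw [h3, e3]; exact List.mem_cons_self, hβ⟩
        (mono _ _ _ _ _ (hr'.trans e2) hx)⟩
  · rcases t with _ | ⟨β, t⟩
    · obtain ⟨z, z1, z2⟩ := bdd_sc (x := al K 1) (aleph0_le_cd le_rfl) (S := range fun k => (γ k).1)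
        ((le_aleph0_iff_set_countable.2 (countable_range _)).trans (aleph0_le_cd le_rfl))
        (by rintro _ ⟨k, rfl⟩; exact (γ k).2)
      refine ⟨_, hγ, ⟨z, z1, fun k => z2 _ ⟨k, rfl⟩⟩, fun p hp _ => ⟨fun x hx hN => ?_, fun k => ?_⟩⟩
      · obtain ⟨h, h1, h2, h3, -⟩ := hq p hp
        obtain ⟨k, y, hy, -, -, -, rfl⟩ := key h _ x h2 (h3.symm ▸ hN)
        exact ⟨k + 1, (hA' h h1).2.1 k y hy hx⟩
      · obtain ⟨r, hr, h, -, -, h1⟩ := mk p hp k _ (eT _ i0 _ ((hF _ i0).1.2.const (γ k).1))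
        exact ⟨r, hr, h1⟩
    · have et : top (β :: t) = β := top_cons_of_G (p0.stem β t ht0).1
      have loc : ∀ h : Co → K, tt h (β :: t).length = β :: t →
          h (cb t.length) = β ∧ tt h t.length = t := fun h e => List.cons.inj e
      obtain ⟨h0, h1, h2, h3, -⟩ := hq p0 hp0
      obtain ⟨l1, l2⟩ := loc h0 (pre h0 h3 ht0)
      have e0 : ∀ k, η t k = h0 (ce t.length k) := fun k => by rw [h2, l2]
      obtain ⟨z, z1, z2⟩ := hz p0 hp0 β t ht0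
      refine ⟨η t, fun i j e => by rw [e0, e0]; exact h1.1 (ce_lt_ce _ e), ⟨z, et.symm ▸ z1, z2⟩,
        fun p hp ht => ⟨fun x hx hN => ?_, fun k => ?_⟩⟩
      · obtain ⟨h, h1, h2, h3, -⟩ := hq p hp
        obtain ⟨l1, l2⟩ := loc h (pre h h3 ht)
        obtain ⟨k, y, hy, m, -, y1, rfl⟩ := key h _ x h2 (h3.symm ▸ hN)
        have := (hA' h h1).1 k y hy m y1 t.length (l1.symm ▸ et ▸ hx)
        exact ⟨m, by rwa [h2, l2] at this⟩
      · obtain ⟨r, hr, h, h2, h3, h1⟩ := mk p hp 0 _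
          (eT _ i0 _ ((hF _ i0).1.2.eta (γ 0).1 t.length k))
        refine ⟨r, hr, ?_⟩
        rwa [h2, (loc h (pre h h3 ht)).2] at h1
  · intro ε
    obtain ⟨h0, h1, h2, h3, -⟩ := hq p0 hp0
    have hlt : ∀ i : Iio (al K 1), (F i).B ε (top t) < sc (ph ε (top t)) := fun i =>
      (hF i i.2).1.2.lt ε _ (al_le_top t)
    obtain ⟨z, z1, z2⟩ := bdd_sc ((cd_top_inf t).trans (cd_mono (le_ph ε _)))
      (S := range fun i : Iio (al K 1) => (F i).B ε (top t))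
      (mk_range_le.trans (cd_mono ((lt_sc _).le.trans ((al_le_top t).trans (le_ph ε _)))))
      (by rintro _ ⟨i, rfl⟩; exact hlt i)
    refine ⟨fun i => (F i).B ε (top t), fun i j e => ?_, ⟨z, z1, fun i => z2 _ ⟨i, rfl⟩⟩,
      fun p hp ht => ⟨fun x hx hN => ?_, fun i => ?_⟩⟩
    · have := (hA' h0 h1).2.2.1 0 j j.2 i e _ ((hF i i.2).1.2.bnd (γ 0).1 ε t.length) ε t.length
      simp only [pre h0 h3 ht0] at this
      exact this (hlt i)
    · obtain ⟨h, h1, h2, h3, -⟩ := hq p hp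
      obtain ⟨k, y, hy, m, -, -, rfl⟩ := key h _ x h2 (h3.symm ▸ hN)
      obtain ⟨j, hj, hy⟩ := mem_iUnion₂.1 hy
      obtain ⟨i, hi, e, -⟩ := exists_gt_al1 hj hj
      have := (hA' h h1).2.2.1 k i hi j e y hy ε t.length
      rw [pre h h3 ht] at this
      exact ⟨⟨i, hi⟩, this hx⟩
    · obtain ⟨r, hr, h, -, h3, h1⟩ := mk p hp 0 _
        (eT _ i.2 _ ((hF _ i.2).1.2.bnd (γ 0).1 ε t.length))
      refine ⟨r, hr, ?_⟩
      rwa [pre h h3 ht] at h1

end Pool.Agent.P.MP_2e9c36_lc
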