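import Pool.Agent.P.MP_2e9c36_lc.Ords
import Pool.Agent.P.MP_2e9c36_lc.Terms

set_option autoImplicit false
set_option linter.unusedSectionVars false
set_option synthInstance.maxSize 4000

/-! The cardinals of the extension and mutual stationarity. -/

open Cardinal Set Filter Pool.Agent.Lib.PosetForcing

namespace Pool.Agent.P.MP_2e9c36_lc

universe u

variable {K : Type u} [LinearOrder K] [WellFoundedLT K] [NM K]

theorem forces_not_leCard (p : PP K) {t : List K} (ht : t <:+ p.s) {lam θ : K} (hθ : θ ≤ nu t)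
    (hc : #{ρ | LowOK t ρ} ≤ cd (nu t)) (pig : Pigeon t lam θ) :
    Forces p fun U => ¬ LeCard Mod.mem ((ordName lam).val U) ((ordName θ).val U) := by
  refine forces_not_iff.2 fun q hq h => ?_
  obtain ⟨j, hj⟩ := Forces.exists_name h
  refine no_inj q (ht.trans (stem_le hq)) hθ hc pig
    (fun y i r => Forces r fun U => App Mod.mem (j.val U) ((ordName y).val U) ((ordName i).val U))
    (fun _ _ _ _ e h => h.mono e) (fun y hy r hr => exists_app_ord
      ((hj.mono hr).imp fun U h => ⟨_, h.1, ordName_mem hy U⟩)) fun y y' i r hr h1 h2 => ?_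
  exact ((hj.mono hr).and (h1.and h2)).imp (fun U h => h.1.2 _ _ _ h.2.1 h.2.2) |>.ordName_inj

theorem count_le (p : PP K) {t : List K} (ht : t <:+ p.s) : #{ρ | LowOK t ρ} ≤ cd (top t) := by
  rcases t with _ | ⟨β, t⟩
  · exact count_nil.trans (cd_top_inf _)
  · rw [top_cons_of_G (p.stem β t ht).1]
    exact (p.stem β t ht).1.2.1

theorem succ_sc (p : PP K) {t : List K} (ht : t <:+ p.s) {x : K} (h1 : x ≤ nu t) (h2 : ℵ₀ ≤ cd x)
    (hc : #{ρ | LowOK t ρ} ≤ cd x) :
    Forces p fun U => IsSuccCard Mod.mem ((ordName (sc x)).val U) ((ordName x).val U) :=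
  forces_isSuccCard (forces_not_leCard p ht h1 (hc.trans (cd_mono h1))
    (pigeon_of_count h2 hc (cd_lt_sc x))) fun _ hz => leCard_ord (cd_le_of_lt_sc hz) p

theorem exists_col (p : PP K) {t : List K} {β z v : K} (ht : β :: t <:+ p.s) (hz : z < β)
    (hv : v < z) : ∃ q ≤ p, q.s = p.s ∧ ∃ ξ, (z, v, ξ) ∈ q.c t := by
  classical
  by_cases h : ∃ ξ, (z, v, ξ) ∈ p.c t
  · exact ⟨p, le_rfl, rfl, h⟩
  obtain ⟨ξ, h1, h2⟩ : ∃ ξ < sc (nu t), ∀ x ∈ p.c t, x.2.2 ≠ ξ := by
    by_contra hcon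
    push Not at hcon
    exact absurd (cd_lt_sc (nu t)) (not_lt.2 ((mk_le_mk_of_subset
      (show Iio (sc (nu t)) ⊆ (fun x => x.2.2) '' p.c t from hcon)).trans (mk_image_le.trans (p.col t).sm)))
  obtain ⟨q, hq, e1, e2⟩ := exists_strong p (Function.update p.c t (p.c t ∪ {(z, v, ξ)}))
    (fun u => by
      by_cases e : u = t
      · subst e
        rw [Function.update_self]
        refine (p.col u).union (cd_nu_inf u) ⟨by simp [Cmp], by simp [hv, h1],
          by simpa using one_le_aleph0.trans (cd_nu_inf u)⟩ ?_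
        rintro ⟨a, b, c⟩ hx _ rfl (rfl : a = z)
        exact iff_of_false (fun e => h ⟨c, (show b = v from e) ▸ hx⟩) (h2 _ hx)
      · rw [Function.update_of_ne e]
        exact p.col u)
    (fun γ u hu => by
      by_cases e : u = t
      · subst e
        rw [Function.update_self, ← nb_eq hu, nb_eq ht]
        rintro x (hx | rfl)
        exacts [(p.stem β u ht).2 x hx, hz]
      · rw [Function.update_of_ne e]
        exact (p.stem γ u hu).2)
    fun u _ => by
      by_cases e : u = t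
      · subst e
        rw [Function.update_self]
        exact subset_union_left
      · rw [Function.update_of_ne e]
  exact ⟨q, hq, e1, ξ, by simp [e2]⟩

theorem succ_col (p : PP K) {t : List K} {β : K} (ht : β :: t <:+ p.s) :
    Forces p fun U => IsSuccCard Mod.mem ((ordName β).val U) ((ordName (sc (nu t))).val U) := by
  have hG := (p.stem β t ht).1
  refine forces_isSuccCard (forces_not_leCard p ht
    (hG.1.le.trans ((le_max_left _ _).trans (top_lt_nu (β :: t)).le))
    ((count_le p ht).trans (cd_lt_sc _).le) hG.2.2) fun z hz => ?_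
  let T : Type u := {x : PP K × K × K // β :: t <:+ x.1.s ∧ (z, x.2) ∈ x.1.c t}
  let j : Name (PP K) := graphName (ι := T) (fun x => ordName x.1.2.1) (fun x => ordName x.1.2.2)
    fun x => x.1.1
  have cmp : ∀ (x y : T) (q : PP K), q ≤ x.1.1 → q ≤ y.1.1 → (x.1.2.1 = y.1.2.1 ↔ x.1.2.2 = y.1.2.2) :=
    fun x y q h1 h2 => by
      have : In q t := Or.inl ((List.suffix_cons _ _).trans (x.2.1.trans (stem_le h1)))
      exact (q.col t).cmp _ (h1.ext t this x.2.2) _ (h2.ext t this y.2.2) rfl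
  have h1 : Forces p fun U => IsFun Mod.mem (j.val U) ((ordName z).val U)
      ((ordName (sc (nu t))).val U) := by
    rw [ordName_eq z]
    refine forces_isFunOn_graph (V := fun U y => Mod.mem y ((ordName (sc (nu t))).val U))
      (fun i q _ _ => ⟨q, le_rfl, Forces.of_forall (fun U => ⟨mem_fam
        (fun y : {y // y < z} => ordName y.1) ⟨_, ((i.1.1.col t).bd _ i.2.2).1⟩ U,
        ordName_mem ((i.1.1.col t).bd _ i.2.2).2 U⟩) q⟩) (fun v q hq _ => ?_)
      fun x y q _ hx hy h => ⟨q, le_rfl, Forces.of_forall (fun _ => ?_) q⟩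
    · obtain ⟨r, hr, e, ξ, h⟩ := exists_col q (ht.trans (stem_le hq)) hz v.2
      exact ⟨r, hr, ⟨(r, v.1, ξ), e ▸ ht.trans (stem_le hq), h⟩, le_rfl,
        Forces.of_forall (fun _ => rfl) r⟩
    · rw [(cmp x y q hx hy).1 h.ordName_inj]
  have h2 : Forces p fun U => ∀ x y, App Mod.mem (j.val U) x y → ∀ x' y',
      App Mod.mem (j.val U) x' y' → y = y' → x = x' :=
    forces_forall_app_graph fun x q _ hx => ⟨q, le_rfl, forces_forall_app_graph
      fun y s hs hy => ⟨s, le_rfl, forces_imp fun r hr h => ⟨r, le_rfl, Forces.of_forall (fun _ => by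
        rw [(cmp x y r (hr.trans (hs.trans hx)) (hr.trans hy)).2 h.ordName_inj]) r⟩⟩⟩
  exact (h1.and h2).imp fun U h => ⟨_, h.1, fun x x' y g g' => h.2 x y g x' y g' rfl⟩

/-- the stem `s` determines that `x` is `ℵ_n` -/
def AlR (s : List K) (n : ℕ) (x : K) : Prop :=
  (n < 2 ∧ x = al K n) ∨ ∃ t, t <:+ s ∧ ∃ i < 3, n = 3 * t.length + 2 + i ∧ x = sc^[i] (top t)

theorem AlR.mono {s s' : List K} {n : ℕ} {x : K} (h : AlR s n x) (e : s <:+ s') : AlR s' n x :=
  h.imp_right fun ⟨t, ht, h⟩ => ⟨t, ht.trans e, h⟩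

theorem AlR.unique {s : List K} {n : ℕ} {x y : K} (h : AlR s n x) (h' : AlR s n y) : x = y := by
  rcases h with ⟨h1, rfl⟩ | ⟨t, ht, i, hi, h1, rfl⟩ <;>
    rcases h' with ⟨h2, rfl⟩ | ⟨t', ht', i', hi', h2, rfl⟩
  · rfl
  · omega
  · omega
  · have e : t.length = t'.length ∧ i = i' := by omega
    rw [(List.suffix_of_suffix_length_le ht ht' e.1.le).eq_of_length e.1, e.2]

theorem exists_AlR {s : List K} {n : ℕ} (h : n ≤ s.length) : ∃ x, AlR s n x := by
  by_cases hn : n < 2
  · exact ⟨_, Or.inl ⟨hn, rfl⟩⟩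
  · refine ⟨_, Or.inr ⟨s.drop (s.length - (n - 2) / 3), List.drop_suffix _ _, (n - 2) % 3,
      Nat.mod_lt _ (by omega), ?_, rfl⟩⟩
    rw [List.length_drop]
    omega

theorem AlR.succ {p : PP K} {n : ℕ} {x y : K} (h : AlR p.s n x) (h' : AlR p.s (n + 1) y) :
    Forces p fun U => IsSuccCard Mod.mem ((ordName y).val U) ((ordName x).val U) := by
  have h0 : ∀ k < 2, Forces p fun U =>
      IsSuccCard Mod.mem ((ordName (al K (k + 1))).val U) ((ordName (al K k)).val U) := fun k hk =>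
    succ_sc p (t := []) List.nil_suffix (al_strictMono (show k < 3 by omega)).le
      (aleph0_le_cd le_rfl) (count_nil.trans (aleph0_le_cd le_rfl))
  rcases h with ⟨h1, rfl⟩ | ⟨t, ht, i, hi, rfl, rfl⟩
  · obtain rfl : y = al K (n + 1) := h'.unique (by
      rcases Nat.lt_succ_iff_lt_or_eq.1 h1 with h | rfl
      · exact Or.inl ⟨by omega, rfl⟩
      · exact Or.inr ⟨[], List.nil_suffix, 0, by omega, rfl, rfl⟩)
    exact h0 n h1
  · by_cases h2 : i < 2
    · obtain rfl : y = sc (sc^[i] (top t)) := h'.unique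
        (Or.inr ⟨t, ht, i + 1, by omega, by omega, (Function.iterate_succ_apply' _ _ _).symm⟩)
      have h3 : top t ≤ sc^[i] (top t) ∧ sc^[i] (top t) ≤ nu t := by
        interval_cases i
        exacts [⟨le_rfl, (lt_sc _).le⟩, ⟨(lt_sc _).le, le_rfl⟩]
      exact succ_sc p ht h3.2 ((cd_top_inf t).trans (cd_mono h3.1))
        ((count_le p ht).trans (cd_mono h3.1))
    · obtain rfl : i = 2 := by omega
      rcases h' with ⟨h3, -⟩ | ⟨t', ht', i', hi', h3, rfl⟩
      · omega
      · obtain ⟨e1, rfl⟩ : t'.length = t.length + 1 ∧ i' = 0 := by omega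
        rcases t' with _ | ⟨β, t'⟩
        · simp at e1
        · obtain rfl : t' = t := (List.suffix_of_suffix_length_le ((List.suffix_cons _ _).trans ht')
            ht (by simpa using e1.le)).eq_of_length (by simpa using e1)
          rw [Function.iterate_zero_apply, top_cons_of_G (p.stem β t' ht').1]
          exact succ_col p ht'

variable (K) in
/-- the name of the sequence of the `ℵ_n` -/
noncomputable def aName : Name (PP K) :=
  graphName (ι := {x : PP K × ULift.{u} ℕ × K // AlR x.1.s x.2.1.down x.2.2})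
    (fun x => natName x.1.2.1.down) (fun x => ordName x.1.2.2) fun x => x.1.1

theorem AlR.app {p : PP K} {n : ℕ} {x : K} (h : AlR p.s n x) :
    Forces p fun U => App Mod.mem ((aName K).val U) ((natName n).val U) ((ordName x).val U) :=
  forces_app_graph (ι := {x : PP K × ULift.{u} ℕ × K // AlR x.1.s x.2.1.down x.2.2})
    ⟨(p, ⟨n⟩, x), h⟩ le_rfl

theorem forces_forall_aName {Φ : ∀ U : Gen (PP K), Mod U → Mod U → Prop}
    [∀ a b : Name (PP K), Clopen fun U => Φ U (a.val U) (b.val U)] {p : PP K}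
    (h : ∀ q ≤ p, ∀ n x, AlR q.s n x →
      ∃ r ≤ q, Forces r fun U => Φ U ((natName n).val U) ((ordName x).val U)) :
    Forces p fun U => ∀ x y, App Mod.mem ((aName K).val U) x y → Φ U x y :=
  forces_forall_app_graph fun i q hq hi => h q hq _ _ (i.2.mono (stem_le hi))

theorem isAleph_aName (U : Gen (PP K)) : IsAleph Mod.mem ((aName K).val U) (omegaName.val U) := by
  refine ⟨of_forces_all (Φ := fun U => IsFunOn Mod.mem ((aName K).val U) (omegaName.val U)
    fun _ => True) (fun p => ⟨p, le_rfl, forces_isFunOn_graph (V := fun _ _ => True)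
      (fun i q _ _ => ⟨q, le_rfl, Forces.of_forall (fun U => ⟨natName_mem_omega _ U, trivial⟩) q⟩)
      (fun n q _ _ => ?_) fun i j q _ hi hj h => ⟨q, le_rfl, Forces.of_forall (fun _ => ?_) q⟩⟩) U,
    fun z hz => ?_, fun n n' x y h1 h2 h3 => ?_⟩
  · obtain ⟨r, hr, h⟩ := exists_long q n.down
    obtain ⟨x, hx⟩ := exists_AlR h
    exact ⟨r, hr, ⟨(r, n, x), hx⟩, le_rfl, Forces.of_forall (fun _ => rfl) r⟩
  · rw [(i.2.mono (stem_le hi)).unique (h.natName_inj ▸ j.2.mono (stem_le hj))]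
  · rw [eq_natName_zero hz, ← ordName_al0 (K := K)]
    exact of_forces_all (Φ := fun U => App Mod.mem ((aName K).val U) ((natName 0).val U)
      ((ordName (al K 0)).val U)) (fun p => ⟨p, le_rfl, AlR.app (Or.inl ⟨by omega, rfl⟩)⟩) U
  · refine of_forces_all (Φ := fun U => ∀ n x, App Mod.mem ((aName K).val U) n x →
      ∀ n' y, App Mod.mem ((aName K).val U) n' y → IsSucc Mod.mem n' n → IsSuccCard Mod.mem y x)
      (fun p => ⟨p, le_rfl, forces_forall_aName fun q _ n x h => ⟨q, le_rfl, forces_forall_aName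
        fun r hr n' y h' => ⟨r, le_rfl, forces_imp fun s hs e => ⟨s, le_rfl, ?_⟩⟩⟩⟩) U n x h2 n' y h3 h1
    obtain rfl := (e.imp fun U h => eq_natName_succ h).natName_inj
    exact ((h.mono (stem_le hr)).succ h').mono hs

theorem isSupRange_aName (U : Gen (PP K)) :
    IsSupRange Mod.mem ((typeName K).val U) ((aName K).val U) := fun z => by
  constructor
  · refine of_forces_all (Φ := fun U => ∀ z, Mod.mem z ((typeName K).val U) →
      ∃ n y, App Mod.mem ((aName K).val U) n y ∧ Mod.mem z y)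
      (fun p => ⟨p, le_rfl, forces_forall_mem_fam fun x q _ => ?_⟩) U z
    obtain ⟨r, hr, β, hβ, e, -⟩ := exists_ext q (ae_gt x)
    exact ⟨r, hr, (AlR.app (Or.inr ⟨r.s, List.suffix_refl _, 0, by omega, rfl, rfl⟩)).imp
      fun U h => ⟨_, _, h, ordName_mem (hβ.trans_le (le_top_of_mem (by simp [e]))) U⟩⟩
  · rintro ⟨n, y, h1, h2⟩
    exact of_forces_all (Φ := fun U => ∀ n y, App Mod.mem ((aName K).val U) n y →
      ∀ z, Mod.mem z y → Mod.mem z ((typeName K).val U))
      (fun p => ⟨p, le_rfl, forces_forall_aName fun q _ n x _ => ⟨q, le_rfl, Forces.of_forall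
        (forall_mem_ordName (Φ := fun U z => Mod.mem z ((typeName K).val U))
          fun y _ U => ordName_mem_typeName y U) q⟩⟩) U n y h1 z h2

theorem no_cofinal (p : PP K) {ι : Type u} (hι : #ι ≤ cd (al K 3)) (A : ι → Name (PP K)) {d : K}
    (hb : ∀ g : ι → K, (∀ i, g i < d) → ∃ z < d, ∀ i, g i < z) :
    Forces p fun U => ¬ ∃ f, Cofinal Mod.mem f ((fam A).val U) ((ordName d).val U) := by
  refine forces_not_iff.2 fun q _ h => ?_
  obtain ⟨f, hf⟩ := Forces.exists_name h
  obtain ⟨r, hr, h1⟩ := decide_all q hι (sc d) (fun i y r => (y < d ∧ Forces r fun U =>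
      App Mod.mem (f.val U) ((A i).val U) ((ordName y).val U)) ∨ ∀ r' ≤ r, ¬ r' ≤ q)
    fun i r => by
      by_cases h : ∃ r' ≤ r, r' ≤ q
      · obtain ⟨r', h1, h2⟩ := h
        obtain ⟨s, hs, y, hy, h3⟩ := exists_app_ord (x := A i)
          ((hf.mono h2).imp fun U h => ⟨_, h.1, mem_fam A i U⟩)
        exact ⟨s, hs.trans h1, y, hy.trans (lt_sc _), fun s' hs' =>
          ⟨s', le_rfl, Or.inl ⟨hy, h3.mono hs'⟩⟩⟩
      · exact ⟨r, le_rfl, d, lt_sc _, fun s hs => ⟨s, le_rfl, Or.inr fun s' hs' e =>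
          h ⟨s', hs'.trans hs, e⟩⟩⟩
  choose g hg using h1
  have h2 : ∀ i, ∀ s ≤ r, ∃ s' ≤ s, g i < d ∧ Forces s' fun U =>
      App Mod.mem (f.val U) ((A i).val U) ((ordName (g i)).val U) := fun i s hs => by
    obtain ⟨s', hs', h⟩ := hg i s hs
    exact ⟨s', hs', h.resolve_right fun h => h s' le_rfl (hs'.trans (hs.trans hr))⟩
  obtain ⟨z, hz, h3⟩ := hb g fun i => (h2 i r le_rfl).elim fun _ h => h.2.1
  have h4 : Forces r fun U => ∀ x, Mod.mem x ((fam A).val U) →
      ∃ y, App Mod.mem (f.val U) x y ∧ Mod.mem y ((ordName z).val U) :=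
    forces_forall_mem_fam fun i s hs => (h2 i s hs).imp fun s' h =>
      ⟨h.1, h.2.2.imp fun U h => ⟨_, h, ordName_mem (h3 i) U⟩⟩
  obtain ⟨U, g1, g2⟩ := ((hf.mono hr).and h4).exists
  obtain ⟨i, y, k1, k2⟩ := g1.2 _ (ordName_mem hz U)
  obtain ⟨y', k3, k4⟩ := g2 i ((isZFC U).app_val g1.1 k1).1
  obtain rfl := g1.1.2.2 _ _ _ k1 k3
  rcases k2 with k2 | k2
  · exact Mod.not_mem_self _ (forall_mem_ordName (Φ := fun U y => IsSub Mod.mem y ((ordName z).val U))
      (fun w hw U => ordName_sub hw.le U) U y k4 _ k2)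
  · exact Mod.not_mem_self _ (k2 ▸ k4)

theorem isCof_omega {f : ℕ → K} (hf : StrictMono f) {d : K} (hd : ∀ x, x < d ↔ ∃ i, x < f i)
    (U : Gen (PP K)) : IsCof Mod.mem ((ordName d).val U) (omegaName.val U) := by
  refine ⟨cofinal_funName (fun n : ULift.{u} ℕ => natName n.down) (fun n => f n.down)
    (fun n => (hd _).2 ⟨_, hf (Nat.lt_succ_self _)⟩) (fun x hx => ((hd x).1 hx).elim fun i h => ⟨⟨i⟩, h⟩)
    (fun i j U h => ULift.ext _ _ (natName_inj h)) U,
    forall_mem_omega (Φ := fun (U : Gen (PP K)) b => ¬ ∃ f, Cofinal Mod.mem f b ((ordName d).val U))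
      (fun n => ?_) U⟩
  refine of_forces_all fun p => ⟨p, le_rfl, ?_⟩
  rw [natName.eq_1 n]
  refine no_cofinal p (mk_le_aleph0.trans (aleph0_le_cd le_rfl)) _
    fun g hg => ?_
  choose k hk using fun i => (hd _).1 (hg i)
  obtain ⟨m, hm⟩ := (Set.finite_range k).bddAbove
  exact ⟨f m, (hd _).2 ⟨_, hf (Nat.lt_succ_self _)⟩,
    fun i => (hk i).trans_le (hf.monotone (hm ⟨i, rfl⟩))⟩

theorem isCof_al1 {f : Iio (al K 1) → K} (hf : StrictMono f) {d : K}
    (hd : ∀ x, x < d ↔ ∃ i, x < f i) (U : Gen (PP K)) :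
    IsCof Mod.mem ((ordName d).val U) ((ordName (al K 1)).val U) := by
  have h1 : ∀ i, f i < d := fun i => by
    obtain ⟨k, hk, h, -⟩ := exists_gt_al1 i.2 i.2
    exact (hd _).2 ⟨⟨k, hk⟩, hf h⟩
  refine ⟨?_, forall_mem_ordName (Φ := fun (U : Gen (PP K)) b => ¬ ∃ f, Cofinal Mod.mem f b ((ordName d).val U))
      (fun b hb => ?_) U⟩
  · rw [ordName_eq (al K 1)]
    exact cofinal_funName _ f h1 (fun x => (hd x).1)
      (fun i j U h => Subtype.ext (ordName_inj h)) U
  · refine of_forces_all fun p => ⟨p, le_rfl, ?_⟩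
    rw [ordName_eq b]
    refine no_cofinal p (cd_mono (hb.trans (al_strictMono (by omega))).le) _ fun g hg => ?_
    choose k hk using fun i => (hd _).1 (hg i)
    obtain ⟨z, z1, z2⟩ := bdd_sc (x := al K 0) aleph0_le_al0 (S := range fun i => (k i).1)
      (mk_range_le.trans (cd_le_of_lt_sc hb)) (by rintro _ ⟨i, rfl⟩; exact (k i).2)
    exact ⟨f ⟨z, z1⟩, h1 _, fun i => (hk i).trans (hf (z2 _ ⟨i, rfl⟩))⟩

/-- the name of the set described by `NV` below `q` -/
noncomputable def nName (q : PP K) (NV : List K → K → Prop) : Name (PP K) :=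
  .mk {x : PP K × K // x.1 ≤ q ∧ NV x.1.s x.2} (fun x => ordName x.1.2) fun x => x.1.1

theorem Cf.sup {ι : Type*} [Preorder ι] {q p : PP K} {NV : List K → K → Prop}
    (hN : ∀ s s' x, s <:+ s' → NV s x → NV s' x) {t : List K} {ν : K} (h : Cf ι q NV t ν)
    (hp : p ≤ q) (ht : t <:+ p.s) : ∃ f : ι → K, StrictMono f ∧ ∃ d < ν,
      (∀ x, x < d ↔ ∃ i, x < f i) ∧ Forces p fun U =>
        IsSupBelow Mod.mem ((ordName d).val U) ((nName q NV).val U) ((ordName ν).val U) := by
  obtain ⟨f, h1, ⟨z, z1, z2⟩, h2⟩ := h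
  obtain ⟨d, d1, d2⟩ := (wellFounded_lt (α := K)).has_min {x | ∀ i, f i ≤ x} ⟨z, fun i => (z2 i).le⟩
  have hd : ∀ x, x < d ↔ ∃ i, x < f i := fun x =>
    ⟨fun hx => by simpa using fun h => d2 x h hx, fun ⟨i, hi⟩ => hi.trans_le (d1 i)⟩
  refine ⟨f, h1, d, (not_lt.1 (d2 z fun i => (z2 i).le)).trans_lt z1, hd, ?_⟩
  have g1 : Forces p fun U => ∀ x, Mod.mem x ((ordName d).val U) → ∃ y,
      Mod.mem y ((nName q NV).val U) ∧ Mod.mem y ((ordName ν).val U) ∧ Mod.mem x y := by
    rw [ordName_eq d]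
    refine forces_forall_mem_fam fun x r hr => ?_
    obtain ⟨i, hi⟩ := (hd x.1).1 x.2
    obtain ⟨s, hs, h3⟩ := (h2 r (hr.trans hp) (ht.trans (stem_le hr))).2 i
    exact ⟨s, hs, (forces_el_mem (b := nName q NV) ⟨(s, f i), hs.trans (hr.trans hp), h3⟩
      le_rfl).imp fun U h => ⟨_, h, ordName_mem ((z2 i).trans z1) U, ordName_mem hi U⟩⟩
  have g2 : Forces p fun U => ∀ y, Mod.mem y ((nName q NV).val U) →
      Mod.mem y ((ordName ν).val U) → IsSub Mod.mem y ((ordName d).val U) :=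
    forces_forall_mem fun y r hr hy => ⟨r, le_rfl, Forces.of_forall (fun U h => ordName_sub
      ((hd _).2 ((h2 r (hr.trans hp) (ht.trans (stem_le hr))).1 _ (ordName_mem_iff.1 h)
        (hN _ _ _ (stem_le hy) y.2.2))).le U) r⟩
  exact (g1.and g2).imp fun U h x => ⟨h.1 x, fun ⟨y, k1, k2, k3⟩ => h.2 y k1 k2 x k3⟩

/-- `F` is a counterexample to mutual stationarity -/
def Bad (U : Gen (PP K)) (F : Lib.PosetForcing.Mod U) : Prop :=
  IsAlg Mod.mem F ((typeName K).val U) (omegaName.val U) ∧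
    ∀ N, ¬ (IsSub Mod.mem N ((typeName K).val U) ∧ Closed Mod.mem N F (omegaName.val U) ∧
      ∀ n x, App Mod.mem ((aName K).val U) n x → Mod.mem ((ordName (al K 1)).val U) x →
        ∃ d, IsSupBelow Mod.mem d N x ∧ Mod.mem d x ∧
          (Mod.mem n (eName.val U) → IsCof Mod.mem d (omegaName.val U)) ∧
          (¬ Mod.mem n (eName.val U) → IsCof Mod.mem d ((ordName (al K 1)).val U)))

instance (a : Name (PP K)) : Clopen fun U => Bad U (a.val U) := by
  unfold Bad; infer_instance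

theorem exists_mutStat : ∃ U : Gen (PP K), MutStat Mod.mem (omegaName.val U)
    ((ordName (al K 1)).val U) ((aName K).val U) ((typeName K).val U) (eName.val U) := by
  by_contra hcon
  simp only [MutStat, not_exists, not_forall, exists_prop] at hcon
  obtain ⟨F, hF⟩ := max_principle (Bad (K := K))
  replace hF := fun U => hF U (hcon U)
  obtain ⟨q, NV, h1, h2, h3⟩ := main_comb (E := fun j xs y p => Forces p fun U => ∃ g,
      App Mod.mem (F.val U) ((natName j).val U) g ∧
        App Mod.mem g ((sq (al K 0) xs).val U) ((ordName y).val U))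
    (fun _ _ _ _ _ e h => h.mono e) fun j xs p => by
      obtain ⟨g, hg⟩ := Forces.exists_name
        (Φ := fun U g => App Mod.mem (F.val U) ((natName j).val U) g)
        (Forces.of_forall (fun U => (hF U).1.2.1 _ (natName_mem_omega j U)) p)
      obtain ⟨r, hr, x, -, h⟩ := exists_app_el (f := g) (x := sq (al K 0) xs) (b := typeName K)
        (hg.imp fun U h => ((isZFC U).app_val (hF U).1 h).2.imp
          fun Q h => ⟨h.2, (h.1 _).2 (isSeq_sq _ xs U)⟩)
      exact ⟨r, hr, x, ((hg.mono hr).and h).imp fun U h => ⟨_, h⟩⟩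
  obtain ⟨U, hU⟩ := exists_gen q
  refine (hF U).2 ((nName q NV).val U) ⟨forall_mem (Φ := fun U x => Mod.mem x ((typeName K).val U))
    (fun i r _ => ⟨r, le_rfl, Forces.of_forall (ordName_mem_typeName _) r⟩) U, ?_, ?_⟩
  · refine (show Forces q fun U => Closed Mod.mem ((nName q NV).val U) (F.val U) (omegaName.val U)
      from ?_) U hU
    refine forces_forall fun i => forces_forall fun g => forces_forall fun s =>
      forces_forall fun y => forces_imp fun r hr g1 => ⟨r, le_rfl, forces_imp fun r1 hr1 g2 =>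
        ⟨r1, le_rfl, forces_imp fun r2 hr2 g3 => ?_⟩⟩
    obtain ⟨r3, hr3, ⟨j⟩, g4⟩ := ((g1.mono (hr2.trans hr1)).imp
      fun U h => ((isZFC U).app_val (hF U).1 h).1).exists_fam
    obtain ⟨r4, hr4, xs, g5, g6⟩ := decide_seq (al K 0) _ _ (g2.mono (hr3.trans hr2))
    have e4 : r4 ≤ q := hr4.trans (hr3.trans (hr2.trans (hr1.trans hr)))
    obtain ⟨r5, hr5, z, g7, g8⟩ := h2 r4 e4 j xs fun x hx => by
      obtain ⟨i, rfl, hi⟩ := g5 x hx
      exact h1 _ _ _ (stem_le hi) i.2.2
    have e5 : r5 ≤ r2 := hr5.trans (hr4.trans hr3)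
    refine ⟨r5, e5, fun U hU => ?_⟩
    obtain ⟨g', k1, k2⟩ := g8 U hU
    have k3 := g1.mono (e5.trans (hr2.trans hr1)) U hU
    have k4 := g3.mono e5 U hU
    beta_reduce at k3 k4
    rw [g4.mono (hr5.trans hr4) U hU] at k3
    rw [g6.mono hr5 U hU, (hF U).1.2.2 _ _ _ k3 k1] at k4
    obtain ⟨Q, -, k5⟩ := ((isZFC U).app_val (hF U).1 k1).2
    rw [k5.2.2 _ _ _ k4 k2]
    exact forces_el_mem (b := nName q NV) ⟨(r5, z), hr5.trans e4, g7⟩ le_rfl U hU
  · refine forces_forall_aName (Φ := fun U n x => Mod.mem ((ordName (al K 1)).val U) x →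
        ∃ d, IsSupBelow Mod.mem d ((nName q NV).val U) x ∧ Mod.mem d x ∧
          (Mod.mem n (eName.val U) → IsCof Mod.mem d (omegaName.val U)) ∧
          (¬ Mod.mem n (eName.val U) → IsCof Mod.mem d ((ordName (al K 1)).val U)))
      (fun p hp n x h => ⟨p, le_rfl, ?_⟩) U hU
    rcases h with ⟨g1, rfl⟩ | ⟨t, ht, i, hi, rfl, rfl⟩
    · exact Forces.of_forall (fun U h => absurd (al_strictMono.lt_iff_lt.1 (ordName_mem_iff.1 h))
        (by omega)) p
    · have g1 : ∀ ε, i ≠ 0 → sc^[i] (top t) = sc (ph ε (top t)) → Forces p fun U =>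
          Mod.mem ((ordName (al K 1)).val U) ((ordName (sc^[i] (top t))).val U) →
          ∃ d, IsSupBelow Mod.mem d ((nName q NV).val U) ((ordName (sc^[i] (top t))).val U) ∧
          Mod.mem d ((ordName (sc^[i] (top t))).val U) ∧
          (Mod.mem ((natName (3 * t.length + 2 + i)).val U) (eName.val U) →
            IsCof Mod.mem d (omegaName.val U)) ∧
          (¬ Mod.mem ((natName (3 * t.length + 2 + i)).val U) (eName.val U) →
            IsCof Mod.mem d ((ordName (al K 1)).val U)) := fun ε h0 e => by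
        obtain ⟨f, f1, d, d1, d2, d3⟩ := ((h3 p hp t ht).2 ε).sup h1 hp ht
        rw [e]
        exact d3.imp fun U h _ => ⟨_, h, ordName_mem d1 U,
          fun h => absurd ((natName_mem_e _ U).1 h) (by omega), fun _ => isCof_al1 f1 d2 U⟩
      interval_cases i
      · obtain ⟨f, f1, d, d1, d2, d3⟩ := (h3 p hp t ht).1.sup h1 hp ht
        exact d3.imp fun U h _ => ⟨_, h, ordName_mem d1 U, fun _ => isCof_omega f1 d2 U,
          fun h => absurd ((natName_mem_e _ U).2 (by omega)) h⟩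
      · exact g1 false (by omega) rfl
      · exact g1 true (by omega) rfl

theorem isSuccCard_al1 (U : Gen (PP K)) :
    IsSuccCard Mod.mem ((ordName (al K 1)).val U) (omegaName.val U) := by
  rw [← ordName_al0 (K := K)]
  exact of_forces_all (Φ := fun U => IsSuccCard Mod.mem ((ordName (al K 1)).val U)
    ((ordName (al K 0)).val U)) (fun p => ⟨p, le_rfl, AlR.succ (n := 0)
      (Or.inl ⟨by omega, rfl⟩) (Or.inl ⟨by omega, rfl⟩)⟩) U

end Pool.Agent.P.MP_2e9c36_lc
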