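import Mathlib

set_option autoImplicit false
set_option linter.unusedSectionVars false

/-! Normal measures on a well-ordered type, pressing down, successor cardinals. -/

open Cardinal Set Filter

namespace Pool.Agent.P.MP_2e9c36_lc

universe u

/-- a normal measure on the well-ordered type `K` -/
class NM (K : Type u) [LinearOrder K] where
  /-- the ultrafilter -/
  U : Ultrafilter K
  unc : ℵ₀ < #K
  small : ∀ x : K, #(Iio x) < #K
  comp : ∀ (ι : Type u) (S : ι → Set K), #ι < #K → (∀ i, S i ∈ U) → (⋂ i, S i) ∈ U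
  tail : ∀ x, Ioi x ∈ U
  normal : ∀ f : K → K, {β | f β < β} ∈ U → ∃ x, {β | f β = x} ∈ U

variable {K : Type u} [LinearOrder K]

/-- cardinality of an initial segment -/
def cd (x : K) : Cardinal.{u} := #(Iio x)

theorem cd_mono {x y : K} (h : x ≤ y) : cd x ≤ cd y := mk_le_mk_of_subset (Iio_subset_Iio h)

variable [NM K]

variable (K) in
/-- the measure as a filter -/
def UF : Filter K := (NM.U : Ultrafilter K)

instance : (UF K).NeBot := (NM.U : Ultrafilter K).neBot

theorem ae_em (p : K → Prop) : (∀ᶠ x in UF K, p x) ∨ ∀ᶠ x in UF K, ¬ p x :=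
  (NM.U : Ultrafilter K).em p

theorem ae_not {p : K → Prop} (h : ¬ ∀ᶠ x in UF K, p x) : ∀ᶠ x in UF K, ¬ p x :=
  (ae_em p).resolve_left h

theorem cd_lt (x : K) : cd x < #K := NM.small x

theorem ae_gt (x : K) : ∀ᶠ y in UF K, x < y := NM.tail x

theorem ae_all {ι : Type u} (h : #ι < #K) {p : ι → K → Prop} (hp : ∀ i, ∀ᶠ x in UF K, p i x) :
    ∀ᶠ x in UF K, ∀ i, p i x :=
  Filter.mem_of_superset (NM.comp ι (fun i => {x | p i x}) h hp) fun _ hx i => mem_iInter.1 hx i

theorem ae_all_set {ι : Type u} {S : Set ι} (h : #S < #K) {p : ι → K → Prop}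
    (hp : ∀ i ∈ S, ∀ᶠ x in UF K, p i x) : ∀ᶠ x in UF K, ∀ i ∈ S, p i x :=
  (ae_all (ι := S) h (p := fun i x => p i x) fun i => hp i i.2).mono fun _ hx i hi => hx ⟨i, hi⟩

theorem ae_all_nat {p : ℕ → K → Prop} (hp : ∀ i, ∀ᶠ x in UF K, p i x) :
    ∀ᶠ x in UF K, ∀ i, p i x :=
  (ae_all (ι := ULift.{u} ℕ) (by simpa using (NM.unc : ℵ₀ < #K)) (p := fun i x => p i.down x)
    fun i => hp i.down).mono fun _ hx i => hx ⟨i⟩

theorem ae_const_small {X : Type u} {S : Set X} (h : #S < #K) {f : K → X}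
    (hf : ∀ᶠ x in UF K, f x ∈ S) : ∃ y, ∀ᶠ x in UF K, f x = y := by
  by_contra hcon
  rw [not_exists] at hcon
  obtain ⟨x, h1, h2⟩ := (hf.and (ae_all_set h (p := fun y x => f x ≠ y)
    fun y _ => ae_not (hcon y))).exists
  exact h2 _ h1 rfl

theorem ae_const_nat (f : K → ℕ) : ∃ y, ∀ᶠ x in UF K, f x = y := by
  by_contra hcon
  rw [not_exists] at hcon
  obtain ⟨x, h2⟩ := (ae_all_nat (p := fun y x => f x ≠ y) fun y => ae_not (hcon y)).exists
  exact h2 _ rfl

theorem ae_bdd {S : Set K} (h : #S < #K) : ∀ᶠ x in UF K, ∀ y ∈ S, y < x :=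
  ae_all_set h fun y _ => ae_gt y

theorem two_pow_lt {θ : Cardinal.{u}} (h : θ < #K) : 2 ^ θ < #K := by
  by_contra hcon
  push Not at hcon
  have h1 : #K ≤ #(θ.out → Bool) := by simpa using hcon
  obtain ⟨j⟩ := (Cardinal.le_def _ _).1 h1
  have h2 : ∀ i : θ.out, ∃ b, ∀ᶠ x in UF K, j x i = b := fun i => by
    rcases ae_em (fun x => j x i = true) with h | h
    · exact ⟨true, h⟩
    · exact ⟨false, h.mono fun x hx => by simpa using hx⟩
  choose b hb using h2
  have h3 := ae_all (ι := θ.out) (by simpa using h) hb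
  obtain ⟨x, hx⟩ := h3.exists
  obtain ⟨y, hy, hxy⟩ := (h3.and (ae_gt x)).exists
  exact hxy.ne (j.injective (funext fun i => (hx i).trans (hy i).symm))

theorem exists_cd_gt {θ : Cardinal.{u}} (h : θ < #K) : ∃ y : K, θ < cd y := by
  obtain ⟨S, hS⟩ := Cardinal.le_mk_iff_exists_set.1 (two_pow_lt h).le
  obtain ⟨y, hy⟩ := (ae_bdd (S := S) (hS ▸ two_pow_lt h)).exists
  exact ⟨y, (Cardinal.cantor θ).trans_le (hS ▸ mk_le_mk_of_subset hy)⟩

/-- pressing down holds for the relation `lt` -/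
def Press {X : Type*} (lt : X → K → Prop) : Prop :=
  ∀ f : K → X, (∀ᶠ β in UF K, lt (f β) β) → ∃ x, ∀ᶠ β in UF K, f β = x

theorem press_lt : Press fun x β : K => x < β := NM.normal

theorem press_nat : Press fun (_ : ℕ) (_ : K) => True := fun f _ => ae_const_nat f

theorem Press.mono {X : Type*} {lt lt' : X → K → Prop} (h : Press lt)
    (e : ∀ᶠ β in UF K, ∀ x, lt' x β → lt x β) : Press lt' :=
  fun f hf => h f ((hf.and e).mono fun _ h => h.2 _ h.1)

theorem Press.prod {X Y : Type*} {lt : X → K → Prop} {lt' : Y → K → Prop} (h : Press lt)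
    (h' : Press lt') : Press fun (x : X × Y) β => lt x.1 β ∧ lt' x.2 β := fun f hf => by
  obtain ⟨x, hx⟩ := h (fun β => (f β).1) (hf.mono fun _ h => h.1)
  obtain ⟨y, hy⟩ := h' (fun β => (f β).2) (hf.mono fun _ h => h.2)
  exact ⟨(x, y), (hx.and hy).mono fun _ h => Prod.ext h.1 h.2⟩

theorem Press.list {X : Type*} {lt : X → K → Prop} (h : Press lt) :
    Press fun (l : List X) β => ∀ x ∈ l, lt x β := fun f hf => by
  obtain ⟨n, hn⟩ := ae_const_nat fun β => (f β).length
  induction n generalizing f with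
  | zero => exact ⟨[], hn.mono fun _ h => List.length_eq_zero_iff.1 h⟩
  | succ n ih =>
    obtain ⟨l, hl⟩ := ih (fun β => (f β).tail)
      (hf.mono fun _ h x hx => h x (List.mem_of_mem_tail hx)) (hn.mono fun _ h => by simp [h])
    obtain ⟨β0, h0⟩ := hn.exists
    obtain ⟨x0, -⟩ := List.exists_mem_of_length_pos (l := f β0) (by omega)
    obtain ⟨x, hx⟩ := h (fun β => (f β).headD x0) ((hf.and hn).mono fun β h => by
      rcases e : f β with _ | ⟨a, t⟩
      · simp [e] at h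
      · exact h.1 a (by simp [e]))
    refine ⟨x :: l, (hn.and (hx.and hl)).mono fun β h => ?_⟩
    rcases e : f β with _ | ⟨a, t⟩
    · simp [e] at h
    · simpa [e] using h.2

theorem Press.diag {X : Type*} {lt : X → K → Prop} (h : Press lt) {p : X → K → Prop}
    (hp : ∀ x, ∀ᶠ β in UF K, p x β) : ∀ᶠ β in UF K, ∀ x, lt x β → p x β := by
  by_contra hcon
  have h1 := ae_not hcon
  obtain ⟨β0, h0⟩ := h1.exists
  push Not at h0
  obtain ⟨x0, -⟩ := h0
  have h2 : ∀ β, ∃ x, (¬ ∀ x, lt x β → p x β) → lt x β ∧ ¬ p x β := fun β => by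
    by_cases hβ : ∀ x, lt x β → p x β
    · exact ⟨x0, fun h => absurd hβ h⟩
    · push Not at hβ
      obtain ⟨x, hx⟩ := hβ
      exact ⟨x, fun _ => hx⟩
  choose f hf using h2
  obtain ⟨x, hx⟩ := h f (h1.mono fun β h => (hf β h).1)
  obtain ⟨β, g1, g2, g3⟩ := (h1.and (hx.and (hp x))).exists
  exact (hf β g1).2 (g2 ▸ g3)

theorem Press.set {X : Type u} {lt : X → K → Prop} (h : Press lt) {θ : Cardinal.{u}}
    (hθ : θ < #K) : Press fun (c : Set X) β => #c ≤ θ ∧ ∀ x ∈ c, lt x β := fun f hf => by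
  classical
  have h1 : ∀ c : Set X, ∃ e : θ.out → List X, #c ≤ θ → ∀ x, x ∈ c ↔ ∃ i, x ∈ e i := fun c => by
    by_cases hc : #c ≤ θ
    · obtain ⟨j⟩ := (Cardinal.le_def c θ.out).1 (by simpa using hc)
      refine ⟨fun i => if h : ∃ x, j x = i then [h.choose.1] else [], fun _ x => ⟨fun hx => ?_, ?_⟩⟩
      · have h : ∃ y, j y = j ⟨x, hx⟩ := ⟨_, rfl⟩
        refine ⟨j ⟨x, hx⟩, ?_⟩
        beta_reduce
        rw [dif_pos h, j.injective h.choose_spec]
        simp
      · rintro ⟨i, hi⟩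
        beta_reduce at hi
        split_ifs at hi with h
        · rw [List.mem_singleton.1 hi]
          exact h.choose.2
        · simp at hi
    · exact ⟨fun _ => [], fun h => absurd h hc⟩
  choose e he using h1
  choose l hl using fun i : θ.out => h.list (fun β => e (f β) i)
    (hf.mono fun β h x hx => h.2 x ((he _ h.1 x).2 ⟨i, hx⟩))
  refine ⟨{x | ∃ i, x ∈ l i}, (hf.and (ae_all (ι := θ.out) (by simpa using hθ) hl)).mono
    fun β h => Set.ext fun x => ?_⟩
  rw [he _ h.1.1]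
  simp only [h.2, mem_ofPred_eq]

/-- objects subject to pressing down are few below most points -/
theorem Press.count {X : Type u} {lt : X → K → Prop} (h : Press lt) {S : Set X} (hS : #S ≤ #K)
    (e : ∀ x β, lt x β → x ∈ S) : ∀ᶠ β in UF K, #{x | lt x β} ≤ cd β := by
  obtain ⟨j⟩ := (Cardinal.le_def S K).1 hS
  have h1 := h.diag (p := fun x β => ∀ hx : x ∈ S, j ⟨x, hx⟩ < β) fun x => by
    by_cases hx : x ∈ S
    · exact (ae_gt (j ⟨x, hx⟩)).mono fun _ h _ => h
    · exact Eventually.of_forall fun _ h => absurd h hx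
  refine h1.mono fun β hβ => mk_le_of_injective
    (f := fun x : {x | lt x β} => (⟨j ⟨x.1, e _ _ x.2⟩, hβ _ x.2 _⟩ : Iio β)) fun x y hxy => ?_
  have h2 := j.injective (congrArg Subtype.val hxy)
  exact Subtype.ext (by simpa using h2)

variable [WellFoundedLT K]

/-- the least point whose initial segment has more than `θ` elements -/
noncomputable def above (θ : Cardinal.{u}) (h : θ < #K) : K :=
  (wellFounded_lt (α := K)).min {y | θ < cd y} (exists_cd_gt h)

/-- the successor cardinal -/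
noncomputable def sc (x : K) : K := above (cd x) (cd_lt x)

theorem cd_lt_sc (x : K) : cd x < cd (sc x) :=
  (wellFounded_lt (α := K)).min_mem {y | cd x < cd y} (exists_cd_gt (cd_lt x))

theorem cd_le_of_lt_sc {x y : K} (h : y < sc x) : cd y ≤ cd x := by
  by_contra hcon
  exact (wellFounded_lt (α := K)).not_lt_min {y | cd x < cd y} (not_le.1 hcon) h

theorem lt_sc (x : K) : x < sc x := by
  by_contra h
  exact absurd (cd_lt_sc x) (not_lt.2 (cd_mono (not_lt.1 h)))

theorem sc_mono {x y : K} (h : x ≤ y) : sc x ≤ sc y := by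
  by_contra hcon
  exact absurd ((cd_mono h).trans_lt (cd_lt_sc y)) (not_lt.2 (cd_le_of_lt_sc (not_le.1 hcon)))

theorem mk_Iic_le {x : K} {θ : Cardinal.{u}} (hθ : ℵ₀ ≤ θ) (h : cd x ≤ θ) : #(Iic x) ≤ θ := by
  rw [← Iio_insert]
  exact mk_insert_le.trans (add_le_of_le hθ h (one_le_aleph0.trans hθ))

theorem mk_biUnion_le_of {ι X : Type u} {S : Set ι} {θ : Cardinal.{u}} (hθ : ℵ₀ ≤ θ)
    (hS : #S ≤ θ) {A : ι → Set X} (hA : ∀ i ∈ S, #(A i) ≤ θ) : #(⋃ i ∈ S, A i) ≤ θ := by
  refine (mk_biUnion_le A S).trans ?_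
  exact (mul_le_mul' hS (ciSup_le' fun i : S => hA i i.2)).trans (mul_eq_self hθ).le

/-- small sets are bounded below a successor cardinal -/
theorem bdd_sc {x : K} (hx : ℵ₀ ≤ cd x) {S : Set K} (hS : #S ≤ cd x) (h : ∀ y ∈ S, y < sc x) :
    ∃ z < sc x, ∀ y ∈ S, y < z := by
  by_contra hcon
  push Not at hcon
  have h1 : Iio (sc x) ⊆ ⋃ y ∈ S, Iic y := fun z hz => by
    obtain ⟨y, hy, h2⟩ := hcon z hz
    exact mem_biUnion hy h2
  exact absurd (cd_lt_sc x) (not_lt.2 ((mk_le_mk_of_subset h1).trans (mk_biUnion_le_of hx hS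
    fun y hy => mk_Iic_le hx (cd_le_of_lt_sc (h y hy)))))

variable (K) in
/-- the first infinite point -/
noncomputable def al0 : K := (wellFounded_lt (α := K)).min {y | ℵ₀ ≤ cd y}
  ((exists_cd_gt (NM.unc : ℵ₀ < #K)).imp fun _ h => h.le)

variable (K) in
/-- the points `ℵ_n` -/
noncomputable def al : ℕ → K
  | 0 => al0 K
  | n + 1 => sc (al n)

theorem aleph0_le_al0 : ℵ₀ ≤ cd (al K 0) :=
  (wellFounded_lt (α := K)).min_mem {y | ℵ₀ ≤ cd y}
    ((exists_cd_gt (NM.unc : ℵ₀ < #K)).imp fun _ h => h.le)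

theorem finite_of_lt_al0 {x : K} (h : x < al K 0) : (Iio x).Finite := by
  by_contra hcon
  exact (wellFounded_lt (α := K)).not_lt_min {y | ℵ₀ ≤ cd y}
    (aleph0_le_mk_iff.2 (Set.infinite_coe_iff.2 hcon)) h

theorem al_strictMono : StrictMono (al K) := strictMono_nat_of_lt_succ fun n => lt_sc (al K n)

theorem aleph0_le_cd {x : K} {n : ℕ} (h : al K n ≤ x) : ℵ₀ ≤ cd x :=
  aleph0_le_al0.trans (cd_mono ((al_strictMono.monotone (Nat.zero_le n)).trans h))

theorem countable_al0 : (Iio (al K 0)).Countable := by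
  have h1 : Function.Injective fun x : Iio (al K 0) => (Iio x.1).ncard := by
    refine StrictMono.injective fun x y hxy => ?_
    exact Set.ncard_lt_ncard ⟨Iio_subset_Iio (le_of_lt hxy), fun h => lt_irrefl _ (h hxy)⟩
      (finite_of_lt_al0 y.2)
  exact h1.countable

theorem cd_al0 : cd (al K 0) = ℵ₀ :=
  le_antisymm (Cardinal.le_aleph0_iff_set_countable.2 countable_al0) aleph0_le_al0

theorem mk_list_le {X : Type u} {S : Set X} {θ : Cardinal.{u}} (hθ : ℵ₀ ≤ θ) (h : #S ≤ θ) :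
    #{l : List X | ∀ x ∈ l, x ∈ S} ≤ θ := by
  have h1 : {l : List X | ∀ x ∈ l, x ∈ S} ⊆ range (List.map (Subtype.val : S → X)) := by
    intro l hl
    exact ⟨l.attachWith _ hl, by simp⟩
  exact (mk_le_mk_of_subset h1).trans (mk_range_le.trans ((mk_list_le_max S).trans (max_le hθ h)))

end Pool.Agent.P.MP_2e9c36_lc
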