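import Pool.Agent.P.MP_2e9c36_lc.Meas

set_option autoImplicit false
set_option linter.unusedSectionVars false

/-! A measurable cardinal carries a normal measure. -/

open Cardinal Set Filter

namespace Pool.Agent.P.MP_2e9c36_lc

universe u

theorem exists_normal {K : Type u} [LinearOrder K] [WellFoundedLT K] (W : Ultrafilter K)
    (unc : ℵ₀ < #K) (small : ∀ x : K, #(Iio x) < #K)
    (comp : ∀ (ι : Type u) (S : ι → Set K), #ι < #K → (∀ i, S i ∈ W) → (⋂ i, S i) ∈ W)
    (np : ∀ x, {x} ∉ W) : Nonempty (NM K) := by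
  have hwf : WellFounded fun f g : K → K => {x | f x < g x} ∈ W := by
    rw [wellFounded_iff_isEmpty_descending_chain]
    refine ⟨fun ⟨f, hf⟩ => ?_⟩
    obtain ⟨x, hx⟩ := Ultrafilter.nonempty_of_mem
      (comp (ULift.{u} ℕ) (fun n => {x | f (n.down + 1) x < f n.down x}) (by simpa using unc)
        fun n => hf n.down)
    exact (wellFounded_iff_isEmpty_descending_chain.1 (wellFounded_lt (α := K))).false
      ⟨fun n => f n x, fun n => mem_iInter.1 hx ⟨n⟩⟩
  obtain ⟨f, hf, hmin⟩ := hwf.has_min {f | ∀ c, {x | f x = c} ∉ W} ⟨id, np⟩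
  refine ⟨⟨W.map f, unc, small, fun ι S hι hS => ?_, fun x => ?_, fun g hg => ?_⟩⟩
  · rw [Ultrafilter.mem_map, preimage_iInter]
    exact comp ι _ hι hS
  · rw [Ultrafilter.mem_map]
    have h1 := comp (Iio x) (fun c => {y | f y = c}ᶜ) (small x)
      fun c => Ultrafilter.compl_mem_iff_notMem.2 (hf c)
    filter_upwards [h1, Ultrafilter.compl_mem_iff_notMem.2 (hf x)] with y h2 h3
    rcases lt_trichotomy x (f y) with h | h | h
    · exact h
    · exact absurd h.symm h3
    · exact absurd rfl (mem_iInter.1 h2 ⟨f y, h⟩)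
  · by_contra hcon
    rw [not_exists] at hcon
    exact hmin (g ∘ f) hcon hg

theorem exists_NM (X : Type u) (W : Ultrafilter X) (unc : ℵ₀ < #X)
    (comp : ∀ S : Set (Set X), #S < #X → (∀ s ∈ S, s ∈ W) → ⋂₀ S ∈ W)
    (np : ∀ x, {x} ∉ W) : Nonempty (NM (#X).ord.ToType) := by
  obtain ⟨e⟩ := Cardinal.eq.1 (mk_ord_toType #X).symm
  refine exists_normal (W.map e) (by simpa using unc)
    (fun x => by simpa using mk_Iio_toType_ord_lt x) (fun ι S hι hS => ?_) fun x hx => ?_
  · rw [Ultrafilter.mem_map, preimage_iInter, ← sInter_range]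
    refine comp _ (mk_range_le.trans_lt (by simpa using hι)) ?_
    rintro _ ⟨i, rfl⟩
    exact hS i
  · rw [Ultrafilter.mem_map] at hx
    refine np (e.symm x) (Filter.mem_of_superset hx fun y hy => ?_)
    rw [mem_singleton_iff, ← (show e y = x from hy), Equiv.symm_apply_apply]

end Pool.Agent.P.MP_2e9c36_lc
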