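import Pool.Agent.P.MP_2e9c36_lc.Defs
import Pool.Agent.P.MP_2e9c36_lc.Meas
import Pool.Agent.Lib.PosetForcing.Card

set_option autoImplicit false
set_option linter.unusedSectionVars false

/-! General facts on names: ordinals, finite sequences, cofinal maps. -/

open Cardinal Set Filter Pool.Agent.Lib.PosetForcing

namespace Pool.Agent.P.MP_2e9c36_lc

universe u

variable {P : Type u} [Preorder P]

instance clopen_isSuccCard (a b : Name P) :
    Clopen fun U : Gen P => IsSuccCard Mod.mem (a.val U) (b.val U) := by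
  unfold IsSuccCard; infer_instance

instance clopen_isSeq (a b c : Name P) :
    Clopen fun U : Gen P => IsSeq Mod.mem (a.val U) (b.val U) (c.val U) := by
  unfold IsSeq; infer_instance

instance clopen_isAlg (a b c : Name P) :
    Clopen fun U : Gen P => IsAlg Mod.mem (a.val U) (b.val U) (c.val U) := by
  unfold IsAlg; infer_instance

instance clopen_closed (a b c : Name P) :
    Clopen fun U : Gen P => Closed Mod.mem (a.val U) (b.val U) (c.val U) := by
  unfold Closed; infer_instance

instance clopen_cofinal (a b c : Name P) :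
    Clopen fun U : Gen P => Cofinal Mod.mem (a.val U) (b.val U) (c.val U) := by
  unfold Cofinal; infer_instance

instance clopen_isCof (a b : Name P) :
    Clopen fun U : Gen P => IsCof Mod.mem (a.val U) (b.val U) := by
  unfold IsCof; infer_instance

instance clopen_isSupBelow (a b c : Name P) :
    Clopen fun U : Gen P => IsSupBelow Mod.mem (a.val U) (b.val U) (c.val U) := by
  unfold IsSupBelow; infer_instance

variable [OrderTop P]

/-- the name of the set of numbers congruent to `2` modulo `3` -/
def eName : Name P := fam fun n : ULift.{u} ℕ => natName (3 * n.down + 2)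

theorem natName_mem_e (m : ℕ) (U : Gen P) :
    Mod.mem ((natName m).val U) (eName.val U) ↔ m % 3 = 2 := by
  constructor
  · intro h
    exact forall_mem_fam (Φ := fun U x => x = (natName m).val U → m % 3 = 2)
      (fun i U h => by rw [← natName_inj h]; omega) U _ h rfl
  · intro h
    rw [show m = 3 * (m / 3) + 2 by omega]
    exact mem_fam (fun n : ULift.{u} ℕ => natName (3 * n.down + 2)) ⟨m / 3⟩ U

theorem eq_natName_zero {U : Gen P} {e : Mod U} (he : ∀ z, ¬ Mod.mem z e) :
    e = (natName 0).val U := Mod.ext _ _ fun z => by simp [mem_natName, he]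

theorem eq_natName_succ {U : Gen P} {y : Mod U} {n : ℕ}
    (hy : IsSucc Mod.mem y ((natName n).val U)) : y = (natName (n + 1)).val U :=
  Mod.ext _ _ fun z => (hy z).trans (natName_succ n U z).symm

theorem isTwoMod3_e (U : Gen P) : IsTwoMod3 Mod.mem (eName.val U) (omegaName.val U) := by
  refine ⟨forall_mem_fam (Φ := fun U x => Mod.mem x (omegaName.val U))
    (fun i U => natName_mem_omega _ U) U, fun x0 x1 x2 h0 h1 h2 => ?_, fun x0 x1 x2 x3 hx => ?_⟩
  · obtain rfl := eq_natName_zero h0
    obtain rfl := eq_natName_succ h1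
    obtain rfl := eq_natName_succ h2
    simp [natName_mem_e]
  · revert x1 x2 x3
    refine forall_mem_omega (Φ := fun U x0 => ∀ x1 x2 x3, IsSucc Mod.mem x1 x0 →
      IsSucc Mod.mem x2 x1 → IsSucc Mod.mem x3 x2 →
      (Mod.mem x3 (eName.val U) ↔ Mod.mem x0 (eName.val U)))
      (fun n U x1 x2 x3 h1 h2 h3 => ?_) U x0 hx
    obtain rfl := eq_natName_succ h1
    obtain rfl := eq_natName_succ h2
    obtain rfl := eq_natName_succ h3
    rw [natName_mem_e, natName_mem_e]
    omega

theorem funName_isFunOn {ι : Type u} (X Y : ι → Name P) {V : ∀ U : Gen P, Mod U → Prop}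
    [∀ a : Name P, Clopen fun U => V U (a.val U)] (hV : ∀ i U, V U ((Y i).val U))
    (hX : ∀ i j U, (X i).val U = (X j).val U → i = j) (U : Gen P) :
    IsFunOn Mod.mem ((funName X Y).val U) ((fam X).val U) (V U) := by
  refine of_forces_all (Φ := fun U => IsFunOn Mod.mem ((funName X Y).val U) ((fam X).val U)
    (V U)) (fun p => ⟨p, le_rfl, ?_⟩) U
  refine forces_isFunOn_graph (fun i q _ _ => ⟨q, le_rfl,
    Forces.of_forall (fun U => ⟨mem_fam X i U, hV i U⟩) q⟩)
    (fun j q _ _ => ⟨q, le_rfl, j, le_top, Forces.of_forall (fun _ => rfl) q⟩)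
    fun i j q _ _ _ h => ⟨q, le_rfl, h.imp fun U h => by rw [hX i j U h]⟩

/-- the name of a finite sequence -/
def seqName (n : ℕ) (Y : ℕ → Name P) : Name P :=
  funName (fun i : ULift.{u} (Fin n) => natName i.down.val) fun i => Y i.down.val

theorem app_seqName {n i : ℕ} (Y : ℕ → Name P) (h : i < n) (U : Gen P) :
    App Mod.mem ((seqName n Y).val U) ((natName i).val U) ((Y i).val U) :=
  app_funName (fun i : ULift.{u} (Fin n) => natName i.down.val) (fun i => Y i.down.val) ⟨⟨i, h⟩⟩ U

theorem isFunOn_seqName (n : ℕ) (Y : ℕ → Name P) {V : ∀ U : Gen P, Mod U → Prop}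
    [∀ a : Name P, Clopen fun U => V U (a.val U)] (hV : ∀ i U, V U ((Y i).val U)) (U : Gen P) :
    IsFunOn Mod.mem ((seqName n Y).val U) ((natName n).val U) (V U) := by
  rw [natName.eq_1 n]
  exact funName_isFunOn _ _ (fun i U => hV _ U)
    (fun i j U h => ULift.ext _ _ (Fin.ext (natName_inj h))) U

theorem eq_seqName {n : ℕ} {Y : ℕ → Name P} {U : Gen P} {h : Mod U} {V : Mod U → Prop}
    (hh : IsFunOn Mod.mem h ((natName n).val U) V)
    (e : ∀ i < n, App Mod.mem h ((natName i).val U) ((Y i).val U)) : h = (seqName n Y).val U := by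
  refine (isZFC U).fun_ext hh (isFunOn_seqName n Y (V := fun _ _ => True) (fun _ _ => trivial) U)
    fun x hx y hy => ?_
  obtain ⟨i, hi, rfl⟩ := (mem_natName U x).1 hx
  rw [hh.2.2 _ _ _ hy (e i hi)]
  exact app_seqName Y hi U

theorem exists_app_el {f x b : Name P} {p : P}
    (h : Forces p fun U => ∃ a, IsFun Mod.mem (f.val U) a (b.val U) ∧ Mod.mem (x.val U) a) :
    ∃ q ≤ p, ∃ i, q ≤ b.cond i ∧
      Forces q fun U => App Mod.mem (f.val U) (x.val U) ((b.el i).val U) := by
  obtain ⟨y, hy⟩ := Forces.exists_name (Φ := fun U y => App Mod.mem (f.val U) (x.val U) y)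
    (h.imp fun U ⟨_, h⟩ => h.1.2.1 _ h.2)
  obtain ⟨q, hq, i, h1, h2⟩ := ((h.and hy).imp fun U ⟨⟨_, h⟩, h'⟩ =>
    ((isZFC U).app_val h.1 h').2).exists_el
  exact ⟨q, hq, i, h1, ((hy.mono hq).and h2).imp fun U h => h.2 ▸ h.1⟩

variable {K : Type u} [LinearOrder K] [WellFoundedLT K]

theorem ordName_mem_iff {x y : K} {U : Gen P} :
    Mod.mem ((ordName x).val U) ((ordName y).val U) ↔ x < y :=
  ⟨fun h => forall_mem_ordName (Φ := fun (U : Gen P) z => z = (ordName x).val U → x < y)
    (fun _ hz U e => ordName_inj (U := U) e ▸ hz) U _ h rfl, fun h => ordName_mem h U⟩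

theorem exists_app_ord {f x : Name P} {d : K} {p : P}
    (h : Forces p fun U => ∃ a, IsFun Mod.mem (f.val U) a ((ordName d).val U) ∧
      Mod.mem (x.val U) a) :
    ∃ q ≤ p, ∃ y < d, Forces q fun U => App Mod.mem (f.val U) (x.val U) ((ordName y).val U) := by
  rw [ordName_eq d] at h
  obtain ⟨q, hq, i, -, h⟩ := exists_app_el h
  exact ⟨q, hq, i.1, i.2, h⟩

theorem ordName_sub {x y : K} (h : x ≤ y) (U : Gen P) :
    IsSub Mod.mem ((ordName x).val U) ((ordName y).val U) :=
  forall_mem_ordName (Φ := fun U z => Mod.mem z ((ordName y).val U))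
    (fun _ hz U => ordName_mem (hz.trans_le h) U) U

theorem forces_isSuccCard {x y : K} {p : P}
    (h1 : Forces p fun U => ¬ LeCard Mod.mem ((ordName y).val U) ((ordName x).val U))
    (h2 : ∀ z < y, Forces p fun U => LeCard Mod.mem ((ordName z).val U) ((ordName x).val U)) :
    Forces p fun U => IsSuccCard Mod.mem ((ordName y).val U) ((ordName x).val U) := by
  have h3 : Forces p fun U => ∀ z, Mod.mem z ((ordName y).val U) →
      LeCard Mod.mem z ((ordName x).val U) := by
    rw [ordName_eq y]
    exact forces_forall_mem_fam fun i q hq => ⟨q, le_rfl, (h2 i.1 i.2).mono hq⟩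
  refine (h1.and h3).imp fun U h => ⟨forall_mem_ordName
    (Φ := fun U z => IsSub Mod.mem z ((ordName y).val U)) (fun z hz U => ordName_sub hz.le U) U,
    fun z z' hz => ?_, h⟩
  revert z'
  exact forall_mem_ordName (Φ := fun U z => ∀ z', Mod.mem z' z → IsSub Mod.mem z' z)
    (fun z _ U => forall_mem_ordName (Φ := fun U z' => IsSub Mod.mem z' ((ordName z).val U))
      (fun _ h U => ordName_sub h.le U) U) U z hz

theorem leCard_ord {x y : K} (h : cd x ≤ cd y) (p : P) :
    Forces p fun U => LeCard Mod.mem ((ordName x).val U) ((ordName y).val U) := by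
  obtain ⟨j⟩ := (Cardinal.le_def _ _).1 h
  refine forces_leCard (ι := Iio x) (fun z => ordName z.1) (fun z => ordName (j z).1)
    (fun z q _ hz => ?_) (fun z => Forces.of_forall (ordName_mem (j z).2) p)
    fun a b hne q _ h => hne (j.injective (Subtype.ext h.ordName_inj))
  rw [ordName_eq x] at hz
  exact hz.exists_fam

/-- the name of a finite sequence of ordinals -/
noncomputable def sq (x0 : K) (xs : List K) : Name P :=
  seqName xs.length fun k => ordName (xs.getD k x0)

theorem isSeq_sq (x0 : K) (xs : List K) (U : Gen P) :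
    IsSeq Mod.mem ((sq x0 xs).val U) ((typeName K).val U) (omegaName.val U) :=
  ⟨_, natName_mem_omega _ U, isFunOn_seqName _ _
    (V := fun U y => Mod.mem y ((typeName K).val U)) (fun _ U => ordName_mem_typeName _ U) U⟩

theorem decide_seq (x0 : K) {ι : Type u} (X : ι → K) (c : ι → P) {s : Name P} {p : P}
    (h : Forces p fun U => IsSeq Mod.mem (s.val U)
      ((Name.mk ι (fun i => ordName (X i)) c).val U) (omegaName.val U)) :
    ∃ r ≤ p, ∃ xs : List K, (∀ x ∈ xs, ∃ i, X i = x ∧ r ≤ c i) ∧
      Forces r fun U => s.val U = (sq x0 xs).val U := by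
  obtain ⟨n, hn⟩ := Forces.exists_name h
  obtain ⟨q, hq, ⟨m⟩, hm⟩ := (hn.imp fun _ h => h.1).exists_fam
  have h1 := ((hn.mono hq).and hm).imp fun U h => h.2 ▸ h.1.2
  have key : ∀ k ≤ m, ∃ r ≤ q, ∃ xs : List K, xs.length = k ∧ (∀ x ∈ xs, ∃ i, X i = x ∧ r ≤ c i) ∧
      ∀ j < k, Forces r fun U => App Mod.mem (s.val U) ((natName j).val U)
        ((ordName (xs.getD j x0)).val U) := fun k hk => by
    induction k with
    | zero => exact ⟨q, le_rfl, [], rfl, by simp, by simp⟩
    | succ k ih =>
      obtain ⟨r, hr, xs, e, g1, g2⟩ := ih (by omega)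
      obtain ⟨r', hr', i, g3, g4⟩ := exists_app_el (x := natName k)
        ((h1.mono hr).imp fun U h => ⟨_, h, natName_mem hk U⟩)
      refine ⟨r', hr'.trans hr, xs ++ [X i], by simp [e], fun x hx => ?_, fun j hj => ?_⟩
      · rcases List.mem_append.1 hx with hx | hx
        · exact (g1 x hx).imp fun i h => ⟨h.1, hr'.trans h.2⟩
        · exact ⟨i, (List.mem_singleton.1 hx).symm, g3⟩
      · rcases Nat.lt_succ_iff_lt_or_eq.1 hj with hj | rfl
        · rw [List.getD_append _ _ _ _ (e ▸ hj)]
          exact (g2 j hj).mono hr'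
        · rw [List.getD_append_right _ _ _ _ e.le]
          simp only [e, Nat.sub_self, List.getD_cons_zero]
          exact g4
  obtain ⟨r, hr, xs, rfl, g1, g2⟩ := key m le_rfl
  exact ⟨r, hr.trans hq, xs, g1, fun U hU =>
    eq_seqName (h1.mono hr U hU) fun j hj => g2 j hj U hU⟩

theorem cofinal_funName {ι : Type u} (X : ι → Name P) (f : ι → K) {d : K} (h1 : ∀ i, f i < d)
    (h2 : ∀ x < d, ∃ i, x < f i) (hX : ∀ i j U, (X i).val U = (X j).val U → i = j) (U : Gen P) :
    ∃ g, Cofinal Mod.mem g ((fam X).val U) ((ordName d).val U) :=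
  ⟨(funName X fun i => ordName (f i)).val U, funName_isFunOn _ _
    (V := fun U y => Mod.mem y ((ordName d).val U)) (fun i U => ordName_mem (h1 i) U) hX U,
    forall_mem_ordName (Φ := fun U x => ∃ i y,
      App Mod.mem ((funName X fun i => ordName (f i)).val U) i y ∧ (Mod.mem x y ∨ x = y))
      (fun x hx U => (h2 x hx).elim fun i hi =>
        ⟨_, _, app_funName X (fun i => ordName (f i)) i U, Or.inl (ordName_mem hi U)⟩) U⟩

variable [NM K]

theorem ordName_al0 (U : Gen P) : (ordName (al K 0)).val U = omegaName.val U := by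
  have h1 : ∀ x < al K 0, ∃ n : ℕ, ∀ U : Gen P, (ordName x).val U = (natName n).val U :=
    fun x => by
    induction x using WellFoundedLT.induction with
    | ind x ih =>
      intro hx
      by_cases h : (Iio x).Nonempty
      · obtain ⟨y, hy, hmax⟩ := (finite_of_lt_al0 hx).exists_maximal h
        obtain ⟨n, e2⟩ := ih y hy (hy.trans hx)
        have e : Iio x = insert y (Iio y) := by
          ext z
          simp only [mem_Iio, mem_insert_iff]
          exact ⟨fun hz => (lt_trichotomy z y).elim Or.inr fun h => h.elim Or.inl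
            fun h => absurd (hmax hz h.le) (not_le.2 h), fun h => h.elim (· ▸ hy) (·.trans hy)⟩
        refine ⟨n + 1, fun U => eq_natName_succ ?_⟩
        rw [← e2]
        refine fun z => ⟨forall_mem_ordName (Φ := fun U z => Mod.mem z ((ordName y).val U) ∨
          z = (ordName y).val U) (fun w hw U => ?_) U z, fun h => h.elim
          (ordName_sub hy.le U z) fun h => h ▸ ordName_mem hy U⟩
        rcases (e ▸ hw : w ∈ insert y (Iio y)) with rfl | hw
        exacts [Or.inr rfl, Or.inl (ordName_mem hw U)]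
      · refine ⟨0, fun U => eq_natName_zero
          fun z hz => forall_mem_ordName (Φ := fun _ _ => False) (fun w hw _ => h ⟨w, hw⟩) U z hz⟩
  choose! g g2 using h1
  refine Mod.ext _ _ fun z => ⟨forall_mem_ordName (Φ := fun U z => Mod.mem z (omegaName.val U))
    (fun x hx U => g2 x hx U ▸ natName_mem_omega _ U) U z,
    forall_mem_omega (Φ := fun U z => Mod.mem z ((ordName (al K 0)).val U)) (fun n U => ?_) U z⟩
  have hinf : (Iio (al K 0)).Infinite :=
    Set.infinite_coe_iff.1 (aleph0_le_mk_iff.1 aleph0_le_al0)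
  obtain ⟨x, hx, hn⟩ : ∃ x < al K 0, n < g x := by
    by_contra hcon
    push Not at hcon
    refine hinf (Finite.of_finite_image ((finite_le_nat n).subset ?_) (f := g) fun x hx y hy e =>
      ordName_inj (U := U) (by rw [g2 x hx, g2 y hy, e]))
    rintro _ ⟨x, hx, rfl⟩
    exact hcon x hx
  exact ordName_sub hx.le U _ (g2 x hx U ▸ natName_mem hn U)

end Pool.Agent.P.MP_2e9c36_lc
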