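import Pool.Agent.P.MP_2e9c36_lc.Hist

set_option autoImplicit false
set_option linter.unusedSectionVars false

/-! The master condition of a system; bounds for finitely supported functions. -/

open Cardinal Set Filter Pool.Agent.Lib.PosetForcing

namespace Pool.Agent.P.MP_2e9c36_lc

universe u

variable {K : Type u} [LinearOrder K] [WellFoundedLT K] [NM K]

theorem exists_branch {B : List K → Set K} (hB : ∀ t, (B t).Nonempty) {s : List K}
    (hs : Up [] B s) : ∃ b : ℕ → K, lst b s.length = s ∧ ∀ k, b k ∈ B (lst b k) := by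
  have h1 : ∃ a : ℕ → K, lst a s.length = s ∧ ∀ k < s.length, a k ∈ B (lst a k) := by
    induction hs with
    | base => exact ⟨fun _ => al K 0, rfl, by simp⟩
    | @step t β _ h2 ih =>
      obtain ⟨a, h3, h4⟩ := ih
      have e : ∀ k ≤ t.length, lst (Function.update a t.length β) k = lst a k := fun k hk =>
        lst_eq_iff.2 fun j hj => Function.update_of_ne (by omega) _ _
      refine ⟨Function.update a t.length β, by simp [lst, e, h3], fun k hk => ?_⟩
      rcases Nat.lt_succ_iff_lt_or_eq.1 hk with hk | rfl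
      · rw [e k hk.le, Function.update_of_ne hk.ne]
        exact h4 k hk
      · rwa [e _ le_rfl, Function.update_self, h3]
  obtain ⟨a, h2, h3⟩ := h1
  choose pick hpick using hB
  let LL : ℕ → List K := fun k =>
    Nat.rec [] (fun k l => (if k < s.length then a k else pick l) :: l) k
  let b : ℕ → K := fun k => if k < s.length then a k else pick (LL k)
  have e : ∀ k, lst b k = LL k := fun k => by
    induction k with
    | zero => rfl
    | succ k ih => rw [lst, ih]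
  have e' : ∀ k ≤ s.length, lst b k = lst a k := fun k hk =>
    lst_eq_iff.2 fun j hj => if_pos (by omega)
  refine ⟨b, (e' _ le_rfl).trans h2, fun k => ?_⟩
  by_cases hk : k < s.length
  · rw [e' k hk.le, show b k = a k from if_pos hk]
    exact h3 k hk
  · rw [e, show b k = pick (LL k) from if_neg hk]
    exact hpick _

theorem realize (D : List K × List K → Cnd K) (hD : SysOK D) (A : Set K)
    (hA : ∀ᶠ β in UF K, β ∈ A) : ∃ (q : PP K) (η : List K → ℕ → K),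
      (∀ p ≤ q, ∀ β t, β :: t <:+ p.s → ∃ z < β, ∀ k, η t k < z) ∧ ∀ p ≤ q, ∃ h, Inc A h ∧ (∀ n k, h (ce n k) = η (tt h n) k) ∧ tt h p.s.length = p.s ∧
        ∀ m ≤ p.s.length, Fits p D h m A := by
  choose nx h1 h2 h3 h4 using fun t l : List K =>
    (hA.and ((ae_gt (top t)).and ((ae_gt (top l)).and (hD (t, l)).1.ae_below))).exists
  let LL : List K → ℕ → List K := fun t k => Nat.rec [] (fun _ l => nx t l :: l) k
  let η : List K → ℕ → K := fun t k => nx t (LL t k)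
  have e : ∀ t k, lst (η t) k = LL t k := fun t k => by
    induction k with
    | zero => rfl
    | succ k ih => rw [lst, ih]
  have hη : ∀ t, StrictMono (η t) := fun t => strictMono_nat_of_lt_succ fun k =>
    (le_top_of_mem (t := LL t (k + 1)) List.mem_cons_self).trans_lt (h3 _ _)
  let c : List K → Cnd K := fun t => ⋃ k ∈ (univ : Set (ULift.{u} ℕ)), D (t, LL t k.down)
  have hc : ∀ t, IsCol (nu t) (c t) := fun t => by
    have key : ∀ i j : ℕ, i < j → ∀ x ∈ D (t, LL t i), ∀ y ∈ D (t, LL t j), Cmp x y :=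
      fun i j hij x hx y hy e => by
        obtain ⟨j, rfl⟩ := Nat.exists_eq_add_one_of_ne_zero (n := j) (by omega)
        exact absurd ((h4 t _ x hx).trans_le ((hη t).monotone (Nat.lt_succ_iff.1 hij)))
          (not_lt.2 (e ▸ (hD (t, LL t (j + 1))).2 y hy _ _ rfl))
    refine IsCol.biUnion (cd_nu_inf t) (by simpa using cd_nu_inf t) (fun k _ => (hD (t, _)).1)
      fun i _ j _ x hx y hy => ?_
    rcases lt_trichotomy i.down j.down with h | h | h
    · exact key _ _ h x hx y hy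
    · exact (hD (t, _)).1.cmp x hx y (h ▸ hy)
    · exact (key _ _ h y hy x hx).symm
  let q : PP K := mkP [] (fun t => {β | β ∈ A ∧ ∃ z < β, ∀ k, η t k < z}) c hc
    (fun t => hA.and (by
      obtain ⟨z, hz⟩ := (ae_all_nat fun k => ae_gt (η t k)).exists
      exact (ae_gt z).mono fun _ h => ⟨z, h, hz⟩)) (by simp)
  refine ⟨q, η, fun p hp β t ht => ?_, fun p hp => ?_⟩
  · rcases hp.up.of_suffix ht with h | h
    · simp [q, mkP] at h
    · exact (h.cons_cases.resolve_left (by simp [q, mkP])).2.1.2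
  obtain ⟨b, b1, b2⟩ := exists_branch (fun t => (q.big t).exists) hp.up
  let h : Co → K := fun c =>
    ENat.recTopCoe (b (ofLex c).1) (fun k => η (lst b (ofLex c).1) k) (ofLex c).2
  have eb : ∀ n, h (cb n) = b n := fun _ => rfl
  have ee : ∀ n k, h (ce n k) = η (lst b n) k := fun _ _ => rfl
  have k1 : ∀ n k, η (lst b n) k < b n := fun n k => (b2 n).1.2.elim fun z hz => (hz.2 k).trans hz.1
  have k2 : ∀ n n' k, n < n' → b n < η (lst b n') k := fun n n' k hn =>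
    (le_top_of_mem (mem_lst.2 ⟨n, hn, rfl⟩)).trans_lt (h2 _ _)
  refine ⟨h, ⟨fun c c' hc => ?_, fun c => ?_⟩, ee, b1, fun m hm => ⟨?_, fun s hs β hβ => ?_,
    fun j hj k _ => ?_, fun s hs _ => ?_⟩⟩
  · obtain ⟨n, rfl | ⟨k, rfl⟩⟩ := co_cases c <;> obtain ⟨n', rfl | ⟨k', rfl⟩⟩ := co_cases c'
    · have : n < n' := by simpa [cb, Prod.Lex.toLex_lt_toLex] using hc
      exact (k2 n n' 0 this).trans (k1 n' 0)
    · have : n < n' := by simpa [cb, ce, Prod.Lex.toLex_lt_toLex] using hc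
      exact k2 n n' k' this
    · have : n < n' ∨ n = n' := by simpa [cb, ce, Prod.Lex.toLex_lt_toLex] using hc
      rcases this with hn | rfl
      · exact (k1 n k).trans ((k2 n n' 0 hn).trans (k1 n' 0))
      · exact k1 n k
    · have : n < n' ∨ n = n' ∧ k < k' := by simpa [ce, Prod.Lex.toLex_lt_toLex] using hc
      rcases this with hn | ⟨rfl, hk⟩
      · exact (k1 n k).trans (k2 n n' k' hn)
      · exact hη _ hk
  · obtain ⟨n, rfl | ⟨k, rfl⟩⟩ := co_cases c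
    · exact (b2 n).1.1
    · exact h1 _ _
  · exact Up.trans .base (hp.up.restart List.nil_suffix (b1 ▸ lst_suffix b hm))
      fun _ _ _ h => h.1.1
  · exact (hp.sub s hs hβ).1.1
  · refine subset_trans ?_ (hp.ext _ (Or.inl (b1 ▸ lst_suffix b (hj.le.trans hm))))
    rw [show el h j k = LL (tt h j) k from e (tt h j) k]
    exact subset_biUnion_of_mem (u := fun k : ULift.{u} ℕ => D (tt h j, LL (tt h j) k.down))
      (mem_univ (ULift.up k))
  · exact subset_trans (subset_biUnion_of_mem (u := fun k : ULift.{u} ℕ => D (s, LL s k.down))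
      (mem_univ (ULift.up 0))) (hp.ext s hs)

/-- for all increasing histories inside a large enough set -/
def Lg (φ : Set K → (Co → K) → Prop) : Prop :=
  ∃ A : Set K, (∀ᶠ β in UF K, β ∈ A) ∧ ∀ A' ⊆ A, ∀ h, Inc A' h → φ A' h

theorem Lg.all {ι : Type u} {S : Set ι} (hS : #S < #K) {φ : ι → Set K → (Co → K) → Prop}
    (h : ∀ i ∈ S, Lg (φ i)) : Lg fun A h => ∀ i ∈ S, φ i A h := by
  choose! A h1 h2 using h
  exact ⟨_, ae_all_set hS h1, fun A' hA h hh i hi => h2 i hi A' (fun x hx => hA hx i hi) h hh⟩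

theorem Lg.and {φ ψ : Set K → (Co → K) → Prop} (h : Lg φ) (h' : Lg ψ) :
    Lg fun A h => φ A h ∧ ψ A h := by
  obtain ⟨A, h1, h2⟩ := h
  obtain ⟨B, h3, h4⟩ := h'
  exact ⟨_, h1.and h3, fun A' hA h hh =>
    ⟨h2 A' (fun x hx => (hA hx).1) h hh, h4 A' (fun x hx => (hA hx).2) h hh⟩⟩

theorem Lg.mono {φ ψ : Set K → (Co → K) → Prop} (h : Lg φ)
    (e : ∀ A h, Inc A h → φ A h → ψ A h) : Lg ψ := by
  obtain ⟨A, h1, h2⟩ := h
  exact ⟨A, h1, fun A' hA h hh => e _ _ hh (h2 A' hA h hh)⟩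

theorem Lg.nat {φ : ℕ → Set K → (Co → K) → Prop} (h : ∀ i, Lg (φ i)) :
    Lg fun A h => ∀ i, φ i A h := by
  choose A h1 h2 using h
  exact ⟨_, ae_all_nat h1, fun A' hA h hh i => h2 i A' (fun x hx => hA hx i) h hh⟩

theorem Lg.of_ae {p : K → Prop} (h : ∀ᶠ x in UF K, p x) : Lg fun _ h => ∀ c, p (h c) :=
  ⟨_, h, fun _ hA _ hh c => hA (hh.2 c)⟩

theorem Dec.lg {D : List K × List K → Cnd K} {m : ℕ} {R : (Co → K) → PP K → Prop}
    (h : Dec D m R) : Lg fun A h => ∀ q, Fits q D h m A → Dn (R h) q := by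
  obtain ⟨A, h1, h2⟩ := h
  exact ⟨A, h1, fun A' hA h hh q hq => h2 h (hh.mono hA) q (hq.mono (fun _ => subset_rfl) hA)⟩

theorem lg_const {y : (Co → K) → K} {m : ℕ} (hy : Supp y m) : ∃ g : ℕ → List K → K,
    Lg fun _ h => ∀ π, y h < h π → ∃ r l, y h = g r l ∧ ∀ x ∈ l, ∃ c < π, InT m c ∧ x = h c := by
  obtain ⟨g, A, h1, h2⟩ := exists_const hy
  exact ⟨g, A, h1, fun A' hA h hh => h2 h (hh.mono hA)⟩

theorem lg_eta {y : (Co → K) → K} {m : ℕ} (hy : Supp y m) :
    Lg fun _ h => ∀ n, y h < h (cb n) → y h < h (ce n m) := by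
  obtain ⟨g, hg⟩ := lg_const hy
  refine (hg.and (Lg.of_ae ((press_nat.prod (press_lt (K := K)).list).diag
    (p := fun a x => g a.1 a.2 < x) fun _ => ae_gt _))).mono fun A h hh ⟨h1, h2⟩ n hn => ?_
  obtain ⟨r, l, e, hl⟩ := h1 _ hn
  refine e ▸ h2 _ (r, l) ⟨trivial, fun x hx => ?_⟩
  obtain ⟨_, hc, ⟨j, hj, rfl | ⟨k, hk, rfl⟩⟩, rfl⟩ := hl x hx
  · exact hh.1 (cb_lt_ce m (by simpa [cb, Prod.Lex.toLex_lt_toLex] using hc))
  · have : j < n ∨ j = n := by simpa [cb, ce, Prod.Lex.toLex_lt_toLex] using hc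
    rcases this with hn | rfl
    · exact hh.1 ((ce_lt_cb k le_rfl).trans (cb_lt_ce m hn))
    · exact hh.1 (ce_lt_ce j hk)

theorem lg_level {y : (Co → K) → K} {m : ℕ} (hy : Supp y m) : ∃ g : ℕ → List K → K,
    Lg fun _ h => ∀ n, y h < sc (sc (top (tt h n))) →
      ∃ r l, y h = g r l ∧ ∀ x ∈ l, ∃ z ∈ tt h n, x ≤ z := by
  obtain ⟨g, hg⟩ := lg_const hy
  refine ⟨g, (hg.and (Lg.of_ae ((press_lt (K := K)).list.diag
    (p := fun a x => sc (sc (top a)) < x) fun _ => ae_gt _))).mono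
    fun A h hh ⟨h1, h2⟩ n hn => ?_⟩
  obtain ⟨r, l, e, hl⟩ := h1 (ce n 0) (hn.trans (h2 _ _ fun x hx => by
    obtain ⟨j, hj, rfl⟩ := mem_lst.1 hx
    exact hh.1 (cb_lt_ce 0 hj)))
  refine ⟨r, l, e, fun x hx => ?_⟩
  obtain ⟨_, hc, ⟨j, -, rfl | ⟨k, -, rfl⟩⟩, rfl⟩ := hl x hx
  · exact ⟨_, mem_lst.2 ⟨j, by simpa [cb, ce, Prod.Lex.toLex_lt_toLex] using hc, rfl⟩, le_rfl⟩
  · exact ⟨_, mem_lst.2 ⟨j, by simpa [ce, Prod.Lex.toLex_lt_toLex] using hc, rfl⟩,
      (hh.1 (ce_lt_cb k le_rfl)).le⟩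

theorem exists_bound {T : Set ((Co → K) → K)} (g : ((Co → K) → K) → ℕ → List K → K) {S : Set K}
    {x : K} (hx : ℵ₀ ≤ cd x) (hT : #T ≤ cd x) (hS : #S ≤ cd x) {z0 : K} (h0 : z0 < sc x) :
    ∃ z < sc x, z0 < z ∧ ∀ y ∈ T, ∀ r l, (∀ a ∈ l, a ∈ S) → g y r l < sc x → g y r l < z := by
  obtain ⟨z, h1, h2⟩ := bdd_sc hx (S := insert z0 {w | w < sc x ∧ w ∈ ⋃ y ∈ T,
      ⋃ r ∈ (univ : Set (ULift.{u} ℕ)), g y r.down '' {l | ∀ a ∈ l, a ∈ S}})
    (mk_insert_le.trans (add_le_of_le hx ((mk_le_mk_of_subset fun _ h => h.2).trans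
      (mk_biUnion_le_of hx hT fun y _ => mk_biUnion_le_of hx (by simpa using hx) fun r _ =>
        mk_image_le.trans (mk_list_le hx hS))) (one_le_aleph0.trans hx)))
    (by rintro w (rfl | hw); exacts [h0, hw.1])
  exact ⟨z, h1, h2 _ (Or.inl rfl), fun y hy r l hl hg => h2 _ (Or.inr ⟨hg,
    mem_biUnion hy (mem_biUnion (mem_univ (ULift.up r)) ⟨l, hl, rfl⟩)⟩)⟩

/-- the predecessor of one of the two successor positions -/
noncomputable def ph (ε : Bool) (α : K) : K := if ε then sc α else α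

theorem le_ph (ε : Bool) (α : K) : α ≤ ph ε α := by
  cases ε
  exacts [le_rfl, (lt_sc α).le]

theorem ph_le (ε : Bool) (α : K) : ph ε α ≤ sc α := by
  cases ε
  exacts [(lt_sc α).le, le_rfl]

theorem lg_succ {T : Set ((Co → K) → K)} (hT : #T ≤ cd (al K 2)) (hs : ∀ y ∈ T, ∃ m, Supp y m) :
    ∃ B : Bool → K → K, (∀ ε α, al K 2 ≤ α → B ε α < sc (ph ε α)) ∧ ∀ y ∈ T, Lg fun _ h =>
      ∀ ε n, y h < sc (ph ε (top (tt h n))) → y h < B ε (top (tt h n)) := by
  have : Nonempty K := ⟨al K 0⟩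
  choose! g hg using fun y hy => lg_level (hs y hy).choose_spec
  have h1 : ∀ ε α, ∃ z, al K 2 ≤ α → z < sc (ph ε α) ∧ ∀ y ∈ T, ∀ r l, (∀ a ∈ l, a ∈ Iic α) →
      g y r l < sc (ph ε α) → g y r l < z := fun ε α => by
    by_cases hα : al K 2 ≤ α
    · have hx := aleph0_le_cd (hα.trans (le_ph ε α))
      obtain ⟨z, h1, -, h2⟩ := exists_bound g (S := Iic α) hx
        (hT.trans (cd_mono (hα.trans (le_ph ε α)))) (mk_Iic_le hx (cd_mono (le_ph ε α))) (lt_sc _)
      exact ⟨z, fun _ => ⟨h1, h2⟩⟩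
    · exact ⟨α, fun h => absurd h hα⟩
  choose B hB using h1
  refine ⟨B, fun ε α h => (hB ε α h).1, fun y hy => (hg y hy).mono fun A h _ h1 ε n hn => ?_⟩
  obtain ⟨r, l, e, hl⟩ := h1 n (hn.trans_le (sc_mono (ph_le _ _)))
  exact e ▸ (hB ε _ (al_le_top _)).2 y hy r l
    (fun a ha => (hl a ha).elim fun z hz => hz.2.trans (le_top_of_mem hz.1)) (e ▸ hn)

theorem lg_al2 {T : Set ((Co → K) → K)} (hT : #T ≤ cd (al K 1)) (hs : ∀ y ∈ T, ∃ m, Supp y m)
    {γ : K} (hγ : γ < al K 2) :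
    ∃ γ' < al K 2, γ < γ' ∧ ∀ y ∈ T, Lg fun _ h => y h < al K 2 → y h < γ' := by
  have : Nonempty K := ⟨al K 0⟩
  choose! g hg using fun y hy => lg_level (hs y hy).choose_spec
  obtain ⟨z, h1, h2, h3⟩ := exists_bound g (S := ∅) (aleph0_le_cd (le_refl (al K 1))) hT
    (by simp) hγ
  refine ⟨z, h1, h2, fun y hy => (hg y hy).mono fun A h _ h1 hn => ?_⟩
  obtain ⟨r, l, e, hl⟩ := h1 0 (hn.trans ((lt_sc _).trans (lt_sc _)))
  exact e ▸ h3 y hy r l (fun a ha => (hl a ha).elim fun z hz => by simp [tt, lst] at hz) (e ▸ hn)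

end Pool.Agent.P.MP_2e9c36_lc
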