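import Pool.Agent.P.MP_2e9c36_lc.Cover

set_option autoImplicit false
set_option linter.unusedSectionVars false

/-! Systems of collapse conditions depending on indiscernibles; deciding one value uniformly. -/

open Cardinal Set Filter Pool.Agent.Lib.PosetForcing

namespace Pool.Agent.P.MP_2e9c36_lc

universe u

variable {K : Type u} [LinearOrder K] [WellFoundedLT K] [NM K]

/-- for almost all next points -/
def sh (φ : List K → Prop) (l : List K) : Prop := ∀ᶠ η in UF K, φ (η :: l)

/-- for almost all sequences of length `k` -/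
def AE (k : ℕ) (φ : List K → Prop) : Prop := sh^[k] φ []

theorem AE.mono {k : ℕ} {φ ψ : List K → Prop} (h : AE k φ)
    (e : ∀ l, l.length = k → φ l → ψ l) : AE k ψ := by
  induction k generalizing φ ψ with
  | zero => exact e [] rfl h
  | succ k ih => exact ih (φ := sh φ) (ψ := sh ψ) h fun l hl h =>
      Eventually.mono h fun η h => e _ (by simp [hl]) h

/-- the support lies above the last point of `l` -/
def Abv (l : List K) (x : K × K × K) : Prop := ∀ η l', l = η :: l' → η ≤ x.1

/-- the union of the pieces along `l` -/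
def cum (d : List K → Cnd K) : List K → Cnd K
  | [] => d []
  | η :: l => cum d l ∪ d (η :: l)

theorem cum_mono {d d' : List K → Cnd K} {l : List K}
    (h : ∀ l', l'.length ≤ l.length → d l' ⊆ d' l') : cum d l ⊆ cum d' l := by
  induction l with
  | nil => exact h [] le_rfl
  | cons a l ih => exact union_subset_union (ih fun l' hl => h l' (by simp; omega)) (h _ le_rfl)

theorem sub_cum (d : List K → Cnd K) (l : List K) : d l ⊆ cum d l := by
  cases l with
  | nil => exact subset_rfl
  | cons a l => exact subset_union_right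

theorem ae_cum {ν : K} (hν : ℵ₀ ≤ cd ν) {d : List K → Cnd K}
    (hd : ∀ l, IsCol ν (d l) ∧ ∀ x ∈ d l, Abv l x) (k : ℕ) : AE k fun l => IsCol ν (cum d l) := by
  induction k with
  | zero => exact (hd []).1
  | succ k ih =>
    exact AE.mono (ψ := sh fun l => IsCol ν (cum d l)) ih fun l _ h => h.ae_below.mono fun η hη =>
      h.union hν (hd _).1 fun x hx y hy e =>
        absurd (e ▸ hη x hx) (not_lt.2 ((hd _).2 y hy η l rfl))

theorem eta_press {X : Type*} {S : X → Prop} (hS : Press fun x (_ : K) => S x) {ν : K} (k : ℕ)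
    (d : List K → Cnd K) (hd : ∀ l, IsCol ν (d l) ∧ ∀ x ∈ d l, Abv l x)
    (W : List K → X → Cnd K → Prop) (mono : ∀ l x c c', S x → c ⊆ c' → W l x c → W l x c')
    (h : AE k fun l => ∃ x c, S x ∧ IsCol ν c ∧ cum d l ⊆ c ∧ W l x c) :
    ∃ (x : X) (d' : List K → Cnd K), S x ∧ (∀ l, IsCol ν (d' l) ∧ ∀ x ∈ d' l, Abv l x) ∧
      (∀ l, d l ⊆ d' l) ∧ AE k fun l => W l x (cum d' l) := by
  classical
  induction k generalizing d W with
  | zero =>
    obtain ⟨x, c, h1, h2, h3, h4⟩ := h
    refine ⟨x, fun l => if l = [] then c else d l, h1, fun l => ?_, fun l => ?_, ?_⟩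
    · beta_reduce
      split_ifs with e
      · exact ⟨h2, fun _ _ _ _ e' => by simp [e] at e'⟩
      · exact hd l
    · beta_reduce
      split_ifs with e
      · exact e ▸ h3
      · exact subset_rfl
    · simpa [AE, cum] using h4
  | succ k ih =>
    let Ex : List K → Prop := fun l => ∃ x c, S x ∧ IsCol ν c ∧ cum d l ⊆ c ∧ W l x c
    let d1 : List K → Cnd K := fun l => if h : l.length = k + 1 ∧ Ex l then
      {z | z ∈ h.2.choose_spec.choose ∧ Abv l z} else d l
    have hd1 : ∀ l, IsCol ν (d1 l) ∧ ∀ x ∈ d1 l, Abv l x := fun l => by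
      simp only [d1]
      split_ifs with e
      · exact ⟨e.2.choose_spec.choose_spec.2.1.subset fun _ h => h.1, fun _ h => h.2⟩
      · exact hd l
    have hdd : ∀ l, d l ⊆ d1 l := fun l => by
      simp only [d1]
      split_ifs with e
      · exact fun z hz => ⟨e.2.choose_spec.choose_spec.2.2.1 (sub_cum d l hz), (hd l).2 z hz⟩
      · exact subset_rfl
    obtain ⟨x, d', g1, g2, g3, g4⟩ := ih d1 hd1
      (fun l x c => ∀ᶠ η in UF K, W (η :: l) x (c ∪ d1 (η :: l)))
      (fun l x c c' hx e h => h.mono fun η h => mono _ _ _ _ hx (union_subset_union_left _ e) h)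
      (AE.mono (φ := sh Ex) h fun l hl h => by
        obtain ⟨η0, h0⟩ := Eventually.exists h
        obtain ⟨x0, hx0⟩ := hS (fun η => if e : Ex (η :: l) then e.choose else h0.choose)
          (Eventually.mono h fun η e => by
            beta_reduce
            rw [dif_pos e]
            exact e.choose_spec.choose_spec.1)
        obtain ⟨c0, hc0⟩ := press_col ν (fun η => if e : Ex (η :: l) then
            {z | z ∈ e.choose_spec.choose ∧ z.1 < η} else ∅)
          (Eventually.mono h fun η e => by
            beta_reduce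
            rw [dif_pos e]
            exact ⟨e.choose_spec.choose_spec.2.1.subset fun _ h => h.1, fun _ h => h.2⟩)
        have hcl : IsCol ν (cum d l) := h0.choose_spec.choose_spec.2.1.subset
          (subset_union_left.trans h0.choose_spec.choose_spec.2.2.1)
        obtain ⟨η, e, e1, e2, e3⟩ := (Eventually.and h (hx0.and (hc0.and hcl.ae_below))).exists
        rw [dif_pos e] at e1 e2
        refine ⟨x0, c0, e1 ▸ e.choose_spec.choose_spec.1,
          e2 ▸ e.choose_spec.choose_spec.2.1.subset fun _ h => h.1, ?_, ?_⟩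
        · refine subset_trans (cum_mono fun l' hl' => ?_) (e2 ▸ fun z hz =>
            ⟨e.choose_spec.choose_spec.2.2.1 (Or.inl hz), e3 z hz⟩ : cum d l ⊆ c0)
          simp only [d1]
          rw [dif_neg fun h => by omega]
        · refine (Eventually.and h (hx0.and hc0)).mono fun η ⟨e, e1, e2⟩ => ?_
          rw [dif_pos e] at e1 e2
          have e3 := e.choose_spec.choose_spec.2.2.2
          have e4 := e.choose_spec.choose_spec.1
          rw [← e1]
          refine mono _ _ _ _ e4 (fun z hz => ?_) e3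
          rcases lt_or_ge z.1 η with hη | hη
          · exact Or.inl (e2 ▸ ⟨hz, hη⟩)
          · right
            simp only [d1]
            rw [dif_pos ⟨by simp [hl], e⟩]
            exact ⟨hz, fun _ _ e' => (List.cons.inj e').1 ▸ hη⟩)
    exact ⟨x, d', g1, g2, fun l => (hdd l).trans (g3 l),
      AE.mono (ψ := sh fun l => W l x (cum d' l)) g4 fun l _ h => Eventually.mono h
        fun η h => mono _ _ _ _ g1 (union_subset_union_right _ (g3 _)) h⟩

/-- valid systems of pieces -/
def SysOK (D : List K × List K → Cnd K) : Prop :=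
  ∀ s, IsCol (nu s.1) (D s) ∧ ∀ x ∈ D s, Abv s.2 x

/-- all points of the node are allowed -/
def Good (t : List K) : Prop := ∀ β u, β :: u <:+ t → β ∈ G u

theorem Good.cons {t : List K} {β : K} (h : Good t) (hβ : β ∈ G t) : Good (β :: t) :=
  fun γ u hu => (List.suffix_cons_iff.1 hu).elim (fun e => by cases e; exact hβ) (h γ u)

section ok
variable (m : ℕ) (R : List K → List (List K) → K → PP K → Prop)

/-- the system `D` decides a value after `ℓ` more levels -/
def OK (D : List K × List K → Cnd K) : ℕ → List K → List (List K) → List (Cnd K) → Prop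
  | 0, t, v, r => ∃ y, FA t (sp t r fun s => D (s, [])) (R t v y)
  | ℓ + 1, t, v, r => AE m fun l => ∀ᶠ β in UF K,
      OK D ℓ (β :: t) (l :: v) (cum (fun l => D (t, l)) l :: r)

variable {m R}

theorem OK.mono {D D' : List K × List K → Cnd K} {ℓ : ℕ} {t : List K} {v : List (List K)}
    {r r' : List (Cnd K)} (h : OK m R D ℓ t v r) (hr : r.length = t.length) (e : Sub r r')
    (hD : ∀ s l, t <:+ s → D (s, l) ⊆ D' (s, l)) : OK m R D' ℓ t v r' := by
  induction ℓ generalizing t v r r' with
  | zero =>
    obtain ⟨y, h⟩ := h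
    exact ⟨y, h.mono fun u hu => sp_mono hr e hu (hD u [])⟩
  | succ ℓ ih =>
    exact AE.mono h fun l _ h => h.mono fun β h => ih h (by simp [hr])
      (.cons (cum_mono fun l' _ => hD t l' (List.suffix_refl _)) e)
      fun s l hs => hD s l ((List.suffix_cons _ _).trans hs)

theorem exists_OK (hR : ∀ t v, ∃ γ, ∀ q, ∃ r ≤ q, ∃ y < γ, Dn (R t v y) r) (ℓ : ℕ) (t : List K)
    (v : List (List K)) (r : List (Cnd K)) (D : List K × List K → Cnd K) (ht : Good t)
    (hr : LowOK t r) (hD : SysOK D) : ∃ (D' : List K × List K → Cnd K) (r' : List (Cnd K)),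
      SysOK D' ∧ (∀ s, D s ⊆ D' s) ∧ LowOK t r' ∧ Sub r r' ∧ OK m R D' ℓ t v r' := by
  classical
  induction ℓ generalizing t v r D with
  | zero =>
    obtain ⟨γ, hγ⟩ := hR t v
    obtain ⟨c, g1, g2, g3, y, g4⟩ := decide_FA t (sp t r fun s => D (s, []))
      (sp_col hr fun s => (hD (s, [])).1) (fun β u hu => ⟨ht β u hu, sp_below _ hr hu⟩) γ _ hγ
    have hl : LowOK t (low t c) := lowOK_low_iff.2 fun β u hu => ⟨g1 u, g2 β u hu⟩
    refine ⟨fun s => if s.2 = [] ∧ t <:+ s.1 then c s.1 else D s, low t c, fun s => ?_, fun s => ?_,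
      hl, low_sp (fun s => D (s, [])) hr.length ▸ low_sub_iff.2 fun _ u _ => g3 u,
      y, g4.mono fun u hu => ?_⟩
    · beta_reduce
      split_ifs with e
      · exact ⟨g1 _, fun _ _ _ _ e' => by simp [e.1] at e'⟩
      · exact hD s
    · beta_reduce
      split_ifs with e
      · have := g3 s.1
        rwa [sp_of_le _ _ e.2.length_le, ← e.1] at this
      · exact subset_rfl
    · have h1 : t <:+ u → c u ⊆ sp t (low t c) (fun s => (fun s : List K × List K =>
          if s.2 = [] ∧ t <:+ s.1 then c s.1 else D s) (s, [])) u :=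
        fun h => by rw [sp_of_le _ _ h.length_le]; simp [h]
      rcases hu with h | h
      · rcases suffix_cases h with rfl | ⟨β, hβ⟩
        · exact h1 (List.suffix_refl _)
        · exact (low_congr (low_sp _ hl.length) hβ).ge
      · exact h1 h
  | succ ℓ ih =>
    obtain ⟨D1, h1, h2, h3⟩ := meet_all (S := List K × List K) (X := K × List K)
      (fun s => nu s.1) (fun s => cd_nu_inf _) (fun s x => Abv s.2 x)
      (fun a s => a.1 :: t <:+ s.1 ∧ ∀ x ∈ a.2, x < a.1)
      (fun s => le_trans (mk_le_of_injective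
        (f := fun a : {a : K × List K | a.1 :: t <:+ s.1 ∧ ∀ x ∈ a.2, x < a.1} =>
          (⟨a.1.2, fun x hx => (a.2.2 x hx).trans_le (le_top_of_mem (a.2.1.subset (by simp)))⟩ :
            {l : List K | ∀ x ∈ l, x ∈ Iio (top s.1)})) fun a b e =>
          Subtype.ext (Prod.ext ((nb_eq a.2.1).symm.trans (nb_eq b.2.1))
            (congrArg Subtype.val e)))
        ((mk_list_le (cd_top_inf _) le_rfl).trans (cd_lt_sc _).le))
      (fun a D' => (∀ x ∈ a.2, x < a.1) → a.1 ∈ G t →
        LowOK (a.1 :: t) (cum (fun l => D (t, l)) a.2 :: r) → ∃ r', LowOK (a.1 :: t) r' ∧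
          Sub (cum (fun l => D (t, l)) a.2 :: r) r' ∧ OK m R D' ℓ (a.1 :: t) (a.2 :: v) r')
      (fun a D' D'' e h g1 g2 g3 => by
        obtain ⟨r', k1, k2, k3⟩ := h g1 g2 g3
        exact ⟨r', k1, k2, k3.mono k1.length (Sub.rfl' _) fun s l hs => e (s, l) ⟨hs, g1⟩⟩)
      (fun a D' hD' => by
        by_cases h : a.1 ∈ G t ∧ LowOK (a.1 :: t) (cum (fun l => D (t, l)) a.2 :: r)
        · obtain ⟨D'', r', k1, k2, k3⟩ := ih (a.1 :: t) (a.2 :: v) _ D' (ht.cons h.1) h.2 hD'
          exact ⟨D'', k1, k2, fun _ _ _ => ⟨r', k3⟩⟩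
        · exact ⟨D', hD', fun _ => subset_rfl, fun _ g1 g2 => absurd ⟨g1, g2⟩ h⟩) D hD
    obtain ⟨ρ, d', g1, g2, g3, g4⟩ := eta_press (S := fun ρ => LowOK t ρ ∧ Sub r ρ)
      ((low_const t).mono (Eventually.of_forall fun _ _ h => h.1)) m (fun l => D (t, l))
      (fun l => hD (t, l)) (fun l ρ c => ∀ᶠ β in UF K, OK m R D1 ℓ (β :: t) (l :: v) (c :: ρ))
      (fun l ρ c c' hρ e h => h.mono fun β h => h.mono (by simp [hρ.1.length])
        (.cons e (Sub.rfl' _)) fun _ _ _ => subset_rfl)
      ((ae_cum (cd_nu_inf t) (fun l => hD (t, l)) m).mono fun l _ hl => by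
        have k1 : ∀ᶠ β in UF K, ∃ r', LowOK (β :: t) r' ∧
            Sub (cum (fun l => D (t, l)) l :: r) r' ∧ OK m R D1 ℓ (β :: t) (l :: v) r' :=
          ((ae_gt (top l)).and ((ae_G t).and hl.ae_below)).mono fun β h =>
            h3 (β, l) (fun x hx => (le_top_of_mem hx).trans_lt h.1) h.2.1 (.cons hl h.2.2 hr)
        obtain ⟨σ, hσ⟩ := low_press t (fun β => if e : ∃ r', LowOK (β :: t) r' ∧
            Sub (cum (fun l => D (t, l)) l :: r) r' ∧ OK m R D1 ℓ (β :: t) (l :: v) r' then
            e.choose else []) (k1.mono fun β e => by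
              beta_reduce
              rw [dif_pos e]
              exact e.choose_spec.1)
        have k2 : ∀ᶠ β in UF K, LowOK (β :: t) σ ∧
            Sub (cum (fun l => D (t, l)) l :: r) σ ∧ OK m R D1 ℓ (β :: t) (l :: v) σ :=
          (k1.and hσ).mono fun β ⟨e, e1⟩ => by
            rw [dif_pos e] at e1
            exact e1 ▸ e.choose_spec
        obtain ⟨β, k3, k4, -⟩ := k2.exists
        cases k3 with
        | cons a1 _ a3 =>
          cases k4 with
          | cons b1 b2 => exact ⟨_, _, ⟨a3, b2⟩, a1, b1, k2.mono fun _ h => h.2.2⟩)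
    refine ⟨fun s => if s.1 = t then d' s.2 else D1 s, ρ, fun s => ?_, fun s => ?_, g1.1, g1.2,
      AE.mono g4 fun l _ h => h.mono fun β h => ?_⟩
    · beta_reduce
      split_ifs with e
      · exact e ▸ g2 s.2
      · exact h1 s
    · beta_reduce
      split_ifs with e
      · exact (show s = (t, s.2) from Prod.ext e rfl) ▸ g3 s.2
      · exact h2 s
    · refine h.mono (by simp [g1.1.length]) (.cons (by simp) (Sub.rfl' _)) fun s l hs => ?_
      rw [if_neg fun e : s = t => not_cons_suffix hs (e ▸ le_rfl)]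

end ok

end Pool.Agent.P.MP_2e9c36_lc
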