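import Pool.Agent.P.MP_2e9c36_lc.YMain

set_option autoImplicit false

open Pool.Agent.Lib.PosetForcing Pool.Agent.P.MP_2e9c36_lc

universe u

/-- A model of ZFC with a measurable cardinal yields a model of ZFC in which the sequence with
cofinality pattern `ω, ω₁, ω₁, …` on the `ℵ_n`, `n ≥ 2`, is mutually stationary. -/
theorem Pool.Agent.P.MP_2e9c36_lc.VariantRelConsistent.result :
    ∀ (M : Type u) (mem : M → M → Prop), IsZFC mem → (∃ k, IsMeasurable mem k) →
      ∃ (N : Type u) (mem' : N → N → Prop), IsZFC mem' ∧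
        ∃ w w1 a lam E : N, IsOmega mem' w ∧ IsSuccCard mem' w1 w ∧ IsAleph mem' a w ∧
          IsSupRange mem' lam a ∧ IsTwoMod3 mem' E w ∧ MutStat mem' w w1 a lam E :=
  fun _ mem h ⟨_, hk⟩ =>
    let ⟨N, mem', h1, w, w1, a, l, E, ⟨g1, g2, g3, g4, g5⟩, g6⟩ :=
      Pool.Agent.P.MP_5f3b23_lc.Zf.rel_consistent mem h hk
    ⟨N, mem', h1, w, w1, a, l, E, g1, g2, g3, g4, g5, g6⟩
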