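import Pool.Agent.P.MP_2e9c36_lc.YRank

set_option autoImplicit false

/-! Cardinal arithmetic and finite sequences in a model of ZFC. -/

open Pool.Agent.Lib.PosetForcing

namespace Pool.Agent.P.MP_5f3b23_lc.Zf

universe v

variable {M : Type v} [Zm M]

theorem Le.rfl {a : M} : Le a a := le_of_sub Sub.rfl

theorem le_img (a : M) (F : M → M) [Tm fun v => F (v 0)] : Le (img a F) a :=
  le_of_surj F fun _ hy => mem_img.1 hy

theorem suc_inj {a b : M} (ha : Od a) (h : suc a = suc b) : a = b := by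
  rcases mem_suc.1 (h ▸ mem_suc.2 (Or.inr rfl) : a ∈ suc b) with h1 | h1
  · rcases mem_suc.1 (h ▸ mem_suc.2 (Or.inr rfl) : b ∈ suc a) with h2 | h2
    · exact (ha.asymm h2 h1).elim
    · exact h2.symm
  · exact h1

theorem suc_ne_emp (a : M) : suc a ≠ emp := fun h =>
  not_mem_emp a (h ▸ mem_suc.2 (Or.inr rfl))

theorem self_mem_suc (a : M) : a ∈ suc a := mem_suc.2 (Or.inr rfl)

theorem sub_suc (a : M) : Sub a (suc a) := fun _ h => mem_suc.2 (Or.inl h)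

theorem Od.suc_sub {a b : M} (hb : Od b) (h : a ∈ b) : Sub (Zf.suc a) b := fun _ hx =>
  (mem_suc.1 hx).elim (hb.tr h) fun e => e ▸ h

theorem Od.mem_suc {a b : M} (ha : Od a) (hb : Od b) (h : Sub a b) : a ∈ Zf.suc b :=
  ha.mem_of_sub hb.suc h (self_mem_suc b)

theorem Od.sub_of_mem_suc {a b : M} (hb : Od b) (h : a ∈ Zf.suc b) : Sub a b :=
  (Zf.mem_suc.1 h).elim (hb.1 a) fun e => e ▸ Sub.rfl

theorem Od.total {a b : M} (ha : Od a) (hb : Od b) : Sub a b ∨ b ∈ a :=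
  (em (b ∈ a)).symm.imp_left (ha.sub_of_not_mem hb)

theorem Od.un {a b : M} (ha : Od a) (hb : Od b) : Zf.un a b = a ∨ Zf.un a b = b := by
  rcases ha.total hb with h | h
  · exact Or.inr (ext fun x => mem_un.trans ⟨fun g => g.elim (h x) id, Or.inr⟩)
  · exact Or.inl (ext fun x => mem_un.trans ⟨fun g => g.elim id (ha.1 b h x), Or.inl⟩)

theorem sub_un_l (a b : M) : Sub a (un a b) := fun _ h => mem_un.2 (Or.inl h)

theorem sub_un_r (a b : M) : Sub b (un a b) := fun _ h => mem_un.2 (Or.inr h)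

theorem un_sub {a b c : M} (h : Sub a c) (h' : Sub b c) : Sub (un a b) c := fun x hx =>
  (mem_un.1 hx).elim (h x) (h' x)

theorem un_mem {a b c : M} (hc : Od c) (ha : a ∈ c) (hb : b ∈ c) : un a b ∈ c := by
  rcases (hc.el ha).un (hc.el hb) with e | e <;> rw [e] <;> assumption

theorem om_cases' {n : M} (h : n ∈ (om : M)) : n = emp ∨ ∃ m, m ∈ (om : M) ∧ n = suc m :=
  om_ind (fun n => n = emp ∨ ∃ m, m ∈ (om : M) ∧ n = suc m) (Or.inl rfl)
    (fun n hn _ => Or.inr ⟨n, hn, rfl⟩) h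

theorem down_ind (P : M → Prop) [D1 P] {m : M} (hm : m ∈ (om : M)) (h0 : P m)
    (hs : ∀ k, k ∈ m → P (suc k) → P k) {k : M} (hk : k ∈ suc m) : P k := by
  by_contra hn
  have hk' : k ∈ (om : M) := od_om.tr (suc_mem_om hm) hk
  refine om_ind (fun n => Sub n m → (Sub k n → ¬ P n)) (fun _ h => ?_) (fun n hn' ih h1 h2 => ?_) hm
    Sub.rfl ((od_om.el hm).sub_of_mem_suc hk) h0
  · rwa [← h.antisymm (emp_sub k)]
  · rcases (od_om.el hk').total (od_om.el hn') with h | h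
    · exact fun h3 => ih ((sub_suc n).trans h1) h (hs n (h1 n (self_mem_suc n)) h3)
    · rwa [← h2.antisymm ((od_om.el hk').suc_sub h)]

theorem le_ins {X t : M} (ht : Sub om t) (h : Le X t) (x : M) : Le (ins x X) t := by
  obtain ⟨f, h1, h2⟩ := h
  refine le_of_fn (fun y => cnd (y = x) emp (cnd (ap f y ∈ (om : M)) (suc (ap f y)) (ap f y)))
    (fun y hy => ?_) fun y z hy hz e => ?_
  · by_cases e : y = x
    · rw [cnd_pos e]; exact ht _ emp_mem_om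
    · rw [cnd_neg e]
      by_cases g : ap f y ∈ (om : M)
      · rw [cnd_pos g]; exact ht _ (suc_mem_om g)
      · rw [cnd_neg g]; exact h1 y ((mem_ins.1 hy).resolve_right e)
  · have k : ∀ w : M, cnd (w ∈ (om : M)) (suc w) w ≠ emp := fun w => by
      by_cases g : w ∈ (om : M)
      · rw [cnd_pos g]; exact suc_ne_emp w
      · rw [cnd_neg g]; exact fun e => g (e ▸ emp_mem_om)
    by_cases e1 : y = x <;> by_cases e2 : z = x
    · rw [e1, e2]
    · rw [cnd_pos e1, cnd_neg e2] at e; exact (k _ e.symm).elim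
    · rw [cnd_neg e1, cnd_pos e2] at e; exact (k _ e).elim
    · rw [cnd_neg e1, cnd_neg e2] at e
      refine h2 y z ((mem_ins.1 hy).resolve_right e1) ((mem_ins.1 hz).resolve_right e2) ?_
      by_cases g1 : ap f y ∈ (om : M) <;> by_cases g2 : ap f z ∈ (om : M)
      · rw [cnd_pos g1, cnd_pos g2] at e; exact suc_inj (od_om.el g1) e
      · rw [cnd_pos g1, cnd_neg g2] at e; exact (g2 (e ▸ suc_mem_om g1)).elim
      · rw [cnd_neg g1, cnd_pos g2] at e; exact (g1 (e ▸ suc_mem_om g2)).elim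
      · rwa [cnd_neg g1, cnd_neg g2] at e

theorem fin_ins {X : M} (h : ¬ Le om X) (x : M) : ¬ Le om (ins x X) := by
  rintro ⟨f, h1, h2⟩
  refine h (le_of_fn (fun n => cnd (ap f (suc n) = x) (ap f emp) (ap f (suc n)))
    (fun n hn => ?_) fun n m hn hm e => ?_)
  · by_cases g : ap f (suc n) = x
    · rw [cnd_pos g]
      exact (mem_ins.1 (h1 _ emp_mem_om)).resolve_right fun e =>
        suc_ne_emp n (h2 _ _ (suc_mem_om hn) emp_mem_om (g.trans e.symm))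
    · rw [cnd_neg g]; exact (mem_ins.1 (h1 _ (suc_mem_om hn))).resolve_right g
  · refine suc_inj (od_om.el hn) ?_
    by_cases g1 : ap f (suc n) = x <;> by_cases g2 : ap f (suc m) = x
    · exact h2 _ _ (suc_mem_om hn) (suc_mem_om hm) (g1.trans g2.symm)
    · rw [cnd_pos g1, cnd_neg g2] at e
      exact (suc_ne_emp m (h2 _ _ (suc_mem_om hm) emp_mem_om e.symm)).elim
    · rw [cnd_neg g1, cnd_pos g2] at e
      exact (suc_ne_emp n (h2 _ _ (suc_mem_om hn) emp_mem_om e)).elim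
    · rw [cnd_neg g1, cnd_neg g2] at e
      exact h2 _ _ (suc_mem_om hn) (suc_mem_om hm) e

theorem fin_emp : ¬ Le om (emp : M) := fun ⟨_, h, _⟩ => not_mem_emp _ (h _ emp_mem_om)

theorem fin_nat {n : M} (hn : n ∈ (om : M)) : ¬ Le om n :=
  om_ind (fun n => ¬ Le om n) fin_emp (fun n _ ih => fin_ins ih n) hn

theorem fin_prd {n m : M} (hn : n ∈ (om : M)) (hm : m ∈ (om : M)) : ¬ Le om (prd n m) := by
  refine om_ind (fun n => ¬ Le om (prd n m)) (fun h => fin_emp (h.trans (le_of_sub fun p hp =>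
    (not_mem_emp _ (prd_eta hp).1).elim))) (fun n _ ih h => ?_) hn
  refine om_ind (fun j => ¬ Le om (un (prd n m) (img j fun y => op n y))) (fun h => ih (h.trans
    (le_of_sub (un_sub Sub.rfl fun p hp => let ⟨y, hy, _⟩ := mem_img.1 hp
      (not_mem_emp y hy).elim)))) (fun j _ ih h => fin_ins ih (op n j) (h.trans (le_of_sub
        (un_sub ((sub_un_l _ _).trans (sub_ins _ _)) fun p hp => ?_)))) hm
    (h.trans (le_of_sub fun p hp => ?_))
  · obtain ⟨y, hy, rfl⟩ := mem_img.1 hp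
    rcases mem_suc.1 hy with hy | rfl
    · exact sub_ins _ _ _ (sub_un_r _ _ _ (mem_img.2 ⟨y, hy, rfl⟩))
    · exact mem_ins.2 (Or.inr rfl)
  · obtain ⟨x, y, hx, hy, rfl⟩ := mem_prd.1 hp
    rcases mem_suc.1 hx with hx | rfl
    · exact sub_un_l _ _ _ (op_mem_prd.2 ⟨hx, hy⟩)
    · exact sub_un_r _ _ _ (mem_img.2 ⟨y, hy, rfl⟩)

theorem wo_inj {X c a F : M} (ha : Od a)
    (hF : ∀ b, b ∈ a → ∃ Y : M, (∀ x, x ∈ Y ↔ x ∈ X ∧ ¬ ∃ g, g ∈ b ∧ x = ap F g) ∧ ap c Y ∈ Y ∧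
      ap F b = ap c Y) : Inj F a X := by
  have h1 : ∀ b, b ∈ a → ap F b ∈ X ∧ ¬ ∃ g, g ∈ b ∧ ap F b = ap F g := fun b hb => by
    obtain ⟨Y, hY, h, e⟩ := hF b hb
    rw [← e] at h
    exact (hY _).1 h
  refine ⟨fun b hb => (h1 b hb).1, fun x y hx hy e => ?_⟩
  rcases (ha.el hx).tri (ha.el hy) with h | h | h
  · exact ((h1 y hy).2 ⟨x, h, e.symm⟩).elim
  · exact h
  · exact ((h1 x hx).2 ⟨y, h, e⟩).elim

theorem ex_card (X : M) : ∃ a, Od a ∧ Le X a ∧ Le a X := by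
  obtain ⟨c, hc⟩ := chs' (pow X) (fun Z => ∃ x, x ∈ Z) (fun Z y => y ∈ Z) fun _ _ h => h
  obtain ⟨l, F, hl, h1, h2⟩ := wo X c fun Y hY => hc Y (mem_pow.2 hY)
  exact ⟨l, hl, le_of_surj (fun b => ap F b) h1, F, wo_inj hl h2⟩

theorem le_of_levels {X t : M} (ht : Od t) (r : M → M) [hr : Tm fun v => r (v 0)]
    (h1 : ∀ x, x ∈ X → r x ∈ t) (h2 : ∀ m, m ∈ t → ¬ Le t (sep X fun x => Sub (r x) m)) :
    Le X t := by
  have : Fn1 r := ⟨hr⟩
  obtain ⟨c, hc⟩ := chs' (pow X) (fun Z => ∃ x, x ∈ Z)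
    (fun Z y => y ∈ Z ∧ ∀ z, z ∈ Z → Sub (r y) (r z)) fun Z hZ ⟨x, hx⟩ => by
      obtain ⟨b, hb, ⟨y, g1, g2⟩, g3⟩ := ex_least (fun b => ∃ y, y ∈ Z ∧ r y = b)
        (ht.el (h1 x (mem_pow.1 hZ x hx))) ⟨x, hx, rfl⟩
      exact ⟨y, g1, fun z hz => g2 ▸ hb.sub_of_not_mem (ht.el (h1 z (mem_pow.1 hZ z hz)))
        fun g => g3 _ g ⟨z, hz, rfl⟩⟩
  obtain ⟨l, F, hl, g1, g2⟩ := wo X c fun Y hY h => (hc Y (mem_pow.2 hY) h).1
  have g3 := wo_inj hl g2
  refine (le_of_surj (fun b => ap F b) g1).trans (le_of_sub (hl.sub_of_not_mem ht fun h => ?_))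
  refine h2 _ (h1 _ (g3.1 t h)) ⟨F, fun g hg => mem_sep.2 ⟨g3.1 g (hl.tr h hg), ?_⟩,
    fun x y hx hy => g3.2 x y (hl.tr h hx) (hl.tr h hy)⟩
  obtain ⟨Y, hY, k, e⟩ := g2 g (hl.tr h hg)
  rw [e]
  refine (hc Y (mem_pow.2 fun x hx => ((hY x).1 hx).1) ⟨_, k⟩).2 _
    ((hY _).2 ⟨g3.1 t h, fun ⟨g', hg', e'⟩ => ?_⟩)
  have := g3.2 _ _ h (hl.tr h (ht.tr hg hg')) e'
  exact not_mem_self t (this ▸ ht.tr hg hg' : t ∈ t)

theorem prd_le_prd {a b c d : M} (h : Le a c) (h' : Le b d) : Le (prd a b) (prd c d) := by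
  obtain ⟨f, h1, h2⟩ := h
  obtain ⟨g, h3, h4⟩ := h'
  refine le_of_fn (fun p => op (ap f (fst p)) (ap g (snd p)))
    (fun p hp => op_mem_prd.2 ⟨h1 _ (prd_eta hp).1, h3 _ (prd_eta hp).2.1⟩) fun p q hp hq e => ?_
  rw [(prd_eta hp).2.2, (prd_eta hq).2.2, h2 _ _ (prd_eta hp).1 (prd_eta hq).1 (op_inj e).1,
    h4 _ _ (prd_eta hp).2.1 (prd_eta hq).2.1 (op_inj e).2]

theorem prd_self {t : M} (ht : Od t) (h : Sub om t) : Le (prd t t) t := by
  refine od_ind (fun t => Sub om t → Le (prd t t) t) (fun t ht ih h => ?_) ht h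
  by_cases g : ∃ b, b ∈ t ∧ Le t b
  · obtain ⟨b, hb, e⟩ := g
    rcases od_om.total (ht.el hb) with g | g
    · exact (prd_le_prd e e).trans ((ih b hb g).trans (le_of_sub (ht.1 b hb)))
    · exact (fin_nat g ((le_of_sub h).trans e)).elim
  · refine le_of_levels ht (fun p => un (fst p) (snd p))
      (fun p hp => un_mem ht (prd_eta hp).1 (prd_eta hp).2.1) fun m hm e => ?_
    have e1 : Le t (prd (suc m) (suc m)) := e.trans (le_of_sub fun p hp => by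
      obtain ⟨h1, h2⟩ := mem_sep.1 hp
      rw [(prd_eta h1).2.2]
      exact op_mem_prd.2 ⟨(ht.el (prd_eta h1).1).mem_suc (ht.el hm) ((sub_un_l _ _).trans h2),
        (ht.el (prd_eta h1).2.1).mem_suc (ht.el hm) ((sub_un_r _ _).trans h2)⟩)
    rcases od_om.total (ht.el hm) with k | k
    · exact g ⟨m, hm, e1.trans ((prd_le_prd (le_ins k Le.rfl m) (le_ins k Le.rfl m)).trans
        (ih m hm k))⟩
    · exact fin_prd (suc_mem_om k) (suc_mem_om k) ((le_of_sub h).trans e1)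

/-- infinite ordinal -/
def Io (t : M) : Prop := Od t ∧ Sub om t

theorem io_om : Io (om : M) := ⟨od_om, Sub.rfl⟩

theorem Io.mono {a b : M} (h : Io a) (hb : Od b) (e : Sub a b) : Io b := ⟨hb, h.2.trans e⟩

theorem Io.prd {t a b : M} (ht : Io t) (h : Le a t) (h' : Le b t) : Le (prd a b) t :=
  (prd_le_prd h h').trans (prd_self ht.1 ht.2)

theorem Io.bUn {t S : M} (ht : Io t) (F : M → M) [hF : Tm fun v => F (v 0)] (h : Le S t)
    (h' : ∀ i, i ∈ S → Le (F i) t) : Le (bUn S F) t := by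
  have : Fn1 F := ⟨hF⟩
  obtain ⟨e, he⟩ := chs S (fun i f => Inj f (F i) t) h'
  obtain ⟨u, hu⟩ := chs (Zf.bUn S F) (fun y i => i ∈ S ∧ y ∈ F i) fun y hy => mem_bUn.1 hy
  refine Le.trans (le_of_fn (fun y => op (ap u y) (ap (ap e (ap u y)) y))
    (fun y hy => op_mem_prd.2 ⟨(hu y hy).1, (he _ (hu y hy).1).1 y (hu y hy).2⟩)
    fun y z hy hz E => ?_) (ht.prd h Le.rfl)
  obtain ⟨e1, e2⟩ := op_inj E
  rw [← e1] at e2
  exact (he _ (hu y hy).1).2 y z (hu y hy).2 (e1 ▸ (hu z hz).2) e2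

theorem Io.ins {t X : M} (ht : Io t) (h : Le X t) (x : M) : Le (ins x X) t := le_ins ht.2 h x

theorem le_emp (t : M) : Le emp t := le_of_sub (emp_sub t)

theorem Io.upair {t : M} (ht : Io t) (a b : M) : Le (upair a b) t :=
  (le_of_sub fun _ hx => mem_ins.2 ((mem_upair.1 hx).imp_left fun e => mem_ins.2 (Or.inr e))).trans
    (ht.ins (ht.ins (le_emp t) a) b)

theorem Io.un {t a b : M} (ht : Io t) (h : Le a t) (h' : Le b t) : Le (un a b) t :=
  (le_of_sub fun _ hx => let ⟨y, g⟩ := mem_sUn.1 hx; mem_bUn.2 ⟨y, g⟩).trans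
    (ht.bUn (fun x => x) (ht.upair a b) fun i hi => by
      rcases mem_upair.1 hi with rfl | rfl <;> assumption)

theorem Io.le_om {t : M} (ht : Io t) : Le om t := le_of_sub ht.2

/-- the successor cardinal -/
noncomputable def sc (x : M) : M := least fun a => ¬ Le a x

instance tm_sc (a : (ℕ → M) → M) [Tm a] : Tm fun v => sc (a v) := by
  unfold sc; infer_instance

theorem sc_spec (x : M) : Od (sc x) ∧ ¬ Le (sc x) x ∧ ∀ c, c ∈ sc x → ¬ ¬ Le c x :=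
  let ⟨_, ha, h⟩ := ex_ord_not_le x
  least_spec (fun a => ¬ Le a x) ha h

theorem od_sc (x : M) : Od (sc x) := (sc_spec x).1

theorem not_le_sc (x : M) : ¬ Le (sc x) x := (sc_spec x).2.1

theorem le_of_mem_sc {x y : M} (h : y ∈ sc x) : Le y x := not_not.1 ((sc_spec x).2.2 y h)

theorem Od.mem_sc {x y : M} (hy : Od y) (h : Le y x) : y ∈ sc x := by
  by_contra hn
  exact not_le_sc x ((le_of_sub ((od_sc x).sub_of_not_mem hy hn)).trans h)

theorem Od.lt_sc {x : M} (h : Od x) : x ∈ sc x := h.mem_sc Le.rfl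

theorem Od.sub_sc {x : M} (h : Od x) : Sub x (sc x) := (od_sc x).1 x h.lt_sc

theorem sc_mono {x y : M} (h : Le x y) : Sub (sc x) (sc y) := fun _ hz =>
  ((od_sc x).el hz).mem_sc ((le_of_mem_sc hz).trans h)

theorem Io.sc {x : M} (h : Io x) : Io (sc x) := h.mono (od_sc x) h.1.sub_sc

theorem sc_eq {x y : M} (hy : Od y) (h1 : ¬ Le y x) (h2 : ∀ z, z ∈ y → Le z x) : sc x = y :=
  ((od_sc x).sub_of_not_mem hy fun h => h1 (le_of_mem_sc h)).antisymm
    fun z hz => (hy.el hz).mem_sc (h2 z hz)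

theorem Io.bdd {x S : M} (hx : Io x) (h : Le S x) (h' : Sub S (Zf.sc x)) :
    ∃ z, z ∈ Zf.sc x ∧ ∀ y, y ∈ S → y ∈ z :=
  ⟨Zf.bUn S fun y => suc y, (od_bUn fun y hy => ((od_sc x).el (h' y hy)).suc).mem_sc
    (hx.bUn _ h fun y hy => hx.ins (le_of_mem_sc (h' y hy)) y),
    fun y hy => mem_bUn.2 ⟨y, hy, self_mem_suc y⟩⟩

theorem Io.suc_mem {x y : M} (hx : Io x) (h : y ∈ Zf.sc x) : suc y ∈ Zf.sc x :=
  ((od_sc x).el h).suc.mem_sc (hx.ins (le_of_mem_sc h) y)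

/-- finite sequences -/
noncomputable def Sq (X : M) : M := bUn om fun n => funs n X

instance tm_Sq (a : (ℕ → M) → M) [Tm a] : Tm fun v => Sq (a v) := by
  unfold Sq; infer_instance

theorem mem_Sq {X t : M} :
    t ∈ Sq X ↔ IsF t ∧ dom t ∈ (om : M) ∧ ∀ i, i ∈ dom t → ap t i ∈ X := by
  simp only [Sq, mem_bUn, mem_funs]
  exact ⟨fun ⟨_, h1, h2, h3, h4⟩ => ⟨h2, h3 ▸ h1, h3 ▸ h4⟩,
    fun ⟨h1, h2, h3⟩ => ⟨_, h2, h1, rfl, h3⟩⟩

theorem emp_mem_Sq (X : M) : emp ∈ Sq X :=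
  mem_Sq.2 ⟨isF_emp, by rw [dom_emp]; exact emp_mem_om,
    fun i hi => (not_mem_emp i (by rwa [dom_emp] at hi)).elim⟩

theorem lam_mem_Sq {n X : M} {F : M → M} [Tm fun v => F (v 0)] (hn : n ∈ (om : M))
    (h : ∀ i, i ∈ n → F i ∈ X) : lam n F ∈ Sq X := mem_bUn.2 ⟨n, hn, lam_mem_funs h⟩

theorem Sq_mono {X Y : M} (h : Sub X Y) : Sub (Sq X) (Sq Y) := fun _ ht =>
  let ⟨h1, h2, h3⟩ := mem_Sq.1 ht; mem_Sq.2 ⟨h1, h2, fun i hi => h _ (h3 i hi)⟩

theorem res_mem_Sq {X t n : M} (ht : t ∈ Sq X) (hn : n ∈ suc (dom t)) : res t n ∈ Sq X := by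
  obtain ⟨h1, h2, h3⟩ := mem_Sq.1 ht
  have e := (od_om.el h2).sub_of_mem_suc hn
  refine mem_Sq.2 ⟨h1.res n, ?_, fun i hi => ?_⟩
  · rw [dom_res e]; exact od_om.tr (suc_mem_om h2) hn
  · rw [dom_res e] at hi; rw [ap_res _ hi]; exact h3 i (e i hi)

/-- appending one value -/
noncomputable def snoc (t x : M) : M := ins (op (dom t) x) t

instance tm_snoc (a b : (ℕ → M) → M) [Tm a] [Tm b] : Tm fun v => snoc (a v) (b v) := by
  unfold snoc; infer_instance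

theorem dom_snoc (t x : M) : dom (snoc t x) = suc (dom t) := dom_ins _ _ _

theorem sub_snoc (t x : M) : Sub t (snoc t x) := sub_ins _ _

theorem ap_snoc (t x : M) : ap (snoc t x) (dom t) = x := ap_ins (not_mem_self _)

theorem ap_snoc_lt (x : M) {t i : M} (h : i ∈ dom t) : ap (snoc t x) i = ap t i :=
  ap_ins_ne fun e => not_mem_self _ (e ▸ h)

theorem res_snoc (t x : M) {a : M} (h : Sub a (dom t)) : res (snoc t x) a = res t a :=
  res_ins fun g => not_mem_self _ (h _ g)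

theorem res_dom (t : M) : res t (dom t) = t := res_self Sub.rfl

theorem snoc_mem_Sq {X t x : M} (ht : t ∈ Sq X) (hx : x ∈ X) : snoc t x ∈ Sq X := by
  obtain ⟨h1, h2, h3⟩ := mem_Sq.1 ht
  refine mem_Sq.2 ⟨h1.ins (not_mem_self _) x, dom_snoc t x ▸ suc_mem_om h2, fun i hi => ?_⟩
  rcases mem_suc.1 (dom_snoc t x ▸ hi) with hi | rfl
  · rw [ap_snoc_lt x hi]; exact h3 i hi
  · rw [ap_snoc]; exact hx

theorem IsF.res_suc {t n : M} (h : IsF t) (hn : n ∈ dom t) (e : Sub n (dom t)) :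
    Zf.res t (suc n) = snoc (Zf.res t n) (ap t n) := by
  refine Zf.ext fun p => ?_
  rw [snoc, dom_res e]
  simp only [mem_res, mem_ins, mem_suc]
  constructor
  · rintro ⟨h1, h2 | h2⟩
    · exact Or.inl ⟨h1, h2⟩
    · exact Or.inr (h2 ▸ h p h1)
  · rintro (⟨h1, h2⟩ | rfl)
    · exact ⟨h1, Or.inl h2⟩
    · exact ⟨h.mem hn, Or.inr (fst_op _ _)⟩

theorem Io.Sq {t X : M} (ht : Io t) (h : Le X t) : Le (Sq X) t := by
  refine ht.bUn _ ht.le_om fun n hn => om_ind (fun n => Le (funs n X) t)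
    ((le_of_sub fun f hf => mem_ins.2 (Or.inr ?_)).trans (ht.ins (le_emp t) emp))
    (fun n _ ih => Le.trans (le_of_fn (fun f => op (res f n) (ap f n)) (fun f hf => ?_)
      fun f g hf hg e => ?_) (ht.prd ih h)) hn
  · exact eq_emp fun p hp => not_mem_emp _ ((mem_funs.1 hf).2.1 ▸ mem_dom.2 ⟨p, hp, rfl⟩)
  · obtain ⟨h1, h2, h3⟩ := mem_funs.1 hf
    exact op_mem_prd.2 ⟨mem_funs.2 ⟨h1.res n, dom_res (h2 ▸ sub_suc n), fun i hi => by
      rw [ap_res _ hi]; exact h3 i (sub_suc n i hi)⟩, h3 n (self_mem_suc n)⟩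
  · obtain ⟨h1, h2, -⟩ := mem_funs.1 hf
    obtain ⟨g1, g2, -⟩ := mem_funs.1 hg
    rw [← res_dom f, ← res_dom g, h2, g2, h1.res_suc (h2 ▸ self_mem_suc n) (h2 ▸ sub_suc n),
      g1.res_suc (g2 ▸ self_mem_suc n) (g2 ▸ sub_suc n), (op_inj e).1, (op_inj e).2]

end Pool.Agent.P.MP_5f3b23_lc.Zf
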