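import Pool.Agent.P.MP_2e9c36_lc.YMeas

set_option autoImplicit false

/-! Collapse conditions, meeting many dense sets, lower parts, very good points. -/

open Pool.Agent.Lib.PosetForcing

namespace Pool.Agent.P.MP_5f3b23_lc.Zf

universe v

variable {M : Type v} [Zm M]

/-- the section of a relation -/
noncomputable def lv (D s : M) : M := sep (sUn (sUn D)) fun x => op s x ∈ D

instance tm_lv (a b : (ℕ → M) → M) [Tm a] [Tm b] : Tm fun v => lv (a v) (b v) := by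
  unfold lv; infer_instance

theorem mem_lv {D s x : M} : x ∈ lv D s ↔ op s x ∈ D :=
  mem_sep.trans ⟨fun h => h.2, fun h => ⟨mem_sUn.2 ⟨upair s x, mem_sUn.2
    ⟨op s x, h, mem_upair.2 (Or.inr rfl)⟩, mem_upair.2 (Or.inr rfl)⟩, h⟩⟩

/-- compatibility of two triples -/
def Cmp (x y : M) : Prop :=
  fst x = fst y → (fst (snd x) = fst (snd y) ↔ snd (snd x) = snd (snd y))

instance df_cmp (a b : (ℕ → M) → M) [Tm a] [Tm b] : Df fun v => Cmp (a v) (b v) := by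
  unfold Cmp; infer_instance

theorem Cmp.symm {x y : M} (h : Cmp x y) : Cmp y x := fun e => by
  rw [eq_comm, h e.symm, eq_comm]

/-- the support of `c` lies below `b` -/
def Below (c b : M) : Prop := ∀ x, x ∈ c → fst x ∈ b

instance df_below (a b : (ℕ → M) → M) [Tm a] [Tm b] : Df fun v => Below (a v) (b v) := by
  unfold Below; infer_instance

/-- the supremum of the values -/
noncomputable def mx (t : M) : M := bUn (dom t) fun i => ap t i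

instance tm_mx (a : (ℕ → M) → M) [Tm a] : Tm fun v => mx (a v) := by
  unfold mx; infer_instance

/-- the largest point of a node, at least the second uncountable cardinal -/
noncomputable def tp (t : M) : M := un (sc (sc om)) (mx t)

instance tm_tp (a : (ℕ → M) → M) [Tm a] : Tm fun v => tp (a v) := by
  unfold tp; infer_instance

/-- the size bound for collapse conditions at a node -/
noncomputable def nu (t : M) : M := sc (tp t)

instance tm_nu (a : (ℕ → M) → M) [Tm a] : Tm fun v => nu (a v) := by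
  unfold nu; infer_instance

theorem sub_mx {t i : M} (h : i ∈ dom t) : Sub (ap t i) (mx t) := fun _ hx => mem_bUn.2 ⟨i, h, hx⟩

theorem mx_emp : mx (emp : M) = emp := eq_emp fun _ hx =>
  let ⟨i, hi, _⟩ := mem_bUn.1 hx; not_mem_emp i (by rwa [dom_emp] at hi)

theorem tp_emp : tp (emp : M) = sc (sc om) :=
  (un_sub Sub.rfl (by rw [mx_emp]; exact emp_sub _)).antisymm (sub_un_l _ _)

theorem mx_mono {s t : M} (ht : IsF t) (h : Sub s t) : Sub (mx s) (mx t) := fun _ hx =>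
  let ⟨i, hi, e⟩ := mem_bUn.1 hx
  mem_bUn.2 ⟨i, dom_mono h i hi, ht.ap_sub h hi ▸ e⟩

theorem tp_mono {s t : M} (ht : IsF t) (h : Sub s t) : Sub (tp s) (tp t) :=
  un_sub (sub_un_l _ _) ((mx_mono ht h).trans (sub_un_r _ _))

theorem nu_mono {s t : M} (ht : IsF t) (h : Sub s t) : Sub (nu s) (nu t) :=
  sc_mono (le_of_sub (tp_mono ht h))

theorem mx_snoc (t x : M) : mx (snoc t x) = un (mx t) x := ext fun z => by
  simp only [mx, mem_bUn, mem_un, dom_snoc, mem_suc]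
  constructor
  · rintro ⟨i, hi | rfl, e⟩
    · exact Or.inl ⟨i, hi, ap_snoc_lt x hi ▸ e⟩
    · exact Or.inr (ap_snoc t x ▸ e)
  · rintro (⟨i, hi, e⟩ | e)
    · exact ⟨i, Or.inl hi, (ap_snoc_lt x hi).symm ▸ e⟩
    · exact ⟨_, Or.inr rfl, (ap_snoc t x).symm ▸ e⟩

theorem seq_total {X s t u : M} (hu : IsF u) (hs : s ∈ Sq X) (ht : t ∈ Sq X) (h1 : Sub s u)
    (h2 : Sub t u) : Sub s t ∨ dom t ∈ dom s := by
  refine ((od_om.el (mem_Sq.1 hs).2.1).total (od_om.el (mem_Sq.1 ht).2.1)).imp_left fun h => ?_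
  rw [hu.eq_res h1, hu.eq_res h2]
  exact res_mono Sub.rfl h

theorem seq_sub {s t u : M} (hu : IsF u) (h1 : Sub s u) (h2 : Sub t u) (h : Sub (dom s) (dom t)) :
    Sub s t := by
  rw [hu.eq_res h1, hu.eq_res h2]
  exact res_mono Sub.rfl h

theorem od_dom {X t : M} (ht : t ∈ Sq X) : Od (dom t) := od_om.el (mem_Sq.1 ht).2.1

theorem res_lt_Sq {X t n : M} (ht : t ∈ Sq X) (hn : n ∈ dom t) : res t n ∈ Sq X :=
  res_mem_Sq ht (sub_suc _ _ hn)

theorem dom_res_lt {X t n : M} (ht : t ∈ Sq X) (hn : n ∈ dom t) : dom (res t n) = n :=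
  dom_res ((od_dom ht).1 n hn)

variable [NM M]

theorem Gd.mx {b t : M} (h : Gd b) (ht : t ∈ Sq (kk : M)) (e : t ∈ Vv b) : mx t ∈ b :=
  h.lt (od_bUn fun i hi => od_k.el ((mem_Sq.1 ht).2.2 i hi))
    (h.sUn (h.img (h.nat (mem_Sq.1 ht).2.1) fun i _ => h.ap e i))

theorem Gd.tp {b t : M} (h : Gd b) (ht : t ∈ Sq (kk : M)) (e : t ∈ Vv b) : tp t ∈ b :=
  un_mem h.od (h.sc (h.sc h.2.1)) (h.mx ht e)

theorem Gd.nu {b t : M} (h : Gd b) (ht : t ∈ Sq (kk : M)) (e : t ∈ Vv b) : nu t ∈ b :=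
  h.sc (h.tp ht e)

theorem sq_V {t : M} (ht : t ∈ Sq (kk : M)) : t ∈ Vv (kk : M) :=
  gd_k.seq ht fun i hi => gd_k.V ((mem_Sq.1 ht).2.2 i hi)

theorem tp_mem_k {t : M} (ht : t ∈ Sq (kk : M)) : tp t ∈ (kk : M) := gd_k.tp ht (sq_V ht)

theorem nu_mem_k {t : M} (ht : t ∈ Sq (kk : M)) : nu t ∈ (kk : M) := gd_k.nu ht (sq_V ht)

theorem io_tp {t : M} (ht : t ∈ Sq (kk : M)) : Io (tp t) :=
  io_om.sc.sc.mono (od_k.el (tp_mem_k ht)) (sub_un_l _ _)

theorem io_nu {t : M} (ht : t ∈ Sq (kk : M)) : Io (nu t) := (io_tp ht).sc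

theorem Gd.tp_snoc {b t : M} (h : Gd b) (ht : t ∈ Sq (kk : M)) (e : t ∈ Vv b) :
    Zf.tp (Zf.snoc t b) = b := by
  rw [Zf.tp, mx_snoc]
  exact (un_sub (h.od.1 _ (h.sc (h.sc h.2.1))) (un_sub (h.od.1 _ (h.mx ht e)) Sub.rfl)).antisymm
    ((sub_un_r _ _).trans (sub_un_r _ _))

/-- conditions of the collapse to the successor of `n` -/
def IsCol (n c : M) : Prop := (∀ x y, x ∈ c → y ∈ c → Cmp x y) ∧
  (∀ x, x ∈ c → ∃ g u e, x = op g (op u e) ∧ g ∈ (kk : M) ∧ u ∈ g ∧ e ∈ sc n) ∧ Le c n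

instance df_isCol (a b : (ℕ → M) → M) [Tm a] [Tm b] : Df fun v => IsCol (a v) (b v) := by
  unfold IsCol; infer_instance

theorem IsCol.sub {n c c' : M} (h : IsCol n c) (e : Sub c' c) : IsCol n c' :=
  ⟨fun x y hx hy => h.1 x y (e x hx) (e y hy), fun x hx => h.2.1 x (e x hx),
    (le_of_sub e).trans h.2.2⟩

theorem isCol_emp (n : M) : IsCol n emp :=
  ⟨fun x _ h => (not_mem_emp x h).elim, fun x h => (not_mem_emp x h).elim, le_emp n⟩

theorem isCol_of {n c : M} (h : ∀ x y, x ∈ c → y ∈ c → ∃ d, IsCol n d ∧ x ∈ d ∧ y ∈ d)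
    (e : Le c n) : IsCol n c :=
  ⟨fun x y hx hy => let ⟨_, g1, g2, g3⟩ := h x y hx hy; g1.1 x y g2 g3,
    fun x hx => let ⟨_, g1, g2, _⟩ := h x x hx hx; g1.2.1 x g2, e⟩

theorem IsCol.un {n c c' : M} (hn : Io n) (h : IsCol n c) (h' : IsCol n c')
    (e : ∀ x y, x ∈ c → y ∈ c' → Cmp x y) : IsCol n (un c c') := by
  refine ⟨fun x y hx hy => ?_, fun x hx => (mem_un.1 hx).elim (h.2.1 x) (h'.2.1 x),
    hn.un h.2.2 h'.2.2⟩
  rcases mem_un.1 hx with hx | hx <;> rcases mem_un.1 hy with hy | hy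
  exacts [h.1 x y hx hy, e x y hx hy, (e y x hy hx).symm, h'.1 x y hx hy]

theorem IsCol.fst_mem {n c x : M} (h : IsCol n c) (hx : x ∈ c) : fst x ∈ (kk : M) := by
  obtain ⟨g, u, e, rfl, h1, -⟩ := h.2.1 x hx
  rwa [fst_op]

theorem IsCol.V {n c b : M} (h : IsCol n c) (hb : Gd b) (hn : n ∈ b) (e : Below c b) :
    c ∈ Vv b := by
  refine hb.cl (fun x hx => ?_) (hb.V hn) h.2.2
  have := e x hx
  obtain ⟨g, u, e, rfl, -, h2, h3⟩ := h.2.1 x hx
  rw [fst_op] at this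
  exact hb.op (hb.V this) (hb.op (hb.V (hb.od.tr this h2)) (hb.V (hb.od.tr (hb.sc hn) h3)))

theorem IsCol.below {n c b : M} (h : IsCol n c) (hb : Gd b) (e : c ∈ Vv b) : Below c b := by
  intro x hx
  obtain ⟨g, u, e', rfl, h1, -⟩ := h.2.1 x hx
  rw [fst_op]
  exact hb.lt (od_k.el h1) (hb.op_inv (hb.el e hx)).1

theorem IsCol.Vk {n c : M} (h : IsCol n c) (hn : n ∈ (kk : M)) : c ∈ Vv (kk : M) :=
  h.V gd_k hn fun _ => h.fst_mem

theorem IsCol.ae_below {n c : M} (h : IsCol n c) (hn : n ∈ (kk : M)) : Ae fun b => Below c b :=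
  ((ae_V (h.Vk hn)).and ae_gd).mono fun _ _ g => h.below g.2 g.1

/-- valid assignments of collapse conditions to the elements of `S` -/
def Asg (S : M) (n : M → M) (Q : M → M → Prop) (D : M) : Prop :=
  Sub D (prd S (Vv kk)) ∧ ∀ s, s ∈ S → IsCol (n s) (lv D s) ∧ ∀ x, op s x ∈ D → Q s x

theorem meet_all (S : M) (n : M → M) [hn : Tm fun v => n (v 0)] (hio : ∀ s, s ∈ S → Io (n s))
    (Q : M → M → Prop) [D2 Q] {a : M} (ha : Od a) (Rel : M → M → Prop) [D2 Rel]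
    (hRel : ∀ s, s ∈ S → Le (sep a fun i => Rel i s) (n s)) (R : M → M → Prop) [D2 R]
    (mono : ∀ i D D', i ∈ a → (∀ s x, Rel i s → op s x ∈ D → op s x ∈ D') → R i D → R i D')
    (dense : ∀ i D, i ∈ a → Asg S n Q D → ∃ D', Asg S n Q D' ∧ Sub D D' ∧ R i D') {D : M}
    (hD : Asg S n Q D) : ∃ D', Asg S n Q D' ∧ Sub D D' ∧ ∀ i, i ∈ a → R i D' := by
  have : Fn1 n := ⟨hn⟩
  have : D1 (Asg S n Q) := ⟨by unfold Asg; infer_instance⟩
  obtain ⟨F, hF⟩ := ex_chain (pow (prd S (Vv kk)))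
    (fun i y => Asg S n Q y ∧ Sub D y ∧ (i ∈ a → R i y))
    (fun j x y => ∀ s z, Rel j s → op s z ∈ x → op s z ∈ y) ha.suc fun i F hi ih => by
      have hia := ha.sub_of_mem_suc hi
      have hio' : Od i := ha.suc.el hi
      have mB : ∀ s z, op s z ∈ un D (bUn i fun j => sep (ap F j) fun p => Rel j (fst p)) ↔
          op s z ∈ D ∨ ∃ j, j ∈ i ∧ op s z ∈ ap F j ∧ Rel j s := fun s z => by
        simp only [mem_un, mem_bUn, mem_sep, fst_op]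
      have hB : Asg S n Q (un D (bUn i fun j => sep (ap F j) fun p => Rel j (fst p))) := by
        refine ⟨un_sub hD.1 fun p hp => ?_, fun s hs => ⟨isCol_of (fun x y hx hy => ?_) ?_,
          fun x hx => ?_⟩⟩
        · obtain ⟨j, hj, h⟩ := mem_bUn.1 hp
          exact (ih j hj).2.1.1.1 p (mem_sep.1 h).1
        · rcases (mB _ _).1 (mem_lv.1 hx) with h1 | ⟨j, hj, h1, h2⟩ <;>
            rcases (mB _ _).1 (mem_lv.1 hy) with g1 | ⟨l, hl, g1, g2⟩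
          · exact ⟨_, (hD.2 s hs).1, mem_lv.2 h1, mem_lv.2 g1⟩
          · exact ⟨_, ((ih l hl).2.1.1.2 s hs).1, mem_lv.2 ((ih l hl).2.1.2.1 _ h1), mem_lv.2 g1⟩
          · exact ⟨_, ((ih j hj).2.1.1.2 s hs).1, mem_lv.2 h1, mem_lv.2 ((ih j hj).2.1.2.1 _ g1)⟩
          · rcases (hio'.el hj).tri (hio'.el hl) with e | e | e
            · exact ⟨_, ((ih l hl).2.1.1.2 s hs).1, mem_lv.2 ((ih l hl).2.2 j e s x h2 h1),
                mem_lv.2 g1⟩
            · exact ⟨_, ((ih l hl).2.1.1.2 s hs).1, mem_lv.2 (e ▸ h1), mem_lv.2 g1⟩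
            · exact ⟨_, ((ih j hj).2.1.1.2 s hs).1, mem_lv.2 h1,
                mem_lv.2 ((ih j hj).2.2 l e s y g2 g1)⟩
        · refine (le_of_sub fun x hx => mem_un.2 ?_).trans ((hio s hs).un (hD.2 s hs).1.2.2
            ((hio s hs).bUn (S := sep i fun j => Rel j s) (fun j => lv (ap F j) s)
              ((le_of_sub fun j hj => mem_sep.2 ⟨hia j (mem_sep.1 hj).1, (mem_sep.1 hj).2⟩).trans
                (hRel s hs)) fun j hj => ((ih j (mem_sep.1 hj).1).2.1.1.2 s hs).1.2.2))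
          exact ((mB _ _).1 (mem_lv.1 hx)).imp mem_lv.2 fun ⟨j, hj, h1, h2⟩ =>
            mem_bUn.2 ⟨j, mem_sep.2 ⟨hj, h2⟩, mem_lv.2 h1⟩
        · exact ((mB _ _).1 hx).elim ((hD.2 s hs).2 x) fun ⟨j, hj, h1, _⟩ =>
            ((ih j hj).2.1.1.2 s hs).2 x h1
      by_cases g : i ∈ a
      · obtain ⟨E, g1, g2, g3⟩ := dense i _ g hB
        exact ⟨E, mem_pow.2 g1.1, ⟨g1, (sub_un_l _ _).trans g2, fun _ => g3⟩,
          fun j hj s z h1 h2 => g2 _ ((mB _ _).2 (Or.inr ⟨j, hj, h2, h1⟩))⟩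
      · exact ⟨_, mem_pow.2 hB.1, ⟨hB, sub_un_l _ _, fun h => absurd h g⟩,
          fun j hj s z h1 h2 => (mB _ _).2 (Or.inr ⟨j, hj, h2, h1⟩)⟩
  obtain ⟨-, ⟨h1, h2, -⟩, h3⟩ := hF a (self_mem_suc a)
  exact ⟨_, h1, h2, fun i hi => mono i _ _ hi (h3 i hi) ((hF i (sub_suc a i hi)).2.1.2.2 hi)⟩

theorem meet_small (S : M) (n : M → M) [hn : Tm fun v => n (v 0)] (hio : ∀ s, s ∈ S → Io (n s))
    (Q : M → M → Prop) [D2 Q] {a X : M} (ha : Od a) (hX : Le X a) (Rel : M → Prop) [D1 Rel]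
    (hRel : ∀ s, s ∈ S → Rel s → Sub a (n s)) (R : M → M → Prop) [D2 R]
    (mono : ∀ i D D', i ∈ X → (∀ s x, Rel s → op s x ∈ D → op s x ∈ D') → R i D → R i D')
    (dense : ∀ i D, i ∈ X → Asg S n Q D → ∃ D', Asg S n Q D' ∧ Sub D D' ∧ R i D') {D : M}
    (hD : Asg S n Q D) : ∃ D', Asg S n Q D' ∧ Sub D D' ∧ ∀ i, i ∈ X → R i D' := by
  obtain ⟨e, e1, e2⟩ := hX
  obtain ⟨D', h1, h2, h3⟩ := meet_all S n hio Q ha (fun _ s => Rel s)
    (fun s hs => le_of_sub fun i hi => hRel s hs (mem_sep.1 hi).2 i (mem_sep.1 hi).1)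
    (fun i D => ∀ x, x ∈ X → ap e x = i → R x D)
    (fun i D D' _ g h x hx e => mono x D D' hx g (h x hx e)) (fun i D _ hD => by
      by_cases g : ∃ x, x ∈ X ∧ ap e x = i
      · obtain ⟨x, hx, g⟩ := g
        obtain ⟨D', g1, g2, g3⟩ := dense x D hx hD
        exact ⟨D', g1, g2, fun y hy k => e2 x y hx hy (g.trans k.symm) ▸ g3⟩
      · exact ⟨D, hD, Sub.rfl, fun x hx k => (g ⟨x, hx, k⟩).elim⟩) hD
  exact ⟨D', h1, h2, fun x hx => h3 _ (e1 x hx) x hx rfl⟩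

/-- lower parts at a node -/
def LowOK (t r : M) : Prop := (∀ p, p ∈ r → ∃ i x, p = op i x ∧ i ∈ dom t) ∧
  ∀ i, i ∈ dom t → IsCol (nu (res t i)) (lv r i) ∧ Below (lv r i) (ap t i)

instance df_lowOK (a b : (ℕ → M) → M) [Tm a] [Tm b] : Df fun v => LowOK (a v) (b v) := by
  unfold LowOK; infer_instance

theorem LowOK.V {t r b : M} (h : LowOK t r) (ht : t ∈ Sq (kk : M)) (hb : Gd b)
    (e : ∀ i, i ∈ dom t → res t i ∈ Vv b ∧ Sub (ap t i) b) : r ∈ Vv b := by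
  have k : ∀ i, i ∈ dom t → lv r i ∈ Vv b := fun i hi =>
    (h.2 i hi).1.V hb (hb.nu (res_lt_Sq ht hi) (e i hi).1) fun x hx => (e i hi).2 _ ((h.2 i hi).2 x hx)
  refine hb.sub (hb.sUn (hb.img (F := fun i => img (lv r i) fun x => op i x)
    (hb.nat (mem_Sq.1 ht).2.1) fun i hi => hb.img (k i hi) fun x hx =>
      hb.op (hb.nat (od_om.tr (mem_Sq.1 ht).2.1 hi)) (hb.el (k i hi) hx))) fun p hp => ?_
  obtain ⟨i, x, rfl, hi⟩ := h.1 p hp
  exact mem_bUn.2 ⟨i, hi, mem_img.2 ⟨x, mem_lv.2 hp, rfl⟩⟩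

theorem LowOK.V_snoc {t r b : M} (h : LowOK (snoc t b) r) (ht : t ∈ Sq (kk : M)) (hb : Gd b)
    (hk : b ∈ (kk : M)) (e : t ∈ Vv b) : r ∈ Vv b := by
  refine h.V (snoc_mem_Sq ht hk) hb fun i hi => ?_
  rw [dom_snoc] at hi
  rw [res_snoc _ _ ((od_dom ht).sub_of_mem_suc hi)]
  refine ⟨hb.sub e (res_sub _ _), ?_⟩
  rcases mem_suc.1 hi with hi | rfl
  · rw [ap_snoc_lt _ hi]
    exact (sub_mx hi).trans (hb.od.1 _ (hb.mx ht e))
  · rw [ap_snoc]; exact Sub.rfl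

theorem lowOK_snoc {t r b : M} (ht : t ∈ Sq (kk : M)) : LowOK (snoc t b) r ↔
    (∀ p, p ∈ r → ∃ i x, p = op i x ∧ i ∈ suc (dom t)) ∧
    (∀ i, i ∈ dom t → IsCol (nu (res t i)) (lv r i) ∧ Below (lv r i) (ap t i)) ∧
    IsCol (nu t) (lv r (dom t)) ∧ Below (lv r (dom t)) b := by
  rw [LowOK, dom_snoc]
  refine and_congr_right fun _ => ⟨fun h => ⟨fun i hi => ?_, ?_⟩, fun h i hi => ?_⟩
  · have := h i (sub_suc _ i hi)
    rwa [res_snoc _ _ ((od_dom ht).1 i hi), ap_snoc_lt _ hi] at this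
  · have := h _ (self_mem_suc _)
    rwa [res_snoc _ _ Sub.rfl, res_dom, ap_snoc] at this
  · rcases mem_suc.1 hi with hi | rfl
    · rw [res_snoc _ _ ((od_dom ht).1 i hi), ap_snoc_lt _ hi]; exact h.1 i hi
    · rw [res_snoc _ _ Sub.rfl, res_dom, ap_snoc]; exact h.2

/-- among `l` many lower parts at `t` coloured below `a`, two compatible ones share a colour -/
def Pigeon (t l a : M) : Prop := ∀ f, (∀ y, y ∈ l → LowOK t (fst (ap f y)) ∧ snd (ap f y) ∈ a) →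
  ∃ y y', y ∈ l ∧ y' ∈ l ∧ y ≠ y' ∧ snd (ap f y) = snd (ap f y') ∧
    LowOK t (un (fst (ap f y)) (fst (ap f y')))

instance df_pigeon (a b c : (ℕ → M) → M) [Tm a] [Tm b] [Tm c] :
    Df fun v => Pigeon (a v) (b v) (c v) := by
  unfold Pigeon; infer_instance

omit [NM M] in
theorem lv_un (r r' i : M) : lv (un r r') i = un (lv r i) (lv r' i) :=
  ext fun x => by simp only [mem_lv, mem_un]

theorem ae_pigeon {t a : M} (ht : t ∈ Sq (kk : M)) (ha : a ∈ (kk : M)) :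
    Ae fun b => Pigeon (snoc t b) b a := by
  by_contra hn
  have h1 := (ae_not hn).and (ae_gd.and ((ae_V (sq_V ht)).and (ae_gt ha)))
  obtain ⟨f, hf⟩ := chs' kk (fun b => ¬ Pigeon (snoc t b) b a) (fun b f =>
      (∀ y, y ∈ b → LowOK (snoc t b) (fst (ap f y)) ∧ snd (ap f y) ∈ a) ∧
      ¬ ∃ y y', y ∈ b ∧ y' ∈ b ∧ y ≠ y' ∧ snd (ap f y) = snd (ap f y') ∧
        LowOK (snoc t b) (un (fst (ap f y)) (fst (ap f y')))) fun b _ h => by
    by_contra k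
    exact h fun f g => not_not.1 fun g' => k ⟨f, g, g'⟩
  obtain ⟨r, hr⟩ := chs kk (fun y w => w ∈ Vv (kk : M) ∧
      Ae fun b => op (fst (ap (ap f b) y)) (snd (ap (ap f b) y)) = w) fun y hy =>
    press (fun b => op (fst (ap (ap f b) y)) (snd (ap (ap f b) y)))
      ((h1.and (ae_gt hy)).mono fun b hb ⟨⟨g1, g2, g3, g4⟩, g5⟩ =>
        g2.op (((hf b hb g1).1 y g5).1.V_snoc ht g2 hb g3)
          (g2.V (g2.od.tr g4 ((hf b hb g1).1 y g5).2)))
  have hr' : ∀ y, y ∈ (kk : M) → Ae fun b => fst (ap (ap f b) y) = fst (ap r y) ∧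
      snd (ap (ap f b) y) = snd (ap r y) := fun y hy =>
    (hr y hy).2.mono fun b _ e => by rw [← e, fst_op, snd_op]; exact ⟨rfl, rfl⟩
  have h3 : ∀ y, y ∈ (kk : M) → snd (ap r y) ∈ a ∧ ∃ b, LowOK (snoc t b) (fst (ap r y)) :=
    fun y hy => by
      obtain ⟨b, hb, g1, g2, g3, g4⟩ := (h1.and ((ae_gt hy).and (hr' y hy))).ex
      exact ⟨g4 ▸ ((hf b hb g1.1).1 y g2).2, b, g3 ▸ ((hf b hb g1.1).1 y g2).1⟩
  obtain ⟨w, -, hw⟩ := press (fun y => op (snd (ap r y))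
      (sep (fst (ap r y)) fun p => fst p = dom t → fst (snd p) ∈ y))
    (h1.mono fun y hy ⟨_, g2, g3, g4⟩ => by
      obtain ⟨k1, b, k2⟩ := h3 y hy
      obtain ⟨k2, k3, k4, -⟩ := (lowOK_snoc ht).1 k2
      refine g2.op (g2.V (g2.od.tr g4 k1)) (LowOK.V_snoc ((lowOK_snoc ht).2
        ⟨fun p hp => k2 p (mem_sep.1 hp).1, fun i hi => ⟨(k3 i hi).1.sub ?_,
          fun x hx => (k3 i hi).2 x ?_⟩, k4.sub ?_, fun x hx => ?_⟩) ht g2 hy g3)
      · exact fun x hx => mem_lv.2 (mem_sep.1 (mem_lv.1 hx)).1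
      · exact mem_lv.2 (mem_sep.1 (mem_lv.1 hx)).1
      · exact fun x hx => mem_lv.2 (mem_sep.1 (mem_lv.1 hx)).1
      · simpa using (mem_sep.1 (mem_lv.1 hx)).2)
  obtain ⟨y, hy, a1⟩ := hw.ex
  obtain ⟨-, b1, c1⟩ := h3 y hy
  obtain ⟨c1, c2, c3, -⟩ := (lowOK_snoc ht).1 c1
  obtain ⟨z, hz, a2, a3, a4⟩ := (hw.and ((ae_gt hy).and (c3.ae_below (nu_mem_k ht)))).ex
  obtain ⟨-, b2, d1⟩ := h3 z hz
  obtain ⟨d1, d2, d3, -⟩ := (lowOK_snoc ht).1 d1
  obtain ⟨e1, e2⟩ := op_inj (a1.trans a2.symm)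
  have e3 : ∀ i x, op i x ∈ fst (ap r z) → (i = dom t → fst x ∈ z) → op i x ∈ fst (ap r y) :=
    fun i x g1 g2 => (mem_sep.1 (e2 ▸ mem_sep.2 ⟨g1, by simpa using g2⟩ :
      op i x ∈ sep (fst (ap r y)) fun p => fst p = dom t → fst (snd p) ∈ y)).1
  have h5 : IsCol (nu t) (un (lv (fst (ap r y)) (dom t)) (lv (fst (ap r z)) (dom t))) :=
    c3.un (io_nu ht) d3 fun x x' hx hx' e =>
      c3.1 x x' hx (mem_lv.2 (e3 _ _ (mem_lv.1 hx') fun _ => e ▸ a4 x hx)) e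
  obtain ⟨b, hb, g1, g2, g3, g4, g5⟩ := (h1.and ((ae_gt hz).and ((hr' y hy).and ((hr' z hz).and
    (h5.ae_below (nu_mem_k ht)))))).ex
  refine (hf b hb g1.1).2 ⟨y, z, (od_k.el hb).tr g2 a3, g2, fun e => not_mem_self z (e ▸ a3),
    by rw [g3.2, g4.2, e1], ?_⟩
  rw [g3.1, g4.1]
  refine (lowOK_snoc ht).2 ⟨fun p hp => (mem_un.1 hp).elim (c1 p) (d1 p), fun i hi => ?_,
    by rw [lv_un]; exact h5, by rw [lv_un]; exact g5⟩
  have e4 : Sub (lv (un (fst (ap r y)) (fst (ap r z))) i) (lv (fst (ap r y)) i) := fun x hx =>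
    mem_lv.2 ((mem_un.1 (mem_lv.1 hx)).elim id fun g => e3 _ _ g fun e =>
      (not_mem_self _ (e ▸ hi)).elim)
  exact ⟨(c2 i hi).1.sub e4, fun x hx => (c2 i hi).2 x (e4 x hx)⟩

theorem pigeon_of_count {t l a L : M} (ha : Io a) (hL : Le L a) (h : ∀ r, LowOK t r → r ∈ L)
    (hl : ¬ Le l a) : Pigeon t l a := fun f hf => by
  by_contra hn
  refine hl (Le.trans (le_of_fn (fun y => op (fst (ap f y)) (snd (ap f y)))
    (fun y hy => op_mem_prd.2 ⟨h _ (hf y hy).1, (hf y hy).2⟩) fun y z hy hz e => ?_)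
    (ha.prd hL Le.rfl))
  by_contra k
  refine hn ⟨y, z, hy, hz, k, (op_inj e).2, ?_⟩
  rw [← (op_inj e).1, (un_sub Sub.rfl Sub.rfl).antisymm (sub_un_l _ _)]
  exact (hf y hy).1

/-- very good points -/
def VG (b : M) : Prop :=
  Gd b ∧ ∀ t, t ∈ Vv b → t ∈ Sq (kk : M) → Pigeon (snoc t b) b (sc (nu t))

instance df_vg (a : (ℕ → M) → M) [Tm a] : Df fun v => VG (a v) := by
  unfold VG; infer_instance

theorem ae_vg : Ae fun b : M => VG b :=
  ae_gd.and (diag (fun t b => t ∈ Sq (kk : M) → Pigeon (snoc t b) b (sc (nu t))) fun _ _ =>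
    ae_imp fun ht => ae_pigeon ht (sc_mem_k (nu_mem_k ht)))

end Pool.Agent.P.MP_5f3b23_lc.Zf
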