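import Pool.Agent.P.MP_2e9c36_lc.Defs

set_option autoImplicit false

/-! Measurable cardinals written inside a structure `(M, mem)`; all quantifiers range over `M`. -/

open Pool.Agent.Lib.PosetForcing

namespace Pool.Agent.P.MP_2e9c36_lc

universe v

variable {M : Type v} (mem : M → M → Prop)

/-- `U` is a `k`-complete nonprincipal ultrafilter on `k` -/
def IsMeasure (U k : M) : Prop :=
  (∀ A, mem A U → IsSub mem A k) ∧ mem k U ∧ (∀ A, mem A U → ∃ x, mem x A) ∧
    (∀ A B, mem A U → IsSub mem A B → IsSub mem B k → mem B U) ∧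
    (∀ A B C, mem A U → mem B U → (∀ x, mem x C ↔ mem x A ∧ mem x B) → mem C U) ∧
    (∀ A B, IsSub mem A k → (∀ x, mem x B ↔ mem x k ∧ ¬ mem x A) → mem A U ∨ mem B U) ∧
    (∀ S A, IsSub mem S U → LeCard mem S k → ¬ LeCard mem k S →
      (∀ x, mem x A ↔ mem x k ∧ ∀ s, mem s S → mem x s) → mem A U) ∧
    ∀ x A, (∀ y, mem y A ↔ y = x) → ¬ mem A U

/-- `k` is a measurable cardinal: an ordinal (a transitive set of transitive sets) above `ω` that
injects into no smaller ordinal and carries a `k`-complete nonprincipal ultrafilter -/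
def IsMeasurable (k : M) : Prop :=
  (∀ z, mem z k → IsSub mem z k) ∧ (∀ z z', mem z k → mem z' z → IsSub mem z' z) ∧
    (∀ b, mem b k → ¬ LeCard mem k b) ∧ (∃ w, IsOmega mem w ∧ mem w k) ∧ ∃ U, IsMeasure mem U k

end Pool.Agent.P.MP_2e9c36_lc
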