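import Pool.Agent.P.MP_2e9c36_lc.YGen
import Pool.Agent.P.MP_2e9c36_lc.YComb

set_option autoImplicit false
set_option synthInstance.maxSize 4000

/-! The cardinals of the extension. -/

open Pool.Agent.Lib.PosetForcing

namespace Pool.Agent.P.MP_5f3b23_lc.Zf

universe v

variable {M : Type v} [Zm M] [NM M]

theorem count_emp (r : M) (h : LowOK emp r) : r ∈ suc (emp : M) :=
  mem_suc.2 (Or.inr (eq_emp fun p hp => let ⟨i, _, _, g⟩ := h.1 p hp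
    not_mem_emp i (by rwa [dom_emp] at g)))

theorem Inc.tp_suc {s i : M} (h : Inc s) (hi : i ∈ dom s) : tp (res s (suc i)) = ap s i := by
  rw [h.isF.res_suc hi (h.od.1 i hi), (h.2 i hi).2.1.tp_snoc (res_lt_Sq h.1 hi) (h.2 i hi).1]

theorem Inc.count {t : M} (h : Inc t) : ∃ L, Le L (tp t) ∧ ∀ r, LowOK t r → r ∈ L := by
  rcases om_cases' (mem_Sq.1 h.1).2.1 with e | ⟨n, -, e⟩
  · obtain rfl : t = emp := eq_emp fun z hz => not_mem_emp _ (e ▸ mem_dom.2 ⟨z, hz, rfl⟩)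
    exact ⟨_, (io_tp h.1).ins (le_emp _) emp, count_emp⟩
  · have hn : n ∈ dom t := e ▸ self_mem_suc n
    have e1 := h.tp_suc hn
    have e2 := h.isF.res_suc hn (h.od.1 n hn)
    rw [← e, res_dom] at e1 e2
    exact ⟨_, e1 ▸ (h.2 n hn).2.1.cnt, fun r hr => LowOK.V_snoc (e2 ▸ hr) (res_lt_Sq h.1 hn)
      (h.2 n hn).2.1 ((mem_Sq.1 h.1).2.2 n hn) (h.2 n hn).1⟩

theorem ex_col {p i z u : M} (hp : p ∈ (PPs : M)) (hi : i ∈ dom (ps p)) (hz : z ∈ ap (ps p) i)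
    (hu : u ∈ z) : ∃ q, q ≤ p ∧ ∃ e, op (res (ps p) i) (op z (op u e)) ∈ pc q := by
  by_cases h : ∃ e, op (res (ps p) i) (op z (op u e)) ∈ pc p
  · exact ⟨p, prefl hp, h⟩
  obtain ⟨h1, -, h2, -, h3⟩ := cond_of hp
  have ht := res_lt_Sq h1.1 hi
  have hc := h2.2 _ ht
  obtain ⟨e, e1, e2⟩ : ∃ e, e ∈ sc (nu (res (ps p) i)) ∧
      ¬ ∃ x, x ∈ lv (pc p) (res (ps p) i) ∧ e = snd (snd x) := by
    by_contra hn
    exact not_le_sc _ ((le_of_surj (fun x => snd (snd x)) fun e he =>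
      not_not.1 fun g => hn ⟨e, he, g⟩).trans hc.2.2)
  obtain ⟨c, c1, c2⟩ := col0_sep (fun t x => op t x ∈ pc p ∨
      (t = res (ps p) i ∧ x = op z (op u e))) fun t ht' => by
    by_cases g : t = res (ps p) i
    · subst g
      have m : ∀ x, x ∈ upair (op z (op u e)) (op z (op u e)) → x = op z (op u e) := fun x hx =>
        (mem_upair.1 hx).elim id id
      refine ⟨_, hc.un (io_nu ht) ⟨fun x y hx hy _ => by rw [m x hx, m y hy]; simp, fun x hx =>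
        ⟨z, u, e, m x hx, od_k.tr ((mem_Sq.1 h1.1).2.2 i hi) hz, hu, e1⟩, (io_nu ht).upair _ _⟩
        fun x y hx hy g => ?_, fun x hx => mem_ins.2 (hx.imp mem_lv.2 fun k => k.2)⟩
      obtain rfl := m y hy
      obtain ⟨a, b, d, rfl, -⟩ := hc.2.1 x hx
      simp only [fst_op, snd_op] at g ⊢
      exact iff_of_false (fun k => h ⟨d, g ▸ k ▸ mem_lv.1 hx⟩) fun k => e2 ⟨_, hx, by simp [k]⟩
    · exact ⟨_, h2.2 t ht', fun x hx => mem_lv.2 (hx.resolve_right fun k => g k.1)⟩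
  obtain ⟨q, q1, -, q3, -⟩ := ex_strong hp c1 (fun j hj x hx => ((c2 _ x).1 (mem_lv.1 hx)).2.elim
    (fun g => h3 j hj x (mem_lv.2 g)) fun g => by
      rw [g.2, fst_op, ← dom_res_lt h1.1 hj, g.1, dom_res_lt h1.1 hi]; exact hz)
    (ae_of_all fun _ _ => trivial) fun t x g g' => (c2 t x).2 ⟨g.sq, Or.inl g'⟩
  exact ⟨q, q1, e, q3 ▸ (c2 _ _).2 ⟨ht, Or.inr ⟨rfl, rfl⟩⟩⟩

variable [Countable M] {U : Gen M}

theorem not_le_jj {p t l a L : M} (hp : U.G p) (ht : t ∈ Sq (kk : M)) (e : Sub t (ps p))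
    (ha : Le a (nu t)) (hL : Le L (nu t)) (hL' : ∀ r, LowOK t r → r ∈ L) (hl : l ∈ (kk : M))
    (pig : Pigeon t l a) : ¬ Le (jj U l) (jj U a) := fun h => by
  obtain ⟨j, hj⟩ := leCard_iff.2 h
  obtain ⟨f, rfl⟩ := j.ex
  obtain ⟨p1, h1, h2⟩ := (cl_ud fun _ mem v => IsInj mem (v 0) (v 1) (v 2)).truth
    (v := cons f (cons (chk l) fun _ => chk a)) hj
  obtain ⟨r, -, r1, r2⟩ := U.dir hp h1
  have dE : D3 fun y i q : M => Forces q fun W => App Ext.mem (val f W) (jj W y) (jj W i) :=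
    ⟨df_forces (fun _ mem v => App mem (v 0) (v 1) (v 2)) (fun v => v 2) (fun _ => f)
      (fun v => chk (v 0)) (fun v => chk (v 1)) fun v => v 0⟩
  refine no_inj (le_l r1) ht (e.trans (le_s r1)) ha hL hL' hl pig
    (fun y i q => Forces q fun W => App Ext.mem (val f W) (jj W y) (jj W i))
    (fun _ _ _ _ g k => k.mono g) (fun y q hy hq => ex_force
      (fun _ mem v => App mem (v 0) (v 1) (v 2)) (le_l hq)
      (fun i => cons f (cons (chk y) fun _ => chk i)) fun W hW => ?_) fun y y' i q hq g g' => ?_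
  · have k : IsFun mm (val f W) (jj W l) (jj W a) := (h2 W (W.up hW (ftr hq r2))).1
    obtain ⟨i, hi, e⟩ := mem_jj.1 (fun_mem k (jj_mem.2 hy))
    exact ⟨i, hi, (fun_app k).2 ⟨jj_mem.2 hy, e.symm⟩⟩
  · obtain ⟨W, hW⟩ := ex_gen (le_l hq)
    exact jj_inj ((h2 W (W.up hW (ftr hq r2))).2 _ _ _ (g W hW) (g' W hW))

theorem sc_jj {p t x L : M} (hp : U.G p) (ht : t ∈ Sq (kk : M)) (e : Sub t (ps p)) (hx : Io x)
    (h : Sub x (nu t)) (hL : Le L x) (hL' : ∀ r, LowOK t r → r ∈ L) :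
    sc (jj U x) = jj U (sc x) :=
  sc_eq (jj_od (od_sc x)) (not_le_jj hp ht e (le_of_sub h) (hL.trans (le_of_sub h)) hL'
    (sc_mem_k (hx.1.mem_of_sub od_k h (nu_mem_k ht))) (pigeon_of_count hx hL hL' (not_le_sc x)))
    fun _ hz => let ⟨_, g1, g2⟩ := mem_jj.1 hz; g2 ▸ jj_le (le_of_mem_sc g1)

theorem sc_tp {p t : M} (hp : U.G p) (ht : t ∈ Sq (kk : M)) (e : Sub t (ps p)) :
    sc (jj U (tp t)) = jj U (nu t) ∧ sc (jj U (nu t)) = jj U (sc (nu t)) :=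
  let ⟨_, h1, h2⟩ := ((cond_of (U.mem hp)).1.sub ht e).count
  ⟨sc_jj hp ht e (io_tp ht) (io_tp ht).1.sub_sc h1 h2,
    sc_jj hp ht e (io_nu ht) Sub.rfl (h1.trans (le_of_sub (io_tp ht).1.sub_sc)) h2⟩

theorem sc_om (U : Gen M) : sc (om : Ext U) = jj U (sc om) ∧
    sc (sc (om : Ext U)) = jj U (tp emp) := by
  have h : Sub (sc om) (nu (emp : M)) := by
    rw [nu, tp_emp]; exact (od_sc _).sub_sc.trans (od_sc _).sub_sc
  have h1 := sc_jj U.top (emp_mem_Sq _) (emp_sub _) io_om (od_om.sub_sc.trans h)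
    (io_om.ins (le_emp _) emp) count_emp
  rw [jj_om] at h1
  rw [h1, tp_emp]
  exact ⟨rfl, sc_jj U.top (emp_mem_Sq _) (emp_sub _) io_om.sc h (io_om.sc.ins (le_emp _) emp)
    count_emp⟩

theorem sc_col {p i : M} (hp : U.G p) (hi : i ∈ dom (ps p)) :
    sc (jj U (sc (nu (res (ps p) i)))) = jj U (tp (res (ps p) (suc i))) := by
  have h1 := (cond_of (U.mem hp)).1
  have ht := res_lt_Sq h1.1 hi
  have hs := res_mem_Sq h1.1 ((h1.od.el hi).suc.mem_suc h1.od (h1.od.suc_sub hi))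
  obtain ⟨g1, g2⟩ := h1.2 i hi
  obtain ⟨L, l1, l2⟩ := (h1.sub hs (res_sub _ _)).count
  have e := h1.tp_suc hi
  refine sc_eq (jj_od (io_tp hs).1) (not_le_jj hp hs (res_sub _ _) (le_of_sub ((g2.1.od.1 _
    (g2.1.sc (g2.1.nu ht g1))).trans (e ▸ (io_tp hs).1.sub_sc)))
    (l1.trans (le_of_sub (io_tp hs).1.sub_sc)) l2 (tp_mem_k hs) ?_) fun z hz => ?_
  · rw [e, h1.isF.res_suc hi (h1.od.1 i hi)]
    exact g2.2 _ g1 ht
  obtain ⟨z, hz', rfl⟩ := mem_jj.1 hz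
  rw [e] at hz'
  obtain ⟨J, hJ⟩ := ex_gset U (prd z (sc (nu (res (ps p) i))))
    fun q x => q ≤ p ∧ op (res (ps p) i) (op z x) ∈ pc q
  have k : ∀ q, q ≤ p → In q (res (ps p) i) := fun q hq =>
    Or.inl ⟨ht, (res_sub _ _).trans (le_s hq)⟩
  refine le_of_rel (R := J) (fun x hx => ?_) fun x x' y h h' => ?_
  · obtain ⟨u, hu, rfl⟩ := mem_jj.1 hx
    obtain ⟨q, q1, q2, d, q3⟩ := U.below (fun q => ∃ d, op (res (ps p) i) (op z (op u d)) ∈ pc q)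
      hp fun q hq => by
        have := ex_col (le_l hq) (dom_mono (le_s hq) i hi)
          ((cond_of (le_l hq)).1.isF.ap_sub (le_s hq) hi ▸ hz') hu
        rwa [← (cond_of (le_l hq)).1.isF.res_sub_eq (le_s hq) (h1.od.1 i hi)] at this
    obtain ⟨a, b, c, e1, -, -, e2⟩ := ((cond_of (le_l q2)).2.2.1.2 _ ht).2.1 _ (mem_lv.2 q3)
    rw [← (op_inj (op_inj e1).2).2] at e2
    exact ⟨jj U d, jj_mem.2 e2, (hJ _).2 ⟨op u d, op_mem_prd.2 ⟨hu, e2⟩, (jj_op u d).symm,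
      q, q1, q2, q3⟩⟩
  · obtain ⟨a, a1, a2, q, q1, q2, q3⟩ := (hJ _).1 h
    obtain ⟨b, b1, b2, r, r1, r2, r3⟩ := (hJ _).1 h'
    obtain ⟨u, d, -, -, rfl⟩ := mem_prd.1 a1
    obtain ⟨u', d', -, -, rfl⟩ := mem_prd.1 b1
    rw [jj_op] at a2 b2
    obtain ⟨s, -, s1, s2⟩ := U.dir q1 r1
    have c := ((cond_of (le_l s1)).2.2.1.2 _ ht).1 _ _ (mem_lv.2 (le_c s1 (k s (ftr s1 q2)) q3))
      (mem_lv.2 (le_c s2 (k s (ftr s1 q2)) r3)) (by simp)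
    simp only [fst_op, snd_op] at c
    rw [(op_inj a2).1, (op_inj b2).1, c.2 (jj_inj ((op_inj a2).2.symm.trans (op_inj b2).2))]

theorem aleph_cases {w w1 a l E n x : Ext U} (h : Obj mm w w1 a l E) (hn : op n x ∈ a)
    (hx : sc om ∈ x) : ∃ p t, U.G p ∧ t ∈ Sq (kk : M) ∧ Sub t (ps p) ∧
      ((n ∈ E ∧ x = jj U (tp t)) ∨
        (n ∉ E ∧ ∃ e, e ∈ (om : M) ∧ x = jj U (sc (ph e (tp t))))) := by
  obtain ⟨-, -, h1, h2, h3, -, h4, h5, h6, h7⟩ := h.spec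
  obtain ⟨hn', rfl⟩ := (h1 n x).1 hn
  clear hn
  obtain ⟨X, hX⟩ := ex_gset U kk fun p x => ∃ t, t ∈ Sq (kk : M) ∧ Sub t (ps p) ∧ x = tp t
  obtain ⟨Y, hY⟩ := ex_gset U kk fun p x => ∃ t, t ∈ Sq (kk : M) ∧ Sub t (ps p) ∧ x = nu t
  obtain ⟨Z, hZ⟩ := ex_gset U kk fun p x => ∃ t, t ∈ Sq (kk : M) ∧ Sub t (ps p) ∧ x = sc (nu t)
  have key : ∀ m, m ∈ (om : Ext U) → (suc (suc m) ∈ E ∧ suc m ∉ E ∧ m ∉ E ∧
      ap a (suc (suc m)) ∈ X) ∨ (suc (suc m) ∉ E ∧ suc m ∈ E ∧ m ∉ E ∧ ap a (suc (suc m)) ∈ Y) ∨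
      (suc (suc m) ∉ E ∧ suc m ∉ E ∧ m ∈ E ∧ ap a (suc (suc m)) ∈ Z) := fun m hm =>
    om_ind (fun m => (suc (suc m) ∈ E ∧ suc m ∉ E ∧ m ∉ E ∧ ap a (suc (suc m)) ∈ X) ∨
      (suc (suc m) ∉ E ∧ suc m ∈ E ∧ m ∉ E ∧ ap a (suc (suc m)) ∈ Y) ∨
      (suc (suc m) ∉ E ∧ suc m ∉ E ∧ m ∈ E ∧ ap a (suc (suc m)) ∈ Z))
      (Or.inl ⟨h6, h5, h4, by
        rw [h3 _ (suc_mem_om emp_mem_om), h3 _ emp_mem_om, h2, (sc_om U).2]
        exact (hX _).2 ⟨_, tp_mem_k (emp_mem_Sq _), rfl, _, U.top, emp, emp_mem_Sq _,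
          emp_sub _, rfl⟩⟩) (fun m hm ih => by
      rw [h3 _ (suc_mem_om (suc_mem_om hm)), h7 m hm]
      rcases ih with ⟨g1, g2, g3, g⟩ | ⟨g1, g2, g3, g⟩ | ⟨g1, g2, g3, g⟩
      · obtain ⟨_, -, e, p, hp, t, t1, t2, rfl⟩ := (hX _).1 g
        exact Or.inr (Or.inl ⟨g3, g1, g2, (hY _).2 ⟨_, nu_mem_k t1, e ▸ (sc_tp hp t1 t2).1, p, hp,
          t, t1, t2, rfl⟩⟩)
      · obtain ⟨_, -, e, p, hp, t, t1, t2, rfl⟩ := (hY _).1 g
        exact Or.inr (Or.inr ⟨g3, g1, g2, (hZ _).2 ⟨_, sc_mem_k (nu_mem_k t1),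
          e ▸ (sc_tp hp t1 t2).2, p, hp, t, t1, t2, rfl⟩⟩)
      · obtain ⟨_, -, e, p, hp, t, t1, t2, rfl⟩ := (hZ _).1 g
        obtain ⟨q, q1, q2, q3⟩ := U.below (fun q => Sub (suc (dom t)) (dom (ps q))) hp
          fun q hq => ex_long (le_l hq) (suc_mem_om (mem_Sq.1 t1).2.1)
        have k := (cond_of (le_l q2)).1
        have k1 := res_mem_Sq k.1 ((od_dom t1).suc.mem_suc k.od q3)
        have k2 := sc_col q1 (q3 _ (self_mem_suc _))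
        rw [← k.isF.eq_res (t2.trans (le_s q2))] at k2
        exact Or.inl ⟨g3, g1, g2, (hX _).2 ⟨_, tp_mem_k k1, e ▸ k2, q, q1, _, k1, res_sub _ _, rfl⟩⟩)
      hm
  rcases om_cases' hn' with rfl | ⟨n, hn, rfl⟩
  · exact (od_om.asymm (h2 ▸ hx) od_om.lt_sc).elim
  rcases om_cases' hn with rfl | ⟨n, hm, rfl⟩
  · exact (not_mem_self _ (by rwa [h3 _ emp_mem_om, h2] at hx)).elim
  rcases key n hm with ⟨g1, -, -, g⟩ | ⟨g1, -, -, g⟩ | ⟨g1, -, -, g⟩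
  · obtain ⟨_, -, e, p, hp, t, t1, t2, rfl⟩ := (hX _).1 g
    exact ⟨p, t, hp, t1, t2, Or.inl ⟨g1, e⟩⟩
  · obtain ⟨_, -, e, p, hp, t, t1, t2, rfl⟩ := (hY _).1 g
    exact ⟨p, t, hp, t1, t2, Or.inr ⟨g1, emp, emp_mem_om, by rw [e, ph, cnd_pos rfl, nu]⟩⟩
  · obtain ⟨_, -, e, p, hp, t, t1, t2, rfl⟩ := (hZ _).1 g
    exact ⟨p, t, hp, t1, t2, Or.inr ⟨g1, _, suc_mem_om emp_mem_om, by
      rw [e, ph, cnd_neg (suc_ne_emp _), nu]⟩⟩

theorem sup_eq {w w1 a l E : Ext U} (h : Obj mm w w1 a l E) : l = jj U kk := by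
  obtain ⟨-, -, h1, h2, h3, h4, -⟩ := h.spec
  refine ext fun x => (h4 x).trans ⟨fun ⟨n, hn, hx⟩ => (jj_od od_k).tr ?_ hx, fun hx => ?_⟩
  · by_cases g : sc om ∈ ap a n
    · obtain ⟨p, t, -, t1, -, ⟨-, e⟩ | ⟨-, _, -, e⟩⟩ := aleph_cases h ((h1 _ _).2 ⟨hn, rfl⟩) g
      · exact e ▸ jj_mem.2 (tp_mem_k t1)
      · exact e ▸ jj_mem.2 (sc_mem_k (ph_tp _ t1).1)
    · have o : Od (ap a n) := by
        rcases om_cases' hn with rfl | ⟨m, hm, rfl⟩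
        exacts [h2 ▸ od_om, h3 m hm ▸ od_sc _]
      exact o.mem_of_sub (jj_od od_k) (o.sub_of_not_mem (od_sc _) g)
        ((sc_om U).1 ▸ jj_mem.2 (sc_mem_k Ms.om_mem))
  · obtain ⟨x, hx', rfl⟩ := mem_jj.1 hx
    obtain ⟨p, hp, g⟩ := U.meet (fun p => x ∈ tp (ps p)) fun p hp =>
      let ⟨q, q1, b, q2, q3, _⟩ := ex_ext hp (ae_gt hx')
      ⟨q, q1, sub_un_r _ _ _ (by rw [q3, mx_snoc]; exact sub_un_r _ _ _ q2)⟩
    have k := (cond_of (U.mem hp)).1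
    obtain ⟨n, hn, e⟩ := om_ind (fun j => j ∈ jj U (suc (dom (ps p))) → ∃ n, n ∈ (om : Ext U) ∧
        ap a n = ap (jj U (lam (suc (dom (ps p))) fun j => tp (res (ps p) j))) j)
      (fun _ => ⟨_, suc_mem_om (suc_mem_om emp_mem_om), by
        rw [h3 _ (suc_mem_om emp_mem_om), h3 _ emp_mem_om, h2, (sc_om U).2, ← jj_emp (U := U),
          ← jj_ap, ap_lam (od_emp.mem_suc k.od (emp_sub _)), res_emp]⟩) (fun j _ ih hj => by
        obtain ⟨i', hi', e⟩ := mem_jj.1 hj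
        obtain ⟨i, -, rfl⟩ := mem_jj.1 (e ▸ self_mem_suc j : j ∈ jj U i')
        obtain rfl := jj_inj ((jj_suc i).trans e)
        have hi := k.od.sub_of_mem_suc hi' _ (self_mem_suc i)
        obtain ⟨n, hn, e'⟩ := ih (jj_mem.2 (sub_suc _ _ hi))
        obtain ⟨k1, k2⟩ := sc_tp hp (res_lt_Sq k.1 hi) (res_sub _ _)
        refine ⟨_, suc_mem_om (suc_mem_om (suc_mem_om hn)), ?_⟩
        rw [h3 _ (suc_mem_om (suc_mem_om hn)), h3 _ (suc_mem_om hn), h3 _ hn, e', e, ← jj_ap,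
          ← jj_ap, ap_lam hi', ap_lam (sub_suc _ _ hi), k1, k2, sc_col hp hi])
      (jj_om (U := U) ▸ jj_mem.2 (mem_Sq.1 k.1).2.1) (jj_mem.2 (self_mem_suc _))
    rw [← jj_ap, ap_lam (self_mem_suc _), res_dom] at e
    exact ⟨n, hn, e ▸ jj_mem.2 g⟩

end Pool.Agent.P.MP_5f3b23_lc.Zf
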