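import Pool.Agent.P.MP_2e9c36_lc.YExt

set_option autoImplicit false
set_option synthInstance.maxSize 4000

/-! Mutual stationarity in a generic extension of a countable model. -/

open Pool.Agent.Lib.PosetForcing

namespace Pool.Agent.P.MP_5f3b23_lc.Zf

universe v

variable {M : Type v} [Zm M]

theorem funOn_app {f a x y : M} {V : M → Prop} (h : IsFunOn mm f a V) (e : App mm f x y) :
    x ∈ a ∧ V y :=
  let ⟨_, _, g1, g2⟩ := h.1 _ (app_iff.1 e)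
  let ⟨e1, e2⟩ := op_inj (isPair_iff.1 g1)
  e1 ▸ e2 ▸ g2

variable [NM M]

theorem Cf.sup {U : Gen M} {I q N t n p : M} {X : Ext U} (h : Cf I q N t n) (hn : n ∈ (kk : M))
    (hX : ∀ z, z ∈ X ↔ ∃ x, x ∈ (kk : M) ∧ z = jj U x ∧ ∃ p, U.G p ∧ p ≤ q ∧ op (ps p) x ∈ N)
    (nm : ∀ p r x, r ≤ p → op (ps p) x ∈ N → op (ps r) x ∈ N) (hp : U.G p) (h1 : p ≤ q)
    (h2 : Sub t (ps p)) (h3 : ∀ i, i ∈ jj U I → suc i ∈ jj U I)
    (h4 : ∀ b g, b ∈ jj U I → (∀ x, x ∈ b → ap g x ∈ jj U I) →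
      ∃ z, z ∈ jj U I ∧ ∀ x, x ∈ b → ap g x ∈ z) :
    ∃ d, MP_2e9c36_lc.IsSupBelow mm d X (jj U n) ∧ d ∈ jj U n ∧
      MP_2e9c36_lc.IsCof mm d (jj U I) := by
  obtain ⟨f, f1, ⟨z, z1, z2⟩, f2⟩ := h
  have o := (od_k.el hn).el z1
  have o' : Od (bUn I fun i => ap f i) := od_bUn fun i hi => o.el (z2 i hi)
  refine ⟨jj U (bUn I fun i => ap f i), fun x => ⟨fun hx => ?_, fun ⟨y, g1, g2, g3⟩ => ?_⟩,
    jj_mem.2 (o'.mem_of_sub (od_k.el hn) (fun x hx => let ⟨i, hi, g⟩ := mem_bUn.1 hx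
      o.tr (z2 i hi) g) z1), isCof_of (f := jj U f) h3 h4 (fun i j hj hi => ?_) (jj_od o')
        fun x => ⟨fun hx => ?_, fun ⟨i, hi, hx⟩ => ?_⟩⟩
  · obtain ⟨x, hx', rfl⟩ := mem_jj.1 hx
    obtain ⟨i, hi, g⟩ := mem_bUn.1 hx'
    obtain ⟨r, r1, r2, r3⟩ := U.below (fun r => op (ps r) (ap f i) ∈ N) hp fun r hr =>
      (f2 r (ftr hr h1) (h2.trans (le_s hr))).2 i hi
    have k := (od_k.el hn).tr z1 (z2 i hi)
    exact ⟨_, (hX _).2 ⟨_, od_k.tr hn k, rfl, r, r1, ftr r2 h1, r3⟩, jj_mem.2 k, jj_mem.2 g⟩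
  · obtain ⟨y, -, rfl, r, r1, -, r3⟩ := (hX _).1 g1
    obtain ⟨s, -, s1, s2⟩ := U.dir hp r1
    obtain ⟨i, hi, g⟩ := (f2 s (ftr s1 h1) (h2.trans (le_s s1))).1 y (jj_mem.1 g2) (nm r s y s2 r3)
    exact jj_sub.2 (fun w hw => mem_bUn.2 ⟨i, hi, (o.el (z2 i hi)).tr g hw⟩) x g3
  · obtain ⟨j, hj', rfl⟩ := mem_jj.1 hj
    obtain ⟨i, hi', rfl⟩ := mem_jj.1 hi
    rw [← jj_ap, ← jj_ap]
    exact jj_mem.2 (f1 i j hj' hi')
  · obtain ⟨x, hx', rfl⟩ := mem_jj.1 hx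
    obtain ⟨i, hi, g⟩ := mem_bUn.1 hx'
    exact ⟨_, jj_mem.2 hi, jj_ap (U := U) f i ▸ jj_mem.2 g⟩
  · obtain ⟨i, hi', rfl⟩ := mem_jj.1 hi
    rw [← jj_ap] at hx
    exact jj_sub.2 (fun w hw => mem_bUn.2 ⟨i, hi', hw⟩) x hx

/-- `p` forces that the `j`-th function of `F` sends `x` to `y` -/
def FA2 (F j x y p : M) : Prop :=
  Forces p fun U => ∃ g, App Ext.mem (val F U) (jj U j) g ∧ App Ext.mem g (jj U x) (jj U y)

instance [Countable M] (F : M) : D4 (FA2 F) :=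
  ⟨df_forces (fun _ mem v => ∃ g, App mem (v 0) (v 1) g ∧ App mem g (v 2) (v 3)) (fun v => v 3)
    (fun _ => F) (fun v => chk (v 0)) (fun v => chk (v 1)) fun v => chk (v 2)⟩

theorem ex_mutStat [Countable M] : ∃ (U : Gen M) (w w1 a l E : Ext U), Obj mm w w1 a l E ∧
    MP_2e9c36_lc.MutStat mm w w1 a l E := by
  by_contra hn
  obtain ⟨F, hF⟩ := max_principle (M := M) (fun _ mem x => Bad mem x) fun U => by
    obtain ⟨w, w1, a, l, E, h⟩ := ex_obj (M := Ext U)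
    by_contra k
    exact hn ⟨U, w, w1, a, l, E, h, fun F g => not_not.1 fun g' => k ⟨F, w, w1, a, l, E, h, g, g'⟩⟩
  obtain ⟨q, N, hq, -, nm, h1, h2⟩ := main_comb (E := FA2 F)
    (fun _ _ _ _ _ e h => Forces.mono h e) fun j x p hj hx hp => ex_force
      (fun _ mem v => ∃ g, App mem (v 0) (v 1) g ∧ App mem g (v 2) (v 3)) hp
      (fun y => cons F (cons (chk j) (cons (chk x) fun _ => chk y))) fun U _ => by
        obtain ⟨w, w1, a, l, E, h, g, -⟩ := hF U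
        obtain rfl := sup_eq h
        obtain rfl := h.spec.1
        obtain ⟨f, g1⟩ := g.2.1 _ (jj_om (U := U) ▸ jj_mem.2 hj : jj U j ∈ om)
        obtain ⟨Q, g2, g3⟩ := (funOn_app g g1).2
        have g4 := (g2 _).2 (isSeq_iff.2 (jj_Sq hx))
        obtain ⟨y, hy, e⟩ := mem_jj.1 (fun_mem g3 g4)
        exact ⟨y, hy, f, g1, (fun_app g3).2 ⟨g4, e.symm⟩⟩
  obtain ⟨U, hU⟩ := ex_gen hq
  obtain ⟨X, hX⟩ := ex_gset U kk fun p x => p ≤ q ∧ op (ps p) x ∈ N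
  obtain ⟨w, w1, a, l, E, h, g, k⟩ := hF U
  obtain rfl := sup_eq h
  obtain ⟨rfl, rfl, -⟩ := h.spec
  refine k ⟨X, fun z hz => let ⟨_, g1, g2, _⟩ := (hX z).1 hz; g2 ▸ jj_mem.2 g1,
    fun i f s y g1 g2 g3 => ?_, fun n x g1 g2 => ?_⟩
  · obtain ⟨g4, Q, -, g5⟩ := funOn_app g g1
    obtain ⟨j, hj, rfl⟩ := mem_jj.1 (jj_om (U := U) ▸ g4 : i ∈ jj U om)
    obtain ⟨t, ht, rfl, p, hp, e⟩ := seq_jj (fun p x => op (ps p) x ∈ N) (fun p r x => nm p r x)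
      (fun z hz => let ⟨x, k1, k2, p, k3, _, k4⟩ := (hX z).1 hz; ⟨x, k1, k2, p, k3, k4⟩)
      (isSeq_iff.1 g2)
    obtain ⟨r, r1, r2, z, r3, f', r4, r5⟩ : ∃ r, U.G r ∧ r ≤ q ∧ ∃ z, op (ps r) z ∈ N ∧ ∃ g,
        App Ext.mem (val F U) (jj U j) g ∧ App Ext.mem g (jj U t) (jj U z) := by
      obtain ⟨s, s1, s2, s3⟩ := U.dir hp hU
      obtain ⟨r, r1, r2, z, r3, r4⟩ := U.below (fun r => ∃ z, op (ps r) z ∈ N ∧ FA2 F j t z r) s1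
        fun r hr => h1 r j t (ftr hr s3) hj ht fun i hi => nm p r _ (ftr hr s2) (e i hi)
      exact ⟨r, r1, ftr r2 s3, z, r3, r4 U r1⟩
    obtain rfl := g.2.2 _ _ _ g1 r4
    rw [g5.2.2 _ _ _ g3 r5]
    exact (hX _).2 ⟨z, jj_mem.1 (funOn_app g5 r5).2, rfl, r, r1, r2, r3⟩
  · obtain ⟨p, t, hp, t1, t2, e⟩ := aleph_cases h (app_iff.1 g1) g2
    obtain ⟨s, s1, s2, s3⟩ := U.dir hp hU
    have t3 := t2.trans (le_s s2)
    rcases e with ⟨e1, rfl⟩ | ⟨e1, e, he, rfl⟩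
    · obtain ⟨d, d1, d2, d3⟩ := (h2 s t s3 t1 t3).1.sup (tp_mem_k t1) hX nm s1 s3 t3
        (by rw [jj_om]; exact fun _ => suc_mem_om) (by rw [jj_om]; exact reg_om)
      exact ⟨d, d1, d2, fun _ => jj_om (U := U) ▸ d3, fun k => absurd e1 k⟩
    · obtain ⟨d, d1, d2, d3⟩ := ((h2 s t s3 t1 t3).2 e he).sup (sc_mem_k (ph_tp e t1).1) hX nm s1 s3
        t3 (by rw [← (sc_om U).1]; exact fun _ => io_om.suc_mem)
        (by rw [← (sc_om U).1]; exact reg_sc)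
      exact ⟨d, d1, d2, fun k => absurd k e1, fun _ => (sc_om U).1 ▸ d3⟩

omit [Zm M] [NM M] in
theorem rel_consistent (mem : M → M → Prop) (h : IsZFC mem) {k : M}
    (hk : MP_2e9c36_lc.IsMeasurable mem k) : ∃ (N : Type v) (mem' : N → N → Prop), IsZFC mem' ∧
      ∃ w w1 a l E : N, Obj mem' w w1 a l E ∧ MP_2e9c36_lc.MutStat mem' w w1 a l E := by
  obtain ⟨N, mem', hc, h1, k', h2⟩ := ex_countable mem h hk
  let _ : Zm N := { mem := fun a x => mem' x a, zfc := h1 }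
  obtain ⟨_⟩ := ex_ms (M := N) h2
  obtain ⟨_⟩ := ex_nm (M := N)
  obtain ⟨U, g⟩ := ex_mutStat (M := N)
  exact ⟨Ext U, mm, ext_isZFC U, g⟩

end Pool.Agent.P.MP_5f3b23_lc.Zf
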