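import Pool.Agent.P.MP_2e9c36_lc.YCard

set_option autoImplicit false

/-! Measures, normal measures, pressing down and good points in a model of ZFC. -/

open Pool.Agent.Lib.PosetForcing

namespace Pool.Agent.P.MP_5f3b23_lc.Zf

universe v

/-- a measure on an ordinal of the model -/
class Ms (M : Type v) [Zm M] where
  /-- the measurable cardinal -/
  k : M
  /-- the measure -/
  U : M
  od : Od k
  om_mem : om ∈ k
  sub : ∀ A : M, A ∈ U → Sub A k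
  ne : ∀ A : M, A ∈ U → ∃ x, x ∈ A
  em : ∀ A : M, Sub A k → A ∈ U ∨ (sep k fun x => x ∉ A) ∈ U
  up : ∀ A B : M, A ∈ U → Sub A B → Sub B k → B ∈ U
  comp : ∀ S b : M, b ∈ k → Le S b → Sub S U → (sep k fun x => ∀ s, s ∈ S → x ∈ s) ∈ U
  np : ∀ x A : M, A ∈ U → ∃ y, y ∈ A ∧ y ≠ x

variable {M : Type v} [Zm M]

section
variable [Ms M]

/-- the measurable cardinal -/
abbrev kk : M := Ms.k

/-- the measure -/
abbrev UU : M := Ms.U

theorem od_k : Od (kk : M) := Ms.od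

theorem io_k : Io (kk : M) := ⟨od_k, od_k.1 _ Ms.om_mem⟩

/-- for almost all points -/
def Ae (P : M → Prop) : Prop := ∃ A : M, A ∈ (UU : M) ∧ ∀ x, x ∈ A → P x

instance df_ae (P : M → (ℕ → M) → Prop) [h : Df fun v => P (v 0) fun i => v (i + 1)] :
    Df fun v => Ae fun x => P x v := by
  have h1 : Df fun v : ℕ → M => P (v 0) fun i => v (i + 1 + 1) :=
    ⟨h.out.ren fun i => Nat.casesOn i 0 fun j => j + 2⟩
  unfold Ae; infer_instance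

theorem Ae.mono {P Q : M → Prop} (h : Ae P) (e : ∀ x, x ∈ (kk : M) → P x → Q x) : Ae Q :=
  let ⟨A, h1, h2⟩ := h; ⟨A, h1, fun x hx => e x (Ms.sub A h1 x hx) (h2 x hx)⟩

theorem Ae.ex {P : M → Prop} (h : Ae P) : ∃ x, x ∈ (kk : M) ∧ P x :=
  let ⟨A, h1, h2⟩ := h
  let ⟨x, hx⟩ := Ms.ne A h1
  ⟨x, Ms.sub A h1 x hx, h2 x hx⟩

theorem ae_mem {A : M} (h : A ∈ (UU : M)) : Ae fun x => x ∈ A := ⟨A, h, fun _ h => h⟩

theorem Ae.big {P : M → Prop} [D1 P] (h : Ae P) : sep kk P ∈ (UU : M) :=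
  let ⟨A, h1, h2⟩ := h
  Ms.up A _ h1 (fun x hx => mem_sep.2 ⟨Ms.sub A h1 x hx, h2 x hx⟩) sep_sub

theorem ae_of_all {P : M → Prop} (h : ∀ x, x ∈ (kk : M) → P x) : Ae P :=
  ⟨_, Ms.comp emp om Ms.om_mem (le_emp _) (emp_sub _), fun x hx => h x (mem_sep.1 hx).1⟩

theorem Ae.and {P Q : M → Prop} (h : Ae P) (h' : Ae Q) : Ae fun x => P x ∧ Q x :=
  let ⟨A, h1, h2⟩ := h
  let ⟨B, g1, g2⟩ := h'
  ⟨_, Ms.comp (upair A B) om Ms.om_mem (io_om.upair A B) fun _ hs =>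
    (mem_upair.1 hs).elim (fun e => e ▸ h1) fun e => e ▸ g1, fun x hx =>
    ⟨h2 x ((mem_sep.1 hx).2 A (mem_upair.2 (Or.inl rfl))),
      g2 x ((mem_sep.1 hx).2 B (mem_upair.2 (Or.inr rfl)))⟩⟩

theorem ae_not {P : M → Prop} [D1 P] (h : ¬ Ae P) : Ae fun x => ¬ P x :=
  (Ms.em (sep kk P) sep_sub).elim (fun g => (h ⟨_, g, fun _ hx => (mem_sep.1 hx).2⟩).elim)
    fun g => ⟨_, g, fun _ hx hP => (mem_sep.1 hx).2 (mem_sep.2 ⟨(mem_sep.1 hx).1, hP⟩)⟩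

theorem ae_imp {Q : Prop} {P : M → Prop} (h : Q → Ae P) : Ae fun x => Q → P x := by
  by_cases g : Q
  · exact (h g).mono fun _ _ h _ => h
  · exact ae_of_all fun _ _ h => absurd h g

/-- small sets -/
def Sm (S : M) : Prop := ∃ b, b ∈ (kk : M) ∧ Le S b

instance df_sm (a : (ℕ → M) → M) [Tm a] : Df fun v => Sm (a v) := by
  unfold Sm; infer_instance

theorem Sm.of_le {S T : M} (h : Sm T) (e : Le S T) : Sm S :=
  let ⟨b, h1, h2⟩ := h; ⟨b, h1, e.trans h2⟩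

theorem sm_mem {b : M} (h : b ∈ (kk : M)) : Sm b := ⟨b, h, Le.rfl⟩

theorem sm_om : Sm (om : M) := sm_mem Ms.om_mem

theorem Sm.io {S : M} (h : Sm S) : ∃ b, b ∈ (kk : M) ∧ Io b ∧ Le S b :=
  let ⟨b, h1, h2⟩ := h
  ⟨un b om, un_mem od_k h1 Ms.om_mem, ⟨od_k.el (un_mem od_k h1 Ms.om_mem), sub_un_r _ _⟩,
    h2.trans (le_of_sub (sub_un_l _ _))⟩

theorem Sm.ins {S : M} (h : Sm S) (x : M) : Sm (ins x S) :=
  let ⟨b, h1, h2, h3⟩ := h.io; ⟨b, h1, h2.ins h3 x⟩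

theorem ae_all {S : M} (hS : Sm S) (R : M → M → Prop) [D2 R]
    (h : ∀ i, i ∈ S → Ae fun x => R i x) : Ae fun x => ∀ i, i ∈ S → R i x := by
  obtain ⟨b, h1, h2⟩ := hS
  refine ⟨_, Ms.comp (img S fun i => sep kk fun x => R i x) b h1 ((le_img _ _).trans h2)
    fun s hs => ?_, fun x hx i hi =>
      (mem_sep.1 ((mem_sep.1 hx).2 _ (mem_img.2 ⟨i, hi, rfl⟩))).2⟩
  obtain ⟨i, hi, rfl⟩ := mem_img.1 hs
  exact (h i hi).big

theorem ae_ne (y : M) : Ae fun x => x ≠ y :=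
  ae_not fun ⟨A, h1, h2⟩ => let ⟨z, g1, g2⟩ := Ms.np y A h1; g2 (h2 z g1)

theorem ae_gt {y : M} (h : y ∈ (kk : M)) : Ae fun x : M => y ∈ x :=
  (ae_all ((sm_mem h).ins y) (fun i x => x ≠ i) fun i _ => ae_ne i).mono fun x hx g => by
    rcases (od_k.el hx).total (od_k.el h) with e | e
    · exact (g x ((od_k.el hx).mem_suc (od_k.el h) e) rfl).elim
    · exact e

theorem ae_const {S : M} (hS : Sm S) (F : M → M) [hF : Tm fun v => F (v 0)]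
    (h : Ae fun x => F x ∈ S) : ∃ y, Ae fun x => F x = y := by
  have : Fn1 F := ⟨hF⟩
  by_contra hn
  obtain ⟨x, -, h1, h2⟩ := (h.and (ae_all hS (fun y x => ¬ F x = y)
    fun y _ => ae_not fun g => hn ⟨y, g⟩)).ex
  exact h2 _ h1 rfl

theorem Sm.bdd {S : M} (h : Sm S) (e : Sub S kk) : ∃ z, z ∈ (kk : M) ∧ ∀ y, y ∈ S → y ∈ z :=
  (ae_all h (fun y x => y ∈ x) fun y hy => ae_gt (e y hy)).ex

theorem not_sm_k : ¬ Sm (kk : M) := fun h =>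
  let ⟨z, h1, h2⟩ := h.bdd Sub.rfl; not_mem_self z (h2 z h1)

theorem sm_or (X : M) : Sm X ∨ Le kk X :=
  let ⟨a, ha, h1, h2⟩ := ex_card X
  (od_k.total ha).symm.imp (fun h => ⟨a, h, h1⟩) fun h => (le_of_sub h).trans h2

theorem Sm.pow {S : M} (h : Sm S) : Sm (pow S) := by
  refine (sm_or _).resolve_right fun ⟨j, h1, h2⟩ => ?_
  have h3 := ae_all h (fun i x => i ∈ ap j x ↔ Ae fun y => i ∈ ap j y) fun i _ => by
    by_cases g : Ae fun y => i ∈ ap j y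
    · exact g.mono fun _ _ e => iff_of_true e g
    · exact (ae_not g).mono fun _ _ e => iff_of_false e g
  obtain ⟨x, hx, g1⟩ := h3.ex
  obtain ⟨y, hy, g2, g3⟩ := (h3.and (ae_ne x)).ex
  exact g3 (h2 y x hy hx (ext fun i => ⟨fun g => (g1 i (mem_pow.1 (h1 y hy) i g)).2
    ((g2 i (mem_pow.1 (h1 y hy) i g)).1 g), fun g => (g2 i (mem_pow.1 (h1 x hx) i g)).2
      ((g1 i (mem_pow.1 (h1 x hx) i g)).1 g)⟩))

theorem Sm.bUn {S : M} (h : Sm S) (F : M → M) [hF : Tm fun v => F (v 0)]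
    (h' : ∀ i, i ∈ S → Sm (F i)) : Sm (bUn S F) := by
  have : Fn1 F := ⟨hF⟩
  obtain ⟨b, h1, h2, h3⟩ := h.io
  obtain ⟨z, hz, g1, g2⟩ := ((ae_gt h1).and (ae_all h (fun i x => Le (F i) x) fun i hi =>
    let ⟨_, g1, g2⟩ := h' i hi
    (ae_gt g1).mono fun x hx e => g2.trans (le_of_sub ((od_k.el hx).1 _ e)))).ex
  have e := (od_k.el hz).1 _ g1
  exact ⟨z, hz, (h2.mono (od_k.el hz) e).bUn F (h3.trans (le_of_sub e)) g2⟩

theorem sm_Vv {a : M} (h : a ∈ (kk : M)) : Sm (Vv a) :=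
  od_ind (fun a => a ∈ (kk : M) → Sm (Vv a)) (fun _ ha ih h =>
    ((sm_mem h).bUn (fun b => pow (Vv b)) fun b hb => (ih b hb (od_k.tr h hb)).pow).of_le
      (le_of_sub fun _ hx => let ⟨b, hb, e⟩ := (mem_Vv ha).1 hx
        mem_bUn.2 ⟨b, hb, mem_pow.2 e⟩)) (od_k.el h) h

theorem sc_mem_k {x : M} (h : x ∈ (kk : M)) : sc x ∈ (kk : M) :=
  let ⟨_, h1, h2⟩ := (sm_mem h).pow
  (od_sc x).mem_of_sub od_k ((od_sc x).sub_of_not_mem (od_k.el h1) fun g =>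
    cantor x (h2.trans (le_of_mem_sc g))) h1

theorem suc_mem_k {x : M} (h : x ∈ (kk : M)) : suc x ∈ (kk : M) :=
  let ⟨_, h1, h2⟩ := (ae_gt h).ex
  (od_k.el h).suc.mem_of_sub od_k ((od_k.el h1).suc_sub h2) h1

end

/-- good points: inaccessible cardinals -/
def Gd (b : M) : Prop := Od b ∧ om ∈ b ∧ (∀ x, x ∈ b → suc x ∈ b) ∧ (∀ x, x ∈ b → sc x ∈ b) ∧
  (∀ c w, Sub c (Vv b) → w ∈ Vv b → Le c w → c ∈ Vv b) ∧ Le (Vv b) b

instance df_gd (a : (ℕ → M) → M) [Tm a] : Df fun v => Gd (a v) := by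
  unfold Gd; infer_instance

namespace Gd

variable {b : M} (h : Gd b)
include h

theorem od : Od b := h.1

theorem io : Io b := ⟨h.1, h.1.1 _ h.2.1⟩

theorem sc {x : M} (hx : x ∈ b) : sc x ∈ b := h.2.2.2.1 x hx

theorem cl {c w : M} (h1 : Sub c (Vv b)) (h2 : w ∈ Vv b) (h3 : Le c w) : c ∈ Vv b :=
  h.2.2.2.2.1 c w h1 h2 h3

theorem cnt : Le (Vv b) b := h.2.2.2.2.2

theorem V {x : M} (hx : x ∈ b) : x ∈ Vv b := od_sub_Vv h.1 x hx

theorem lt {x : M} (hx : Od x) (e : x ∈ Vv b) : x ∈ b := mem_of_mem_Vv h.1 hx e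

theorem el {x y : M} (hx : x ∈ Vv b) (e : y ∈ x) : y ∈ Vv b := Vv_tr h.1 x hx y e

theorem sub {x y : M} (hx : x ∈ Vv b) (e : Sub y x) : y ∈ Vv b := Vv_sub h.1 hx e

theorem two {x y : M} (hx : x ∈ Vv b) (hy : y ∈ Vv b) :
    ∃ c, c ∈ b ∧ x ∈ Vv c ∧ y ∈ Vv c := by
  obtain ⟨c, hc, e⟩ := (mem_Vv h.1).1 hx
  obtain ⟨d, hd, e'⟩ := (mem_Vv h.1).1 hy
  have k := un_mem h.1 hc hd
  exact ⟨suc (un c d), h.2.2.1 _ k, (mem_Vv (h.1.el k).suc).2 ⟨_, self_mem_suc _,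
    e.trans (Vv_mono (h.1.el hc) (h.1.el k) (sub_un_l _ _))⟩, (mem_Vv (h.1.el k).suc).2
      ⟨_, self_mem_suc _, e'.trans (Vv_mono (h.1.el hd) (h.1.el k) (sub_un_r _ _))⟩⟩

theorem emp : emp ∈ Vv b := h.sub (h.V h.2.1) (emp_sub _)

theorem upair {x y : M} (hx : x ∈ Vv b) (hy : y ∈ Vv b) : upair x y ∈ Vv b :=
  let ⟨c, hc, h1, h2⟩ := h.two hx hy
  (mem_Vv h.1).2 ⟨c, hc, fun _ hz => (mem_upair.1 hz).elim (fun e => e ▸ h1) fun e => e ▸ h2⟩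

theorem op {x y : M} (hx : x ∈ Vv b) (hy : y ∈ Vv b) : op x y ∈ Vv b :=
  h.upair (h.upair hx hx) (h.upair hx hy)

theorem sUn {x : M} (hx : x ∈ Vv b) : sUn x ∈ Vv b :=
  let ⟨c, hc, e⟩ := (mem_Vv h.1).1 hx
  (mem_Vv h.1).2 ⟨c, hc, fun _ hz => let ⟨y, h1, h2⟩ := mem_sUn.1 hz
    Vv_tr (h.1.el hc) y (e y h1) _ h2⟩

theorem un {x y : M} (hx : x ∈ Vv b) (hy : y ∈ Vv b) : un x y ∈ Vv b := h.sUn (h.upair hx hy)

theorem ins {x y : M} (hx : x ∈ Vv b) (hy : y ∈ Vv b) : ins x y ∈ Vv b := h.un hy (h.upair hx hx)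

theorem pow {x : M} (hx : x ∈ Vv b) : pow x ∈ Vv b :=
  let ⟨c, hc, h1, _⟩ := h.two hx hx
  (mem_Vv h.1).2 ⟨c, hc, fun _ hz => Vv_sub (h.1.el hc) h1 (mem_pow.1 hz)⟩

theorem op_inv {x y : M} (e : Zf.op x y ∈ Vv b) : x ∈ Vv b ∧ y ∈ Vv b :=
  ⟨h.el (h.el e (mem_upair.2 (Or.inr rfl))) (mem_upair.2 (Or.inl rfl)),
    h.el (h.el e (mem_upair.2 (Or.inr rfl))) (mem_upair.2 (Or.inr rfl))⟩

theorem ap {f : M} (hf : f ∈ Vv b) (x : M) : ap f x ∈ Vv b :=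
  h.sUn (h.sub (h.sUn (h.sUn hf)) sep_sub)

theorem img {a : M} {F : M → M} [Tm fun v => F (v 0)] (ha : a ∈ Vv b)
    (e : ∀ x, x ∈ a → F x ∈ Vv b) : img a F ∈ Vv b :=
  h.cl (fun _ hy => let ⟨x, hx, g⟩ := mem_img.1 hy; g ▸ e x hx) ha (le_img a F)

theorem lam {a : M} {F : M → M} [Tm fun v => F (v 0)] (ha : a ∈ Vv b)
    (e : ∀ x, x ∈ a → F x ∈ Vv b) : lam a F ∈ Vv b :=
  h.img ha fun x hx => h.op (h.el ha hx) (e x hx)

theorem nat {n : M} (hn : n ∈ (om : M)) : n ∈ Vv b := h.el (h.V h.2.1) hn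

theorem snoc {t x : M} (hd : dom t ∈ (om : M)) (ht : t ∈ Vv b) (hx : x ∈ Vv b) :
    snoc t x ∈ Vv b := h.ins (h.op (h.nat hd) hx) ht

theorem seq {t X : M} (ht : t ∈ Sq X) (e : ∀ i, i ∈ dom t → Zf.ap t i ∈ Vv b) : t ∈ Vv b := by
  obtain ⟨h1, h2, -⟩ := mem_Sq.1 ht
  refine h.sub (h.lam (F := fun i => Zf.ap t i) (h.nat h2) e) fun p hp => ?_
  exact mem_lam.2 ⟨fst p, mem_dom.2 ⟨p, hp, rfl⟩, h1 p hp⟩

end Gd

section
variable [Ms M]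

theorem sm_V {w : M} (h : w ∈ Vv (kk : M)) : Sm w :=
  let ⟨_, h1, h2⟩ := (mem_Vv od_k).1 h; (sm_Vv h1).of_le (le_of_sub h2)

theorem ae_V {y : M} (h : y ∈ Vv (kk : M)) : Ae fun x : M => y ∈ Vv x :=
  let ⟨c, h1, h2⟩ := (mem_Vv od_k).1 h
  (ae_gt h1).mono fun _ hx e => (mem_Vv (od_k.el hx)).2 ⟨c, e, h2⟩

theorem V_sub_k {x : M} (h : x ∈ (kk : M)) : Sub (Vv x) (Vv kk) :=
  Vv_mono (od_k.el h) od_k (od_k.1 x h)

theorem Sm.mem_V {c : M} (h : Sm c) (e : Sub c (Vv kk)) : c ∈ Vv (kk : M) :=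
  let ⟨z, h1, h2⟩ := (ae_all h (fun y x => y ∈ Vv x) fun y hy => ae_V (e y hy)).ex
  (mem_Vv od_k).2 ⟨z, h1, h2⟩

theorem gd_k : Gd (kk : M) :=
  ⟨od_k, Ms.om_mem, fun _ => suc_mem_k, fun _ => sc_mem_k,
    fun _ _ h1 h2 h3 => ((sm_V h2).of_le h3).mem_V h1,
    (le_of_sub fun _ hx => let ⟨b, hb, e⟩ := (mem_Vv od_k).1 hx
      mem_bUn.2 ⟨b, hb, mem_pow.2 e⟩).trans (io_k.bUn (fun b => pow (Vv b)) Le.rfl fun _ hb =>
        let ⟨c, h1, h2⟩ := (sm_Vv hb).pow; h2.trans (le_of_sub (od_k.1 c h1)))⟩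

end

/-- a normal measure -/
class NM (M : Type v) [Zm M] extends Ms M where
  normal : ∀ f : M, (Ae fun x => ap f x ∈ x) → ∃ a, Ae fun x => ap f x = a

theorem ex_nm [W : Ms M] : Nonempty (NM M) := by
  have hmin : ∃ f, (f ∈ funs (kk : M) kk ∧ ∀ c, ¬ Ae fun x => ap f x = c) ∧
      ∀ g, (g ∈ funs (kk : M) kk ∧ ∀ c, ¬ Ae fun x => ap g x = c) →
        ¬ Ae fun x => ap g x ∈ ap f x := by
    by_contra hn
    obtain ⟨F, hF⟩ := ex_chain (funs (kk : M) kk) (fun _ f => ∀ c, ¬ Ae fun x => ap f x = c)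
      (fun _ f g => Ae fun x => ap g x ∈ ap f x) od_om fun i F hi ih => by
        rcases om_cases' hi with rfl | ⟨j, -, rfl⟩
        · refine ⟨lam kk fun x => x, lam_mem_funs fun _ h => h, fun c h => ?_,
            fun j hj => (not_mem_emp j hj).elim⟩
          obtain ⟨x, hx, g1, g2⟩ := (h.and (ae_ne c)).ex
          exact g2 (by rwa [ap_lam hx] at g1)
        · obtain ⟨h1, h2, h3⟩ := ih j (self_mem_suc j)
          by_contra k
          refine hn ⟨ap F j, ⟨h1, h2⟩, fun g hg e => k ⟨g, hg.1, hg.2, fun l hl => ?_⟩⟩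
          rcases mem_suc.1 hl with hl' | rfl
          · exact (e.and (h3 l hl')).mono fun x hx g =>
              (od_k.el ((mem_funs.1 (ih l hl).1).2.2 x hx)).tr g.2 g.1
          · exact e
    obtain ⟨x, -, hx⟩ := (ae_all sm_om (fun n x => ap (ap F (suc n)) x ∈ ap (ap F n) x)
      fun n hn => (hF _ (suc_mem_om hn)).2.2 n (self_mem_suc n)).ex
    exact mem_ind (fun y => ∀ n, n ∈ (om : M) → y ≠ ap (ap F n) x)
      (fun y ih n hn e => ih _ (e ▸ hx n hn) _ (suc_mem_om hn) rfl) _ emp emp_mem_om rfl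
  obtain ⟨f, ⟨h1, h2⟩, h3⟩ := hmin
  have hf := (mem_funs.1 h1).2.2
  have mU : ∀ A : M, A ∈ (sep (pow kk) fun A => Ae fun x => ap f x ∈ A) ↔
      Sub A kk ∧ Ae fun x => ap f x ∈ A := fun A => by rw [mem_sep, mem_pow]
  refine ⟨{ k := kk, U := sep (pow kk) fun A => Ae fun x => ap f x ∈ A, od := od_k,
            om_mem := Ms.om_mem, sub := fun A h => ((mU A).1 h).1,
            ne := fun A h => let ⟨_, _, g⟩ := ((mU A).1 h).2.ex; ⟨_, g⟩,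
            em := fun A h => ?_,
            up := fun A B h e e' => (mU B).2 ⟨e', ((mU A).1 h).2.mono fun _ _ g => e _ g⟩,
            comp := fun S b hb e e' => (mU _).2 ⟨sep_sub, ?_⟩, np := fun c A h => ?_,
            normal := fun g hg => ?_ }⟩
  · by_cases g : Ae fun x => ap f x ∈ A
    · exact Or.inl ((mU A).2 ⟨h, g⟩)
    · exact Or.inr ((mU _).2 ⟨sep_sub, (ae_not g).mono fun x hx e => mem_sep.2 ⟨hf x hx, e⟩⟩)
  · exact (ae_all ⟨b, hb, e⟩ (fun s x => ap f x ∈ s) fun s hs => ((mU s).1 (e' s hs)).2).mono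
      fun x hx g => mem_sep.2 ⟨hf x hx, g⟩
  · obtain ⟨x, -, g⟩ := (((mU A).1 h).2.and (ae_not (h2 c))).ex
    exact ⟨_, g⟩
  · obtain ⟨A, hA, e⟩ := hg
    by_contra hn
    have k := ((mU A).1 hA).2
    refine h3 (lam kk fun x => cnd (ap f x ∈ A) (ap g (ap f x)) emp) ⟨lam_mem_funs fun x hx => ?_,
      fun c hc => hn ⟨c, sep kk fun y => ap g y = c, (mU _).2 ⟨sep_sub, (hc.and k).mono
        fun x hx g => ?_⟩, fun _ hy => (mem_sep.1 hy).2⟩⟩ (k.mono fun x hx g => ?_)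
    · by_cases g : ap f x ∈ A
      · rw [cnd_pos g]; exact od_k.tr (hf x hx) (e _ g)
      · rw [cnd_neg g]; exact io_k.2 _ emp_mem_om
    · rw [ap_lam hx, cnd_pos g.2] at g
      exact mem_sep.2 ⟨hf x hx, g.1⟩
    · rw [ap_lam hx, cnd_pos g]; exact e _ g

theorem ex_ms {k : M} (h : MP_2e9c36_lc.IsMeasurable mm k) : Nonempty (Ms M) := by
  obtain ⟨h1, h2, h3, ⟨w, hw, h4⟩, U, g1, g2, g3, g4, g5, g6, g7, g8⟩ := h
  obtain rfl := isOmega_iff.1 hw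
  have hk : Od k := ⟨h1, h2⟩
  refine ⟨{ k := k, U := U, od := hk, om_mem := h4, sub := g1, ne := g3,
            em := fun A hA => g6 A _ hA fun _ => mem_sep, up := g4,
            comp := fun S b hb e e' => g7 S _ e' (leCard_iff.2 (e.trans (le_of_sub (hk.1 b hb))))
              (fun g => h3 b hb (leCard_iff.2 ((leCard_iff.1 g).trans e))) fun _ => mem_sep,
            np := fun x A hA => ?_ }⟩
  by_contra hn
  obtain ⟨z, hz⟩ := g3 A hA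
  have e : ∀ y, y ∈ A → y = x := fun y hy => not_not.1 fun g => hn ⟨y, hy, g⟩
  exact g8 x A (fun y => ⟨e y, fun g => g ▸ e z hz ▸ hz⟩) hA

section
variable [NM M]

theorem ae_normal (F : M → M) [Tm fun v => F (v 0)] (h : Ae fun x => F x ∈ x) :
    ∃ a, Ae fun x => F x = a :=
  let ⟨a, ha⟩ := NM.normal (lam kk F) (h.mono fun x hx e => by rwa [ap_lam hx])
  ⟨a, ha.mono fun x hx e => by rwa [ap_lam hx] at e⟩

theorem press (F : M → M) [hF : Tm fun v => F (v 0)] (h : Ae fun x => F x ∈ Vv x) :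
    ∃ y, y ∈ Vv (kk : M) ∧ Ae fun x => F x = y := by
  have : Fn1 F := ⟨hF⟩
  have h1 := h.mono (Q := fun x => (least fun b => Sub (F x) (Vv b)) ∈ x ∧
      Sub (F x) (Vv (least fun b => Sub (F x) (Vv b)))) fun x hx e => by
    obtain ⟨b, hb, g⟩ := (mem_Vv (od_k.el hx)).1 e
    obtain ⟨g1, g2, g3⟩ := least_spec (fun b => Sub (F x) (Vv b)) ((od_k.el hx).el hb) g
    exact ⟨g1.mem_of_sub (od_k.el hx) (g1.sub_of_not_mem ((od_k.el hx).el hb) fun k => g3 b k g)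
      hb, g2⟩
  obtain ⟨a, ha⟩ := ae_normal (fun x => least fun b => Sub (F x) (Vv b)) (h1.mono fun _ _ e => e.1)
  obtain ⟨x, hx, g1, g2⟩ := (h1.and ha).ex
  obtain ⟨y, hy⟩ := ae_const (sm_Vv (od_k.tr hx (g2 ▸ g1.1))).pow F
    ((h1.and ha).mono fun _ _ e => mem_pow.2 (e.2 ▸ e.1.2))
  obtain ⟨z, hz, g3, g4⟩ := (h.and hy).ex
  exact ⟨y, V_sub_k hz _ (g4 ▸ g3), hy⟩

theorem press_ex (R : M → M → Prop) [D2 R] (h : Ae fun x => ∃ y, y ∈ Vv x ∧ R y x) :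
    ∃ y, y ∈ Vv (kk : M) ∧ Ae fun x => R y x := by
  obtain ⟨f, hf⟩ := chs' kk (fun x => ∃ y, y ∈ Vv x ∧ R y x) (fun x y => y ∈ Vv x ∧ R y x)
    fun _ _ h => h
  obtain ⟨y, hy, g⟩ := press (fun x => ap f x) (h.mono fun x hx e => (hf x hx e).1)
  exact ⟨y, hy, (h.and g).mono fun x hx e => e.2 ▸ (hf x hx e.1).2⟩

theorem diag (R : M → M → Prop) [D2 R] (h : ∀ y, y ∈ Vv (kk : M) → Ae fun x => R y x) :
    Ae fun x => ∀ y, y ∈ Vv x → R y x := by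
  by_contra hn
  obtain ⟨y, hy, g⟩ := press_ex (fun y x => ¬ R y x) ((ae_not hn).mono fun x _ e => by
    by_contra k
    exact e fun y hy => not_not.1 fun g => k ⟨y, hy, g⟩)
  obtain ⟨x, -, g1, g2⟩ := (g.and (h y hy)).ex
  exact g1 g2

theorem ae_gd : Ae fun x : M => Gd x := by
  obtain ⟨e, e1, e2⟩ := (gd_k (M := M)).cnt
  have a1 := diag (fun y x : M => y ∈ (kk : M) → suc y ∈ x ∧ sc y ∈ x) fun y _ =>
    ae_imp fun h => (ae_gt (suc_mem_k h)).and (ae_gt (sc_mem_k h))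
  have a2 := diag (fun y x : M => ap e y ∈ x) fun y h => ae_gt (e1 y h)
  have a3 := diag (fun w x : M => ∀ c, Sub c (Vv x) → Le c w → c ∈ Vv x) fun w hw => by
    by_contra hn
    have h1 := ae_not hn
    obtain ⟨f, hf⟩ := chs' kk (fun x : M => ¬ ∀ c, Sub c (Vv x) → Le c w → c ∈ Vv x)
      (fun x p => Sub (fst p) (Vv x) ∧ Inj (snd p) (fst p) w ∧ fst p ∉ Vv x) fun x _ h => by
        by_contra k
        exact h fun c g1 ⟨j, g2⟩ => not_not.1 fun g3 => k ⟨op c j, by simpa using ⟨g1, g2, g3⟩⟩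
    obtain ⟨a, ha⟩ := chs w (fun u y => y ∈ Vv (kk : M) ∧ Ae fun x => ∀ z, z ∈ fst (ap f x) →
        ap (snd (ap f x)) z = u → z = y) fun u _ =>
      press_ex (fun y x => ∀ z, z ∈ fst (ap f x) → ap (snd (ap f x)) z = u → z = y)
        ((h1.and (ae_V gd_k.emp)).mono fun x hx g => by
          by_cases k : ∃ z, z ∈ fst (ap f x) ∧ ap (snd (ap f x)) z = u
          · obtain ⟨z, k1, k2⟩ := k
            exact ⟨z, (hf x hx g.1).1 z k1, fun z' k3 k4 =>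
              (hf x hx g.1).2.1.2 _ _ k3 k1 (k4.trans k2.symm)⟩
          · exact ⟨emp, g.2, fun z k1 k2 => (k ⟨z, k1, k2⟩).elim⟩)
    obtain ⟨x, hx, g1, g2, g3⟩ := (h1.and ((ae_V (gd_k.img hw fun u hu => (ha u hu).1)).and
      (ae_all (sm_V hw) (fun u x => ∀ z, z ∈ fst (ap f x) → ap (snd (ap f x)) z = u → z = ap a u)
        fun u hu => (ha u hu).2))).ex
    obtain ⟨k1, k2, k3⟩ := hf x hx g1
    exact k3 (Vv_sub (od_k.el hx) g2 fun z hz => mem_img.2 ⟨_, k2.1 z hz, g3 _ (k2.1 z hz) z hz rfl⟩)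
  refine ((ae_gt Ms.om_mem).and (a1.and (a2.and a3))).mono fun x hx ⟨g1, g2, g3, g4⟩ => ?_
  have k := od_sub_Vv (od_k.el hx)
  exact ⟨od_k.el hx, g1, fun y hy => (g2 y (k y hy) (od_k.tr hx hy)).1,
    fun y hy => (g2 y (k y hy) (od_k.tr hx hy)).2, fun c w h1 h2 h3 => g4 w h2 c h1 h3,
    e, g3, fun y z hy hz => e2 y z (V_sub_k hx y hy) (V_sub_k hx z hz)⟩

end

end Pool.Agent.P.MP_5f3b23_lc.Zf
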