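import Pool.Agent.P.MP_2e9c36_lc.YForce

set_option autoImplicit false

/-! The generic extension satisfies ZFC; the embedding of the ground model. -/

open Pool.Agent.Lib.PosetForcing

namespace Pool.Agent.P.MP_5f3b23_lc.Zf

universe v

variable {M : Type v} [Zm M] [Fo M]

theorem Ext.ext {U : Gen M} (x y : Ext U) (h : ∀ z, Ext.mem z x ↔ Ext.mem z y) : x = y := by
  obtain ⟨a, rfl⟩ := x.ex
  obtain ⟨b, rfl⟩ := y.ex
  obtain ⟨p, hp, g | g | g⟩ := U.meet (fun p => FEq a b p ∨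
      (∃ x s, op x s ∈ a ∧ p ≤ s ∧ ∀ r, r ≤ p → ¬ FM r x b) ∨
      ∃ y t, op y t ∈ b ∧ p ≤ t ∧ ∀ r, r ≤ p → ¬ FM r y a) fun p hp => by
    by_cases g : FEq a b p
    · exact ⟨p, Fo.refl p hp, Or.inl g⟩
    · by_contra hn
      refine g (Bis.fEq ⟨fun x s h1 q h2 h3 => ?_, fun y t h1 q h2 h3 => ?_⟩)
      · by_contra k
        exact hn ⟨q, h2, Or.inr (Or.inl ⟨x, s, h1, h3, fun r hr e => k ⟨r, hr, e⟩⟩)⟩
      · by_contra k
        exact hn ⟨q, h2, Or.inr (Or.inr ⟨y, t, h1, h3, fun r hr ⟨x, s, e1, e2, e3⟩ =>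
          k ⟨r, hr, x, s, e1, e2, e3.symm⟩⟩)⟩
  · exact val_eq.2 ⟨p, hp, g⟩
  · obtain ⟨x, s, g1, g2, g3⟩ := g
    obtain ⟨q, hq, e⟩ := val_mem.1 ((h _).1 (mem_val.2 ⟨x, s, g1, U.up hp g2, rfl⟩))
    obtain ⟨r, -, k1, k2⟩ := U.dir hp hq
    exact (g3 r k1 (e.mono k2)).elim
  · obtain ⟨x, s, g1, g2, g3⟩ := g
    obtain ⟨q, hq, e⟩ := val_mem.1 ((h _).2 (mem_val.2 ⟨x, s, g1, U.up hp g2, rfl⟩))
    obtain ⟨r, -, k1, k2⟩ := U.dir hp hq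
    exact (g3 r k1 (e.mono k2)).elim

theorem ex_name (X : M) (R : M → M → Prop) [D2 R] : ∃ b, b ∈ pow (prd X (Fo.PP : M)) ∧
    ∀ (U : Gen M) z, Ext.mem z (val b U) ↔ ∃ x, x ∈ X ∧ z = val x U ∧ ∃ p, U.G p ∧ R p x := by
  refine ⟨sep (prd X Fo.PP) fun z => R (snd z) (fst z), mem_pow.2 sep_sub, fun U z => ?_⟩
  simp only [mem_val, mem_sep, op_mem_prd, fst_op, snd_op]
  exact ⟨fun ⟨x, s, ⟨⟨h1, _⟩, h2⟩, h3, h4⟩ => ⟨x, h1, h4, s, h3, h2⟩,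
    fun ⟨x, h1, h4, s, h3, h2⟩ => ⟨x, s, ⟨⟨h1, U.mem h3⟩, h2⟩, h3, h4⟩⟩

theorem Cl.name {Φ : (ℕ → M) → Gen M → Prop} (h : Cl Φ) (v : ℕ → M) (X : M) :
    ∃ b, b ∈ pow (prd X (Fo.PP : M)) ∧
      ∀ (U : Gen M) z, Ext.mem z (val b U) ↔ ∃ x, x ∈ X ∧ z = val x U ∧ Φ (cons x v) U := by
  obtain ⟨R, h1, h2⟩ := h
  have h3 : D2 fun p x => R p (cons x v) := ⟨(h1.out.subst (fun i => Nat.casesOn i (fun w => w 0)
      fun j => Nat.casesOn j (fun w => w 1) fun k _ => v k) fun i => by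
        rcases i with _ | _ | i
        exacts [tm_var 0, tm_var 1, tm_cst _]).congr fun w => by
    apply Iff.of_eq
    congr 1
    funext i
    cases i <;> rfl⟩
  simp only [h2]
  exact ex_name X fun p x => R p (cons x v)

theorem val_cons (x : M) (v : ℕ → M) (U : Gen M) :
    (fun n => val (cons x v n) U) = cons (val x U) fun n => val (v n) U := by
  funext n
  cases n <;> rfl

theorem ex_set (P : ∀ M : Type v, (M → M → Prop) → (ℕ → M) → Prop) [UD P] {U : Gen M}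
    (w : ℕ → Ext U) (X : M) (h : ∀ z, P _ Ext.mem (cons z w) → ∃ x, x ∈ X ∧ z = val x U) :
    ∃ b, b ∈ pow (prd X (Fo.PP : M)) ∧ ∀ z, Ext.mem z (val b U) ↔ P _ Ext.mem (cons z w) := by
  choose v hv using fun n => (w n).ex
  obtain rfl : w = fun n => val (v n) U := funext fun n => (hv n).symm
  obtain ⟨b, h1, h2⟩ := (cl_ud P).name v X
  refine ⟨b, h1, fun z => (h2 U z).trans ?_⟩
  simp only [val_cons]
  exact ⟨fun ⟨x, _, e, g⟩ => e ▸ g, fun g => let ⟨x, g1, e⟩ := h z g; ⟨x, g1, e, e ▸ g⟩⟩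

theorem ex_cover {U : Gen M} (x : Ext U) : ∃ X : M, (∀ z, Ext.mem z x → ∃ a, a ∈ X ∧ z = val a U) ∧
    ∀ y z, Ext.mem y x → Ext.mem z y → ∃ a, a ∈ X ∧ z = val a U := by
  obtain ⟨a, rfl⟩ := x.ex
  obtain ⟨X, hX, ha⟩ := ex_tr a
  refine ⟨X, fun z hz => ?_, fun y z hy hz => ?_⟩
  · obtain ⟨x, s, h1, -, e⟩ := mem_val.1 hz
    exact ⟨x, hX.op_left ha h1, e⟩
  · obtain ⟨x, s, h1, -, rfl⟩ := mem_val.1 hy
    obtain ⟨x', s', h2, -, e⟩ := mem_val.1 hz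
    exact ⟨x', hX.op_left (hX.op_left ha h1) h2, e⟩

theorem Ext.found {U : Gen M} (x : Ext U) (h : ∃ y, Ext.mem y x) :
    ∃ y, Ext.mem y x ∧ ∀ z, Ext.mem z y → ¬ Ext.mem z x := by
  obtain ⟨a, rfl⟩ := x.ex
  obtain ⟨y, hy⟩ := h
  obtain ⟨b, rfl⟩ := y.ex
  obtain ⟨c, hc, hb⟩ := ex_rank b
  obtain ⟨p, hp, e⟩ := val_mem.1 hy
  obtain ⟨d, q, hd, hq, ⟨s, g1, b, g2, g3⟩, g4⟩ :=
    U.least (fun p c => ∃ b, b ∈ Vv c ∧ FM p b a) hc hp ⟨b, hb, e⟩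
  refine ⟨val b U, val_mem.2 ⟨s, U.up hq g1, g3⟩, fun z hz hz' => ?_⟩
  obtain ⟨x, t, h1, -, rfl⟩ := mem_val.1 hz
  obtain ⟨r, hr, e⟩ := val_mem.1 hz'
  obtain ⟨r', -, k1, k2⟩ := U.dir hq hr
  obtain ⟨d', k3, k4⟩ := (mem_Vv hd).1 g2
  have hT := Vv_tr (hd.el k3)
  exact g4 d' k3 r' k1 r k2 ⟨x, hT _ (hT _ (k4 _ h1) _ (mem_upair.2 (Or.inl rfl))) _
    (mem_upair.2 (Or.inl rfl)), e⟩

/-- one step in the definition of canonical names -/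
noncomputable def GC (f : M) : M := img f fun p => op (snd p) Fo.top

instance : Fn1 (GC : M → M) := ⟨by unfold GC; infer_instance⟩

/-- canonical names -/
noncomputable def chk (a : M) : M := rcE GC a

instance tm_chk (a : (ℕ → M) → M) [Tm a] : Tm fun v => chk (a v) := by
  unfold chk; infer_instance

theorem op_mem_chk {a x s : M} : op x s ∈ chk a ↔ ∃ y, y ∈ a ∧ x = chk y ∧ s = Fo.top := by
  rw [chk, rcE_eq, GC]
  simp only [mem_img, mem_lam, op_eq_iff]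
  refine ⟨?_, fun ⟨y, hy, e⟩ => ⟨_, ⟨y, hy, rfl⟩, by rw [snd_op]; exact e⟩⟩
  rintro ⟨_, ⟨y, hy, rfl⟩, e⟩
  exact ⟨y, hy, by rw [snd_op] at e; exact e⟩

/-- the embedding of the ground model -/
noncomputable def jj (U : Gen M) (a : M) : Ext U := val (chk a) U

theorem mem_jj0 {U : Gen M} {z : Ext U} {a : M} :
    Ext.mem z (jj U a) ↔ ∃ y, y ∈ a ∧ z = jj U y := by
  simp only [jj, mem_val, op_mem_chk]
  exact ⟨fun ⟨_, _, ⟨y, h1, h2, _⟩, _, e⟩ => ⟨y, h1, h2 ▸ e⟩,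
    fun ⟨y, h1, e⟩ => ⟨_, _, ⟨y, h1, rfl, rfl⟩, U.top, e⟩⟩

theorem Ext.choice {U : Gen M} (x : Ext U) (h1 : ∀ y, Ext.mem y x → ∃ z, Ext.mem z y)
    (h2 : ∀ y y' z, Ext.mem y x → Ext.mem y' x → Ext.mem z y → Ext.mem z y' → y = y') :
    ∃ c, ∀ y, Ext.mem y x → ∃! z, Ext.mem z y ∧ Ext.mem z c := by
  obtain ⟨X, -, hX⟩ := ex_cover x
  obtain ⟨a, rfl⟩ := x.ex
  obtain ⟨c, hc⟩ := chs' (pow X) (fun Z => ∃ x, x ∈ Z) (fun Z y => y ∈ Z) fun _ _ h => h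
  obtain ⟨l, F, hl, hF, -⟩ := wo X c fun Y hY => hc Y (mem_pow.2 hY)
  obtain ⟨b, -, hb⟩ := ex_name X fun p t => ∃ i, i ∈ l ∧ t = ap F i ∧ ∃ y, FM p y a ∧ FM p t y ∧
    ∀ j, j ∈ i → ap F j ∈ X → ∀ r, r ≤ p → ¬ FM r (ap F j) y
  have key : ∀ y i j, Ext.mem y (val a U) → i ∈ j → ap F i ∈ X → Ext.mem (val (ap F i) U) y →
      Ext.mem (val (ap F j) U) y → ∀ p, U.G p → ∀ w, FM p w a → FM p (ap F j) w →
      ¬ ∀ k, k ∈ j → ap F k ∈ X → ∀ r, r ≤ p → ¬ FM r (ap F k) w :=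
    fun y i j hy hij hi g1 g2 p hp w g3 g4 g5 => by
      obtain rfl := h2 _ _ _ hy (val_mem.2 ⟨p, hp, g3⟩) g2 (val_mem.2 ⟨p, hp, g4⟩)
      obtain ⟨q, hq, e⟩ := val_mem.1 g1
      obtain ⟨r, -, k1, k2⟩ := U.dir hp hq
      exact g5 i hij hi r k1 (e.mono k2)
  refine ⟨val b U, fun y hy => ?_⟩
  obtain ⟨z, hz⟩ := h1 y hy
  obtain ⟨t, ht, rfl⟩ := hX y z hy hz
  obtain ⟨i, hi, rfl⟩ := hF t ht
  obtain ⟨w, rfl⟩ := y.ex
  obtain ⟨p, hp, e⟩ := val_mem.1 hz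
  obtain ⟨j, q, hj, hq, ⟨s, g1, g2, g3, g4⟩, g5⟩ := U.least
    (fun p i => i ∈ l ∧ ap F i ∈ X ∧ FM p (ap F i) w) (hl.el hi) hp ⟨hi, ht, e⟩
  obtain ⟨p', hp', e'⟩ := val_mem.1 hy
  obtain ⟨r, hr, k1, k2⟩ := U.dir hq hp'
  have m1 : Ext.mem (val (ap F j) U) (val w U) := val_mem.2 ⟨s, U.up hq g1, g4⟩
  have m2 : ∀ k, k ∈ j → ap F k ∈ X → ∀ r', r' ≤ r → ¬ FM r' (ap F k) w :=
    fun k hk hkX r' hr' g => g5 k hk r' (ftr hr' k1) r' (frl hr') ⟨hl.tr g2 hk, hkX, g⟩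
  refine ⟨val (ap F j) U, ⟨m1, (hb U _).2 ⟨_, g3, rfl, r, hr, j, g2, rfl, w, e'.mono k2,
    g4.mono (ftr k1 g1), m2⟩⟩, fun z ⟨n1, n2⟩ => ?_⟩
  obtain ⟨_, n3, rfl, u, hu, k, hk, rfl, w', n4, n5, n6⟩ := (hb U _).1 n2
  rcases (hl.el hk).tri hj with g | g | g
  · exact (key _ k j hy g n3 n1 m1 r hr w (e'.mono k2) (g4.mono (ftr k1 g1)) m2).elim
  · rw [g]
  · exact (key _ j k hy g g3 m1 n1 u hu w' n4 n5 n6).elim

theorem ext_isZFC (U : Gen M) : IsZFC (M := Ext U) Ext.mem where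
  ext := Ext.ext
  found := Ext.found
  pair x y := by
    obtain ⟨a, rfl⟩ := x.ex
    obtain ⟨b, rfl⟩ := y.ex
    obtain ⟨c, -, hc⟩ := ex_set (fun _ _ v => v 0 = v 1 ∨ v 0 = v 2)
      (cons (val a U) fun _ => val b U) (upair a b) fun z h =>
        h.elim (fun e => ⟨a, mem_upair.2 (Or.inl rfl), e⟩) fun e => ⟨b, mem_upair.2 (Or.inr rfl), e⟩
    exact ⟨_, hc⟩
  union x := by
    obtain ⟨X, -, hX⟩ := ex_cover x
    obtain ⟨c, -, hc⟩ := ex_set (fun _ mem v => ∃ y, mem y (v 1) ∧ mem (v 0) y) (fun _ => x) X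
      fun z ⟨y, h⟩ => hX y z h.1 h.2
    exact ⟨_, hc⟩
  power x := by
    obtain ⟨X, hX, -⟩ := ex_cover x
    obtain ⟨c, -, hc⟩ := ex_set (fun _ mem v => ∀ y, mem y (v 0) → mem y (v 1)) (fun _ => x)
      (pow (prd X Fo.PP)) fun z h => by
        obtain ⟨b, h1, h2⟩ := ex_set (fun _ mem v => mem (v 0) (v 1)) (fun _ => z) X
          fun y hy => hX y (h y hy)
        exact ⟨b, h1, Ext.ext _ _ fun y => (h2 y).symm⟩
    exact ⟨_, hc⟩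
  inf := by
    refine ⟨jj U om, ⟨jj U emp, mem_jj0.2 ⟨_, emp_mem_om, rfl⟩, fun x hx => ?_⟩, fun x hx => ?_⟩
    · obtain ⟨y, hy, -⟩ := mem_jj0.1 hx
      exact not_mem_emp y hy
    · obtain ⟨n, hn, rfl⟩ := mem_jj0.1 hx
      refine ⟨jj U (suc n), mem_jj0.2 ⟨_, suc_mem_om hn, rfl⟩, fun z => ?_⟩
      simp only [mem_jj0, mem_suc]
      exact ⟨fun ⟨y, h, e⟩ => h.imp (fun h => ⟨y, h, e⟩) fun h => e.trans (congrArg _ h),
        fun h => h.elim (fun ⟨y, h, e⟩ => ⟨y, Or.inl h, e⟩) fun e => ⟨n, Or.inr rfl, e⟩⟩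
  sep φ v x := by
    obtain ⟨X, hX, -⟩ := ex_cover x
    have u : UD.{v} fun M mem w =>
        Sat mem φ (Function.update (fun n => w (n + 1 + 1)) 0 (w 0)) :=
      ((ud_sat φ).ren fun n => if n = 0 then 0 else n + 2).congr fun M mem v => by
        apply Iff.of_eq
        congr 1
        funext n
        by_cases e : n = 0 <;> simp [e]
    obtain ⟨c, -, hc⟩ := ex_set (fun _ mem w => mem (w 0) (w 1) ∧
      Sat mem φ (Function.update (fun n => w (n + 1 + 1)) 0 (w 0))) (cons x v) X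
      fun z h => hX z h.1
    exact ⟨_, hc⟩
  repl φ v x h := by
    obtain ⟨X, hX, -⟩ := ex_cover x
    have u : ∀ i j k : ℕ, UD.{v} fun M mem w => Sat mem φ
        (Function.update (Function.update (fun n => w (n + k)) 0 (w i)) 1 (w j)) := fun i j k =>
      ((ud_sat φ).ren fun n => if n = 1 then j else if n = 0 then i else n + k).congr
        fun M mem v => by
          apply Iff.of_eq
          congr 1
          funext n
          by_cases e : n = 1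
          · simp [e]
          · by_cases e' : n = 0 <;> simp [e, e']
    have u1 : UD.{v} fun M mem w => Sat mem φ (Function.update (Function.update
      (fun n => w (n + 1 + 1 + 1)) 0 (w 0)) 1 (w (0 + 1))) := u 0 1 3
    choose a ha using fun n => (v n).ex
    obtain rfl : v = fun n => val (a n) U := funext fun n => (ha n).symm
    obtain ⟨R, h1, h2⟩ := @cl_ud M _ _ _ (u 0 1 2)
    have h3 : D3 fun p x y => R p (cons x (cons y a)) := ⟨(h1.out.subst (fun i => Nat.casesOn i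
        (fun w => w 0) fun j => Nat.casesOn j (fun w => w 1) fun k => Nat.casesOn k (fun w => w 2)
          fun l _ => a l) fun i => by
          rcases i with _ | _ | _ | i
          exacts [tm_var 0, tm_var 1, tm_var 2, tm_cst _]).congr fun w => by
      apply Iff.of_eq
      congr 1
      funext i
      rcases i with _ | _ | i <;> rfl⟩
    obtain ⟨S, hS⟩ : ∃ S : M → M → M → Prop, S = fun p x y => R p (cons x (cons y a)) := ⟨_, rfl⟩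
    rw [← hS] at h3
    have h4 : ∀ x y, Sat Ext.mem φ (Function.update (Function.update (fun n => val (a n) U) 0
        (val x U)) 1 (val y U)) ↔ ∃ p, U.G p ∧ S p x y := fun x y => by
      rw [hS]
      exact h2 (cons x (cons y a)) U
    obtain ⟨Y, hY⟩ := collect (prd X Fo.PP)
      (fun z y => (∃ y', S (snd z) (fst z) y') → S (snd z) (fst z) y) fun z _ => by
        by_cases g : ∃ y', S (snd z) (fst z) y'
        · exact g.imp fun _ g _ => g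
        · exact ⟨z, fun g' => absurd g' g⟩
    obtain ⟨c, -, hc⟩ := ex_set (fun _ mem w => ∃ x, mem x (w 1) ∧ Sat mem φ (Function.update
      (Function.update (fun n => w (n + 1 + 1)) 0 x) 1 (w 0))) (cons x fun n => val (a n) U) Y
      fun z ⟨x', g1, g2⟩ => by
        obtain ⟨t, ht, rfl⟩ := hX x' g1
        obtain ⟨y, rfl⟩ := z.ex
        obtain ⟨p, hp, g3⟩ := (h4 t y).1 g2
        obtain ⟨y', g4, g5⟩ := hY (op t p) (op_mem_prd.2 ⟨ht, U.mem hp⟩)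
        rw [fst_op, snd_op] at g5
        exact ⟨y', g4, (h _ g1).unique g2 ((h4 t y').2 ⟨p, hp, g5 ⟨y, g3⟩⟩)⟩
    exact ⟨_, hc⟩
  choice := Ext.choice

instance zmExt (U : Gen M) : Zm (Ext U) := { mem := fun a x => Ext.mem x a, zfc := ext_isZFC U }

variable {U : Gen M}

theorem mem_jj {z : Ext U} {a : M} : z ∈ jj U a ↔ ∃ y, y ∈ a ∧ z = jj U y := mem_jj0

theorem jj_inj {a b : M} (h : jj U a = jj U b) : a = b := by
  obtain ⟨p, hp, e⟩ := val_eq.1 h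
  refine mem_ind (fun a => ∀ b p, p ≤ p → FEq (chk a) (chk b) p → a = b) (fun a ih b p hp e =>
    Sub.antisymm (fun x hx => ?_) fun y hy => ?_) a b p (U.rfl hp) e
  · obtain ⟨r, hr, _, _, g1, -, g2⟩ := e.bis.1 _ _ (op_mem_chk.2 ⟨x, hx, rfl, rfl⟩) p hp (ftop hp)
    obtain ⟨y, hy, rfl, -⟩ := op_mem_chk.1 g1
    exact ih x hx y r (frl hr) g2 ▸ hy
  · obtain ⟨r, hr, _, _, g1, -, g2⟩ := e.bis.2 _ _ (op_mem_chk.2 ⟨y, hy, rfl, rfl⟩) p hp (ftop hp)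
    obtain ⟨x, hx, rfl, -⟩ := op_mem_chk.1 g1
    exact ih x hx y r (frl hr) g2 ▸ hx

theorem jj_mem {a b : M} : jj U a ∈ jj U b ↔ a ∈ b :=
  mem_jj.trans ⟨fun ⟨_, h, e⟩ => jj_inj e ▸ h, fun h => ⟨a, h, rfl⟩⟩

theorem jj_sub {a b : M} : Sub (jj U a) (jj U b) ↔ Sub a b :=
  ⟨fun h x hx => jj_mem.1 (h _ (jj_mem.2 hx)), fun h z hz => by
    obtain ⟨y, hy, rfl⟩ := mem_jj.1 hz
    exact jj_mem.2 (h y hy)⟩

theorem jj_emp : jj U emp = emp := eq_emp fun _ hz =>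
  let ⟨y, hy, _⟩ := mem_jj.1 hz; not_mem_emp y hy

theorem jj_upair (a b : M) : jj U (upair a b) = upair (jj U a) (jj U b) := ext fun z => by
  simp only [mem_jj, mem_upair]
  exact ⟨fun ⟨y, h, e⟩ => h.imp (fun h => e.trans (congrArg _ h)) fun h => e.trans (congrArg _ h),
    fun h => h.elim (fun e => ⟨a, Or.inl rfl, e⟩) fun e => ⟨b, Or.inr rfl, e⟩⟩

theorem jj_op (a b : M) : jj U (op a b) = op (jj U a) (jj U b) := by
  simp only [op, jj_upair]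

theorem jj_suc (a : M) : jj U (suc a) = suc (jj U a) := ext fun z => by
  simp only [mem_jj, mem_suc]
  exact ⟨fun ⟨y, h, e⟩ => h.imp (fun h => ⟨y, h, e⟩) fun h => e.trans (congrArg _ h),
    fun h => h.elim (fun ⟨y, h, e⟩ => ⟨y, Or.inl h, e⟩) fun e => ⟨a, Or.inr rfl, e⟩⟩

theorem op_mem_jj {f : M} {x y : Ext U} (h : op x y ∈ jj U f) :
    ∃ a b, op a b ∈ f ∧ x = jj U a ∧ y = jj U b := by
  obtain ⟨p, hp, e⟩ := mem_jj.1 h
  obtain ⟨q, -, e1⟩ := mem_jj.1 (e ▸ mem_upair.2 (Or.inr rfl) : upair x y ∈ jj U p)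
  obtain ⟨a, -, rfl⟩ := mem_jj.1 (e1 ▸ mem_upair.2 (Or.inl rfl) : x ∈ jj U q)
  obtain ⟨b, -, rfl⟩ := mem_jj.1 (e1 ▸ mem_upair.2 (Or.inr rfl) : y ∈ jj U q)
  exact ⟨a, b, jj_mem.1 (jj_op a b ▸ h), rfl, rfl⟩

theorem jj_ap (f x : M) : jj U (ap f x) = ap (jj U f) (jj U x) := ext fun z => by
  simp only [mem_jj (a := ap f x), mem_ap]
  constructor
  · rintro ⟨y, ⟨w, h1, h2⟩, rfl⟩
    exact ⟨jj U w, jj_op x w ▸ jj_mem.2 h1, jj_mem.2 h2⟩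
  · rintro ⟨y, h1, h2⟩
    obtain ⟨a, b, h3, e, rfl⟩ := op_mem_jj h1
    obtain ⟨c, hc, rfl⟩ := mem_jj.1 h2
    exact ⟨c, ⟨b, jj_inj e ▸ h3, hc⟩, rfl⟩

theorem jj_od {a : M} (h : Od a) : Od (jj U a) := by
  refine ⟨fun x hx => ?_, fun x y hx hy => ?_⟩
  · obtain ⟨x, hx', rfl⟩ := mem_jj.1 hx
    exact jj_sub.2 (h.1 x hx')
  · obtain ⟨x, hx', rfl⟩ := mem_jj.1 hx
    obtain ⟨y, hy', rfl⟩ := mem_jj.1 hy
    exact jj_sub.2 (h.2 x y hx' hy')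

theorem jj_le {a b : M} (h : Le a b) : Le (jj U a) (jj U b) := by
  obtain ⟨f, h1, h2⟩ := h
  refine ⟨jj U f, fun x hx => ?_, fun x y hx hy e => ?_⟩
  · obtain ⟨x, hx', rfl⟩ := mem_jj.1 hx
    exact jj_ap (U := U) f x ▸ jj_mem.2 (h1 x hx')
  · obtain ⟨x, hx', rfl⟩ := mem_jj.1 hx
    obtain ⟨y, hy', rfl⟩ := mem_jj.1 hy
    rw [← jj_ap, ← jj_ap] at e
    rw [h2 x y hx' hy' (jj_inj e)]

omit [Fo M] in
theorem om_cases {n : M} (h : n ∈ (om : M)) : n = emp ∨ ∃ m, m ∈ (om : M) ∧ n = suc m :=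
  om_ind (fun n => n = emp ∨ ∃ m, m ∈ (om : M) ∧ n = suc m) (Or.inl rfl)
    (fun n hn _ => Or.inr ⟨n, hn, rfl⟩) h

theorem jj_om : jj U om = om := by
  rcases (jj_od (U := U) od_om).tri od_om with h | h | h
  · exact (not_mem_self _ (mem_om.1 h _ ⟨jj_emp (U := U) ▸ jj_mem.2 emp_mem_om, fun x hx => by
      obtain ⟨x, hx', rfl⟩ := mem_jj.1 hx
      exact jj_suc (U := U) x ▸ jj_mem.2 (suc_mem_om hx')⟩)).elim
  · exact h
  · obtain ⟨n, hn, e⟩ := mem_jj.1 h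
    rcases om_cases hn with rfl | ⟨m, -, rfl⟩
    · exact (not_mem_emp _ (jj_emp (U := U) ▸ e ▸ emp_mem_om)).elim
    · rw [jj_suc] at e
      exact (not_mem_self _ (e ▸ suc_mem_om (e ▸ mem_suc.2 (Or.inr rfl) : jj U m ∈ om))).elim

/-- subsets of ground sets described by the generic filter -/
theorem ex_gset (U : Gen M) (X : M) (R : M → M → Prop) [D2 R] :
    ∃ b : Ext U, ∀ z, z ∈ b ↔ ∃ x, x ∈ X ∧ z = jj U x ∧ ∃ p, U.G p ∧ R p x := by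
  obtain ⟨b, -, hb⟩ := ex_name (img X fun x => chk x) fun p t => ∃ x, x ∈ X ∧ t = chk x ∧ R p x
  refine ⟨val b U, fun z => (hb U z).trans ⟨?_, ?_⟩⟩
  · rintro ⟨_, -, rfl, p, hp, x, hx, rfl, h⟩
    exact ⟨x, hx, rfl, p, hp, h⟩
  · rintro ⟨x, hx, rfl, p, hp, h⟩
    exact ⟨_, mem_img.2 ⟨x, hx, rfl⟩, rfl, p, hp, x, hx, rfl, h⟩

end Pool.Agent.P.MP_5f3b23_lc.Zf
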