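import Pool.Agent.P.MP_2e9c36_lc.YUd

set_option autoImplicit false

/-! Functions, ranks, collection and recursion in a model of ZFC. -/

open Pool.Agent.Lib.PosetForcing

namespace Pool.Agent.P.MP_5f3b23_lc.Zf

universe v

variable {M : Type v} [Zm M]

/-- definable unary predicate -/
class D1 (P : M → Prop) : Prop where
  out : Df fun v => P (v 0)

/-- definable binary predicate -/
class D2 (R : M → M → Prop) : Prop where
  out : Df fun v => R (v 0) (v 1)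

/-- definable ternary predicate -/
class D3 (R : M → M → M → Prop) : Prop where
  out : Df fun v => R (v 0) (v 1) (v 2)

/-- definable predicate of four arguments -/
class D4 (R : M → M → M → M → Prop) : Prop where
  out : Df fun v => R (v 0) (v 1) (v 2) (v 3)

instance d1_of (P : M → Prop) [h : Df fun v => P (v 0)] : D1 P := ⟨h⟩

instance d2_of (R : M → M → Prop) [h : Df fun v => R (v 0) (v 1)] : D2 R := ⟨h⟩

instance d3_of (R : M → M → M → Prop) [h : Df fun v => R (v 0) (v 1) (v 2)] : D3 R := ⟨h⟩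

instance d4_of (R : M → M → M → M → Prop) [h : Df fun v => R (v 0) (v 1) (v 2) (v 3)] : D4 R :=
  ⟨h⟩

instance (priority := low) df_d1 (P : M → Prop) (s : (ℕ → M) → M) [h : D1 P] [Tm s] :
    Df fun v => P (s v) := h.out.comp s

instance (priority := low) df_d2 (R : M → M → Prop) (s t : (ℕ → M) → M) [h : D2 R] [Tm s]
    [Tm t] : Df fun v => R (s v) (t v) := h.out.comp2 s t

instance (priority := low) df_d3 (R : M → M → M → Prop) (s t u : (ℕ → M) → M) [h : D3 R]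
    [hs : Tm s] [ht : Tm t] [hu : Tm u] : Df fun v => R (s v) (t v) (u v) :=
  h.out.out.subst (fun i => Nat.casesOn i s fun j => Nat.casesOn j t fun _ => u) fun i => by
    rcases i with _ | _ | i
    exacts [hs, ht, hu]

instance (priority := low) df_d4 (R : M → M → M → M → Prop) (s t u w : (ℕ → M) → M) [h : D4 R]
    [hs : Tm s] [ht : Tm t] [hu : Tm u] [hw : Tm w] : Df fun v => R (s v) (t v) (u v) (w v) :=
  h.out.out.subst (fun i => Nat.casesOn i s fun j => Nat.casesOn j t fun k =>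
    Nat.casesOn k u fun _ => w) fun i => by
    rcases i with _ | _ | _ | i
    exacts [hs, ht, hu, hw]

instance df_true : Df fun _ : ℕ → M => True := (df_eq (fun v => v 0) fun v => v 0).congr
  fun _ => by simp

instance df_ne (a b : (ℕ → M) → M) [Tm a] [Tm b] : Df fun v => a v ≠ b v := df_not _

instance df_nmem (a b : (ℕ → M) → M) [Tm a] [Tm b] : Df fun v => a v ∉ b v := df_not _

theorem op_eq_iff {a b c d : M} : op a b = op c d ↔ a = c ∧ b = d :=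
  ⟨op_inj, fun h => by rw [h.1, h.2]⟩

/-- first component -/
noncomputable def fst (p : M) : M := the fun x => ∃ y, p = op x y

/-- second component -/
noncomputable def snd (p : M) : M := the fun y => ∃ x, p = op x y

instance tm_fst (a : (ℕ → M) → M) [Tm a] : Tm fun v => fst (a v) := by
  unfold fst; infer_instance

instance tm_snd (a : (ℕ → M) → M) [Tm a] : Tm fun v => snd (a v) := by
  unfold snd; infer_instance

@[simp] theorem fst_op (a b : M) : fst (op a b) = a :=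
  the_eq ⟨b, rfl⟩ fun _ ⟨_, h⟩ => (op_inj h).1.symm

@[simp] theorem snd_op (a b : M) : snd (op a b) = b :=
  the_eq ⟨a, rfl⟩ fun _ ⟨_, h⟩ => (op_inj h).2.symm

theorem op_mem_prd {a b x y : M} : op x y ∈ prd a b ↔ x ∈ a ∧ y ∈ b := by
  rw [mem_prd]
  refine ⟨fun ⟨_, _, h1, h2, e⟩ => ?_, fun h => ⟨x, y, h.1, h.2, rfl⟩⟩
  obtain ⟨rfl, rfl⟩ := op_inj e
  exact ⟨h1, h2⟩

theorem prd_eta {a b p : M} (h : p ∈ prd a b) :
    fst p ∈ a ∧ snd p ∈ b ∧ p = op (fst p) (snd p) := by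
  obtain ⟨x, y, hx, hy, rfl⟩ := mem_prd.1 h
  simp [hx, hy]

open Classical in
/-- definition by cases -/
noncomputable def cnd (P : Prop) (a b : M) : M := if P then a else b

omit [Zm M] in
theorem cnd_pos {P : Prop} {a b : M} (h : P) : cnd P a b = a := if_pos h

omit [Zm M] in
theorem cnd_neg {P : Prop} {a b : M} (h : ¬ P) : cnd P a b = b := if_neg h

instance tm_cnd (P : (ℕ → M) → Prop) (a b : (ℕ → M) → M) [hP : Df P] [Tm a] [Tm b] :
    Tm fun v => cnd (P v) (a v) (b v) := by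
  have h1 : Df fun v : ℕ → M => P fun i => v (i + 1) := ⟨hP.out.ren _⟩
  refine tm_of_mem _ (fun x v => (P v ∧ x ∈ a v) ∨ (¬ P v ∧ x ∈ b v)) fun v x => ?_
  by_cases h : P v
  · rw [cnd_pos h]; simp [h]
  · rw [cnd_neg h]; simp [h]

/-- adding an element -/
noncomputable def ins (x a : M) : M := un a (upair x x)

theorem mem_ins {x a y : M} : y ∈ ins x a ↔ y ∈ a ∨ y = x := by simp [ins, mem_un, mem_upair]

instance tm_ins (a b : (ℕ → M) → M) [Tm a] [Tm b] : Tm fun v => ins (a v) (b v) := by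
  unfold ins; infer_instance

theorem sub_ins (x a : M) : Sub a (ins x a) := fun _ h => mem_ins.2 (Or.inl h)

theorem sep_sub {a : M} {P : M → Prop} [Df fun v => P (v 0)] : Sub (sep a P) a :=
  fun _ h => (mem_sep.1 h).1

theorem emp_sub (a : M) : Sub emp a := fun x h => (not_mem_emp x h).elim

/-- indexed union -/
noncomputable def bUn (a : M) (F : M → M) : M := sUn (img a F)

instance tm_bUn (a : (ℕ → M) → M) (F : M → (ℕ → M) → M) [Tm a]
    [Tm fun v => F (v 0) fun i => v (i + 1)] : Tm fun v => bUn (a v) fun x => F x v := by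
  unfold bUn; infer_instance

theorem mem_bUn {a : M} {F : M → M} [Tm fun v => F (v 0)] {y : M} :
    y ∈ bUn a F ↔ ∃ x, x ∈ a ∧ y ∈ F x := by
  simp only [bUn, mem_sUn, mem_img]
  exact ⟨fun ⟨_, ⟨x, hx, e⟩, h⟩ => ⟨x, hx, e ▸ h⟩, fun ⟨x, hx, h⟩ => ⟨_, ⟨x, hx, rfl⟩, h⟩⟩

theorem mem_ap {f x z : M} : z ∈ ap f x ↔ ∃ y, op x y ∈ f ∧ z ∈ y := by
  simp only [ap, mem_sUn, mem_sep]
  exact ⟨fun ⟨y, h, hz⟩ => ⟨y, h.2, hz⟩, fun ⟨y, h, hz⟩ => ⟨y, ⟨⟨upair x y,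
    ⟨op x y, h, mem_upair.2 (Or.inr rfl)⟩, mem_upair.2 (Or.inr rfl)⟩, h⟩, hz⟩⟩

theorem ap_congr {f g x : M} (h : ∀ y, op x y ∈ f ↔ op x y ∈ g) : ap f x = ap g x :=
  ext fun z => by simp only [mem_ap, h]

/-- domain -/
noncomputable def dom (f : M) : M := img f fun p => fst p

instance tm_dom (a : (ℕ → M) → M) [Tm a] : Tm fun v => dom (a v) := by
  unfold dom; infer_instance

theorem mem_dom {f x : M} : x ∈ dom f ↔ ∃ p, p ∈ f ∧ x = fst p := mem_img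

theorem dom_mono {f g : M} (h : Sub f g) : Sub (dom f) (dom g) := fun _ hx =>
  let ⟨p, hp, e⟩ := mem_dom.1 hx; mem_dom.2 ⟨p, h p hp, e⟩

theorem dom_lam {a : M} {F : M → M} [Tm fun v => F (v 0)] : dom (lam a F) = a := by
  refine ext fun x => mem_dom.trans ⟨?_, fun h => ⟨_, mem_lam.2 ⟨x, h, rfl⟩, by simp⟩⟩
  rintro ⟨p, hp, rfl⟩
  obtain ⟨y, hy, rfl⟩ := mem_lam.1 hp
  simpa using hy

theorem dom_emp : dom (emp : M) = emp := eq_emp fun _ hx =>
  let ⟨p, hp, _⟩ := mem_dom.1 hx; not_mem_emp p hp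

theorem dom_ins (f x y : M) : dom (ins (op x y) f) = ins x (dom f) := by
  refine ext fun z => ?_
  simp only [mem_dom, mem_ins]
  constructor
  · rintro ⟨p, hp | rfl, rfl⟩
    exacts [Or.inl ⟨p, hp, rfl⟩, Or.inr (fst_op _ _)]
  · rintro (⟨p, hp, rfl⟩ | rfl)
    exacts [⟨p, Or.inl hp, rfl⟩, ⟨_, Or.inr rfl, (fst_op _ _).symm⟩]

/-- restriction -/
noncomputable def res (f a : M) : M := sep f fun p => fst p ∈ a

instance tm_res (a b : (ℕ → M) → M) [Tm a] [Tm b] : Tm fun v => res (a v) (b v) := by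
  unfold res; infer_instance

theorem mem_res {f a p : M} : p ∈ res f a ↔ p ∈ f ∧ fst p ∈ a := mem_sep

theorem res_sub (f a : M) : Sub (res f a) f := sep_sub

theorem res_mono {f g a b : M} (h : Sub f g) (h' : Sub a b) : Sub (res f a) (res g b) :=
  fun p hp => mem_res.2 ⟨h p (mem_res.1 hp).1, h' _ (mem_res.1 hp).2⟩

theorem res_res (f : M) {a b : M} (h : Sub b a) : res (res f a) b = res f b :=
  ext fun p => by
    simp only [mem_res]
    exact ⟨fun g => ⟨g.1.1, g.2⟩, fun g => ⟨⟨g.1, h _ g.2⟩, g.2⟩⟩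

theorem ap_res (f : M) {a x : M} (h : x ∈ a) : ap (res f a) x = ap f x :=
  ap_congr fun y => by simp [mem_res, h]

theorem mem_dom_res {f a x : M} : x ∈ dom (res f a) ↔ x ∈ dom f ∧ x ∈ a := by
  simp only [mem_dom, mem_res]
  exact ⟨fun ⟨p, h, e⟩ => ⟨⟨p, h.1, e⟩, e ▸ h.2⟩, fun ⟨⟨p, h, e⟩, h'⟩ => ⟨p, ⟨h, e ▸ h'⟩, e⟩⟩

theorem dom_res {f a : M} (h : Sub a (dom f)) : dom (res f a) = a :=
  ext fun x => mem_dom_res.trans ⟨fun g => g.2, fun g => ⟨h x g, g⟩⟩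

theorem res_self {f a : M} (h : Sub (dom f) a) : res f a = f :=
  (res_sub f a).antisymm fun p hp => mem_res.2 ⟨hp, h _ (mem_dom.2 ⟨p, hp, rfl⟩)⟩

theorem res_emp (f : M) : res f emp = emp := eq_emp fun _ h => not_mem_emp _ (mem_res.1 h).2

theorem res_lam {a b : M} {F : M → M} [Tm fun v => F (v 0)] (h : Sub a b) :
    res (lam b F) a = lam a F := by
  refine ext fun p => ?_
  simp only [mem_res, mem_lam]
  constructor
  · rintro ⟨⟨x, -, rfl⟩, h2⟩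
    exact ⟨x, by simpa using h2, rfl⟩
  · rintro ⟨x, hx, rfl⟩
    exact ⟨⟨x, h x hx, rfl⟩, by simpa using hx⟩

theorem res_ins {f x y a : M} (h : x ∉ a) : res (ins (op x y) f) a = res f a := by
  refine ext fun p => ?_
  simp only [mem_res, mem_ins]
  refine ⟨fun ⟨h1, h2⟩ => ⟨h1.resolve_right fun e => h (by simpa [e] using h2), h2⟩,
    fun g => ⟨Or.inl g.1, g.2⟩⟩

theorem ap_ins_ne {f x y z : M} (h : z ≠ x) : ap (ins (op x y) f) z = ap f z :=
  ap_congr fun w => by simp [mem_ins, op_eq_iff, h]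

theorem ap_ins {f x y : M} (h : x ∉ dom f) : ap (ins (op x y) f) x = y :=
  ap_eq (mem_ins.2 (Or.inr rfl)) fun y' h' => (mem_ins.1 h').elim
    (fun g => (h (mem_dom.2 ⟨_, g, by simp⟩)).elim) fun e => (op_inj e).2

/-- `f` is a function -/
def IsF (f : M) : Prop := ∀ p, p ∈ f → p = op (fst p) (ap f (fst p))

instance df_isF (a : (ℕ → M) → M) [Tm a] : Df fun v => IsF (a v) := by
  unfold IsF; infer_instance

theorem isF_lam {a : M} {F : M → M} [Tm fun v => F (v 0)] : IsF (lam a F) := fun p hp => by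
  obtain ⟨x, hx, rfl⟩ := mem_lam.1 hp
  rw [fst_op, ap_lam hx]

theorem isF_emp : IsF (emp : M) := fun p hp => (not_mem_emp p hp).elim

theorem IsF.mem {f x : M} (h : IsF f) (hx : x ∈ dom f) : op x (ap f x) ∈ f := by
  obtain ⟨p, hp, rfl⟩ := mem_dom.1 hx
  exact h p hp ▸ hp

theorem IsF.ap_eq {f x y : M} (h : IsF f) (hx : op x y ∈ f) : ap f x = y := by
  have := h _ hx
  rw [fst_op] at this
  exact (op_inj this).2.symm

theorem IsF.sub {f g : M} (h : IsF g) (e : Sub f g) : IsF f := fun p hp => by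
  have h1 := h p (e p hp)
  rw [Zf.ap_eq (f := f) (y := ap g (fst p)) (h1 ▸ hp) fun y hy => (h.ap_eq (e _ hy)).symm]
  exact h1

theorem IsF.res {f : M} (h : IsF f) (a : M) : IsF (res f a) := h.sub (res_sub f a)

theorem IsF.ap_sub {f g x : M} (h : IsF g) (e : Sub f g) (hx : x ∈ dom f) : ap f x = ap g x :=
  (h.ap_eq (e _ ((h.sub e).mem hx))).symm

theorem IsF.eq_res {f g : M} (h : IsF g) (e : Sub f g) : f = Zf.res g (dom f) := by
  refine Sub.antisymm (fun p hp => mem_res.2 ⟨e p hp, mem_dom.2 ⟨p, hp, rfl⟩⟩) fun p hp => ?_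
  obtain ⟨h1, h2⟩ := mem_res.1 hp
  rw [h p h1, ← h.ap_sub e h2]
  exact (h.sub e).mem h2

theorem IsF.res_sub_eq {f g a : M} (h : IsF g) (e : Sub f g) (ha : Sub a (dom f)) :
    Zf.res f a = Zf.res g a := by
  rw [h.eq_res e, res_res _ ha]

theorem IsF.ins {f x : M} (h : IsF f) (hx : x ∉ dom f) (y : M) : IsF (ins (op x y) f) := by
  intro p hp
  rcases mem_ins.1 hp with hp | rfl
  · rw [ap_ins_ne fun e => hx (mem_dom.2 ⟨p, hp, e.symm⟩)]
    exact h p hp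
  · rw [fst_op, ap_ins hx]

theorem IsF.sub_of {f g : M} (hf : IsF f) (hg : IsF g) (h1 : Sub (dom f) (dom g))
    (h2 : ∀ x, x ∈ dom f → ap f x = ap g x) : Sub f g := fun p hp => by
  have hx : fst p ∈ dom f := mem_dom.2 ⟨p, hp, rfl⟩
  rw [hf p hp, h2 _ hx]
  exact hg.mem (h1 _ hx)

theorem IsF.ext {f g : M} (hf : IsF f) (hg : IsF g) (h1 : dom f = dom g)
    (h2 : ∀ x, x ∈ dom f → ap f x = ap g x) : f = g :=
  (hf.sub_of hg (h1 ▸ Sub.rfl) h2).antisymm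
    (hg.sub_of hf (h1 ▸ Sub.rfl) fun x hx => (h2 x (h1 ▸ hx)).symm)

/-- the set of functions from `a` to `b` -/
noncomputable def funs (a b : M) : M := sep (pow (prd a b)) fun f => IsF f ∧ dom f = a

instance tm_funs (a b : (ℕ → M) → M) [Tm a] [Tm b] : Tm fun v => funs (a v) (b v) := by
  unfold funs; infer_instance

theorem mem_funs {a b f : M} :
    f ∈ funs a b ↔ IsF f ∧ dom f = a ∧ ∀ x, x ∈ a → ap f x ∈ b := by
  rw [funs, mem_sep, mem_pow]
  constructor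
  · rintro ⟨h1, h2, rfl⟩
    exact ⟨h2, rfl, fun x hx => (op_mem_prd.1 (h1 _ (h2.mem hx))).2⟩
  · rintro ⟨h1, rfl, h3⟩
    refine ⟨fun p hp => ?_, h1, rfl⟩
    have hx : fst p ∈ dom f := mem_dom.2 ⟨p, hp, rfl⟩
    rw [h1 p hp]
    exact op_mem_prd.2 ⟨hx, h3 _ hx⟩

theorem lam_mem_funs {a b : M} {F : M → M} [Tm fun v => F (v 0)] (h : ∀ x, x ∈ a → F x ∈ b) :
    lam a F ∈ funs a b :=
  mem_funs.2 ⟨isF_lam, dom_lam, fun x hx => by rw [ap_lam hx]; exact h x hx⟩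

/-- transitive set -/
def Tr (X : M) : Prop := ∀ x, x ∈ X → Sub x X

instance df_tr (a : (ℕ → M) → M) [Tm a] : Df fun v => Tr (a v) := by
  unfold Tr; infer_instance

theorem ex_tr (a : M) : ∃ X : M, Tr X ∧ a ∈ X := by
  obtain ⟨G, hGe⟩ : ∃ G : M → M, G = fun f => ins a (bUn f fun p => sUn (snd p)) := ⟨_, rfl⟩
  have hG : Fn1 G := ⟨by rw [hGe]; infer_instance⟩
  have e : ∀ n, n ∈ (om : M) → ∀ x, x ∈ rc G n ↔ (∃ m, m ∈ n ∧ x ∈ sUn (rc G m)) ∨ x = a :=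
    fun n hn x => by
      rw [rc_eq G (od_om.el hn)]
      conv_lhs => rw [hGe]
      simp only [← hGe, mem_ins, mem_bUn, mem_lam]
      refine or_congr_left ⟨?_, fun ⟨m, hm, h⟩ => ⟨_, ⟨m, hm, rfl⟩, by simpa using h⟩⟩
      rintro ⟨_, ⟨m, hm, rfl⟩, h⟩
      exact ⟨m, hm, by simpa using h⟩
  refine ⟨bUn om fun n => rc G n, fun x hx y hy => ?_,
    mem_bUn.2 ⟨emp, emp_mem_om, (e _ emp_mem_om a).2 (Or.inr rfl)⟩⟩
  obtain ⟨n, hn, h⟩ := mem_bUn.1 hx
  exact mem_bUn.2 ⟨suc n, suc_mem_om hn, (e _ (suc_mem_om hn) y).2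
    (Or.inl ⟨n, mem_suc.2 (Or.inr rfl), mem_sUn.2 ⟨x, h, hy⟩⟩)⟩

theorem mem_ind (P : M → Prop) [Df fun v => P (v 0)] (h : ∀ a, (∀ b, b ∈ a → P b) → P a)
    (a : M) : P a := by
  by_contra hn
  obtain ⟨X, hX, ha⟩ := ex_tr a
  obtain ⟨b, hb, hm⟩ := zfc.found (sep X fun x => ¬ P x) ⟨a, mem_sep.2 ⟨ha, hn⟩⟩
  obtain ⟨h1, h2⟩ := mem_sep.1 hb
  exact h2 (h b fun c hc => not_not.1 fun h3 => hm c hc (mem_sep.2 ⟨hX b h1 c hc, h3⟩))

/-- one step of the cumulative hierarchy -/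
noncomputable def GV (f : M) : M := bUn f fun p => pow (snd p)

instance : Fn1 (GV : M → M) := ⟨by unfold GV; infer_instance⟩

/-- the cumulative hierarchy -/
noncomputable def Vv (a : M) : M := rc GV a

instance tm_Vv (a : (ℕ → M) → M) [Tm a] : Tm fun v => Vv (a v) := by
  unfold Vv; infer_instance

theorem mem_Vv {a x : M} (ha : Od a) : x ∈ Vv a ↔ ∃ b, b ∈ a ∧ Sub x (Vv b) := by
  rw [Vv, rc_eq GV ha, GV]
  simp only [mem_bUn, mem_lam, mem_pow]
  refine ⟨?_, fun ⟨m, hm, h⟩ => ⟨_, ⟨m, hm, rfl⟩, by rw [snd_op]; exact h⟩⟩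
  rintro ⟨_, ⟨m, hm, rfl⟩, h⟩
  exact ⟨m, hm, by rw [snd_op] at h; exact h⟩

theorem Vv_mono {a b : M} (ha : Od a) (hb : Od b) (h : Sub a b) : Sub (Vv a) (Vv b) :=
  fun _ hx => let ⟨c, hc, e⟩ := (mem_Vv ha).1 hx; (mem_Vv hb).2 ⟨c, h c hc, e⟩

theorem Vv_tr {a : M} (ha : Od a) : Tr (Vv a) := fun _ hx =>
  let ⟨c, hc, e⟩ := (mem_Vv ha).1 hx; e.trans (Vv_mono (ha.el hc) ha (ha.1 c hc))

theorem Vv_sub {a x y : M} (ha : Od a) (hx : x ∈ Vv a) (h : Sub y x) : y ∈ Vv a :=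
  let ⟨c, hc, e⟩ := (mem_Vv ha).1 hx; (mem_Vv ha).2 ⟨c, hc, h.trans e⟩

theorem od_sub_Vv {a : M} (ha : Od a) : Sub a (Vv a) :=
  od_ind (fun a => Sub a (Vv a)) (fun _ ha ih b hb => (mem_Vv ha).2 ⟨b, hb, ih b hb⟩) ha

theorem Od.mem_of_sub {a b c : M} (ha : Od a) (hc : Od c) (h : Sub a b) (hb : b ∈ c) : a ∈ c := by
  by_contra hn
  exact not_mem_self b (h b (hc.sub_of_not_mem ha hn b hb))

theorem mem_of_mem_Vv {a x : M} (ha : Od a) (hx : Od x) (h : x ∈ Vv a) : x ∈ a := by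
  refine od_ind (fun a => ∀ x, Od x → x ∈ Vv a → x ∈ a) (fun a ha ih x hx h => ?_) ha x hx h
  obtain ⟨b, hb, e⟩ := (mem_Vv ha).1 h
  exact hx.mem_of_sub ha (fun y hy => ih b hb y (hx.el hy) (e y hy)) hb

theorem od_bUn {a : M} {F : M → M} [Tm fun v => F (v 0)] (h : ∀ x, x ∈ a → Od (F x)) :
    Od (bUn a F) := od_sUn fun _ hy => by
  obtain ⟨x, hx, rfl⟩ := mem_img.1 hy
  exact h x hx

theorem ex_bound (a : M) (R : M → M → Prop) [D2 R] (h : ∀ x, x ∈ a → ∃ b, Od b ∧ R x b) :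
    ∃ c : M, Od c ∧ ∀ x, x ∈ a → ∃ b, b ∈ c ∧ R x b := by
  have h1 : ∀ x, x ∈ a → Od (least fun b => R x b) ∧ R x (least fun b => R x b) := fun x hx =>
    let ⟨_, hb, e⟩ := h x hx
    ⟨(least_spec _ hb e).1, (least_spec _ hb e).2.1⟩
  exact ⟨bUn a fun x => suc (least fun b => R x b), od_bUn fun x hx => (h1 x hx).1.suc,
    fun x hx => ⟨_, mem_bUn.2 ⟨x, hx, mem_suc.2 (Or.inr rfl)⟩, (h1 x hx).2⟩⟩

theorem ex_rank (x : M) : ∃ a : M, Od a ∧ x ∈ Vv a := by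
  refine mem_ind (fun x => ∃ a : M, Od a ∧ x ∈ Vv a) (fun x ih => ?_) x
  obtain ⟨c, hc, h⟩ := ex_bound x (fun y b => y ∈ Vv b) ih
  refine ⟨suc c, hc.suc, (mem_Vv hc.suc).2 ⟨c, mem_suc.2 (Or.inr rfl), fun y hy => ?_⟩⟩
  obtain ⟨b, hb, e⟩ := h y hy
  exact Vv_mono (hc.el hb) hc (hc.1 b hb) y e

theorem collect (a : M) (R : M → M → Prop) [D2 R] (h : ∀ x, x ∈ a → ∃ y, R x y) :
    ∃ Y : M, ∀ x, x ∈ a → ∃ y, y ∈ Y ∧ R x y := by
  obtain ⟨c, hc, h1⟩ := ex_bound a (fun x b => ∃ y, y ∈ Vv b ∧ R x y) fun x hx =>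
    let ⟨y, hy⟩ := h x hx
    let ⟨b, hb, e⟩ := ex_rank y
    ⟨b, hb, y, e, hy⟩
  refine ⟨Vv c, fun x hx => ?_⟩
  obtain ⟨b, hb, y, e, hy⟩ := h1 x hx
  exact ⟨y, Vv_mono (hc.el hb) hc (hc.1 b hb) y e, hy⟩

/-- choice -/
theorem chs (a : M) (R : M → M → Prop) [D2 R] (h : ∀ x, x ∈ a → ∃ y, R x y) :
    ∃ f, ∀ x, x ∈ a → R x (ap f x) := by
  obtain ⟨Y, hY⟩ := collect a R h
  obtain ⟨f, hf⟩ := choice a Y R hY
  exact ⟨f, fun x hx => (hf x hx).2⟩

/-- choice under a side condition -/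
theorem chs' (a : M) (Q : M → Prop) (R : M → M → Prop) [D1 Q] [D2 R]
    (h : ∀ x, x ∈ a → Q x → ∃ y, R x y) : ∃ f, ∀ x, x ∈ a → Q x → R x (ap f x) :=
  chs a (fun x y => Q x → R x y) fun x hx => by
    by_cases hq : Q x
    · exact (h x hx hq).imp fun _ h _ => h
    · exact ⟨x, fun h => absurd h hq⟩

theorem ex_rec (Y : M) (S : M → M → M → Prop) [D3 S] {b : M} (hb : Od b)
    (h : ∀ i f, i ∈ b → IsF f → dom f = i → (∀ j, j ∈ i → ap f j ∈ Y ∧ S j (res f j) (ap f j)) →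
      ∃ y, y ∈ Y ∧ S i f y) :
    ∃ F, IsF F ∧ dom F = b ∧ ∀ i, i ∈ b → ap F i ∈ Y ∧ S i (res F i) (ap F i) := by
  obtain ⟨c, hc⟩ := chs' (pow Y) (fun Z => ∃ x, x ∈ Z) (fun Z y => y ∈ Z) fun _ _ h => h
  obtain ⟨G, hGe⟩ : ∃ G : M → M, G = fun f => ap c (sep Y fun y => S (dom f) f y) := ⟨_, rfl⟩
  have hG : Fn1 G := ⟨by rw [hGe]; infer_instance⟩
  have key : ∀ i, Od i → i ∈ b → rc G i ∈ Y ∧ S i (lam i fun j => rc G j) (rc G i) := fun i hi => by
    refine od_ind (fun i => i ∈ b → rc G i ∈ Y ∧ S i (lam i fun j => rc G j) (rc G i))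
      (fun i hi ih hib => ?_) hi
    obtain ⟨y, hy⟩ := h i (lam i fun j => rc G j) hib isF_lam dom_lam fun j hj => by
      rw [ap_lam hj, res_lam (hi.1 j hj)]
      exact ih j hj (hb.tr hib hj)
    have h1 := hc (sep Y fun y => S i (lam i fun j => rc G j) y) (mem_pow.2 sep_sub)
      ⟨y, mem_sep.2 hy⟩
    have e : rc G i = ap c (sep Y fun y => S i (lam i fun j => rc G j) y) := by
      rw [rc_eq G hi]
      conv_lhs => rw [hGe]
      simp only [← hGe, dom_lam]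
    rw [← e] at h1
    exact mem_sep.1 h1
  refine ⟨lam b fun j => rc G j, isF_lam, dom_lam, fun i hi => ?_⟩
  rw [ap_lam hi, res_lam (hb.1 i hi)]
  exact key i (hb.el hi) hi

theorem ex_chain (Y : M) (P : M → M → Prop) (R : M → M → M → Prop) [D2 P] [D3 R] {b : M}
    (hb : Od b) (h : ∀ i f, i ∈ b →
      (∀ j, j ∈ i → ap f j ∈ Y ∧ P j (ap f j) ∧ ∀ k, k ∈ j → R k (ap f k) (ap f j)) →
      ∃ y, y ∈ Y ∧ P i y ∧ ∀ j, j ∈ i → R j (ap f j) y) :
    ∃ F, ∀ i, i ∈ b → ap F i ∈ Y ∧ P i (ap F i) ∧ ∀ j, j ∈ i → R j (ap F j) (ap F i) := by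
  obtain ⟨F, -, -, hF⟩ := ex_rec Y (fun i f y => P i y ∧ ∀ j, j ∈ i → R j (ap f j) y) hb
    fun i f hi _ _ g => h i f hi fun j hj => ⟨(g j hj).1, (g j hj).2.1, fun k hk => by
      have := (g j hj).2.2 k hk
      rwa [ap_res _ hk] at this⟩
  exact ⟨F, fun i hi => ⟨(hF i hi).1, (hF i hi).2.1, fun j hj => by
    have := (hF i hi).2.2 j hj
    rwa [ap_res _ hj] at this⟩⟩

section RecE

variable (G : M → M) [hG : Fn1 G]

/-- the function defined by recursion on membership -/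
noncomputable def rcE (a : M) : M :=
  the fun y => ∃ f X, Tr X ∧ Sub a X ∧ Apx G f X ∧ y = G (lam a fun y => ap f y)

instance tm_rcE (a : (ℕ → M) → M) [Tm a] : Tm fun v => rcE G (a v) := by
  unfold rcE; infer_instance

omit hG in
theorem rcE_of {f X a : M} (hX : Tr X) (ha : Sub a X) (hf : Apx G f X) :
    rcE G a = G (lam a fun y => ap f y) :=
  the_eq ⟨f, X, hX, ha, hf, rfl⟩ fun _ ⟨g, Y, hY, hb, hg, e⟩ => by
    rw [e, lam_congr fun y hy => mem_ind (fun z => z ∈ X → z ∈ Y → ap g z = ap f z)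
      (fun z ih h1 h2 => by
        rw [hf z h1, hg z h2, lam_congr fun y hy => ih y hy (hX z h1 y hy) (hY z h2 y hy)])
      y (ha y hy) (hb y hy)]

theorem rcE_eq (a : M) : rcE G a = G (lam a fun y => rcE G y) := by
  have k1 : ∀ f X a : M, Tr X → Sub a X → Apx G f X → rcE G a = G (lam a fun y => rcE G y) :=
    fun f X a hX ha hf => by
      rw [rcE_of G hX ha hf]
      congr 1
      exact lam_congr fun y hy => by
        rw [rcE_of G hX (hX y (ha y hy)) hf, hf y (ha y hy)]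
  have k2 : ∃ f X, Tr X ∧ Sub a X ∧ Apx G f X := by
    refine mem_ind (fun a => ∃ f X, Tr X ∧ Sub a X ∧ Apx G f X) (fun a ih => ?_) a
    obtain ⟨Z, hZ, ha⟩ := ex_tr a
    have hT : Tr (sep Z fun z => ∃ f X, Tr X ∧ Sub z X ∧ Apx G f X) := fun z hz w hw => by
      obtain ⟨h1, f, X, hX, h2, hf⟩ := mem_sep.1 hz
      exact mem_sep.2 ⟨hZ z h1 w hw, f, X, hX, hX w (h2 w hw), hf⟩
    refine ⟨lam (sep Z fun z => ∃ f X, Tr X ∧ Sub z X ∧ Apx G f X) fun y => rcE G y, _, hT,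
      fun b hb => mem_sep.2 ⟨hZ a ha b hb, ih b hb⟩, fun z hz => ?_⟩
    obtain ⟨-, f, X, hX, h2, hf⟩ := mem_sep.1 hz
    rw [ap_lam hz, k1 f X z hX h2 hf]
    congr 1
    exact lam_congr fun y hy => by rw [ap_lam (hT z hz y hy)]
  obtain ⟨f, X, hX, ha, hf⟩ := k2
  exact k1 f X a hX ha hf

end RecE

end Pool.Agent.P.MP_5f3b23_lc.Zf
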